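import Pool.Agent.Lib.A35.Blue

/-! The final inequalities. -/

namespace Pool.Agent.Lib.A35

namespace ARI

theorem pow_le {η : ℝ} (h : 0 ≤ η) (k : ℕ) (hk : k * η ≤ 1 / 2) :
    (1 + η) ^ k ≤ 1 + 2 * (k * η) := by
  induction k with
  | zero => simp
  | succ k ih =>
    push_cast at hk ⊢
    have h1 := ih (by linarith)
    have h2 : (1 + η) ^ k * (1 + η) ≤ (1 + 2 * (k * η)) * (1 + η) := by gcongr
    have h3 : k * η * η ≤ 1 / 2 * η := by gcongr; linarith
    rw [pow_succ]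
    nlinarith

theorem fin {n N η f P Q t τ ω a B E K D H W g : ℝ} (hn : 1 ≤ n) (hN : 0 ≤ N) (hη : 0 < η)
    (hs : n * η ≤ 1 / 2) (hq : n * n * (6 + 28 * N * n) * η < 1) (hf : 0 < f)
    (hQ : 1 ≤ Q) (hg0 : 0 ≤ g) (hg : g ≤ η) (hP : P = Q * (1 + g)) (hP' : P ≤ 1 + 2 * (n * η))
    (ht : 0 < t) (hω1 : 1 ≤ ω) (hω : ω ≤ η * t) (hτ : (1 - 4 * (n * η)) * f ≤ t * τ)
    (hfa : f = a + B) (ha : 0 ≤ a) (hB : f ≤ n * B) (h1 : τ ≤ E) (hτ0 : 0 ≤ τ)
    (h2 : t * E ≤ K + D + H) (h3 : D ≤ Q * a) (h4 : H ≤ Q * B) (h5 : K ≤ g * D)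
    (h6 : W ≤ K + E + 2 * n * max 0 ((1 + 2 * η) * (D + H) - (t - ω) * E)) (h7 : H ≤ N * W) :
    False := by
  have hB0 : 0 < B := by by_contra hc; nlinarith
  have hηs : η ≤ n * η := by nlinarith
  have hQP : Q ≤ P := by nlinarith
  have hP2 : P ≤ 2 := by linarith
  have hE0 : 0 ≤ E := hτ0.trans h1
  have a1 : t * τ ≤ t * E := by gcongr
  have a2 : (1 + g) * D ≤ P * a := by
    calc (1 + g) * D ≤ (1 + g) * (Q * a) := by gcongr
      _ = P * a := by rw [hP]; ring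
  have a3 : t * E ≤ P * a + H := by linarith
  have a4 : Q * B ≤ P * B := by gcongr
  have a5 : t * E ≤ 2 * f := by
    calc t * E ≤ P * f := by rw [hfa]; linarith
      _ ≤ 2 * f := by gcongr
  have a6 : ω * E ≤ 2 * (η * f) := by
    calc ω * E ≤ η * t * E := by gcongr
      _ = η * (t * E) := by ring
      _ ≤ η * (2 * f) := by gcongr
      _ = _ := by ring
  have a7 : E ≤ ω * E := by nlinarith
  have a8 : K ≤ 2 * (η * f) := by
    calc K ≤ g * D := h5
      _ ≤ g * (Q * a) := by gcongr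
      _ ≤ η * (2 * f) := by gcongr <;> linarith
      _ = _ := by ring
  have a9 : D + H ≤ (1 + 2 * (n * η)) * f := by
    calc D + H ≤ Q * f := by rw [hfa]; linarith
      _ ≤ _ := by gcongr; linarith
  have b1 : (1 + 2 * η) * (D + H) ≤ (1 + 2 * η) * ((1 + 2 * (n * η)) * f) := by gcongr
  have b2 : η * f ≤ n * η * f := by gcongr
  have b3 : η * (n * η * f) ≤ 1 / 2 * (n * η * f) := by gcongr; linarith
  have b4 : max 0 ((1 + 2 * η) * (D + H) - (t - ω) * E) ≤ 12 * (n * η * f) :=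
    max_le (by positivity) (by nlinarith)
  have b5 : 2 * n * max 0 ((1 + 2 * η) * (D + H) - (t - ω) * E) ≤ 2 * n * (12 * (n * η * f)) := by
    gcongr
  have b6 : n * η * f ≤ n * (n * η * f) := le_mul_of_one_le_left (by positivity) hn
  have b7 : W ≤ 28 * (n * (n * η * f)) := by linarith
  have b8 : H ≤ N * (28 * (n * (n * η * f))) := h7.trans (by gcongr)
  have c1 : P * a ≤ (1 + 2 * (n * η)) * a := by gcongr
  have c2 : n * η * a ≤ n * η * f := by gcongr; linarith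
  have c3 : B - 6 * (n * η * f) ≤ H := by nlinarith
  have c4 : n * B ≤ n * ((6 + 28 * N * n) * (n * η * f)) := by gcongr; linarith
  have c5 : n * n * (6 + 28 * N * n) * η * f < 1 * f := by gcongr
  nlinarith

end ARI

theorem st_ARI : St_ARI := by
  intro n N c r hr
  obtain ⟨Q, hQ⟩ : ∃ Q : ℝ, Q = n * n * (6 + 28 * N * n) + 2 * n + 8 := ⟨_, rfl⟩
  have hQ0 : 0 < Q := by rw [hQ]; positivity
  obtain ⟨η, hη, hηQ⟩ : ∃ η : ℝ, 0 < η ∧ η * Q = 1 := ⟨Q⁻¹, inv_pos.2 hQ0, inv_mul_cancel₀ hQ0.ne'⟩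
  have p1 : 0 ≤ (n : ℝ) * n * (6 + 28 * N * n) * η := by positivity
  have p2 : 0 ≤ (n : ℝ) * η := by positivity
  have p3 : (n : ℝ) * n * (6 + 28 * N * n) * η + 2 * (n * η) + 8 * η = 1 := by
    rw [← hηQ, hQ]; ring
  refine ⟨η, hη, by linarith, fun C => ?_⟩
  obtain ⟨ω, hω1, hω⟩ : ∃ ω : ℕ, 1 ≤ ω ∧ |C| ≤ η * ω := ⟨⌈|C| / η⌉₊ + 1, by omega, by
    have := Nat.le_ceil (|C| / η)
    rw [div_le_iff₀ hη] at this
    push_cast
    linarith⟩
  obtain ⟨V, hV⟩ : ∃ V : ℝ, η * V = 2 + 2 * n + 2 * (n * n * |C|) + |C| + c + 2 * ω :=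
    ⟨_ / η, mul_div_cancel₀ _ hη.ne'⟩
  have q1 : 0 ≤ |C| := abs_nonneg C
  have q2 : 0 ≤ (n : ℝ) * n * |C| := by positivity
  have q3 : 0 ≤ (n : ℝ) := n.cast_nonneg
  have q4 : 0 ≤ (c : ℝ) := c.cast_nonneg
  have q5 : (1 : ℝ) ≤ ω := by exact_mod_cast hω1
  have hV1 : 1 < V := by by_contra hc; nlinarith
  refine ⟨V ^ (n + 1), one_lt_pow₀ hV1 (by omega), ?_⟩
  intro e m w x y v A B ρ he hw hm hv hx hy hρ hxv hyv hT hmv hf hA hB
  have hvV : V ≤ v := by
    by_contra hc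
    have h1 : V ^ (n + 1) ≤ v ^ e := le_of_mul_le_mul_right (by rw [← pow_succ]; linarith) hv
    have h2 : v ^ e ≤ V ^ e := by gcongr; linarith
    have h3 : V ^ e < V ^ (n + 1) := pow_lt_pow_right₀ hV1 (by omega)
    linarith
  have hηv : η * V ≤ η * v := by gcongr
  have hvm : v ≤ m := le_trans (le_mul_of_one_le_left hv.le (one_le_pow₀ hV1.le)) hT
  have he' : (e : ℝ) + 1 ≤ n := by exact_mod_cast he
  have he0 : (0 : ℝ) ≤ e := e.cast_nonneg
  have hw' : (w : ℝ) ≤ n * n := by exact_mod_cast hw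
  have hm' : (0 : ℝ) < m := by exact_mod_cast hm
  have hr' : (1 : ℝ) ≤ r := by exact_mod_cast hr
  have hC := le_abs_self C
  obtain ⟨g, hg⟩ : ∃ g : ℝ, g = c / (r * m) := ⟨_, rfl⟩
  have hg0 : 0 ≤ g := by rw [hg]; positivity
  have hg1 : g ≤ η := by
    rw [hg, div_le_iff₀ (by positivity)]
    have h1 : η * v ≤ η * (r * m) := by
      gcongr
      exact hvm.trans (le_mul_of_one_le_left hm'.le hr')
    linarith
  rw [← hg] at hρ
  have hxη : x ≤ η := le_of_mul_le_mul_right (by linarith) hv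
  have q8 : η * v ≤ 1 / 8 * v := by gcongr; linarith
  obtain ⟨t, t1, t2⟩ : ∃ t : ℕ, (t : ℝ) ≤ (1 - 3 * η) * v ∧ (1 - 4 * η) * v ≤ t :=
    ⟨⌊(1 - 3 * η) * v⌋₊, Nat.floor_le (by linarith), by
      have := Nat.lt_floor_add_one ((1 - 3 * η) * v)
      linarith⟩
  have t3 : v / 2 ≤ t := by linarith
  have t4 : (0 : ℝ) < t := by linarith
  have t5 : (ω : ℝ) ≤ η * t := by
    have : η * (v / 2) ≤ η * t := by gcongr
    linarith
  have hηv0 : 0 ≤ η * v := by positivity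
  refine ⟨t, ω, 1 + 2 * η, by exact_mod_cast t4, hω1, ?_, by linarith, ?_, ?_⟩
  · have h1 : (w : ℝ) * x < η / 2 := by
      refine lt_of_mul_lt_mul_right ?_ hv.le
      calc w * x * v = w * (x * v) := by ring
        _ ≤ n * n * |C| := by gcongr; linarith
        _ < _ := by linarith
    have h2 : (t : ℝ) + (e + 1 : ℕ) ≤ (1 - η / 2) * ((1 - 2 * η) * v) := by
      push_cast
      have : 0 ≤ η * (η * v) := by positivity
      linarith
    have h3 : y * (t + (e + 1 : ℕ)) ≤ (1 - η / 2) * (y * ((1 - 2 * η) * v)) := by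
      rw [mul_left_comm]; gcongr
    have h4 : (1 - η / 2) * (y * ((1 - 2 * η) * v)) ≤ (1 - η / 2) * 1 := by gcongr; linarith
    linarith
  · have h1 : x * t / ω ≤ η := by
      rw [div_le_iff₀ (by linarith)]
      have : x * t ≤ x * v := by gcongr; linarith
      linarith
    have h2 : y * t ≤ y * ((1 - 2 * η) * v) := by gcongr; linarith
    linarith
  · intro E K D H W h1 h2 h3 h4 h5 h6 h7
    have hs : ((e + 1 : ℕ) : ℝ) * η ≤ n * η := by push_cast; gcongr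
    refine ARI.fin (n := n) (N := N) (η := η) (f := v ^ (e + 1)) (P := ρ ^ (e + 1)) (Q := ρ ^ e)
      (t := t) (τ := (t : ℝ) ^ e) (ω := ω) (a := m * A) (B := B) (E := E) (K := K) (D := m * D)
      (H := H) (W := W) (g := g) (by linarith) N.cast_nonneg hη (by linarith) (by linarith)
      (by positivity) (one_le_pow₀ (by linarith)) hg0 hg1 (by rw [pow_succ, hρ]) ?_ t4 q5 t5 ?_ hf
      (by positivity) ?_ h1 (by positivity) h2 ?_ h4 ?_ h6 h7
    · have a1 := ARI.pow_le hη.le (e + 1) (by linarith)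
      have a2 : ρ ^ (e + 1) ≤ (1 + η) ^ (e + 1) := by gcongr <;> linarith
      linarith
    · have a1 := one_add_mul_le_pow (a := -(4 * η)) (by linarith) (e + 1)
      have a2 : ((1 - 4 * η) * v) ^ (e + 1) ≤ (t : ℝ) ^ (e + 1) := by gcongr; linarith
      rw [mul_pow] at a2
      have a3 : (1 - 4 * (n * η)) * v ^ (e + 1) ≤ (1 - 4 * η) ^ (e + 1) * v ^ (e + 1) := by
        gcongr
        rw [sub_eq_add_neg 1 (4 * η)]
        linarith
      rw [← pow_succ']
      linarith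
    · have a0 : 0 < v ^ (e + 1) := by positivity
      have a1 : 0 < B := pos_of_mul_pos_right (a0.trans_le hB) (by positivity)
      exact hB.trans (by gcongr)
    · rw [mul_left_comm]; gcongr
    · refine le_of_mul_le_mul_left (h5.trans_eq ?_) (by linarith : (0 : ℝ) < r)
      rw [hg]
      field_simp

end Pool.Agent.Lib.A35
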