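import Pool.Agent.Lib.A35.B_SYS

/-! A nef class with positive top self-intersection is big. -/

open Module Submodule Set

noncomputable section

namespace Pool.Agent.Lib.A35

open Pool.Agent.Lib.MP_7fcda1_ag Pool.Agent.Lib.UR

theorem st_BIG : St_BIG := fun L _ _ e X k h hk => by
  have := FiniteDimensional.span_of_finite ℂ (finite_range X.p)
  obtain ⟨m, s, hm, hs, h1⟩ :=
    Mix.big_of_pos (SYS.p_ne X) (SYS.gen X) (SYS.dim X) (SYS.nefS X) h hk
  have h2 := Mix.big_of_sec (SYS.gen X) (SYS.dim X) hm hs h1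
  rw [← SYS.span_eq] at h2
  exact h2

end Pool.Agent.Lib.A35
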