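import Pool.Agent.Lib.UR.B_DIM
import Pool.Agent.Lib.MP_7fcda1_ag.CT2

/-! The divisor of the points of a curve centred at a given point; the curve is cut out by its
equations in the germ. -/

open Module Set MvPolynomial

set_option linter.unusedSectionVars false
set_option linter.unusedVariables false

noncomputable section

namespace Pool.Agent.Lib.A35

open Pool.Agent.Lib.MP_7fcda1_ag Pool.Agent.Lib.UR

namespace CRV

section cong
variable {k F : Type} [Field k] [Field F] [Algebra k F] [IsFF k F] (x : Place k F) {e : ℤ}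
  {R : Type} [CommRing R] {π : R →+* F} {ρ : R →+* k}

theorem ge_const (c : k) : Ge x.O 0 (algebraMap k F c) := Or.inr (x.ord_const c).ge

theorem ge_of_cg (he : 0 ≤ e) {a : F} {c : k} (h : Ge x.O e (a - algebraMap k F c)) :
    Ge x.O 0 a := by
  simpa using (h.mono he).add (ge_const x c)

theorem ord_of_cg (he : 0 < e) {a : F} {c : k} (hc : c ≠ 0)
    (h : Ge x.O e (a - algebraMap k F c)) : a ≠ 0 ∧ ord x.O a = 0 := by
  have h0 : algebraMap k F c ≠ 0 := by simpa using hc
  have h1 := ord_add_of_ge (V := x.O) h0 (b := a - algebraMap k F c)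
    (h.mono (by rw [x.ord_const]; omega))
  rwa [add_sub_cancel, x.ord_const] at h1

variable (π ρ) in
/-- The elements whose value on the curve is congruent to the value at the point. -/
def cg (he : 0 ≤ e) : Subring R where
  carrier := {r | Ge x.O e (π r - algebraMap k F (ρ r))}
  zero_mem' := Or.inl (by simp)
  one_mem' := Or.inl (by simp)
  add_mem' := fun {a b} ha hb => by
    have := Ge.add ha hb
    simp only [mem_ofPred_eq, map_add]
    rwa [show π a + π b - (algebraMap k F (ρ a) + algebraMap k F (ρ b)) =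
      π a - algebraMap k F (ρ a) + (π b - algebraMap k F (ρ b)) by ring]
  neg_mem' := fun {a} ha => by
    have := Ge.neg ha
    simp only [mem_ofPred_eq, map_neg]
    rwa [show -π a - -algebraMap k F (ρ a) = -(π a - algebraMap k F (ρ a)) by ring]
  mul_mem' := fun {a b} ha hb => by
    have := ((ge_of_cg x he ha).mul hb).add ((ge_const x (ρ b)).mul ha)
    simp only [mem_ofPred_eq, map_mul]
    rw [zero_add] at this
    rwa [show π a * π b - algebraMap k F (ρ a) * algebraMap k F (ρ b) =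
      π a * (π b - algebraMap k F (ρ b)) + algebraMap k F (ρ b) * (π a - algebraMap k F (ρ a))
      by ring]

theorem mem_cg {he : 0 ≤ e} {r : R} :
    r ∈ cg x π ρ he ↔ Ge x.O e (π r - algebraMap k F (ρ r)) := Iff.rfl

theorem cg_div (he : 0 < e) {r a b : R} (h : r * b = a) (hb0 : ρ b ≠ 0)
    (ha : a ∈ cg x π ρ he.le) (hb : b ∈ cg x π ρ he.le) : r ∈ cg x π ρ he.le := by
  obtain ⟨h1, h2⟩ := ord_of_cg x he hb0 hb
  have h3 := Ge.sub ha (by simpa using (ge_const x (ρ r)).mul hb)
  rw [← h, map_mul, map_mul, map_mul, show π r * π b - algebraMap k F (ρ r) * algebraMap k F (ρ b)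
    - algebraMap k F (ρ r) * (π b - algebraMap k F (ρ b)) = π b * (π r - algebraMap k F (ρ r))
    by ring, ge_mul_iff h1, h2, sub_zero] at h3
  exact h3

/-- Congruence on generators of a field gives congruence on the field. -/
theorem cg_field {k₀ L ι : Type} [Field k₀] [Field L] [Algebra k₀ L] {y : ι → L} (hy : Gen k₀ y)
    {σ : L →+* F} {s : L →+* k}
    (h0 : ∀ c : k₀, σ (algebraMap k₀ L c) = algebraMap k F (s (algebraMap k₀ L c)))
    (he : 0 < e) (h : ∀ j, Ge x.O e (σ (y j) - algebraMap k F (s (y j)))) (a : L) :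
    Ge x.O e (σ a - algebraMap k F (s a)) := by
  have h1 : ∀ p : MvPolynomial ι k₀, aeval y p ∈ cg x σ s he.le := fun p => by
    induction p using MvPolynomial.induction_on with
    | C c => exact Or.inl (by rw [aeval_C, h0, sub_self])
    | add f g hf hg => rw [map_add]; exact add_mem hf hg
    | mul_X f i hf => rw [map_mul, aeval_X]; exact mul_mem hf (h i)
  have ha : a ∈ IntermediateField.adjoin k₀ (range y) := by
    rw [show IntermediateField.adjoin k₀ (range y) = ⊤ from hy]
    trivial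
  obtain ⟨p, q, rfl⟩ := (IntermediateField.mem_adjoin_range_iff k₀ _ _).1 ha
  by_cases hq : aeval y q = 0
  · exact Or.inl (by simp [hq])
  · exact cg_div x he (div_mul_cancel₀ _ hq) ((map_ne_zero s).2 hq) (h1 p) (h1 q)

/-- Nonzero elements of the field are units at a place centred at the point. -/
theorem ord_field {L : Type} [Field L] {σ : L →+* F} {s : L →+* k} (he : 0 < e)
    (h : ∀ a, Ge x.O e (σ a - algebraMap k F (s a))) (a : L) : ord x.O (σ a) = 0 := by
  by_cases ha : a = 0
  · simp [ha]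
  · exact (ord_of_cg x he (by simpa using ha) (h a)).2

theorem vord_field {L ι : Type} [Field L] [Finite ι] {σ : L →+* F} {s : L →+* k} (he : 0 < e)
    (h : ∀ a, Ge x.O e (σ a - algebraMap k F (s a))) (w : ι → L) :
    vord x.O (fun i => σ (w i)) = 0 := by
  by_cases hw : (fun i => σ (w i)) = 0
  · simp [hw]
  · obtain ⟨i, -, hi⟩ := exists_vord (V := x.O) hw
    rw [← hi, ord_field x he h]

/-- Congruence on a ring of fractions of a ring generated by congruent elements. -/
theorem cg_all (he : 0 < e) {S : Set R} (hS : ∀ a ∈ S, Ge x.O e (π a - algebraMap k F (ρ a)))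
    (hR : ∀ r : R, ∃ a ∈ Subring.closure S, ∃ b ∈ Subring.closure S, ρ b ≠ 0 ∧ r * b = a)
    (r : R) : Ge x.O e (π r - algebraMap k F (ρ r)) := by
  obtain ⟨a, ha, b, hb, h0, h⟩ := hR r
  have h1 : Subring.closure S ≤ cg x π ρ he.le := Subring.closure_le.2 hS
  exact cg_div x he h h0 (h1 ha) (h1 hb)

/-- Powers of the maximal ideal. -/
theorem ge_pow (he : 0 ≤ e) (h : ∀ r, Ge x.O e (π r - algebraMap k F (ρ r))) (N : ℕ) {r : R}
    (hr : r ∈ RingHom.ker ρ ^ N ⊔ RingHom.ker π) : Ge x.O (N * e) (π r) := by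
  let B : ℤ → Ideal R := fun n =>
    { carrier := {r | Ge x.O n (π r)}
      zero_mem' := Or.inl (map_zero π)
      add_mem' := fun ha hb => by
        simp only [mem_ofPred_eq, map_add] at ha hb ⊢
        exact ha.add hb
      smul_mem' := fun c a ha => by
        simp only [mem_ofPred_eq, smul_eq_mul, map_mul] at ha ⊢
        simpa using (ge_of_cg x he (h c)).mul ha }
  have hB : ∀ n r, r ∈ B n ↔ Ge x.O n (π r) := fun _ _ => Iff.rfl
  have hp : ∀ N : ℕ, RingHom.ker ρ ^ N ≤ B (N * e) := by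
    intro N
    induction N with
    | zero =>
      intro r _
      simpa [hB] using ge_of_cg x he (h r)
    | succ N ih =>
      rw [pow_succ]
      refine Ideal.mul_le.2 fun a ha b hb => ?_
      have h1 := h b
      rw [(RingHom.mem_ker).1 hb, map_zero, sub_zero] at h1
      rw [hB, map_mul, Nat.cast_succ, add_mul, one_mul]
      exact Ge.mul (ih ha) h1
  exact (sup_le (hp N) fun a ha => Or.inl ha : _ ≤ B (N * e)) hr

end cong

section div
variable {k F ι : Type} [Field k] [Field F] [Algebra k F] [IsFF k F] [Finite ι]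

variable (k) in
/-- The divisor of common zeros of a tuple. -/
def zdiv (ζ : ι → F) : Div k F := vdiv k ζ ⊔ 0

theorem zdiv_apply (ζ : ι → F) (x : Place k F) : zdiv k ζ x = max 0 (vord x.O ζ) := by
  rw [zdiv, Finsupp.sup_apply, vdiv_apply, max_comm]
  rfl

theorem zdiv_nonneg (ζ : ι → F) : 0 ≤ zdiv k ζ := le_sup_right

theorem ge_zdiv {ζ : ι → F} {x : Place k F} (h : 0 < zdiv k ζ x) (j : ι) :
    Ge x.O (zdiv k ζ x) (ζ j) := by
  by_cases h0 : ζ = 0
  · exact Or.inl (congrFun h0 j)
  · rw [zdiv_apply] at h ⊢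
    exact (vge_iff h0).2 (by omega) j

theorem le_zdiv {ζ : ι → F} (h0 : ζ ≠ 0) {x : Place k F} {n : ℤ} (h : ∀ j, Ge x.O n (ζ j)) :
    n ≤ zdiv k ζ x := by
  rw [zdiv_apply]
  exact le_max_of_le_right ((vge_iff h0).1 h)

theorem exists_ord_le {ζ : ι → F} (h0 : ζ ≠ 0) (x : Place k F) :
    ∃ j, ζ j ≠ 0 ∧ ord x.O (ζ j) ≤ zdiv k ζ x := by
  obtain ⟨j, h1, h2⟩ := exists_vord (V := x.O) h0
  exact ⟨j, h1, by rw [zdiv_apply, h2]; exact le_max_right _ _⟩

theorem vord_opt {ζ : ι → F} (h0 : ζ ≠ 0) (x : Place k F) :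
    vord x.O (opt ζ) = min 0 (vord x.O ζ) := by
  have h1 : opt ζ ≠ 0 := fun h => one_ne_zero (congrFun h none)
  refine eq_of_forall_le_iff fun n => ?_
  rw [← vge_iff h1, le_min_iff, ← vge_iff h0, VGe, Option.forall]
  exact and_congr (by rw [show opt ζ none = 1 from rfl, ge_iff one_ne_zero, ord_one]) Iff.rfl

/-- The degree as a difference of heights. -/
theorem degD_zdiv {ζ : ι → F} (h0 : ζ ≠ 0) : degD (zdiv k ζ) = ht k (opt ζ) - ht k ζ := by
  have : zdiv k ζ = vdiv k ζ - vdiv k (opt ζ) := by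
    ext x
    rw [Finsupp.sub_apply, zdiv_apply, vdiv_apply, vdiv_apply, vord_opt h0]
    omega
  rw [this, map_sub, ht, ht]
  ring

/-- (a) -/
theorem deg_le_zdiv {ζ : ι → F} (h0 : ζ ≠ 0) (x : Place k F) (h : ∀ j, Ge x.O 1 (ζ j)) :
    (x.deg : ℤ) ≤ degD (zdiv k ζ) := by
  classical
  have h1 : Finsupp.single x (1 : ℤ) ≤ zdiv k ζ := fun v => by
    rw [Finsupp.single_apply]
    split_ifs with hv
    · exact hv ▸ le_zdiv h0 h
    · exact zdiv_nonneg ζ v
  simpa [degD_single] using degD_mono h1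

/-- (c) -/
theorem mul_deg_le {E μ : Div k F} (hE : 0 ≤ E) {a : F} (ha : a ≠ 0) {t : ℤ}
    (h1 : ∀ x : Place k F, Ge x.O (μ x) a)
    (h2 : ∀ x : Place k F, 0 < E x → μ x ≤ 0 ∧ Ge x.O (t * E x) a) :
    t * degD E ≤ -degD μ := by
  have h3 : t • E + μ ≤ div k a := fun x => by
    rw [div_apply, Finsupp.add_apply, Finsupp.smul_apply, smul_eq_mul]
    rcases (show (0 : ℤ) ≤ E x from hE x).eq_or_lt with h | h
    · rw [← h, mul_zero, zero_add]
      exact (ge_iff ha).1 (h1 x)
    · have := (ge_iff ha).1 (h2 x h).2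
      have := (h2 x h).1
      omega
  have h4 := degD_mono h3
  rw [degD_div, map_add, map_smul, smul_eq_mul] at h4
  omega

end div

/-- A prime of the germ along the curve that contains the equations of the curve is maximal. -/
theorem only_prime {κ K k Fb R G A Z : Type} [Field κ] [Field K] [Algebra κ K] [Field k]
    [Algebra κ k] [Field Fb] [Algebra k Fb] [CommRing R] [Algebra κ R] [CommRing G] [Algebra k G]
    [Algebra κ G] [IsScalarTower κ k G] [Fintype A] [Fintype Z] (π : R →ₐ[κ] K)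
    (hd : Dim κ K (Fintype.card A + 1)) (s : Z → k) (t : A → k)
    (hI : AlgebraicIndependent κ (Sum.elim s t))
    (hk : ∀ c : k, IsAlgebraic (IntermediateField.adjoin κ (range s ∪ range t)) c)
    (φ : R →ₐ[κ] G) (ρ : G →ₐ[k] Fb)
    (hG : ∀ g : G, ∃ a ∈ Algebra.adjoin k (range φ), ∃ b ∈ Algebra.adjoin k (range φ),
      ρ b ≠ 0 ∧ g * b = a) {τ : G} (hτ : Transcendental k (ρ τ)) {s₀ : R} (h0 : ρ (φ s₀) ≠ 0)
    (W : A → Z → R) (P : Ideal G) [P.IsPrime] (hP : P ≤ RingHom.ker ρ)
    (hp : ∀ r, π r = 0 → φ r ∈ P) (hθ : ∀ a, t a • φ s₀ - ∑ z, s z • φ (W a z) ∈ P) :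
    P = RingHom.ker ρ := by
  obtain ⟨Q, _, _, _, _, q, hq, hQ⟩ : ∃ (Q : Type) (_ : Field Q) (_ : Algebra k Q)
      (_ : Algebra κ Q) (_ : IsScalarTower κ k Q) (q : G →ₐ[k] Q), (∀ g, q g = 0 ↔ g ∈ P) ∧
      ∀ x : Q, ∃ a b, x = q a / q b := by
    refine ⟨FractionRing (G ⧸ P), inferInstance, inferInstance, inferInstance, inferInstance,
      (IsScalarTower.toAlgHom k (G ⧸ P) _).comp (Ideal.Quotient.mkₐ k P), fun g => ?_, fun x => ?_⟩
    · exact (map_eq_zero_iff _ (IsFractionRing.injective (G ⧸ P) _)).trans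
        Ideal.Quotient.eq_zero_iff_mem
    · obtain ⟨a, b, -, rfl⟩ := IsFractionRing.div_surjective (A := G ⧸ P) x
      obtain ⟨a, rfl⟩ := Ideal.Quotient.mk_surjective a
      obtain ⟨b, rfl⟩ := Ideal.Quotient.mk_surjective b
      exact ⟨a, b, rfl⟩
  have hne : ∀ g, ρ g ≠ 0 → q g ≠ 0 := fun g hg h => hg (hP ((hq g).1 h))
  let ψ : R →ₐ[κ] Q := (q.restrictScalars κ).comp φ
  let i : k →ₐ[κ] Q := IsScalarTower.toAlgHom κ k Q
  let T : Set Q := range ψ ∪ range fun z => i (s z)
  let M := IntermediateField.adjoin κ T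
  have hψ : ∀ r, ψ r ∈ M := fun r => IntermediateField.subset_adjoin κ T (Or.inl ⟨r, rfl⟩)
  have hs : ∀ z, i (s z) ∈ M := fun z => IntermediateField.subset_adjoin κ T (Or.inr ⟨z, rfl⟩)
  have ht : ∀ a, i (t a) ∈ M := fun a => by
    have h1 := (hq _).2 (hθ a)
    simp only [map_sub, map_sum, map_mul, AlgHom.commutes, Algebra.smul_def, sub_eq_zero] at h1
    have h2 : i (t a) = (∑ z, i (s z) * ψ (W a z)) / ψ s₀ :=
      eq_div_of_mul_eq (hne _ h0) h1
    rw [h2]
    exact div_mem (sum_mem fun z _ => mul_mem (hs z) (hψ _)) (hψ _)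
  have hcl : ∀ c : k, IsAlgebraic M (i c) := fun c => by
    have h1 : (IntermediateField.adjoin κ (range s ∪ range t)).map i ≤ M := by
      rw [IntermediateField.adjoin_map, IntermediateField.adjoin_le_iff]
      rintro _ ⟨_, ⟨z, rfl⟩ | ⟨a, rfl⟩, rfl⟩
      exacts [hs z, ht a]
    let f : IntermediateField.adjoin κ (range s ∪ range t) →+* M :=
      ((i : k →+* Q).comp (IntermediateField.adjoin κ (range s ∪ range t)).subtype).codRestrict
        M fun c => h1 ⟨c, c.2, rfl⟩
    exact (hk c).ringHom_of_comp_eq f (i : k →+* Q) f.injective (by ext; rfl)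
  have hall : ∀ x : Q, IsAlgebraic M x := by
    let N := algebraicClosure M Q
    have h1 : ∀ a ∈ Algebra.adjoin k (range φ), q a ∈ N := fun a ha => by
      induction ha using Algebra.adjoin_induction with
      | mem x hx =>
        obtain ⟨r, rfl⟩ := hx
        exact N.algebraMap_mem ⟨_, hψ r⟩
      | algebraMap c => rw [q.commutes]; exact mem_algebraicClosure_iff.2 (hcl c)
      | add x y _ _ hx hy => rw [map_add]; exact add_mem hx hy
      | mul x y _ _ hx hy => rw [map_mul]; exact mul_mem hx hy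
    have h2 : ∀ g, q g ∈ N := fun g => by
      obtain ⟨a, ha, b, hb, h3, h4⟩ := hG g
      rw [eq_div_of_mul_eq (hne b h3) ((map_mul q g b).symm.trans (congrArg q h4))]
      exact div_mem (h1 a ha) (h1 b hb)
    intro x
    obtain ⟨a, b, rfl⟩ := hQ x
    exact mem_algebraicClosure_iff.1 (div_mem (h2 a) (h2 b))
  have hup : rk κ (Set.univ : Set Q) ≤ ((Fintype.card A + 1 + Fintype.card Z : ℕ) : ℕ∞) := by
    refine (rk_le_of_alg fun x _ => hall x).trans (rk_union_le.trans ?_)
    rw [Nat.cast_add]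
    refine add_le_add ?_ (rk_range_le _)
    refine (rk_hom_le (z := π) (z' := ψ) fun f hf => ?_).trans
      ((rk_mono (subset_univ _)).trans (DIM.rk_of_dim hd).le)
    have e1 : ∀ {E : Type} [Field E] [Algebra κ E] (χ : R →ₐ[κ] E),
        aeval χ f = χ (aeval id f) := fun χ => by
      rw [comp_aeval_apply]
      rfl
    rw [e1] at hf ⊢
    exact (hq _).2 (hp _ hf)
  have hlow : ((Fintype.card Z + Fintype.card A : ℕ) : ℕ∞) ≤ rk κ (Set.univ : Set k) := by
    rw [← Fintype.card_sum, ← rk_range_indep hI]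
    exact rk_mono (subset_univ _)
  have htw := rk_tower (k := κ) (K := k) (S := (Set.univ : Set Q))
  rw [union_univ] at htw
  have h1 : rk k (Set.univ : Set Q) ≤ 1 := by
    have h2 := (add_le_add hlow le_rfl).trans (htw.ge.trans hup)
    rw [show Fintype.card A + 1 + Fintype.card Z = Fintype.card Z + Fintype.card A + 1 by ring,
      Nat.cast_add _ 1] at h2
    exact (ENat.add_le_add_iff_left (ENat.natCast_ne_top _)).1 h2
  refine le_antisymm hP fun g hg => ?_
  by_contra hgP
  have h3 : rk k (range q) ≤ 1 := (rk_mono (subset_univ _)).trans h1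
  have e1 : ∀ {E : Type} [Field E] [Algebra k E] (χ : G →ₐ[k] E) (f : MvPolynomial G k),
      aeval χ f = χ (aeval id f) := fun χ f => by
    rw [comp_aeval_apply]
    rfl
  have h4 := rk_hom_lt (k := k) (z := q) (z' := ρ) (ne_top_of_le_ne_top (by simp) h3)
    (fun f hf => by
      rw [e1] at hf ⊢
      exact hP ((hq _).1 hf)) (g := X g) (by rw [aeval_X]; exact fun h => hgP ((hq g).1 h))
    (by rw [aeval_X]; exact hg)
  have h5 : rk k (range fun _ : Unit => ρ τ) = 1 := by
    rw [rk_range_indep (algebraicIndependent_unique_type_iff.2 hτ)]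
    simp
  exact absurd (h4.trans_le h3)
    (not_lt.2 (h5.ge.trans (rk_mono (range_subset_iff.2 fun _ => ⟨τ, rfl⟩))))

/-- An ideal contained in exactly one prime contains a power of it. -/
theorem pow_le_of_only {G : Type} [CommRing G] [IsNoetherianRing G] {I m : Ideal G}
    (h : ∀ P : Ideal G, P.IsPrime → I ≤ P → P = m) : ∃ B : ℕ, m ^ B ≤ I :=
  Ideal.exists_pow_le_of_le_radical_of_fg (by
    rw [Ideal.radical_eq_sInf]
    exact le_sInf fun P hP => (h P hP.2 hP.1).ge) (IsNoetherian.noetherian m)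

end CRV

end Pool.Agent.Lib.A35
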