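import Pool.Agent.Lib.A35.BCH

/-! Heights of linear systems on a curve, and the cut of a curve by one member of any family. -/

open scoped IntermediateField
open Module Set

set_option linter.unusedSectionVars false

noncomputable section

namespace Pool.Agent.Lib.A35.H91

open Pool.Agent.Lib.MP_7fcda1_ag Pool.Agent.Lib.UR

/-- Comparison of heights on a curve from an inclusion of complete linear systems:
`γ U ^ u H ^ e ≤ cl (P ^ a H' ^ b)`. -/
def St_HTC : Prop := ∀ (k L κ F : Type) [Field k] [Field L] [Field κ] [Field F] [Algebra k L]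
  [Algebra k κ] [Algebra κ F] [Algebra k F] [IsScalarTower k κ F] [IsFF κ F] (σ : L →ₐ[k] F)
  (ι₁ ι₂ ι₃ ι₄ : Type) [Finite ι₁] [Finite ι₂] [Finite ι₃] [Finite ι₄] (w : ι₁ → L) (y : ι₂ → L)
  (p : ι₃ → L) (z : ι₄ → L) (γ : L) (u e a b : ℕ), w ≠ 0 → y ≠ 0 → p ≠ 0 → z ≠ 0 → γ ≠ 0 →
    Submodule.span k {γ} * Submodule.span k (range w) ^ u * Submodule.span k (range y) ^ e ≤
      cl (Submodule.span k (range p) ^ a * Submodule.span k (range z) ^ b) →
    u * ht κ (fun i => σ (w i)) + e * ht κ (fun i => σ (y i)) ≤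
      a * ht κ (fun i => σ (p i)) + b * ht κ (fun i => σ (z i))

/-- The cut of a curve by a generic member of any finite family. -/
def St_CRW : Prop := ∀ (k L : Type) [Field k] [CharZero k] [Field L] [Algebra k L] [IsFF k L]
  (τ : Type) [Fintype τ] (w : τ → L) (C : Cut k L (rep 1 w)), (C.deg : ℤ) ≤ dg k (opt w)

namespace HTC

section tp
variable {k L F : Type} [Field k] [Field L] [Field F] [Algebra k L] {V : ValuationSubring F}
  {σ : L →+* F} {U U' : Submodule k L} {n n' : ℤ}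

/-- The least order along `V` of the image of an element of `U` is `n`. -/
def Tp (V : ValuationSubring F) (σ : L →+* F) (U : Submodule k L) (n : ℤ) : Prop :=
  (∃ u ∈ U, u ≠ 0 ∧ ord V (σ u) = n) ∧ ∀ x ∈ U, Ge V n (σ x)

theorem Tp.span (hk : ∀ c : k, ord V (σ (algebraMap k L c)) = 0) {ι : Type} [Finite ι]
    {y : ι → L} (hy : y ≠ 0) : Tp V σ (Submodule.span k (range y)) (vord V fun i => σ (y i)) := by
  have h0 : (fun i => σ (y i)) ≠ 0 := fun h =>
    hy (funext fun i => σ.injective ((congrFun h i).trans (map_zero σ).symm))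
  obtain ⟨i, h1, h2⟩ := exists_vord (V := V) h0
  refine ⟨⟨y i, Submodule.subset_span ⟨i, rfl⟩, fun h => h1 (by simp [h]), h2⟩, fun x hx => ?_⟩
  induction hx using Submodule.span_induction with
  | mem x hx =>
    obtain ⟨j, rfl⟩ := hx
    exact (vge_iff h0).2 le_rfl j
  | zero => exact Or.inl (map_zero σ)
  | add x y _ _ hx hy => rw [map_add]; exact hx.add hy
  | smul c x _ hx =>
    rw [Algebra.smul_def, map_mul]
    simpa using Ge.mul (Or.inr (hk c).ge) hx

theorem Tp.single (hk : ∀ c : k, ord V (σ (algebraMap k L c)) = 0) {γ : L} (h : γ ≠ 0) :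
    Tp V σ (Submodule.span k {γ}) (ord V (σ γ)) := by
  refine ⟨⟨γ, Submodule.subset_span rfl, h, rfl⟩, fun x hx => ?_⟩
  obtain ⟨c, rfl⟩ := Submodule.mem_span_singleton.1 hx
  rw [Algebra.smul_def, map_mul]
  simpa using Ge.mul (Or.inr (hk c).ge) (ge_ord (V := V) (a := σ γ))

theorem Tp.mul (h : Tp V σ U n) (h' : Tp V σ U' n') : Tp V σ (U * U') (n + n') := by
  obtain ⟨⟨u, hu, h0, h1⟩, h2⟩ := h
  obtain ⟨⟨u', hu', h0', h1'⟩, h2'⟩ := h'
  refine ⟨⟨u * u', Submodule.mul_mem_mul hu hu', mul_ne_zero h0 h0', ?_⟩, fun x hx => ?_⟩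
  · rw [map_mul, ord_mul ((map_ne_zero σ).2 h0) ((map_ne_zero σ).2 h0'), h1, h1']
  · refine Submodule.mul_induction_on hx (fun a ha b hb => ?_) fun a b ha hb => ?_
    · rw [map_mul]
      exact (h2 a ha).mul (h2' b hb)
    · rw [map_add]
      exact ha.add hb

theorem Tp.pow (hk : ∀ c : k, ord V (σ (algebraMap k L c)) = 0) (h : Tp V σ U n) (j : ℕ) :
    Tp V σ (U ^ j) (j * n) := by
  induction j with
  | zero =>
    have := Tp.single hk (one_ne_zero (α := L))
    rw [map_one, ord_one, ← Submodule.one_eq_span] at this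
    simpa using this
  | succ j ih =>
    rw [pow_succ, Nat.cast_succ, add_mul, one_mul]
    exact ih.mul h

theorem ge_of_cl (hV : Disc V) (hk : ∀ c : k, ord V (σ (algebraMap k L c)) = 0)
    (h' : ∀ x ∈ U', Ge V n' (σ x)) {x : L} (hx : x ∈ cl U') : Ge V n' (σ x) := by
  obtain ⟨u, hu, h1⟩ := hx (V.comap σ) fun c => (mem_iff_ge (Or.inl hV)).2 (Or.inr (hk c).ge)
  obtain ⟨a, ha⟩ := (ValuationSubring.valuation_le_iff _ _ _).1 h1
  rw [← ha, map_mul]
  simpa using Ge.mul ((mem_iff_ge (Or.inl hV)).1 a.2) (h' u hu)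

theorem Tp.le (hV : Disc V) (hk : ∀ c : k, ord V (σ (algebraMap k L c)) = 0) (h : Tp V σ U n)
    (h' : Tp V σ U' n') (hU : U ≤ cl U') : n' ≤ n := by
  obtain ⟨⟨u, hu, h0, h1⟩, -⟩ := h
  rw [← h1]
  exact (ge_iff ((map_ne_zero σ).2 h0)).1 (ge_of_cl hV hk h'.2 (hU hu))

end tp

end HTC

theorem st_HTC : St_HTC := by
  intro k L κ F _ _ _ _ _ _ _ _ _ _ σ ι₁ ι₂ ι₃ ι₄ _ _ _ _ w y p z γ u e a b hw hy hp hz hγ h
  have h1 : a • vdiv κ (fun i => σ (p i)) + b • vdiv κ (fun i => σ (z i)) ≤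
      div κ (σ γ) + u • vdiv κ (fun i => σ (w i)) + e • vdiv κ (fun i => σ (y i)) := fun v => by
    have hk : ∀ c : k, ord v.O ((σ : L →+* F) (algebraMap k L c)) = 0 := fun c => by
      rw [RingHom.coe_coe, AlgHom.commutes, IsScalarTower.algebraMap_apply k κ F]
      exact v.ord_const _
    have h2 := HTC.Tp.le v.disc hk (((HTC.Tp.single hk hγ).mul ((HTC.Tp.span hk hw).pow hk u)).mul
      ((HTC.Tp.span hk hy).pow hk e)) (((HTC.Tp.span hk hp).pow hk a).mul
        ((HTC.Tp.span hk hz).pow hk b)) h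
    simpa only [Finsupp.add_apply, Finsupp.smul_apply, vdiv_apply, div_apply, nsmul_eq_mul,
      RingHom.coe_coe] using h2
  have h2 := degD_mono h1
  simp only [map_add, map_nsmul, degD_div, nsmul_eq_mul] at h2
  simp only [ht]
  linarith

theorem st_CRW : St_CRW := by
  intro k L _ _ _ _ _ τ _ w C
  have hg : Gen C.ks (algebraMap L C.L') := by
    let T := IntermediateField.adjoin C.ks (range (algebraMap L C.L'))
    have h1 : IntermediateField.adjoin L (range fun z => algebraMap C.k' C.L' (C.s z)) ≤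
        T.toSubfield.toIntermediateField fun x => IntermediateField.subset_adjoin _ _ ⟨x, rfl⟩ :=
      IntermediateField.adjoin_le_iff.2 (range_subset_iff.2 fun z =>
        T.algebraMap_mem ⟨C.ss z, IntermediateField.subset_adjoin k _ ⟨z, rfl⟩⟩)
    exact eq_top_iff.2 fun x _ => h1 (C.genL.ge trivial)
  obtain ⟨hff, h⟩ := st_HLD k L C.ks C.L' hg fun _ _ hx => Set'.lin C hx
  obtain ⟨i, hi⟩ := Set'.exists_equiv C
  have hc : (algebraMap (IntermediateField.adjoin C.ks (range C.tt)) C.L').comp i.toRingHom =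
      (RingEquiv.refl C.L').toRingHom.comp (algebraMap C.k' C.L') := RingHom.ext hi
  have h1 : C.deg = finrank C.ks⟮C.tt 0⟯ C.L' := by
    rw [Cut.deg, Algebra.finrank_eq_of_equiv_equiv i (RingEquiv.refl C.L') hc, range_unique]
    rfl
  have h2 : dg k (opt w) = dg C.ks (opt (C.map w)) := by
    rw [C.map_opt]
    exact h _ (opt w)
  rw [h1, h2]
  by_cases ht : Transcendental C.ks (C.tt 0)
  · rw [← degD_poles ht, dg, ← map_neg]
    refine degD_mono fun v => ?_
    have h3 := CRV.neg_nonneg' (k := C.ks) (C.map w) v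
    have h4 : C.tt 0 ∈ cl (sys C.ks (C.map w) ^ 1) := by
      rw [pow_one, C.tt_eq]
      refine le_cl _ (sum_mem fun j _ => ?_)
      exact (sys C.ks (C.map w)).smul_mem
        ⟨C.ss (0, j), IntermediateField.subset_adjoin k _ ⟨_, rfl⟩⟩ (mem_sys _ j)
    have h5 := (ge_iff fun h0 => ht (by rw [h0]; exact isAlgebraic_zero)).1 ((LSC.mem_cl_pow _ _ _).1 h4 v)
    rw [poles_apply]
    simp only [Finsupp.coe_zero, Pi.zero_apply, Finsupp.coe_neg, Pi.neg_apply, vdiv_apply] at h3 ⊢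
    omega
  · have h3 : ¬FiniteDimensional C.ks⟮C.tt 0⟯ C.L' := fun h3 => by
      have := IntermediateField.adjoin.finiteDimensional (not_not.1 ht).isIntegral
      have := Module.Finite.trans (R := C.ks) C.ks⟮C.tt 0⟯ C.L'
      obtain ⟨f, hf, -⟩ := IsFF.ex (κ := C.ks) (L := C.L')
      exact hf (Algebra.IsAlgebraic.isAlgebraic f)
    rw [Module.finrank_of_not_finite h3, dg, ← map_neg]
    simpa using degD_mono (CRV.neg_nonneg' (k := C.ks) (C.map w))

end Pool.Agent.Lib.A35.H91
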