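import Pool.Agent.Lib.UR.B_DIM
import Pool.Agent.Lib.UR.B_EXC
import Pool.Agent.Lib.UR.B_GPO
import Pool.Agent.Lib.UR.B_SET
import Pool.Agent.Lib.UR.B_ASY
import Pool.Agent.Lib.UR.B_MON
import Pool.Agent.Lib.UR.B_POL
import Pool.Agent.Lib.UR.B_TRC
import Pool.Agent.Lib.UR.B_ALG
import Pool.Agent.Lib.UR.B_NOE
import Pool.Agent.Lib.UR.B_HSU
import Pool.Agent.Lib.MP_7fcda1_ag.Plc1
import Pool.Agent.Lib.MP_7fcda1_ag.CT2

/-! The place of a generic cut by functions with generic initial forms at a smooth point. -/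

open Module Set Filter Topology MvPolynomial

set_option linter.unusedSectionVars false
set_option linter.unusedVariables false

noncomputable section

namespace Pool.Agent.Lib.A35

open Pool.Agent.Lib.MP_7fcda1_ag Pool.Agent.Lib.UR

/-- `π : R → K` is a germ with rational point `ρ`, whose tangent cone is the affine space with
coordinates `ζ`. -/
structure Cone {κ R K : Type} [Field κ] [CommRing R] [Algebra κ R] [Field K] [Algebra κ K]
    (π : R →ₐ[κ] K) (ρ : R →ₐ[κ] κ) {d : ℕ} (ζ : Fin d → R) : Prop where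
  gen : RingHom.ker ρ ≤ Ideal.span (range ζ) ⊔ RingHom.ker π
  mem : ∀ j, ρ (ζ j) = 0
  tay : ∀ (s : ℕ) (P : MvPolynomial (Fin d) R), P.IsHomogeneous s → π (eval ζ P) = 0 →
    MvPolynomial.map (ρ : R →+* κ) P = 0

/-- The family `s` has as initial forms all monomials of degree `t`, and `s z₀` has initial form
`ζ 0 ^ t`. -/
structure Jets {κ R K : Type} [Field κ] [CommRing R] [Algebra κ R] [Field K] [Algebra κ K]
    (π : R →ₐ[κ] K) (ρ : R →ₐ[κ] κ) {e : ℕ} (ζ : Fin (e + 1) → R) (t : ℕ) {Z : Type}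
    (α : Z → Fin (e + 1) → ℕ) (s : Z → R) (z₀ : Z) : Prop where
  pos : 0 < t
  deg : ∀ z, ∑ j, α z j = t
  onto : ∀ β : Fin (e + 1) → ℕ, ∑ j, β j = t → ∃ z, α z = β
  base : α z₀ 0 = t
  jet : ∀ z, s z - ∏ j, ζ j ^ α z j ∈ RingHom.ker ρ ^ (t + 1) ⊔ RingHom.ker π

/-- The cuts by at most `e` members have the expected dimension; the curve cut by `e` members
has a place of degree at least `t ^ e` centred at the point. -/
def St_PLACE : Prop :=
  ∀ (κ R K : Type) [Field κ] [CharZero κ] [CommRing R] [Algebra κ R] [Field K] [Algebra κ K]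
    (π : R →ₐ[κ] K) (ρ : R →ₐ[κ] κ) (e : ℕ) (ζ : Fin (e + 1) → R) (t : ℕ) (Z : Type) [Fintype Z]
    (α : Z → Fin (e + 1) → ℕ) (s : Z → R) (z₀ : Z), Cone π ρ ζ → Jets π ρ ζ t α s z₀ →
    Dim κ K (e + 1) → π (s z₀) ≠ 0 ∧
    (∀ i n, i + n = e → ∀ C : Cut κ K (rep i fun z => π (s z) / π (s z₀)),
      AlgebraicIndependent κ (Sum.elim C.s C.t) ∧ Dim C.k' C.L' (n + 1)) ∧
    ∀ (C : Cut κ K (rep e fun z => π (s z) / π (s z₀))) [IsFF C.k' C.L'],
      ∃ x : Place C.k' C.L', t ^ e ≤ x.deg ∧ (∀ r, algebraMap K C.L' (π r) ∈ x.O) ∧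
        ∀ r, ρ r = 0 → Ge x.O 1 (algebraMap K C.L' (π r))

namespace PLC

section hom
variable {R L σ : Type} [CommRing R] [Field L]

theorem ev_smul (f : R →+* L) {G : MvPolynomial σ R} {d : ℕ} (hG : G.IsHomogeneous d) (c : L)
    (z : σ → L) : eval₂ f (c • z) G = c ^ d * eval₂ f z G := by
  rw [eval₂_eq, eval₂_eq, Finset.mul_sum]
  refine Finset.sum_congr rfl fun s hs => ?_
  rw [hG.degree_eq_sum_deg_support hs, ← Finset.prod_pow_eq_pow_sum]
  simp only [Pi.smul_apply, smul_eq_mul, mul_pow, Finset.prod_mul_distrib]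
  ring

/-- Homogenisation with respect to the variable `j`. -/
def hmg (j : σ) (g : MvPolynomial σ R) : MvPolynomial σ R :=
  ∑ d ∈ Finset.range (g.totalDegree + 1), X j ^ (g.totalDegree - d) * homogeneousComponent d g

theorem hmg_hom (j : σ) (g : MvPolynomial σ R) : (hmg j g).IsHomogeneous g.totalDegree :=
  IsHomogeneous.sum _ _ _ fun d hd => by
    have := (isHomogeneous_X_pow (R := R) j (g.totalDegree - d)).mul
      (homogeneousComponent_isHomogeneous d g)
    rwa [Nat.sub_add_cancel (Nat.le_of_lt_succ (Finset.mem_range.1 hd))] at this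

theorem ev_hmg (f : R →+* L) (g : MvPolynomial σ R) {y : σ → L} {j : σ} (hj : y j ≠ 0) :
    eval₂ f y (hmg j g) = y j ^ g.totalDegree * eval₂ f (fun i => y i / y j) g := by
  have e : (fun i => y i / y j) = (y j)⁻¹ • y := funext fun i => by
    rw [Pi.smul_apply, smul_eq_mul, div_eq_inv_mul]
  conv_rhs => rw [e]; arg 2; rw [← sum_homogeneousComponent g]
  rw [hmg, eval₂_sum, eval₂_sum, Finset.mul_sum]
  refine Finset.sum_congr rfl fun d hd => ?_
  rw [ev_smul f (homogeneousComponent_isHomogeneous d g), eval₂_mul, eval₂_pow, eval₂_X,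
    ← mul_assoc, pow_sub₀ _ hj (Nat.le_of_lt_succ (Finset.mem_range.1 hd)), inv_pow]

end hom

section cone
variable {κ R K : Type} [Field κ] [CommRing R] [Algebra κ R] [Field K] [Algebra κ K]
  {π : R →ₐ[κ] K} {ρ : R →ₐ[κ] κ} {e : ℕ} {ζ : Fin (e + 1) → R}

theorem ne_zero (h : Cone π ρ ζ) (j : Fin (e + 1)) : π (ζ j) ≠ 0 := fun h0 => by
  have := h.tay 1 (X j) (isHomogeneous_X R j) (by rwa [eval_X])
  rw [map_X] at this
  exact X_ne_zero j this

theorem chart (h : Cone π ρ ζ) {Ω : Type} [Field Ω] [Algebra κ Ω] {a : Fin (e + 1) → Ω}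
    (ha : a 0 = 1) (g : MvPolynomial (Fin (e + 1)) R)
    (hg : eval₂ (π : R →+* K) (fun j => π (ζ j) / π (ζ 0)) g = 0) :
    eval₂ ((algebraMap κ Ω).comp (ρ : R →+* κ)) a g = 0 := by
  have h1 : π (eval ζ (hmg 0 g)) = 0 := by
    have h2 := ev_hmg (π : R →+* K) g (y := fun j => π (ζ j)) (j := 0) (ne_zero h 0)
    rw [hg, mul_zero] at h2
    rw [← h2]
    exact (eval₂_comp (π : R →+* K) ζ (hmg 0 g))
  have h3 := h.tay _ _ (hmg_hom 0 g) h1
  have h4 := ev_hmg ((algebraMap κ Ω).comp (ρ : R →+* κ)) g (y := a) (j := 0)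
    (by rw [ha]; exact one_ne_zero)
  rw [← eval₂_map, h3, eval₂_zero, ha, one_pow, one_mul] at h4
  simpa only [div_one] using h4.symm

/-- The place of the blow-up with prescribed values. -/
theorem exists_blow (h : Cone π ρ ζ) {F Ω Z : Type} [Field F] [Algebra K F] [Field Ω]
    [IsAlgClosed Ω] [Algebra κ Ω] {s : Z → F} (hs : AlgebraicIndependent K s)
    {a : Fin (e + 1) → Ω} (ha : a 0 = 1) (sb : Z → Ω) :
    ∃ P : Plc F Ω, (∀ r, P.To (algebraMap K F (π r)) (algebraMap κ Ω (ρ r))) ∧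
      (∀ j, P.To (algebraMap K F (π (ζ j) / π (ζ 0))) (a j)) ∧ ∀ z, P.To (s z) (sb z) := by
  let i0 : MvPolynomial (Fin (e + 1)) R →+* K :=
    eval₂Hom (π : R →+* K) fun j => π (ζ j) / π (ζ 0)
  let φ0 : MvPolynomial (Fin (e + 1)) R →+* Ω :=
    eval₂Hom ((algebraMap κ Ω).comp (ρ : R →+* κ)) a
  obtain ⟨P, hP⟩ := exists_plc_of_hom (eval₂Hom ((algebraMap K F).comp i0) s) (eval₂Hom φ0 sb)
    (fun Q hQ => by
      have h1 : MvPolynomial.map i0 Q = 0 := by
        refine algebraicIndependent_iff.1 hs _ ?_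
        rw [aeval_def, eval₂_map]
        exact hQ
      rw [coe_eval₂Hom, eval₂_eq]
      refine Finset.sum_eq_zero fun m _ => ?_
      have h2 : i0 (Q.coeff m) = 0 := by rw [← coeff_map, h1, coeff_zero]
      rw [show φ0 (Q.coeff m) = 0 from chart h ha _ h2, zero_mul])
  refine ⟨P, fun r => ?_, fun j => ?_, fun z => ?_⟩
  · simpa [i0, φ0] using hP (C (C r))
  · simpa [i0, φ0] using hP (C (X j))
  · simpa [i0, φ0] using hP (X z)

variable {F Ω : Type} [Field F] [Algebra K F] [Field Ω] [Algebra κ Ω] {P : Plc F Ω}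
  {a : Fin (e + 1) → Ω}

theorem val_pow (h : Cone π ρ ζ)
    (h1 : ∀ r, P.To (algebraMap K F (π r)) (algebraMap κ Ω (ρ r)))
    (h2 : ∀ j, P.To (algebraMap K F (π (ζ j) / π (ζ 0))) (a j)) (N : ℕ) {r : R}
    (hr : r ∈ RingHom.ker ρ ^ N ⊔ RingHom.ker π) :
    P.V.valuation (algebraMap K F (π r)) ≤ P.V.valuation (algebraMap K F (π (ζ 0))) ^ N := by
  let B : P.V.ValueGroup → Ideal R := fun g =>
    { carrier := {r | P.V.valuation (algebraMap K F (π r)) ≤ g}
      zero_mem' := by simp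
      add_mem' := fun ha hb => by
        simp only [mem_ofPred_eq, map_add] at ha hb ⊢
        exact P.V.valuation.map_add_le ha hb
      smul_mem' := fun c x hx => by
        simp only [mem_ofPred_eq, smul_eq_mul, map_mul] at hx ⊢
        exact (mul_le_of_le_one_left' ((P.V.valuation_le_one_iff _).2 (h1 c).1)).trans hx }
  have hB : ∀ g r, r ∈ B g ↔ P.V.valuation (algebraMap K F (π r)) ≤ g := fun _ _ => Iff.rfl
  have hk : ∀ g, RingHom.ker π ≤ B g := fun g r hr => by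
    rw [hB, (RingHom.mem_ker).1 hr]
    simp
  have h0 : algebraMap K F (π (ζ 0)) ≠ 0 := by simpa using ne_zero h 0
  have hm : RingHom.ker ρ ≤ B (P.V.valuation (algebraMap K F (π (ζ 0)))) := by
    refine h.gen.trans (sup_le (Ideal.span_le.2 ?_) (hk _))
    rintro _ ⟨j, rfl⟩
    have h3 := (P.V.valuation_le_one_iff _).2 (h2 j).1
    rw [map_div₀, map_div₀, div_le_one₀ ((Valuation.pos_iff _).2 h0)] at h3
    exact h3
  have hp : ∀ N : ℕ, RingHom.ker ρ ^ N ≤ B (P.V.valuation (algebraMap K F (π (ζ 0))) ^ N) := by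
    intro N
    induction N with
    | zero =>
      intro r _
      rw [hB, pow_zero]
      exact (P.V.valuation_le_one_iff _).2 (h1 r).1
    | succ N ih =>
      rw [pow_succ, pow_succ]
      refine Ideal.mul_le.2 fun x hx y hy => ?_
      rw [hB, map_mul, map_mul, map_mul]
      exact mul_le_mul' (ih hx) (hm hy)
  exact (sup_le (hp N) (hk _)) hr

theorem to_prod {σ : Type} {S : Finset σ} {f : σ → F} {g : σ → Ω}
    (h : ∀ i ∈ S, P.To (f i) (g i)) : P.To (∏ i ∈ S, f i) (∏ i ∈ S, g i) := by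
  classical
  induction S using Finset.induction_on with
  | empty => rw [Finset.prod_empty, Finset.prod_empty]; exact Plc.to_one
  | insert i s hi ih =>
    rw [Finset.prod_insert hi, Finset.prod_insert hi]
    exact (h i (Finset.mem_insert_self _ _)).mul (ih fun j hj => h j (Finset.mem_insert_of_mem hj))

theorem to_jet (h : Cone π ρ ζ)
    (h1 : ∀ r, P.To (algebraMap K F (π r)) (algebraMap κ Ω (ρ r)))
    (h2 : ∀ j, P.To (algebraMap K F (π (ζ j) / π (ζ 0))) (a j)) {t : ℕ} {β : Fin (e + 1) → ℕ}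
    (hβ : ∑ j, β j = t) {r : R}
    (hr : r - ∏ j, ζ j ^ β j ∈ RingHom.ker ρ ^ (t + 1) ⊔ RingHom.ker π) :
    P.To (algebraMap K F (π r / π (ζ 0) ^ t)) (∏ j, a j ^ β j) := by
  have h0 : algebraMap K F (π (ζ 0)) ≠ 0 := by simpa using ne_zero h 0
  have hv : 0 < P.V.valuation (algebraMap K F (π (ζ 0))) := (Valuation.pos_iff _).2 h0
  have h3 : P.To (algebraMap K F (π (r - ∏ j, ζ j ^ β j) / π (ζ 0) ^ t)) 0 := by
    rw [Plc.to_zero_iff, map_div₀, map_div₀, map_pow, map_pow, div_lt_one₀ (pow_pos hv _)]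
    refine (val_pow h h1 h2 _ hr).trans_lt ?_
    rw [pow_succ]
    refine mul_lt_of_lt_one_right (pow_pos hv _) (Plc.to_zero_iff.1 ?_)
    simpa [h.mem 0] using h1 (ζ 0)
  have h4 := h3.add (to_prod (S := Finset.univ) fun j _ => (h2 j).pow (β j))
  rw [zero_add] at h4
  have e1 : algebraMap K F (π (r - ∏ j, ζ j ^ β j) / π (ζ 0) ^ t) +
      ∏ j, algebraMap K F (π (ζ j) / π (ζ 0)) ^ β j = algebraMap K F (π r / π (ζ 0) ^ t) := by
    simp only [← map_pow (algebraMap K F), ← map_prod (algebraMap K F), ← map_add]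
    congr 1
    simp only [div_pow, Finset.prod_div_distrib, Finset.prod_pow_eq_pow_sum, hβ, map_sub,
      map_prod, map_pow]
    ring
  rwa [e1] at h4

end cone

section cut
variable {κ K Kb A Z : Type} [Field κ] [Field K] [Algebra κ K] [Field Kb] [Algebra κ Kb]
  [Fintype Z] {W : A → Z → K} {Wb : A → Z → Kb} (C : Cut κ K W) (Cb : Cut κ Kb Wb)
  {Ω : Type} [Field Ω] [Algebra κ Ω] (j : Cb.L' →ₐ[κ] Ω) {P : Plc C.L' Ω}

theorem resInd (hP : P.Over κ)
    (hW : ∀ a z, P.To (algebraMap K C.L' (W a z)) (j (algebraMap Kb Cb.L' (Wb a z))))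
    (hs : ∀ z, P.To (C.ss z) (j (Cb.ss z)))
    (hI : AlgebraicIndependent κ (Sum.elim Cb.s Cb.t)) :
    (∀ o, P.To (algebraMap C.k' C.L' (Sum.elim C.s C.t o))
      (j (algebraMap Cb.k' Cb.L' (Sum.elim Cb.s Cb.t o)))) ∧
    ResInd κ P.V fun o => algebraMap C.k' C.L' (Sum.elim C.s C.t o) := by
  have h1 : ∀ o, P.To (algebraMap C.k' C.L' (Sum.elim C.s C.t o))
      (j (algebraMap Cb.k' Cb.L' (Sum.elim Cb.s Cb.t o))) := by
    rintro (z | a)
    · exact hs z
    · rw [Sum.elim_inr, Sum.elim_inr, C.eq, Cb.eq, map_sum]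
      refine Plc.To.sum fun z _ => ?_
      rw [map_mul]
      exact (hs z).mul (hW a z)
  refine ⟨h1, fun g hg => (Plc.To.aeval hP h1 g).val_eq_one_iff.2 fun h0 => hg ?_⟩
  have h2 := hI.map' (f := j.comp (IsScalarTower.toAlgHom κ Cb.k' Cb.L'))
    (j.comp (IsScalarTower.toAlgHom κ Cb.k' Cb.L')).injective
  exact algebraicIndependent_iff.1 h2 g h0

theorem indep {V : ValuationSubring C.L'}
    (h : ResInd κ V fun o => algebraMap C.k' C.L' (Sum.elim C.s C.t o)) :
    AlgebraicIndependent κ (Sum.elim C.s C.t) :=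
  AlgebraicIndependent.of_comp (IsScalarTower.toAlgHom κ C.k' C.L') h.indep

theorem const_mem {V : ValuationSubring C.L'}
    (h : ResInd κ V fun o => algebraMap C.k' C.L' (Sum.elim C.s C.t o)) (c : C.k') :
    algebraMap C.k' C.L' c ∈ V := by
  refine h.mem _ ?_
  have hc : c ∈ IntermediateField.adjoin κ (range (Sum.elim C.s C.t)) := by
    rw [Sum.elim_range, C.genk]
    trivial
  have h2 : IntermediateField.adjoin κ (range (Sum.elim C.s C.t)) ≤
      (IntermediateField.adjoin κ (range fun o =>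
        algebraMap C.k' C.L' (Sum.elim C.s C.t o))).comap (IsScalarTower.toAlgHom κ C.k' C.L') :=
    IntermediateField.adjoin_le_iff.2 (range_subset_iff.2 fun o =>
      IntermediateField.subset_adjoin κ _ ⟨o, rfl⟩)
  exact h2 hc

theorem dim [Fintype A] {n : ℕ} (hd : Dim κ K (Fintype.card A + n))
    (hI : AlgebraicIndependent κ (Sum.elim C.s C.t)) : Dim C.k' C.L' n := by
  have hL := DIM.rk_of_dim hd
  have hss : rk K (range fun z => algebraMap C.k' C.L' (C.s z)) = Fintype.card Z :=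
    rk_range_indep C.ind
  refine DIM.dim_of_rk ?_
  have hk : rk κ (Set.univ : Set C.k') = ((Fintype.card Z + Fintype.card A : ℕ) : ℕ∞) := by
    rw [DIM.rk_univ_gen C.genk, ← Sum.elim_range, rk_range_indep hI, Fintype.card_sum]
  have h1 := rk_tower (k := κ) (K := K) (S := (Set.univ : Set C.L'))
  have h2 := rk_tower (k := κ) (K := C.k') (S := (Set.univ : Set C.L'))
  rw [union_univ, hL, DIM.rk_univ_gen C.genL, hss] at h1
  rw [union_univ, hk, h1] at h2
  refine (ENat.add_right_injective_of_ne_top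
    (ENat.natCast_ne_top (Fintype.card Z + Fintype.card A)) ?_)
  show _ + _ = _ + _
  rw [← h2]
  push_cast
  ring

/-- The residue field contains the model cut. -/
theorem deg_le [IsFF C.k' C.L'] (hP : P.Over κ)
    (h1 : ∀ o, P.To (algebraMap C.k' C.L' (Sum.elim C.s C.t o))
      (j (algebraMap Cb.k' Cb.L' (Sum.elim Cb.s Cb.t o))))
    (hK : ∀ b : Kb, ∃ x, P.To x (j (algebraMap Kb Cb.L' b))) (x : Place C.k' C.L')
    (hx : x.O = P.V) : Cb.deg ≤ x.deg := by
  classical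
  obtain ⟨P, rfl⟩ : ∃ Q : (ρ : x.O →+* Ω) ×'
      ∀ a : x.O, ρ a = 0 ↔ x.O.valuation (a : C.L') < 1, P = ⟨x.O, Q.1, Q.2⟩ := by
    obtain ⟨V, ρ, hρ⟩ := P
    obtain rfl : x.O = V := hx
    exact ⟨⟨ρ, hρ⟩, rfl⟩
  set P : Plc C.L' Ω := ⟨x.O, P.1, P.2⟩
  let T : Subfield Cb.L' :=
    { carrier := {b | ∃ x, P.To x (j b)}
      zero_mem' := ⟨0, by rw [map_zero]; exact Plc.to_zero⟩
      one_mem' := ⟨1, by rw [map_one]; exact Plc.to_one⟩
      add_mem' := fun ⟨x, hx⟩ ⟨y, hy⟩ => ⟨x + y, by rw [map_add]; exact hx.add hy⟩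
      mul_mem' := fun ⟨x, hx⟩ ⟨y, hy⟩ => ⟨x * y, by rw [map_mul]; exact hx.mul hy⟩
      neg_mem' := fun ⟨x, hx⟩ => ⟨-x, by rw [map_neg]; exact hx.neg⟩
      inv_mem' := fun b ⟨x, hx⟩ => by
        by_cases hb : b = 0
        · exact ⟨0, by rw [hb, inv_zero, map_zero]; exact Plc.to_zero⟩
        · exact ⟨x⁻¹, by rw [map_inv₀]; exact hx.inv (by simpa using hb)⟩ }
  have hT : ∀ b : Cb.L', ∃ x, P.To x (j b) := fun b => by
    have hb : b ∈ IntermediateField.adjoin Kb
        (range fun z => algebraMap Cb.k' Cb.L' (Cb.s z)) := by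
      rw [Cb.genL]
      trivial
    have h2 : IntermediateField.adjoin Kb (range fun z => algebraMap Cb.k' Cb.L' (Cb.s z)) ≤
        T.toIntermediateField hK :=
      IntermediateField.adjoin_le_iff.2 (range_subset_iff.2 fun z => ⟨_, h1 (Sum.inl z)⟩)
    exact h2 hb
  let T1 : Subfield C.k' :=
    { carrier := {c | ∃ b : Cb.k', P.To (algebraMap C.k' C.L' c) (j (algebraMap Cb.k' Cb.L' b))}
      zero_mem' := ⟨0, by simpa using Plc.to_zero⟩
      one_mem' := ⟨1, by simpa using Plc.to_one⟩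
      add_mem' := fun ⟨x, hx⟩ ⟨y, hy⟩ => ⟨x + y, by simpa using hx.add hy⟩
      mul_mem' := fun ⟨x, hx⟩ ⟨y, hy⟩ => ⟨x * y, by simpa using hx.mul hy⟩
      neg_mem' := fun ⟨x, hx⟩ => ⟨-x, by simpa using hx.neg⟩
      inv_mem' := fun c ⟨b, hb⟩ => by
        by_cases h0 : c = 0
        · exact ⟨0, by simpa [h0] using Plc.to_zero⟩
        · exact ⟨b⁻¹, by simpa using hb.inv (hb.val_eq_one_iff.1 (x.CT1_val_const h0))⟩ }
  have hT1 : ∀ c : C.k', ∃ b : Cb.k',
      P.To (algebraMap C.k' C.L' c) (j (algebraMap Cb.k' Cb.L' b)) := fun c => by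
    have hb : c ∈ IntermediateField.adjoin κ (range (Sum.elim C.s C.t)) := by
      rw [Sum.elim_range, C.genk]
      trivial
    have h2 : IntermediateField.adjoin κ (range (Sum.elim C.s C.t)) ≤
        T1.toIntermediateField (fun c => ⟨algebraMap κ Cb.k' c, by
          rw [← IsScalarTower.algebraMap_apply, ← IsScalarTower.algebraMap_apply, j.commutes]
          exact hP c⟩) :=
      IntermediateField.adjoin_le_iff.2 (range_subset_iff.2 fun o => ⟨_, h1 o⟩)
    exact h2 hb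
  obtain ⟨b, hb⟩ := exists_linearIndependent_of_le_finrank (R := Cb.k') (M := Cb.L')
    (n := Cb.deg) le_rfl
  choose y hy using fun i => hT (b i)
  have hli : LinearIndependent C.k' fun i => IsLocalRing.residue x.O ⟨y i, (hy i).1⟩ := by
    refine Fintype.linearIndependent_iff.2 fun c h0 i => ?_
    choose β hβ using fun i => hT1 (c i)
    have h2 : P.To (∑ i, algebraMap C.k' C.L' (c i) * y i)
        (∑ i, j (algebraMap Cb.k' Cb.L' (β i)) * j (b i)) :=
      Plc.To.sum fun i _ => (hβ i).mul (hy i)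
    have h3 : P.To (∑ i, algebraMap C.k' C.L' (c i) * y i) 0 := by
      simp only [← x.CT1_res_smul, ← map_sum, IsLocalRing.residue_eq_zero_iff,
        ValuationSubring.valuation_lt_one_iff] at h0
      rw [Plc.to_zero_iff]
      simp only [AddSubmonoidClass.coe_finsetSum, x.CT1_coe_smul] at h0
      simp only [Algebra.smul_def] at h0
      exact h0
    have h4 := h2.unique h3
    simp only [← map_mul, ← map_sum, map_eq_zero, ← Algebra.smul_def] at h4
    have h5 := hβ i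
    rw [Fintype.linearIndependent_iff.1 hb β h4 i, map_zero, map_zero, Plc.to_zero_iff] at h5
    by_contra h6
    exact h5.ne (x.CT1_val_const h6)
  simpa [Place.deg] using hli.fintype_card_le_finrank

end cut

section model
variable (κ : Type) [Field κ] (e : ℕ)

/-- The function field of the exceptional divisor. -/
abbrev Kb : Type := FractionRing (MvPolynomial (Fin e) κ)

/-- Its affine coordinates. -/
def xb (i : Fin e) : Kb κ e := algebraMap (MvPolynomial (Fin e) κ) (Kb κ e) (X i)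

/-- Its projective coordinates. -/
def ab : Fin (e + 1) → Kb κ e := Fin.cons 1 (xb κ e)

theorem xb_indep : AlgebraicIndependent κ (xb κ e) :=
  (MvPolynomial.algebraicIndependent_X (Fin e) κ).map'
    (f := IsScalarTower.toAlgHom κ (MvPolynomial (Fin e) κ) (Kb κ e))
    (IsFractionRing.injective _ _)

theorem xb_gen : Gen κ (xb κ e) := by
  refine eq_top_iff.2 fun x _ => ?_
  obtain ⟨a, b, -, rfl⟩ := IsFractionRing.div_surjective (A := MvPolynomial (Fin e) κ) x
  have h : ∀ p : MvPolynomial (Fin e) κ,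
      algebraMap (MvPolynomial (Fin e) κ) (Kb κ e) p = aeval (xb κ e) p := fun p => by
    have : IsScalarTower.toAlgHom κ (MvPolynomial (Fin e) κ) (Kb κ e) = aeval (xb κ e) :=
      MvPolynomial.algHom_ext fun i => by simp [xb]
    exact DFunLike.congr_fun this p
  exact (IntermediateField.mem_adjoin_range_iff κ _ _).2 ⟨a, b, by rw [h, h]⟩

theorem xb_dim : Dim κ (Kb κ e) e := by
  refine DIM.dim_of_rk ?_
  rw [DIM.rk_univ_gen (xb_gen κ e), rk_range_indep (xb_indep κ e), Fintype.card_fin]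

variable {κ e} {t : ℕ} {Z : Type} [Fintype Z] {α : Z → Fin (e + 1) → ℕ}

theorem pow_le (honto : ∀ β : Fin (e + 1) → ℕ, ∑ j, β j = t → ∃ z, α z = β) :
    sys κ (xb κ e) ^ t ≤ sys κ fun z => ∏ j, ab κ e j ^ α z j := by
  have key : ∀ n : ℕ, sys κ (xb κ e) ^ n ≤ Submodule.span κ
      {y | ∃ β : Fin (e + 1) → ℕ, ∑ j, β j = n ∧ y = ∏ j, ab κ e j ^ β j} := by
    intro n
    induction n with
    | zero =>
      rw [pow_zero, Submodule.one_eq_span]
      refine Submodule.span_mono ?_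
      rintro _ rfl
      exact ⟨0, by simp, by simp⟩
    | succ n ih =>
      rw [pow_succ]
      refine (mul_le_mul' ih le_rfl).trans ?_
      rw [sys, Submodule.span_mul_span]
      refine Submodule.span_mono ?_
      rintro _ ⟨_, ⟨β, hβ, rfl⟩, y, hy, rfl⟩
      obtain ⟨i, rfl⟩ : ∃ i, y = ab κ e i := by
        rcases hy with rfl | ⟨i, rfl⟩
        · exact ⟨0, rfl⟩
        · exact ⟨i.succ, rfl⟩
      refine ⟨β + Pi.single i 1, by simp [Finset.sum_add_distrib, hβ], ?_⟩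
      simp only [Pi.add_apply, pow_add, Finset.prod_mul_distrib]
      congr 1
      rw [Finset.prod_eq_single i (fun b _ hb => by simp [Pi.single_eq_of_ne hb]) (by simp)]
      simp
  refine (key t).trans (Submodule.span_le.2 ?_)
  rintro _ ⟨β, hβ, rfl⟩
  obtain ⟨z, rfl⟩ := honto β hβ
  exact mem_sys (fun z => ∏ j, ab κ e j ^ α z j) z

theorem wb_gen (ht : 0 < t) (honto : ∀ β : Fin (e + 1) → ℕ, ∑ j, β j = t → ∃ z, α z = β) :
    Gen κ fun z => ∏ j, ab κ e j ^ α z j := by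
  refine eq_top_iff.2 ((xb_gen κ e).ge.trans (IntermediateField.adjoin_le_iff.2 ?_))
  rintro _ ⟨i, rfl⟩
  have h1 : xb κ e i ∈ sys κ (xb κ e) ^ t :=
    pow_mono' (one_mem_sys _) ht (by rw [pow_one]; exact mem_sys _ i)
  exact sys_le (U := (IntermediateField.adjoin κ
    (range fun z => ∏ j, ab κ e j ^ α z j)).toSubalgebra.toSubmodule)
    (IntermediateField.one_mem _)
    (fun z => IntermediateField.subset_adjoin κ _ ⟨z, rfl⟩) (pow_le honto h1)

theorem pow_le_deg [CharZero κ] (ht : 0 < t)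
    (honto : ∀ β : Fin (e + 1) → ℕ, ∑ j, β j = t → ∃ z, α z = β)
    (C : Cut κ (Kb κ e) (rep e fun z => ∏ j, ab κ e j ^ α z j)) : t ^ e ≤ C.deg := by
  obtain ⟨c, hc⟩ := st_HSU st_GPO (st_SET st_DIM) (st_NOE st_MON st_POL st_TRC st_ALG) κ _ Z _ e
    (wb_gen ht honto) (xb_dim κ e) C
  have h1 : ∀ j : ℕ, (j * t + e).choose e ≤ C.deg * (j * 1 + (c + e)).choose e := fun j => by
    obtain ⟨hf, hb⟩ := hc j
    rw [mul_one, ← add_assoc, ← st_MON κ _ e _ (xb_indep κ e), mul_comm j t, pow_mul]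
    exact (Submodule.finrank_mono (pow_le_cl ((pow_le honto).trans (le_cl _)) j)).trans hb
  have h2 := le_of_tendsto_of_tendsto' (st_ASY e t e).1
    ((st_ASY e 1 (c + e)).1.const_mul (C.deg : ℝ)) fun j => by
      rw [← mul_div_assoc]
      exact div_le_div_of_nonneg_right (by exact_mod_cast h1 j) (by positivity)
  rw [← mul_div_assoc, div_le_div_iff_of_pos_right (by positivity)] at h2
  simp only [Nat.cast_one, one_pow, mul_one] at h2
  exact_mod_cast h2

end model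

theorem main {κ R K Kb Z : Type} [Field κ] [CommRing R] [Algebra κ R] [Field K] [Algebra κ K]
    [Field Kb] [Algebra κ Kb] [Fintype Z] {π : R →ₐ[κ] K} {ρ : R →ₐ[κ] κ} {e t i : ℕ}
    {ζ : Fin (e + 1) → R} {α : Z → Fin (e + 1) → ℕ} {s : Z → R} {z₀ : Z} (h : Cone π ρ ζ)
    (hj : Jets π ρ ζ t α s z₀) {a : Fin (e + 1) → Kb} (ha : a 0 = 1) (hg : Gen κ a)
    (C : Cut κ K (rep i fun z => π (s z) / π (s z₀)))
    (Cb : Cut κ Kb (rep i fun z => ∏ j, a j ^ α z j))
    (hI : AlgebraicIndependent κ (Sum.elim Cb.s Cb.t)) :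
    π (s z₀) ≠ 0 ∧ AlgebraicIndependent κ (Sum.elim C.s C.t) ∧ ∀ _ : IsFF C.k' C.L',
      ∃ x : Place C.k' C.L', Cb.deg ≤ x.deg ∧ (∀ r, algebraMap K C.L' (π r) ∈ x.O) ∧
        ∀ r, ρ r = 0 → Ge x.O 1 (algebraMap K C.L' (π r)) := by
  have hz₀ : ∏ j, a j ^ α z₀ j = 1 := by
    have h1 := hj.deg z₀
    rw [Fin.sum_univ_succ, hj.base] at h1
    have h2 : ∀ j : Fin e, α z₀ j.succ = 0 := fun j =>
      (Finset.sum_eq_zero_iff.1 (show ∑ j : Fin e, α z₀ j.succ = 0 by omega)) j (Finset.mem_univ _)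
    simp [Fin.prod_univ_succ, h2, ha]
  obtain ⟨Ω, _, _, _, ⟨j⟩⟩ : ∃ (Ω : Type) (_ : Field Ω) (_ : IsAlgClosed Ω) (_ : Algebra κ Ω),
      Nonempty (Cb.L' →ₐ[κ] Ω) :=
    ⟨AlgebraicClosure Cb.L', inferInstance, inferInstance, inferInstance,
      ⟨IsScalarTower.toAlgHom κ _ _⟩⟩
  let j' : Kb →ₐ[κ] Ω := j.comp (IsScalarTower.toAlgHom κ _ _)
  obtain ⟨P, h1, h2, h3⟩ := exists_blow h (s := C.ss) C.ind (a := fun l => j' (a l))
    (by rw [ha, map_one]) fun z => j (Cb.ss z)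
  have hP : P.Over κ := fun c => by
    have := h1 (algebraMap κ R c)
    rwa [π.commutes, ρ.commutes, ← IsScalarTower.algebraMap_apply] at this
  have h4 : ∀ z, P.To (algebraMap K C.L' (π (s z) / π (ζ 0) ^ t)) (j' (∏ j, a j ^ α z j)) :=
    fun z => by simpa only [map_prod, map_pow] using to_jet h h1 h2 (hj.deg z) (hj.jet z)
  have h5 := h4 z₀
  rw [hz₀, map_one] at h5
  have h6 : π (s z₀) ≠ 0 := fun h0 => h5.ne_zero one_ne_zero (by simp [h0])
  have h7 : ∀ z, P.To (algebraMap K C.L' (π (s z) / π (s z₀))) (j' (∏ j, a j ^ α z j)) :=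
    fun z => by
      have h8 := (h4 z).mul (h5.inv one_ne_zero)
      rw [inv_one, mul_one, ← map_inv₀, ← map_mul] at h8
      have h9 := pow_ne_zero t (ne_zero h 0)
      rwa [show π (s z) / π (ζ 0) ^ t * (π (s z₀) / π (ζ 0) ^ t)⁻¹ = π (s z) / π (s z₀) by
        field_simp] at h8
  obtain ⟨h10, h11⟩ := resInd C Cb j hP (fun a z => by
      unfold rep
      split_ifs
      · exact h7 z.2
      · simpa using Plc.to_zero) h3 hI
  refine ⟨h6, indep C h11, fun _ => ?_⟩
  have hne : P.V ≠ ⊤ := fun h0 => by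
    have h12 : P.V.valuation (algebraMap K C.L' (π (ζ 0))) < 1 :=
      Plc.to_zero_iff.1 (by simpa [h.mem 0] using h1 (ζ 0))
    have h13 : algebraMap K C.L' (π (ζ 0)) ≠ 0 := by simpa using ne_zero h 0
    exact h12.ne (Ord2_val_eq_one.2 ⟨h13, by rw [h0]; trivial, by rw [h0]; trivial⟩)
  let x : Place C.k' C.L' := ⟨P.V, hne, const_mem C h11⟩
  refine ⟨x, deg_le C Cb j hP h10 (fun b => ?_) x rfl, fun r => (h1 r).1, fun r hr =>
    (val_lt_one_iff (Or.inl x.disc)).1 (Plc.to_zero_iff.1 (by simpa [hr] using h1 r))⟩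
  have hb : b ∈ IntermediateField.adjoin κ (range a) := by
    rw [show IntermediateField.adjoin κ (range a) = ⊤ from hg]
    trivial
  obtain ⟨p, q, rfl⟩ := (IntermediateField.mem_adjoin_range_iff κ _ _).1 hb
  have h14 : ∀ p : MvPolynomial (Fin (e + 1)) κ, P.To (aeval (fun l =>
      algebraMap K C.L' (π (ζ l) / π (ζ 0))) p) (j' (aeval a p)) := fun p => by
    rw [comp_aeval_apply]
    exact Plc.To.aeval hP h2 p
  change ∃ x, P.To x (j' _)
  by_cases hq : aeval a q = 0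
  · exact ⟨0, by rw [hq, div_zero, map_zero]; exact Plc.to_zero⟩
  · exact ⟨_, by
      rw [div_eq_mul_inv, map_mul, map_inv₀]
      exact (h14 p).mul ((h14 q).inv (by simpa using hq))⟩

theorem ab_gen (κ : Type) [Field κ] (e : ℕ) : Gen κ (ab κ e) :=
  eq_top_iff.2 ((xb_gen κ e).ge.trans (IntermediateField.adjoin.mono _ _ _
    (range_subset_iff.2 fun i => ⟨i.succ, rfl⟩)))

end PLC

open PLC in
theorem st_PLACE : St_PLACE := by
  intro κ R K _ _ _ _ _ _ π ρ e ζ t Z _ α s z₀ h hj hd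
  have key := fun (i n : ℕ) (hin : i + n = e) (C : Cut κ K (rep i fun z => π (s z) / π (s z₀)))
      (Cb : Cut κ (Kb κ e) (rep i fun z => ∏ j, ab κ e j ^ α z j)) =>
    main h hj (a := ab κ e) rfl (ab_gen κ e) C Cb
      (st_DIM κ _ Z _ i n (wb_gen hj.pos hj.onto) (by rw [hin]; exact xb_dim κ e) Cb).1
  obtain ⟨C0⟩ := st_EXC κ K _ _ (rep e fun z => π (s z) / π (s z₀))
  obtain ⟨Cb⟩ := st_EXC κ (Kb κ e) _ _ (rep e fun z => ∏ j, ab κ e j ^ α z j)
  refine ⟨(key e 0 rfl C0 Cb).1, fun i n hin C => ?_, fun C hC => ?_⟩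
  · obtain ⟨Cb⟩ := st_EXC κ (Kb κ e) _ _ (rep i fun z => ∏ j, ab κ e j ^ α z j)
    exact ⟨(key i n hin C Cb).2.1, dim C (by rw [Fintype.card_fin, ← add_assoc, hin]; exact hd)
      (key i n hin C Cb).2.1⟩
  · obtain ⟨x, hx, h1⟩ := (key e 0 rfl C Cb).2.2 hC
    exact ⟨x, (pow_le_deg hj.pos hj.onto Cb).trans hx, h1⟩

end Pool.Agent.Lib.A35
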