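import Pool.Agent.Lib.A35.Blue
import Pool.Agent.Lib.A35.Place
import Pool.Agent.Lib.A35.Curve
import Pool.Agent.Lib.A35.HTC
import Pool.Agent.Lib.UR.M_NORM

/-! The curve cut out by sections of high multiplicity. -/

open Module Submodule Set IsLocalRing

set_option linter.unusedSectionVars false
set_option linter.unusedVariables false

noncomputable section

namespace Pool.Agent.Lib.A35

open Pool.Agent.Lib.MP_7fcda1_ag Pool.Agent.Lib.UR G

namespace CUR

variable {L : Type} [Field L] [Algebra ℂ L] {n : ℕ} {X : Mod L n} {κ κ' : Type} [Field κ]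
  [Algebra ℂ κ] [Field κ'] [Algebra ℂ κ']

theorem gen_y (X : Mod L n) : Gen ℂ X.y := by
  have h := (X.sm 0).2.1
  have h1 : GD.chart X.y 0 ≤ (IntermediateField.adjoin ℂ (range X.y)).toSubalgebra :=
    Algebra.adjoin_le (range_subset_iff.2 fun j => IntermediateField.subset_adjoin ℂ _
      ⟨j, by rw [X.y0, div_one]⟩)
  refine eq_top_iff.2 fun z _ => ?_
  obtain ⟨a, b, -, rfl⟩ := IsFractionRing.div_surjective (GD.chart X.y 0) z
  exact div_mem (h1 a.2) (h1 b.2)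

theorem p_ne (X : Mod L n) : X.p ≠ 0 := fun h => by
  obtain ⟨S, hS, -⟩ := X.free 0 ⊥ Ideal.isPrime_bot
  exact hS (congrFun h S)

theorem H_eq (X : Mod L n) : X.H = span ℂ (range X.y) := by
  rw [Mod.H, sys, insert_eq_of_mem (show 1 ∈ range X.y from ⟨0, X.y0⟩)]

theorem hc (V : Pt L κ) (c : ℂ) :
    ∃ c' : κ, (V.σ : L →+* V.K) (algebraMap ℂ L c) = algebraMap κ V.K c' :=
  ⟨algebraMap ℂ κ c, (V.σ.commutes c).trans (IsScalarTower.algebraMap_apply ℂ κ V.K c)⟩

theorem gen_pt (X : Mod L n) (V : Pt L κ) : Gen κ fun j => V.σ (X.y j) :=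
  Mix.gen_pt (σ := (V.σ : L →+* V.K)) (hc V) V.gen (gen_y X)

theorem zt_ne (V : Pt L κ) [IsFF κ V.K] (s : L →ₐ[ℂ] κ) : V.zt X s ≠ 0 := fun h => by
  obtain ⟨f, hf, -⟩ := IsFF.ex (κ := κ) (L := V.K)
  have h1 : IntermediateField.adjoin κ (range fun j => V.σ (X.y j)) ≤ ⊥ :=
    IntermediateField.adjoin_le_iff.2 (range_subset_iff.2 fun j =>
      ⟨s (X.y j), (sub_eq_zero.1 (congrFun h j)).symm⟩)
  obtain ⟨c, rfl⟩ := IntermediateField.mem_bot.1 (h1 ((gen_pt X V).ge trivial : f ∈ _))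
  exact hf (isAlgebraic_algebraMap c)

section res
variable (V : Pt L κ)

theorem res_span (S : Set L) : V.res (span ℂ S) = span κ (V.σ '' S) := by
  refine le_antisymm (span_le.2 (image_subset_iff.2 fun x hx => ?_))
    (span_mono (image_mono subset_span))
  change V.σ x ∈ span κ (V.σ '' S)
  induction hx using span_induction with
  | mem x hx => exact subset_span ⟨x, hx, rfl⟩
  | zero => simp
  | add x y _ _ hx hy => rw [map_add]; exact add_mem hx hy
  | smul c x _ hx => rw [map_smul, ← algebraMap_smul κ]; exact smul_mem _ _ hx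

theorem res_mul (U U' : Submodule ℂ L) : V.res (U * U') = V.res U * V.res U' := by
  rw [mul_eq_span_mul_set, res_span, Pt.res, Pt.res, span_mul_span, image_mul]

theorem res_pow (U : Submodule ℂ L) (j : ℕ) : V.res (U ^ j) = V.res U ^ j := by
  induction j with
  | zero =>
    rw [pow_zero, pow_zero, one_eq_span, one_eq_span, res_span, image_singleton, map_one]
  | succ j ih => rw [pow_succ, pow_succ, res_mul, ih]

theorem res_cl (U : Submodule ℂ L) : V.res (cl U) ≤ cl (V.res U) :=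
  span_le.2 (image_subset_iff.2 fun x hx O hO => by
    obtain ⟨u, hu, h1⟩ := hx (O.comap (V.σ : L →+* V.K)) fun c => by
      obtain ⟨c', h⟩ := hc V c
      rw [ValuationSubring.mem_comap, h]
      exact hO _
    refine ⟨_, subset_span ⟨u, hu, rfl⟩, ?_⟩
    obtain ⟨a, ha⟩ := (ValuationSubring.valuation_le_iff _ _ _).1 h1
    exact (ValuationSubring.valuation_le_iff _ _ _).2 ⟨⟨V.σ a, a.2⟩, by rw [← ha, map_mul]⟩)

theorem res_sys {τ : Type} (w : τ → L) : V.res (sys ℂ w) = sys κ fun j => V.σ (w j) := by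
  rw [sys, sys, res_span, image_insert_eq, map_one, ← range_comp]
  rfl

end res

variable {e m t : ℕ} (G : PG L κ (e + 1))

theorem ker_pi : RingHom.ker G.π = G.p := Ideal.ext G.ker

theorem cone : Cone G.π (rho κ G.s) G.ζ where
  gen := by
    rw [ker_rho, ker_pi]
    exact G.tay.eq.le
  mem := fun j => mem_max.1 (zeta_mem _ j)
  tay := fun s P hP h => by
    ext α
    rw [MvPolynomial.coeff_map, MvPolynomial.coeff_zero]
    exact mem_max.1 (G.tay.coeff_mem hP (mem_sup_right ((G.ker _).1 h)) α)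

theorem jets (ht : 0 < t) (h : G.Onto X m t) : ∃ (Z : Type) (_ : Fintype Z)
    (α : Z → Fin (e + 1) → ℕ) (s : Z → G.R) (z₀ : Z), Jets G.π (rho κ G.s) G.ζ t α s z₀ ∧
      ∀ z, s z ∈ G.W X m t := by
  choose F h1 h2 using h
  let Z := Finset.Nat.antidiagonalTuple (e + 1) t
  have hZ : ∀ z : Z, ∑ j, z.1 j = t := fun z => Finset.Nat.mem_antidiagonalTuple.1 z.2
  have h3 : ∀ r, F r - r ∈ G.m ^ (t + 1) ⊔ G.p := fun r => by
    simpa using neg_mem (h2 r)
  refine ⟨Z, inferInstance, Subtype.val, fun z => F (∏ j, G.ζ j ^ z.1 j),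
    ⟨Pi.single 0 t, Finset.Nat.mem_antidiagonalTuple.2 (by simp)⟩, ⟨ht, hZ, fun β hβ =>
      ⟨⟨β, Finset.Nat.mem_antidiagonalTuple.2 hβ⟩, rfl⟩, by simp, fun z => ?_⟩,
    fun z => ⟨h1 _, ?_⟩⟩
  · rw [ker_rho, ker_pi]
    exact h3 _
  · have h4 : ∏ j, G.ζ j ^ z.1 j ∈ G.m ^ t := by
      rw [← hZ z, ← Finset.prod_pow_eq_pow_sum]
      exact Ideal.prod_mem_prod fun j _ => Ideal.pow_mem_pow (zeta_mem _ j) _
    have h5 := sup_le_sup_right (Ideal.pow_le_pow_right (I := G.m) t.le_succ) G.p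
      (h3 (∏ j, G.ζ j ^ z.1 j))
    simpa using add_mem h5 (mem_sup_left h4)

theorem pi_mem {U : Submodule ℂ L} {r : G.R} (hr : r ∈ spn κ G.s U) : G.π r ∈ G.V1.res U := by
  induction hr using span_induction with
  | mem x hx =>
    obtain ⟨l, hl, rfl⟩ := hx
    exact subset_span ⟨l, hl, (G.hπ l).symm⟩
  | zero => simp
  | add x y _ _ hx hy => rw [map_add]; exact add_mem hx hy
  | smul c x _ hx => rw [map_smul]; exact smul_mem _ _ hx

/-- The degrees of `D` and `H` on the cut. -/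
theorem num (hEFW : St_EFW) {u : ℕ} (U : Sys X (u * m) u) {k : ℕ → ℕ} (hu : 0 < u) (hm : 0 < m)
    (hk : G.V1.Num X e k) {Z : Type} [Fintype Z] {s : Z → G.R} {z₀ : Z}
    (hs : ∀ z, s z ∈ spn κ G.s (X.SecK m)) (h0 : G.π (s z₀) ≠ 0)
    (hd : ∀ i n, i + n = e → ∀ C : Cut κ G.V1.K (rep i fun z => G.π (s z) / G.π (s z₀)),
      Dim C.k' C.L' (n + 1))
    (C : Cut κ G.V1.K (rep e fun z => G.π (s z) / G.π (s z₀))) :
    ((ht C.k' (C.map fun S => G.V1.σ (X.p S)) - X.q * ht C.k' (C.map fun j => G.V1.σ (X.y j)) :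
      ℤ) : ℝ) ≤ X.rat m ^ e * (Mix.pw k e 1 m 1 : ℕ) ∧
    (ht C.k' (C.map fun j => G.V1.σ (X.y j)) : ℝ) ≤ X.rat m ^ e * (Mix.pw k e 0 m 1 : ℕ) := by
  have : CharZero κ := charZero_of_injective_algebraMap (algebraMap ℂ κ).injective
  obtain ⟨g, hg, h1⟩ := hEFW L n X u m U
  have h2 : span κ {G.π (s z₀)} * sys κ (fun z => G.π (s z) / G.π (s z₀)) ≤
      G.V1.res (X.SecK m) := by
    rw [sys, span_mul_span, span_le]
    rintro _ ⟨_, rfl, _, rfl | ⟨z, rfl⟩, rfl⟩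
    · simpa using pi_mem G (hs z₀)
    · simpa [mul_div_cancel₀ _ h0] using pi_mem G (hs z)
  have h3 : span κ {G.V1.σ g * G.π (s z₀) ^ (u * (X.r * m))} *
      sys κ (fun z => G.π (s z) / G.π (s z₀)) ^ (u * (X.r * m)) ≤
      cl (sys κ (fun j => G.V1.σ (U.w j)) ^ (X.r * m + X.c)) := by
    rw [← singleton_mul_singleton, ← span_mul_span, ← singleton_pow, ← span_pow, mul_assoc,
      ← mul_pow, ← res_sys, ← res_pow, ← image_singleton, ← res_span]
    refine (mul_le_mul' le_rfl (pow_le_pow_left' h2 _)).trans ?_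
    rw [← res_pow, ← res_mul]
    exact (span_mono (image_mono h1)).trans (res_cl _ _)
  have h4 := hk.mon H91.st_CRW ⟨Z, _⟩ ⟨_, _⟩ _ _ _ _ _
    (Mix.Cls.cl (hc G.V1) G.V1.gen (p_ne X) U.gen ⟨U.γ, U.ne, U.eq⟩)
    (fun i hi C => by
      rw [show e + 1 - i = e - i + 1 by omega]
      exact hd i _ (by omega) C) (mul_ne_zero ((map_ne_zero _).2 hg) (pow_ne_zero _ h0)) h3 C
  have h5 : Mix.yH (G.V1.σ : L →+* G.V1.K) X.y ((Mix.Ext.refl κ G.V1.K).cut C) =
      ht C.k' (C.map fun j => G.V1.σ (X.y j)) := by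
    rw [← M.NORM.ht_comp (e := fun o : Option _ => o.elim 0 id) (fun j => ⟨some j, rfl⟩)]
    refine congrArg (ht C.k') (funext fun o => ?_)
    cases o
    · simp [opt, Cut.map, X.y0]
    · rfl
  have key : ∀ (x : ℤ) (i : ℕ), ((u * (X.r * m) : ℕ) : ℤ) ^ e * x ≤
      ((X.r * m + X.c : ℕ) : ℤ) ^ e * Mix.pw k e i ((u * m : ℕ) : ℤ) (u : ℤ) →
      (x : ℝ) ≤ X.rat m ^ e * (Mix.pw k e i m 1 : ℕ) := fun x i h => by
    have h6 := Mix.pw_smul k e i u m 1
    rw [mul_one] at h6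
    rw [← Mix.pw_nat, h6] at h
    have h7 : ((u : ℝ) * (X.r * m)) ^ e * x ≤
        (X.r * m + X.c) ^ e * (u ^ e * (Mix.pw k e i m 1 : ℕ)) := by exact_mod_cast h
    have h8 : (0 : ℝ) < X.r * m := by have := X.rpos; positivity
    have h9 : (X.r * m + X.c : ℝ) = X.rat m * (X.r * m) := by
      rw [Mod.rat, add_mul, one_mul, div_mul_cancel₀ _ h8.ne']
    refine le_of_mul_le_mul_left (h7.trans_eq ?_) (by positivity)
    rw [h9, mul_pow, mul_pow]
    ring
  rw [Mix.xD, h5] at h4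
  exact ⟨key _ _ h4.1, key _ _ h4.2⟩

variable {G}

/-- The lower bound for the order of a section. -/
theorem ge_sec (V : Pt L κ') [IsFF κ' V.K] {l : L} (hl : l ∈ X.SecK m) (x : Place κ' V.K) :
    Ge x.O ((vdiv κ' (fun S => V.σ (X.G S)) + m • vdiv κ' (fun S => V.σ (X.p S)) +
      vdiv κ' (fun j => V.σ (X.y j)) - (n + 1 + X.q * m) • vdiv κ' fun j => V.σ (X.y j)) x)
      (V.σ l) := by
  have hH : Mix.HD (V.σ : L →+* V.K) X.H (vdiv κ' fun j => V.σ (X.y j)) := by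
    rw [H_eq]
    exact Mix.HD.span (hc V) fun h => (X.sm 0).1 (congrFun h 0)
  obtain ⟨a, ha, h1, h2⟩ := ((hH.pow (hc V) (n + 1 + X.q * m)) x).1
  have h3 := mem_div_iff_forall_mul_mem.1 hl a ha
  by_cases hG : X.G = 0
  · have h4 : X.A = ⊥ := span_eq_bot.2 (by rintro _ ⟨S, rfl⟩; exact congrFun hG S)
    rw [h4, Submodule.bot_mul, Submodule.bot_mul, Mix.cl_bot, mem_bot] at h3
    exact Or.inl (by rw [(mul_eq_zero.1 h3).resolve_right h1, map_zero])
  · have h4 := (((Mix.HD.span (hc V) hG).mul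
      ((Mix.HD.span (hc V) (p_ne X)).pow (hc V) m)).mul hH).ge_cl (hc V) h3 x
    rw [mul_comm, map_mul, ge_mul_iff ((map_ne_zero _).2 h1), h2] at h4
    exact h4

theorem mem_clos (a : TensorProduct ℂ κ L) :
    mkG κ G.s a ∈ Subring.closure (range (algebraMap κ G.R) ∪ range (iota κ G.s)) := by
  induction a with
  | zero => simp
  | add a b ha hb => rw [map_add]; exact add_mem ha hb
  | tmul c l =>
    rw [mkG_tmul]
    exact mul_mem (Subring.subset_closure (Or.inl ⟨c, rfl⟩))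
      (Subring.subset_closure (Or.inr ⟨l, rfl⟩))

/-- The degree of the exceptional divisor is bounded by the degree of the sections. -/
theorem mul_Ec {V : Pt L κ'} [IsFF κ' V.K] (C : Crv X G m t V) :
    t * V.Ec X (C.f.comp G.s) ≤ V.Kc X + m * V.Dc X + V.Hc X := by
  obtain ⟨ψ, hψ⟩ : ∃ ψ : G.R →+* V.K, ∀ r, ψ r = rho κ' V.σ (C.φ r) :=
    ⟨(rho κ' V.σ : V.R →+* V.K).comp C.φ, fun _ => rfl⟩
  obtain ⟨ρ, hρ⟩ : ∃ ρ : G.R →+* κ', ∀ r, ρ r = C.f (rho κ G.s r) :=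
    ⟨(C.f : κ →+* κ').comp (rho κ G.s : G.R →+* κ), fun _ => rfl⟩
  have h1 : ∀ c, ψ (algebraMap κ _ c) = algebraMap κ' V.K (C.f c) := fun c => by
    rw [hψ, C.map.const, AlgHom.commutes]
  have h2 : ∀ l, ψ (iota κ G.s l) = V.σ l := fun l => by rw [hψ, C.map.fn, rho_iota]
  have h3 : G.m ^ t ⊔ G.p ≤ RingHom.ker ρ ^ t ⊔ RingHom.ker ψ := by
    refine sup_le_sup (Ideal.pow_right_mono (fun r hr => ?_) t) fun r hr => ?_
    · rw [RingHom.mem_ker, hρ, mem_max.1 hr, map_zero]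
    · rw [RingHom.mem_ker, hψ]
      exact mem_max.1 (C.le (mem_sup_right (Ideal.mem_map_of_mem C.φ hr)))
  have h4 := CRV.mul_deg_le (E := V.Ed X (C.f.comp G.s))
    (μ := vdiv κ' (fun S => V.σ (X.G S)) + m • vdiv κ' (fun S => V.σ (X.p S)) +
      vdiv κ' (fun j => V.σ (X.y j)) - (n + 1 + X.q * m) • vdiv κ' fun j => V.σ (X.y j))
    le_sup_right (a := ψ C.s₀) (hψ _ ▸ germ_isUnit.1 C.unit) (t := t) (fun x => by
      have h5 := C.hs₀.1
      generalize C.s₀ = r at h5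
      induction h5 using span_induction with
      | mem a ha =>
        obtain ⟨l, hl, rfl⟩ := ha
        rw [h2]
        exact ge_sec V hl x
      | zero => exact Or.inl (map_zero _)
      | add a b _ _ ha hb => rw [map_add]; exact ha.add hb
      | smul c a _ ha =>
        rw [Algebra.smul_def, map_mul, h1]
        simpa only [zero_add] using (CRV.ge_const x _).mul ha) fun x hx => by
      have h5 := CRV.cg_field x (gen_y X) (σ := (V.σ : L →+* V.K))
        (s := (C.f.comp G.s : L →ₐ[ℂ] κ')) (fun c => by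
          simp only [RingHom.coe_coe, AlgHom.commutes]
          exact IsScalarTower.algebraMap_apply ℂ κ' V.K c) hx (CRV.ge_zdiv hx)
      have h6 : ∀ {ι : Type} [Finite ι] (w : ι → L), vord x.O (fun i => V.σ (w i)) = 0 :=
        fun w => CRV.vord_field x hx h5 w
      refine ⟨by simp [vdiv_apply, h6], CRV.ge_pow x hx.le (CRV.cg_all x (π := ψ) (ρ := ρ) hx
        (S := range (algebraMap κ G.R) ∪ range (iota κ G.s)) ?_ fun r => ?_) t (h3 C.hs₀.2)⟩
      · rintro _ (⟨c, rfl⟩ | ⟨l, rfl⟩)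
        · exact Or.inl (by rw [h1, hρ, rho_alg, sub_self])
        · rw [h2, hρ, rho_iota]
          exact h5 l
      · obtain ⟨a, b, hb, hr⟩ := germ_surj r
        exact ⟨_, mem_clos a, _, mem_clos b, by rwa [hρ, rho_mkG, map_ne_zero], hr⟩
  simp only [map_sub, map_add, map_nsmul, nsmul_eq_mul, Nat.cast_add, Nat.cast_mul,
    Nat.cast_one] at h4
  unfold Pt.Ec Pt.Kc Pt.Dc Pt.Hc ht
  linarith

theorem exists_pt (V : Pt L κ) {k F : Type} [Field k] [Field F] [Algebra k F] (j : κ →+* k)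
    (Ψ : V.K →+* F) (h : ∀ c, Ψ (algebraMap κ _ c) = algebraMap k F (j c)) (hg : Gen k Ψ) :
    ∃ (_ : Algebra ℂ k) (_ : Algebra ℂ F) (_ : IsScalarTower ℂ k F) (f : κ →ₐ[ℂ] k)
      (σ : L →ₐ[ℂ] F), (∀ c, f c = j c) ∧ (∀ l, σ l = Ψ (V.σ l)) ∧ Gen k σ := by
  let : Algebra ℂ k := (j.comp (algebraMap ℂ κ)).toAlgebra
  let : Algebra ℂ F := ((algebraMap k F).comp (algebraMap ℂ k)).toAlgebra
  refine ⟨inferInstance, inferInstance, .of_algebraMap_eq fun _ => rfl, ⟨j, fun _ => rfl⟩,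
    ⟨Ψ.comp V.σ, fun c => ?_⟩, fun _ => rfl, fun _ => rfl,
    Mix.gen_pt (k := κ) (σ := Ψ) (fun c => ⟨_, h c⟩) hg V.gen⟩
  change Ψ (V.σ _) = _
  rw [V.σ.commutes, IsScalarTower.algebraMap_apply ℂ κ V.K, h]
  rfl

theorem only {κ K k Fb R G A Z : Type} [Field κ] [Field K] [Algebra κ K] [Field k]
    [Field Fb] [Algebra k Fb] [CommRing R] [Algebra κ R] [CommRing G] [Algebra k G] [Fintype A]
    [Fintype Z] (π : R →ₐ[κ] K) (hd : Dim κ K (Fintype.card A + 1)) {k₁ : Type} [Field k₁]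
    [Algebra κ k₁] [Algebra k₁ k] [Algebra.IsAlgebraic k₁ k] (s : Z → k₁) (t : A → k₁)
    (hI : AlgebraicIndependent κ (Sum.elim s t))
    (hk : IntermediateField.adjoin κ (range s ∪ range t) = ⊤) (φ : R →+* G)
    (hφ : ∀ c, φ (algebraMap κ R c) = algebraMap k G (algebraMap k₁ k (algebraMap κ k₁ c)))
    (ρ : G →ₐ[k] Fb) (hG : ∀ g : G, ∃ a ∈ Algebra.adjoin k (range φ),
      ∃ b ∈ Algebra.adjoin k (range φ), ρ b ≠ 0 ∧ g * b = a) {τ : G}
    (hτ : Transcendental k (ρ τ)) {s₀ : R} (h0 : ρ (φ s₀) ≠ 0) (W : A → Z → R) (P : Ideal G)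
    [P.IsPrime] (hP : P ≤ RingHom.ker ρ) (hp : ∀ r, π r = 0 → φ r ∈ P)
    (hθ : ∀ a, algebraMap k₁ k (t a) • φ s₀ - ∑ z, algebraMap k₁ k (s z) • φ (W a z) ∈ P) :
    P = RingHom.ker ρ := by
  let : Algebra κ k := ((algebraMap k₁ k).comp (algebraMap κ k₁)).toAlgebra
  let : Algebra κ G := ((algebraMap k G).comp (algebraMap κ k)).toAlgebra
  have : IsScalarTower κ k G := .of_algebraMap_eq fun _ => rfl
  let i : k₁ →ₐ[κ] k := ⟨algebraMap k₁ k, fun _ => rfl⟩
  refine CRV.only_prime π hd (fun z => i (s z)) (fun a => i (t a)) ?_ (fun c => ?_) ⟨φ, hφ⟩ ρ hG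
    hτ h0 W P hP hp hθ
  · have h1 := hI.map' (f := i) i.injective
    rwa [Sum.comp_elim] at h1
  · let M := IntermediateField.adjoin κ ((range fun z => i (s z)) ∪ range fun a => i (t a))
    have h1 : ∀ a, i a ∈ M := fun a => by
      have h2 : IntermediateField.adjoin κ (range s ∪ range t) ≤ M.comap i := by
        rw [IntermediateField.adjoin_le_iff]
        rintro _ (⟨z, rfl⟩ | ⟨z, rfl⟩)
        exacts [IntermediateField.subset_adjoin κ _ (Or.inl ⟨z, rfl⟩),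
          IntermediateField.subset_adjoin κ _ (Or.inr ⟨z, rfl⟩)]
      exact h2 (hk.ge trivial)
    exact (Algebra.IsAlgebraic.isAlgebraic (R := k₁) c).ringHom_of_comp_eq
      ((i : k₁ →+* k).codRestrict M h1) (RingHom.id k) (RingHom.injective _) (by ext; rfl)

/-- The curve is cut out by its equations. -/
theorem crv {Z : Type} [Fintype Z] {s : Z → G.R} {z₀ : Z} (hs : ∀ z, s z ∈ G.W X m t)
    (h0 : G.π (s z₀) ≠ 0) (C : Cut κ G.V1.K (rep e fun z => G.π (s z) / G.π (s z₀)))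
    (hI : AlgebraicIndependent κ (Sum.elim C.s C.t)) (V : Pt L κ') [IsFF κ' V.K]
    [Algebra C.k' κ'] [Algebra.IsAlgebraic C.k' κ'] (f : κ →ₐ[ℂ] κ')
    (hf : ∀ c, f c = algebraMap C.k' κ' (algebraMap κ C.k' c)) (Φ : C.L' →+* V.K)
    (hΦ : ∀ c, Φ (algebraMap C.k' C.L' c) = algebraMap κ' V.K (algebraMap C.k' κ' c))
    (hσ : ∀ l, V.σ l = Φ (algebraMap G.V1.K C.L' (G.V1.σ l))) :
    ∃ D : Crv X G m t V, D.f = f := by
  obtain ⟨φ, h1, h2, -, h3⟩ := exists_phi' (σ := G.s) (σ' := V.σ) f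
    (Φ.comp ((algebraMap G.V1.K C.L').comp G.π)) (fun c => by
      rw [hf, ← hΦ, ← IsScalarTower.algebraMap_apply κ C.k' C.L',
        IsScalarTower.algebraMap_apply κ G.V1.K C.L']
      exact congrArg (fun x => Φ (algebraMap _ _ x)) (G.π.commutes c)) fun l => by
      rw [hσ, ← G.hπ]
      rfl
  replace h3 : ∀ r, rho κ' V.σ (φ r) = Φ (algebraMap G.V1.K C.L' (G.π r)) := h3
  have h4 : rho κ' V.σ (φ (s z₀)) ≠ 0 := by
    rw [h3]
    exact (map_ne_zero _).2 ((map_ne_zero _).2 h0)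
  let W : Fin e → Fin e × Z → G.R := fun a z => if z.1 = a then s z.2 else 0
  let θ : Fin e → V.R := fun a => algebraMap C.k' κ' (C.t a) • φ (s z₀) -
    ∑ z, algebraMap C.k' κ' (C.s z) • φ (W a z)
  have h5 : Ideal.span (range θ) ⊔ G.p.map φ ≤ V.m := by
    refine sup_le (Ideal.span_le.2 (range_subset_iff.2 fun a => mem_max.2 ?_))
      (Ideal.map_le_iff_le_comap.2 fun r hr => mem_max.2 ?_)
    · have h6 : ∀ z, rep e (fun z => G.π (s z) / G.π (s z₀)) a z * G.π (s z₀) = G.π (W a z) :=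
        fun z => by
          unfold rep W
          split_ifs
          exacts [div_mul_cancel₀ _ h0, by simp]
      simp only [θ, map_sub, map_sum, AlgHom.commutes, h3, Algebra.smul_def, ← hΦ, ← h6, C.eq a,
        map_mul, Finset.sum_mul, mul_assoc, sub_self]
    · rw [h3, (G.ker r).2 hr, map_zero, map_zero]
  have := Du.essFin (gen_y X)
  have := germ_noeth (κ := κ') (σ := V.σ)
  refine ⟨⟨f, φ, ⟨h1, h2⟩, s z₀, θ, hs z₀, germ_isUnit.2 h4, fun a => sub_mem
    (smul_mem _ _ (subset_span ⟨_, hs z₀, rfl⟩)) (sum_mem fun z _ => smul_mem _ _ ?_), h5,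
    CRV.pow_le_of_only fun P hP hle => ?_⟩, rfl⟩
  · unfold W
    split_ifs
    exacts [subset_span ⟨_, hs _, rfl⟩, by simp]
  · obtain ⟨τ, hτ, -⟩ := IsFF.ex (κ := κ') (L := V.K)
    obtain ⟨τ, rfl⟩ := rho_surj V.gen τ
    have h6 : ∀ a, mkG κ' V.σ a ∈ Algebra.adjoin κ' (range φ) := fun a => by
      induction a with
      | zero => simp
      | add a b ha hb => rw [map_add]; exact add_mem ha hb
      | tmul c l =>
        rw [mkG_tmul]
        exact mul_mem (Subalgebra.algebraMap_mem _ c) (Algebra.subset_adjoin ⟨_, h2 l⟩)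
    refine (only G.π (by simpa using G.dim) C.s C.t hI C.genk φ (fun c => by rw [h1, hf])
      (rho κ' V.σ) (fun g => ?_) hτ h4 W P ((le_maximalIdeal hP.ne_top).trans ker_rho.ge)
      (fun r hr => hle (mem_sup_right (Ideal.mem_map_of_mem φ ((G.ker r).1 hr))))
      fun a => hle (mem_sup_left (Ideal.subset_span ⟨a, rfl⟩))).trans ker_rho
    obtain ⟨a, b, hb, hr⟩ := germ_surj g
    exact ⟨_, h6 a, _, h6 b, by rwa [rho_mkG], hr⟩

end CUR

open CUR in
theorem st_CUR (hEFW : St_EFW) : St_CUR := by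
  intro L _ _ n X u m U κ _ _ e G k t hu hm ht0 hk hO
  have : CharZero κ := charZero_of_injective_algebraMap (algebraMap ℂ κ).injective
  obtain ⟨Z, _, α, s, z₀, hJ, hs⟩ := jets G ht0 hO
  obtain ⟨h0, h1, h2⟩ := st_PLACE κ _ _ _ _ e _ t Z α s z₀ (cone G) hJ G.dim
  obtain ⟨C⟩ := st_EXC κ G.V1.K _ _ (rep e fun z => G.π (s z) / G.π (s z₀))
  obtain ⟨hI, hd⟩ := h1 e 0 rfl C
  have := Dim.isFF (C.gen (gen_pt X G.V1)) hd
  obtain ⟨x, h3, -, h4⟩ := h2 C
  obtain ⟨kb, Fb, _, _, _, _, _, _, _, _, _, hff, c, hc0, halg, hg, hht⟩ := H91.st_BCH C.k' C.L'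
  have hΦ : ∀ a, algebraMap C.L' Fb (algebraMap C.k' C.L' a) =
      algebraMap kb Fb (algebraMap C.k' kb a) := fun a => by
    rw [← IsScalarTower.algebraMap_apply, ← IsScalarTower.algebraMap_apply]
  have hκ : ∀ a, algebraMap G.V1.K C.L' (algebraMap κ _ a) =
      algebraMap C.k' C.L' (algebraMap κ C.k' a) := fun a => by
    rw [← IsScalarTower.algebraMap_apply, ← IsScalarTower.algebraMap_apply]
  obtain ⟨_, _, _, f, σ, hf, hσ, hgen⟩ := exists_pt G.V1
    ((algebraMap C.k' kb).comp (algebraMap κ C.k'))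
    ((algebraMap C.L' Fb).comp (algebraMap G.V1.K C.L')) (fun a => by
      simp only [RingHom.comp_apply, hκ, hΦ])
    (Mix.gen_pt (k := C.k') (fun a => ⟨_, hΦ a⟩) hg (C.gen (Mix.Ext.refl κ G.V1.K).gen))
  let V : Pt L kb := ⟨Fb, σ, hgen⟩
  have : IsFF kb V.K := hff
  obtain ⟨D, rfl⟩ := crv hs h0 C hI V f hf (algebraMap C.L' Fb) hΦ hσ
  obtain ⟨h7, h8⟩ := num G hEFW U hu hm hk (fun z => (hs z).1) h0
    (fun i n h C => (h1 i n h C).2) C
  have h9 : ∀ {ι : Type} [Finite ι] (w : ι → L),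
      ht C.k' (C.map fun j => G.V1.σ (w j)) = c * ht kb fun j => V.σ (w j) := fun w => by
    rw [hht]
    exact congrArg (fun z => c * ht kb z) (funext fun j => (hσ _).symm)
  rw [h9] at h8
  rw [h9, h9, mul_left_comm, ← mul_sub] at h7
  refine ⟨kb, _, _, inferInstance, V, hff, D, c, hc0, ?_, mul_Ec D, by exact_mod_cast h7,
    by exact_mod_cast h8⟩
  let ζ : Fin (X.N + 1) → C.L' := fun j => algebraMap G.V1.K C.L'
    (G.π (iota κ G.s (X.y j) - algebraMap κ _ (G.s (X.y j))))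
  have e1 : (fun j => algebraMap C.L' Fb (ζ j)) = V.zt X (D.f.comp G.s) := funext fun j => by
    simp only [ζ, map_sub, G.hπ, AlgHom.commutes, hκ, hΦ]
    exact congrArg₂ _ (hσ _).symm (congrArg _ (hf _).symm)
  have e2 : ζ ≠ 0 := fun h => zt_ne V _ (e1.symm.trans (funext fun j => by simp [h]))
  have e3 := CRV.deg_le_zdiv e2 x fun j => h4 _ (by rw [map_sub, rho_iota, rho_alg, sub_self])
  have e4 : (fun o => algebraMap C.L' Fb (opt ζ o)) = opt (V.zt X (D.f.comp G.s)) := by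
    funext o
    cases o
    exacts [map_one _, congrFun e1 _]
  rw [CRV.degD_zdiv e2, hht, hht, e1, e4, ← mul_sub, ← CRV.degD_zdiv (zt_ne V _)] at e3
  exact le_trans (by exact_mod_cast h3) e3

end Pool.Agent.Lib.A35
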