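import Pool.Agent.Lib.A35.Blue

/-! Multiples of `K + m D + H` embed in multiples of `m D + H`. -/

open Module Submodule Set Filter IsLocalRing

noncomputable section

namespace Pool.Agent.Lib.A35

open Pool.Agent.Lib.MP_7fcda1_ag Pool.Agent.Lib.UR G

namespace EFW
variable {k L : Type} [Field k] [Field L] [Algebra k L] {U U' V V' : Submodule k L}

theorem mul (h : U ≤ cl V) (h' : U' ≤ cl V') : U * U' ≤ cl (V * V') :=
  (mul_le_mul' h h').trans (cl_mul_le _ _)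

theorem tr (h : U ≤ cl V) (h' : V ≤ cl V') : U ≤ cl V' := h.trans (cl_le_cl h')

theorem canc [FiniteDimensional k U'] (h0 : U' ≠ ⊥) (h : U * U' ≤ cl (V * U')) : U ≤ cl V := by
  rw [← cl_cancel V h0]
  exact Submodule.le_div_iff_mul_le.2 h

theorem key {S A P H W Γ Γ' G₀ : Submodule k L} [FiniteDimensional k H] (h0 : (1 : L) ∈ H)
    (hΓ : Γ' * Γ = 1) {n q m r c u : ℕ} (h1 : S * H ^ (n + 1 + q * m) ≤ cl (A * P ^ m * H))
    (h2 : G₀ * A ^ r * H ^ (q * c) ≤ cl (P ^ c * H ^ ((n + 1) * r)))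
    (h3 : P ^ (u * m) * H ^ u ≤ cl (Γ * W * H ^ (q * (u * m)))) :
    G₀ ^ (u * m) * Γ' ^ (r * m + c) * S ^ (u * (r * m)) ≤ cl (W ^ (r * m + c)) := by
  have := fd_pow H ((n + 1 + q * m) * (u * (r * m)) + q * c * (u * m))
  refine canc (ne_bot_of_one (one_mem_pow h0 ((n + 1 + q * m) * (u * (r * m)) + q * c * (u * m)))) ?_
  have e1 : G₀ ^ (u * m) * Γ' ^ (r * m + c) * S ^ (u * (r * m)) *
      H ^ ((n + 1 + q * m) * (u * (r * m)) + q * c * (u * m)) =
      (Γ' ^ (r * m + c) * G₀ ^ (u * m) * H ^ (q * c * (u * m))) *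
        (S * H ^ (n + 1 + q * m)) ^ (u * (r * m)) := by ring
  rw [e1]
  refine tr (mul (le_cl _) (pow_le_cl h1 _)) ?_
  have e2 : Γ' ^ (r * m + c) * G₀ ^ (u * m) * H ^ (q * c * (u * m)) *
      (A * P ^ m * H) ^ (u * (r * m)) = (Γ' ^ (r * m + c) * (P ^ m * H) ^ (u * (r * m))) *
        (G₀ * A ^ r * H ^ (q * c)) ^ (u * m) := by ring
  rw [e2]
  refine tr (mul (le_cl _) (pow_le_cl h2 _)) ?_
  have e3 : Γ' ^ (r * m + c) * (P ^ m * H) ^ (u * (r * m)) * (P ^ c * H ^ ((n + 1) * r)) ^ (u * m) =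
      (Γ' ^ (r * m + c) * H ^ ((n + 1) * r * (u * m)) * P ^ (u * m * (r * m + c))) *
        H ^ (u * (r * m)) := by ring
  have h4 : H ^ (u * (r * m)) ≤ cl (H ^ (u * (r * m + c))) :=
    (pow_mono' h0 (Nat.mul_le_mul_left _ (Nat.le_add_right _ _))).trans (le_cl _)
  rw [e3]
  refine tr (mul (le_cl _) h4) ?_
  have e4 : Γ' ^ (r * m + c) * H ^ ((n + 1) * r * (u * m)) * P ^ (u * m * (r * m + c)) *
      H ^ (u * (r * m + c)) = (Γ' ^ (r * m + c) * H ^ ((n + 1) * r * (u * m))) *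
        (P ^ (u * m) * H ^ u) ^ (r * m + c) := by ring
  rw [e4]
  refine (mul (le_cl _) (pow_le_cl h3 _)).trans (cl_mono (le_of_eq ?_))
  calc Γ' ^ (r * m + c) * H ^ ((n + 1) * r * (u * m)) *
        (Γ * W * H ^ (q * (u * m))) ^ (r * m + c)
      = (Γ' * Γ) ^ (r * m + c) * (W ^ (r * m + c) *
        H ^ ((n + 1 + q * m) * (u * (r * m)) + q * c * (u * m))) := by ring
    _ = _ := by rw [hΓ, one_pow, one_mul]

theorem H_eq {L : Type} [Field L] [Algebra ℂ L] {n : ℕ} (X : Mod L n) :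
    span ℂ (range X.y) = X.H := by
  rw [Mod.H, sys, insert_eq_of_mem (show (1 : L) ∈ range X.y from ⟨0, X.y0⟩)]

end EFW

theorem st_EFW : St_EFW := by
  intro L _ _ n X u m U
  obtain ⟨g, hg, h2⟩ := X.eff
  rw [EFW.H_eq] at h2
  refine ⟨g ^ (u * m) * U.γ⁻¹ ^ (X.r * m + X.c),
    mul_ne_zero (pow_ne_zero _ hg) (pow_ne_zero _ (inv_ne_zero U.ne)), ?_⟩
  have : FiniteDimensional ℂ X.H := inferInstanceAs (FiniteDimensional ℂ (sys ℂ X.y))
  have hΓ : span ℂ {U.γ⁻¹} * span ℂ {U.γ} = 1 := by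
    rw [span_mul_span, singleton_mul_singleton, inv_mul_cancel₀ U.ne, one_eq_span]
  have h := EFW.key (S := X.SecK m) (A := X.A) (P := X.P) (W := sys ℂ U.w) (one_mem_sys X.y) hΓ
    (Submodule.le_div_iff_mul_le.1 le_rfl) h2 ((le_cl _).trans U.eq.ge)
  rwa [span_pow, span_pow, singleton_pow, singleton_pow, span_mul_span,
    singleton_mul_singleton] at h

end Pool.Agent.Lib.A35
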