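import Mathlib

/-! Transcendence bases inside a generating set and the derivations dual to them. -/

open Set Submodule

namespace Pool.Agent.Lib.A35.Du

variable {k K : Type} [Field k] [Field K] [Algebra k K]

theorem essFin {τ : Type} [Finite τ] {w : τ → K}
    (h : IntermediateField.adjoin k (range w) = ⊤) : Algebra.EssFiniteType k K :=
  IntermediateField.fg_top_iff.1 (h ▸ IntermediateField.fg_adjoin_of_finite (finite_range w))

open KaehlerDifferential in
/-- Derivations dual to a transcendence basis. -/
theorem exists_dual [CharZero k] {τ : Type} [DecidableEq τ] {t : τ → K}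
    (ht : IsTranscendenceBasis k t) :
    ∃ d : τ → Derivation k K K, ∀ i j, d i (t j) = if i = j then 1 else 0 := by
  let A := MvPolynomial τ k
  let : Algebra A K := (MvPolynomial.aeval t : A →ₐ[k] K).toRingHom.toAlgebra
  have hA : ∀ a : A, algebraMap A K a = MvPolynomial.aeval t a := fun _ => rfl
  have : IsScalarTower k A K := .of_algebraMap_eq fun c => by rw [hA, AlgHom.commutes]
  have : FaithfulSMul A K := (faithfulSMul_iff_algebraMap_injective A K).2 ht.1
  let : Algebra (FractionRing A) K := FractionRing.liftAlgebra A K
  have : Algebra.IsAlgebraic A K := by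
    have h1 := ht.isAlgebraic
    exact .of_ringHom_of_comp_eq (ht.1.aevalEquiv : A →+* Algebra.adjoin k (range t)) (RingHom.id K)
      ht.1.aevalEquiv.surjective Function.injective_id
      (RingHom.ext fun a => ht.1.algebraMap_aevalEquiv a)
  have : Algebra.IsAlgebraic (FractionRing A) K := IsFractionRing.comap_isAlgebraic_iff.1 this
  have : CharZero (FractionRing A) := algebraRat.charZero _
  have : Algebra.FormallyEtale A (FractionRing A) := .of_isLocalization (nonZeroDivisors A)
  have : Algebra.FormallyEtale (FractionRing A) K := .of_isSeparable _ _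
  have : Algebra.FormallyEtale A K := .comp A (FractionRing A) K
  let b := ((mvPolynomialBasis k τ).baseChange K).map (tensorKaehlerEquivOfFormallyEtale k A K)
  have hb : ∀ j, b j = D k K (t j) := fun j => by
    rw [Module.Basis.map_apply, Module.Basis.baseChange_apply, mvPolynomialBasis_apply,
      tensorKaehlerEquivOfFormallyEtale_apply, mapBaseChange_tmul, one_smul, map_D, hA,
      MvPolynomial.aeval_X]
  refine ⟨fun i => (b.coord i).compDer (D k K), fun i j => ?_⟩
  change b.coord i (D k K (t j)) = _
  rw [← hb]
  simp [Finsupp.single_apply, eq_comm]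

/-- A generating set contains a transcendence basis. -/
theorem exists_basis {L : Type} {σ : L → K} (h : IntermediateField.adjoin k (range σ) = ⊤) {d : ℕ}
    {x : Fin d → K} (hx : IsTranscendenceBasis k x) :
    ∃ z : Fin d → L, IsTranscendenceBasis k fun i => σ (z i) := by
  have : Algebra.IsAlgebraic (Algebra.adjoin k (range σ)) K := by
    rw [← IntermediateField.isAlgebraic_adjoin_iff_top, h, Algebra.isAlgebraic_iff_isIntegral]
    exact Algebra.isIntegral_of_surjective IntermediateField.topEquiv.surjective
  obtain ⟨t, hts, ht⟩ := exists_isTranscendenceBasis_subset (R := k) (range σ)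
  obtain ⟨e⟩ := Cardinal.eq.1 (hx.cardinalMk_eq ht)
  choose z hz using fun i => hts (e i).2
  exact ⟨z, funext hz ▸ ht.comp_equiv e⟩

/-- The dimension of a span does not grow under extension of the constants. -/
theorem finrank_span_le {V V' : Type} [AddCommGroup V] [Module k V] [AddCommGroup V'] [Module K V']
    (f : V →+ V') (hf : ∀ (c : k) v, f (c • v) = algebraMap k K c • f v) (S : Set V)
    [FiniteDimensional k (span k S)] : FiniteDimensional K (span K (f '' S)) ∧
      Module.finrank K (span K (f '' S)) ≤ Module.finrank k (span k S) := by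
  let b := Module.finBasis k (span k S)
  have h : span K (f '' S) ≤ span K (range fun i => f (b i)) := by
    refine span_le.2 ?_
    rintro _ ⟨x, hx, rfl⟩
    have := congrArg (fun y : span k S => f y) (b.sum_repr ⟨x, subset_span hx⟩)
    simp only [coe_sum, map_sum, coe_smul, hf] at this
    exact this ▸ sum_mem fun i _ => smul_mem _ _ (subset_span ⟨i, rfl⟩)
  have := FiniteDimensional.span_of_finite K (finite_range fun i => f (b i))
  exact ⟨finiteDimensional_of_le h, (finrank_mono h).trans
    ((finrank_range_le_card _).trans (by simp))⟩

/-- The general point of `V(p)` is algebraic over `K(ζ)`. -/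
theorem isAlg {K1 : Type} [Field K1] [Algebra K K1] (lam : K →+* K1) {τ : Type} {t : τ → K}
    (ht : IsTranscendenceBasis k t)
    (h1 : ∀ a, lam (algebraMap k K a) = algebraMap K K1 (algebraMap k K a))
    (hg : IntermediateField.adjoin K (range lam) = ⊤) :
    Algebra.IsAlgebraic (Algebra.adjoin K (range fun i => algebraMap K K1 (t i) - lam (t i))) K1 := by
  rw [← IntermediateField.isAlgebraic_adjoin_iff_top]
  set E := IntermediateField.adjoin K (range fun i => algebraMap K K1 (t i) - lam (t i))
  let E0 := IntermediateField.adjoin k (range t)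
  have : Algebra.IsAlgebraic E0 K := ht.isAlgebraic_field
  have hE : E0 ≤ (E.toSubfield.comap lam).toIntermediateField fun a =>
      show lam _ ∈ E from h1 a ▸ E.algebraMap_mem _ :=
    IntermediateField.adjoin_le_iff.2 (range_subset_iff.2 fun i => show lam _ ∈ E by
      simpa using sub_mem (E.algebraMap_mem (t i)) (IntermediateField.subset_adjoin _ _ ⟨i, rfl⟩))
  have : IntermediateField.adjoin K (range lam) ≤ (algebraicClosure E K1).restrictScalars K :=
    IntermediateField.adjoin_le_iff.2 (range_subset_iff.2 fun a => mem_algebraicClosure_iff.2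
      ((Algebra.IsAlgebraic.isAlgebraic (R := E0) a).ringHom_of_comp_eq
        ((lam.comp (algebraMap E0 K)).codRestrict E.toSubfield fun x => hE x.2) lam
        (RingHom.injective _) rfl))
  exact ⟨fun x => mem_algebraicClosure_iff.1 (this (hg ▸ trivial))⟩

end Pool.Agent.Lib.A35.Du
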