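import Pool.Agent.Lib.UR.M_EXP

/-! Derivations of a function field in one variable and the divisor of the dual differential. -/

open Polynomial
open scoped IntermediateField

set_option linter.unusedSectionVars false

noncomputable section

namespace Pool.Agent.Lib.A35.Fc

open Pool.Agent.Lib.MP_7fcda1_ag

variable {k F : Type} [Field k] [Field F] [Algebra k F]

/-- Chain rule in two variables. -/
theorem chain (P : k[X][X]) : ∃ Q : k[X][X], ∀ (A : Type) [CommRing A] [Algebra k A]
    (D : Derivation k A A) (a b : A), D (aevalAeval a b P) =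
      aevalAeval a b (derivative P) * D b + aevalAeval a b Q * D a := by
  induction P using Polynomial.induction_on' with
  | add P P' h h' =>
    obtain ⟨Q, h⟩ := h
    obtain ⟨Q', h'⟩ := h'
    exact ⟨Q + Q', fun A _ _ D a b => by simp only [map_add, h, h']; ring⟩
  | monomial n c =>
    refine ⟨monomial n (derivative c), fun A _ _ D a b => ?_⟩
    simp only [← C_mul_X_pow_eq_monomial, map_mul, map_pow, aevalAeval_C, aevalAeval_Y,
      derivative_C_mul, derivative_X_pow, Derivation.leibniz, Derivation.leibniz_pow,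
      Derivation.map_aeval, smul_eq_mul, nsmul_eq_mul, map_natCast]
    ring

theorem map_aa {A B : Type} [CommRing A] [Algebra k A] [CommRing B] [Algebra k B]
    (φ : A →ₐ[k] B) (a b : A) (P : k[X][X]) :
    φ (aevalAeval a b P) = aevalAeval (φ a) (φ b) P := by
  induction P using Polynomial.induction_on' with
  | add P P' h h' => simp only [map_add, h, h']
  | monomial n c =>
    simp only [← C_mul_X_pow_eq_monomial, map_mul, map_pow, aevalAeval_C, aevalAeval_Y,
      aeval_algHom_apply]

theorem aa_mem (B : Subalgebra k F) {a b : F} (ha : a ∈ B) (hb : b ∈ B) (P : k[X][X]) :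
    aevalAeval a b P ∈ B :=
  map_aa B.val ⟨a, ha⟩ ⟨b, hb⟩ P ▸ (aevalAeval (⟨a, ha⟩ : B) ⟨b, hb⟩ P).2

variable [CharZero k] [IsFF k F]

/-- A separable relation between a transcendental element and any element. -/
theorem exists_rel {t : F} (ht : Transcendental k t) (f : F) :
    ∃ P : k[X][X], aevalAeval t f P = 0 ∧ aevalAeval t f (derivative P) ≠ 0 := by
  have h1 : ∃ P : k[X][X], P ≠ 0 ∧ aevalAeval t f P = 0 := by
    have := IsFF.finite ht
    obtain ⟨P, h0, hP⟩ := IntermediateField.isAlgebraic_adjoin_iff.1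
      (Algebra.IsAlgebraic.isAlgebraic (R := k⟮t⟯) f)
    let φ : k[X] →+* Algebra.adjoin k {t} :=
      ((aeval t).codRestrict _ fun p => aeval_mem_adjoin_singleton k t).toRingHom
    obtain ⟨P', rfl⟩ := map_surjective φ (fun z => by
      obtain ⟨p, hp⟩ := (Algebra.adjoin_singleton_eq_range_aeval k t).le z.2
      exact ⟨p, Subtype.ext hp⟩) P
    refine ⟨P', fun h => h0 (by simp [h]), ?_⟩
    rw [← hP]
    clear h0 hP
    induction P' using Polynomial.induction_on' with
    | add P P' h h' => rw [Polynomial.map_add, map_add, map_add, h, h']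
    | monomial n c =>
      rw [Polynomial.map_monomial, aeval_monomial, ← C_mul_X_pow_eq_monomial, map_mul, map_pow,
        aevalAeval_C, aevalAeval_Y]
      rfl
  obtain ⟨P, h0, hP⟩ := h1
  induction hn : P.natDegree using Nat.strong_induction_on generalizing P with
  | _ n ih =>
    by_cases h2 : aevalAeval t f (derivative P) = 0
    swap
    · exact ⟨P, hP, h2⟩
    by_cases h3 : P.natDegree = 0
    · rw [eq_C_of_natDegree_eq_zero h3] at h0 hP
      rw [aevalAeval_C] at hP
      exact absurd ⟨_, fun h => h0 (by rw [h, map_zero]), hP⟩ ht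
    · exact ih _ (hn ▸ natDegree_derivative_lt h3) _
        (fun h => h3 (derivative_eq_zero.1 h)) h2 rfl

theorem der_ne_zero {D : Derivation k F F} (hD : D ≠ 0) {t : F} (ht : Transcendental k t) :
    D t ≠ 0 := fun h => hD (Derivation.ext fun f => by
  obtain ⟨P, h0, h1⟩ := exists_rel ht f
  obtain ⟨Q, hQ⟩ := chain P
  have := hQ F D t f
  rw [h0, h, map_zero, mul_zero, add_zero] at this
  exact (mul_eq_zero.1 this.symm).resolve_left h1)

theorem trans_of_ord (x : Place k F) {t : F} (h : ord x.O t ≠ 0) : Transcendental k t :=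
  fun ha => h (x.ord_algebraic ha)

variable [IsAlgClosed k]

/-- The derivative with respect to a uniformiser preserves the valuation ring. -/
theorem ge_der (D : Derivation k F F) (x : Place k F) {π : F} (hπ : ord x.O π = 1) {f : F}
    (hf : Ge x.O 0 f) : Ge x.O (ord x.O (D π)) (D f) := by
  have hx : Disc x.O ∨ x.O = ⊤ := Or.inl x.disc
  have h0 : π ≠ 0 := fun h => by simp [h] at hπ
  obtain ⟨ex, hex⟩ := UR.M.st_exp k F x
  let a : x.O := ⟨π, (mem_iff_ge hx).2 (Or.inr (by omega))⟩
  let b : x.O := ⟨f, (mem_iff_ge hx).2 hf⟩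
  let val : x.O →ₐ[k] F := { x.O.subtype with commutes' := fun _ => rfl }
  obtain ⟨P, h1, h2⟩ := exists_rel (trans_of_ord x (t := π) (by omega)) f
  obtain ⟨Q, hQ⟩ := chain P
  have hv : ∀ P, ((aevalAeval a b P : x.O) : F) = aevalAeval π f P := fun P => map_aa val a b P
  have h3 : aevalAeval a b P = 0 := Subtype.ext ((hv P).trans h1)
  have h4 := hQ _ (PowerSeries.derivative k) (ex a) (ex b)
  rw [← map_aa, ← map_aa, ← map_aa, h3, map_zero, map_zero] at h4
  have h5 : IsUnit (PowerSeries.derivative k (ex a)) := by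
    rw [PowerSeries.isUnit_iff_constantCoeff, ← PowerSeries.coeff_zero_eq_constantCoeff_apply,
      PowerSeries.coeff_derivative, isUnit_iff_ne_zero]
    intro h6
    have h7 := PowerSeries.X_pow_dvd_iff.1 ((hex a 1).2 (Or.inr hπ.ge))
    have h8 := (ge_iff h0).1 ((hex a 2).1 (PowerSeries.X_pow_dvd_iff.2 fun m hm => by
      interval_cases m
      · exact h7 0 one_pos
      · simpa using h6))
    rw [hπ] at h8
    omega
  obtain ⟨N, hN⟩ := Int.eq_ofNat_of_zero_le ((ge_iff h2).1 ((mem_iff_ge hx).1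
    (hv _ ▸ (aevalAeval a b (derivative P)).2)))
  have h6 : Ge x.O N (aevalAeval π f Q) := by
    rw [← hv, ← hex, ← h5.dvd_mul_right, ← neg_eq_of_add_eq_zero_right h4.symm, dvd_neg]
    exact ((hex _ N).2 (Or.inr (by rw [hv, hN]))).mul_right _
  have h7 := hQ F D π f
  rw [h1, map_zero] at h7
  have h8 := (h6.mul (ge_ord (a := D π))).neg
  rwa [neg_eq_of_add_eq_zero_left h7.symm, ge_mul_iff h2, hN, add_sub_cancel_left] at h8

/-- The order of a derivative. -/
theorem ord_der {D : Derivation k F F} (hD : D ≠ 0) (x : Place k F) {π : F}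
    (hπ : ord x.O π = 1) {f : F} (hf : ord x.O f ≠ 0) :
    D f ≠ 0 ∧ ord x.O (D f) = ord x.O (D π) + ord x.O f - 1 := by
  have h0 : π ≠ 0 := fun h => by simp [h] at hπ
  have hf0 : f ≠ 0 := fun h => by simp [h] at hf
  have h1 := der_ne_zero hD (trans_of_ord x (t := π) (by omega))
  refine ⟨der_ne_zero hD (trans_of_ord x hf), ?_⟩
  obtain ⟨u, hu⟩ : ∃ u, f = π ^ ord x.O f * u :=
    ⟨(π ^ ord x.O f)⁻¹ * f, by rw [mul_inv_cancel_left₀ (zpow_ne_zero _ h0)]⟩
  generalize he : ord x.O f = e at hu hf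
  have hu0 : u ≠ 0 := fun h => hf0 (by rw [hu, h, mul_zero])
  have h2 : ord x.O u = 0 := by
    rw [hu, ord_mul (zpow_ne_zero _ h0) hu0, ord_zpow, hπ] at he
    omega
  have he0 : algebraMap k F e ≠ 0 := (_root_.map_ne_zero _).2 (Int.cast_ne_zero.2 hf)
  have h3 : u * (algebraMap k F e * π ^ (e - 1) * D π) ≠ 0 :=
    mul_ne_zero hu0 (mul_ne_zero (mul_ne_zero he0 (zpow_ne_zero _ h0)) h1)
  have h4 : ord x.O (u * (algebraMap k F e * π ^ (e - 1) * D π)) = ord x.O (D π) + e - 1 := by
    rw [ord_mul hu0 (right_ne_zero_of_mul h3), ord_mul (mul_ne_zero he0 (zpow_ne_zero _ h0)) h1,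
      ord_mul he0 (zpow_ne_zero _ h0), x.ord_const, ord_zpow, hπ, h2]
    ring
  have h5 : D f = u * (algebraMap k F e * π ^ (e - 1) * D π) + π ^ e * D u := by
    rw [hu, D.leibniz, D.leibniz_zpow, smul_eq_mul, smul_eq_mul, smul_eq_mul, zsmul_eq_mul,
      map_intCast]
    ring
  rw [h5, ← h4]
  refine (ord_add_of_ge h3 ?_).2
  have h6 := (ge_ord (V := x.O) (a := π ^ e)).mul (ge_der D x hπ (f := u) (Or.inr h2.ge))
  rw [ord_zpow, hπ] at h6
  exact h6.mono (by omega)

/-- The divisor of the differential dual to `D` exists. -/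
theorem exists_W {D : Derivation k F F} (hD : D ≠ 0) :
    ∃ W : Div k F, ∀ (x : Place k F) (π : F), ord x.O π = 1 → W x = -ord x.O (D π) := by
  choose π h0 hπ using fun x : Place k F => x.disc.exists_ord 1
  suffices h : {x | ord x.O (D (π x)) ≠ 0}.Finite from
    ⟨mkDiv fun x => -ord x.O (D (π x)), fun x π' h' => by
      rw [CT1_mkDiv_apply (h.subset fun x hx => neg_ne_zero.1 hx),
        (ord_der hD x (hπ x) (f := π') (by omega)).2, h', add_sub_cancel_right]⟩
  obtain ⟨t, ht, hfin⟩ := IsFF.ex (κ := k) (L := F)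
  have h1 := der_ne_zero hD ht
  let b := Module.finBasis k⟮t⟯ F
  choose P hP hP' using fun i => exists_rel ht (b i)
  let S : Set F := insert t (Set.range b ∪ Set.range fun i =>
    (aevalAeval t (b i) (derivative (P i)))⁻¹)
  have hS : S.Finite := ((Set.finite_range _).union (Set.finite_range _)).insert _
  let A := Algebra.adjoin k S
  have hA1 : t ∈ A := Algebra.subset_adjoin (Or.inl rfl)
  have hA2 : ∀ i, b i ∈ A := fun i => Algebra.subset_adjoin (Or.inr (Or.inl ⟨i, rfl⟩))
  have hA3 : ∀ i, (aevalAeval t (b i) (derivative (P i)))⁻¹ ∈ A := fun i =>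
    Algebra.subset_adjoin (Or.inr (Or.inr ⟨i, rfl⟩))
  have hb : ∀ i, D (b i) / D t ∈ A := fun i => by
    obtain ⟨Q, hQ⟩ := chain (P i)
    have h2 := hQ F D t (b i)
    rw [hP, map_zero] at h2
    have h3 : D (b i) / D t =
        -(aevalAeval t (b i) Q * (aevalAeval t (b i) (derivative (P i)))⁻¹) := by
      have := hP' i
      field_simp
      linear_combination -h2
    rw [h3]
    exact neg_mem (mul_mem (aa_mem A hA1 (hA2 i) Q) (hA3 i))
  have hA : ∀ a ∈ A, D a / D t ∈ A := by
    intro a ha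
    induction ha using Algebra.adjoin_induction with
    | mem a ha =>
      rcases ha with rfl | ⟨i, rfl⟩ | ⟨i, rfl⟩
      · rw [div_self h1]
        exact one_mem _
      · exact hb i
      · obtain ⟨Q, hQ⟩ := chain (derivative (P i))
        dsimp only
        rw [D.leibniz_inv, hQ, smul_eq_mul, mul_div_assoc, add_div, mul_div_assoc, mul_div_assoc,
          div_self h1]
        exact mul_mem (neg_mem (pow_mem (hA3 i) 2)) (add_mem
          (mul_mem (aa_mem A hA1 (hA2 i) _) (hb i)) (mul_mem (aa_mem A hA1 (hA2 i) _) (one_mem _)))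
    | algebraMap c => simp
    | add a a' _ _ ha ha' => rw [map_add, add_div]; exact add_mem ha ha'
    | mul a a' h h' ha ha' =>
      rw [D.leibniz, smul_eq_mul, smul_eq_mul, add_div, mul_div_assoc, mul_div_assoc]
      exact add_mem (mul_mem h ha') (mul_mem h' ha)
  have hF : ∀ z : F, z ∈ IntermediateField.adjoin k S := fun z => by
    rw [← b.sum_repr z]
    refine sum_mem fun i _ => ?_
    rw [Algebra.smul_def]
    exact mul_mem (IntermediateField.adjoin.mono k {t} S (by simp [S]) (b.repr z i).2)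
      (IntermediateField.subset_adjoin k S (Or.inr (Or.inl ⟨i, rfl⟩)))
  refine ((hS.biUnion fun s _ => finite_ord (κ := k) s).union (finite_ord (D t))).subset
    fun x hx => ?_
  by_contra h2
  simp only [Set.mem_union, Set.mem_iUnion, Set.mem_ofPred_eq, not_or, not_exists, not_not] at h2
  have h3 : ∀ a ∈ A, Ge x.O 0 a := by
    intro a ha
    induction ha using Algebra.adjoin_induction with
    | mem a ha => exact Or.inr (h2.1 a ha).ge
    | algebraMap c => exact Or.inr (x.ord_const c).ge
    | add a a' _ _ ha ha' => exact ha.add ha'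
    | mul a a' _ _ ha ha' => simpa using ha.mul ha'
  have h4 := (ge_iff h1).1 (ge_der D x (hπ x) (h3 t hA1))
  have h5 : ∀ (n : ℕ), ∀ a ∈ A, ord x.O a = n → 1 - ord x.O (D (π x)) ∣ ord x.O a := by
    intro n
    induction n using Nat.strong_induction_on with
    | _ n ih =>
      intro a ha hn
      by_cases h6 : ord x.O a = 0
      · simp [h6]
      obtain ⟨h7, h8⟩ := ord_der hD x (hπ x) h6
      have h9 := ord_div (V := x.O) h7 h1
      obtain ⟨n', hn'⟩ := Int.eq_ofNat_of_zero_le ((ge_iff (div_ne_zero h7 h1)).1 (h3 _ (hA a ha)))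
      have h10 := ih n' (by omega) _ (hA a ha) hn'
      rw [show ord x.O a = ord x.O (D a / D t) + (1 - ord x.O (D (π x))) by omega]
      exact dvd_add h10 dvd_rfl
  have h6 : ∀ a ∈ A, 1 - ord x.O (D (π x)) ∣ ord x.O a := fun a ha => by
    rcases h3 a ha with h | h
    · simp [h]
    · obtain ⟨n, hn⟩ := Int.eq_ofNat_of_zero_le h
      exact h5 n a ha hn
  obtain ⟨r, hr, s, hs, e⟩ := IntermediateField.mem_adjoin_iff_div.1 (hF (π x))
  have h7 : r / s ≠ 0 := e ▸ h0 x
  have h8 := dvd_sub (h6 r hr) (h6 s hs)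
  rw [← ord_div (div_ne_zero_iff.1 h7).1 (div_ne_zero_iff.1 h7).2, ← e, hπ] at h8
  have h9 := Int.le_of_dvd one_pos h8
  exact hx (by omega)

end Pool.Agent.Lib.A35.Fc
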