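import Pool.Agent.Lib.A35.Blue
import Pool.Agent.Lib.A35.Fact
import Pool.Agent.Lib.A35.Dual

/-! A canonical divisor of a function field in one variable. -/

noncomputable section

namespace Pool.Agent.Lib.A35

open Pool.Agent.Lib.MP_7fcda1_ag

theorem st_FCT : St_FCT := by
  intro κ F _ _ _ _ _ _
  obtain ⟨f, hf, h⟩ := IsFF.ex (κ := κ) (L := F)
  have hb : IsTranscendenceBasis κ fun _ : Unit => f := by
    refine isTranscendenceBasis_iff_algebraicIndependent_isAlgebraic.2
      ⟨algebraicIndependent_unique_type_iff.2 hf, ?_⟩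
    rw [Set.range_const]
    exact IntermediateField.isAlgebraic_adjoin_iff_top.1 inferInstance
  obtain ⟨d, hd⟩ := Du.exists_dual hb
  have h0 : d () ≠ 0 := fun h0 => by simpa [h0] using hd () ()
  obtain ⟨W, hW⟩ := Fc.exists_W h0
  exact ⟨_, W, h0, hW⟩

end Pool.Agent.Lib.A35
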