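import Pool.Agent.Lib.A35.D34b

/-! Noether normalisation adapted to a product system, and duality for twisted canonical
systems. -/

open MvPolynomial Set Submodule

noncomputable section

namespace Pool.Agent.Lib.A35.D34

open Pool.Agent.Lib.UR Pool.Agent.Lib.MP_7fcda1_ag

variable {L κ κ' : Type} [Field L] [Algebra ℂ L] {N n : ℕ} {y : Fin (N + 1) → L}

theorem span_mul_range (r : κ → L) (r' : κ' → L) : span ℂ (range r) * span ℂ (range r') =
    span ℂ (range fun p : κ × κ' => r p.1 * r' p.2) := by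
  rw [span_mul_span]
  congr 1
  ext x
  exact ⟨by rintro ⟨_, ⟨s, rfl⟩, _, ⟨t, rfl⟩, rfl⟩; exact ⟨(s, t), rfl⟩,
    by rintro ⟨p, rfl⟩; exact ⟨_, ⟨p.1, rfl⟩, _, ⟨p.2, rfl⟩, rfl⟩⟩

theorem span_smul_range (l : L) (r : κ → L) : span ℂ {l} * span ℂ (range r) =
    span ℂ (range fun s => l * r s) := by
  rw [span_mul_span]
  congr 1
  ext x
  exact ⟨by rintro ⟨_, rfl, _, ⟨t, rfl⟩, rfl⟩; exact ⟨t, rfl⟩,
    by rintro ⟨p, rfl⟩; exact ⟨_, rfl, _, ⟨p, rfl⟩, rfl⟩⟩

theorem ne_bot_range {r : κ → L} (h : r ≠ 0) : span ℂ (range r) ≠ ⊥ := fun h0 => h (funext fun s =>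
  (Submodule.mem_bot ℂ).1 (h0 ▸ subset_span ⟨s, rfl⟩))

theorem mul_ne_bot {U U' : Submodule ℂ L} (h : U ≠ ⊥) (h' : U' ≠ ⊥) : U * U' ≠ ⊥ := by
  obtain ⟨a, ha, ha0⟩ := (Submodule.ne_bot_iff _).1 h
  obtain ⟨b, hb, hb0⟩ := (Submodule.ne_bot_iff _).1 h'
  exact (Submodule.ne_bot_iff _).2 ⟨a * b, mul_mem_mul ha hb, mul_ne_zero ha0 hb0⟩

theorem pow_ne_bot {U : Submodule ℂ L} (h : U ≠ ⊥) (j : ℕ) : U ^ j ≠ ⊥ := by
  obtain ⟨a, ha, ha0⟩ := (Submodule.ne_bot_iff _).1 h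
  exact (Submodule.ne_bot_iff _).2 ⟨a ^ j, pow_mem_pow _ ha j, pow_ne_zero _ ha0⟩

/-- Duality for `K + m (P - q H) + H`. -/
theorem dualP {K : Type} [Field K] [Algebra ℂ K] [Algebra K L] [IsScalarTower ℂ K L]
    [FiniteDimensional K L] [Finite κ] (hs : GD.SmoothModel y) (ht : Algebra.trdeg ℂ L = n)
    {d : Fin n → Derivation ℂ L L} (hG : gaussT d y ≠ 0) {p : κ → L} (hp : FreeV y p)
    (z : Fin (n + 1) → K) (hz : z 0 = 1) {l : L} (hl : l ≠ 0) (P A H : Submodule ℂ L)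
    (hP : P = span ℂ (range p)) (hA : A = span ℂ (range (gaussT d y)))
    (hH : H = span ℂ (range y)) (h1 : ∀ c, l * algebraMap K L (z c) ∈ P * A * H)
    (h2 : span ℂ {l⁻¹} * (P * A * H) ≤ cl (sys ℂ fun c => algebraMap K L (z c))) :
    ∃ e₀ : ℕ, ∀ e, e₀ ≤ e → ∀ a m q b : ℕ, a + (n + 1) = e + m → b + 1 = (q + 1) * m → ∀ x : L,
      (∀ β ∈ (span ℂ {l⁻¹} * (P * A * H)) ^ e * (A ^ m * H ^ b),
        algebraMap K L (Algebra.trace K L (x * β)) ∈
          cl (sys ℂ (fun c => algebraMap K L (z c)) ^ a)) →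
      x * gaussT d (fun c => algebraMap K L (z c)) id * l ^ m ∈
        cl (A * P ^ m * H) / H ^ (n + 1 + q * m) := by
  obtain ⟨e₀, h⟩ := dualG hs ht (le_of_gauss hG) d ((hp.mul (free_gauss hs ht hG)).smul
    (inv_ne_zero hl)) z hz (span ℂ {l⁻¹} * (P * A * H))
    (by rw [← span_smul_range, ← span_mul_range, hP, hA, hH, mul_assoc (span ℂ {l⁻¹})])
    (fun c => by
      simpa [hl] using Submodule.mul_mem_mul (mem_span_singleton_self (R := ℂ) l⁻¹) (h1 c)) h2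
  refine ⟨e₀, fun e he a m q b ha hb x hx => ?_⟩
  obtain ⟨m, rfl⟩ : ∃ m', m = m' + 1 := ⟨m - 1, by
    rcases m with _ | m
    · simp at hb
    · rfl⟩
  obtain rfl : b = q * (m + 1) + m := by nlinarith
  have h3 : x * gaussT d (fun c => algebraMap K L (z c)) id ∈
      cl ((span ℂ {l⁻¹} * (P * A * H)) ^ (m + 1) * A) /
        (H ^ (n + 1) * (A ^ (m + 1) * H ^ (q * (m + 1) + m))) := by
    rw [div_div']
    refine mem_div_iff_forall_mul_mem.2 fun ω hω => ?_
    have h4 := h e he a (m + 1) ha (x * ω) fun β hβ => by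
      rw [mul_assoc, mul_comm ω]
      exact hx _ (mul_mem_mul hβ hω)
    rwa [← hA, ← hH, mul_right_comm x] at h4
  have fA : FiniteDimensional ℂ A := hA ▸ FiniteDimensional.span_of_finite ℂ (finite_range _)
  have fH : FiniteDimensional ℂ H := hH ▸ FiniteDimensional.span_of_finite ℂ (finite_range _)
  have f1 := fd_pow A (m + 1)
  have f2 := fd_pow H m
  have f3 := fd_mul (A ^ (m + 1)) (H ^ m)
  rw [← cl_cancel (A * P ^ (m + 1) * H) (U' := A ^ (m + 1) * H ^ m) (mul_ne_bot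
    (pow_ne_bot (hA ▸ ne_bot_range hG) _) (pow_ne_bot (hH ▸ ne_bot_range
      (Function.ne_iff.2 ⟨0, (hs 0).1⟩)) _)), ← div_div']
  refine mem_div_iff_forall_mul_mem.2 fun ω hω => ?_
  have h4 := mul_mem_cl (le_cl _ (pow_mem_pow _ (mem_span_singleton_self (R := ℂ) l) (m + 1)))
    (mem_div_iff_forall_mul_mem.1 h3 ω (by
      rwa [show H ^ (n + 1) * (A ^ (m + 1) * H ^ (q * (m + 1) + m)) =
        A ^ (m + 1) * H ^ m * H ^ (n + 1 + q * (m + 1)) by ring]))
  have h5 : span ℂ {l} * span ℂ {l⁻¹} = (1 : Submodule ℂ L) := by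
    rw [span_mul_span, singleton_mul_singleton, mul_inv_cancel₀ hl, one_eq_span]
  rw [← mul_assoc (span ℂ {l} ^ (m + 1)), ← mul_pow, ← mul_assoc (span ℂ {l}), h5, one_mul,
    show (P * A * H) ^ (m + 1) * A = A * P ^ (m + 1) * H * (A ^ (m + 1) * H ^ m) by ring] at h4
  rwa [mul_comm _ (l ^ (m + 1)), mul_assoc (l ^ (m + 1))]

/-- Freeness in terms of the prime ideals of the charts. -/
theorem free_iff {ι : Type} {y : ι → L} {p : κ → L} : FreeV y p ↔
    ∀ (i : ι) (Q : Ideal (GD.chart y i)), Q.IsPrime → ∃ S, p S ≠ 0 ∧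
      ∀ S', ∃ b : GD.chart y i, b ∉ Q ∧ (b : L) * (p S' / p S) ∈ GD.chart y i := by
  have hc : ∀ i a, a ∈ GD.chart y i ↔ ∃ P : MvPolynomial ι ℂ, aeval (fun j => y j / y i) P = a :=
    fun i a => by rw [GD.chart, Algebra.adjoin_range_eq_range_aeval]; rfl
  refine ⟨fun h i Q hQ => ?_, fun h O hO i hi => ?_⟩
  · obtain ⟨O, h1, h2⟩ := Ideal.image_subset_nonunits_valuationSubring
      (A := (GD.chart y i).toSubring) Q hQ.ne_top
    obtain ⟨S, h3, h4⟩ := h O (fun c => h1 (Subalgebra.algebraMap_mem _ c)) i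
      fun j => h1 (Algebra.subset_adjoin ⟨j, rfl⟩)
    refine ⟨S, h3, fun S' => ?_⟩
    obtain ⟨P, R, h5, h6⟩ := h4 S'
    refine ⟨⟨_, (hc i _).2 ⟨R, rfl⟩⟩, fun h7 => ?_, (hc i _).2 ⟨P, h6.symm⟩⟩
    exact (O.mem_nonunits_iff.1 (h2 ⟨_, h7, rfl⟩)).ne h5
  · have h1 : ∀ a : GD.chart y i, (a : L) ∈ O := fun a => by
      obtain ⟨P, hP⟩ := (hc i a).1 a.2
      exact hP ▸ aeval_in hO hi P
    let φ : GD.chart y i →+* O := (GD.chart y i).val.toRingHom.codRestrict O.toSubring h1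
    obtain ⟨S, h3, h4⟩ := h i ((IsLocalRing.maximalIdeal O).comap φ) inferInstance
    refine ⟨S, h3, fun S' => ?_⟩
    obtain ⟨b, h5, h6⟩ := h4 S'
    obtain ⟨P, hP⟩ := (hc i _).1 h6
    obtain ⟨R, hR⟩ := (hc i _).1 b.2
    refine ⟨P, R, ?_, by rw [hP, hR]⟩
    rw [hR]
    exact le_antisymm ((O.valuation_le_one_iff _).2 (h1 b))
      (not_lt.1 fun h7 => h5 ((O.valuation_lt_one_iff (φ b)).2 h7))

/-- The Jacobian determinant of a transcendence basis does not vanish. -/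
theorem jac_ne {x : Fin n → L} {d : Fin n → Derivation ℂ L L}
    (hd : ∀ a b, d a (x b) = if a = b then 1 else 0) {z : Fin (n + 1) → L} (hz : z 0 = 1)
    (hb : IsTranscendenceBasis ℂ fun c : Fin n => z c.succ) : gaussT d z id ≠ 0 := by
  obtain ⟨d', hd'⟩ := GD.exists_dual hb
  have h1 : (Matrix.of fun a c => d a (z (Fin.succ c))) * (Matrix.of fun c b => d' c (x b)) = 1 := by
    ext a b
    have h2 := hd'.chain (AlgHom.id ℂ L) (d a) (x b)
    simp only [AlgHom.id_apply, hd] at h2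
    simp only [Matrix.mul_apply, Matrix.of_apply, Matrix.one_apply, h2, mul_comm]
  have h2 := congrArg Matrix.det h1
  rw [Matrix.det_mul, Matrix.det_one] at h2
  rw [gaussT, pl, ← Matrix.det_transpose, det_row _ 0 (by simp [hz]) (fun b => by simp [hz]),
    ← Matrix.det_transpose]
  exact mul_ne_zero (by simp) (left_ne_zero_of_mul_eq_one h2)

/-- Noether normalisation by members of the product of a system with the hyperplane system. -/
theorem setup [Finite κ] (h0 : y 0 = 1) (hs : GD.SmoothModel y) (ht : Algebra.trdeg ℂ L = n)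
    (hn : 0 < n) {r : κ → L} (hr : r ≠ 0) (V : Submodule ℂ L)
    (hV : V = span ℂ (range r) * span ℂ (range y)) :
    ∃ (z : Fin (n + 1) → L) (l : L), l ≠ 0 ∧ z 0 = 1 ∧
      IsTranscendenceBasis ℂ (fun c : Fin n => z c.succ) ∧
      FiniteDimensional (IntermediateField.adjoin ℂ (range z)) L ∧ (∀ c, l * z c ∈ V) ∧
      span ℂ {l⁻¹} * V ≤ cl (sys ℂ z) := by
  obtain ⟨s, hs0⟩ := Function.ne_iff.1 hr
  replace hs0 : r s ≠ 0 := hs0
  have : Fintype κ := Fintype.ofFinite κ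
  obtain ⟨M, hM⟩ := Nat.exists_eq_succ_of_ne_zero (n := Fintype.card (κ × Fin (N + 1)))
    (Fintype.card_pos_iff.2 ⟨(s, 0)⟩).ne'
  let e := Fintype.equivFinOfCardEq hM
  let ξ : Fin (M + 1) → L := fun t => (r s)⁻¹ * (r (e.symm t).1 * y (e.symm t).2)
  have hξ : ∀ t j, ξ (e (t, j)) = (r s)⁻¹ * (r t * y j) := fun t j => by simp [ξ]
  have hgen : IntermediateField.adjoin ℂ (range ξ) = ⊤ := by
    refine eq_top_iff.2 ((gen_chart (K := ℂ) hs 0).ge.trans (IntermediateField.adjoin.mono _ _ _ ?_))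
    rintro _ ⟨j, rfl⟩
    exact ⟨e (s, j), by simp [hξ, h0, hs0]⟩
  obtain ⟨h, hh⟩ : ∃ h : L, h ∉ (algebraMap ℂ L).range := by
    by_contra hc
    push Not at hc
    have h1 : Algebra.IsAlgebraic ℂ L := ⟨fun a => by
      obtain ⟨c, rfl⟩ := hc a
      exact isAlgebraic_algebraMap c⟩
    rw [trdeg_eq_zero] at ht
    exact hn.ne (by exact_mod_cast ht)
  obtain ⟨n', z, l, hl, hz, h1, h2⟩ := noether (ξ := ξ) (i₀ := e (s, 0)) (by simp [hξ, h0, hs0])
    hgen hh
  have hb : IsTranscendenceBasis ℂ fun c : Fin (n' + 1) => z c.succ := by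
    have h3 : IntermediateField.adjoin ℂ (range z) =
        IntermediateField.adjoin ℂ (range fun c : Fin (n' + 1) => z c.succ) := by
      refine le_antisymm (IntermediateField.adjoin_le_iff.2 ?_)
        (IntermediateField.adjoin.mono _ _ _ (by rintro _ ⟨c, rfl⟩; exact ⟨_, rfl⟩))
      rintro _ ⟨c, rfl⟩
      refine Fin.cases ?_ (fun c => IntermediateField.subset_adjoin _ _ ⟨c, rfl⟩) c
      rw [hz.zero]
      exact one_mem _
    have h4 := hz.fin
    rw [K0, h3] at h4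
    refine hz.indep.isTranscendenceBasis_iff_isAlgebraic.2 ?_
    exact (IntermediateField.isAlgebraic_adjoin_iff_top ..).1 (Algebra.IsAlgebraic.of_finite _ L)
  obtain rfl : n = n' + 1 := by
    have h3 := hb.cardinalMk_eq_trdeg
    rw [ht, Cardinal.mk_fin] at h3
    exact_mod_cast h3.symm
  refine ⟨z, r s * l, mul_ne_zero hs0 hl, hz.zero, hb, hz.fin, fun c => ?_, ?_⟩
  · have h3 : span ℂ {r s} * span ℂ (range ξ) ≤ V := by
      rw [span_smul_range, span_le, hV]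
      rintro _ ⟨t, rfl⟩
      simp only [ξ, mul_inv_cancel_left₀ hs0]
      exact mul_mem_mul (subset_span ⟨_, rfl⟩) (subset_span ⟨_, rfl⟩)
    rw [mul_assoc]
    exact h3 (mul_mem_mul (mem_span_singleton_self _) (h1 c))
  · rw [hV, span_mul_range, span_smul_range, span_le]
    rintro _ ⟨⟨t, j⟩, rfl⟩ O hO
    obtain ⟨c, hc, hc'⟩ := exists_dom O z
    have hc0 : z c ≠ 0 := fun h3 => by
      have h4 := hc 0
      rw [h3, hz.zero] at h4
      simp at h4
    have h3 := (O.valuation_le_one_iff _).2 (h2 O hO c hc' (e (t, j)))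
    refine ⟨z c, mem_sys _ c, ?_⟩
    have h4 : (r s * l)⁻¹ * (r t * y j) = ξ (e (t, j)) / (l * z c) * z c := by
      rw [hξ]; field_simp
    simp only
    rw [h4, map_mul]
    exact mul_le_of_le_one_left' h3

end Pool.Agent.Lib.A35.D34
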