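import Pool.Agent.Lib.A35.Blue
import Pool.Agent.Lib.A35.D34c
import Pool.Agent.Lib.UR.B_JB

/-! The Gauss map of a smooth model has no base points. -/

noncomputable section

namespace Pool.Agent.Lib.A35

open Pool.Agent.Lib.UR

variable {L : Type} [Field L] [Algebra ℂ L] {n : ℕ} (X : Mod₀ L n)

include X in
theorem FRG.trdeg : Algebra.trdeg ℂ L = n := by
  rw [← X.tb.cardinalMk_eq_trdeg, Cardinal.mk_fin]

theorem FRG.ne : gaussT X.d X.y ≠ 0 := JB.gauss_ne (X.sm 0).2.1 (X.sm 0).1 X.dual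

theorem FRG.freeV : D34.FreeV X.y (gaussT X.d X.y) :=
  D34.free_gauss X.sm (FRG.trdeg X) (FRG.ne X)

theorem st_FRG : St_FRG := fun _ _ _ _ X => D34.free_iff.1 (FRG.freeV X)

end Pool.Agent.Lib.A35
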