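import Pool.Agent.Lib.UR.B_EXC
import Pool.Agent.Lib.UR.B_DIM
import Pool.Agent.Lib.UR.B_GPO
import Pool.Agent.Lib.UR.B_SET
import Pool.Agent.Lib.UR.B_MON
import Pool.Agent.Lib.UR.B_POL
import Pool.Agent.Lib.UR.B_TRC
import Pool.Agent.Lib.UR.B_ALG
import Pool.Agent.Lib.UR.B_NOE
import Pool.Agent.Lib.UR.B_HSU
import Pool.Agent.Lib.UR.B_HSL
import Pool.Agent.Lib.UR.B_LSC
import Pool.Agent.Lib.UR.B_CRV
import Pool.Agent.Lib.UR.B_JDG

/-! Heights on a curve under extension of the constants. -/

open scoped IntermediateField Polynomial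
open Module Set

set_option linter.unusedSectionVars false

noncomputable section

namespace Pool.Agent.Lib.A35.H91

open Pool.Agent.Lib.MP_7fcda1_ag Pool.Agent.Lib.UR

/-- Passage to an algebraically closed field of constants. -/
def St_BCH : Prop := ∀ (κ F : Type) [Field κ] [CharZero κ] [Field F] [Algebra κ F] [IsFF κ F],
  ∃ (kb Fb : Type) (_ : Field kb) (_ : IsAlgClosed kb) (_ : Field Fb) (_ : Algebra κ kb)
    (_ : Algebra kb Fb) (_ : Algebra F Fb) (_ : Algebra κ Fb) (_ : IsScalarTower κ kb Fb)
    (_ : IsScalarTower κ F Fb) (_ : IsFF kb Fb) (c : ℕ), 0 < c ∧ Algebra.IsAlgebraic κ kb ∧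
      Gen kb (algebraMap F Fb) ∧ ∀ (ι : Type) [Finite ι] (w : ι → F),
        ht κ w = c * ht kb fun i => algebraMap F Fb (w i)

/-- Heights do not change under a linearly disjoint extension of the constants. -/
def St_HLD : Prop := ∀ (k F k' F' : Type) [Field k] [CharZero k] [Field F] [Algebra k F] [IsFF k F]
  [Field k'] [Field F'] [Algebra k k'] [Algebra k' F'] [Algebra F F'] [Algebra k F']
  [IsScalarTower k k' F'] [IsScalarTower k F F'], Gen k' (algebraMap F F') →
    (∀ (ι : Type) (x : ι → F), LinearIndependent k x →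
      LinearIndependent k' fun i => algebraMap F F' (x i)) →
    IsFF k' F' ∧ ∀ (ι : Type) [Finite ι] (w : ι → F),
      ht k w = ht k' fun i => algebraMap F F' (w i)

namespace BCH

theorem hsl : St_HSL := st_HSL (st_SET st_DIM) st_MON

theorem crv : St_CRV :=
  st_CRV (st_HSU st_GPO (st_SET st_DIM) (st_NOE st_MON st_POL st_TRC st_ALG)) hsl st_LSC

section one
variable {k L : Type} [Field k] [Field L] [Algebra k L] {τ : Type}

theorem indep_pow {f : L} : (LinearIndependent k fun n : ℕ => f ^ n) ↔ Transcendental k f := by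
  rw [transcendental_iff]
  simp [linearIndependent_iff, Finsupp.linearCombination_apply, Polynomial.aeval_def,
    Polynomial.eval₂_eq_sum, Finsupp.sum, Polynomial.forall_iff_forall_finsupp,
    AddMonoidAlgebra.coeffEquiv.forall_congr_left, Polynomial.sum, Algebra.smul_def]

theorem dim_one {f : L} (hf : Transcendental k f) (h : Algebra.IsAlgebraic k⟮f⟯ L) :
    Dim k L 1 := by
  refine ⟨fun _ => f, isTranscendenceBasis_iff_algebraicIndependent_isAlgebraic.2
    ⟨algebraicIndependent_unique_type_iff.2 hf, ?_⟩⟩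
  rw [range_const]
  exact IntermediateField.isAlgebraic_adjoin_iff_top.1 h

theorem dim_ff [IsFF k L] : Dim k L 1 := by
  obtain ⟨f, hf, h⟩ := IsFF.ex (κ := k) (L := L)
  exact dim_one hf inferInstance

theorem gen_ff [IsFF k L] : ∃ (n : ℕ) (y : Fin n → L), Gen k y := by
  obtain ⟨f, hf, h⟩ := IsFF.ex (κ := k) (L := L)
  let b := Module.finBasis k⟮f⟯ L
  refine ⟨_, Fin.cons f b, eq_top_iff.2 fun x _ => ?_⟩
  rw [← b.sum_repr x]
  refine sum_mem fun i _ => ?_
  rw [IntermediateField.smul_def, smul_eq_mul]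
  refine mul_mem (IntermediateField.adjoin.mono k _ _ ?_ (b.repr x i).2)
    (IntermediateField.subset_adjoin _ _ ⟨i.succ, rfl⟩)
  rintro _ rfl
  exact ⟨0, rfl⟩

theorem cl_eq [IsFF k L] [Fintype τ] (w : τ → L) (j : ℕ) :
    cl (sys k w ^ j) = Ls (j • -vdiv k (opt w)) := by
  have h := st_LSC k L τ τ w w 0 j
  rw [pow_zero, CRV.div_one', zero_smul, zero_sub, ← smul_neg] at h
  exact h

theorem deg_eq [IsFF k L] (w : τ → L) (j : ℕ) :
    degD (j • -vdiv k (opt w)) = (j : ℤ) * dg k (opt w) := by
  rw [map_nsmul, map_neg, dg, nsmul_eq_mul]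

theorem slope [CharZero k] [IsFF k L] [Fintype τ] {w : τ → L} (hw : Gen k w) :
    ∃ e c : ℕ, ∀ j : ℕ, (j : ℤ) * dg k (opt w) ≤ finrank k ↥(sys k w ^ (j + e)) ∧
      (finrank k ↥(sys k w ^ j) : ℤ) ≤ j * dg k (opt w) + c := by
  obtain ⟨C⟩ := st_EXC k L _ _ (rep 1 w)
  obtain ⟨-, e, he⟩ := hsl k L τ w 1 hw dim_ff C
  obtain ⟨c, hc⟩ := exists_RR k L
  refine ⟨e, c, fun j => ⟨?_, ?_⟩⟩
  · have h1 := he j
    rw [Nat.choose_one_right] at h1
    have h2 : ((C.deg * (j + 1) : ℕ) : ℤ) ≤ finrank k ↥(sys k w ^ (j + e)) := by exact_mod_cast h1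
    rw [← crv k L τ w hw dim_ff C]
    have h5 : (0 : ℤ) ≤ C.deg := Int.natCast_nonneg _
    push_cast at h2
    nlinarith
  · have h3 := (hc (j • -vdiv k (opt w))).2 (nsmul_nonneg (CRV.neg_nonneg' w) _)
    rw [deg_eq] at h3
    have h4 : sys k w ^ j ≤ Ls (j • -vdiv k (opt w)) := (le_cl _).trans (cl_eq w j).le
    have h2 : (finrank k ↥(sys k w ^ j) : ℤ) ≤ finrank k ↥(Ls (j • -vdiv k (opt w))) := by
      exact_mod_cast Submodule.finrank_mono h4
    omega

end one

section ld
variable {k F k' F' : Type} [Field k] [Field F] [Algebra k F] [Field k'] [Field F'] [Algebra k k']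
  [Algebra k' F'] [Algebra F F'] [Algebra k F'] [IsScalarTower k k' F'] [IsScalarTower k F F']

theorem map_smul' (c : k) (x : F) :
    algebraMap F F' (c • x) = algebraMap k k' c • algebraMap F F' x := by
  rw [Algebra.smul_def, Algebra.smul_def, map_mul, ← IsScalarTower.algebraMap_apply,
    ← IsScalarTower.algebraMap_apply]

theorem up_span (S : Set F) : Submodule.span k' (algebraMap F F' '' (Submodule.span k S)) =
    Submodule.span k' (algebraMap F F' '' S) := by
  refine le_antisymm (Submodule.span_le.2 ?_)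
    (Submodule.span_mono (image_mono Submodule.subset_span))
  rintro _ ⟨x, hx, rfl⟩
  induction hx using Submodule.span_induction with
  | mem x hx => exact Submodule.subset_span ⟨x, hx, rfl⟩
  | zero => simp
  | add x y _ _ hx hy => rw [map_add]; exact add_mem hx hy
  | smul c x _ hx => rw [map_smul' (k' := k')]; exact Submodule.smul_mem _ _ hx

theorem up_pow {τ : Type} (w : τ → F) (j : ℕ) :
    Submodule.span k' (algebraMap F F' '' ↑(sys k w ^ j)) =
      sys k' (fun i => algebraMap F F' (w i)) ^ j := by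
  rw [sys, sys, Submodule.span_pow, Submodule.span_pow, up_span, image_pow, image_insert_eq,
    map_one, ← range_comp]
  rfl

theorem finrank_up (h : ∀ (ι : Type) (x : ι → F), LinearIndependent k x →
      LinearIndependent k' fun i => algebraMap F F' (x i)) (U : Submodule k F)
    [FiniteDimensional k U] :
    finrank k' (Submodule.span k' (algebraMap F F' '' U)) = finrank k U := by
  let b := Module.finBasis k U
  have h1 : U = Submodule.span k (range fun i => (b i : F)) := by
    have := congrArg (Submodule.map U.subtype) b.span_eq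
    rw [Submodule.map_span, Submodule.map_top, Submodule.range_subtype, ← range_comp] at this
    exact this.symm
  have h2 : Submodule.span k' (algebraMap F F' '' U) =
      Submodule.span k' (range fun i => algebraMap F F' (b i)) := by
    conv_lhs => rw [h1]
    rw [up_span, ← range_comp]
    rfl
  rw [h2, finrank_span_eq_card (h _ (fun i => (b i : F))
    (b.linearIndependent.map' U.subtype U.ker_subtype)), Fintype.card_fin]

theorem gen_up {τ : Type} {w : τ → F} (hw : Gen k w) (hg : Gen k' (algebraMap F F')) :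
    Gen k' fun i => algebraMap F F' (w i) := by
  refine eq_top_iff.2 (hg.ge.trans (IntermediateField.adjoin_le_iff.2 ?_))
  rintro _ ⟨x, rfl⟩
  have hx : x ∈ IntermediateField.adjoin k (range w) := hw.ge trivial
  have h2 : IntermediateField.adjoin k (range w) ≤
      ((IntermediateField.adjoin k' (range fun i => algebraMap F F' (w i))).restrictScalars
        k).comap (IsScalarTower.toAlgHom k F F') :=
    IntermediateField.adjoin_le_iff.2 (range_subset_iff.2 fun j =>
      IntermediateField.subset_adjoin k' _ ⟨j, rfl⟩)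
  exact h2 hx

theorem ff_up [IsFF k F] (hg : Gen k' (algebraMap F F'))
    (h : ∀ (ι : Type) (x : ι → F), LinearIndependent k x →
      LinearIndependent k' fun i => algebraMap F F' (x i)) : IsFF k' F' := by
  obtain ⟨n, y, hy⟩ := gen_ff (k := k) (L := F)
  obtain ⟨f, hf, hfin⟩ := IsFF.ex (κ := k) (L := F)
  have hf' : Transcendental k' (algebraMap F F' f) := by
    rw [← indep_pow] at hf ⊢
    simpa only [map_pow] using h _ _ hf
  refine Dim.isFF (gen_up hy hg) (dim_one hf' ?_)
  have h1 : ∀ x : F, IsAlgebraic k'⟮algebraMap F F' f⟯ (algebraMap F F' x) := fun x => by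
    have h2 : ∀ a : k⟮f⟯, algebraMap F F' a ∈ k'⟮algebraMap F F' f⟯ := fun a => by
      have h3 : k⟮f⟯ ≤ (k'⟮algebraMap F F' f⟯.restrictScalars k).comap
          (IsScalarTower.toAlgHom k F F') :=
        IntermediateField.adjoin_simple_le_iff.2 (IntermediateField.mem_adjoin_simple_self k' _)
      exact h3 a.2
    let φ : k⟮f⟯ →+* k'⟮algebraMap F F' f⟯ :=
      ((algebraMap F F').comp (algebraMap k⟮f⟯ F)).codRestrict _ h2
    exact (Algebra.IsAlgebraic.isAlgebraic (R := k⟮f⟯) x).ringHom_of_comp_eq φ (algebraMap F F')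
      φ.injective rfl
  refine ⟨fun x => ?_⟩
  have h4 : IntermediateField.adjoin k' (range (algebraMap F F')) ≤
      (algebraicClosure k'⟮algebraMap F F' f⟯ F').restrictScalars k' :=
    IntermediateField.adjoin_le_iff.2 (range_subset_iff.2 fun a =>
      mem_algebraicClosure_iff.2 (h1 a))
  exact mem_algebraicClosure_iff.1 (h4 (hg.ge trivial))

theorem dg_up [CharZero k] [IsFF k F] [IsFF k' F'] (hg : Gen k' (algebraMap F F'))
    (h : ∀ (ι : Type) (x : ι → F), LinearIndependent k x →
      LinearIndependent k' fun i => algebraMap F F' (x i)) {τ : Type} [Fintype τ] {w : τ → F}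
    (hw : Gen k w) : dg k (opt w) = dg k' (opt fun i => algebraMap F F' (w i)) := by
  have : CharZero k' := charZero_of_injective_algebraMap (algebraMap k k').injective
  obtain ⟨e, c, h1⟩ := slope hw
  obtain ⟨e', c', h2⟩ := slope (gen_up hw hg)
  have h3 : ∀ j, finrank k' ↥(sys k' (fun i => algebraMap F F' (w i)) ^ j) =
      finrank k ↥(sys k w ^ j) := fun j => by
    have := fd_pow (sys k w) j
    rw [← up_pow (k := k), finrank_up h]
  refine le_antisymm (CRV.le_of_lin (c := c') (e := e) fun j => ?_)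
    (CRV.le_of_lin (c := c) (e := e') fun j => ?_)
  · have h4 := (h1 j).1
    have h5 := (h2 (j + e)).2
    rw [h3] at h5
    push_cast at h5
    linarith
  · have h4 := (h2 j).1
    have h5 := (h1 (j + e')).2
    rw [h3] at h4
    push_cast at h5
    linarith

/-- A field which is algebraically closed in `F` is linearly disjoint from algebraic extensions. -/
theorem indep_up [CharZero k] [Algebra.IsAlgebraic k k']
    (hk : ∀ x : F, IsIntegral k x → x ∈ range (algebraMap k F)) (ι : Type) (x : ι → F)
    (hx : LinearIndependent k x) : LinearIndependent k' fun i => algebraMap F F' (x i) := by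
  classical
  rw [linearIndependent_iff'] at hx ⊢
  intro s g hg i hi
  let E := IntermediateField.adjoin k (↑(s.image g) : Set k')
  have : FiniteDimensional k E := IntermediateField.finiteDimensional_adjoin fun x _ =>
    Algebra.IsIntegral.isIntegral x
  let pb := Field.powerBasisOfFiniteOfSeparable k E
  have h1 : ∀ j, ∃ p : k[X], p.natDegree < pb.dim ∧
      (j ∈ s → g j = Polynomial.aeval (pb.gen : k') p) := fun j => by
    by_cases hj : j ∈ s
    · obtain ⟨p, h1, h2⟩ := pb.exists_eq_aeval
        ⟨g j, IntermediateField.subset_adjoin _ _ (Finset.mem_image_of_mem g hj)⟩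
      refine ⟨p, h1, fun _ => ?_⟩
      have h3 := congrArg (algebraMap E k') h2
      rw [← Polynomial.aeval_algebraMap_apply] at h3
      exact h3
    · exact ⟨0, pb.dim_pos, fun h => absurd h hj⟩
  choose p hp hgp using h1
  let a : F' := algebraMap k' F' pb.gen
  have ha : IsIntegral k a := (Algebra.IsIntegral.isIntegral (R := k) (pb.gen : k')).algebraMap
  have ha' : IsIntegral F a := ha.tower_top
  have h2 : pb.dim ≤ (minpoly F a).natDegree := by
    obtain ⟨q, q1, q2, q3⟩ := Polynomial.lifts_and_natDegree_eq_and_monic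
      ((Polynomial.lifts_iff_coeff_lifts (f := algebraMap k F) _).2 fun n => hk _
        (Polynomial.isIntegral_coeff_of_dvd _ _ (minpoly.monic ha) (minpoly.monic ha')
          (minpoly.dvd_map_of_isScalarTower k F a) n)) (minpoly.monic ha')
    have h3 : Polynomial.aeval a q = 0 := by
      rw [← Polynomial.aeval_map_algebraMap F, q1, minpoly.aeval]
    have h4 : minpoly k a = minpoly k pb.gen :=
      (minpoly.algebraMap_eq (algebraMap k' F').injective _).trans
        (minpoly.algebraMap_eq (algebraMap E k').injective _)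
    rw [← q2, ← pb.natDegree_minpoly, ← h4]
    exact Polynomial.natDegree_le_of_dvd (minpoly.dvd k a h3) q3.ne_zero
  have h5 : ∑ j ∈ s, Polynomial.C (x j) * (p j).map (algebraMap k F) = 0 := by
    by_contra h0
    have h6 : Polynomial.aeval a (∑ j ∈ s, Polynomial.C (x j) * (p j).map (algebraMap k F)) =
        0 := by
      rw [map_sum, ← hg]
      refine Finset.sum_congr rfl fun j hj => ?_
      rw [map_mul, Polynomial.aeval_C, Polynomial.aeval_map_algebraMap, hgp j hj, Algebra.smul_def,
        Polynomial.aeval_algebraMap_apply, mul_comm]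
    have h7 := Polynomial.natDegree_le_of_dvd (minpoly.dvd F a h6) h0
    have h8 : (∑ j ∈ s, Polynomial.C (x j) * (p j).map (algebraMap k F)).natDegree ≤
        pb.dim - 1 := Polynomial.natDegree_sum_le_of_forall_le _ _ fun j _ =>
      (Polynomial.natDegree_C_mul_le _ _).trans (Polynomial.natDegree_map_le.trans
        (Nat.le_sub_one_of_lt (hp j)))
    have := pb.dim_pos
    omega
  have h9 : p i = 0 := by
    ext n
    refine hx s (fun j => (p j).coeff n) ?_ i hi
    have := congrArg (fun q : F[X] => q.coeff n) h5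
    simpa [Polynomial.finsetSum_coeff, Algebra.smul_def, mul_comm] using this
  rw [hgp i hi, h9, map_zero]

end ld

section fin
variable {κ k F : Type} [Field κ] [Field k] [Field F] [Algebra κ k] [Algebra k F] [Algebra κ F]
  [IsScalarTower κ k F] [Algebra.IsAlgebraic κ k] [IsFF κ F]

include κ in
theorem ff_alg : IsFF k F := by
  obtain ⟨n, y, hy⟩ := gen_ff (k := κ) (L := F)
  obtain ⟨f, hf, hfin⟩ := IsFF.ex (κ := κ) (L := F)
  have h1 : κ⟮f⟯ ≤ k⟮f⟯.restrictScalars κ :=
    IntermediateField.adjoin_simple_le_iff.2 (IntermediateField.mem_adjoin_simple_self k _)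
  let φ : κ⟮f⟯ →+* k⟮f⟯ := (algebraMap κ⟮f⟯ F).codRestrict _ fun a => h1 a.2
  have h2 : IntermediateField.adjoin κ (range y) ≤
      (IntermediateField.adjoin k (range y)).restrictScalars κ :=
    IntermediateField.adjoin_le_iff.2 (IntermediateField.subset_adjoin k _)
  refine Dim.isFF (w := y) (eq_top_iff.2 fun x _ => h2 (hy.ge trivial))
    (dim_one (hf.extendScalars k) ⟨fun x => ?_⟩)
  exact (Algebra.IsAlgebraic.isAlgebraic (R := κ⟮f⟯) x).ringHom_of_comp_eq φ (RingHom.id F)
    φ.injective rfl

theorem mem_iff [IsFF k F] (n : ValuationSubring F → Prop) :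
    (∀ v : Place κ F, n v.O) ↔ ∀ v : Place k F, n v.O := by
  refine ⟨fun h v => h ⟨v.O, v.ne_top, fun c => ?_⟩, fun h v => h ⟨v.O, v.ne_top, fun c => ?_⟩⟩
  · rw [IsScalarTower.algebraMap_apply κ k F]
    exact v.const _
  · exact v.CT1_mem_of_algebraic (Algebra.IsAlgebraic.isAlgebraic (R := κ) c).algebraMap

theorem ls_eq [IsFF k F] {ι : Type} [Finite ι] (w : ι → F) (j : ℕ) :
    (Ls (j • -vdiv k w)).restrictScalars κ = Ls (j • -vdiv κ w) := by
  ext x
  rw [Submodule.restrictScalars_mem, mem_Ls, mem_Ls]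
  simp only [Finsupp.smul_apply, Finsupp.neg_apply, vdiv_apply]
  exact (mem_iff fun O => Ge O (-(j • -vord O w)) x).symm

include F in
theorem fd_const [IsFF k F] : FiniteDimensional κ k := by
  have h : ∀ c : k, IsScalarTower.toAlgHom κ k F c ∈ Ls (0 : Div κ F) := fun c =>
    mem_Ls.2 fun v => Or.inr (v.ord_algebraic
      (Algebra.IsAlgebraic.isAlgebraic (R := κ) c).algebraMap).ge
  exact Module.Finite.of_injective ((IsScalarTower.toAlgHom κ k F).toLinearMap.codRestrict _ h)
    fun a b e => (algebraMap k F).injective (congrArg Subtype.val e)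

theorem ht_alg [IsFF k F] {ι : Type} [Finite ι] (w : ι → F) :
    ht κ w = finrank κ k * ht k w := by
  have := Fintype.ofFinite ι
  by_cases hw : w = 0
  · rw [hw, ht, ht, bun1_vdiv_zero, bun1_vdiv_zero, map_zero, map_zero, neg_zero, mul_zero]
  obtain ⟨S, hS⟩ := Function.ne_iff.1 hw
  have e1 : ∀ (K : Type) [Field K] [Algebra K F] [IsFF K F],
      ht K w = dg K (opt fun i => w i / w S) := fun K _ _ _ => by
    rw [JdgB.dg_opt (j := S) (div_self hS), JdgB.dg_div w hS]
    rfl
  rw [e1, e1]
  generalize (fun i => w i / w S) = u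
  obtain ⟨c, hc⟩ := exists_RR κ F
  obtain ⟨c', hc'⟩ := exists_RR k F
  have h1 : ∀ j : ℕ, (finrank κ (Ls (j • -vdiv κ (opt u))) : ℤ) =
      finrank κ k * finrank k (Ls (j • -vdiv k (opt u))) := fun j => by
    rw [← ls_eq (k := k), ← Nat.cast_mul, Module.finrank_mul_finrank]
    rfl
  have h0 : (0 : ℤ) ≤ finrank κ k := Int.natCast_nonneg _
  refine le_antisymm (CRV.le_of_lin (c := c + finrank κ k * c') (e := 0) fun j => ?_)
    (CRV.le_of_lin (c := c + finrank κ k * c') (e := 0) fun j => ?_)
  · have h2 := (hc (j • -vdiv κ (opt u))).1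
    have h3 := (hc' (j • -vdiv k (opt u))).2 (nsmul_nonneg (CRV.neg_nonneg' u) _)
    rw [deg_eq] at h2 h3
    rw [h1] at h2
    nlinarith
  · have h2 := (hc (j • -vdiv κ (opt u))).2 (nsmul_nonneg (CRV.neg_nonneg' u) _)
    have h3 := (hc' (j • -vdiv k (opt u))).1
    rw [deg_eq] at h2 h3
    rw [h1] at h2
    nlinarith

end fin

end BCH

theorem st_HLD : St_HLD := by
  intro k F k' F' _ _ _ _ _ _ _ _ _ _ _ _ _ hg h
  have hff := BCH.ff_up hg h
  refine ⟨hff, fun ι _ w => ?_⟩
  have := Fintype.ofFinite ι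
  by_cases hw : w = 0
  · have h0 : (fun i => algebraMap F F' (w i)) = 0 := funext fun i => by simp [hw]
    rw [h0, hw, ht, ht, bun1_vdiv_zero, bun1_vdiv_zero, map_zero, map_zero]
  obtain ⟨S, hS⟩ := Function.ne_iff.1 hw
  obtain ⟨n, y, hy⟩ := BCH.gen_ff (k := k) (L := F)
  have h1 := (st_JDG k F _ ι (opt y) w S none 0 hS one_ne_zero).1
  have h2 := (st_JDG k' F' _ ι (opt fun i => algebraMap F F' (y i))
    (fun i => algebraMap F F' (w i)) S none 0 (by simpa using hS) one_ne_zero).1
  have h3 : Gen k fun p : ι × Option (Fin n) => w p.1 * opt y p.2 / (w S * opt y none) :=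
    eq_top_iff.2 (hy.ge.trans (IntermediateField.adjoin.mono k _ _ (by
      rintro _ ⟨j, rfl⟩
      exact ⟨(S, some j), by simp [opt, show w S ≠ 0 from hS]⟩)))
  have h4 := BCH.dg_up hg h h3
  have h5 := BCH.dg_up hg h hy
  have h6 : (fun p : ι × Option (Fin n) =>
      algebraMap F F' (w p.1 * opt y p.2 / (w S * opt y none))) = fun p =>
        algebraMap F F' (w p.1) * opt (fun i => algebraMap F F' (y i)) p.2 /
          (algebraMap F F' (w S) * opt (fun i => algebraMap F F' (y i)) none) := by
    funext ⟨i, o⟩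
    cases o <;> simp [opt]
  rw [h6, h1, h2] at h4
  change ht k (opt y) = ht k' (opt fun i => algebraMap F F' (y i)) at h5
  omega

theorem BCH.core (κ F kb Fb : Type) [Field κ] [CharZero κ] [Field F] [Algebra κ F] [IsFF κ F]
    [Field kb] [IsAlgClosed kb] [Field Fb] [Algebra κ kb] [Algebra kb Fb] [Algebra F Fb]
    [Algebra κ Fb] [IsScalarTower κ kb Fb] [IsScalarTower κ F Fb] [Algebra.IsAlgebraic κ kb]
    (hg : Gen kb (algebraMap F Fb)) : IsFF kb Fb ∧ ∃ c : ℕ, 0 < c ∧
      ∀ (ι : Type) [Finite ι] (w : ι → F), ht κ w = c * ht kb fun i => algebraMap F Fb (w i) := by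
  let k := algebraicClosure κ F
  have h1 : ∀ x : k, ∃ y : kb, algebraMap kb Fb y = algebraMap F Fb x := fun x => by
    have h2 : IsIntegral kb (algebraMap F Fb x) :=
      (mem_algebraicClosure_iff'.1 x.2).algebraMap.tower_top
    exact minpoly.mem_range_of_degree_eq_one kb _
      (IsAlgClosed.degree_eq_one_of_irreducible kb (minpoly.irreducible h2))
  choose φ hφ using h1
  have hi := (algebraMap kb Fb).injective
  let : Algebra k kb := RingHom.toAlgebra
    { toFun := φ
      map_one' := hi (by simp [hφ])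
      map_mul' := fun a b => hi (by simp [hφ])
      map_zero' := hi (by simp [hφ])
      map_add' := fun a b => hi (by simp [hφ]) }
  have : IsScalarTower κ k kb := .of_algebraMap_eq fun x => hi (by
    rw [← IsScalarTower.algebraMap_apply, IsScalarTower.algebraMap_apply κ F Fb]
    exact (hφ (algebraMap κ k x)).symm)
  have : IsScalarTower k kb Fb := .of_algebraMap_eq fun x => (hφ x).symm
  have : Algebra.IsAlgebraic k kb := Algebra.IsAlgebraic.tower_top (K := κ) k
  have : IsFF k F := BCH.ff_alg (κ := κ)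
  have := BCH.fd_const (κ := κ) (k := k) (F := F)
  obtain ⟨hff, h⟩ := st_HLD k F kb Fb hg (BCH.indep_up fun x hx =>
    ⟨⟨x, mem_algebraicClosure_iff'.2 (isIntegral_trans x hx)⟩, rfl⟩)
  exact ⟨hff, finrank κ k, Module.finrank_pos, fun ι _ w => by rw [← h, BCH.ht_alg (k := k)]⟩

theorem st_BCH : St_BCH := by
  intro κ F _ _ _ _ _
  let Ω := AlgebraicClosure F
  let kb := algebraicClosure κ Ω
  let Fb := IntermediateField.adjoin kb (range (algebraMap F Ω))
  let : Algebra F Fb := ((algebraMap F Ω).codRestrict Fb fun x =>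
    IntermediateField.subset_adjoin _ _ ⟨x, rfl⟩).toAlgebra
  have : IsScalarTower κ F Fb := .of_algebraMap_eq fun x =>
    Subtype.ext (IsScalarTower.algebraMap_apply κ F Ω x)
  have : IsAlgClosed kb := IsAlgClosure.isAlgClosed κ
  have hg : Gen kb (algebraMap F Fb) := by
    apply IntermediateField.lift_injective
    rw [IntermediateField.lift_adjoin, IntermediateField.lift_top, ← range_comp]
    rfl
  obtain ⟨hff, c, hc, h⟩ := BCH.core κ F kb Fb hg
  exact ⟨kb, Fb, inferInstance, inferInstance, inferInstance, inferInstance, inferInstance,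
    inferInstance, inferInstance, inferInstance, inferInstance, hff, c, hc, inferInstance, hg, h⟩

end Pool.Agent.Lib.A35.H91
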