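import Mathlib

/-! Taylor expansion in a ring with dual derivations (TAY of ah35, section 2). -/

namespace Pool.Agent.Lib.A35.T

open MvPolynomial

variable {k R : Type} [CommRing k] [CommRing R] [Algebra k R]

/-- A word of derivations applied to `f`; the last letter acts first. -/
def wd {ι : Type} (D : ι → Derivation k R R) (l : List ι) (f : R) : R :=
  l.foldr (fun i g => D i g) f

@[simp] theorem wd_nil {ι : Type} (D : ι → Derivation k R R) (f : R) : wd D [] f = f := rfl

@[simp] theorem wd_cons {ι : Type} (D : ι → Derivation k R R) (i : ι) (l : List ι) (f : R) :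
    wd D (i :: l) f = D i (wd D l f) := rfl

theorem wd_append {ι : Type} (D : ι → Derivation k R R) (l l' : List ι) (f : R) :
    wd D (l ++ l') f = wd D l (wd D l' f) := by
  simp [wd, List.foldr_append]

theorem wd_add {ι : Type} (D : ι → Derivation k R R) (l : List ι) (f g : R) :
    wd D l (f + g) = wd D l f + wd D l g := by
  induction l with
  | nil => rfl
  | cons i l ih => simp [ih]

theorem wd_sub {ι : Type} (D : ι → Derivation k R R) (l : List ι) (f g : R) :
    wd D l (f - g) = wd D l f - wd D l g := by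
  induction l with
  | nil => rfl
  | cons i l ih => simp [ih]

theorem der_pow (D : Derivation k R R) (I : Ideal R) (s : ℕ) :
    ∀ x ∈ I ^ (s + 1), D x ∈ I ^ s := by
  induction s with
  | zero => intro x _; simp
  | succ s ih =>
    intro x hx
    rw [pow_succ] at hx
    refine Submodule.mul_induction_on hx ?_ ?_
    · intro a ha b hb
      rw [D.leibniz, smul_eq_mul, smul_eq_mul]
      refine add_mem (Ideal.mul_mem_right _ _ ha) ?_
      rw [pow_succ']
      exact Ideal.mul_mem_mul hb (ih a ha)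
    · intro a b ha hb
      rw [map_add]
      exact add_mem ha hb

theorem der_pow_sup (D : Derivation k R R) (I p : Ideal R) (hp : ∀ x ∈ p, D x ∈ p) (s : ℕ) :
    ∀ x ∈ I ^ (s + 1) ⊔ p, D x ∈ I ^ s ⊔ p := by
  intro x hx
  obtain ⟨a, ha, b, hb, rfl⟩ := Submodule.mem_sup.1 hx
  rw [map_add]
  exact Submodule.add_mem_sup (der_pow D I s a ha) (hp b hb)

theorem wd_pow_sup {ι : Type} (D : ι → Derivation k R R) (I p : Ideal R)
    (hp : ∀ i, ∀ x ∈ p, D i x ∈ p) (l : List ι) :
    ∀ (s : ℕ), ∀ x ∈ I ^ (s + l.length) ⊔ p, wd D l x ∈ I ^ s ⊔ p := by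
  induction l with
  | nil => intro s x hx; simpa using hx
  | cons i l ih =>
    intro s x hx
    rw [wd_cons]
    refine der_pow_sup (D i) I p (hp i) s _ (ih (s + 1) x ?_)
    have : s + 1 + l.length = s + (i :: l).length := by simp; ring
    rwa [this]

theorem wd_mem {ι : Type} (D : ι → Derivation k R R) (p : Ideal R)
    (hp : ∀ i, ∀ x ∈ p, D i x ∈ p) (l : List ι) (x : R) (hx : x ∈ p) : wd D l x ∈ p := by
  induction l with
  | nil => exact hx
  | cons i l ih => exact hp i _ ih

theorem wd_pow {ι : Type} (D : ι → Derivation k R R) (I : Ideal R) (l : List ι) (s : ℕ) (x : R)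
    (hx : x ∈ I ^ (s + l.length)) : wd D l x ∈ I ^ s := by
  have := wd_pow_sup D I ⊥ (by intro i x hx; simp [Ideal.mem_bot.1 hx]) l s x (by simpa using hx)
  simpa using this

/-- Chain rule for polynomials with constant coefficients. -/
theorem der_aeval {ι : Type} [Fintype ι] [DecidableEq ι] (D : Derivation k R R) (η : ι → R)
    (Q : MvPolynomial ι k) :
    D (aeval η Q) = ∑ j, aeval η (pderiv j Q) * D (η j) := by
  induction Q using MvPolynomial.induction_on with
  | C a => simp
  | add p q hp hq => simp [hp, hq, add_mul, Finset.sum_add_distrib]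
  | mul_X p i hp =>
    have h1 : ∀ j, aeval η (pderiv j (p * X i)) * D (η j)
        = η i * (aeval η (pderiv j p) * D (η j))
          + (if j = i then aeval η p * D (η j) else 0) := by
      intro j
      rw [Derivation.leibniz, smul_eq_mul, smul_eq_mul, map_add, map_mul, map_mul, aeval_X,
        pderiv_X]
      by_cases h : j = i
      · subst h; simp; ring
      · simp [h]; ring
    simp only [h1, Finset.sum_add_distrib, ← Finset.mul_sum, Finset.sum_ite_eq', Finset.mem_univ,
      if_true]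
    rw [map_mul, aeval_X, D.leibniz, hp, smul_eq_mul, smul_eq_mul, add_comm]

theorem eval_mem_pow {ι : Type} (η : ι → R) {s : ℕ} {P : MvPolynomial ι R}
    (hP : P.IsHomogeneous s) : eval η P ∈ Ideal.span (Set.range η) ^ s :=
  (Ideal.mem_span_pow_iff_exists_isHomogeneous η _).2 ⟨P, hP, rfl⟩

theorem eval_mem_mul {ι : Type} (η : ι → R) {s : ℕ} {P : MvPolynomial ι R}
    (hP : P.IsHomogeneous s) (J : Ideal R) (hc : ∀ α, coeff α P ∈ J) :
    eval η P ∈ J * Ideal.span (Set.range η) ^ s := by
  rw [P.as_sum, map_sum]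
  refine sum_mem fun α hα => ?_
  have h1 : (monomial α (coeff α P) : MvPolynomial ι R) = C (coeff α P) * monomial α 1 := by
    rw [C_mul_monomial, mul_one]
  rw [h1, map_mul, eval_C]
  refine Ideal.mul_mem_mul (hc α) (eval_mem_pow η (isHomogeneous_monomial _ ?_))
  have := hP (mem_support_iff.1 hα)
  rwa [Finsupp.degree_eq_weight_one]

/-- Data for Taylor expansion: `m = (η) + p`, derivations `δ` dual to `η` modulo `m`. -/
structure Tay {ι : Type} [DecidableEq ι] (m p : Ideal R) (η : ι → R)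
    (δ : ι → Derivation k R R) : Prop where
  un : ∀ n : ℕ, IsUnit ((n : R) + 1)
  eq : m = Ideal.span (Set.range η) ⊔ p
  pres : ∀ i, ∀ x ∈ p, δ i x ∈ p
  dual : ∀ i j, δ i (η j) - (if i = j then 1 else 0) ∈ m

namespace Tay

variable {ι : Type} [Fintype ι] [DecidableEq ι] {m p : Ideal R} {η : ι → R}
  {δ : ι → Derivation k R R}

omit [Fintype ι] in
theorem le (T : Tay m p η δ) : p ≤ m := T.eq ▸ le_sup_right

omit [Fintype ι] in
theorem span_le (T : Tay m p η δ) : Ideal.span (Set.range η) ≤ m := T.eq ▸ le_sup_left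

omit [Fintype ι] in
theorem pow_sup (T : Tay m p η δ) (s : ℕ) :
    m ^ s ⊔ p = Ideal.span (Set.range η) ^ s ⊔ p := by
  refine le_antisymm (sup_le ?_ le_sup_right)
    (sup_le_sup_right (Ideal.pow_right_mono T.span_le s) p)
  induction s with
  | zero => simp
  | succ s ih =>
    rw [pow_succ]
    refine (Ideal.mul_mono_left ih).trans ?_
    rw [T.eq, Ideal.sup_mul, Ideal.mul_sup, ← pow_succ]
    refine sup_le (sup_le le_sup_left ?_) ?_
    · exact le_sup_of_le_right Ideal.mul_le_right
    · exact le_sup_of_le_right Ideal.mul_le_left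

omit [Fintype ι] in
theorem exists_hom (T : Tay m p η δ) {s : ℕ} {f : R} (hf : f ∈ m ^ s ⊔ p) :
    ∃ P : MvPolynomial ι R, P.IsHomogeneous s ∧ f - eval η P ∈ p := by
  rw [T.pow_sup] at hf
  obtain ⟨a, ha, b, hb, rfl⟩ := Submodule.mem_sup.1 hf
  obtain ⟨P, hP, rfl⟩ := (Ideal.mem_span_pow_iff_exists_isHomogeneous η _).1 ha
  exact ⟨P, hP, by simpa using hb⟩

omit [Fintype ι] in
theorem eval_mem (T : Tay m p η δ) {s : ℕ} {P : MvPolynomial ι R} (hP : P.IsHomogeneous s) :
    eval η P ∈ m ^ s := Ideal.pow_right_mono T.span_le s (eval_mem_pow η hP)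

omit [Fintype ι] in
theorem eval_mem_succ (T : Tay m p η δ) {s : ℕ} {P : MvPolynomial ι R} (hP : P.IsHomogeneous s)
    (hc : ∀ α, coeff α P ∈ m) : eval η P ∈ m ^ (s + 1) := by
  rw [pow_succ']
  exact Ideal.mul_mono_right (Ideal.pow_right_mono T.span_le s) (eval_mem_mul η hP m hc)

omit [Fintype ι] in
theorem wd_mem_max (T : Tay m p η δ) (l : List ι) (x : R) (hx : x ∈ m ^ (l.length + 1) ⊔ p) :
    wd δ l x ∈ m := by
  have := wd_pow_sup δ m p T.pres l 1 x (by rwa [add_comm])
  rwa [pow_one, sup_eq_left.2 T.le] at this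

theorem der_eval (T : Tay m p η δ) (i : ι) {s : ℕ} {P : MvPolynomial ι R}
    (hP : P.IsHomogeneous (s + 1)) : δ i (eval η P) - eval η (pderiv i P) ∈ m ^ (s + 1) := by
  rw [P.as_sum, map_sum, map_sum, map_sum, map_sum, ← Finset.sum_sub_distrib]
  refine sum_mem fun α hα => ?_
  have hd : α.degree = s + 1 := by
    have := hP (mem_support_iff.1 hα)
    rwa [Finsupp.degree_eq_weight_one]
  have hm : (monomial α 1 : MvPolynomial ι R).IsHomogeneous (s + 1) := isHomogeneous_monomial _ hd
  have h1 : (monomial α (coeff α P) : MvPolynomial ι R) = C (coeff α P) * monomial α 1 := by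
    rw [C_mul_monomial, mul_one]
  have h2 : (monomial α 1 : MvPolynomial ι R) = map (algebraMap k R) (monomial α 1) := by simp
  have h3 : ∀ Q : MvPolynomial ι k, eval η (map (algebraMap k R) Q) = aeval η Q := by
    intro Q; rw [eval_map, aeval_def]
  have h4 : δ i (eval η (monomial α 1 : MvPolynomial ι R))
      = ∑ j, eval η (pderiv j (monomial α 1 : MvPolynomial ι R)) * δ i (η j) := by
    rw [h2, h3, der_aeval]
    refine Finset.sum_congr rfl fun j _ => ?_
    rw [pderiv_map, h3]
  have h5 : eval η (pderiv i (monomial α 1 : MvPolynomial ι R))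
      = ∑ j, eval η (pderiv j (monomial α 1 : MvPolynomial ι R)) * (if i = j then 1 else 0) := by
    simp
  have h6 : δ i (eval η (monomial α 1 : MvPolynomial ι R))
      - eval η (pderiv i (monomial α 1 : MvPolynomial ι R)) ∈ m ^ (s + 1) := by
    rw [h4, h5, ← Finset.sum_sub_distrib]
    refine sum_mem fun j _ => ?_
    rw [← mul_sub, pow_succ]
    exact Ideal.mul_mem_mul (T.eval_mem (by simpa using hm.pderiv (i := j))) (T.dual i j)
  rw [h1, pderiv_C_mul, map_mul (eval η), map_mul (eval η), eval_C, Derivation.leibniz,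
    smul_eq_mul, smul_eq_mul, add_sub_right_comm, ← mul_sub]
  exact add_mem (Ideal.mul_mem_left _ _ h6) (Ideal.mul_mem_right _ _ (T.eval_mem hm))

/-- TAY (a), second form. -/
theorem coeff_mem_of_wd (T : Tay m p η δ) (s : ℕ) : ∀ P : MvPolynomial ι R, P.IsHomogeneous s →
    (∀ l : List ι, l.length = s → wd δ l (eval η P) ∈ m) → ∀ α, coeff α P ∈ m := by
  induction s with
  | zero =>
    intro P hP h α
    have h0 := h [] rfl
    rw [← totalDegree_zero_iff_isHomogeneous, totalDegree_eq_zero_iff_eq_C] at hP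
    rw [hP] at h0 ⊢
    rw [wd_nil, eval_C] at h0
    rw [coeff_C]
    split_ifs
    · exact h0
    · exact zero_mem _
  | succ s ih =>
    intro P hP h β
    by_cases hβ : coeff β P = 0
    · rw [hβ]; exact zero_mem _
    have hd : β.degree = s + 1 := by
      have := hP hβ
      rwa [Finsupp.degree_eq_weight_one]
    have hne : β ≠ 0 := by
      rintro rfl
      simp at hd
    obtain ⟨i, hi⟩ := Finsupp.ne_iff.1 hne
    have hi' : β i ≠ 0 := by simpa using hi
    have key := ih (pderiv i P) (by simpa using hP.pderiv (i := i)) (fun l hl => by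
      have h1 := h (l ++ [i]) (by simp [hl])
      rw [wd_append] at h1
      have h2 := T.wd_mem_max l _ (Submodule.mem_sup_left (hl ▸ T.der_eval i hP))
      rw [wd_sub] at h2
      have := sub_mem h1 h2
      simpa using this) (β - Finsupp.single i 1)
    rw [coeff_pderiv, Finsupp.sub_add_single_one_cancel hi'] at key
    exact (Ideal.mul_unit_mem_iff_mem m (T.un _)).1 key

/-- TAY (a), first form. -/
theorem coeff_mem (T : Tay m p η δ) {s : ℕ} {P : MvPolynomial ι R} (hP : P.IsHomogeneous s)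
    (h : eval η P ∈ m ^ (s + 1) ⊔ p) (α : ι →₀ ℕ) : coeff α P ∈ m :=
  T.coeff_mem_of_wd s P hP (fun l hl => T.wd_mem_max l _ (hl ▸ h)) α

/-- One step of TAY (b). -/
theorem mem_succ (T : Tay m p η δ) {s : ℕ} {f : R} (hf : f ∈ m ^ s ⊔ p)
    (h : ∀ l : List ι, l.length = s → wd δ l f ∈ m) : f ∈ m ^ (s + 1) ⊔ p := by
  obtain ⟨P, hP, hfP⟩ := T.exists_hom hf
  have hc := T.coeff_mem_of_wd s P hP fun l hl => by
    have h1 := T.le (wd_mem δ p T.pres l _ hfP)
    rw [wd_sub] at h1
    have := sub_mem (h l hl) h1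
    simpa using this
  have : f = eval η P + (f - eval η P) := by ring
  rw [this]
  exact Submodule.add_mem_sup (T.eval_mem_succ hP hc) hfP

/-- TAY (b). -/
theorem mem_pow (T : Tay m p η δ) (s : ℕ) {f : R}
    (h : ∀ l : List ι, l.length < s → wd δ l f ∈ m) : f ∈ m ^ s ⊔ p := by
  induction s with
  | zero => simp
  | succ s ih =>
    exact T.mem_succ (ih fun l hl => h l (by omega)) fun l hl => h l (by omega)

/-- The linear map sending a coefficient vector to the form of degree `s` in `η`. -/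
noncomputable def form (R ι : Type) [CommRing R] [Fintype ι] [DecidableEq ι] (s : ℕ) :
    ((Finset.univ : Finset ι).finsuppAntidiag s → R) →ₗ[R] MvPolynomial ι R :=
  Fintype.linearCombination R fun a => monomial (a : ι →₀ ℕ) 1

theorem form_hom (s : ℕ) (c) : (form R ι s c).IsHomogeneous s := by
  rw [form, Fintype.linearCombination_apply]
  refine IsHomogeneous.sum _ _ _ fun a _ => ?_
  rw [smul_monomial]
  refine isHomogeneous_monomial _ ?_
  rw [Finsupp.degree_eq_sum]
  exact (Finset.mem_finsuppAntidiag.1 a.2).1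

theorem coeff_form (s : ℕ) (c) (a : (Finset.univ : Finset ι).finsuppAntidiag s) :
    coeff (a : ι →₀ ℕ) (form R ι s c) = c a := by
  rw [form, Fintype.linearCombination_apply, coeff_sum, Finset.sum_eq_single a]
  · simp
  · intro b _ hb
    rw [smul_monomial, coeff_monomial, if_neg fun e => hb (Subtype.ext e)]
  · simp

theorem coeff_form_mem (s : ℕ) (c) (J : Ideal R) (hc : ∀ a, c a ∈ J) (α : ι →₀ ℕ) :
    coeff α (form R ι s c) ∈ J := by
  rw [form, Fintype.linearCombination_apply, coeff_sum]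
  refine sum_mem fun a _ => ?_
  rw [smul_monomial, coeff_monomial]
  split_ifs
  · simpa using hc a
  · exact zero_mem _

theorem length_step (T : Tay m p η δ) (hm : m ≠ ⊤) (s : ℕ) :
    ((Fintype.card ι).multichoose s : ℕ∞) + Module.length R (R ⧸ (m ^ s ⊔ p))
      ≤ Module.length R (R ⧸ (m ^ (s + 1) ⊔ p)) := by
  have hle : m ^ (s + 1) ⊔ p ≤ m ^ s ⊔ p :=
    sup_le_sup_right (Ideal.pow_le_pow_right (Nat.le_succ s)) p
  let g : (R ⧸ (m ^ (s + 1) ⊔ p)) →ₗ[R] (R ⧸ (m ^ s ⊔ p)) := Submodule.factor hle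
  have hg : Function.Surjective g := Submodule.factor_surjective hle
  have hex := Module.length_eq_add_of_exact (LinearMap.ker g).subtype g
    (Submodule.subtype_injective _) hg (LinearMap.exact_subtype_ker_map g)
  rw [hex]
  refine add_le_add_left ?_ _
  let ev : MvPolynomial ι R →ₗ[R] R := (aeval η).toLinearMap
  have hev : ∀ P, ev P = eval η P := fun P => by simp [ev, aeval_eq_eval]
  let φ : ((Finset.univ : Finset ι).finsuppAntidiag s → R) →ₗ[R] (R ⧸ (m ^ (s + 1) ⊔ p)) :=
    (Submodule.mkQ _) ∘ₗ ev ∘ₗ form R ι s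
  have hφ : ∀ c, φ c ∈ LinearMap.ker g := by
    intro c
    have : eval η (form R ι s c) ∈ m ^ s ⊔ p := Submodule.mem_sup_left (T.eval_mem (form_hom s c))
    simpa [φ, g, hev, Submodule.Quotient.mk_eq_zero, Ideal.Quotient.eq_zero_iff_mem] using this
  let ψ := φ.codRestrict _ hφ
  let π : ((Finset.univ : Finset ι).finsuppAntidiag s → R) →ₗ[R]
      ((Finset.univ : Finset ι).finsuppAntidiag s → R ⧸ m) :=
    LinearMap.compLeft (Submodule.mkQ m) _
  have hπ : Function.Surjective π := by
    intro y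
    choose x hx using fun a => Submodule.mkQ_surjective m (y a)
    exact ⟨x, funext hx⟩
  have hk : LinearMap.ker ψ ≤ LinearMap.ker π := by
    intro c hc
    have h1 : φ c = 0 := congrArg Subtype.val (LinearMap.mem_ker.1 hc)
    have h2 : eval η (form R ι s c) ∈ m ^ (s + 1) ⊔ p := by
      simpa [φ, hev, Submodule.Quotient.mk_eq_zero, Ideal.Quotient.eq_zero_iff_mem] using h1
    refine LinearMap.mem_ker.2 (funext fun a => ?_)
    have := T.coeff_mem (form_hom s c) h2 a
    rw [coeff_form] at this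
    simpa [π, Ideal.Quotient.eq_zero_iff_mem] using this
  have e1 : Module.length R ((Finset.univ : Finset ι).finsuppAntidiag s → R ⧸ m)
      ≤ Module.length R (_ ⧸ LinearMap.ker ψ) :=
    Module.length_le_of_surjective ((LinearMap.ker ψ).liftQ π hk) (by
      intro y
      obtain ⟨x, rfl⟩ := hπ y
      exact ⟨Submodule.Quotient.mk x, rfl⟩)
  have e2 : Module.length R (_ ⧸ LinearMap.ker ψ) ≤ Module.length R (LinearMap.ker g) :=
    Module.length_le_of_injective ((LinearMap.ker ψ).liftQ ψ le_rfl)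
      (LinearMap.ker_eq_bot.1 (Submodule.ker_liftQ_eq_bot _ _ _ le_rfl))
  refine le_trans ?_ (e1.trans e2)
  have : Nontrivial (R ⧸ m) := Ideal.Quotient.nontrivial_iff.2 hm
  have h1 : (1 : ℕ∞) ≤ Module.length R (R ⧸ m) := Order.one_le_iff_pos.2 Module.length_pos
  rw [Module.length_pi_of_fintype]
  calc ((Fintype.card ι).multichoose s : ℕ∞)
      = ∑ _a : (Finset.univ : Finset ι).finsuppAntidiag s, (1 : ℕ∞) := by
        simp [Finset.card_finsuppAntidiag_nat_eq_multichoose]
    _ ≤ _ := Finset.sum_le_sum fun _ _ => h1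

/-- TAY (c), as a sum over the degrees. -/
theorem length_ge_sum (T : Tay m p η δ) (hm : m ≠ ⊤) (s : ℕ) :
    ((∑ i ∈ Finset.range s, (Fintype.card ι).multichoose i : ℕ) : ℕ∞)
      ≤ Module.length R (R ⧸ (m ^ s ⊔ p)) := by
  induction s with
  | zero => simp
  | succ s ih =>
    rw [Finset.sum_range_succ, Nat.cast_add, add_comm]
    exact (add_le_add_right ih _).trans (T.length_step hm s)

/-- TAY (c). -/
theorem length_ge (T : Tay m p η δ) (hm : m ≠ ⊤) (s : ℕ) :
    (((s + Fintype.card ι).choose (Fintype.card ι) : ℕ) : ℕ∞)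
      ≤ Module.length R (R ⧸ (m ^ (s + 1) ⊔ p)) := by
  have := T.length_ge_sum hm (s + 1)
  rwa [Nat.sum_range_multichoose] at this

omit [Fintype ι] in
/-- Initial forms: an element outside `p` has an order. -/
theorem exists_initial (T : Tay m p η δ) [IsNoetherianRing R] [IsLocalRing R] (hm : m ≠ ⊤)
    {f : R} (hf : f ∉ p) : ∃ (s : ℕ) (P : MvPolynomial ι R), P.IsHomogeneous s ∧
      f - eval η P ∈ p ∧ map (Ideal.Quotient.mk m) P ≠ 0 := by
  have hp : p ≠ ⊤ := fun e => hm (top_le_iff.1 (e ▸ T.le))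
  have : Nontrivial (R ⧸ p) := Ideal.Quotient.nontrivial_iff.2 hp
  have : IsLocalRing (R ⧸ p) := IsLocalRing.of_surjective' _ Ideal.Quotient.mk_surjective
  have hm' : m.map (Ideal.Quotient.mk p) ≠ ⊤ := by
    intro e
    have := congrArg (Ideal.comap (Ideal.Quotient.mk p)) e
    rw [Ideal.comap_map_quotientMk, sup_eq_right.2 T.le, Ideal.comap_top] at this
    exact hm this
  have hK := Ideal.iInf_pow_eq_bot_of_isLocalRing _ hm'
  have hex : ∃ s, f ∉ m ^ s ⊔ p := by
    by_contra hall
    push Not at hall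
    apply hf
    rw [← Ideal.Quotient.eq_zero_iff_mem, ← Ideal.mem_bot, ← hK, Ideal.mem_iInf]
    intro s
    obtain ⟨a, ha, b, hb, rfl⟩ := Submodule.mem_sup.1 (hall s)
    rw [map_add, Ideal.Quotient.eq_zero_iff_mem.2 hb, add_zero, ← Ideal.map_pow]
    exact Ideal.mem_map_of_mem _ ha
  classical
  have h0 : Nat.find hex ≠ 0 := by
    intro e
    have := Nat.find_spec hex
    rw [e] at this
    simp at this
  obtain ⟨s, hs⟩ := Nat.exists_eq_succ_of_ne_zero h0
  have h1 : f ∈ m ^ s ⊔ p := not_not.1 (Nat.find_min hex (by omega))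
  have h2 : f ∉ m ^ (s + 1) ⊔ p := by
    have := Nat.find_spec hex
    rwa [hs] at this
  obtain ⟨P, hP, hfP⟩ := T.exists_hom h1
  refine ⟨s, P, hP, hfP, fun e => h2 ?_⟩
  have hc : ∀ α, coeff α P ∈ m := fun α => by
    have := congrArg (coeff α) e
    rwa [coeff_map, coeff_zero, Ideal.Quotient.eq_zero_iff_mem] at this
  have : f = eval η P + (f - eval η P) := by ring
  rw [this]
  exact Submodule.add_mem_sup (T.eval_mem_succ hP hc) hfP

/-- `p` is prime when `R` is local Noetherian and `m` is prime. -/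
theorem isPrime (T : Tay m p η δ) [IsNoetherianRing R] [IsLocalRing R] [hm : m.IsPrime] :
    p.IsPrime := by
  refine ⟨fun e => hm.ne_top (top_le_iff.1 (e ▸ T.le)), fun {f g} hfg => ?_⟩
  by_contra hne
  push Not at hne
  obtain ⟨s, P, hP, hfP, hP0⟩ := T.exists_initial hm.ne_top hne.1
  obtain ⟨t, Q, hQ, hgQ, hQ0⟩ := T.exists_initial hm.ne_top hne.2
  have h1 : eval η (P * Q) ∈ p := by
    have : eval η (P * Q) = f * g - ((f - eval η P) * g + eval η P * (g - eval η Q)) := by
      rw [map_mul]; ring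
    rw [this]
    exact sub_mem hfg (add_mem (Ideal.mul_mem_right _ _ hfP) (Ideal.mul_mem_left _ _ hgQ))
  refine mul_ne_zero hP0 hQ0 ?_
  rw [← map_mul]
  ext α
  rw [coeff_map, coeff_zero, Ideal.Quotient.eq_zero_iff_mem]
  exact T.coeff_mem (hP.mul hQ) (Submodule.mem_sup_right h1) α

section Jets

variable {κ : Type} [Field κ] [Algebra κ R]

omit [Fintype ι] in
theorem aeval_mem (T : Tay m p η δ) (s : ℕ) (Q : MvPolynomial ι κ)
    (hQ : ∀ α : ι →₀ ℕ, α.degree < s → coeff α Q = 0) : aeval η Q ∈ m ^ s := by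
  rw [Q.as_sum, map_sum]
  refine sum_mem fun α hα => ?_
  have h1 : s ≤ α.degree := not_lt.1 fun h => mem_support_iff.1 hα (hQ α h)
  refine Ideal.pow_le_pow_right h1 ?_
  rw [aeval_def, ← eval_map, map_monomial]
  exact T.eval_mem (isHomogeneous_monomial _ rfl)

/-- The monomials of degree `< s` in `η` are independent modulo `m ^ s + p`. -/
theorem coeff_eq_zero (T : Tay m p η δ) (hm : m ≠ ⊤) (P : MvPolynomial ι κ) (s : ℕ)
    (h : aeval η P ∈ m ^ s ⊔ p) : ∀ α : ι →₀ ℕ, α.degree < s → coeff α P = 0 := by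
  induction s with
  | zero => intro α hα; omega
  | succ s ih =>
    have ih' := ih (sup_le_sup_right (Ideal.pow_le_pow_right (Nat.le_succ s)) p h)
    intro α hα
    rcases Nat.lt_succ_iff_lt_or_eq.1 hα with h1 | h1
    · exact ih' α h1
    have h2 : aeval η (P - homogeneousComponent s P) ∈ m ^ (s + 1) := by
      refine T.aeval_mem _ _ fun β hβ => ?_
      rw [coeff_sub, coeff_homogeneousComponent]
      rcases Nat.lt_succ_iff_lt_or_eq.1 hβ with h3 | h3
      · rw [ih' β h3]; simp
      · simp [h3]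
    have h3 : eval η (map (algebraMap κ R) (homogeneousComponent s P)) ∈ m ^ (s + 1) ⊔ p := by
      rw [eval_map, ← aeval_def]
      have := sub_mem h (Submodule.mem_sup_left h2)
      simpa using this
    have h4 := T.coeff_mem ((homogeneousComponent_isHomogeneous s P).map _) h3 α
    rw [coeff_map, coeff_homogeneousComponent, if_pos h1] at h4
    by_contra hne
    exact hm (Ideal.eq_top_of_isUnit_mem m h4 ((IsUnit.mk0 _ hne).map _))

theorem algebraicIndependent (T : Tay m p η δ) (hm : m ≠ ⊤) (κ : Type) [Field κ] [Algebra κ R] :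
    AlgebraicIndependent κ fun i => Ideal.Quotient.mk p (η i) := by
  rw [algebraicIndependent_iff]
  intro P hP
  have h1 : aeval η P ∈ p := by
    rw [← Ideal.Quotient.eq_zero_iff_mem, ← hP]
    exact comp_aeval_apply η (Ideal.Quotient.mkₐ κ p) P
  ext α
  exact T.coeff_eq_zero hm P (α.degree + 1) (Submodule.mem_sup_right h1) α (Nat.lt_succ_self _)

omit [Fintype ι] in
/-- If `R = κ + m`, every element has a Taylor polynomial over `κ`. -/
theorem exists_jet (T : Tay m p η δ) (hκ : ∀ r : R, ∃ c : κ, r - algebraMap κ R c ∈ m) (f : R)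
    (s : ℕ) : ∃ P : MvPolynomial ι κ, (∀ α ∈ P.support, α.degree < s) ∧
      f - aeval η P ∈ m ^ s ⊔ p := by
  induction s with
  | zero => exact ⟨0, by simp, by simp⟩
  | succ s ih =>
    obtain ⟨P, hP, hf⟩ := ih
    obtain ⟨Q, hQ, hfQ⟩ := T.exists_hom hf
    choose c hc using hκ
    let Q0 : MvPolynomial ι κ := ∑ α ∈ Q.support, monomial α (c (coeff α Q))
    have hQd : ∀ α ∈ Q.support, α.degree = s := fun α hα => by
      have := hQ (mem_support_iff.1 hα)
      rwa [Finsupp.degree_eq_weight_one]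
    have hQ0 : Q0.IsHomogeneous s :=
      IsHomogeneous.sum _ _ _ fun α hα => isHomogeneous_monomial _ (hQd α hα)
    have hco : ∀ α, coeff α (Q - map (algebraMap κ R) Q0) ∈ m := by
      intro α
      rw [coeff_sub, coeff_map, coeff_sum]
      simp only [coeff_monomial, Finset.sum_ite_eq']
      split_ifs with h
      · exact hc _
      · simp [notMem_support_iff.1 h]
    have h1 := T.eval_mem_succ (hQ.sub (hQ0.map _)) hco
    rw [map_sub, eval_map, ← aeval_def] at h1
    refine ⟨P + Q0, fun α hα => ?_, ?_⟩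
    · rcases Finset.mem_union.1 (support_add hα) with h | h
      · exact (hP α h).trans (Nat.lt_succ_self _)
      · have := hQ0 (mem_support_iff.1 h)
        rw [Finsupp.degree_eq_weight_one]
        exact Nat.lt_succ_of_le this.le
    · have : f - aeval η (P + Q0)
          = (eval η Q - aeval η Q0) + (f - aeval η P - eval η Q) := by rw [map_add]; ring
      rw [this]
      exact Submodule.add_mem_sup h1 hfQ

omit [Fintype ι] in
theorem ker_jet (T : Tay m p η δ) [Finite ι] (hm : m ≠ ⊤) (s : ℕ) :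
    RingHom.ker ((Ideal.Quotient.mkₐ κ (m ^ s ⊔ p)).comp (aeval η))
      = Ideal.span (Set.range (X : ι → MvPolynomial ι κ)) ^ s := by
  have := Fintype.ofFinite ι
  ext P
  rw [RingHom.mem_ker, AlgHom.comp_apply, Ideal.Quotient.mkₐ_eq_mk,
    Ideal.Quotient.eq_zero_iff_mem]
  change _ ↔ P ∈ idealOfVars ι κ ^ s
  rw [mem_pow_idealOfVars_iff']
  exact ⟨T.coeff_eq_zero hm P s, fun h => Submodule.mem_sup_left (T.aeval_mem s P h)⟩

omit [Fintype ι] in
theorem surj_jet (T : Tay m p η δ) (hκ : ∀ r : R, ∃ c : κ, r - algebraMap κ R c ∈ m) (s : ℕ) :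
    Function.Surjective ((Ideal.Quotient.mkₐ κ (m ^ s ⊔ p)).comp (aeval η)) := by
  intro y
  obtain ⟨f, rfl⟩ := Ideal.Quotient.mk_surjective y
  obtain ⟨P, -, hP⟩ := T.exists_jet hκ f s
  exact ⟨P, (Ideal.Quotient.eq.2 hP).symm⟩

omit [Fintype ι] in
/-- The jet map: a `κ`-algebra map onto truncated polynomials with kernel `m ^ s + p`. -/
theorem exists_jetHom (T : Tay m p η δ) [Finite ι] (hm : m ≠ ⊤)
    (hκ : ∀ r : R, ∃ c : κ, r - algebraMap κ R c ∈ m) (s : ℕ) :
    ∃ j : R →ₐ[κ] MvPolynomial ι κ ⧸ Ideal.span (Set.range (X : ι → MvPolynomial ι κ)) ^ s,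
      (∀ i, j (η i) = Ideal.Quotient.mk _ (X i)) ∧ ∀ f, j f = 0 ↔ f ∈ m ^ s ⊔ p := by
  let e := (Ideal.quotientEquivAlgOfEq κ (T.ker_jet (κ := κ) hm s).symm).trans
    (Ideal.quotientKerAlgEquivOfSurjective (T.surj_jet hκ s))
  refine ⟨e.symm.toAlgHom.comp (Ideal.Quotient.mkₐ κ (m ^ s ⊔ p)), fun i => ?_, fun f => ?_⟩
  · change e.symm _ = _
    rw [AlgEquiv.symm_apply_eq]
    simp [e]
  · change e.symm _ = _ ↔ _
    rw [map_eq_zero_iff _ e.symm.injective]
    exact Ideal.Quotient.eq_zero_iff_mem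

/-- If `R = κ + m` then `R / (m ^ (s+1) + p)` has dimension at most the number of monomials. -/
theorem finrank_le (T : Tay m p η δ) (hκ : ∀ r : R, ∃ c : κ, r - algebraMap κ R c ∈ m) (s : ℕ) :
    Module.Finite κ (R ⧸ (m ^ (s + 1) ⊔ p)) ∧
      Module.finrank κ (R ⧸ (m ^ (s + 1) ⊔ p)) ≤ (s + Fintype.card ι).choose (Fintype.card ι) := by
  let A : Finset (ι →₀ ℕ) :=
    (Finset.range (s + 1)).biUnion fun i => (Finset.univ : Finset ι).finsuppAntidiag i
  have hA : A.card ≤ (s + Fintype.card ι).choose (Fintype.card ι) := by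
    refine Finset.card_biUnion_le.trans ?_
    simp only [Finset.card_finsuppAntidiag_nat_eq_multichoose, Finset.card_univ]
    exact (Nat.sum_range_multichoose _ _).le
  let v : A → R ⧸ (m ^ (s + 1) ⊔ p) := fun a =>
    Ideal.Quotient.mkₐ κ _ (aeval η (monomial (a : ι →₀ ℕ) (1 : κ)))
  have hv : Submodule.span κ (Set.range v) = ⊤ := by
    refine top_le_iff.1 fun y _ => ?_
    obtain ⟨f, rfl⟩ := Ideal.Quotient.mk_surjective y
    obtain ⟨P, hP, hf⟩ := T.exists_jet hκ f (s + 1)
    rw [Ideal.Quotient.eq.2 hf, P.as_sum, map_sum, map_sum]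
    refine sum_mem fun α hα => ?_
    have hαA : α ∈ A := Finset.mem_biUnion.2 ⟨α.degree, Finset.mem_range.2 (hP α hα),
      Finset.mem_finsuppAntidiag.2 ⟨(Finsupp.degree_eq_sum α).symm, Finset.subset_univ _⟩⟩
    have : Ideal.Quotient.mk (m ^ (s + 1) ⊔ p) (aeval η (monomial α (coeff α P)))
        = coeff α P • v ⟨α, hαA⟩ := by
      simp only [v]
      rw [← map_smul, ← map_smul, smul_monomial, smul_eq_mul, mul_one]
      rfl
    rw [this]
    exact Submodule.smul_mem _ _ (Submodule.subset_span ⟨_, rfl⟩)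
  refine ⟨⟨hv ▸ Submodule.fg_span (Set.finite_range v)⟩, ?_⟩
  have := finrank_range_le_card (R := κ) v
  rw [Set.finrank, hv, finrank_top, Fintype.card_coe] at this
  exact this.trans hA

end Jets

end Tay

end Pool.Agent.Lib.A35.T
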