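import Pool.Agent.Lib.A35.PG
import Pool.Agent.Lib.A35.Tay
import Pool.Agent.Lib.A35.Dual

/-! The pointed germ: Taylor data, the prime `p` and the general point of `V(p)`. -/

open scoped TensorProduct
open IsLocalRing Set

namespace Pool.Agent.Lib.A35.G

/-- The canonical `ℤ`-algebra structure is preferred on localisations. -/
noncomputable instance (priority := high) intAlg {A : Type} [CommRing A] (S : Submonoid A) :
    Algebra ℤ (Localization S) := Ring.toIntAlgebra _

/-- Forget the constants. -/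
def toZ {k R : Type} [CommRing k] [CommRing R] [Algebra k R] (D : Derivation k R R) :
    Derivation ℤ R R := D.restrictScalars ℤ

/-- The fraction field of the quotient by a prime. -/
theorem exists_fracField (κ : Type) [Field κ] {R : Type} [CommRing R] [Algebra κ R] (p : Ideal R)
    [p.IsPrime] : ∃ (F : Type) (_ : Field F) (_ : Algebra κ F) (ψ : R →ₐ[κ] F),
      (∀ r, ψ r = 0 ↔ r ∈ p) ∧ ∀ y, ∃ a b, ψ b ≠ 0 ∧ y * ψ b = ψ a := by
  refine ⟨FractionRing (R ⧸ p), inferInstance, inferInstance,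
    (IsScalarTower.toAlgHom κ (R ⧸ p) _).comp (Ideal.Quotient.mkₐ κ p), fun r => ?_, fun y => ?_⟩
  · exact (FaithfulSMul.algebraMap_eq_zero_iff (R ⧸ p) (FractionRing (R ⧸ p))).trans
      Ideal.Quotient.eq_zero_iff_mem
  · obtain ⟨a, b, hb, rfl⟩ := IsFractionRing.div_surjective (A := R ⧸ p) y
    obtain ⟨a, rfl⟩ := Ideal.Quotient.mk_surjective a
    obtain ⟨b, rfl⟩ := Ideal.Quotient.mk_surjective b
    have := IsFractionRing.to_map_ne_zero_of_mem_nonZeroDivisors (K := FractionRing (R ⧸ p)) hb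
    exact ⟨a, b, this, div_mul_cancel₀ _ this⟩

section gen
variable {k κ L K : Type} [Field k] [Field κ] [Field L] [Field K] [Algebra k κ] [Algebra k L]
  [Algebra k K] [Algebra κ K] [IsScalarTower k κ K] {σ : L →ₐ[k] K}

/-- The fraction field of a quotient of the germ is generated by the functions. -/
theorem gen_of_frac {F : Type} [Field F] [Algebra κ F] (ψ : Germ κ σ →ₐ[κ] F)
    (h : ∀ y, ∃ a b, ψ b ≠ 0 ∧ y * ψ b = ψ a) :
    IntermediateField.adjoin κ (range fun x => ψ (iota κ σ x)) = ⊤ := by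
  set E := IntermediateField.adjoin κ (range fun x => ψ (iota κ σ x))
  have h1 : ∀ a, ψ (mkG κ σ a) ∈ E := fun a => by
    induction a with
    | zero => simp
    | tmul c x =>
      rw [mkG_tmul, map_mul, ψ.commutes]
      exact mul_mem (E.algebraMap_mem c) (IntermediateField.subset_adjoin _ _ ⟨x, rfl⟩)
    | add a b ha hb => rw [map_add, map_add]; exact add_mem ha hb
  have h2 : ∀ r, ψ r ∈ E := fun r => by
    obtain ⟨a, s, hs, e⟩ := germ_surj r
    rw [eq_div_of_mul_eq ((isUnit_mkG hs).map ψ).ne_zero ((map_mul ψ _ _).symm.trans (congrArg ψ e))]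
    exact div_mem (h1 a) (h1 s)
  refine eq_top_iff.2 fun y _ => ?_
  obtain ⟨a, b, hb, e⟩ := h y
  rw [eq_div_of_mul_eq hb e]
  exact div_mem (h2 a) (h2 b)

theorem unit_nat [CharZero κ] (n : ℕ) : IsUnit ((n : Germ κ σ) + 1) := by
  simpa using (IsUnit.mk0 _ (Nat.cast_add_one_ne_zero (R := κ) n)).map (algebraMap κ (Germ κ σ))

end gen

section PG
variable {k k0 L K : Type} [Field k] [Field k0] [Field L] [Field K] [Algebra k k0] [Algebra k L]
  [Algebra k K] [Algebra k0 K] [IsScalarTower k k0 K] {σ : L →ₐ[k] K}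

/-- The Taylor data of the pointed germ. -/
theorem exists_pgTay [CharZero k0] (hg : IntermediateField.adjoin k0 (range σ) = ⊤) {J : Type}
    [DecidableEq J] {z : J → L} (hz : IsTranscendenceBasis k0 fun j => σ (z j)) :
    ∃ (d : J → Derivation k0 K K) (D : J → Derivation ℤ (Germ K σ) (Germ K σ)),
      T.Tay (maximalIdeal (Germ K σ)) (pgI k0 σ) (zeta σ z) D ∧
      (∀ i c, D i (algebraMap K _ c) = algebraMap K _ (d i c)) ∧ (∀ i x, D i (iota K σ x) = 0) ∧
      (∀ i j, d i (σ (z j)) = if i = j then 1 else 0) ∧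
      ∀ i j, D i (zeta σ z j) = if i = j then 1 else 0 := by
  have : CharZero K := charZero_of_injective_algebraMap (algebraMap k0 K).injective
  obtain ⟨d, hd⟩ := Du.exists_dual hz
  obtain ⟨D, h1, h2, h3, h4⟩ := exists_pgDer z d hd
  exact ⟨d, fun i => toZ (D i), ⟨unit_nat, max_eq_zeta hg z hz.isAlgebraic_field, h3,
    fun i j => (sub_eq_zero.2 (h4 i j)).symm ▸ zero_mem _⟩, h1, h2, hd, h4⟩

theorem pgI_prime [CharZero k0] [Algebra.EssFiniteType k L]
    (hg : IntermediateField.adjoin k0 (range σ) = ⊤) {d : ℕ} {x : Fin d → K}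
    (hx : IsTranscendenceBasis k0 x) : (pgI k0 σ).IsPrime := by
  obtain ⟨z, hz⟩ := Du.exists_basis hg hx
  obtain ⟨-, D, h, -⟩ := exists_pgTay hg hz
  have := germ_noeth (κ := K) (σ := σ)
  exact h.isPrime

/-- The local coordinates are a transcendence basis at the general point of `V(p)`. -/
theorem zeta_basis [CharZero k0] (hg : IntermediateField.adjoin k0 (range σ) = ⊤) {J : Type}
    [Fintype J] {z : J → L} (hz : IsTranscendenceBasis k0 fun j => σ (z j)) {F : Type} [Field F]
    [Algebra K F] (ψ : Germ K σ →ₐ[K] F) (h0 : ∀ r, ψ r = 0 ↔ r ∈ pgI k0 σ)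
    (h : IntermediateField.adjoin K (range fun x => ψ (iota K σ x)) = ⊤) :
    IsTranscendenceBasis K fun j => ψ (zeta σ z j) := by
  classical
  obtain ⟨-, D, hT, -⟩ := exists_pgTay hg hz
  have hi : AlgebraicIndependent K fun j => ψ (zeta σ z j) :=
    (hT.algebraicIndependent (maximalIdeal.isMaximal _).ne_top K).map'
      (f := Ideal.Quotient.liftₐ _ ψ fun r => (h0 r).2) ((injective_iff_map_eq_zero _).2 fun r hr => by
        obtain ⟨r, rfl⟩ := Ideal.Quotient.mk_surjective r
        exact Ideal.Quotient.eq_zero_iff_mem.2 ((h0 r).1 hr))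
  rw [hi.isTranscendenceBasis_iff_isAlgebraic, ← IntermediateField.isAlgebraic_adjoin_iff_top]
  have : IntermediateField.adjoin K (range fun x => ψ (iota K σ x)) ≤ (algebraicClosure
      (IntermediateField.adjoin K (range fun j => ψ (zeta σ z j))) F).restrictScalars K :=
    IntermediateField.adjoin_le_iff.2 (range_subset_iff.2 fun x => mem_algebraicClosure_iff.2
      (alg_zeta ψ hg (fun r => (h0 r).2) z hz.isAlgebraic_field x))
  exact ⟨fun y => mem_algebraicClosure_iff.1 (this (h ▸ trivial))⟩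

/-- The general point of `V(p)`, packaged. -/
theorem exists_K1 [CharZero k0] [Algebra.EssFiniteType k L]
    (hg : IntermediateField.adjoin k0 (range σ) = ⊤) {d : ℕ} {z : Fin d → L}
    (hz : IsTranscendenceBasis k0 fun j => σ (z j)) :
    ∃ (F : Type) (_ : Field F) (_ : Algebra K F) (_ : Algebra k F) (_ : IsScalarTower k K F)
      (ψ : Germ K σ →ₐ[K] F) (σ1 : L →ₐ[k] F), (∀ r, ψ r = 0 ↔ r ∈ pgI k0 σ) ∧
      (∀ y, ∃ a b, ψ b ≠ 0 ∧ y * ψ b = ψ a) ∧ (∀ x, σ1 x = ψ (iota K σ x)) ∧
      IntermediateField.adjoin K (range σ1) = ⊤ ∧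
      IsTranscendenceBasis K fun j => ψ (zeta σ z j) := by
  have := pgI_prime hg hz
  obtain ⟨F, _, _, ψ, h0, h1⟩ := exists_fracField K (pgI k0 σ)
  let : Algebra k F := ((algebraMap K F).comp (algebraMap k K)).toAlgebra
  have : IsScalarTower k K F := .of_algebraMap_eq fun _ => rfl
  exact ⟨F, _, _, _, this, ψ, (ψ.restrictScalars k).comp (iota K σ), h0, h1, fun _ => rfl,
    gen_of_frac ψ h1, zeta_basis hg hz ψ h0 (gen_of_frac ψ h1)⟩

end PG

end Pool.Agent.Lib.A35.G
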