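import Pool.Agent.Lib.A35.Di25
import Pool.Agent.Lib.A35.PGK

/-! The new subvariety through the generic point. -/

open IsLocalRing Set Pool.Agent.Lib.A35.T Pool.Agent.Lib.A35.G

noncomputable section

namespace Pool.Agent.Lib.A35.Di

section ind
variable {k R F : Type} [Field k] [CommRing R] [Algebra k R] [Field F] [Algebra k F]

theorem Ind.mono {P : Ideal R} {r r' : ℕ} (h : Ind k r P) (hr : r' ≤ r) : Ind k r' P := by
  obtain ⟨x, hx⟩ := h
  exact ⟨x ∘ Fin.castLE hr, hx.comp _ (Fin.castLE_injective hr)⟩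

theorem Ind.le {P : Ideal R} (ψ : R →ₐ[k] F) (hψ : ∀ r, ψ r = 0 ↔ r ∈ P) {d r : ℕ}
    {y : Fin d → F} (hy : IsTranscendenceBasis k y) (h : Ind k r P) : r ≤ d := by
  obtain ⟨x, hx⟩ := h
  have h1 := (hx.map' (f := Ideal.Quotient.liftₐ P ψ fun r => (hψ r).2)
    ((injective_iff_map_eq_zero _).2 fun r hr => by
      obtain ⟨r, rfl⟩ := Ideal.Quotient.mk_surjective r
      exact Ideal.Quotient.eq_zero_iff_mem.2 ((hψ r).1 hr))).cardinalMk_le_trdeg
  rw [← hy.cardinalMk_eq_trdeg] at h1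
  simpa using h1

theorem ind_of {P : Ideal R} (ψ : R →ₐ[k] F) (hψ : ∀ r ∈ P, ψ r = 0) {r : ℕ} (x : Fin r → R)
    (hx : AlgebraicIndependent k fun i => ψ (x i)) : Ind k r P :=
  ⟨x, AlgebraicIndependent.of_comp (Ideal.Quotient.liftₐ P ψ hψ) hx⟩

theorem exists_fin_basis {P : Ideal R} (ψ : R →ₐ[k] F) (hψ : ∀ r ∈ P, ψ r = 0)
    (hg : IntermediateField.adjoin k (range ψ) = ⊤) {d : ℕ} (hd : ¬ Ind k d P) :
    ∃ d' < d, ∃ x : Fin d' → F, IsTranscendenceBasis k x := by
  have : Algebra.IsAlgebraic (Algebra.adjoin k (range ψ)) F := by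
    rw [← IntermediateField.isAlgebraic_adjoin_iff_top, hg, Algebra.isAlgebraic_iff_isIntegral]
    exact Algebra.isIntegral_of_surjective IntermediateField.topEquiv.surjective
  obtain ⟨t, hts, ht⟩ := exists_isTranscendenceBasis_subset (R := k) (range ψ)
  have h1 : ∀ r (e : Fin r ↪ t), r < d := fun r e => by
    choose x hx using fun i => hts (e i).2
    refine lt_of_not_ge fun h => hd ((ind_of ψ hψ x ?_).mono h)
    simp only [hx]
    exact ht.1.comp _ e.injective
  have h2 : Finite t := by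
    by_contra h
    have := not_finite_iff_infinite.1 h
    exact lt_irrefl d (h1 d (Fin.valEmbedding.trans (Infinite.natEmbedding t)))
  obtain ⟨n, ⟨e⟩⟩ := Finite.exists_equiv_fin t
  exact ⟨n, h1 n e.symm.toEmbedding, _, ht.comp_equiv e.symm⟩

end ind

section pt
variable {k L K K₁ : Type} [Field k] [Field L] [Field K] [Field K₁] [Algebra k L] [Algebra k K]
  [Algebra k K₁] [Algebra K K₁] [IsScalarTower k K K₁] {σ : L →ₐ[k] K₁}

/-- The point defined by a prime of the germ. -/
theorem exists_pt (P : Ideal (Germ K σ)) [P.IsPrime] :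
    ∃ (F : Type) (_ : Field F) (_ : Algebra K F) (_ : Algebra k F) (_ : IsScalarTower k K F)
      (σ' : L →ₐ[k] F) (φ : Germ K σ →ₐ[K] Germ K σ'),
      IntermediateField.adjoin K (range σ') = ⊤ ∧ (∀ x, φ (iota K σ x) = iota K σ' x) ∧
      (∀ r, rho K σ' (φ r) = 0 ↔ r ∈ P) ∧ maximalIdeal (Germ K σ') = P.map φ := by
  obtain ⟨F, _, _, ψ, h0, h1⟩ := exists_fracField K P
  let _ : Algebra k F := ((algebraMap K F).comp (algebraMap k K)).toAlgebra
  have : IsScalarTower k K F := .of_algebraMap_eq fun _ => rfl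
  let σ' : L →ₐ[k] F := (ψ.restrictScalars k).comp (iota K σ)
  obtain ⟨φ, p1, p2, p3, p4⟩ := exists_phi' (σ := σ) (σ' := σ') (AlgHom.id k K) ψ.toRingHom
    (fun c => ψ.commutes c) fun _ => rfl
  have h2 : ∀ r, rho K σ' (φ r) = 0 ↔ r ∈ P := fun r => by
    rw [p4]
    exact h0 r
  refine ⟨F, inferInstance, inferInstance, inferInstance, inferInstance, σ', ⟨φ, p1⟩,
    gen_of_frac ψ h1, p2, h2, le_antisymm ?_
      (Ideal.map_le_iff_le_comap.2 fun r hr => mem_max.2 ((h2 r).2 hr))⟩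
  rw [max_eq_map, Ideal.map_le_iff_le_comap]
  intro a ha
  have h3 : φ (mkG K σ a) = mkG K σ' a := by
    rw [p3, bc, Algebra.TensorProduct.map_id]
    rfl
  rw [Ideal.mem_comap, ← h3]
  refine Ideal.mem_map_of_mem _ ((h2 _).1 ?_)
  rw [h3, rho_mkG]
  exact ha

end pt

section det

theorem der_zero {k K R M : Type} [Field k] [Field K] [CharZero K] [Algebra k K] [CommRing R]
    [Algebra K R] [AddCommGroup M] [Module R M] (E : Derivation ℤ R M) (s : Set K)
    [Algebra.IsAlgebraic (Algebra.adjoin k s) K]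
    (h1 : ∀ c : k, E (algebraMap K R (algebraMap k K c)) = 0)
    (h2 : ∀ c ∈ s, E (algebraMap K R c) = 0) (c : K) : E (algebraMap K R c) = 0 := by
  let _ : Module K M := Module.compHom M (algebraMap K R)
  have hs : ∀ (a : K) (m : M), a • m = algebraMap K R a • m := fun _ _ => rfl
  refine (Module.forall_dual_apply_eq_zero_iff K _).1 fun f => ?_
  have h3 : ∀ a b : K, f (E (algebraMap K R (a * b))) =
      a * f (E (algebraMap K R b)) + b * f (E (algebraMap K R a)) := fun a b => by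
    rw [map_mul, E.leibniz, ← hs, ← hs, map_add, map_smul, map_smul, smul_eq_mul, smul_eq_mul]
  let δ : K →ₗ[k] K :=
    { toFun := fun a => f (E (algebraMap K R a))
      map_add' := fun a b => by simp only [map_add]
      map_smul' := fun a b => by
        rw [Algebra.smul_def, h3, h1, map_zero, mul_zero, add_zero, RingHom.id_apply,
          Algebra.smul_def] }
  exact DFunLike.congr_fun (der_eq_zero_of_isAlgebraic (Derivation.mk' δ h3) s fun x hx => by
    change f (E (algebraMap K R x)) = 0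
    rw [h2 x hx, map_zero]) c

theorem exists_other {k K F : Type} [Field k] [Field K] [Field F] [Algebra k K] [Algebra K F]
    [Algebra k F] [IsScalarTower k K F] (l : K →ₐ[k] F) {d d' : ℕ} {t : Fin d → K}
    (ht : IsTranscendenceBasis k t) {x : Fin d' → F} (hx : IsTranscendenceBasis K x) :
    ∃ y : Fin d' → F, Algebra.IsAlgebraic (Algebra.adjoin l.fieldRange (range y)) F := by
  have h1 := trdeg_add_eq k K (A := F)
  have h2 := trdeg_add_eq k l.fieldRange (A := F)
  have h3 : Algebra.trdeg k K = Algebra.trdeg k l.fieldRange :=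
    (AlgEquiv.ofInjectiveField l).trdeg_eq
  rw [← h3, ← h1, ← ht.cardinalMk_eq_trdeg, ← hx.cardinalMk_eq_trdeg] at h2
  obtain ⟨ι, y, hy⟩ := exists_isTranscendenceBasis' l.fieldRange F
  rw [← hy.cardinalMk_eq_trdeg, add_comm, add_comm (Cardinal.mk (Fin d))] at h2
  obtain ⟨e⟩ := Cardinal.eq.1 (Cardinal.eq_of_add_eq_add_right h2 Cardinal.mk_lt_aleph0)
  exact ⟨_, (hy.comp_equiv e.symm).isAlgebraic⟩

variable {k k0 L K F : Type} [Field k] [Field k0] [Field L] [Field K] [Field F] [Algebra k k0]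
  [Algebra k L] [Algebra k K] [Algebra k0 K] [IsScalarTower k k0 K] [Algebra k F] [Algebra K F]
  [IsScalarTower k K F] {σ : L →ₐ[k] K} {σ' : L →ₐ[k] F}

/-- The hypotheses of DET at a point of the variety of a pointed germ. -/
theorem exists_detQ [CharZero k0] (hg : IntermediateField.adjoin k0 (range σ) = ⊤) {d : ℕ}
    {z : Fin d → L} (hz : IsTranscendenceBasis k0 fun j => σ (z j))
    {δ : Fin d → Derivation k0 K K} (hδ : ∀ i j, δ i (σ (z j)) = if i = j then 1 else 0)
    {D : Fin d → Derivation ℤ (Germ K σ) (Germ K σ)}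
    (hD1 : ∀ i c, D i (algebraMap K _ c) = algebraMap K _ (δ i c))
    (hD2 : ∀ i x, D i (iota K σ x) = 0) (hg' : IntermediateField.adjoin K (range σ') = ⊤)
    (φ : Germ K σ →ₐ[K] Germ K σ') (hφ : ∀ x, φ (iota K σ x) = iota K σ' x)
    (hp : ∀ r ∈ pgI k0 σ, rho K σ' (φ r) = 0) {d' : ℕ} {x : Fin d' → F}
    (hx : IsTranscendenceBasis K x) :
    ∃ (k₀ : Type) (_ : Field k₀) (_ : CharZero k₀) (_ : Algebra k₀ F)
      (lam : k₀ →+* Germ K σ' ⧸ (pgI k0 σ).map φ)
      (D' : Fin d → Derivation ℤ (Germ K σ') (Germ K σ')) (y : Fin d' → F),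
      DetQ (rho K σ' : Germ K σ' →+* F) ((pgI k0 σ).map φ) lam D'
        (fun j => algebraMap K _ (σ (z j))) ∧ (∀ i r, φ (D i r) = D' i (φ r)) ∧
      Algebra.IsAlgebraic (Algebra.adjoin k₀ (range y)) F := by
  have : CharZero K := charZero_of_injective_algebraMap (algebraMap k0 K).injective
  have : CharZero F := charZero_of_injective_algebraMap (algebraMap K F).injective
  let _ : Algebra k0 F := ((algebraMap K F).comp (algebraMap k0 K)).toAlgebra
  have : IsScalarTower k0 K F := .of_algebraMap_eq fun _ => rfl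
  obtain ⟨lam0, l1, l2, -⟩ := exists_lam (σ := σ) hg
  choose E e1 e2 using fun i => exists_derL (σ := σ') ((δ i).restrictScalars k)
  have hE : ∀ i r, φ (D i r) = toZ (E i) (φ r) := fun i r =>
    (der_comm (φ : Germ K σ →+* Germ K σ') (D i) (E i) (fun c => by
      simp only [RingHom.coe_coe, hD1, AlgHom.commutes, e1]; rfl) (fun x => by
      simp only [RingHom.coe_coe, hD2, hφ, e2, map_zero]) r).symm
  set p' := (pgI k0 σ).map φ with hp'
  have hpres : ∀ i, ∀ r ∈ p', E i r ∈ p' := fun i r hr => by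
    refine Submodule.span_induction (p := fun r _ => E i r ∈ p') ?_ (by simp)
      (fun a b _ _ ha hb => ?_) (fun a b hb hb' => ?_) hr
    · rintro _ ⟨r, hr, rfl⟩
      refine (hE i r) ▸ Ideal.mem_map_of_mem _ (der_pgI (D i) (fun c => ?_) (hD2 i) r hr)
      rw [hD1, Derivation.map_algebraMap, map_zero]
    · rw [map_add]
      exact add_mem ha hb
    · rw [smul_eq_mul, Derivation.leibniz, smul_eq_mul, smul_eq_mul]
      exact add_mem (Ideal.mul_mem_left _ _ hb') (Ideal.mul_mem_right _ _ hb)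
  let lam1 : K →+* Germ K σ' ⧸ p' :=
    (Ideal.quotientMap p' (φ : Germ K σ →+* Germ K σ') Ideal.le_comap_map).comp lam0
  have m1 : ∀ x, lam1 (σ x) = Ideal.Quotient.mk _ (iota K σ' x) := fun x => by
    rw [RingHom.comp_apply, l1, Ideal.quotientMap_mk, RingHom.coe_coe, hφ]
  have m2 : ∀ c : k0, lam1 (algebraMap k0 K c) =
      Ideal.Quotient.mk _ (algebraMap K _ (algebraMap k0 K c)) := fun c => by
    rw [RingHom.comp_apply, l2, Ideal.quotientMap_mk, RingHom.coe_coe, AlgHom.commutes]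
  let ρq : (Germ K σ' ⧸ p') →+* F := Ideal.Quotient.lift p' (rho K σ' : Germ K σ' →+* F)
    (Ideal.map_le_iff_le_comap (K := RingHom.ker (rho K σ' : Germ K σ' →+* F)).2 hp)
  let l : K →ₐ[k0] F := ⟨ρq.comp lam1, fun c => by
    change ρq (lam1 _) = _
    rw [m2]
    exact (rho K σ').commutes _⟩
  let e : K ≃ₐ[k0] l.fieldRange := AlgEquiv.ofInjectiveField l
  obtain ⟨y, hy⟩ := exists_other l hz hx
  have kill : ∀ i c a, Ideal.Quotient.mk p' a = lam1 c → E i a ∈ p' := fun i c => by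
    have hc : c ∈ IntermediateField.adjoin k0 (range σ) := hg ▸ IntermediateField.mem_top
    have ex : ∀ {c} (b : Germ K σ'), Ideal.Quotient.mk p' b = lam1 c → E i b ∈ p' →
        ∀ a, Ideal.Quotient.mk p' a = lam1 c → E i a ∈ p' := fun b h1 h2 a h3 => by
      have := add_mem (hpres i _ (Ideal.Quotient.eq.1 (h3.trans h1.symm))) h2
      rwa [map_sub, sub_add_cancel] at this
    induction hc using IntermediateField.adjoin_induction with
    | mem x hx =>
      obtain ⟨x, rfl⟩ := hx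
      exact ex _ (m1 x).symm (e2 i x ▸ zero_mem _)
    | algebraMap c =>
      refine ex _ (m2 c).symm ?_
      rw [e1]
      simp
    | add x y _ _ hx hy =>
      obtain ⟨a, ha⟩ := Ideal.Quotient.mk_surjective (lam1 x)
      obtain ⟨b, hb⟩ := Ideal.Quotient.mk_surjective (lam1 y)
      refine ex (a + b) (by rw [map_add, map_add, ha, hb]) ?_
      rw [map_add]
      exact add_mem (hx a ha) (hy b hb)
    | mul x y _ _ hx hy =>
      obtain ⟨a, ha⟩ := Ideal.Quotient.mk_surjective (lam1 x)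
      obtain ⟨b, hb⟩ := Ideal.Quotient.mk_surjective (lam1 y)
      refine ex (a * b) (by rw [map_mul, map_mul, ha, hb]) ?_
      rw [Derivation.leibniz, smul_eq_mul, smul_eq_mul]
      exact add_mem (Ideal.mul_mem_left _ _ (hy b hb)) (Ideal.mul_mem_left _ _ (hx a ha))
    | inv x _ hx =>
      intro b hb
      rcases eq_or_ne x 0 with rfl | h0
      · exact hx b (by rwa [inv_zero] at hb)
      obtain ⟨a, ha⟩ := Ideal.Quotient.mk_surjective (lam1 x)
      have h1 : a * b - 1 ∈ p' := Ideal.Quotient.eq.1 (by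
        rw [map_mul, ha, hb, ← map_mul, mul_inv_cancel₀ h0, map_one, map_one])
      have h2 := hpres i _ h1
      rw [map_sub, Derivation.map_one_eq_zero, sub_zero, Derivation.leibniz, smul_eq_mul,
        smul_eq_mul] at h2
      have h3 : E i b = b * (a * E i b + b * E i a) - b * b * E i a - (a * b - 1) * E i b := by
        ring
      rw [h3]
      exact sub_mem (sub_mem (Ideal.mul_mem_left _ _ h2) (Ideal.mul_mem_left _ _ (hx a ha)))
        (Ideal.mul_mem_right _ _ h1)
  have hl : ∀ c, (lam1.comp (e.symm : l.fieldRange →+* K)) (e c) = lam1 c := fun c =>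
    congrArg lam1 (e.symm_apply_apply c)
  refine ⟨l.fieldRange, inferInstance, inferInstance, inferInstance,
    lam1.comp (e.symm : l.fieldRange →+* K), fun i => toZ (E i), y,
    ⟨rho_surj hg', fun a c h => ?_, fun j a c h => kill j _ a h, fun i j => ?_,
      fun M _ _ G h1 h2 => ?_⟩, hE, hy⟩
  · obtain ⟨c, rfl⟩ := e.surjective c
    rw [hl] at h
    exact congrArg ρq h
  · change rho K σ' (E i _) = _
    rw [e1, AlgHom.commutes]
    change algebraMap K F (δ i _) = _
    rw [hδ]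
    split_ifs <;> simp
  · have := hz.isAlgebraic
    refine Derivation.ext (leib_zero (RingHom.id _) G G.map_add G.leibniz
      (der_zero (k := k0) G (range fun j => σ (z j)) (fun c => h1 _ (e (algebraMap k0 K c)) ?_) ?_)
      fun x => h1 _ (e (σ x)) ?_)
    · rw [hl, m2]
    · rintro _ ⟨j, rfl⟩
      exact h2 j
    · rw [hl, m1]

end det

section step
variable {k κ L K : Type} [Field k] [Field κ] [Field L] [Field K] [Algebra k κ] [Algebra k L]
  [Algebra k K] [Algebra κ K] [IsScalarTower k κ K] {σ : L →ₐ[k] K}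

theorem gr_spn (W : ℕ → Submodule k L) (hm : ∀ i j, W i * W j ≤ W (i + j)) (h1 : (1 : L) ∈ W 1)
    (h0 : (1 : L) ∈ W 0) : Gr fun j => spn κ σ (W j) where
  mul := fun i j _ _ hx hy => spn_mul (hm i j) (Submodule.mul_mem_mul hx hy)
  mono := monotone_nat_of_le_succ fun j => spn_mono fun x hx => by
    simpa using hm j 1 (Submodule.mul_mem_mul hx h1)
  one := one_mem_spn h0

theorem spn_map {T : Type} [CommRing T] [Algebra κ T] (ψ : Germ κ σ →ₐ[κ] T) (W : Submodule k L) :
    (spn κ σ W).map ψ.toLinearMap = Submodule.span κ ((fun x => ψ (iota κ σ x)) '' W) := by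
  rw [spn, Submodule.map_span, image_image]
  rfl

theorem finrank_img_spn {T : Type} [CommRing T] [Algebra κ T] (ψ : Germ κ σ →ₐ[κ] T)
    {p : Ideal (Germ κ σ)} (hψ : ∀ r, ψ r = 0 ↔ r ∈ p) (W : Submodule k L) :
    Module.finrank κ (img (spn κ σ W) p) =
      Module.finrank κ (Submodule.span κ ((fun x => ψ (iota κ σ x)) '' W)) := by
  rw [← spn_map]
  exact finrank_map_eq _ _ _ fun e _ => Ideal.Quotient.eq_zero_iff_mem.trans (hψ e).symm

/-- One step of the descent: the point is cut out, or there is a smaller variety. -/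
theorem step [CharZero κ] [Algebra.EssFiniteType k L]
    (hg : IntermediateField.adjoin κ (range σ) = ⊤) {n d : ℕ} (h0d : 0 < d) (hn : d ≤ n)
    {z : Fin d → L} (hz : IsTranscendenceBasis κ fun j => σ (z j)) (W : ℕ → Submodule k L)
    (hm : ∀ i j, W i * W j ≤ W (i + j)) (h1 : (1 : L) ∈ W 1) (h0 : (1 : L) ∈ W 0)
    (hW : IntermediateField.adjoin k (W 1 : Set L) = ⊤) (hf : ∀ j, FiniteDimensional k (W j))
    {g e e₁ : ℕ}
    (hlo : ∀ j, g * (j + d).choose d ≤ Module.finrank K (img (spn K σ (W (j + e))) (pgI κ σ)))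
    (hup : ∀ j, Module.finrank K (img (spn K σ (W j)) (pgI κ σ)) ≤ g * (j + e₁ + d).choose d)
    {V δ : ℝ} (hV0 : 0 < V) (hV : V ^ d = g) (hδ : 0 < δ) (hδ' : δ < 1 / 2) {Λ : ℝ} {w c : ℕ}
    (hT : Tow (fun j => spn K σ (W j)) (pgI κ σ) Λ w c) :
    (∃ lam c', Lev (fun j => spn K σ (W j)) (pgI κ σ) (maximalIdeal (Germ K σ)) lam d c' ∧
      lam * ((1 - 2 * δ) * V) ≤ 1) ∨
    ∃ (F : Type) (_ : Field F) (_ : Algebra K F) (_ : Algebra k F) (_ : IsScalarTower k K F)
      (σ' : L →ₐ[k] F) (d' : ℕ) (x : Fin d' → F), IntermediateField.adjoin K (range σ') = ⊤ ∧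
      IsTranscendenceBasis K x ∧ 0 < d' ∧ d' < d ∧
      (∃ l c', Tow (fun j => spn K σ' (W j)) (maximalIdeal (Germ K σ')) (Λ + l) (w + d) c' ∧
        l * V ≤ 2 * n / δ) ∧
      ∀ (g' e' : ℕ) (V' : ℝ), (∀ j, g' * (j + d').choose d' ≤
        Module.finrank K (Submodule.span K (σ' '' W (j + e')))) → V' ^ d' = g' →
        V' ≤ cB n δ * V := by
  have : CharZero K := charZero_of_injective_algebraMap (algebraMap κ K).injective
  have := germ_noeth (κ := K) (σ := σ)
  obtain ⟨dd, D, T, t1, t2, t3, -⟩ := exists_pgTay hg hz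
  have hp := pgI_prime hg hz
  obtain ⟨K₁, _, _, _, _, ψ, -, q1, -, -, -, q2⟩ := exists_K1 hg hz
  have hd : ¬ Ind K (d + 1) (pgI κ σ) := fun h => absurd (h.le ψ q1 q2) (by omega)
  rcases dich T (fun r => ⟨_, sub_rho r⟩) (fun Q hQ => le_maximalIdeal hQ.ne_top) hp
    (gr_spn W hm h1 h0) (exists_unit_spn W hm h1 h0 hW)
    (fun j i x hx => der_spn (D i) (dd i) (t1 i) (t2 i) hx) (Fintype.card_fin d) h0d hd hlo hV0 hV
    hδ hδ' with h | ⟨P, hP, p1, p2, a, b, Λ', k1, k2, k3, k4, k5, k6⟩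
  · exact Or.inl h
  obtain ⟨F, _, _, _, _, σ', φ, f1, f2, f3, f4⟩ := exists_pt P
  have hψ : ∀ x, ((rho K σ').comp φ) (iota K σ x) = σ' x := fun x => by
    rw [AlgHom.comp_apply, f2, rho_iota]
  obtain ⟨d', hd', x, hx⟩ := exists_fin_basis (d := d) ((rho K σ').comp φ) (fun r => (f3 r).2)
    (top_le_iff.1 (f1 ▸ IntermediateField.adjoin.mono _ _ _
      (range_subset_iff.2 fun x => ⟨_, hψ x⟩))) fun h => hd (h.succ hp p1)
  have h0' : 0 < d' := ((ind_zero (k := K) (maximalIdeal.isMaximal _).ne_top).succ hP p2).le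
    ((rho K σ').comp φ) f3 hx
  obtain ⟨k₀, _, _, _, lam, D', y, H, hD, hy⟩ := exists_detQ hg hz t3 t1 t2 f1 φ f2
    (fun r hr => (f3 r).2 (p1.le hr)) hx
  have := germ_noeth (κ := K) (σ := σ')
  have hS : ∀ j, spn K σ' (W j) = (spn K σ (W j)).map φ.toLinearMap := fun j => by
    rw [spn_map]
    simp only [f2]
    rfl
  have key := fun (g' e' : ℕ) (V' : ℝ) (h : ∀ j, g' * (j + d').choose d' ≤
      Module.finrank K (Submodule.span K (σ' '' W (j + e')))) (h' : V' ^ d' = g') =>
    caseB (S := fun j => spn K σ (W j)) (S' := fun j => spn K σ' (W j)) (e' := e') φ (rho K σ') H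
      (fun r => f4 ▸ mem_max.symm) (fun r => (f3 r).1) hD (gr_spn W hm h1 h0)
      (fun j => have := hf j; spn_fd _) hS (exists_unit_spn W hm h1 h0 hW) (Fintype.card_fin d)
      h0' hd'.le hn y hy hup (fun j => by
        rw [spn_map, show (fun x => rho K σ' (iota K σ' x)) = σ' from funext rho_iota]
        exact h j) hV0 hV h' hδ (by linarith) k1 k2 k3 k4 k5 k6
  refine Or.inr ⟨F, inferInstance, inferInstance, inferInstance, inferInstance, σ', d', x, f1, hx,
    h0', hd', ?_, fun g' e' V' h h' => (key g' e' V' h h').2⟩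
  obtain ⟨l, c', hl, hl'⟩ := (key 0 0 0 (by simp) (by simp [h0'.ne'])).1
  have h2 := (hT.map (S' := fun j => spn K σ' (W j)) (φ : Germ K σ →+* Germ K σ')
    fun j x hx => (hS j).ge ⟨x, hx, rfl⟩).step hl
  exact ⟨l, c + c', f4 ▸ h2, hl'⟩

end step

end Pool.Agent.Lib.A35.Di
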