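import Pool.Agent.Lib.A35.GenW
import Pool.Agent.Lib.A35.B_CUR
import Pool.Agent.Lib.A35.Di25b
import Pool.Agent.Lib.A35.BCH

/-! The genus of a curve along which sections vanishing at a point generate the jets. -/

open Module Set

set_option linter.unusedSectionVars false

noncomputable section

namespace Pool.Agent.Lib.A35

open Pool.Agent.Lib.MP_7fcda1_ag Pool.Agent.Lib.UR G T

namespace GEN

/-- The passage to the limit. -/
theorem lim {d r A c : ℝ} (hr : 0 ≤ r)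
    (h : ∀ N₀ : ℕ, ∃ N : ℕ, N₀ ≤ N ∧ d * (N - 1) ≤ r * max 0 (N * A + c)) : d ≤ r * max 0 A := by
  by_contra hd
  have h1 : 0 < d - r * max 0 A := by linarith
  obtain ⟨N₀, h2⟩ := exists_nat_gt ((d + r * |c|) / (d - r * max 0 A))
  obtain ⟨N, h3, h4⟩ := h N₀
  have h5 : (N₀ : ℝ) ≤ N := by exact_mod_cast h3
  have h6 := (div_lt_iff₀ h1).1 (h2.trans_le h5)
  have h7 : (0 : ℝ) ≤ N := Nat.cast_nonneg _
  have h8 : max 0 (N * A + c) ≤ N * max 0 A + |c| :=
    max_le (by positivity) (add_le_add (mul_le_mul_of_nonneg_left (le_max_right _ _) h7)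
      (le_abs_self c))
  nlinarith [mul_le_mul_of_nonneg_left h8 hr]

variable {L κ : Type} [Field L] [Algebra ℂ L] [Field κ] [Algebra ℂ κ] {n a b : ℕ}
  {X : Mod L n} (U : Sys X a b) (V : Pt L κ) {D : Fin n → Derivation ℤ V.R V.R}

/-- The derivations of the model detect the powers of the maximal ideal. -/
theorem det (hD : IsD X D) : DetQ (rho κ V.σ : V.R →+* V.K) ⊥
    ((Ideal.Quotient.mk ⊥).comp (algebraMap κ V.R)) D fun i => iota κ V.σ (X.x i) := by
  have h : ∀ (r : V.R) (c : κ), Ideal.Quotient.mk ⊥ r =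
      ((Ideal.Quotient.mk ⊥).comp (algebraMap κ V.R)) c → r = algebraMap κ _ c := fun r c h =>
    sub_eq_zero.1 (Ideal.mem_bot.1 (Ideal.Quotient.eq.1 h))
  refine ⟨V.surj, fun r c e => ?_, fun j r c e => ?_, fun i j => ?_, fun M _ _ E h1 h2 => ?_⟩
  · rw [h r c e]
    exact (rho κ V.σ).commutes c
  · rw [h r c e, hD.const]
    exact zero_mem _
  · rw [hD.fn, RingHom.coe_coe, rho_iota, X.dual]
    split_ifs <;> simp
  · let _ : Algebra L V.R := (iota κ V.σ).toRingHom.toAlgebra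
    have := charZ L
    have := X.tb.isAlgebraic
    refine Derivation.ext (leib_zero (RingHom.id _) E (map_add E) E.leibniz (fun c => h1 _ c rfl)
      (Di.der_zero (k := ℂ) E (range X.x) (fun c => h1 _ (algebraMap ℂ κ c) ?_)
        (forall_mem_range.2 h2)))
    exact congrArg _ (((iota κ V.σ).commutes c).trans (IsScalarTower.algebraMap_apply ℂ κ _ c))

variable [IsFF κ V.K]

/-- The Hilbert function of the system on the curve. -/
theorem low : 0 < a * V.Dc X + b * V.Hc X ∧ ∃ e : ℕ, ∀ j : ℕ,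
    j * (a * V.Dc X + b * V.Hc X) ≤ finrank κ (V.res (U.U (j + e))) := by
  have := charZ κ
  have hg : Gen κ fun j => V.σ (U.w j) :=
    Mix.gen_pt (σ := (V.σ : L →+* V.K)) (CUR.hc V) V.gen U.gen
  have h1 : dg κ (opt fun j => V.σ (U.w j)) = a * V.Dc X + b * V.Hc X := by
    rw [← neg_neg (_ + _), ← GW.deg_mu U V, dg, GW.mu]
    congr 3
    funext o
    cases o <;> simp [opt]
  obtain ⟨C⟩ := st_EXC κ V.K _ _ (rep 1 fun j => V.σ (U.w j))
  obtain ⟨e, _, h2⟩ := H91.BCH.slope hg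
  rw [← h1]
  refine ⟨?_, e, fun j => (h2 j).1.trans ?_⟩
  · rw [← H91.BCH.crv κ V.K _ _ hg H91.BCH.dim_ff C]
    exact_mod_cast (H91.BCH.hsl κ V.K _ _ 1 hg H91.BCH.dim_ff C).1
  · rw [← CUR.res_sys, ← CUR.res_pow]
    exact_mod_cast Submodule.finrank_mono (t := V.res (U.U (j + e))) (V.res_mono (le_cl _))

end GEN

theorem st_GEN : St_GEN := by
  intro L _ _ c X u m U κ _ _ _ V _ D s Λ t ω D₀ W hu hD hC h0 hW
  have := charZ κ
  have := X.noeth κ V.σ
  have hd := GEN.det V hD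
  have hk : RingHom.ker (rho κ V.σ : V.R →+* V.K) = V.m := ker_rho
  obtain ⟨B, hB⟩ := GW.jet U c.succ_pos hD s h0 hW fun i f hf h => by
    simpa only [hk, sup_bot_eq] using hd.mem_succ i (by rwa [hk, sup_bot_eq]) h
  obtain ⟨y, hy⟩ := H91.BCH.dim_ff (k := κ) (L := V.K)
  obtain ⟨h1, e, h2⟩ := GEN.low U V
  obtain ⟨g, hg⟩ := exists_RR κ V.K
  obtain ⟨c₀, hC⟩ := hC
  have hE := GW.Ec_nonneg (X := X) (V := V) s
  obtain ⟨H, hH⟩ : ∃ H, H = m * V.Dc X + V.Hc X := ⟨_, rfl⟩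
  have h3 : (u * m : ℕ) * V.Dc X + u * V.Hc X = u * H := by
    rw [hH]
    push_cast
    ring
  rw [h3] at h1 h2 hB
  have h4 : 0 < H := (mul_pos_iff_of_pos_left (Int.natCast_pos.2 hu)).1 h1
  have h5 : (m * V.Dc X + V.Hc X : ℝ) = H := by
    rw [hH]
    push_cast
    rfl
  rw [h5, ← sub_le_iff_le_add', ← sub_sub]
  refine (GEN.lim (r := 2 * (c + 1)) (c := c₀ * H + e * (u * H) + g) (by positivity)
    fun N₀ => ?_).trans (mul_le_mul_of_nonneg_right (by linarith) (le_max_left _ _))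
  obtain ⟨N, j, a1, a2, a3⟩ := hC (N₀ + 1)
  obtain ⟨a, ha⟩ : ∃ a : ℕ, (a : ℤ) = N * B + (N * t : ℕ) * V.Ec X s :=
    ⟨_, Int.toNat_of_nonneg (by positivity)⟩
  have := Submodule.finiteDimensional_of_le (GW.Zg_le U hD s (N * t) ω (a + e + j))
  have a4 := hd.length_ge_sum y hy.isAlgebraic (e := c + 1) (by simp) N
  rw [hk, sup_bot_eq] at a4
  have a5 := a3.cnt (IsLocalRing.maximalIdeal.isMaximal _) (rho κ V.σ) (fun _ => V.mem_m.symm)
    (fun _ => IsLocalRing.notMem_maximalIdeal.1) (U.S κ V.σ (a + e))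
    (GW.Zg U hD s (N * t) ω (a + e + j)) (GW.Zg_mul U hD s (N * t) ω (a + e) j) a4
  rw [Sys.S, ← V.res_eq] at a5
  have a6 := hB (N * t) ω (a + e + j) N g (a * (u * H)) (by omega) hg
    (by
      have b1 : (0 : ℤ) ≤ a := Int.natCast_nonneg _
      have b2 : (0 : ℤ) ≤ e + j := by positivity
      have b3 : (0 : ℤ) ≤ g := Int.natCast_nonneg _
      rw [← ha]
      push_cast
      nlinarith)
    ((mul_le_mul_of_nonneg_left (h2 a) (Int.natCast_nonneg _)).trans (by exact_mod_cast a5))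
  refine ⟨N, by omega, ?_⟩
  have a7 := (Int.cast_le (R := ℝ)).2 a6
  push_cast at a7
  refine a7.trans (mul_le_mul_of_nonneg_left (max_le_max le_rfl ?_) (by positivity))
  have a8 : (0 : ℝ) ≤ H := by exact_mod_cast h4.le
  nlinarith [mul_le_mul_of_nonneg_right a2 a8]

end Pool.Agent.Lib.A35
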