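import Pool.Agent.Lib.A35.B_SYS

/-! The Hilbert function of a generating system at a point. -/

open Module Submodule Set

noncomputable section

namespace Pool.Agent.Lib.A35

open Pool.Agent.Lib.MP_7fcda1_ag Pool.Agent.Lib.UR

namespace HIL
variable {L : Type} [Field L] [Algebra ℂ L] {κ : Type} [Field κ] [Algebra ℂ κ] (V : Pt L κ)

theorem mem_res {U : Submodule ℂ L} {x : L} (h : x ∈ U) : V.σ x ∈ V.res U :=
  subset_span ⟨x, h, rfl⟩

theorem res_le {U : Submodule ℂ L} {U' : Submodule κ V.K} (h : ∀ x ∈ U, V.σ x ∈ U') :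
    V.res U ≤ U' := span_le.2 (by rintro _ ⟨x, hx, rfl⟩; exact h x hx)

theorem res_mono {U U' : Submodule ℂ L} (h : U ≤ U') : V.res U ≤ V.res U' :=
  res_le V fun _ hx => mem_res V (h hx)

theorem res_span (S : Set L) : V.res (span ℂ S) = span κ (V.σ '' S) := by
  refine le_antisymm (res_le V fun x hx => ?_) (span_mono (image_mono subset_span))
  have h : span ℂ S ≤ ((span κ (V.σ '' S)).restrictScalars ℂ).comap V.σ.toLinearMap :=
    span_le.2 fun z hz => subset_span (R := κ) ⟨z, hz, rfl⟩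
  exact h hx

theorem res_mul (U U' : Submodule ℂ L) : V.res (U * U') = V.res U * V.res U' := by
  rw [mul_eq_span_mul_set, res_span, image_mul, ← span_mul_span]
  rfl

theorem res_pow (U : Submodule ℂ L) (j : ℕ) : V.res (U ^ j) = V.res U ^ j := by
  induction j with
  | zero => rw [pow_zero, pow_zero, one_eq_span, res_span, image_singleton, map_one, one_eq_span]
  | succ j ih => rw [pow_succ, pow_succ, res_mul, ih]

theorem res_sys {τ : Type} (w : τ → L) : V.res (sys ℂ w) = sys κ fun j => V.σ (w j) := by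
  rw [sys, res_span, image_insert_eq, map_one, ← range_comp]
  rfl

theorem res_cl (U : Submodule ℂ L) : V.res (cl U) ≤ cl (V.res U) :=
  res_le V fun x hx O hO => by
    obtain ⟨u, hu, h1⟩ := hx (O.comap (V.σ : L →+* V.K)) fun c => by
      obtain ⟨c', h⟩ := SYS.hc V c
      rw [ValuationSubring.mem_comap, h]
      exact hO c'
    obtain ⟨a, ha⟩ := (ValuationSubring.valuation_le_iff _ _ _).1 h1
    refine ⟨V.σ u, mem_res V hu, (ValuationSubring.valuation_le_iff _ _ _).2 ⟨⟨V.σ a, a.2⟩, ?_⟩⟩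
    rw [← ha, map_mul]

end HIL

theorem st_HIL : St_HIL := fun L _ _ n X κ _ _ V e k a b U hd hk => by
  have : CharZero κ := charZero_of_injective_algebraMap (algebraMap ℂ κ).injective
  have hU := (SYS.cls U).cl (SYS.hc V) V.gen (SYS.p_ne X) U.gen
  obtain ⟨C⟩ := st_EXC κ V.K _ _ (rep (e + 1) fun j => V.σ (U.w j))
  have h1 : C.deg = Mix.pw k (e + 1) 0 a b := by
    have := hk.top _ _ _ hU C
    rw [← Mix.pw_nat] at this
    exact Nat.cast_injective (R := ℤ) this
  have hg : Gen κ fun j => V.σ (U.w j) := hU.1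
  obtain ⟨e₁, h2⟩ := Mix.hHSU κ V.K _ _ (e + 1) hg hd C
  obtain ⟨-, e₂, h3⟩ := Mix.hHSL κ V.K _ _ (e + 1) hg hd C
  have h4 : ∀ j, V.res (U.U j) ≤ cl (sys κ (fun j => V.σ (U.w j)) ^ j) := fun j => by
    rw [← HIL.res_sys, ← HIL.res_pow]
    exact HIL.res_cl V _
  have h5 : ∀ j, FiniteDimensional κ (V.res (U.U j)) := fun j =>
    have := (h2 j).1
    Submodule.finiteDimensional_of_le (h4 j)
  refine ⟨e₁ + e₂, fun j => ⟨h5 j, ?_, ?_⟩⟩
  · have := (h2 j).1
    exact ((Submodule.finrank_mono (h4 j)).trans (h2 j).2).trans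
      (h1 ▸ Nat.mul_le_mul_left _ (Nat.choose_le_choose _ (by omega)))
  · have := h5 (j + (e₁ + e₂))
    refine (h1 ▸ h3 j).trans (Submodule.finrank_mono ?_)
    refine (pow_mono' (one_mem_sys _) (show j + e₂ ≤ j + (e₁ + e₂) by omega)).trans ?_
    rw [← HIL.res_sys, ← HIL.res_pow]
    exact HIL.res_mono V (le_cl _)

end Pool.Agent.Lib.A35
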