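import Pool.Agent.Lib.A35.B_NMB
import Pool.Agent.Lib.A35.Dual

/-! The first state of the descent. -/

open Module Filter Topology IsLocalRing
open scoped TensorProduct

noncomputable section

namespace Pool.Agent.Lib.A35

open Pool.Agent.Lib.UR G

namespace INI

theorem asy {a b d E : ℕ} (h : ∀ j, a * (j + d).choose d ≤ b * (j + E).choose d) : a ≤ b := by
  have h1 := ((st_ASY d 1 d).1.const_mul (a : ℝ))
  have h2 := ((st_ASY d 1 E).1.const_mul (b : ℝ))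
  have h3 := le_of_tendsto_of_tendsto' h1 h2 fun j => by
    rw [mul_one, ← mul_div_assoc, ← mul_div_assoc]
    exact div_le_div_of_nonneg_right (by exact_mod_cast h j) (by positivity)
  exact_mod_cast le_of_mul_le_mul_right h3 (by positivity)

theorem gp_max (L : Type) [Field L] [Algebra ℂ L] : (Pt.gp L).m = ⊥ := by
  have : cen ℂ (AlgHom.id ℂ L) = ⊥ := by
    refine eq_bot_iff.2 fun a ha => ?_
    obtain ⟨x, rfl⟩ := (Algebra.TensorProduct.lid ℂ L).symm.surjective a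
    rw [mem_cen, Algebra.TensorProduct.lid_symm_apply, ev_tmul, map_one, one_mul] at ha
    rw [show x = 0 from ha, map_zero]
    exact Ideal.zero_mem _
  exact max_eq_map.trans ((congrArg (Ideal.map _) this).trans Ideal.map_bot)

end INI

theorem st_INI (hSYS : St_SYS) (hNUM : St_NUM) (hHIL : St_HIL) (hBIG : St_BIG) (hPGX : St_PGX) :
    St_INI := by
  intro L _ _ e X hN hB T
  have hd : Dim ℂ (Pt.gp L).K (e + 1) := ⟨X.x, X.tb⟩
  obtain ⟨k₀, n₀, -⟩ := hNUM L _ X ℂ (Pt.gp L) e hN hd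
  have z₀ : k₀ (e + 1) = 0 := by
    by_contra h
    exact hB (hBIG L e X k₀ n₀ (Nat.pos_of_ne_zero h))
  set c := (e + 1) * Mix.pw k₀ e 0 1 1 with hc
  obtain ⟨m, hm⟩ := exists_nat_gt (|T| ^ (e + 1) * c)
  have m0 : 0 < m := Nat.cast_pos.1 (lt_of_le_of_lt (by positivity) hm)
  obtain ⟨u, u0, ⟨U⟩⟩ := hSYS L _ X m
  have := Du.essFin U.gen
  obtain ⟨G, φ, -, hp, hf⟩ := hPGX L ℂ (Pt.gp L) _ hd
  obtain ⟨k, n₁, k1⟩ := hNUM L _ X _ G.V1 e hN G.dim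
  obtain ⟨e₀, h₀⟩ := hHIL L _ X ℂ (Pt.gp L) e k₀ _ _ U hd n₀
  obtain ⟨e₁, h₁⟩ := hHIL L _ X _ G.V1 e k _ _ U G.dim n₁
  have a1 : Mix.pw k (e + 1) 0 (u * m) u ≤ Mix.pw k₀ (e + 1) 0 (u * m) u :=
    INI.asy (E := e₁ + e₀ + (e + 1)) fun j => by
      refine (h₁ j).2.2.trans ((hf _ (h₀ _).1).trans ((h₀ _).2.1.trans_eq ?_))
      simp only [add_assoc]
  have a2 : ∀ k : ℕ → ℕ, Mix.pw k (e + 1) 0 (u * m) u = u ^ (e + 1) * Mix.pw k (e + 1) 0 m 1 :=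
    fun k => by rw [← Mix.pw_smul, mul_one]
  rw [a2, a2] at a1
  have a3 : Mix.pw k (e + 1) 0 m 1 ≤ c * m ^ e :=
    (Nat.le_of_mul_le_mul_left a1 (pow_pos u0 _)).trans ((NMB.le z₀ m).trans (by
      rw [hc, mul_assoc, mul_comm _ (m ^ e)]
      exact Nat.mul_le_mul_left _ (Mix.pw_le k₀ e 0 m0)))
  have f0 : (0 : ℝ) < (Mix.pw k (e + 1) 0 m 1 : ℕ) := by
    exact_mod_cast m0.trans_le (NMB.ge k1 e m)
  set v : ℝ := ((Mix.pw k (e + 1) 0 m 1 : ℕ) : ℝ) ^ (((e + 1 : ℕ) : ℝ)⁻¹) with ev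
  have hv : v ^ (e + 1) = (Mix.pw k (e + 1) 0 m 1 : ℕ) :=
    Real.rpow_inv_natCast_pow f0.le e.succ_ne_zero
  have v0 : 0 < v := Real.rpow_pos_of_pos f0 _
  refine ⟨u, m, U, _, _, _, G, k, 0, v, 0, 0, n₁, k1, u0, m0, le_rfl, ?_, by simp, v0, hv, by simp,
    (mul_le_mul_of_nonneg_right (le_abs_self T) v0.le).trans ?_⟩
  · rw [← hp, INI.gp_max, Ideal.map_bot]
    exact Tow.zero le_rfl
  · refine le_of_pow_le_pow_left₀ e.succ_ne_zero (by positivity) ?_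
    rw [mul_pow, hv]
    calc _ ≤ |T| ^ (e + 1) * (c * m ^ e) := by gcongr; exact_mod_cast a3
      _ ≤ m * m ^ e := by rw [← mul_assoc]; gcongr
      _ = _ := (pow_succ' _ _).symm

end Pool.Agent.Lib.A35
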