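import Pool.Agent.Lib.A35.Blue
import Pool.Agent.Lib.A35.HTC
import Pool.Agent.Lib.UR.B_JB

/-! The degree of `c D - r K` on a curve through the generic point is not negative. -/

open Module Submodule Set Filter IsLocalRing

noncomputable section

namespace Pool.Agent.Lib.A35

open Pool.Agent.Lib.MP_7fcda1_ag Pool.Agent.Lib.UR G

theorem st_KDC : St_KDC := by
  intro L _ _ n X κ _ _ V _
  obtain ⟨g, hg, h⟩ := X.eff
  have hy : X.y ≠ 0 := fun h0 => (X.sm 0).1 (congrFun h0 0)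
  have hp : X.p ≠ 0 := fun h0 => by
    obtain ⟨S, hS, -⟩ := X.free 0 ⊥ Ideal.isPrime_bot
    exact hS (congrFun h0 S)
  have hG : gaussT X.d X.y ≠ 0 := JB.gauss_ne (X.sm 0).2.1 (X.sm 0).1 X.dual
  have h1 := H91.st_HTC ℂ L κ V.K V.σ _ _ _ _ _ _ _ _ g _ _ _ _ hG hy hp hy hg h
  simp only [Pt.Kc, Pt.Dc, Pt.Hc, Mod₀.G]
  push_cast at h1
  linarith

end Pool.Agent.Lib.A35
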