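import Pool.Agent.Lib.A35.Blue

/-! The theorem for the canonical class. -/

open Submodule

noncomputable section

namespace Pool.Agent.Lib.A35

open Pool.Agent.Lib.UR

theorem st_KIN (hMAIN : St_MAIN) (hFRG : St_FRG) : St_KIN := by
  intro L _ _ e X N hN hH
  have hE : Eff (e + 2) X.y X.G (e + 1 + 1) (gaussT X.d X.y) 1 1 :=
    ⟨1, one_ne_zero, by rw [← Submodule.one_eq_span, one_mul]; exact le_cl _⟩
  exact Mix.kodaira_ge X.tb X.dual (fun h => (X.sm 0).1 (congrFun h 0))
    (hMAIN L e
      { toMod₀ := X, τ := _, p := X.G, q := e + 2, c := 1, r := 1, rpos := one_pos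
        free := hFRG L _ X, nef := hN, eff := hE } N hH)

end Pool.Agent.Lib.A35
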