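import Pool.Agent.Lib.A35.Blue

/-! The descent. -/

set_option linter.unusedVariables false

noncomputable section

namespace Pool.Agent.Lib.A35

theorem MAIN.mono {L : Type} [Field L] [Algebra ℂ L] {n : ℕ} {X : Mod L n} {e : ℕ} {C T T' : ℝ}
    (h : X.Has e C T) (hT : T' ≤ T) : X.Has e C T' := by
  obtain ⟨u, m, U, κ, _, _, G, k, Λ, v, w, c, S⟩ := h
  exact ⟨u, m, U, κ, _, _, G, k, Λ, v, w, c,
    { S with hT := (mul_le_mul_of_nonneg_right hT S.vpos.le).trans S.hT }⟩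

theorem st_MAIN (hNDD : St_NDD) (hINI : St_INI) (hSTP : St_STP) (hSTA : St_STA) : St_MAIN := by
  intro L _ _ e X N hH
  have hN := hNDD L _ X N hH
  by_contra hb
  obtain ⟨δ, h0, h1, hA⟩ := hSTA L _ X N hH
  obtain ⟨B, hB, hS⟩ := hSTP (e + 1) δ h0 h1
  have key : ∀ (d : ℕ) (C : ℝ), ∃ T, ∀ e' < d, ¬ X.Has e' C T := by
    intro d
    induction d with
    | zero => exact fun C => ⟨0, fun _ h => absurd h (by omega)⟩
    | succ d ih =>
      intro C
      obtain ⟨T₁, h₁⟩ := hA C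
      obtain ⟨T₂, h₂⟩ := ih ((C + 2 * (e + 1 : ℕ) / δ) * B)
      refine ⟨max T₁ (T₂ * B), fun e' he' h => ?_⟩
      obtain ⟨u, m, U, κ, _, _, G, k, Λ, v, w, c, S⟩ := h
      rcases hS L X u m U κ e' G k Λ v C _ w c hN S with ⟨lam, c', hL, hl⟩ | ⟨e'', he'', h⟩
      · exact h₁ u m U κ e' G k Λ v lam w c c'
          { S with hT := (mul_le_mul_of_nonneg_right (le_max_left _ _) S.vpos.le).trans S.hT } hL hl
      · exact h₂ e'' (by omega) (MAIN.mono h
          ((le_div_iff₀ (by linarith)).2 (le_max_right _ _)))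
  obtain ⟨T, hT⟩ := key (e + 1) 0
  exact hT e (by omega) (hINI L e X hN hb T)

end Pool.Agent.Lib.A35
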