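import Pool.Agent.Lib.A35.Kit
import Pool.Agent.Lib.A35.BCH

/-! Positivity on curves over an arbitrary field of constants. -/

open Module Set

noncomputable section

namespace Pool.Agent.Lib.A35

open Pool.Agent.Lib.MP_7fcda1_ag Pool.Agent.Lib.UR

theorem st_NDD : St_NDD := by
  intro L _ _ n X N h κ _ _ V hd
  have := charZ κ
  have : IsFF κ V.K := Dim.isFF
    (Mix.gen_pt (σ := (V.σ : L →+* V.K)) (fun c => ⟨_,
      (V.σ.commutes c).trans (IsScalarTower.algebraMap_apply ℂ κ V.K c)⟩) V.gen X.gen) hd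
  obtain ⟨kb, Fb, _, _, _, _, _, _, _, _, _, _, c, hc, -, hg, e⟩ := H91.st_BCH κ V.K
  let : Algebra ℂ kb := ((algebraMap κ kb).comp (algebraMap ℂ κ)).toAlgebra
  let : Algebra ℂ Fb := ((algebraMap κ Fb).comp (algebraMap ℂ κ)).toAlgebra
  have : IsScalarTower ℂ kb Fb := .of_algebraMap_eq fun x =>
    IsScalarTower.algebraMap_apply κ kb Fb _
  have : IsScalarTower ℂ V.K Fb := .of_algebraMap_eq fun x => by
    rw [IsScalarTower.algebraMap_apply ℂ κ V.K, ← IsScalarTower.algebraMap_apply]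
    rfl
  have h1 := (h kb Fb ((IsScalarTower.toAlgHom ℂ V.K Fb).comp V.σ)
    (H91.BCH.gen_up V.gen hg)).1
  have h2 : (0 : ℤ) < c := by exact_mod_cast hc
  rw [Pt.Dc, Pt.Hc, e, e, mul_left_comm, ← mul_sub]
  exact mul_pos h2 (sub_pos.2 h1)

end Pool.Agent.Lib.A35
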