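import Pool.Agent.Lib.A35.Blue

/-! Elementary bounds for the intersection numbers. -/

namespace Pool.Agent.Lib.A35

namespace NMB

theorem ge {k : ℕ → ℕ} (h : 0 < k 1) (e m : ℕ) : m ≤ Mix.pw k (e + 1) 0 m 1 := by
  have := Finset.single_le_sum
    (f := fun j => (e + 1).choose j * m ^ j * 1 ^ (e + 1 - j) * k (j + 0))
    (fun _ _ => Nat.zero_le _) (Finset.mem_range.2 (by omega : 1 < e + 1 + 1))
  refine le_trans ?_ this
  simp only [Nat.choose_one_right, pow_one, one_pow, mul_one, add_zero]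
  exact (Nat.le_mul_of_pos_left m e.succ_pos).trans (Nat.le_mul_of_pos_right _ h)

theorem le {k : ℕ → ℕ} {e : ℕ} (h : k (e + 1) = 0) (m : ℕ) :
    Mix.pw k (e + 1) 0 m 1 ≤ (e + 1) * Mix.pw k e 0 m 1 := by
  rw [Mix.pw, Mix.pw, Finset.sum_range_succ, add_zero, h, Finset.mul_sum]
  simp only [Nat.cast_id, mul_zero, add_zero, one_pow, mul_one]
  refine Finset.sum_le_sum fun j hj => ?_
  have h1 : (e + 1).choose j ≤ (e + 1) * e.choose j := by
    rw [mul_comm, Nat.choose_mul_succ_eq]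
    exact Nat.le_mul_of_pos_right _ (Nat.sub_pos_of_lt (Finset.mem_range.1 hj))
  rw [← mul_assoc, ← mul_assoc]
  gcongr

end NMB

theorem st_NMB : St_NMB := fun k e m h1 h => by
  have h0 : k (e + 1) = 0 := by
    by_contra h0
    exact absurd ((Nat.le_mul_of_pos_right _ (Nat.pos_of_ne_zero h0)).trans
      (Mix.pw_ge k (e + 1) 0 m 1)) (not_le.2 h)
  refine ⟨Nat.pos_of_ne_zero fun e0 => ?_, NMB.ge h1 e m, NMB.le h0 m⟩
  rw [e0] at h0
  exact h1.ne' h0

end Pool.Agent.Lib.A35
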