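import Pool.Agent.Lib.A35.B_SYS

/-! The numbers of a point. -/

open Module Submodule Set

noncomputable section

namespace Pool.Agent.Lib.A35

open Pool.Agent.Lib.MP_7fcda1_ag Pool.Agent.Lib.UR

namespace NUM
variable {L : Type} [Field L] [Algebra ℂ L] {n : ℕ} (X : Mod L n) {κ : Type} [Field κ]
  [Algebra ℂ κ] (V : Pt L κ)

/-- The constants of a point over `V`. -/
@[reducible] def alg (E : Mix.Ext κ V.K) : Algebra ℂ E.k' := (E.ψ.comp (algebraMap ℂ κ)).toAlgebra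

/-- A point over `V` is a point. -/
@[reducible] def pt (E : Mix.Ext κ V.K) : @Pt L E.k' _ _ _ (alg V E) :=
  letI := alg V E
  letI : Algebra ℂ E.K' := (E.φ.comp (algebraMap ℂ V.K)).toAlgebra
  { K := E.K'
    t1 := IsScalarTower.of_algebraMap_eq fun c => by
      change E.φ (algebraMap ℂ V.K c) = algebraMap E.k' E.K' (E.ψ (algebraMap ℂ κ c))
      rw [← E.comm, ← IsScalarTower.algebraMap_apply]
    σ := ⟨E.φ.comp V.σ, fun c => congrArg E.φ (V.σ.commutes c)⟩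
    gen := E.gen_map V.gen }

theorem ht_y [IsFF κ V.K] : dg κ (opt fun j => V.σ (X.y j)) = V.Hc X := by
  have h1 := Mix.HD.sys (SYS.hc V) X.y
  rw [← SYS.span_eq] at h1
  exact congrArg (fun D => -degD D) (h1.eq (SYS.hc V) (Mix.HD.span (SYS.hc V) fun h =>
    one_ne_zero (X.y0.symm.trans (congrFun h 0))) rfl)

include X in
theorem isFF (h : Dim κ V.K 1) : IsFF κ V.K :=
  Dim.isFF (Mix.gen_pt (SYS.hc V) V.gen (SYS.gen X)) h

theorem yH_eq (E : Mix.Ext κ V.K) (h : Dim E.k' E.K' 1) :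
    Mix.yH (V.σ : L →+* V.K) X.y E = @Pt.Hc L _ _ n E.k' _ (alg V E) (pt V E) X := by
  let := alg V E
  have := isFF X (pt V E) h
  exact ht_y X (pt V E)

theorem xD_eq (E : Mix.Ext κ V.K) (h : Dim E.k' E.K' 1) :
    Mix.xD (V.σ : L →+* V.K) X.p X.y X.q E = @Pt.Dc L _ _ n E.k' _ (alg V E) (pt V E) X := by
  rw [Mix.xD, yH_eq X V E h]
  rfl

end NUM

theorem st_NUM : St_NUM := fun L _ _ n X κ _ _ V e hN hd => by
  have : CharZero κ := charZero_of_injective_algebraMap (algebraMap ℂ κ).injective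
  obtain ⟨k, hk⟩ := Mix.num_pt (SYS.hc V) V.gen (SYS.p_ne X) (SYS.gen X) (SYS.dim X) (SYS.nefS X) hd
  obtain ⟨E, h1, h2⟩ := hk.one
  let := NUM.alg V E
  have h3 := hN E.k' (NUM.pt V E) h1
  rw [← NUM.xD_eq X V E h1, ← h2] at h3
  exact ⟨k, hk, by exact_mod_cast h3⟩

end Pool.Agent.Lib.A35
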