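import Pool.Agent.Lib.A35.Kit

/-! The pointed germ of a point exists. -/

namespace Pool.Agent.Lib.A35

open G

theorem st_PGX : St_PGX := by
  intro L _ _ _ κ _ _ V d ⟨x, hx⟩
  have := charZ κ
  obtain ⟨z, hz⟩ := Du.exists_basis V.gen hx
  obtain ⟨δ', δ, h1, h2, h3, h4, -⟩ := exists_pgTay V.gen hz
  obtain ⟨F, _, _, _, _, ψ, σ1, k1, -, k2, k3, k4⟩ := exists_K1 V.gen hz
  obtain ⟨φ, p1, p2, -, -, p3⟩ := exists_pgPhi (k0 := κ) (σ := V.σ)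
  refine ⟨⟨κ, V.σ, V.gen, z, hz, δ', δ, h1, h2, h3, h4, ⟨F, σ1, k3⟩, ψ, fun l => (k2 l).symm, k1,
    ⟨_, k4⟩⟩, φ, ⟨p1, p2⟩, p3, fun W hW => ?_⟩
  have : FiniteDimensional κ (Submodule.span κ (V.σ '' W)) := hW
  have := finrank_pg_le ψ V.gen (fun r => (k1 r).2) W
  rwa [← funext k2] at this

end Pool.Agent.Lib.A35
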