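import Pool.Agent.Lib.A35.Spr3

/-! Generation of jets on the reductions. -/

set_option autoImplicit false
set_option linter.unusedVariables false
set_option linter.unusedSectionVars false

open Filter Polynomial Module Set

noncomputable section

namespace Pool.Agent.Lib.A35

open Pool.Agent.Lib.UR G Car

variable {C L κ : Type} [Field C] [Field L] [Field κ] [Algebra C L] [Algebra C κ] {n : ℕ}
  {z : Fin n → L} {θ : L} {F : (MvPolynomial (Fin n) C)[X]} {s : L →ₐ[C] κ}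

theorem pm_zero {σ A B : Type} [CommRing A] [CommRing B] (f : A → B) :
    pm (σ := σ) f 0 = 0 := by simp [pm]

theorem cq_pp {A B : Type} [CommRing A] [CommRing B] {f : A → B} (h : f 0 = 0) (P : A[X]) (l : ℕ) :
    pp f (cq P l) = cq (pp f P) l := by
  ext j
  rw [coeff_pp h, coeff_cq, coeff_cq, coeff_pp h]

theorem FP.aeval_map {σ : Type} (X : FP σ) (G : (MvPolynomial σ X.k)[X]) :
    aeval X.θ (G.map (algebraMap _ X.B)) = G.eval₂ X.io X.θ := by
  rw [aeval_def, eval₂_map]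
  rfl

theorem FP.aeval_der {σ : Type} (X : FP σ) :
    aeval X.θ X.Fb.derivative = X.F.derivative.eval₂ X.io X.θ :=
  (congrArg (aeval X.θ) (derivative_map _ _)).trans (X.aeval_map _)

theorem FP.aeval_cq {σ : Type} (X : FP σ) (l : ℕ) :
    aeval X.θ (cq X.Fb l) = (cq X.F l).eval₂ X.io X.θ :=
  (congrArg (aeval X.θ) (cq_map _ _ _).symm).trans (X.aeval_map _)

theorem FP.deg_Fb {σ : Type} (X : FP σ) : X.Fb.natDegree = X.F.natDegree :=
  have := X.inj.nontrivial
  X.monic.natDegree_map _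

namespace Spr
variable (S : Spr z θ F s)

theorem bd (hz : AlgebraicIndependent C z)
    [FiniteDimensional (IntermediateField.adjoin C (range z)) L] {j : ℕ} {x : L}
    (hx : x ∈ cl (sys C z ^ j)) : ∀ᶠ i in S.U, S.rL i x ∈ Bd n (S.X i).k (S.X i).O j := by
  obtain ⟨G, h1, h2, -, h3⟩ := exists_eqn hz j hx
  filter_upwards [S.root G h3, (eh_pm (σ := Fin n) S.hC).one] with i k1 k2
  obtain ⟨k3, k4⟩ := monic_pp (pm_zero (S.πC i)) k2 h1
  refine Bd.of_eqn j _ k3 (fun l => ?_) k1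
  rw [coeff_pp (pm_zero _), k4]
  exact (totalDegree_pm _ _).trans (h2 l)

theorem bd_mul (hz : AlgebraicIndependent C z)
    [FiniteDimensional (IntermediateField.adjoin C (range z)) L] {j e : ℕ} {x y : L}
    (hx : x * y ^ e ∈ cl (sys C z ^ j)) :
    ∀ᶠ i in S.U, S.rL i x * S.rL i y ^ e ∈ Bd n (S.X i).k (S.X i).O j := by
  filter_upwards [S.bd hz hx, S.hL.mul x (y ^ e), eh_pow S.hL y e] with i k1 k2 k3
  rwa [k2, k3] at k1

theorem mem_Sb (hz : AlgebraicIndependent C z)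
    [FiniteDimensional (IntermediateField.adjoin C (range z)) L] {β : Type} [Finite β] (b : β → L)
    (γ : L) {u a j : ℕ} {W : Submodule C L}
    (h : ∀ x ∈ W, ∀ l, x * (γ ^ j * b l ^ (u * j)) ∈ cl (sys C z ^ (u * j * a))) :
    ∀ x ∈ spn κ s W, ∀ᶠ i in S.U, S.rR i x ∈
      Sb n (S.X i).k (S.X i).R (range fun l => S.rL i (b l)) (S.rL i γ) u a j := fun x hx => by
  refine eh_mem_span S.hR (fun c => (S.rR_k c).mono fun i h => ⟨_, h⟩) ?_ hx
  rintro _ ⟨y, hy, rfl⟩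
  filter_upwards [S.rR_L y, S.hL.mul y (γ ^ j), eh_pow S.hL γ j,
    eventually_all.2 fun l => S.bd_mul hz (by rw [mul_assoc]; exact h y hy l)] with i k1 k2 k3 k4
  rw [k1]
  refine Car.mem_Sb _ (mem_Tj.2 ?_)
  rintro _ ⟨l, rfl⟩
  rw [← mul_assoc, ← k3, ← k2]
  exact k4 l

theorem rL_der : ∀ᶠ i in S.U,
    S.rL i (evp z θ F.derivative) = aeval (S.X i).θ (S.X i).Fb.derivative := by
  filter_upwards [S.rL_evp F.derivative, derivative_pp (eh_pm (σ := Fin n) S.hC) F] with i k1 k2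
  rw [k1, FP.aeval_der, S.F_eq]
  exact congrArg (fun G => eval₂ _ _ G) k2

theorem rL_cq (l : ℕ) : ∀ᶠ i in S.U,
    S.rL i (evp z θ (cq F l)) = aeval (S.X i).θ (cq (S.X i).Fb l) := by
  filter_upwards [S.rL_evp (cq F l)] with i k1
  rw [k1, FP.aeval_cq, S.F_eq, cq_pp (pm_zero _)]

theorem deg_Fb (i : S.I) : (S.X i).Fb.natDegree = F.natDegree :=
  (S.X i).deg_Fb.trans (S.deg i)

/-- Generation of jets on almost all reductions. -/
theorem core (hz : AlgebraicIndependent C z)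
    [FiniteDimensional (IntermediateField.adjoin C (range z)) L] (hF : evp z θ F.derivative ≠ 0)
    {β : Type} [Fintype β] (b : β → L) {γ : L} (hγ : γ ≠ 0) (g : ℕ → L) {u D r₀ : ℕ} (hu : 0 < u)
    (hr : 0 < r₀) (W : ℕ → Submodule C L) (h1 : (1 : L) ∈ W 1)
    (h0 : ∀ j, ∀ x ∈ W j, ∀ l, x * (γ ^ j * b l ^ (u * j)) ∈ cl (sys C z ^ (u * j * (D + n + 1))))
    (h2 : ∀ r, r₀ ≤ r → g r ≠ 0 ∧ ∀ l, g r * b l ^ r ∈ cl (sys C z ^ (r * (D + n + 1) - (n + 1))))
    {d : ℕ} (hd : 0 < d) (ζ : Fin d → Germ κ s) {G : Set (Germ κ s)} (hG : G.Finite)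
    (hm : ∀ r, rho κ s r = 0 → r ∈ Ideal.span (range ζ) ⊔ Ideal.span G)
    {Lam lam : ℝ} {w c w' c' t : ℕ} (hT : Tow (fun j => spn κ s (W j)) (Ideal.span G) Lam w c)
    (hL : Lev (fun j => spn κ s (W j)) (Ideal.span G) (Ideal.span (range ζ) ⊔ Ideal.span G)
      lam w' c') (hlt : u * (w * Lam + lam * (t + d)) < 1) :
    ∀ᶠ i in S.U, ∀ r : (S.X i).R, ∃ (x : (S.X i).O) (P : β → MvPolynomial (Fin n) (S.X i).k),
      algebraMap _ (S.X i).R x - r ∈ Ideal.span (range fun a => S.rR i (ζ a)) ^ (t + 1) ⊔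
        Ideal.span (S.rR i '' G) ∧ (∀ l, (P l).totalDegree ≤ D) ∧
      (∀ ρ : β → MvPolynomial (Fin n) (S.X i).k, ∑ l, (S.X i).io (ρ l) * S.rL i (b l) = 0 →
        ∑ l, ρ l * P l = 0) ∧
      ∀ (g₀ : (S.X i).O) (e : Fin F.natDegree → β),
        (∀ l, S.rL i (b (e l)) = g₀ * (S.X i).θ ^ (l : ℕ)) →
        x * (g₀ * aeval (S.X i).θ (S.X i).Fb.derivative) =
          ∑ l, (S.X i).io (P (e l)) * aeval (S.X i).θ (cq (S.X i).Fb l) := by
  classical
  have hS := fun j => S.mem_Sb hz b γ (h0 j)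
  rw [← Ideal.span_union] at hm hL
  have hu' : ∀ {x : L}, x ≠ 0 → ∀ᶠ i in S.U, IsUnit (S.rL i x) := fun h =>
    eh_unit S.hL (IsUnit.mk0 _ h)
  filter_upwards [S.rL_der, hu' hF, hu' hγ, Tow.eh S.hR hS hT hG rfl,
    Lev.eh S.hR hS hG ((finite_range ζ).union hG) hL, S.sub_mem hm (IR.image S.hR _),
    eventually_all.2 fun l => S.bd_mul (x := γ) (y := b l) (e := u) (j := u * (D + n + 1)) hz
      (by simpa using h0 1 1 h1 l),
    (eventually_all_finset (Finset.Ico r₀ (r₀ + u))).2 fun r hr =>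
      (hu' (h2 r (Finset.mem_Ico.1 hr).1).1).and
        (eventually_all.2 fun l => S.bd_mul hz ((h2 r (Finset.mem_Ico.1 hr).1).2 l))]
    with i k1 k2 k3 k4 k5 k6 k7 k8 r
  have e1 : ((Finset.univ.image fun a => S.rR i (ζ a) : Finset _) : Set (S.X i).R) =
      range fun a => S.rR i (ζ a) := by simp
  obtain ⟨x, P, l1, l2, l3, l4⟩ := Car.core (S.X i).M (S.X i).M_le (S.X i).Fb (S.X i).monic_Fb
    (k1 ▸ k2) (S.X i).N (fun l => S.rL i (b l)) (S.rL i γ) (fun r => S.rL i (g r)) hu hr k7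
    (fun r h h' => (k8 r (Finset.mem_Ico.2 ⟨h, h'⟩)).imp_left fun h => h.map _) (k3.map _) k4 k5 k6
    (Finset.univ.image fun a => S.rR i (ζ a)) (Finset.card_image_le.trans (by simp)) hd
    (by rw [e1, image_union, Ideal.span_union, ← range_comp]; rfl) hlt r
  refine ⟨x, P, e1 ▸ l1, l2, fun ρ h => l3 ρ (by simp only [Algebra.smul_def]; exact h),
    fun g₀ e he => ?_⟩
  rw [← mul_assoc, l4 g₀ (fun l => e (l.cast (S.deg_Fb i))) fun l => he _]
  exact Fintype.sum_equiv (finCongr (S.deg_Fb i)) _ _ fun l => Algebra.smul_def _ _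

/-- The jet map reduces. -/
theorem jet (P : Pres z θ F) {d t : ℕ} (ζ : Fin d → Germ κ s) {G : Set (Germ κ s)} (hG : G.Finite)
    (hm : ∀ r, rho κ s r = 0 → r ∈ Ideal.span (range ζ) ⊔ Ideal.span G)
    (j : Germ κ s →ₐ[κ] Jt (Fin d) κ t) (h1 : ∀ a, j (ζ a) = Ideal.Quotient.mk _ (.X a))
    (h2 : ∀ r ∈ G, j r = 0) : ∃ jb : ∀ i, (S.X i).R → Jt (Fin d) (S.X i).k t,
      (∀ᶠ i in S.U, ∃ J : (S.X i).R →ₐ[(S.X i).k] Jt (Fin d) (S.X i).k t, (∀ x, jb i x = J x) ∧
        (∀ a, J (S.rR i (ζ a)) = Ideal.Quotient.mk _ (.X a)) ∧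
        ∀ x ∈ Ideal.span (range fun a => S.rR i (ζ a)) ^ (t + 1) ⊔ Ideal.span (S.rR i '' G),
          J x = 0) ∧
      ∀ α h r, ∀ᶠ i in S.U, co α h (jb i (S.rR i r)) = S.π i (co α h (j r)) := by
  obtain ⟨f, f1, f2, f3, f4⟩ := exists_redJ (τ := Fin d) (t := t) S.hπ
  have e1 : ∀ r, eps (j r) = rho κ s r := fun r => by
    have k1 : Ideal.span (range ζ) ⊔ Ideal.span G ≤ RingHom.ker (eps.comp j.toRingHom) :=
      sup_le (Ideal.span_le.2 (range_subset_iff.2 fun a =>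
        (congrArg eps (h1 a)).trans (by rw [eps_mk]; simp)))
        (Ideal.span_le.2 fun x hx => (congrArg eps (h2 x hx)).trans (map_zero _))
    have k2 : eps (j (r - algebraMap κ _ (rho κ s r))) = 0 := k1 (hm _ (by simp))
    rwa [map_sub, map_sub, AlgHom.commutes, eps_alg, sub_eq_zero] at k2
  obtain ⟨jb, j1, j2⟩ := S.lift P (fun i => eps) (fun i => isUnit_of_eps) (fun i => eps_alg)
    (eh_comp_right f1 j.toRingHom) (fun a => by
      filter_upwards [f2 (.C a), eh_pm_C (σ := Fin d) S.hπ a] with i k1 k2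
      rw [k2] at k1
      exact (congrArg (f i) (j.commutes a)).trans k1)
    fun r => (f4 (j r)).mono fun i h => h.trans (congrArg _ (e1 r))
  refine ⟨jb, ?_, fun α h r => ?_⟩
  · filter_upwards [j1, eventually_all.2 fun a => j2 (ζ a), eventually_all.2 fun a => f2 (.X a),
      eventually_all.2 fun a : Fin d => eh_pm_X S.hπ a, eh_zero f1,
      (eventually_all_finite hG).2 fun x _ => j2 x] with i ⟨J, k1, k2⟩ k3 k4 k5 k6 k7
    have k8 : ∀ a, J (S.rR i (ζ a)) = Ideal.Quotient.mk _ (.X a) := fun a => by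
      rw [← k1, k3, ← k5, ← k4]
      exact congrArg _ (h1 a)
    refine ⟨{ J with commutes' := k2 }, k1, k8, fun x hx => ?_⟩
    refine (sup_le (Ideal.map_eq_bot_iff_le_ker _ |>.1 ?_) (Ideal.span_le.2 ?_) :
      _ ≤ RingHom.ker J) hx
    · rw [Ideal.map_pow, Ideal.map_span, ← range_comp, ← Ideal.map_quotient_self
        (Ideal.span (range (MvPolynomial.X : Fin d → MvPolynomial (Fin d) (S.X i).k)) ^ (t + 1)),
        Ideal.map_pow, Ideal.map_span, ← range_comp]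
      exact congrArg (fun v => Ideal.span (range v) ^ (t + 1)) (funext k8)
    · rintro _ ⟨y, hy, rfl⟩
      exact (k1 _).symm.trans ((k7 y hy).trans ((congrArg (f i) (h2 y hy)).trans k6))
  · filter_upwards [j2 r, f3 α h (j r)] with i k1 k2
    rw [k1]
    exact k2

end Spr

/-! ### Traces in characteristic zero -/

theorem tr_sum {β : Type} [Fintype β] [FiniteDimensional (IntermediateField.adjoin C (range z)) L]
    (ρ : β → MvPolynomial (Fin n) C) (b : β → L) (x : L)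
    (h : ∑ l, MvPolynomial.aeval z (ρ l) * b l = 0) :
    ∑ l, phK z (ρ l) * Algebra.trace (IntermediateField.adjoin C (range z)) L (x * b l) = 0 := by
  have := congrArg (fun y => Algebra.trace (IntermediateField.adjoin C (range z)) L (x * y)) h
  simp only [Finset.mul_sum, map_sum, mul_zero, map_zero] at this
  rw [← this]
  refine Finset.sum_congr rfl fun l _ => ?_
  rw [← alg_phK, ← Algebra.smul_def, mul_smul_comm, map_smul, smul_eq_mul]

theorem exists_rel (P : Pres z θ F) {g₀ : L} (h0 : g₀ ≠ 0) {γ : Type} [Fintype γ] (w : γ → L) :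
    ∃ ρ : γ → Fin F.natDegree ⊕ γ → MvPolynomial (Fin n) C,
      (∀ i, ∑ l, MvPolynomial.aeval z (ρ i l) *
        Sum.elim (fun l : Fin F.natDegree => g₀ * θ ^ (l : ℕ)) w l = 0) ∧
      (∀ i, ρ i (.inr i) ≠ 0) ∧ ∀ i i', i' ≠ i → ρ i (.inr i') = 0 := by
  classical
  choose t ht r hr using fun i => P.expand (w i / g₀)
  refine ⟨fun i => Sum.elim (fun l => -r i l) (Pi.single i (t i)), fun i => ?_,
    fun i => by simpa using ht i, fun i i' h => by simp [h]⟩
  have := congrArg (g₀ * ·) (hr i)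
  simp only [mul_left_comm g₀, mul_div_cancel₀ _ h0, Finset.mul_sum] at this
  simp [Fintype.sum_sum_type, Pi.single_apply, apply_ite, this]

theorem tr_all [FiniteDimensional (IntermediateField.adjoin C (range z)) L]
    [Algebra.IsSeparable (IntermediateField.adjoin C (range z)) L] (hz : AlgebraicIndependent C z)
    (hθ : IntermediateField.adjoin (IntermediateField.adjoin C (range z)) {θ} = ⊤)
    (hF : F.map (phK z).toRingHom = minpoly (IntermediateField.adjoin C (range z)) θ)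
    (hN : F.natDegree = finrank (IntermediateField.adjoin C (range z)) L) {g₀ : L} {γ : Type}
    [Fintype γ] {w : γ → L} {ρ : γ → Fin F.natDegree ⊕ γ → MvPolynomial (Fin n) C}
    (h1 : ∀ i, ∑ l, MvPolynomial.aeval z (ρ i l) *
      Sum.elim (fun l : Fin F.natDegree => g₀ * θ ^ (l : ℕ)) w l = 0)
    (h2 : ∀ i, ρ i (.inr i) ≠ 0) (h3 : ∀ i i', i' ≠ i → ρ i (.inr i') = 0)
    (Q : Fin F.natDegree ⊕ γ → MvPolynomial (Fin n) C) (h4 : ∀ i, ∑ l, ρ i l * Q l = 0) {x : L}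
    (hx : x * (g₀ * evp z θ F.derivative) =
      ∑ l, MvPolynomial.aeval z (Q (.inl l)) * evp z θ (cq F l)) (i : γ) :
    Algebra.trace (IntermediateField.adjoin C (range z)) L (x * w i) = phK z (Q (.inr i)) := by
  have k1 := tr_dual hθ hN (fun l => phK z (Q (.inl l))) (x * g₀) (by
    rw [← hF, derivative_map, aeval_phK, mul_assoc, hx]
    exact Finset.sum_congr rfl fun l _ => by
      rw [← cq_map, aeval_phK, Algebra.smul_def, alg_phK])
  have k2 := tr_sum (ρ i) _ x (h1 i)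
  have k3 := congrArg (phK z) (h4 i)
  simp only [map_add, map_sum, map_mul, map_zero, Fintype.sum_sum_type, Sum.elim_inl, Sum.elim_inr,
    ← mul_assoc, k1] at k2 k3
  rw [Finset.sum_eq_single i (fun i' _ h => by rw [h3 i i' h, map_zero, zero_mul]) (by simp)]
    at k2 k3
  refine mul_left_cancel₀ (a := phK z (ρ i (.inr i))) (fun h => h2 i (hz ?_))
    (add_left_cancel (k2.trans k3.symm))
  rw [← alg_phK, h, map_zero, map_zero]

/-- Generation of jets in characteristic zero. -/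
theorem s_zero (hz : AlgebraicIndependent C z)
    [FiniteDimensional (IntermediateField.adjoin C (range z)) L]
    [Algebra.IsSeparable (IntermediateField.adjoin C (range z)) L]
    (hθ : IntermediateField.adjoin (IntermediateField.adjoin C (range z)) {θ} = ⊤) {e₀ : ℕ}
    (hθ' : θ ∈ cl (sys C z ^ e₀)) (Wb : Submodule C L) [FiniteDimensional C Wb] {g₀ γ : L}
    (hg₀ : g₀ ≠ 0) (hγ : γ ≠ 0)
    (hpw : ∀ l < finrank (IntermediateField.adjoin C (range z)) L, g₀ * θ ^ l ∈ Wb)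
    (g : ℕ → L) {u D r₀ : ℕ} (hu : 0 < u) (hr : 0 < r₀) (W : ℕ → Submodule C L) (h1 : (1 : L) ∈ W 1)
    (h0 : ∀ j, ∀ x ∈ W j, ∀ b ∈ Wb,
      x * (γ ^ j * b ^ (u * j)) ∈ cl (sys C z ^ (u * j * (D + n + 1))))
    (h2 : ∀ r, r₀ ≤ r → g r ≠ 0 ∧
      ∀ b ∈ Wb, g r * b ^ r ∈ cl (sys C z ^ (r * (D + n + 1) - (n + 1))))
    {d : ℕ} (hd : 0 < d) (ζ : Fin d → Germ κ s) {p : Ideal (Germ κ s)}
    (hm : ∀ r, rho κ s r = 0 → r ∈ Ideal.span (range ζ) ⊔ p)
    {Lam lam : ℝ} {w c w' c' t : ℕ} (hT : Tow (fun j => spn κ s (W j)) p Lam w c)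
    (hL : Lev (fun j => spn κ s (W j)) p (Ideal.span (range ζ) ⊔ p) lam w' c')
    (hlt : u * (w * Lam + lam * (t + d)) < 1) (j : Germ κ s →ₐ[κ] Jt (Fin d) κ t)
    (hj : ∀ a, j (ζ a) = Ideal.Quotient.mk _ (.X a)) (hp : ∀ r ∈ p, j r = 0) (V : Submodule C L)
    (hV : ∀ x, (∀ b ∈ Wb, algebraMap (IntermediateField.adjoin C (range z)) L
      (Algebra.trace (IntermediateField.adjoin C (range z)) L (x * b)) ∈ sys C z ^ D) → x ∈ V)
    (r : Germ κ s) : ∃ y ∈ spn κ s V, j y = j r := by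
  classical
  obtain ⟨F, P, hF, hN⟩ := exists_pres hz hθ hθ'
  obtain ⟨G, -, rfl⟩ := hT.gen
  let B := Module.finBasis C Wb
  obtain ⟨ρ, r1, r2, r3⟩ := exists_rel P hg₀ fun i => (B i : L)
  set b := Sum.elim (fun l : Fin F.natDegree => g₀ * θ ^ (l : ℕ)) fun i => (B i : L) with hb
  have hbW : ∀ l, b l ∈ Wb := by
    rintro (l | l)
    exacts [hpw l (hN ▸ l.2), (B l).2]
  have hF' : evp z θ F.derivative ≠ 0 := by
    rw [← aeval_phK, ← derivative_map, hF]
    exact (Algebra.IsSeparable.isSeparable _ θ).aeval_derivative_ne_zero (minpoly.aeval _ θ)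
  have hw := mul_ne_zero hg₀ hF'
  obtain ⟨x, hx⟩ : ∃ x : (Fin F.natDegree ⊕ Fin (finrank C Wb)) × Ex (Fin n) D → L, ∀ I,
      x I * (g₀ * evp z θ F.derivative) = MvPolynomial.aeval z (MvPolynomial.monomial I.2.1 (1 : C)) *
        Sum.elim (fun l : Fin F.natDegree => evp z θ (cq F l)) 0 I.1 :=
    ⟨fun I => _ / _, fun I => div_mul_cancel₀ _ hw⟩
  let M : Fin (finrank C Wb) × (Fin n →₀ ℕ) →
      (Fin F.natDegree ⊕ Fin (finrank C Wb)) × Ex (Fin n) D → C :=
    fun J I => (ρ J.1 I.1 * MvPolynomial.monomial I.2.1 1).coeff J.2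
  let Φ : Germ κ s →ₗ[κ] (Ex (Fin d) t → κ) := LinearMap.pi fun α => co α.1 α.le ∘ₗ j.toLinearMap
  have hΦ : ∀ y α, Φ y α = co α.1 α.le (j y) := fun _ _ => rfl
  by_cases h : Submodule.span κ {v | ∃ Q : _ → C, (∀ J, ∑ I, M J I * Q I = 0) ∧
      v = ∑ I, Q I • Φ (iota κ s (x I))} = ⊤
  · have k1 : Φ r ∈ (spn κ s V).map Φ := by
      refine (Submodule.span_le.2 ?_ : _ ≤ (spn κ s V).map Φ) (h ▸ Submodule.mem_top)
      rintro _ ⟨Q, k1, rfl⟩
      refine ⟨_, iota_mem (hV (∑ I, Q I • x I) fun y hy => ?_), ?_⟩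
      · have k2 := tr_all hz hθ hF hN r1 r2 r3 (pol Q)
          (fun i => MvPolynomial.ext _ _ fun μ => (coeff_rel _ μ Q).symm.trans (k1 (i, μ)))
          (sum_rec _ _ _ x hx Q)
        have k3 := congrArg Subtype.val (B.sum_repr ⟨y, hy⟩)
        simp only [AddSubmonoidClass.coe_finsetSum, SetLike.val_smul] at k3
        rw [← k3, Finset.mul_sum, map_sum, map_sum]
        refine Submodule.sum_mem _ fun i _ => ?_
        rw [mul_smul_comm, LinearMap.map_smul_of_tower, k2, Algebra.smul_def, map_mul,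
          ← IsScalarTower.algebraMap_apply, ← Algebra.smul_def, alg_phK]
        exact Submodule.smul_mem _ _ (POL.aeval_mem _ _ (deg_pol Q _))
      · simp only [map_sum, map_smul, LinearMap.map_smul_of_tower]
    obtain ⟨y, k2, k3⟩ := k1
    refine ⟨y, k2, sub_eq_zero.1 (eq_zero_of_co fun α hα => ?_)⟩
    rw [map_sub]
    exact sub_eq_zero.2 (congrFun k3 ⟨α, (NV.fin_deg t).mem_toFinset.2 hα⟩)
  exfalso
  obtain ⟨ψ, a0, T, μ, k1, k2⟩ := Lin.exists_psi_mult M _ h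
  obtain ⟨S⟩ := P.exists_spr s
  obtain ⟨jb, j1, j2⟩ := S.jet P ζ G.finite_toSet hm j hj fun r h => hp r (Ideal.subset_span h)
  have := S.ne
  have l1 := S.core hz hF' b hγ g hu hr W h1 (fun j x hx l => h0 j x hx _ (hbW l))
    (fun r h => ⟨(h2 r h).1, fun l => (h2 r h).2 _ (hbW l)⟩) hd ζ G.finite_toSet hm hT hL hlt
  have l2 : ∀ I, ∀ᶠ i in S.U, ∑ a, S.π i (ψ a) * co a.1 a.le (jb i (algebraMap _ _ (S.rL i (x I)))) =
      ∑ J ∈ T, S.π i (μ J) * (pm (S.πC i) (ρ J.1 I.1) * MvPolynomial.monomial I.2.1 1).coeff J.2 :=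
    fun I => by
      filter_upwards [eh_sum S.hπ Finset.univ fun a => ψ a * Φ (iota κ s (x I)) a,
        eh_sum S.hπ T fun J => μ J * algebraMap C κ (M J I), S.rR_L (x I),
        eventually_all.2 fun a => S.hπ.mul (ψ a) (Φ (iota κ s (x I)) a),
        (eventually_all_finset T).2 fun J _ => S.hπ.mul (μ J) (algebraMap C κ (M J I)),
        eventually_all.2 fun a : Ex (Fin d) t => j2 a.1 a.le (iota κ s (x I)),
        eventually_all.2 fun i' => (eh_pm S.hC).mul (ρ i' I.1) (MvPolynomial.monomial I.2.1 1),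
        eh_pm_monomial S.hC I.2.1 1, S.hC.one] with i m1 m2 m3 m4 m5 m6 m7 m8 m9
      rw [k2, m2] at m1
      rw [← m3]
      refine (Finset.sum_congr rfl fun a _ => ?_).trans
        (m1.symm.trans (Finset.sum_congr rfl fun J hJ => ?_))
      · rw [m4, m6, hΦ]
      · rw [m5 J hJ, ← m9, ← m8, ← m7, coeff_pm (f := S.πC i) (by rw [Spr.πC, map_zero, S.zero])]
  have l3 : ∀ i', ∀ᶠ i in S.U, ∑ l, (S.X i).io (pm (S.πC i) (ρ i' l)) * S.rL i (b l) = 0 :=
    fun i' => by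
      filter_upwards [eh_sum S.hL Finset.univ fun l => MvPolynomial.aeval z (ρ i' l) * b l,
        eventually_all.2 fun l => S.hL.mul (MvPolynomial.aeval z (ρ i' l)) (b l),
        eventually_all.2 fun l => S.rL_pol (ρ i' l), eh_zero S.hL] with i m1 m2 m3 m4
      rw [r1, m4] at m1
      exact (Finset.sum_congr rfl fun l _ => by rw [m2, m3]).trans m1.symm
  have l4 : ∀ l : Fin F.natDegree, ∀ᶠ i in S.U,
      S.rL i (b (.inl l)) = S.rL i g₀ * (S.X i).θ ^ (l : ℕ) := fun l => by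
    filter_upwards [S.hL.mul g₀ (θ ^ (l : ℕ)), eh_pow S.hL θ l, S.rL_θ] with i m1 m2 m3
    rw [← m3, ← m2, ← m1]
    rfl
  have l5 : ∀ I, ∀ᶠ i in S.U, S.rL i (x I) * (S.rL i g₀ * aeval (S.X i).θ (S.X i).Fb.derivative) =
      (S.X i).io (MvPolynomial.monomial I.2.1 1) *
        Sum.elim (fun l : Fin F.natDegree => aeval (S.X i).θ (cq (S.X i).Fb l)) 0 I.1 := fun I => by
    filter_upwards [S.hL.mul (x I) (g₀ * evp z θ F.derivative), S.hL.mul g₀ (evp z θ F.derivative),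
      S.rL_der, S.hL.mul (MvPolynomial.aeval z (MvPolynomial.monomial I.2.1 (1 : C)))
        (Sum.elim (fun l : Fin F.natDegree => evp z θ (cq F l)) 0 I.1),
      S.rL_pol (MvPolynomial.monomial I.2.1 1), eh_pm_monomial S.hC I.2.1 1, S.hC.one,
      eventually_all.2 fun l : Fin F.natDegree => S.rL_cq l, eh_zero S.hL]
      with i m1 m2 m3 m4 m5 m6 m7 m8 m9
    rw [← m3, ← m2, ← m1, hx, m4, m5, m6, m7]
    rcases I with ⟨l | l, α⟩
    exacts [congrArg _ (m8 l), congrArg _ m9]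
  obtain ⟨i, m1, m2, m3, m4, m5, ⟨J, m6, m7, m8⟩, m9, m10, m11⟩ := (l1.and
    ((eventually_all.2 l2).and ((eventually_all.2 l3).and ((eventually_all.2 l4).and
    ((eventually_all.2 l5).and (j1.and (S.hπ.one.and (S.rL_der.and
    ((eh_unit S.hL (IsUnit.mk0 _ hg₀)).and (eh_unit S.hL (IsUnit.mk0 _ hF'))))))))))).exists
  obtain ⟨y, Q, n1, n2, n3, n4⟩ := m1 (MvPolynomial.aeval (fun a => S.rR i (ζ a))
    (MvPolynomial.monomial a0.1 (1 : (S.X i).k)))
  have n5 := sum_rec (k := (S.X i).k) { (S.X i).io with commutes' := (S.X i).io_C } _ _ _ m5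
    fun I => (Q I.1).coeff I.2.1
  simp only [pol_coeff Q n2] at n5
  have n6 := (m11.1.mul (m10 ▸ m11.2)).mul_right_cancel (n5.trans (n4 _ .inl m4).symm)
  have n7 := Lin.psi_zero _ _ _ T _ m2 (fun I => (Q I.1).coeff I.2.1) fun J _ => by
    rw [coeff_rel (fun l => pm (S.πC i) (ρ J.1 l)) J.2 fun I => (Q I.1).coeff I.2.1]
    simp only [pol_coeff Q n2, n3 _ (m3 J.1), MvPolynomial.coeff_zero]
  have n8 : J (algebraMap _ _ y) = Ideal.Quotient.mk _ (MvPolynomial.monomial a0.1 1) := by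
    rw [sub_eq_zero.1 ((map_sub J _ _).symm.trans (m8 _ n1))]
    exact AlgHom.congr_fun (φ₁ := J.comp (MvPolynomial.aeval fun a => S.rR i (ζ a))) (φ₂ := Ideal.Quotient.mkₐ _ _)
      (MvPolynomial.algHom_ext fun a => by simpa using m7 a) _
  have n9 : ∀ a : Ex (Fin d) t, ∑ I : (Fin F.natDegree ⊕ Fin (finrank C Wb)) × Ex (Fin n) D,
      (Q I.1).coeff I.2.1 * co a.1 a.le (jb i (algebraMap _ _ (S.rL i (x I)))) =
        if a0 = a then 1 else 0 := fun a => by
    have := congrArg (co a.1 a.le) n8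
    rw [co_mk, MvPolynomial.coeff_monomial, ← n6] at this
    simp only [Subtype.ext_iff, ← this, m6, map_sum, Algebra.smul_def, map_mul, FP.alg_k,
      AlgHom.commutes]
    simp only [← Algebra.smul_def, map_smul]
    rfl
  simp [n9, k1, m9] at n7

end Pool.Agent.Lib.A35
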