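import Pool.Agent.Lib.A35.B_SSG
import Pool.Agent.Lib.A35.Spr4

/-! Generation of jets. -/

open Module Submodule Set

noncomputable section

namespace Pool.Agent.Lib.A35

open Pool.Agent.Lib.UR G

theorem st_SS : St_SS := by
  intro L _ _ n X u m U κ _ _ e G Λ lam w c w' c' t hu hm hT hL hlt r
  obtain ⟨S⟩ := st_SSG L n X u m U hu hm
  have := S.fin
  have := S.fd
  have := charZ (IntermediateField.adjoin ℂ (range S.z))
  obtain ⟨j, j1, j2⟩ := G.tay.exists_jetHom G.m_ne G.exists_const (t + 1)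
  obtain ⟨ι, hι⟩ := (isUnit_iota (κ := κ) (σ := G.s) S.c_ne).exists_left_inv
  obtain ⟨y, h1, h2⟩ := s_zero S.ind S.prim S.int S.Wb S.g₀_ne S.γ_ne S.pw S.g hu S.r₀_pos U.U
    (U.one_mem 1) S.h0 S.h2 e.succ_pos G.ζ (fun r h => G.m_eq ▸ mem_max.2 h) hT (G.m_eq ▸ hL) hlt j
    j1 (fun r h => (j2 r).2 (mem_sup_right h)) ((X.SecK m).comap (LinearMap.mulRight ℂ S.c))
    (fun x hx => S.dual x fun b hb => le_cl _ (hx b hb)) (r * ι)
  refine ⟨y * iota κ G.s S.c, spn_mul (W' := span ℂ {S.c}) ?_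
    (mul_mem_mul h1 (iota_mem (mem_span_singleton_self _))), (j2 _).1 ?_⟩
  · refine mul_le.2 fun x hx y hy => ?_
    obtain ⟨a, rfl⟩ := mem_span_singleton.1 hy
    rw [mul_smul_comm]
    exact smul_mem _ _ hx
  · rw [map_sub, map_mul, h2, ← map_mul, mul_assoc, hι, mul_one, sub_self]

end Pool.Agent.Lib.A35
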