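import Pool.Agent.Lib.A35.Blue

/-! The final case of the dichotomy is impossible. -/

open Module Submodule Set Filter IsLocalRing

set_option linter.unusedVariables false

noncomputable section

namespace Pool.Agent.Lib.A35

open Pool.Agent.Lib.MP_7fcda1_ag Pool.Agent.Lib.UR G

theorem STA.isD {L : Type} [Field L] [Algebra ℂ L] {n : ℕ} (X : Mod L n) {κ : Type} [Field κ]
    [Algebra ℂ κ] (V : Pt L κ) : ∃ D : Fin n → Derivation ℤ V.R V.R, IsD X D := by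
  choose D hD using fun a => exists_derR (κ := κ) (σ := V.σ) (X.d a)
  exact ⟨fun a => toZ (D a), fun a c => (D a).map_algebraMap c, hD⟩

theorem st_STA (hNMB : St_NMB) (hSS : St_SS) (hCUR : St_CUR) (hGCH : St_GCH) (hFCT : St_FCT)
    (hGEN : St_GEN) (hKDC : St_KDC) (hARI : St_ARI) : St_STA := by
  intro L _ _ n X N hH
  obtain ⟨δ, h0, h1, hδ⟩ := hARI n N X.c X.r X.rpos
  refine ⟨δ, h0, h1, fun C => ?_⟩
  obtain ⟨T, hT1, hT⟩ := hδ C
  refine ⟨T, fun u m U κ _ _ e G k Λ v lam w c c' S hL hl => ?_⟩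
  have hv := S.vpos
  have hvm : v < m := lt_of_lt_of_le (by nlinarith) S.hT
  have hlt : Mix.pw k (e + 1) 0 m 1 < m ^ (e + 1) := by
    have : ((Mix.pw k (e + 1) 0 m 1 : ℕ) : ℝ) < (m : ℝ) ^ (e + 1) := by
      rw [← S.hv]
      exact pow_lt_pow_left₀ hvm hv.le (by omega)
    exact_mod_cast this
  obtain ⟨he, hm, hB⟩ := hNMB k e m S.k1 hlt
  have hn := S.le
  obtain ⟨c₁, rfl⟩ : ∃ c₁, n = c₁ + 2 := ⟨n - 2, by omega⟩
  have hu : (0 : ℝ) < u := by exact_mod_cast S.upos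
  obtain ⟨t, ω, Λ', ht, hω, g1, g2, g3, g4⟩ := hT e m w (u * Λ) (u * lam) v
    (Mix.pw k e 1 m 1 : ℕ) (Mix.pw k e 0 m 1 : ℕ) (X.rat m) hn
    (le_trans (Nat.le_add_right _ _) S.hw) S.mpos hv (mul_nonneg hu.le S.tow.nonneg)
    (mul_nonneg hu.le hL.nonneg) rfl S.hC hl S.hT (by rw [S.hv]; exact_mod_cast hm)
    (by rw [S.hv, Mix.pw_succ]; push_cast; ring) (Nat.cast_nonneg _)
    (by rw [S.hv]; exact_mod_cast hB)
  have hO := hSS L (c₁ + 1) X u m U κ e G Λ lam w c (e + 1) c' t S.upos S.mpos S.tow hL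
    (by linarith)
  obtain ⟨κ', _, _, _, V, _, Cv, c₀, hc₀, a1, a2, a3, a4⟩ :=
    hCUR L _ X u m U κ e G k t S.upos S.mpos ht S.num hO
  obtain ⟨D, hD⟩ := STA.isD X V
  have hC := hGCH L _ X u m U κ κ' e G t ω V Cv D Λ lam Λ' w c (e + 1) c' S.upos S.mpos hω hD
    S.tow hL g2 g3
  have : CharZero κ' := charZero_of_injective_algebraMap (algebraMap ℂ κ').injective
  obtain ⟨D₀, W, hD₀, hW⟩ := hFCT κ' V.K
  have b1 := hGEN L c₁ X u m U κ' V D _ Λ' t ω D₀ W S.upos hD hC hD₀ hW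
  have b2 := hKDC L _ X κ' V
  have b3 : V.Hc X ≤ N * degD W := (hH κ' V.K V.σ V.gen).2 D₀ W hD₀ hW
  have hc : (0 : ℝ) < c₀ := by exact_mod_cast hc₀
  have a1' : (t : ℝ) ^ e ≤ c₀ * V.Ec X (Cv.f.comp G.s) := by exact_mod_cast a1
  have a2' : (t : ℝ) * V.Ec X (Cv.f.comp G.s) ≤ V.Kc X + m * V.Dc X + V.Hc X := by
    exact_mod_cast a2
  have b2' : (X.r : ℝ) * V.Kc X ≤ X.c * V.Dc X := by exact_mod_cast b2
  have b3' : (V.Hc X : ℝ) ≤ N * degD W := by exact_mod_cast b3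
  refine g4 (c₀ * V.Ec X (Cv.f.comp G.s)) (c₀ * V.Kc X) (c₀ * V.Dc X) (c₀ * V.Hc X)
    (c₀ * degD W) a1' ?_ a3 a4 ?_ ?_ ?_
  · nlinarith [mul_le_mul_of_nonneg_left a2' hc.le]
  · nlinarith [mul_le_mul_of_nonneg_left b2' hc.le]
  · have e1 : max 0 (Λ' * (m * (c₀ * (V.Dc X : ℝ)) + c₀ * V.Hc X) -
        (t - ω) * (c₀ * V.Ec X (Cv.f.comp G.s))) = c₀ * max 0 (Λ' * (m * V.Dc X + V.Hc X) -
        (t - ω) * V.Ec X (Cv.f.comp G.s)) := by
      rw [mul_max_of_nonneg _ _ hc.le, mul_zero]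
      congr 1
      ring
    rw [e1]
    push_cast
    nlinarith [mul_le_mul_of_nonneg_left b1 hc.le]
  · nlinarith [mul_le_mul_of_nonneg_left b3' hc.le]

end Pool.Agent.Lib.A35
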