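import Pool.Agent.Lib.A35.Blue
import Pool.Agent.Lib.A35.Di25b

/-! One step of the descent. -/

open Module Submodule Set IsLocalRing

noncomputable section

namespace Pool.Agent.Lib.A35

open Pool.Agent.Lib.MP_7fcda1_ag Pool.Agent.Lib.UR G

theorem STP.pw_pos {k : ℕ → ℕ} (h : 0 < k 1) (e : ℕ) {m : ℕ} (hm : 0 < m) :
    0 < Mix.pw k (e + 1) 0 m 1 := by
  have := Finset.single_le_sum
    (f := fun j => (e + 1).choose j * m ^ j * 1 ^ (e + 1 - j) * k (j + 0))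
    (fun _ _ => Nat.zero_le _) (Finset.mem_range.2 (show 1 < e + 1 + 1 by omega))
  refine lt_of_lt_of_le ?_ (this.trans (le_of_eq (by simp [Mix.pw])))
  simp only [Nat.choose_one_right, pow_one, one_pow, mul_one, add_zero]
  positivity

theorem STP.root {u m e : ℕ} {k : ℕ → ℕ} {v : ℝ}
    (h : v ^ (e + 1) = (Mix.pw k (e + 1) 0 m 1 : ℕ)) :
    (u * v) ^ (e + 1) = (Mix.pw k (e + 1) 0 (u * m) u : ℕ) := by
  have := Mix.pw_smul k (e + 1) 0 u m 1
  rw [mul_one] at this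
  rw [this, mul_pow, h]
  push_cast
  rfl

theorem st_STP (hNUM : St_NUM) (hHIL : St_HIL) (hPGX : St_PGX) : St_STP := by
  intro n δ hδ hδ'
  have hB := Di.one_le_cB (n := n) hδ (by linarith)
  refine ⟨Di.cB n δ, hB, fun L _ _ X u m U κ _ _ e G k Λ v C T w c hND h => ?_⟩
  have := Du.essFin U.gen
  have : CharZero G.κ₀ := charZero_of_injective_algebraMap (algebraMap ℂ G.κ₀).injective
  have hu : (0 : ℝ) < u := by exact_mod_cast h.upos
  have hv := h.vpos
  have hf : ∀ j, FiniteDimensional ℂ (U.U j) := fun j =>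
    Mix.hFD ℂ L _ U.w n U.gen ⟨X.x, X.tb⟩ _ (fd_pow _ j)
  have hr : ∀ W, finrank κ (img (spn κ G.s W) G.p) = finrank κ (G.V1.res W) := fun W => by
    rw [Di.finrank_img_spn G.π G.ker, show (fun x => G.π (iota κ G.s x)) = G.V1.σ from funext G.hπ]
    rfl
  obtain ⟨e₀, h0⟩ := hHIL L n X κ G.V1 e k _ _ U G.dim h.num
  rcases Di.step G.gen₀ e.succ_pos h.le G.tb U.U
    (fun i j => by rw [Sys.U, Sys.U, Sys.U, pow_add]; exact cl_mul_le _ _)
    (le_cl _ (one_mem_pow (one_mem_sys _) 1)) (le_cl _ (one_mem_pow (one_mem_sys _) 0))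
    (top_le_iff.1 (U.gen.ge.trans (IntermediateField.adjoin.mono _ _ _ (range_subset_iff.2
      fun j => le_cl _ (by rw [pow_one]; exact mem_sys _ j))))) hf
    (fun j => (h0 j).2.2.trans (hr _).ge) (fun j => (hr _).le.trans (h0 j).2.1)
    (mul_pos hu hv) (STP.root h.hv) hδ hδ' h.tow with
    ⟨lam, c', h1, h2⟩ | ⟨F, _, _, _, _, σ', d', x, f1, hx, d0, d1, ⟨l, c', t1, t2⟩, hV⟩
  · exact Or.inl ⟨lam, c', h1, by linarith⟩
  obtain ⟨e', rfl⟩ := Nat.exists_eq_succ_of_ne_zero d0.ne'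
  let V : Pt L κ := { K := F, σ := σ', gen := f1 }
  obtain ⟨G', φ, p1, p2, p3⟩ := hPGX L κ V (e' + 1) ⟨x, hx⟩
  obtain ⟨k', n1, n2⟩ := hNUM L n X F G'.V1 e' hND G'.dim
  obtain ⟨e₁, h1⟩ := hHIL L n X F G'.V1 e' k' _ _ U G'.dim n1
  have hp : (0 : ℝ) < (Mix.pw k' (e' + 1) 0 m 1 : ℕ) := by
    exact_mod_cast STP.pw_pos n2 e' h.mpos
  obtain ⟨v', v0, v1⟩ : ∃ v' : ℝ, 0 < v' ∧ v' ^ (e' + 1) = (Mix.pw k' (e' + 1) 0 m 1 : ℕ) :=
    ⟨_, Real.rpow_pos_of_pos hp _, Real.rpow_inv_natCast_pow hp.le e'.succ_ne_zero⟩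
  have h2 := hV _ e₁ (u * v') (fun j => (h1 j).2.2.trans (p3 _ (by
    have := hf (j + e₁)
    have := spn_fd (κ := κ) (σ := σ') (U.U (j + e₁))
    have h3 := Di.spn_map (rho κ σ') (U.U (j + e₁))
    rw [show (fun x => rho κ σ' (iota κ σ' x)) = σ' from funext rho_iota] at h3
    change FiniteDimensional κ (span κ (σ' '' (U.U (j + e₁))))
    rw [← h3]
    infer_instance))) (STP.root v1)
  have h3 : v' ≤ Di.cB n δ * v := le_of_mul_le_mul_left (by linarith) hu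
  have h4 := t1.nonneg
  have h5 := h.le
  have h6 := h.hw
  refine Or.inr ⟨e', by omega, u, m, U, F, inferInstance, inferInstance, G', k', Λ + l, v',
    w + (e + 1), c', n1, n2, h.upos, h.mpos, by omega,
    p2 ▸ t1.map φ fun j x hx => map_spn _ φ p1.const p1.fn hx, ?_, v0, v1, ?_, ?_⟩
  · have := Nat.mul_le_mul_left n (show e' + 1 ≤ e by omega)
    rw [mul_add n e] at h6
    omega
  · have h7 := mul_le_mul_of_nonneg_left h3 (mul_nonneg hu.le h4)
    have h8 : u * (Λ + l) * v ≤ C + 2 * n / δ := by linarith [h.hC]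
    nlinarith [mul_le_mul_of_nonneg_right h8 (zero_le_one.trans hB)]
  · rw [div_mul_eq_mul_div, div_le_iff₀ (by linarith)]
    have hm : (0 : ℝ) ≤ m := Nat.cast_nonneg m
    rcases le_total 0 T with hT | hT
    · nlinarith [mul_le_mul_of_nonneg_left h3 hT,
        mul_le_mul_of_nonneg_right h.hT (zero_le_one.trans hB)]
    · nlinarith [mul_nonneg hm (zero_le_one.trans hB), mul_nonneg (neg_nonneg.2 hT) v0.le]

end Pool.Agent.Lib.A35
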