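import Pool.Agent.Lib.A35.SDefs

/-! Logarithmic algebraic hyperbolicity along the curves through the generic point. -/

noncomputable section

namespace Pool.Agent.Lib.A35

open Pool.Agent.Lib.MP_7fcda1_ag Pool.Agent.Lib.UR

variable {L ι τ τ' : Type} [Field L] [Algebra ℂ L] (q : ℕ) (y : ι → L) (p : τ → L)

/-- Let `y`, `p`, `G` have classes `H`, `D + q H`, `K + q' H`. Every curve through the generic
point has `D · C > 0` and `H · C ≤ N (r (2 g - 2) + (D - r K) · C)`. -/
def LHyp (q' : ℕ) (G : τ' → L) (r N : ℕ) : Prop :=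
  ∀ (κ F : Type) [Field κ] [IsAlgClosed κ] [Field F] [Algebra ℂ κ] [Algebra κ F] [Algebra ℂ F]
    [IsScalarTower ℂ κ F] [IsFF κ F] (σ : L →ₐ[ℂ] F), Gen κ σ →
    q * ht κ (fun j => σ (y j)) < ht κ (fun S => σ (p S)) ∧
    ∀ (D : Derivation κ F F) (W : Div κ F), D ≠ 0 →
      (∀ (v : Place κ F) (π : F), ord v.O π = 1 → W v = -ord v.O (D π)) →
      ht κ (fun j => σ (y j)) ≤ N * (r * degD W +
        (ht κ (fun S => σ (p S)) - q * ht κ (fun j => σ (y j)) -
          r * (ht κ (fun S => σ (G S)) - q' * ht κ fun j => σ (y j))))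

end Pool.Agent.Lib.A35
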