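import Pool.Agent.Lib.A35.Kit
import Pool.Agent.Lib.A35.BCH
import Pool.Agent.Lib.A35.LDefs
import Pool.Agent.Lib.A35.B_MAIN

/-! The logarithmic form of the theorem. -/

open Module Submodule Set Filter IsLocalRing

set_option linter.unusedVariables false

noncomputable section

namespace Pool.Agent.Lib.A35

open Pool.Agent.Lib.MP_7fcda1_ag Pool.Agent.Lib.UR G

namespace Log
variable {L : Type} [Field L] [Algebra ℂ L]

theorem nd {n : ℕ} (X : Mod L n) {a N : ℕ} (h : LHyp X.q X.y X.p (n + 1) X.G a N) : X.ND := by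
  intro κ _ _ V hd
  have := charZ κ
  have : IsFF κ V.K := Dim.isFF
    (Mix.gen_pt (σ := (V.σ : L →+* V.K)) (fun c => ⟨_,
      (V.σ.commutes c).trans (IsScalarTower.algebraMap_apply ℂ κ V.K c)⟩) V.gen X.gen) hd
  obtain ⟨kb, Fb, _, _, _, _, _, _, _, _, _, _, c, hc, -, hg, e⟩ := H91.st_BCH κ V.K
  let : Algebra ℂ kb := ((algebraMap κ kb).comp (algebraMap ℂ κ)).toAlgebra
  let : Algebra ℂ Fb := ((algebraMap κ Fb).comp (algebraMap ℂ κ)).toAlgebra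
  have : IsScalarTower ℂ kb Fb := .of_algebraMap_eq fun x =>
    IsScalarTower.algebraMap_apply κ kb Fb _
  have : IsScalarTower ℂ V.K Fb := .of_algebraMap_eq fun x => by
    rw [IsScalarTower.algebraMap_apply ℂ κ V.K, ← IsScalarTower.algebraMap_apply]
    rfl
  have h2 : (0 : ℤ) < c := by exact_mod_cast hc
  rw [Pt.Dc, Pt.Hc, e, e, mul_left_comm, ← mul_sub]
  exact mul_pos h2 (sub_pos.2 (h kb Fb ((IsScalarTower.toAlgHom ℂ V.K Fb).comp V.σ)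
    (H91.BCH.gen_up V.gen hg)).1)

theorem sta (hNMB : St_NMB) (hSS : St_SS) (hCUR : St_CUR) (hGCH : St_GCH) (hFCT : St_FCT)
    (hGEN : St_GEN) (hKDC : St_KDC) (hARI : St_ARI) {n : ℕ} (X : Mod L n) {a N : ℕ}
    (hH : LHyp X.q X.y X.p (n + 1) X.G a N) : ∃ δ : ℝ, 0 < δ ∧ δ < 1 / 2 ∧ ∀ C : ℝ, ∃ T : ℝ,
    ∀ (u m : ℕ) (U : Sys X (u * m) u) (κ : Type) [Field κ] [Algebra ℂ κ] (e : ℕ)
      (G : PG L κ (e + 1)) (k : ℕ → ℕ) (Λ v lam : ℝ) (w c c' : ℕ), Sta U G k Λ v C T w c →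
      Lev (U.S κ G.s) G.p G.m lam (e + 1) c' → u * lam * ((1 - 2 * δ) * v) ≤ 1 → False := by
  obtain ⟨δ, h0, h1, hδ⟩ := hARI n (N * (a + 1)) (X.c + X.r) X.r X.rpos
  refine ⟨δ, h0, h1, fun C => ?_⟩
  obtain ⟨T, hT1, hT⟩ := hδ C
  refine ⟨T, fun u m U κ _ _ e G k Λ v lam w c c' S hL hl => ?_⟩
  have hv := S.vpos
  have hvm : v < m := lt_of_lt_of_le (by nlinarith) S.hT
  have hlt : Mix.pw k (e + 1) 0 m 1 < m ^ (e + 1) := by
    have : ((Mix.pw k (e + 1) 0 m 1 : ℕ) : ℝ) < (m : ℝ) ^ (e + 1) := by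
      rw [← S.hv]
      exact pow_lt_pow_left₀ hvm hv.le (by omega)
    exact_mod_cast this
  obtain ⟨he, hm, hB⟩ := hNMB k e m S.k1 hlt
  have hn := S.le
  obtain ⟨c₁, rfl⟩ : ∃ c₁, n = c₁ + 2 := ⟨n - 2, by omega⟩
  have hu : (0 : ℝ) < u := by exact_mod_cast S.upos
  have hr : (0 : ℝ) < X.r := by exact_mod_cast X.rpos
  have hm0 : (0 : ℝ) < m := by exact_mod_cast S.mpos
  have hρ : X.rat m ≤ 1 + (X.c + X.r : ℕ) / (X.r * m) := by
    rw [Mod.rat]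
    push_cast
    gcongr
    linarith
  obtain ⟨t, ω, Λ', ht, hω, g1, g2, g3, g4⟩ := hT e m w (u * Λ) (u * lam) v
    (Mix.pw k e 1 m 1 : ℕ) (Mix.pw k e 0 m 1 : ℕ) _ hn
    (le_trans (Nat.le_add_right _ _) S.hw) S.mpos hv (mul_nonneg hu.le S.tow.nonneg)
    (mul_nonneg hu.le hL.nonneg) rfl S.hC hl S.hT (by rw [S.hv]; exact_mod_cast hm)
    (by rw [S.hv, Mix.pw_succ]; push_cast; ring) (Nat.cast_nonneg _)
    (by rw [S.hv]; exact_mod_cast hB)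
  have hO := hSS L (c₁ + 1) X u m U κ e G Λ lam w c (e + 1) c' t S.upos S.mpos S.tow hL
    (by linarith)
  obtain ⟨κ', _, _, _, V, _, Cv, c₀, hc₀, a1, a2, a3, a4⟩ :=
    hCUR L _ X u m U κ e G k t S.upos S.mpos ht S.num hO
  obtain ⟨D, hD⟩ := exists_isD κ' V.σ X
  have hC := hGCH L _ X u m U κ κ' e G t ω V Cv D Λ lam Λ' w c (e + 1) c' S.upos S.mpos hω hD
    S.tow hL (by linarith) g3
  have := charZ κ'
  obtain ⟨D₀, W, hD₀, hW⟩ := hFCT κ' V.K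
  have b1 := hGEN L c₁ X u m U κ' V D _ Λ' t ω D₀ W S.upos hD hC hD₀ hW
  have b2 := hKDC L _ X κ' V
  have b3 : V.Hc X ≤ N * (a * degD W + (V.Dc X - a * V.Kc X)) := by
    have := (hH κ' V.K V.σ V.gen).2 D₀ W hD₀ hW
    rw [Pt.Dc, Pt.Kc, Pt.Hc]
    exact_mod_cast this
  have b4 : 0 < V.Dc X := sub_pos.2 (hH κ' V.K V.σ V.gen).1
  have hc : (0 : ℝ) < c₀ := by exact_mod_cast hc₀
  have a1' : (t : ℝ) ^ e ≤ c₀ * V.Ec X (Cv.f.comp G.s) := by exact_mod_cast a1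
  have a2' : (t : ℝ) * V.Ec X (Cv.f.comp G.s) ≤ V.Kc X + m * V.Dc X + V.Hc X := by
    exact_mod_cast a2
  have b2' : (X.r : ℝ) * V.Kc X ≤ X.c * V.Dc X := by exact_mod_cast b2
  have b3' : (V.Hc X : ℝ) ≤ N * (a * degD W + (V.Dc X - a * V.Kc X)) := by exact_mod_cast b3
  have b4' : (0 : ℝ) < V.Dc X := by exact_mod_cast b4
  have hρe : X.rat m ^ e ≤ (1 + (X.c + X.r : ℕ) / (X.r * m) : ℝ) ^ e :=
    pow_le_pow_left₀ (zero_le_one.trans (X.one_le_rat m)) hρ e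
  generalize (V.Ec X (Cv.f.comp G.s) : ℝ) = E at *
  generalize (V.Kc X : ℝ) = K at *
  generalize (V.Dc X : ℝ) = Dg at *
  generalize (V.Hc X : ℝ) = H at *
  generalize (degD W : ℝ) = Wd at *
  have hE : 0 ≤ E := (mul_nonneg_iff_of_pos_left hc).1 ((by positivity : (0 : ℝ) ≤ _).trans a1')
  have k1 : K ≤ X.c / X.r * Dg := by
    rw [div_mul_eq_mul_div, le_div_iff₀ hr]
    linarith
  have k2 : 0 ≤ X.c / X.r * Dg := by positivity
  have ha : (0 : ℝ) < a + 1 := by positivity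
  refine g4 (c₀ * E) (c₀ * ((X.c / X.r + 1) * Dg)) (c₀ * Dg) (c₀ * H)
    (c₀ * ((a * Wd + (Dg - a * K)) / (a + 1))) a1' ?_
    (a3.trans (mul_le_mul_of_nonneg_right hρe (Nat.cast_nonneg _)))
    (a4.trans (mul_le_mul_of_nonneg_right hρe (Nat.cast_nonneg _))) ?_ ?_ ?_
  · have : t * E ≤ (X.c / X.r + 1) * Dg + m * Dg + H := by linarith
    linarith [mul_le_mul_of_nonneg_left this hc.le]
  · push_cast
    apply le_of_eq
    field_simp
  · have e1 : max 0 (Λ' * (m * (c₀ * Dg) + c₀ * H) - (t - ω) * (c₀ * E)) =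
        c₀ * max 0 (Λ' * (m * Dg + H) - (t - ω) * E) := by
      rw [mul_max_of_nonneg _ _ hc.le, mul_zero]
      congr 1
      ring
    rw [e1]
    have e2 : 0 ≤ 2 * ((c₁ : ℝ) + 2) * max 0 (Λ' * (m * Dg + H) - (t - ω) * E) :=
      mul_nonneg (by positivity) (le_max_left _ _)
    have ha0 : (0 : ℝ) ≤ a := Nat.cast_nonneg _
    have e3 : (a * Wd + (Dg - a * K)) / (a + 1) ≤ (X.c / X.r + 1) * Dg + E +
        2 * ((c₁ : ℝ) + 2) * max 0 (Λ' * (m * Dg + H) - (t - ω) * E) := by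
      rw [div_le_iff₀ ha]
      linarith [mul_le_mul_of_nonneg_left b1 ha0, mul_nonneg ha0 k2, mul_nonneg ha0 b4'.le]
    push_cast
    linarith [mul_le_mul_of_nonneg_left e3 hc.le]
  · have : ((N * (a + 1) : ℕ) : ℝ) * (c₀ * ((a * Wd + (Dg - a * K)) / (a + 1))) =
        c₀ * (N * (a * Wd + (Dg - a * K))) := by
      push_cast
      field_simp
    rw [this]
    exact mul_le_mul_of_nonneg_left b3' hc.le

theorem main (hINI : St_INI) (hSTP : St_STP) (hNMB : St_NMB) (hSS : St_SS) (hCUR : St_CUR)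
    (hGCH : St_GCH) (hFCT : St_FCT) (hGEN : St_GEN) (hKDC : St_KDC) (hARI : St_ARI) {e : ℕ}
    (X : Mod L (e + 1)) {a N : ℕ} (hH : LHyp X.q X.y X.p (e + 1 + 1) X.G a N) :
    Big X.q X.y X.p (e + 1) := by
  have hN := nd X hH
  by_contra hb
  obtain ⟨δ, h0, h1, hA⟩ := sta hNMB hSS hCUR hGCH hFCT hGEN hKDC hARI X hH
  obtain ⟨B, hB, hS⟩ := hSTP (e + 1) δ h0 h1
  have key : ∀ (d : ℕ) (C : ℝ), ∃ T, ∀ e' < d, ¬ X.Has e' C T := by
    intro d
    induction d with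
    | zero => exact fun C => ⟨0, fun _ h => absurd h (by omega)⟩
    | succ d ih =>
      intro C
      obtain ⟨T₁, h₁⟩ := hA C
      obtain ⟨T₂, h₂⟩ := ih ((C + 2 * (e + 1 : ℕ) / δ) * B)
      refine ⟨max T₁ (T₂ * B), fun e' he' h => ?_⟩
      obtain ⟨u, m, U, κ, _, _, G, k, Λ, v, w, c, S⟩ := h
      rcases hS L X u m U κ e' G k Λ v C _ w c hN S with ⟨lam, c', hL, hl⟩ | ⟨e'', he'', h⟩
      · exact h₁ u m U κ e' G k Λ v lam w c c'
          { S with hT := (mul_le_mul_of_nonneg_right (le_max_left _ _) S.vpos.le).trans S.hT } hL hl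
      · exact h₂ e'' (by omega) (MAIN.mono h
          ((le_div_iff₀ (by linarith)).2 (le_max_right _ _)))
  obtain ⟨T, hT⟩ := key (e + 1) 0
  exact hT e (by omega) (hINI L e X hN hb T)

end Log

end Pool.Agent.Lib.A35
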