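import Pool.Agent.Lib.A35.B_SYS
import Pool.Agent.Lib.A35.B_NUM
import Pool.Agent.Lib.A35.B_HIL
import Pool.Agent.Lib.A35.B_BIG
import Pool.Agent.Lib.A35.B_NDD
import Pool.Agent.Lib.A35.B_EFW
import Pool.Agent.Lib.A35.B_KDC
import Pool.Agent.Lib.A35.B_NMB
import Pool.Agent.Lib.A35.B_PGX
import Pool.Agent.Lib.A35.B_STP
import Pool.Agent.Lib.A35.B_INI
import Pool.Agent.Lib.A35.B_SS
import Pool.Agent.Lib.A35.B_CUR
import Pool.Agent.Lib.A35.B_GCH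
import Pool.Agent.Lib.A35.B_FCT
import Pool.Agent.Lib.A35.B_GEN
import Pool.Agent.Lib.A35.B_ARI
import Pool.Agent.Lib.A35.B_STA
import Pool.Agent.Lib.A35.B_MAIN
import Pool.Agent.Lib.A35.B_FRG
import Pool.Agent.Lib.A35.B_KIN
import Pool.Agent.Lib.A35.Log

/-! The two theorems. -/

namespace Pool.Agent.Lib.A35

theorem main : St_MAIN :=
  st_MAIN st_NDD (st_INI st_SYS st_NUM st_HIL st_BIG st_PGX) (st_STP st_NUM st_HIL st_PGX)
    (st_STA st_NMB st_SS (st_CUR st_EFW) (st_GCH st_EFW) st_FCT st_GEN st_KDC st_ARI)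

theorem mainK : St_KIN := st_KIN main st_FRG

theorem mainL {L : Type} [Field L] [Algebra ℂ L] {e : ℕ} (X : Mod L (e + 1)) {a N : ℕ}
    (hH : LHyp X.q X.y X.p (e + 1 + 1) X.G a N) : Big X.q X.y X.p (e + 1) :=
  Log.main (st_INI st_SYS st_NUM st_HIL st_BIG st_PGX) (st_STP st_NUM st_HIL st_PGX) st_NMB st_SS
    (st_CUR st_EFW) (st_GCH st_EFW) st_FCT st_GEN st_KDC st_ARI X hH

end Pool.Agent.Lib.A35
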