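import Pool.Agent.Lib.A35.Chain
import Pool.Agent.Lib.A35.Tay

/-! The chain of section 7.0. -/

set_option autoImplicit false

open Module Pointwise

noncomputable section

namespace Pool.Agent.Lib.A35.H45

open Pool.Agent.Lib.A35.T

section chain
variable {k k' R R' : Type} [Field k] [Field k'] [CommRing R] [CommRing R'] [Algebra k R]
  [Algebra k' R']

theorem pow_mul_mem_span (φ : R →+* R') {W : Set R} {θ : Set R'}
    (hθ : ∀ x ∈ θ, x ∈ Submodule.span k' (φ '' W)) {s : R} (hs : s ∈ W) (υ : R) {l N : ℕ}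
    (hl : l ≤ N) {x : R'} (hx : x ∈ θ ^ l) :
    φ υ * φ s ^ (N - l) * x ∈ Submodule.span k' (φ '' ((fun o => υ * o) '' W ^ N)) := by
  have h1 : x ∈ Submodule.span k' (φ '' W) ^ l := by
    have : x ∈ Submodule.span k' θ ^ l := by
      rw [Submodule.span_pow]
      exact Submodule.subset_span hx
    exact pow_le_pow_left' (Submodule.span_le.2 hθ) l this
  have h2 : φ s ^ (N - l) * x ∈ Submodule.span k' (φ '' W) ^ N := by
    have := Submodule.mul_mem_mul (Submodule.pow_mem_pow _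
      (Submodule.subset_span (R := k') (Set.mem_image_of_mem φ hs)) (N - l)) h1
    rwa [← pow_add, Nat.sub_add_cancel hl] at this
  rw [Submodule.span_pow, ← Set.image_pow] at h2
  rw [mul_assoc]
  refine Submodule.span_induction (p := fun y _ => φ υ * y ∈
    Submodule.span k' (φ '' ((fun o => υ * o) '' W ^ N))) ?_ ?_ ?_ ?_ h2
  · rintro _ ⟨o, ho, rfl⟩
    exact Submodule.subset_span ⟨υ * o, ⟨o, ho, rfl⟩, map_mul _ _ _⟩
  · simp
  · intro a b _ _ ha hb
    rw [mul_add]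
    exact add_mem ha hb
  · intro c a _ ha
    rw [mul_smul_comm]
    exact Submodule.smul_mem _ _ ha

theorem pow_mem_pow_sup {m p : Ideal R} {W : Set R} {t : ℕ} (hW : ∀ x ∈ W, x ∈ m ^ t ⊔ p) (N : ℕ)
    {o : R} (ho : o ∈ W ^ N) : o ∈ m ^ (N * t) ⊔ p := by
  have h1 : o ∈ Ideal.span W ^ N := by
    rw [Ch.span_pow']
    exact Ideal.subset_span ho
  have h2 := sup_pow_le _ _ _ (Ideal.pow_right_mono (Ideal.span_le.2 hW) N h1)
  rwa [← pow_mul, mul_comm] at h2

/-- The chain of 7.0: from `m' ^ N` to the whole ring by elements of `Z`. -/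
theorem chain70 {S : ℕ → Submodule k R} {S' Z : ℕ → Submodule k' R'} (hS : Gr S) (hS' : Gr S')
    (φ : R →+* R') (hφ : ∀ j, ∀ x ∈ S j, φ x ∈ S' j) {m p : Ideal R} {Λ lam : ℝ} {w c w' c' : ℕ}
    (hT : Tow S p Λ w c) (hL : Lev S p m lam w' c')
    (hk : ∀ r : R, ∃ a : k, r - algebraMap k R a ∈ m) {W : Set R} {t : ℕ}
    (hW : ∀ x ∈ W, x ∈ m ^ t ⊔ p) {s υ : R} (hs : s ∈ W) (hs' : IsUnit (φ s)) (hυ : IsUnit (φ υ))
    {θ : Set R'} (hθ0 : θ.Finite) (hθ : ∀ x ∈ θ, x ∈ Submodule.span k' (φ '' W)) {m' : Ideal R'}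
    {w'' c'' : ℕ} (hL' : Lev S' (Ideal.span θ ⊔ p.map φ) m' 0 w'' c'') {N g j i : ℕ}
    (hj : ∀ o ∈ W ^ N, υ * o ∈ S j) (hj' : Λ * g + lam * (N * t : ℕ) + c + c' ≤ j)
    (hi : Λ * N + c ≤ i) (hZ : ∀ a b, ∀ x ∈ S' a, ∀ y ∈ Z b, x * y ∈ Z (a + b))
    (hZ' : ∀ x ∈ S j, x ∈ m ^ (N * t) ⊔ p ^ g → φ x ∈ Z j) :
    Ch m' (Z (i + c'' + j)) (m' ^ N) ⊤ := by
  have h1 : ∀ y ∈ Submodule.span k' (φ '' ((fun o => υ * o) '' W ^ N)),
      y ∈ Z j ⊔ (p.map φ).restrictScalars k' := by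
    refine fun y hy => Submodule.span_le.2 ?_ hy
    rintro _ ⟨_, ⟨o, ho, rfl⟩, rfl⟩
    obtain ⟨z, hz, hz1, hz2⟩ := hT.cor hS hL hk (J := m ^ (N * t) ⊔ p ^ g) le_sup_right
      (le_sup_of_le_left le_sup_left) hj' (υ * o) (Ideal.mul_mem_left _ _
        ((show m ^ (N * t) ⊔ p ≤ p ⊔ (m ^ (N * t) ⊔ p ^ g) from
          sup_le (le_sup_of_le_right le_sup_left) le_sup_left) (pow_mem_pow_sup hW N ho)))
    have e : φ (υ * o) = φ (υ * o - z) + φ z := by rw [← map_add, sub_add_cancel]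
    change φ (υ * o) ∈ _
    rw [e]
    exact Submodule.add_mem_sup (hZ' _ (sub_mem (hj o ho) hz) hz2) (Ideal.mem_map_of_mem φ hz1)
  have h2 : Ch (Ideal.span θ ⊔ p.map φ) (Z j) (Ideal.span θ ^ N ⊔ p.map φ)
      (Ideal.span θ ^ 0 ⊔ p.map φ) := by
    refine (Ch.pow hθ0 (p.map φ) (Nat.zero_le N)).congr ?_
    rintro x ⟨l, -, hl, hx⟩
    obtain ⟨a, ha, b, hb, e⟩ := Submodule.mem_sup.1 (h1 _ (pow_mul_mem_span φ hθ hs υ hl.le hx))
    refine ⟨a, ha, _, hυ.mul (hs'.pow (N - l)), Ideal.mem_sup_right ?_⟩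
    rw [← e, sub_add_cancel_left]
    exact neg_mem hb
  have h3 : Ch m' (S' c'') ((Ideal.span θ ⊔ p.map φ) ⊔ m' ^ N) ⊤ :=
    hL'.ch_top hS' (M := N) le_sup_left (by simp)
  have h4 : Ch m' ((Z j : Set R') * S' c'') (p.map φ ⊔ m' ^ N) ⊤ := by
    refine (h2.ref h3).cast ?_ (by simp)
    rw [sup_right_comm, sup_eq_right.2 (Ideal.pow_right_mono (le_sup_left.trans hL'.le) N),
      sup_comm]
  have h5 : Ch (p.map φ) (S' i) (m' ^ N) ⊤ :=
    (hT.map φ hφ).ch_top hS' (Ideal.pow_right_mono (le_sup_right.trans hL'.le) N) hi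
  refine ((h5.ref h4).cast (sup_idem _) (by simp)).mono le_rfl ?_
  rintro _ ⟨x, hx, _, ⟨y, hy, z, hz, rfl⟩, rfl⟩
  have e : x * (y * z) = x * z * y := by ring
  change x * (y * z) ∈ _
  rw [e]
  exact hZ _ _ _ (hS'.mul _ _ _ _ hx hz) _ hy

/-- The trivial level over an ideal whose only prime is `m`. -/
theorem lev_triv [IsNoetherianRing R'] {S' : ℕ → Submodule k' R'} (hS : Monotone S')
    {I m' : Ideal R'} (hI : I ≤ m') {B : ℕ} (hB : m' ^ B ≤ I)
    (hu : ∀ x : R', ∃ (e : ℕ) (u : R'), IsUnit u ∧ u * x ∈ S' e) : ∃ w c, Lev S' I m' 0 w c := by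
  obtain ⟨g, hg⟩ : m'.FG := IsNoetherian.noetherian _
  choose e u hu1 hu2 using hu
  obtain ⟨g', g1, -, g3⟩ := exists_units (T := S' (g.sup e)) g
    fun x hx => ⟨u x, hu1 x, hS (Finset.le_sup hx) (hu2 x)⟩
  exact ⟨_, _, Lev.triv g1 (by rw [g3, hg, sup_eq_right.2 hI]) hB⟩

end chain

section Z
variable {k A A' R R' F : Type} [Field k] [CommRing A] [CommRing A'] [CommRing R] [CommRing R']
  [Algebra k R'] [Algebra A R] [Algebra A' R'] [CommRing F] [Algebra k F] {ι : Type}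

theorem wd_snoc (D : ι → Derivation A R R) (l : List ι) (i : ι) (f : R) :
    wd D (l ++ [i]) f = wd D l (D i f) := wd_append D l [i] f

/-- Leibniz rule for words, in terms of a filtration. -/
theorem wd_mul_mem (D : ι → Derivation A R R) (ρ : R →+* F) {O : Set F} {V : ℕ → AddSubgroup F}
    (hV : Monotone V) (hO : ∀ n, ∀ a ∈ O, ∀ b ∈ V n, a * b ∈ V n) (l : List ι) :
    ∀ (s f : R) (n : ℕ), (∀ l', ρ (wd D l' s) ∈ O) → (∀ l', ρ (wd D l' f) ∈ V (n + l'.length)) →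
      ρ (wd D l (s * f)) ∈ V (n + l.length) := by
  induction l using List.reverseRecOn with
  | nil =>
    intro s f n hs hf
    rw [wd_nil, map_mul]
    exact hO _ _ (hs []) _ (hf [])
  | append_singleton l i ih =>
    intro s f n hs hf
    rw [wd_snoc, Derivation.leibniz, smul_eq_mul, smul_eq_mul, wd_add, map_add, mul_comm f,
      List.length_append, List.length_singleton]
    refine add_mem ?_ (hV (by omega) (ih (D i s) f n (fun l' => ?_) hf))
    · have := ih s (D i f) (n + 1) hs fun l' => by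
        have := hf (l' ++ [i])
        rwa [wd_snoc, List.length_append, List.length_singleton, ← add_assoc, add_right_comm] at this
      rwa [add_right_comm] at this
    · have := hs (l' ++ [i])
      rwa [wd_snoc] at this

theorem wd_smul (D : ι → Derivation A' R' R') (hD : ∀ i c, D i (algebraMap k R' c) = 0)
    (l : List ι) (c : k) (f : R') : wd D l (c • f) = c • wd D l f := by
  induction l with
  | nil => rfl
  | cons i l ih =>
    rw [wd_cons, wd_cons, ih, Algebra.smul_def, Algebra.smul_def, Derivation.leibniz, hD,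
      smul_zero, add_zero, smul_eq_mul]

theorem wd_zero (D : ι → Derivation A R R) (l : List ι) : wd D l 0 = 0 := by
  induction l with
  | nil => rfl
  | cons i l ih => rw [wd_cons, ih, map_zero]

/-- A multiplicative decreasing filtration of `F`. -/
structure Fil (V : ℤ → Submodule k F) : Prop where
  anti : Antitone V
  mul : ∀ i j, ∀ a ∈ V i, ∀ b ∈ V j, a * b ∈ V (i + j)

/-- The elements of `S j` whose derivatives vanish to the given orders at the places `x : T`. -/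
def Zs {T : Type} (S : ℕ → Submodule k R') (D : ι → Derivation A' R' R')
    (hD : ∀ i c, D i (algebraMap k R' c) = 0) (ρ : R' →ₐ[k] F) (V : T → ℤ → Submodule k F)
    (e : T → ℕ) (M om j : ℕ) : Submodule k R' where
  carrier := {f | f ∈ S j ∧ ∀ x l, ρ (wd D l f) ∈ V x (e x * ((M : ℤ) - om * l.length))}
  zero_mem' := ⟨zero_mem _, fun x l => by rw [wd_zero, map_zero]; exact zero_mem _⟩
  add_mem' := fun ha hb => ⟨add_mem ha.1 hb.1, fun x l => by
    rw [wd_add, map_add]; exact add_mem (ha.2 x l) (hb.2 x l)⟩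
  smul_mem' := fun c a ha => ⟨Submodule.smul_mem _ c ha.1, fun x l => by
    rw [wd_smul D hD, map_smul]; exact Submodule.smul_mem _ c (ha.2 x l)⟩

variable {T : Type} {S : ℕ → Submodule k R'} {D : ι → Derivation A' R' R'}
  {hD : ∀ i c, D i (algebraMap k R' c) = 0} {ρ : R' →ₐ[k] F} {V : T → ℤ → Submodule k F}
  {e : T → ℕ} {M om : ℕ}

theorem mem_Zs {j : ℕ} {f : R'} : f ∈ Zs S D hD ρ V e M om j ↔
    f ∈ S j ∧ ∀ x l, ρ (wd D l f) ∈ V x (e x * ((M : ℤ) - om * l.length)) := Iff.rfl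

theorem Zs_le (j : ℕ) : Zs S D hD ρ V e M om j ≤ S j := fun _ h => h.1

/-- `S i * Z j ≤ Z (i + j)`. -/
theorem Zs_mul (hS : Gr S) (hV : ∀ x, Fil (V x))
    (h0 : ∀ x i, ∀ s ∈ S i, ∀ l, ρ (wd D l s) ∈ V x 0) (a b : ℕ) (s : R') (hs : s ∈ S a) (f : R')
    (hf : f ∈ Zs S D hD ρ V e M om b) : s * f ∈ Zs S D hD ρ V e M om (a + b) := by
  refine ⟨hS.mul _ _ _ _ hs hf.1, fun x l => ?_⟩
  have := wd_mul_mem D ρ.toRingHom (O := V x 0)
    (V := fun n => (V x (e x * ((M : ℤ) - om * n))).toAddSubgroup) (fun n n' h => ?_)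
    (fun n a ha b hb => ?_) l s f 0 (h0 x a s hs) (fun l' => by simpa using hf.2 x l')
  · simpa using this
  · refine Submodule.toAddSubgroup_mono ((hV x).anti ?_)
    have : (n : ℤ) ≤ n' := by exact_mod_cast h
    gcongr
  · have := (hV x).mul _ _ a ha b hb
    rwa [zero_add] at this

omit [Algebra k R'] in
theorem Fil.map_pow {V : ℤ → Submodule k F} (hV : Fil V) (ψ : R →+* F) (h0 : ∀ r, ψ r ∈ V 0)
    {m : Ideal R} {e : ℕ} (hm : ∀ r ∈ m, ψ r ∈ V e) (n : ℕ) : ∀ r ∈ m ^ n, ψ r ∈ V (e * n) := by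
  induction n with
  | zero => intro r _; simpa using h0 r
  | succ n ih =>
    intro r hr
    rw [pow_succ] at hr
    refine Submodule.mul_induction_on hr (fun a ha b hb => ?_) fun a b ha hb => ?_
    · rw [map_mul]
      push_cast
      rw [mul_add, mul_one]
      exact hV.mul _ _ _ (ih a ha) _ (hm b hb)
    · rw [map_add]
      exact add_mem ha hb

/-- The image of `J ∩ S j` lies in `Z j`, for `J = m ^ M + p ^ g`. -/
theorem map_mem_Zs (hV : ∀ x, Fil (V x)) (φ : R →+* R') (d : ι → Derivation A R R)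
    (hd : ∀ i r, D i (φ r) = φ (d i r)) {m p : Ideal R} (h0 : ∀ x r, ρ (φ r) ∈ V x 0)
    (hm : ∀ x, ∀ r ∈ m, ρ (φ r) ∈ V x (e x)) (hp : ∀ r ∈ p, ρ (φ r) = 0) {g : ℕ} (hom : 0 < om)
    (hg : M ≤ om * g) {j : ℕ} {r : R} (hr : φ r ∈ S j) (hr' : r ∈ m ^ M ⊔ p ^ g) :
    φ r ∈ Zs S D hD ρ V e M om j := by
  refine ⟨hr, fun x l => ?_⟩
  have h1 : wd D l (φ r) = φ (wd d l r) := by
    induction l with
    | nil => rfl
    | cons i l ih => rw [wd_cons, wd_cons, ih, hd]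
  rw [h1]
  have hom' : (1 : ℤ) ≤ om := by exact_mod_cast hom
  have hl0 : (0 : ℤ) ≤ l.length := Nat.cast_nonneg _
  have he : (0 : ℤ) ≤ e x := Nat.cast_nonneg _
  by_cases h2 : M ≤ om * l.length
  · refine (hV x).anti ?_ (h0 x _)
    have : (M : ℤ) ≤ om * l.length := by exact_mod_cast h2
    exact mul_nonpos_of_nonneg_of_nonpos he (by linarith)
  have h3 : l.length < g := by
    by_contra h
    exact h2 (hg.trans (Nat.mul_le_mul_left om (not_lt.1 h)))
  have h4 : l.length ≤ M := (Nat.le_mul_of_pos_left _ hom).trans (not_le.1 h2).le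
  obtain ⟨a, ha, b, hb, rfl⟩ := Submodule.mem_sup.1 hr'
  have h5 : wd d l b ∈ p := by
    have := wd_pow d p l 1 b (Ideal.pow_le_pow_right (by omega) hb)
    rwa [pow_one] at this
  have h6 := wd_pow d m l (M - l.length) a (by rwa [Nat.sub_add_cancel h4])
  rw [wd_add, map_add, map_add, hp _ h5, add_zero]
  refine (hV x).anti ?_ ((hV x).map_pow (ρ.toRingHom.comp φ) (h0 x) (hm x) _ _ h6)
  rw [Nat.cast_sub h4]
  refine mul_le_mul_of_nonneg_left ?_ he
  nlinarith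

end Z

end Pool.Agent.Lib.A35.H45
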