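import Pool.Agent.Lib.A35.Kit
import Pool.Agent.Lib.A35.Ch70
import Pool.Agent.Lib.A35.Curve

/-! Sections vanishing at the point generate the jets along the curve. -/

open Module Submodule Set Filter IsLocalRing Pointwise

set_option linter.unusedVariables false

noncomputable section

namespace Pool.Agent.Lib.A35

open Pool.Agent.Lib.MP_7fcda1_ag Pool.Agent.Lib.UR G

namespace GCH

/-- The elements of order at least `n`. -/
def fil {k F : Type} [Field k] [Field F] [Algebra k F] [IsFF k F] (x : Place k F) (n : ℤ) :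
    Submodule k F where
  carrier := {a | Ge x.O n a}
  zero_mem' := Or.inl rfl
  add_mem' := fun ha hb => Ge.add ha hb
  smul_mem' := fun c _ ha => x.ge_smul ha c

theorem fil_fil {k F : Type} [Field k] [Field F] [Algebra k F] [IsFF k F] (x : Place k F) :
    H45.Fil (fil x) := ⟨fun _ _ h _ ha => Ge.mono ha h, fun _ _ _ ha _ hb => Ge.mul ha hb⟩

variable {L : Type} [Field L] [Algebra ℂ L] {n : ℕ} {κ K : Type} [Field κ] [Field K] [Algebra ℂ κ]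
  [Algebra ℂ K] [Algebra κ K] [IsScalarTower ℂ κ K] {σ : L →ₐ[ℂ] K}

theorem spn_pow (W : Submodule ℂ L) (N : ℕ) : spn κ σ W ^ N ≤ spn κ σ (W ^ N) := by
  induction N with
  | zero =>
    rw [pow_zero, pow_zero, Submodule.one_eq_span, span_le, singleton_subset_iff]
    exact one_mem_spn (Submodule.one_le.1 le_rfl)
  | succ N ih =>
    rw [pow_succ, pow_succ]
    exact (mul_le_mul' ih le_rfl).trans (spn_mul le_rfl)

theorem U_pow {X : Mod L n} {a b : ℕ} (U : Sys X a b) (j N : ℕ) : U.U j ^ N ≤ U.U (j * N) := by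
  induction N with
  | zero => rw [pow_zero, Submodule.one_eq_span, span_le, singleton_subset_iff]; exact U.one_mem _
  | succ N ih => rw [pow_succ]; exact (mul_le_mul' ih le_rfl).trans (U.mul _ _)

theorem mem_clos (a : TensorProduct ℂ κ L) :
    mkG κ σ a ∈ Subring.closure (range (algebraMap κ (Germ κ σ)) ∪ range (iota κ σ)) := by
  induction a with
  | zero => simp
  | add a b ha hb => rw [map_add]; exact add_mem ha hb
  | tmul c l =>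
    rw [mkG_tmul]
    exact mul_mem (Subring.subset_closure (Or.inl ⟨c, rfl⟩))
      (Subring.subset_closure (Or.inr ⟨l, rfl⟩))

theorem wd_iota {X : Mod L n} {D : Fin n → Derivation ℤ (Germ κ σ) (Germ κ σ)} (h : IsD X D)
    (l : List (Fin n)) (a : L) : ∃ b, T.wd D l (iota κ σ a) = iota κ σ b := by
  induction l with
  | nil => exact ⟨a, rfl⟩
  | cons i l ih =>
    obtain ⟨b, hb⟩ := ih
    exact ⟨_, by rw [T.wd_cons, hb, h.fn]⟩

theorem num {u r m c N₁ t ω cc c' c'' : ℕ} {Λ lam Λ' ρ : ℝ} (hr : 0 < r) (hm : 0 < m) (hω : 0 < ω)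
    (hΛ : 0 ≤ Λ) (hl : 0 ≤ lam) (hρ : ρ = 1 + c / (r * m)) (h1 : u * Λ + ρ ≤ Λ')
    (h2 : u * Λ + u * Λ * t / ω + u * lam * t ≤ Λ') {N : ℕ} (hN : N = u * (r * m) * N₁) :
    ∃ g j i : ℕ, N * t ≤ ω * g ∧ (r * m + c) * N₁ ≤ j ∧
      Λ * g + lam * (N * t : ℕ) + cc + c' ≤ j ∧ Λ * N + cc ≤ i ∧
      (u * (i + c'' + j : ℕ) : ℝ) ≤ N * Λ' + u * (Λ + 2 * cc + c' + c'' + 2) := by
  have hr' : (0 : ℝ) < r := by exact_mod_cast hr
  have hm' : (0 : ℝ) < m := by exact_mod_cast hm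
  have hω' : (0 : ℝ) < ω := by exact_mod_cast hω
  have hu : (0 : ℝ) ≤ u := Nat.cast_nonneg u
  have hN0 : (0 : ℝ) ≤ N := Nat.cast_nonneg N
  have g1 : ((N * t / ω + 1 : ℕ) : ℝ) ≤ N * t / ω + 1 := by
    have := Nat.cast_div_le (α := ℝ) (m := N * t) (n := ω)
    push_cast at this ⊢
    linarith
  refine ⟨N * t / ω + 1, max _ ⌈_⌉₊, ⌈_⌉₊, (Nat.lt_mul_div_succ _ hω).le, le_max_left _ _,
    (Nat.le_ceil _).trans (Nat.cast_le.2 (le_max_right _ _)), Nat.le_ceil _, ?_⟩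
  have i1 := (Nat.ceil_lt_add_one (show 0 ≤ Λ * N + cc by positivity)).le
  have j1 := (Nat.ceil_lt_add_one (show 0 ≤ Λ * (N * t / ω + 1 : ℕ) + lam * (N * t : ℕ) + cc + c'
    by positivity)).le
  have i2 := mul_le_mul_of_nonneg_left i1 hu
  have j2 := mul_le_mul_of_nonneg_left (j1.trans (add_le_add (add_le_add (add_le_add (add_le_add
    (mul_le_mul_of_nonneg_left g1 hΛ) le_rfl) le_rfl) le_rfl) le_rfl)) hu
  have k1 := mul_le_mul_of_nonneg_left h1 hN0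
  have k2 := mul_le_mul_of_nonneg_left h2 hN0
  have e : (u : ℝ) * ((r * m + c) * N₁ : ℕ) = N * ρ := by
    rw [hN, hρ]
    push_cast
    field_simp
  have p1 : (0 : ℝ) ≤ u * (Λ + cc + c' + 1) := by positivity
  have e2 : (N : ℝ) * (u * Λ * t / ω) = u * (Λ * (N * t / ω)) := by ring
  rw [Nat.cast_add, Nat.cast_add, Nat.cast_max]
  rcases le_total (((r * m + c) * N₁ : ℕ) : ℝ)
    (⌈Λ * (N * t / ω + 1 : ℕ) + lam * (N * t : ℕ) + cc + c'⌉₊ : ℝ) with h | h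
  · rw [max_eq_right h]
    rw [Nat.cast_mul N t] at j2 ⊢
    nlinarith
  · rw [max_eq_left h]
    nlinarith

variable {X : Mod L n} {κ' : Type} [Field κ'] [Algebra ℂ κ'] {e m t : ℕ} {G : PG L κ (e + 1)}
  {V : Pt L κ'} [IsFF κ' V.K]

theorem cg1 (s : L →ₐ[ℂ] κ') (x : Place κ' V.K) (hx : 0 < V.Ed X s x) (a : L) :
    Ge x.O (V.Ed X s x) (V.σ a - algebraMap κ' V.K (s a)) :=
  CRV.cg_field x X.gen (σ := (V.σ : L →+* V.K)) (s := (s : L →+* κ')) (fun c => by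
    simp only [RingHom.coe_coe, AlgHom.commutes]
    exact IsScalarTower.algebraMap_apply ℂ κ' V.K c) hx (CRV.ge_zdiv hx) a

theorem cg2 (C : Crv X G m t V) (x : Place κ' V.K) (hx : 0 < V.Ed X (C.f.comp G.s) x) (r : G.R) :
    Ge x.O (V.Ed X (C.f.comp G.s) x)
      (rho κ' V.σ (C.φ r) - algebraMap κ' V.K (C.f (rho κ G.s r))) := by
  obtain ⟨ψ, hψ⟩ : ∃ ψ : G.R →+* V.K, ∀ r, ψ r = rho κ' V.σ (C.φ r) :=
    ⟨(rho κ' V.σ : V.R →+* V.K).comp C.φ, fun _ => rfl⟩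
  obtain ⟨ρ, hρ⟩ : ∃ ρ : G.R →+* κ', ∀ r, ρ r = C.f (rho κ G.s r) :=
    ⟨(C.f : κ →+* κ').comp (rho κ G.s : G.R →+* κ), fun _ => rfl⟩
  rw [← hψ, ← hρ]
  refine CRV.cg_all x (π := ψ) (ρ := ρ) hx
    (S := range (algebraMap κ G.R) ∪ range (iota κ G.s)) ?_ (fun r => ?_) r
  · rintro _ (⟨c, rfl⟩ | ⟨l, rfl⟩)
    · exact Or.inl (by rw [hψ, C.map.const, AlgHom.commutes, hρ, rho_alg, sub_self])
    · rw [hψ, C.map.fn, rho_iota, hρ, rho_iota]
      exact cg1 _ x hx l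
  · obtain ⟨a, b, hb, hr⟩ := germ_surj r
    exact ⟨_, mem_clos a, _, mem_clos b, by rwa [hρ, rho_mkG, map_ne_zero], hr⟩

theorem reg {a b : ℕ} (U : Sys X a b) {D : Fin n → Derivation ℤ V.R V.R} (hD : IsD X D)
    (s : L →ₐ[ℂ] κ') (x : Place κ' V.K) (hx : 0 < V.Ed X s x) {j : ℕ} {f : V.R}
    (hf : f ∈ U.S κ' V.σ j) (l : List (Fin n)) : Ge x.O 0 (rho κ' V.σ (T.wd D l f)) := by
  induction hf using Submodule.span_induction with
  | mem s hs =>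
    obtain ⟨a, -, rfl⟩ := hs
    obtain ⟨b, hb⟩ := wd_iota hD l a
    rw [hb, rho_iota]
    exact CRV.ge_of_cg x hx.le (cg1 _ x hx b)
  | zero => rw [H45.wd_zero, map_zero]; exact Or.inl rfl
  | add a b _ _ ha hb => rw [T.wd_add, map_add]; exact ha.add hb
  | smul a s _ hs => rw [H45.wd_smul D hD.const, map_smul]; exact x.ge_smul hs a

theorem exists_Z {a b : ℕ} (U : Sys X a b) (C : Crv X G m t V) {D : Fin n → Derivation ℤ V.R V.R}
    (hD : IsD X D) {M ω g : ℕ} (hω : 0 < ω) (hg : M ≤ ω * g) : ∃ Z : ℕ → Submodule κ' V.R,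
      (∀ i j, ∀ x ∈ U.S κ' V.σ i, ∀ y ∈ Z j, x * y ∈ Z (i + j)) ∧
      (∀ j, ∀ x ∈ U.S κ G.s j, x ∈ G.m ^ M ⊔ G.p ^ g → C.φ x ∈ Z j) ∧
      ∀ j, ∀ f ∈ Z j, f ∈ U.S κ' V.σ j ∧ V.Gain X D (C.f.comp G.s) M ω f := by
  obtain ⟨d, hd⟩ := exists_isD κ G.s X
  have he : ∀ x : {x : Place κ' V.K // 0 < V.Ed X (C.f.comp G.s) x},
      ((V.Ed X (C.f.comp G.s) x).toNat : ℤ) = V.Ed X (C.f.comp G.s) x := fun x =>
    Int.toNat_of_nonneg x.2.le
  have f1 : ∀ x : {x : Place κ' V.K // 0 < V.Ed X (C.f.comp G.s) x}, H45.Fil (fil x.1) :=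
    fun x => fil_fil x.1
  have f2 : ∀ (x : {x : Place κ' V.K // 0 < V.Ed X (C.f.comp G.s) x}) r,
      rho κ' V.σ (C.φ r) ∈ fil x.1 0 := fun x r => CRV.ge_of_cg x.1 x.2.le (cg2 C x.1 x.2 r)
  have f3 : ∀ (x : {x : Place κ' V.K // 0 < V.Ed X (C.f.comp G.s) x}), ∀ r ∈ G.m,
      rho κ' V.σ (C.φ r) ∈ fil x.1 ((V.Ed X (C.f.comp G.s) x).toNat : ℕ) := fun x r hr => by
    have := cg2 C x.1 x.2 r
    rw [mem_max.1 hr, map_zero, map_zero, sub_zero] at this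
    rw [he]
    exact this
  have f4 : ∀ r ∈ G.p, rho κ' V.σ (C.φ r) = 0 := fun r hr =>
    mem_max.1 (C.le (mem_sup_right (Ideal.mem_map_of_mem C.φ hr)))
  have f5 : ∀ (x : {x : Place κ' V.K // 0 < V.Ed X (C.f.comp G.s) x}) i, ∀ s ∈ U.S κ' V.σ i, ∀ l,
      rho κ' V.σ (T.wd D l s) ∈ fil x.1 0 := fun x a s hs l => reg U hD _ x.1 x.2 hs l
  refine ⟨H45.Zs (U.S κ' V.σ) D hD.const (rho κ' V.σ)
    (fun x : {x : Place κ' V.K // 0 < V.Ed X (C.f.comp G.s) x} => fil x.1)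
    (fun x => (V.Ed X (C.f.comp G.s) x).toNat) M ω, H45.Zs_mul (U.gr κ' V.σ) f1 f5,
    fun j r hr hr' => H45.map_mem_Zs f1 C.φ d (hd.comm hD C.map) f2 f3 f4 hω hg
      (C.map.S U _ _ hr) hr', fun j f hf => ⟨hf.1, fun x hx l => ?_⟩⟩
  have := hf.2 ⟨x, hx⟩ l
  rw [he] at this
  exact this

theorem mem_S {a b : ℕ} (U : Sys X a b) {W : Submodule ℂ L} {g : L} {i j N₁ N₀ : ℕ}
    (h : span ℂ {g} * W ^ N₁ ≤ U.U i) (hj : i * N₀ ≤ j) {T : Set (Germ κ σ)}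
    (hT : ∀ x ∈ T, x ∈ spn κ σ W) {o : Germ κ σ} (ho : o ∈ T ^ (N₁ * N₀)) :
    iota κ σ (g ^ N₀) * o ∈ U.S κ σ j := by
  have a1 : o ∈ spn κ σ W ^ (N₁ * N₀) := by
    have : o ∈ span κ T ^ (N₁ * N₀) := by
      rw [Submodule.span_pow]
      exact subset_span ho
    exact pow_le_pow_left' (span_le.2 hT) _ this
  refine spn_mul (W := span ℂ {g} ^ N₀) (le_trans ?_ ((U_pow U _ N₀).trans (U.mono hj)))
    (mul_mem_mul (iota_mem (pow_mem_pow _ (mem_span_singleton_self g) N₀)) (spn_pow _ _ a1))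
  rw [pow_mul, ← mul_pow]
  exact pow_le_pow_left' h N₀

end GCH

theorem st_GCH (hEFW : St_EFW) : St_GCH := by
  intro L _ _ n X u m U κ κ' _ _ _ _ e G t ω V _ C D Λ lam Λ' w c w' c' hu hm hω hD hT hL h1 h2
  obtain ⟨g, hg, hg'⟩ := hEFW L n X u m U
  have := X.noeth κ' V.σ
  obtain ⟨B, hB⟩ := C.pow
  obtain ⟨w'', c'', hL'⟩ := H45.lev_triv (U.gr κ' V.σ).mono C.le hB U.exists_unit
  refine ⟨u * (Λ + 2 * c + c' + c'' + 2), fun N₀ => ?_⟩
  obtain ⟨g', j, i, k1, k2, k3, k4, k5⟩ := GCH.num (cc := c) (c' := c') (c'' := c'') (N₁ := N₀)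
    X.rpos hm hω hT.nonneg hL.nonneg rfl h1 h2 rfl
  obtain ⟨Z, z1, z2, z3⟩ := GCH.exists_Z U C hD hω k1
  have hυ : IsUnit (C.φ (iota κ G.s (g ^ N₀))) := by
    rw [C.map.fn]
    exact isUnit_iota (pow_ne_zero _ hg)
  exact ⟨_, i + c'' + j, Nat.le_mul_of_pos_left _ (Nat.mul_pos hu (Nat.mul_pos X.rpos hm)), k5,
    (H45.chain70 (U.gr κ G.s) (U.gr κ' V.σ) C.φ (C.map.S U) hT hL G.exists_const
      (W := G.W X m t) (fun x hx => hx.2) C.hs₀ C.unit hυ (finite_range C.θ)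
      (forall_mem_range.2 C.hθ) hL' (fun o ho => GCH.mem_S U hg' k2 (fun x hx => hx.1) ho) k3 k4 z1
      (z2 j)).mono le_rfl (z3 _)⟩

end Pool.Agent.Lib.A35
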