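import Pool.Agent.Lib.UR.B_POL
import Pool.Agent.Lib.UR.B_TRC
import Pool.Agent.Lib.UR.B_NOE

/-! Complete linear systems on a cover of affine space and degrees of integral equations. -/

open Set Polynomial

set_option linter.unusedSectionVars false
set_option linter.unusedVariables false

noncomputable section

namespace Pool.Agent.Lib.A35.Car

open Pool.Agent.Lib.UR Pool.Agent.Lib.MP_7fcda1_ag

section gen
variable {k K L : Type} [Field k] [Field K] [Field L] [Algebra k K] [Algebra k L]

/-- Push forward along a homomorphism of fields. -/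
theorem cl_up (f : K →ₐ[k] L) {U : Submodule k K} {x : K} (hx : x ∈ cl U) :
    f x ∈ cl (U.map f.toLinearMap) := fun O hO => by
  obtain ⟨u, hu, h⟩ := hx (O.comap f.toRingHom) fun c => by
    rw [ValuationSubring.mem_comap]
    exact (f.commutes c).symm ▸ hO c
  exact ⟨f u, ⟨u, hu, rfl⟩, (TRC.val_comap _ _ _ _).1 h⟩

/-- Restriction to a subfield. -/
theorem cl_down (f : K →ₐ[k] L) {U : Submodule k K} {x : K}
    (hx : f x ∈ cl (U.map f.toLinearMap)) : x ∈ cl U := fun O hO => by
  obtain ⟨V, rfl⟩ := exists_comap_eq f.toRingHom O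
  obtain ⟨_, ⟨u, hu, rfl⟩, h⟩ := hx V fun c => (f.commutes c) ▸ hO c
  exact ⟨u, hu, (TRC.val_comap _ _ _ _).2 h⟩

/-- A root of a monic equation with bounded coefficients. -/
theorem mem_cl_of_root {U : Submodule k L} (G : L[X]) (hG : G.Monic)
    (hc : ∀ i < G.natDegree, G.coeff i ∈ cl (U ^ (G.natDegree - i))) {x : L} (hx : G.eval x = 0) :
    x ∈ cl U := fun O hO => by
  by_contra h
  push Not at h
  have h0 : 0 < O.valuation x := lt_of_le_of_lt zero_le (h 0 U.zero_mem)
  have key : ∀ i : ℕ, ∀ z ∈ U ^ (i + 1), O.valuation z < O.valuation x ^ (i + 1) := by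
    intro i
    induction i with
    | zero => simpa using h
    | succ i ih =>
      intro z hz
      rw [pow_succ] at hz
      obtain ⟨a, ha, b, hb, h1⟩ := exists_le_mul O hO hz
      rw [pow_succ]
      exact h1.trans_lt (mul_lt_mul'' (ih a ha) (h b hb) zero_le zero_le)
  rw [hG.as_sum, eval_add, eval_pow, eval_X, eval_finsetSum, add_eq_zero_iff_eq_neg] at hx
  have h1 := congrArg O.valuation hx
  rw [Valuation.map_neg, map_pow] at h1
  refine absurd h1 (O.valuation.map_sum_lt (pow_pos h0 _).ne' fun i hi => ?_).ne'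
  have hi' := Finset.mem_range.1 hi
  obtain ⟨z, hz, h2⟩ := hc i hi' O hO
  obtain ⟨l, hl⟩ := Nat.exists_eq_add_of_lt hi'
  rw [show G.natDegree - i = l + 1 by omega] at hz
  rw [eval_mul, eval_C, eval_pow, eval_X, map_mul, map_pow, hl, add_assoc, add_comm i, pow_add]
  exact mul_lt_mul_of_pos_right (h2.trans_lt (key l z hz)) (pow_pos h0 _)

theorem val_esymm {Γ : Type*} [LinearOrderedCommGroupWithZero Γ] (v : Valuation L Γ)
    (s : Multiset L) (g : Γ) (h : ∀ r ∈ s, v r ≤ g) (j : ℕ) : v (s.esymm j) ≤ g ^ j := by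
  unfold Multiset.esymm
  refine Multiset.sum_induction (fun x : L => v x ≤ g ^ j) _
    (fun a b ha hb => v.map_add_le ha hb) (by simp) fun x hx => ?_
  obtain ⟨t, ht, rfl⟩ := Multiset.mem_map.1 hx
  obtain ⟨h1, h2⟩ := Multiset.mem_powersetCard.1 ht
  rw [map_multiset_prod, ← h2, ← Multiset.card_map v t]
  refine Multiset.prod_le_pow_card _ _ fun y hy => ?_
  obtain ⟨r, hr, rfl⟩ := Multiset.mem_map.1 hy
  exact h r (Multiset.mem_of_le h1 hr)

/-- The coefficients of the minimal polynomial. -/
theorem coeff_minpoly_mem [Algebra K L] [IsScalarTower k K L] [Algebra.IsAlgebraic K L]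
    {U : Submodule k K} {x : L} (hx : x ∈ cl (U.map (IsScalarTower.toAlgHom k K L).toLinearMap))
    (i : ℕ) : (minpoly K x).coeff i ∈ cl (U ^ ((minpoly K x).natDegree - i)) := by
  intro O hO
  have hm := minpoly.monic (Algebra.IsIntegral.isIntegral (R := K) x)
  by_cases hi : (minpoly K x).natDegree < i
  · exact ⟨0, zero_mem _, by rw [coeff_eq_zero_of_natDegree_lt hi]⟩
  obtain ⟨V, rfl⟩ := exists_comap_eq (algebraMap K (AlgebraicClosure K)) O
  set G := (minpoly K x).map (algebraMap K (AlgebraicClosure K)) with hG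
  have h1 : ∀ r ∈ G.roots, ∃ u ∈ U, V.valuation r ≤ V.valuation (algebraMap K _ u) := by
    intro r hr
    obtain ⟨σ, rfl⟩ := IntermediateField.exists_algHom_of_splits_of_aeval (F := K) (E := L)
      (K := AlgebraicClosure K) (x := x) (y := r)
      (fun y => ⟨Algebra.IsIntegral.isIntegral y, IsAlgClosed.splits _⟩)
      (by rw [← eval_map_algebraMap]; exact (mem_roots (hm.map _).ne_zero).1 hr)
    obtain ⟨_, ⟨u, hu, rfl⟩, h⟩ := hx (V.comap σ.toRingHom) fun c => by
      rw [ValuationSubring.mem_comap, IsScalarTower.algebraMap_apply k K L]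
      exact (σ.commutes _).symm ▸ hO c
    refine ⟨u, hu, ?_⟩
    rw [← σ.commutes]
    exact (TRC.val_comap _ _ _ _).1 h
  obtain ⟨u, hu, h2⟩ : ∃ u ∈ U, ∀ r ∈ G.roots,
      V.valuation r ≤ V.valuation (algebraMap K _ u) := by
    generalize G.roots = s at h1
    induction s using Multiset.induction_on with
    | empty => exact ⟨0, zero_mem _, by simp⟩
    | cons a s ih =>
      obtain ⟨u, hu, h2⟩ := ih fun r hr => h1 r (Multiset.mem_cons_of_mem hr)
      obtain ⟨u', hu', h3⟩ := h1 a (Multiset.mem_cons_self _ _)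
      rcases le_total (V.valuation (algebraMap K _ u)) (V.valuation (algebraMap K _ u')) with h | h
      · exact ⟨u', hu', fun r hr => (Multiset.mem_cons.1 hr).elim (fun e => e ▸ h3)
          fun e => (h2 r e).trans h⟩
      · exact ⟨u, hu, fun r hr => (Multiset.mem_cons.1 hr).elim (fun e => e ▸ h3.trans h) (h2 r)⟩
  refine ⟨_, Submodule.pow_mem_pow _ hu _, (TRC.val_comap _ _ _ _).2 ?_⟩
  have h3 : G.natDegree = (minpoly K x).natDegree := hm.natDegree_map _
  rw [← coeff_map, ← hG, coeff_eq_esymm_roots_of_splits (IsAlgClosed.splits G) (by omega),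
    (hm.map _).leadingCoeff, one_mul, map_mul, map_pow, Valuation.map_neg, map_one, one_pow,
    one_mul, map_pow, map_pow, h3]
  exact val_esymm _ _ _ h2 _

end gen

section pol
variable {k L : Type} [Field k] [Field L] [Algebra k L]

theorem exists_pol {τ : Type} (t : τ → L) (j : ℕ) {x : L} (hx : x ∈ sys k t ^ j) :
    ∃ P : MvPolynomial τ k, P.totalDegree ≤ j ∧ MvPolynomial.aeval t P = x := by
  let B : ℕ → Submodule k L := fun j => (MvPolynomial.restrictTotalDegree τ k j).map
    (MvPolynomial.aeval t : MvPolynomial τ k →ₐ[k] L).toLinearMap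
  have h0 : ∀ j, (1 : L) ∈ B j := fun j =>
    ⟨1, (MvPolynomial.mem_restrictTotalDegree _ _ _).2 (by simp), by simp⟩
  have h1 : sys k t ≤ B 1 := sys_le (h0 1) fun i =>
    ⟨.X i, (MvPolynomial.mem_restrictTotalDegree _ _ _).2 (MvPolynomial.totalDegree_X i).le,
      by simp⟩
  have h2 : ∀ j, sys k t ^ j ≤ B j := fun j => by
    induction j with
    | zero =>
      rw [pow_zero, Submodule.one_eq_span, Submodule.span_le]
      rintro _ rfl
      exact h0 0
    | succ j ih =>
      rw [pow_succ]
      refine Submodule.mul_le.2 fun a ha b hb => ?_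
      obtain ⟨P, hP, rfl⟩ := ih ha
      obtain ⟨Q, hQ, rfl⟩ := h1 hb
      exact ⟨P * Q, (MvPolynomial.mem_restrictTotalDegree _ _ _).2
        ((MvPolynomial.totalDegree_mul P Q).trans (add_le_add
          ((MvPolynomial.mem_restrictTotalDegree _ _ _).1 hP)
          ((MvPolynomial.mem_restrictTotalDegree _ _ _).1 hQ))), by simp⟩
  obtain ⟨P, hP, rfl⟩ := h2 j hx
  exact ⟨P, (MvPolynomial.mem_restrictTotalDegree _ _ _).1 hP, rfl⟩

variable {n : ℕ} {z : Fin n → L}

/-- The family as a family in the field it generates. -/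
def sub (k : Type) [Field k] [Algebra k L] (z : Fin n → L) :
    Fin n → IntermediateField.adjoin k (range z) :=
  fun i => ⟨z i, IntermediateField.subset_adjoin k _ ⟨i, rfl⟩⟩

theorem pol_sub (hz : AlgebraicIndependent k z) (j : ℕ)
    {x : IntermediateField.adjoin k (range z)} (hx : x ∈ cl (sys k (sub k z) ^ j)) :
    ∃ P : MvPolynomial (Fin n) k, P.totalDegree ≤ j ∧ MvPolynomial.aeval z P = x := by
  let F := IntermediateField.adjoin k (range z)
  have hind : AlgebraicIndependent k (sub k z) :=
    AlgebraicIndependent.of_comp (IsScalarTower.toAlgHom k F L) hz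
  have hgen : Gen k (sub k z) := by
    apply IntermediateField.map_injective F.val
    rw [IntermediateField.adjoin_map, ← range_comp, ← AlgHom.fieldRange_eq_map,
      IntermediateField.fieldRange_val]
    rfl
  rw [st_POL k F n _ hind hgen] at hx
  obtain ⟨P, h1, rfl⟩ := exists_pol _ j hx
  exact ⟨P, h1, (MvPolynomial.comp_aeval_apply (sub k z) F.val P).symm⟩

/-- An element of the rational function field in the complete system is a polynomial. -/
theorem pol_of_cl (hz : AlgebraicIndependent k z) (j : ℕ) {x : L}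
    (h : x ∈ IntermediateField.adjoin k (range z)) (hx : x ∈ cl (sys k z ^ j)) :
    ∃ P : MvPolynomial (Fin n) k, P.totalDegree ≤ j ∧ MvPolynomial.aeval z P = x :=
  pol_sub hz j (x := ⟨x, h⟩) (cl_down (IsScalarTower.toAlgHom k _ L) (by
    rw [NOE.map_sys]
    exact hx))

/-- The minimal polynomial of an element of the complete system. -/
theorem exists_eqn (hz : AlgebraicIndependent k z)
    [Algebra.IsAlgebraic (IntermediateField.adjoin k (range z)) L] (j : ℕ) {x : L}
    (hx : x ∈ cl (sys k z ^ j)) : ∃ G : (MvPolynomial (Fin n) k)[X], G.Monic ∧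
      (∀ i, (G.coeff i).totalDegree ≤ j * (G.natDegree - i)) ∧
      G.map (MvPolynomial.aeval z : MvPolynomial (Fin n) k →ₐ[k] L).toRingHom =
        (minpoly (IntermediateField.adjoin k (range z)) x).map (algebraMap _ L) ∧
      G.eval₂ (MvPolynomial.aeval z : MvPolynomial (Fin n) k →ₐ[k] L).toRingHom x = 0 := by
  set F := IntermediateField.adjoin k (range z)
  have hm := minpoly.monic (Algebra.IsIntegral.isIntegral (R := F) x)
  have h1 : ∀ i, ∃ P : MvPolynomial (Fin n) k, P.totalDegree ≤ j * ((minpoly F x).natDegree - i) ∧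
      MvPolynomial.aeval z P = ((minpoly F x).coeff i : L) := fun i => pol_sub hz _ (by
    rw [pow_mul]
    exact coeff_minpoly_mem (by rw [NOE.map_sys]; exact hx) i)
  obtain ⟨G, h2, h3, h4⟩ := lifts_and_natDegree_eq_and_monic
    (f := (MvPolynomial.aeval z : MvPolynomial (Fin n) k →ₐ[k] L).toRingHom)
    (p := (minpoly F x).map (algebraMap F L)) ((lifts_iff_coeff_lifts _).2 fun i => by
      obtain ⟨P, -, h⟩ := h1 i
      exact ⟨P, by rw [coeff_map]; exact h⟩) (hm.map _)
  refine ⟨G, h4, fun i => ?_, h2, ?_⟩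
  · obtain ⟨P, h5, h6⟩ := h1 i
    have h7 : G.coeff i = P := hz (by
      have := congrArg (coeff · i) h2
      simp only [coeff_map] at this
      exact this.trans h6.symm)
    rwa [h7, h3, hm.natDegree_map]
  · rw [← eval_map, h2, eval_map_algebraMap, minpoly.aeval]

/-- A root of a monic equation with bounded degrees. -/
theorem mem_cl_of_eqn {τ : Type} (t : τ → L) (j : ℕ) (G : (MvPolynomial τ k)[X]) (hG : G.Monic)
    (hd : ∀ i, (G.coeff i).totalDegree ≤ j * (G.natDegree - i)) {x : L}
    (hx : G.eval₂ (MvPolynomial.aeval t : MvPolynomial τ k →ₐ[k] L).toRingHom x = 0) :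
    x ∈ cl (sys k t ^ j) := by
  refine mem_cl_of_root (G.map _) (hG.map _) (fun i _ => le_cl _ ?_) (by rwa [eval_map])
  rw [coeff_map, hG.natDegree_map, ← pow_mul]
  exact POL.aeval_mem t _ (hd i)

end pol

end Pool.Agent.Lib.A35.Car
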