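import Mathlib

/-! The trace of a monogenic etale algebra as a sum over the roots, and the dual basis. -/

open Polynomial

set_option linter.unusedSectionVars false
set_option linter.unusedVariables false

noncomputable section

namespace Pool.Agent.Lib.A35.Car

section cq
variable {B B' : Type*} [CommRing B] [CommRing B']

/-- The coefficient of `T ^ i` in `(F T - F X) / (T - X)`. -/
def cq (F : B[X]) (i : ℕ) : B[X] := divX^[i + 1] F

theorem coeff_iter (F : B[X]) (i j : ℕ) : (divX^[i] F).coeff j = F.coeff (j + i) := by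
  induction i generalizing j with
  | zero => rfl
  | succ i ih => rw [Function.iterate_succ_apply', coeff_divX, ih, add_assoc, add_comm 1]

theorem coeff_cq (F : B[X]) (i j : ℕ) : (cq F i).coeff j = F.coeff (j + (i + 1)) :=
  coeff_iter F _ j

theorem cq_map (π : B →+* B') (F : B[X]) (i : ℕ) : (cq F i).map π = cq (F.map π) i := by
  ext j
  rw [coeff_map, coeff_cq, coeff_cq, coeff_map]

theorem tele (F : B[X]) (s : B) (N : ℕ) :
    (X - C s) * ∑ i ∈ Finset.range N, C ((cq F i).eval s) * X ^ i =
      ∑ i ∈ Finset.range N, C (F.coeff i) * X ^ i + C ((divX^[N] F).eval s) * X ^ N -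
        C (F.eval s) := by
  induction N with
  | zero => simp
  | succ N ih =>
    have h : (divX^[N] F).eval s = (cq F N).eval s * s + F.coeff N := by
      conv_lhs => rw [← divX_mul_X_add (divX^[N] F)]
      rw [coeff_iter, zero_add, cq, Function.iterate_succ_apply']
      simp
    rw [Finset.sum_range_succ, Finset.sum_range_succ, mul_add, ih, h, map_add, map_mul]
    change _ = _ + C ((cq F N).eval s) * _ - _
    ring

theorem tele' (F : B[X]) (s : B) {N : ℕ} (hN : F.natDegree ≤ N) :
    (X - C s) * ∑ i ∈ Finset.range N, C ((cq F i).eval s) * X ^ i = F - C (F.eval s) := by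
  have h : divX^[N] F = C (F.coeff N) := by
    ext j
    rw [coeff_iter, coeff_C]
    split_ifs with h
    · rw [h, zero_add]
    · exact coeff_eq_zero_of_natDegree_lt (by omega)
  rw [tele, h, eval_C, ← Finset.sum_range_succ (fun i => C (F.coeff i) * X ^ i),
    ← as_sum_range_C_mul_X_pow' F (Nat.lt_succ_of_le hN)]

theorem cas_eq (F : B[X]) (s : B) {N : ℕ} (hN : F.natDegree ≤ N) :
    ∑ i ∈ Finset.range N, (cq F i).eval s * s ^ i = F.derivative.eval s := by
  have h := congrArg (fun P => (derivative P).eval s) (tele' F s hN)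
  simpa [eval_finsetSum] using h

theorem cas_ne [IsDomain B] (F : B[X]) {s t : B} {N : ℕ} (hN : F.natDegree ≤ N)
    (hs : F.eval s = 0) (ht : F.eval t = 0) (h : t ≠ s) :
    ∑ i ∈ Finset.range N, (cq F i).eval s * t ^ i = 0 := by
  have h1 := congrArg (eval t) (tele' F s hN)
  simp only [eval_mul, eval_sub, eval_X, eval_C, hs, ht, sub_zero, eval_finsetSum, eval_pow] at h1
  exact (mul_eq_zero.1 h1).resolve_left (sub_ne_zero.2 h)

end cq

section euler
variable {B O Ω ι : Type*} [CommRing B] [CommRing O] [Algebra B O] [Field Ω] [Algebra B Ω]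
  [Fintype ι]

theorem eval_map' (φ : O →ₐ[B] Ω) (θ : O) (P : B[X]) :
    (P.map (algebraMap B Ω)).eval (φ θ) = φ (aeval θ P) := by
  rw [eval_map_algebraMap, aeval_algHom_apply]

/-- The formula of Euler for the dual basis. -/
theorem euler (φ : ι → O →ₐ[B] Ω) (Tr : O → B) (hT : ∀ x, algebraMap B Ω (Tr x) = ∑ i, φ i x)
    (hφ : ∀ x, (∀ i, φ i x = 0) → x = 0) (θ : O) (hθ : Function.Injective fun i => φ i θ)
    (F : B[X]) (hF : aeval θ F = 0) {N : ℕ} (hN : F.natDegree ≤ N) (x : O) :
    x * aeval θ F.derivative = ∑ i : Fin N, Tr (x * θ ^ (i : ℕ)) • aeval θ (cq F i) := by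
  classical
  have hN' : (F.map (algebraMap B Ω)).natDegree ≤ N := natDegree_map_le.trans hN
  have h0 : ∀ i, (F.map (algebraMap B Ω)).eval (φ i θ) = 0 := fun i => by
    rw [eval_map', hF, map_zero]
  rw [← sub_eq_zero]
  refine hφ _ fun l => ?_
  rw [map_sub, sub_eq_zero, map_mul, ← eval_map', ← derivative_map, ← cas_eq _ _ hN', map_sum,
    Fin.sum_univ_eq_sum_range (fun i => φ l (Tr (x * θ ^ i) • aeval θ (cq F i)))]
  simp only [Algebra.smul_def, map_mul, AlgHom.commutes, hT, ← eval_map', cq_map,
    map_pow, Finset.sum_mul]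
  rw [Finset.sum_comm, Finset.sum_eq_single l (fun m _ hm => ?_) (by simp), Finset.mul_sum]
  · exact Finset.sum_congr rfl fun i _ => by ring
  · have h1 := cas_ne _ hN' (h0 l) (h0 m) fun h => hm (hθ h)
    rw [← mul_zero (φ m x), ← h1, Finset.mul_sum]
    exact Finset.sum_congr rfl fun i _ => by ring

end euler

/-- The formula of Euler in a finite separable extension of fields. -/
theorem euler_field {K L : Type*} [Field K] [Field L] [Algebra K L] [FiniteDimensional K L]
    [Algebra.IsSeparable K L] (θ : L) (hθ : IntermediateField.adjoin K {θ} = ⊤) (F : K[X])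
    (hF : aeval θ F = 0) {N : ℕ} (hN : F.natDegree ≤ N) (x : L) :
    x * aeval θ F.derivative =
      ∑ i : Fin N, Algebra.trace K L (x * θ ^ (i : ℕ)) • aeval θ (cq F i) := by
  refine euler (Ω := AlgebraicClosure K) (fun σ : L →ₐ[K] AlgebraicClosure K => σ) _
    (fun x => trace_eq_sum_embeddings _) (fun x h => ?_) θ (fun σ σ' h => ?_) F hF hN x
  · exact (map_eq_zero_iff _ (IsAlgClosed.lift : L →ₐ[K] AlgebraicClosure K).injective).1 (h _)
  · have h1 : Algebra.adjoin K {θ} = ⊤ := by
      rw [← IntermediateField.adjoin_simple_toSubalgebra_of_isAlgebraic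
        (Algebra.IsAlgebraic.isAlgebraic θ), hθ, IntermediateField.top_toSubalgebra]
    exact AlgHom.ext_of_adjoin_eq_top h1 fun y hy => by
      rw [Set.mem_singleton_iff.1 hy]
      exact h

open AdjoinRoot in
/-- The roots and the trace of a monic polynomial with invertible different. -/
theorem exists_tr {B Ω : Type*} [CommRing B] [Field Ω] [IsAlgClosed Ω] [Algebra B Ω]
    (hinj : Function.Injective (algebraMap B Ω)) (F : B[X]) (hF : F.Monic)
    (hu : IsUnit (aeval (root F) F.derivative)) :
    ∃ (φ : Fin F.natDegree → AdjoinRoot F →ₐ[B] Ω) (Tr : AdjoinRoot F →ₗ[B] B),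
      (∀ x, algebraMap B Ω (Tr x) = ∑ i, φ i x) ∧ (∀ x, (∀ i, φ i x = 0) → x = 0) ∧
      F.map (algebraMap B Ω) = ∏ i, (X - C (φ i (root F))) ∧
      ∀ x, x * aeval (root F) F.derivative =
        ∑ i : Fin F.natDegree, Tr (x * root F ^ (i : ℕ)) • aeval (root F) (cq F i) := by
  classical
  have : Nontrivial B := (algebraMap B Ω).domain_nontrivial
  set G := F.map (algebraMap B Ω) with hG
  have hs : G.Separable := by
    obtain ⟨u, h⟩ := hu.exists_left_inv
    obtain ⟨u, rfl⟩ := mk_surjective u
    rw [aeval_eq, ← map_mul, ← map_one (mk F), mk_eq_mk] at h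
    obtain ⟨c, hc⟩ := h
    exact Separable.map ⟨-c, u, by linear_combination hc⟩
  have hc : G.roots.toFinset.card = F.natDegree := by
    rw [Multiset.toFinset_card_of_nodup (nodup_roots hs),
      ← (IsAlgClosed.splits G).natDegree_eq_card_roots, hF.natDegree_map]
  let e := G.roots.toFinset.equivFinOfCardEq hc
  let v : Fin F.natDegree → Ω := fun i => (e.symm i).1
  have hv : Function.Injective v := Subtype.val_injective.comp e.symm.injective
  have h1 : G = Lagrange.nodal Finset.univ v := by
    rw [Lagrange.nodal_eq, e.symm.prod_comp fun x => X - C x.1,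
      Finset.prod_coe_sort _ fun x => X - C x, Finset.prod_eq_multiset_prod,
      Multiset.toFinset_val, (nodup_roots hs).dedup]
    exact (IsAlgClosed.splits G).eq_prod_roots_of_monic (hF.map _)
  have h2 : ∀ i, F.eval₂ (Algebra.ofId B Ω) (v i) = 0 := fun i => by
    have := Lagrange.eval_nodal_at_node (v := v) (Finset.mem_univ i)
    rwa [← h1, hG, eval_map] at this
  let φ : Fin F.natDegree → AdjoinRoot F →ₐ[B] Ω := fun i => liftAlgHom F _ (v i) (h2 i)
  have h3 : ∀ i, φ i (root F) = v i := fun i => liftAlgHom_root _ _ _ _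
  have h4 : ∀ x : AdjoinRoot F, ((modByMonicHom hF x).map (algebraMap B Ω)).degree <
      (Finset.univ : Finset (Fin F.natDegree)).card ∧
      ∀ i, ((modByMonicHom hF x).map (algebraMap B Ω)).eval (v i) = φ i x := fun x => by
    refine ⟨degree_map_le.trans_lt ?_, fun i => ?_⟩
    · obtain ⟨g, rfl⟩ := mk_surjective x
      rw [modByMonicHom_mk, Finset.card_fin, ← degree_eq_natDegree hF.ne_zero]
      exact degree_modByMonic_lt _ hF
    · rw [← h3, eval_map', aeval_eq, mk_leftInverse hF x]
  let Tr : AdjoinRoot F →ₗ[B] B := lcoeff B (F.natDegree - 1) ∘ₗ modByMonicHom hF ∘ₗ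
    LinearMap.mulRight B (aeval (root F) F.derivative)
  have h5 : ∀ x, algebraMap B Ω (Tr x) = ∑ i, φ i x := fun x => by
    have h6 := Lagrange.coeff_eq_sum hv.injOn (h4 (x * aeval (root F) F.derivative)).1
    rw [coeff_map, Finset.card_fin] at h6
    refine h6.trans (Finset.sum_congr rfl fun i _ => ?_)
    have h7 := (hu.map (φ i)).ne_zero
    have h8 : φ i (aeval (root F) F.derivative) = ∏ j ∈ Finset.univ.erase i, (v i - v j) := by
      rw [← eval_map', ← derivative_map, ← hG, h1, h3,
        Lagrange.eval_nodal_derivative_eval_node_eq (Finset.mem_univ i), Lagrange.eval_nodal]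
    rw [(h4 _).2, map_mul, ← h8, mul_div_cancel_right₀ _ h7]
  have h6 : ∀ x, (∀ i, φ i x = 0) → x = 0 := fun x h => by
    have h7 := eq_zero_of_degree_lt_of_eval_index_eq_zero _ hv.injOn (h4 x).1
      fun i _ => ((h4 x).2 i).trans (h i)
    rw [← mk_leftInverse hF x, (Polynomial.map_eq_zero_iff hinj).1 h7, map_zero]
  refine ⟨φ, Tr, h5, h6, by simp only [h3]; exact h1, euler φ Tr h5 h6 _ ?_ F ?_ le_rfl⟩
  · simpa only [h3] using hv
  · rw [aeval_eq, mk_self]

/-- A trace which is a sum of embeddings commutes with the Frobenius map. -/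
theorem tr_pow {B O Ω ι : Type*} [CommRing B] [CommRing O] [Field Ω] [Fintype ι] (j : B →+* Ω)
    (hinj : Function.Injective j) (φ : ι → O →+* Ω) (Tr : O → B)
    (hT : ∀ x, j (Tr x) = ∑ i, φ i x) {p : ℕ} (hp : p.Prime) (hp0 : (p : Ω) = 0) (f : ℕ) (x : O) :
    Tr (x ^ p ^ f) = Tr x ^ p ^ f := by
  have := Fact.mk hp
  have := (CharP.charP_iff_prime_eq_zero hp).2 hp0
  apply hinj
  rw [map_pow, hT, hT, sum_pow_char_pow]
  simp only [map_pow]

end Pool.Agent.Lib.A35.Car
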