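import Pool.Agent.Lib.A35.Spr2
import Pool.Agent.Lib.A35.Deg
import Pool.Agent.Lib.A35.Trc

/-! A presentation of a finite extension of a rational function field, and traces. -/

open Set Polynomial Submodule

set_option linter.unusedSectionVars false
set_option linter.unusedVariables false

noncomputable section

namespace Pool.Agent.Lib.A35.SS0

open Pool.Agent.Lib.UR Pool.Agent.Lib.A35.Car

section pres
variable {k L : Type} [Field k] [Field L] [Algebra k L] {n : ℕ} {z : Fin n → L}

/-- Evaluation in the field of rational functions. -/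
def ek (z : Fin n → L) : MvPolynomial (Fin n) k →+* IntermediateField.adjoin k (range z) :=
  (MvPolynomial.aeval (sub k z) : MvPolynomial (Fin n) k →ₐ[k] _).toRingHom

theorem alg_ek (s : MvPolynomial (Fin n) k) :
    algebraMap _ L (ek z s) = MvPolynomial.aeval z s :=
  MvPolynomial.comp_aeval_apply (sub k z) (IntermediateField.adjoin k (range z)).val s

theorem evp_eq (θ : L) (G : (MvPolynomial (Fin n) k)[X]) :
    evp z θ G = aeval θ (G.map (ek z)) := by
  rw [aeval_def, eval₂_map]
  exact congrArg (fun f => eval₂ f θ G) (RingHom.ext fun s => (alg_ek s).symm)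

theorem ek_inj (hz : AlgebraicIndependent k z) : Function.Injective (ek (k := k) z) :=
  fun P Q h => hz (by rw [← alg_ek, ← alg_ek, h])

theorem frac (hz : AlgebraicIndependent k z) (c : IntermediateField.adjoin k (range z)) :
    ∃ s t : MvPolynomial (Fin n) k, s ≠ 0 ∧ c * ek z s = ek z t := by
  obtain ⟨t, s, h⟩ := (IntermediateField.mem_adjoin_range_iff k z c.1).1 c.2
  by_cases hs : s = 0
  · exact ⟨1, 0, one_ne_zero, Subtype.ext (by simp [h, hs])⟩
  refine ⟨s, t, hs, (algebraMap _ L).injective ?_⟩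
  rw [map_mul, alg_ek, alg_ek]
  exact (eq_div_iff fun h0 => hs (hz (by rw [h0, map_zero]))).1 h

theorem frac' (hz : AlgebraicIndependent k z) {β : Type} [Fintype β]
    (c : β → IntermediateField.adjoin k (range z)) :
    ∃ (s : MvPolynomial (Fin n) k) (t : β → MvPolynomial (Fin n) k), s ≠ 0 ∧
      ∀ i, c i * ek z s = ek z (t i) := by
  choose s t h1 h2 using fun i => frac hz (c i)
  choose w hw using fun i => Finset.dvd_prod_of_mem s (Finset.mem_univ i)
  exact ⟨∏ i, s i, fun i => t i * w i, Finset.prod_ne_zero_iff.2 fun i _ => h1 i, fun i => by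
    rw [hw i, map_mul, map_mul, ← mul_assoc, h2]⟩

/-- Every algebraic element has a multiple of polynomial growth. -/
theorem exists_mul (hz : IsTranscendenceBasis k z) (x : L) :
    ∃ (s : MvPolynomial (Fin n) k) (j : ℕ), s ≠ 0 ∧
      MvPolynomial.aeval z s * x ∈ cl (sys k z ^ j) := by
  have := hz.isAlgebraic
  obtain ⟨y, h0, G', h1, h2⟩ := (Algebra.IsAlgebraic.isAlgebraic
    (R := Algebra.adjoin k (range z)) x).exists_integral_multiple
  let φ : MvPolynomial (Fin n) k →+* Algebra.adjoin k (range z) := hz.1.aevalEquiv.toRingEquiv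
  have h3 : ∀ s, algebraMap _ L (φ s) = MvPolynomial.aeval z s :=
    hz.1.algebraMap_aevalEquiv
  obtain ⟨s, rfl⟩ : ∃ s, φ s = y := hz.1.aevalEquiv.surjective y
  obtain ⟨G, rfl, -, h4⟩ := lifts_and_natDegree_eq_and_monic (f := φ)
    ((lifts_iff_coeff_lifts G').2 fun i => hz.1.aevalEquiv.surjective _) h1
  refine ⟨s, G.support.sup fun i => (G.coeff i).totalDegree, fun h => h0 (by rw [h, map_zero]),
    mem_cl_of_eqn z _ G h4 (fun i => ?_) ?_⟩
  · rcases lt_trichotomy i G.natDegree with h | h | h
    · refine le_trans ?_ (Nat.le_mul_of_pos_right _ (Nat.sub_pos_of_lt h))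
      by_cases h5 : i ∈ G.support
      · exact Finset.le_sup (f := fun i => (G.coeff i).totalDegree) h5
      · simp [notMem_support_iff.1 h5]
    · simp [h, h4.coeff_natDegree]
    · simp [coeff_eq_zero_of_natDegree_lt h]
  · rw [eval₂_map, Algebra.smul_def, h3] at h2
    exact (congrArg (fun f => eval₂ f _ G) (RingHom.ext fun s => (h3 s).symm)).trans h2

theorem exists_prim [CharZero k] (hz : IsTranscendenceBasis k z)
    [FiniteDimensional (IntermediateField.adjoin k (range z)) L] :
    ∃ (θ : L) (j : ℕ), θ ∈ cl (sys k z ^ j) ∧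
      IntermediateField.adjoin (IntermediateField.adjoin k (range z)) {θ} = ⊤ := by
  set K := IntermediateField.adjoin k (range z)
  obtain ⟨θ₀, h0⟩ := Field.exists_primitive_element K L
  obtain ⟨s, j, hs, h1⟩ := exists_mul hz θ₀
  refine ⟨_, j, h1, eq_top_iff.2 (h0.ge.trans (IntermediateField.adjoin_simple_le_iff.2 ?_))⟩
  have h3 : θ₀ = (algebraMap K L (ek z s))⁻¹ * (MvPolynomial.aeval z s * θ₀) := by
    rw [alg_ek, inv_mul_cancel_left₀ fun h => hs (hz.1 (by rw [h, map_zero]))]
  exact h3 ▸ mul_mem (inv_mem (IntermediateField.algebraMap_mem _ _))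
    (h3 ▸ IntermediateField.mem_adjoin_simple_self _ _)

theorem exists_pres [CharZero k] (hz : AlgebraicIndependent k z)
    [FiniteDimensional (IntermediateField.adjoin k (range z)) L] {θ : L} {j : ℕ}
    (h1 : θ ∈ cl (sys k z ^ j))
    (h2 : IntermediateField.adjoin (IntermediateField.adjoin k (range z)) {θ} = ⊤) :
    ∃ F : (MvPolynomial (Fin n) k)[X], Pres z θ F ∧ evp z θ F.derivative ≠ 0 ∧
      F.natDegree = Module.finrank (IntermediateField.adjoin k (range z)) L := by
  set K := IntermediateField.adjoin k (range z)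
  obtain ⟨F, h3, -, h4, h5⟩ := exists_eqn hz j h1
  have h6 : F.map (ek z) = minpoly K θ := by
    refine map_injective (algebraMap K L) (algebraMap K L).injective ?_
    rw [← h4, Polynomial.map_map]
    exact congrArg (fun f => F.map f) (RingHom.ext alg_ek)
  refine ⟨F, ⟨h3, hz, h5, fun x => ?_, fun G hG => ?_⟩, ?_, ?_⟩
  · have h7 : x ∈ Algebra.adjoin K {θ} := by
      rw [← IntermediateField.adjoin_simple_toSubalgebra_of_isAlgebraic
        (Algebra.IsAlgebraic.isAlgebraic θ), h2]
      trivial
    induction h7 using Algebra.adjoin_induction with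
    | mem x hx => exact ⟨1, one_ne_zero, X, by rw [evp_X, map_one, mul_one, hx]⟩
    | algebraMap c =>
      obtain ⟨s, t, h8, h9⟩ := frac hz c
      exact ⟨s, h8, C t, by rw [evp_C, ← alg_ek, ← alg_ek, ← map_mul, h9]⟩
    | add x y _ _ hx hy =>
      obtain ⟨s, h8, G, h9⟩ := hx
      obtain ⟨s', h8', G', h9'⟩ := hy
      refine ⟨s * s', mul_ne_zero h8 h8', G * C s' + G' * C s, ?_⟩
      rw [map_add, map_mul, map_mul, map_mul, evp_C, evp_C, ← h9, ← h9']
      ring
    | mul x y _ _ hx hy =>
      obtain ⟨s, h8, G, h9⟩ := hx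
      obtain ⟨s', h8', G', h9'⟩ := hy
      refine ⟨s * s', mul_ne_zero h8 h8', G * G', ?_⟩
      rw [map_mul, map_mul, ← h9, ← h9']
      ring
  · rw [← map_dvd_map (ek z) (ek_inj hz) h3, h6]
    exact minpoly.dvd K θ (by rwa [← evp_eq])
  · rw [evp_eq, ← derivative_map, h6]
    exact (Algebra.IsSeparable.isSeparable K θ).aeval_derivative_ne_zero (minpoly.aeval K θ)
  · rw [← h3.natDegree_map (ek z), h6, ← IntermediateField.adjoin.finrank
      (Algebra.IsIntegral.isIntegral θ), h2, IntermediateField.finrank_top']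

/-- The traces are determined by the formula of Euler. -/
theorem trace_eq [CharZero k] [FiniteDimensional (IntermediateField.adjoin k (range z)) L] {θ : L}
    {F : (MvPolynomial (Fin n) k)[X]} (hP : Pres z θ F) (h1 : evp z θ F.derivative ≠ 0)
    (h2 : IntermediateField.adjoin (IntermediateField.adjoin k (range z)) {θ} = ⊤) {β : Type}
    [Fintype β] {b : β → L} {g₀ : L} (hg : g₀ ≠ 0) {e : Fin F.natDegree → β}
    (he : ∀ i, b (e i) = g₀ * θ ^ (i : ℕ)) {x : L} {P : β → MvPolynomial (Fin n) k}
    (h3 : ∀ s : β → MvPolynomial (Fin n) k, ∑ i, MvPolynomial.aeval z (s i) * b i = 0 →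
      ∑ i, s i * P i = 0)
    (h4 : x * g₀ * evp z θ F.derivative =
      ∑ i, MvPolynomial.aeval z (P (e i)) * evp z θ (cq F i)) (i : β) :
    Algebra.trace (IntermediateField.adjoin k (range z)) L (x * b i) = ek z (P i) := by
  classical
  set K := IntermediateField.adjoin k (range z)
  have h5 : Fintype.linearCombination K (fun i => ek z (P i)) ∈
      (LinearMap.ker (Fintype.linearCombination K b)).dualAnnihilator := by
    refine (mem_dualAnnihilator _).2 fun c hc => ?_
    obtain ⟨s, t, h6, h7⟩ := frac' hP.ind c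
    rw [LinearMap.mem_ker, Fintype.linearCombination_apply] at hc
    have h8 := congrArg (ek z) (h3 t (by
      rw [← mul_zero (algebraMap K L (ek z s)), ← hc, Finset.mul_sum]
      refine Finset.sum_congr rfl fun i _ => ?_
      rw [← alg_ek, ← h7, map_mul, Algebra.smul_def]
      ring))
    simp only [map_sum, map_mul, ← h7, map_zero, mul_comm _ (ek z s), mul_assoc,
      ← Finset.mul_sum] at h8
    rw [Fintype.linearCombination_apply]
    exact (mul_eq_zero.1 h8).resolve_left ((map_ne_zero_iff _ (ek_inj hP.ind)).2 h6)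
  rw [← LinearMap.range_dualMap_eq_dualAnnihilator_ker] at h5
  obtain ⟨φ, h5⟩ := h5
  obtain ⟨x', rfl⟩ := ((Algebra.traceForm K L).toDual (traceForm_nondegenerate K L)).surjective φ
  have h6 : ∀ i, Algebra.trace K L (x' * b i) = ek z (P i) := fun i => by
    simpa [LinearMap.BilinForm.toDual_def] using LinearMap.congr_fun h5 (Pi.single i 1)
  have h7 := euler_field θ h2 (F.map (ek z)) (by rw [← evp_eq, hP.root])
    (natDegree_map_le (p := F)) (x' * g₀)
  rw [derivative_map, ← evp_eq, Finset.sum_congr rfl (g := fun i =>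
    MvPolynomial.aeval z (P (e i)) * evp z θ (cq F i)) fun i _ => by
      rw [mul_assoc, ← he, h6, ← cq_map, ← evp_eq, Algebra.smul_def, alg_ek], ← h4] at h7
  rw [← mul_right_cancel₀ hg (mul_right_cancel₀ h1 h7), h6]

end pres

end Pool.Agent.Lib.A35.SS0
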