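import Pool.Agent.Lib.A35.SSDefs
import Pool.Agent.Lib.A35.B_FRG
import Pool.Agent.Lib.A35.SS0

/-! The finite projection exists. -/

open Module Submodule Set

set_option linter.unusedSectionVars false
set_option linter.unusedVariables false

noncomputable section

namespace Pool.Agent.Lib.A35

open Pool.Agent.Lib.UR

namespace SSG
variable {L : Type} [Field L] [Algebra ℂ L]

theorem bound {P A H Z : Submodule ℂ L} {l s w : L} {q m b e r : ℕ} (hb : b + 1 = (q + 1) * m)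
    (hm : 0 < m) (hY : span ℂ {l} * (P * A * H) ≤ cl Z) (hs : s ∈ Mix.Sec P H q (m * r) r)
    (hw : w ∈ cl (Z ^ e * (A ^ m * H ^ b))) :
    s * l ^ (m * r) * w ^ r ∈ cl (Z ^ (r * (e + m))) := by
  obtain ⟨m, rfl⟩ := Nat.exists_eq_add_of_lt hm
  rw [zero_add] at *
  obtain rfl : b = q * (m + 1) + m := by nlinarith
  have h1 := mul_mem_cl (mul_mem_cl (le_cl _ hs) (le_cl _
    (pow_mem_pow _ (mem_span_singleton_self (R := ℂ) l) ((m + 1) * r)))) (pow_mem_cl hw r)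
  refine cl_le_cl ?_ h1
  rw [show Mix.Sec P H q ((m + 1) * r) r * span ℂ {l} ^ ((m + 1) * r) *
      (Z ^ e * (A ^ (m + 1) * H ^ (q * (m + 1) + m))) ^ r =
      Mix.Sec P H q ((m + 1) * r) r * H ^ (q * ((m + 1) * r)) *
        (span ℂ {l} ^ ((m + 1) * r) * A ^ ((m + 1) * r) * H ^ (m * r) * Z ^ (e * r)) by ring]
  refine (mul_le_mul' (Mix.sec_mul_le _ _) (le_cl _)).trans ((cl_mul_le _ _).trans (cl_le_cl ?_))
  rw [show P ^ ((m + 1) * r) * H ^ r *
      (span ℂ {l} ^ ((m + 1) * r) * A ^ ((m + 1) * r) * H ^ (m * r) * Z ^ (e * r)) =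
      (span ℂ {l} * (P * A * H)) ^ ((m + 1) * r) * Z ^ (e * r) by ring,
    show Z ^ (r * (e + (m + 1))) = Z ^ ((m + 1) * r) * Z ^ (e * r) by ring]
  exact (mul_le_mul' (pow_le_cl hY _) (le_cl _)).trans (cl_mul_le _ _)

theorem range_succ {n : ℕ} {z : Fin (n + 1) → L} (h : z 0 = 1) :
    range z = insert 1 (range fun c : Fin n => z c.succ) := by
  rw [Fin.range_fin_succ, h]
  rfl

end SSG

theorem st_SSG : St_SSG := by
  intro L _ _ n X u m U hu hm
  have hV : X.P * X.A * X.H = span ℂ (range fun s : X.τ × (Fin (n + 1 + 1) → Fin (X.N + 1)) =>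
      X.p s.1 * X.G s.2) * span ℂ (range X.y) := by
    rw [← D34.span_mul_range, X.H_eq]
    rfl
  obtain ⟨z, l, hl, z0, hz, hf, h1, h2⟩ := D34.setup X.y0 X.sm (FRG.trdeg X.toMod₀) n.succ_pos
    (fun h => Mix.mul_ne_bot X.P_ne X.A_ne (by
      rw [Mod.P, Mod.A, D34.span_mul_range, h]
      simp)) _ hV
  set z' := fun c : Fin (n + 1) => z c.succ with hz'
  have h3 : sys ℂ z = sys ℂ z' := by
    rw [sys, SSG.range_succ z0, insert_eq_of_mem (mem_insert _ _), sys]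
  have h4 : IntermediateField.adjoin ℂ (range z) = IntermediateField.adjoin ℂ (range z') := by
    rw [SSG.range_succ z0]
    exact le_antisymm (IntermediateField.adjoin_le_iff.2 (insert_subset (one_mem _)
      (IntermediateField.subset_adjoin _ _))) (IntermediateField.adjoin.mono _ _ _ (subset_insert _ _))
  rw [h4] at hf
  set K := IntermediateField.adjoin ℂ (range z')
  obtain ⟨θ, j, h5, h6⟩ := SS0.exists_prim hz
  have h7 : (fun c => algebraMap K L ((Fin.cons 1 (Car.sub ℂ z') : Fin (n + 1 + 1) → K) c)) = z :=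
    funext fun c => Fin.cases (by simp [z0]) (fun c => rfl) c
  obtain ⟨e₀, h8⟩ := D34.dualP (K := K) X.sm (FRG.trdeg X.toMod₀) X.G_ne (D34.free_iff.2 X.free)
    (Fin.cons 1 (Car.sub ℂ z')) rfl hl X.P X.A X.H rfl rfl X.H_eq
    (fun c => by rw [congrFun h7 c]; exact h1 c) (by rwa [h7])
  rw [h7] at h8
  rw [h3] at h2 h8
  obtain ⟨b, hb⟩ : ∃ b, b + 1 = (X.q + 1) * m :=
    ⟨(X.q + 1) * m - 1, Nat.sub_add_cancel (Nat.mul_pos X.q.succ_pos hm)⟩
  obtain ⟨e, D, h9, h10, h11⟩ : ∃ e D, e₀ ≤ e ∧ j * finrank K L ≤ e ∧ D + (n + 1 + 1) = e + m :=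
    ⟨e₀ + j * finrank K L + (n + 1 + 1), e₀ + j * finrank K L + m, by omega, by omega, by omega⟩
  have := fd_pow (sys ℂ z') e
  have := fd_pow (sys ℂ z') (n + 1 + 1)
  have := fd_pow X.A m
  have := fd_pow X.H b
  have := fd_mul (X.A ^ m) (X.H ^ b)
  have := fd_mul (sys ℂ z' ^ e) (X.A ^ m * X.H ^ b)
  obtain ⟨g₀, h12, h13⟩ := (Submodule.ne_bot_iff _).1
    (Mix.mul_ne_bot (Mix.pow_ne_bot X.A_ne m) (Mix.pow_ne_bot X.H_ne b))
  obtain ⟨r₀, h14⟩ := X.nefS.pad' X.P_ne X.gen hm (sys ℂ z' ^ (n + 1 + 1))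
  choose! g h14 h15 using h14
  refine ⟨⟨z', θ, g₀, U.γ * l⁻¹ ^ (u * m), gaussT X.d z id * l ^ m,
    cl (sys ℂ z' ^ e * (X.A ^ m * X.H ^ b)), fun r => g r * l⁻¹ ^ (m * r), D, r₀ + 1, j, hz.1, hf,
    h6, h5, X.fd_cl _, h13, mul_ne_zero U.ne (pow_ne_zero _ (inv_ne_zero hl)),
    mul_ne_zero (D34.jac_ne X.dual z0 hz) (pow_ne_zero _ hl), r₀.succ_pos, fun i hi => ?_,
    fun i x hx w hw => ?_, fun r hr => ⟨mul_ne_zero (h14 r (by omega))
      (pow_ne_zero _ (inv_ne_zero hl)), fun w hw => ?_⟩, fun x hx => ?_⟩⟩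
  · rw [mul_comm g₀]
    refine mul_mem_cl (cl_le_cl ?_ (pow_mem_cl h5 i)) (le_cl _ h12)
    rw [← pow_mul]
    exact (pow_mono' (one_mem_sys _) ((Nat.mul_le_mul_left _ hi.le).trans h10)).trans (le_cl _)
  · have k1 := Mix.cl_congr_pow U.eq i
    rw [mul_pow, mul_pow, mul_pow, span_pow, singleton_pow, ← pow_mul, ← pow_mul, ← pow_mul,
      mul_assoc X.q] at k1
    have k2 := (Mix.mem_sec_iff X.H_ne (pow_ne_zero i U.ne) k1 x).2 hx
    rw [show u * m * i = m * (u * i) by ring] at k2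
    have k3 := SSG.bound hb hm h2 k2 hw
    rw [← h11, ← add_assoc] at k3
    rwa [show x * ((U.γ * l⁻¹ ^ (u * m)) ^ i * w ^ (u * i)) =
      U.γ ^ i * x * l⁻¹ ^ (m * (u * i)) * w ^ (u * i) by ring]
  · obtain ⟨t, ht⟩ := Nat.exists_eq_add_of_le' ((Nat.le_add_left (n + 1 + 1) D).trans
      (Nat.le_mul_of_pos_left _ (show 0 < r by omega)))
    rw [add_assoc D, ht, Nat.add_sub_cancel, ← cl_cancel _ (U' := sys ℂ z' ^ (n + 1 + 1))
      (Mix.pow_ne_bot (ne_bot_of_one (one_mem_sys _)) _), ← pow_add, ← ht, h11]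
    refine mem_div_iff_forall_mul_mem.2 fun ω hω => ?_
    have k3 := SSG.bound hb hm h2 (h15 r (by omega)
      (mul_mem_mul (mem_span_singleton_self _) hω)) hw
    rwa [show g r * l⁻¹ ^ (m * r) * w ^ r * ω = g r * ω * l⁻¹ ^ (m * r) * w ^ r by ring]
  · rw [← mul_assoc]
    exact h8 e h9 D m X.q b h11 hb x fun β hβ => hx β
      (((mul_le_mul' (pow_le_cl h2 e) (le_cl _)).trans (cl_mul_le _ _)) hβ)

end Pool.Agent.Lib.A35
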