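import Pool.Agent.Lib.A35.Blue

/-! Generating systems of class a multiple of `m D + H`. -/

open Module Submodule Set

noncomputable section

namespace Pool.Agent.Lib.A35

open Pool.Agent.Lib.MP_7fcda1_ag Pool.Agent.Lib.UR

namespace SYS
variable {L : Type} [Field L] [Algebra ℂ L] {n : ℕ} (X : Mod L n)

theorem gen : Gen ℂ X.y := by
  have := (X.sm 0).2.1
  have h1 : GD.chart X.y 0 ≤ (IntermediateField.adjoin ℂ (range X.y)).toSubalgebra :=
    Algebra.adjoin_le (range_subset_iff.2 fun j => by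
      rw [X.y0, div_one]
      exact IntermediateField.subset_adjoin ℂ _ ⟨j, rfl⟩)
  refine eq_top_iff.2 fun x _ => ?_
  obtain ⟨a, b, -, rfl⟩ := IsFractionRing.div_surjective (A := GD.chart X.y 0) x
  exact div_mem (h1 a.2) (h1 b.2)

include X in
theorem dim : Dim ℂ L n := ⟨X.x, X.tb⟩

theorem p_ne : X.p ≠ 0 := fun h => by
  obtain ⟨S, hS, -⟩ := X.free 0 ⊥ Ideal.isPrime_bot
  exact hS (congrFun h S)

theorem span_eq : span ℂ (range X.y) = sys ℂ X.y := by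
  rw [sys, insert_eq_of_mem (show (1 : L) ∈ range X.y from ⟨0, X.y0⟩)]

theorem nefS : Mix.NefS (span ℂ (range X.p)) (sys ℂ X.y) X.q := by
  rw [← span_eq]
  exact X.nef

theorem P_ne : span ℂ (range X.p) ≠ ⊥ := fun h => p_ne X (funext fun j =>
  (span_eq_bot.1 h) _ ⟨j, rfl⟩)

theorem cls {X : Mod L n} {a b : ℕ} (U : Sys X a b) :
    Mix.Cls (span ℂ (range X.p)) (sys ℂ X.y) X.q (sys ℂ U.w) a b := ⟨U.γ, U.ne, U.eq⟩

variable {κ : Type} [Field κ] [Algebra ℂ κ] (V : Pt L κ)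

theorem hc (c : ℂ) : ∃ c' : κ, (V.σ : L →+* V.K) (algebraMap ℂ L c) = algebraMap κ V.K c' :=
  ⟨algebraMap ℂ κ c, (V.σ.commutes c).trans (IsScalarTower.algebraMap_apply ℂ κ V.K c)⟩

end SYS

theorem st_SYS : St_SYS := fun L _ _ n X m => by
  have := FiniteDimensional.span_of_finite ℂ (finite_range X.p)
  obtain ⟨u, r, w, hu, h1, γ, h2, h3⟩ := (SYS.nefS X).sys (SYS.P_ne X) (SYS.gen X) (SYS.dim X) m
  exact ⟨u, hu, ⟨⟨r, w, γ, h2, h1, h3⟩⟩⟩

end Pool.Agent.Lib.A35
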