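import Pool.Agent.Lib.A35.Tay
import Pool.Agent.Lib.MP_7fcda1_ag.CT1

/-! Blowing up a chart along a branch of a curve until the branch is smooth. -/

set_option linter.unusedSectionVars false

noncomputable section

namespace Pool.Agent.Lib.A35.Bl

open Pool.Agent.Lib.MP_7fcda1_ag Pool.Agent.Lib.A35.T

variable {k R F ι : Type} [Field k] [CommRing R] [Field F] [Algebra k R] [Algebra k F]
  [Fintype ι] [DecidableEq ι]

/-- A chart at the place `x`: a subring with coordinates `η` and dual derivations `δ`. -/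
structure Chart (ρ : R →ₐ[k] F) (x : Place k F) (A : Subalgebra k R) (η : ι → R)
    (δ : ι → Derivation ℤ R R) : Prop where
  mem : ∀ a ∈ A, Ge x.O 0 (ρ a)
  inv : ∀ a ∈ A, ρ a ≠ 0 → ord x.O (ρ a) = 0 → ∃ b ∈ A, a * b = 1
  eta : ∀ i, η i ∈ A
  pos : ∀ i, Ge x.O 1 (ρ (η i))
  gen : ∀ a ∈ A, Ge x.O 1 (ρ a) → ∃ c : ι → R, (∀ i, c i ∈ A) ∧ a = ∑ i, c i * η i
  dual : ∀ i j, δ i (η j) = if i = j then 1 else 0
  pres : ∀ i, ∀ a ∈ A, δ i a ∈ A
  const : ∀ i c, δ i (algebraMap k R c) = 0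

variable {ρ : R →ₐ[k] F} {x : Place k F} {A : Subalgebra k R} {η : ι → R}
  {δ : ι → Derivation ℤ R R}

theorem der_sum (s : Finset ι) (D : ι → Derivation ℤ R R) (r : R) :
    (∑ b ∈ s, D b) r = ∑ b ∈ s, D b r := by
  induction s using Finset.induction_on with
  | empty => simp
  | insert a s ha ih => simp [Finset.sum_insert ha, ih]

/-- The restriction of a derivation to a stable subalgebra. -/
def res (D : Derivation ℤ R R) (h : ∀ a ∈ A, D a ∈ A) (h0 : ∀ c, D (algebraMap k R c) = 0) :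
    Derivation k A A :=
  Derivation.mk'
    { toFun := fun a => ⟨D a, h a a.2⟩
      map_add' := fun a b => Subtype.ext (by simp)
      map_smul' := fun c a => Subtype.ext (by simp [Algebra.smul_def, h0]) }
    fun a b => Subtype.ext (by simp)

theorem Chart.mem_pow [CharZero k] (h : Chart ρ x A η δ) (s : ℕ) (f : A)
    (hf : (f : R) ∈ RingHom.ker ρ ^ s) :
    f ∈ Ideal.span (Set.range fun i => (⟨η i, h.eta i⟩ : A)) ^ s := by
  let δ' : ι → Derivation k A A := fun i => res (δ i) (h.pres i) (h.const i)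
  have h1 : ∀ l : List ι, ((wd δ' l f : A) : R) = wd δ l f := by
    intro l
    induction l with
    | nil => rfl
    | cons i l ih => rw [wd_cons, wd_cons, ← ih]; rfl
  have T : Tay (Ideal.span (Set.range fun i => (⟨η i, h.eta i⟩ : A))) ⊥
      (fun i => (⟨η i, h.eta i⟩ : A)) δ' :=
    { un := fun n => by
        have := (IsUnit.mk0 ((n : k) + 1) (Nat.cast_add_one_ne_zero n)).map (algebraMap k A)
        simpa using this
      eq := by simp
      pres := fun i y hy => by simp [Ideal.mem_bot.1 hy]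
      dual := fun i j => by
        have : δ' i ⟨η j, h.eta j⟩ = if i = j then 1 else 0 := Subtype.ext (by
          change δ i (η j) = _
          rw [h.dual]
          split_ifs <;> rfl)
        simp [this] }
  have h2 := T.mem_pow s (f := f) fun l hl => by
    have h3 := wd_pow δ (RingHom.ker ρ) l 1 f (Ideal.pow_le_pow_right (by omega) hf)
    rw [pow_one, RingHom.mem_ker, ← h1] at h3
    obtain ⟨c, hc, e⟩ := h.gen _ (wd δ' l f).2 (Or.inl h3)
    exact Ideal.mem_span_range_iff_exists_fun.2 ⟨fun i => ⟨c i, hc i⟩, Subtype.ext (by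
      rw [e]; simp)⟩
  simpa using h2

theorem Chart.div_mem [CharZero k] (h : Chart ρ x A η δ) {A' : Subalgebra k R} (hA : A ≤ A')
    {v : R} (hv : ∀ j, η j * v ∈ A') (s : ℕ) {f : R} (hf : f ∈ A)
    (hf' : f ∈ RingHom.ker ρ ^ s) : f * v ^ s ∈ A' := by
  have key : ∀ s : ℕ, ∀ g ∈ Ideal.span (Set.range fun i => (⟨η i, h.eta i⟩ : A)) ^ s,
      (g : R) * v ^ s ∈ A' := by
    intro s
    induction s with
    | zero => intro g _; simpa using hA g.2
    | succ s ih =>
      intro g hg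
      rw [pow_succ] at hg
      refine Submodule.mul_induction_on hg (fun a ha b hb => ?_) fun a b ha hb => ?_
      · obtain ⟨c, rfl⟩ := Ideal.mem_span_range_iff_exists_fun.1 hb
        have e : ((a * ∑ i, c i * (⟨η i, h.eta i⟩ : A) : A) : R) * v ^ (s + 1) =
            a * v ^ s * ∑ i, c i * (η i * v) := by
          simp only [MulMemClass.coe_mul, AddSubmonoidClass.coe_finsetSum, Finset.mul_sum,
            Finset.sum_mul]
          exact Finset.sum_congr rfl fun i _ => by ring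
        rw [e]
        exact mul_mem (ih a ha) (sum_mem fun i _ => mul_mem (hA (c i).2) (hv i))
      · rw [AddMemClass.coe_add, add_mul]
        exact add_mem ha hb
  exact key s ⟨f, hf⟩ (h.mem_pow s ⟨f, hf⟩ hf')

/-- The localisation of a subalgebra at the elements which are units at `x`. -/
def loc (ρ : R →ₐ[k] F) (x : Place k F) (B : Subalgebra k R) : Subalgebra k R where
  carrier := {r | ∃ b ∈ B, ρ b ≠ 0 ∧ ord x.O (ρ b) = 0 ∧ r * b ∈ B}
  mul_mem' := by
    rintro r r' ⟨b, hb, h0, h1, h2⟩ ⟨b', hb', h0', h1', h2'⟩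
    refine ⟨b * b', mul_mem hb hb', by simp [h0, h0'], by simp [ord_mul h0 h0', h1, h1'], ?_⟩
    rw [mul_mul_mul_comm]
    exact mul_mem h2 h2'
  add_mem' := by
    rintro r r' ⟨b, hb, h0, h1, h2⟩ ⟨b', hb', h0', h1', h2'⟩
    refine ⟨b * b', mul_mem hb hb', by simp [h0, h0'], by simp [ord_mul h0 h0', h1, h1'], ?_⟩
    rw [show (r + r') * (b * b') = r * b * b' + r' * b' * b by ring]
    exact add_mem (mul_mem h2 hb') (mul_mem h2' hb)
  algebraMap_mem' c := ⟨1, one_mem _, by simp, by simp, by simp⟩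

theorem le_loc (B : Subalgebra k R) : B ≤ loc ρ x B :=
  fun r hr => ⟨1, one_mem _, by simp, by simp, by simpa using hr⟩

theorem loc_mem {B : Subalgebra k R} (h : ∀ a ∈ B, Ge x.O 0 (ρ a)) :
    ∀ a ∈ loc ρ x B, Ge x.O 0 (ρ a) := by
  rintro r ⟨b, -, h0, h1, h2⟩
  have := h _ h2
  rwa [map_mul, mul_comm, ge_mul_iff h0, h1] at this

theorem loc_inv (hu : ∀ r, ρ r ≠ 0 → IsUnit r) (B : Subalgebra k R) :
    ∀ a ∈ loc ρ x B, ρ a ≠ 0 → ord x.O (ρ a) = 0 → ∃ b ∈ loc ρ x B, a * b = 1 := by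
  rintro r ⟨b, hb, h0, h1, h2⟩ h3 h4
  obtain ⟨r', hr'⟩ := (hu r h3).exists_right_inv
  refine ⟨r', ⟨r * b, h2, by simp [h0, h3], by simp [ord_mul h3 h0, h1, h4], ?_⟩, hr'⟩
  rwa [← mul_assoc, mul_comm r', hr', one_mul]

theorem loc_pres (hu : ∀ r, ρ r ≠ 0 → IsUnit r) {B : Subalgebra k R} (D : Derivation ℤ R R)
    (h : ∀ a ∈ B, D a ∈ loc ρ x B) : ∀ a ∈ loc ρ x B, D a ∈ loc ρ x B := by
  rintro r hr
  obtain ⟨b, hb, h0, h1, h2⟩ := id hr
  obtain ⟨b', hb', e⟩ := loc_inv hu B b (le_loc B hb) h0 h1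
  have : D r = (D (r * b) - r * D b) * b' := by
    rw [D.leibniz, smul_eq_mul, smul_eq_mul, add_sub_cancel_left, mul_right_comm, e, one_mul]
  rw [this]
  exact mul_mem (sub_mem (h _ h2) (mul_mem hr (h b hb))) hb'

/-- If every element of `B` is a constant modulo `η`, then `η` generates the maximal ideal. -/
theorem loc_gen (hu : ∀ r, ρ r ≠ 0 → IsUnit r) {B : Subalgebra k R}
    (hm : ∀ a ∈ B, Ge x.O 0 (ρ a)) (hp : ∀ i, Ge x.O 1 (ρ (η i)))
    (h : ∀ a ∈ B, ∃ (c₀ : k) (c : ι → R), (∀ i, c i ∈ loc ρ x B) ∧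
      a = algebraMap k R c₀ + ∑ i, c i * η i) :
    ∀ a ∈ loc ρ x B, Ge x.O 1 (ρ a) → ∃ c : ι → R, (∀ i, c i ∈ loc ρ x B) ∧
      a = ∑ i, c i * η i := by
  rintro r ⟨b, hb, h0, h1, h2⟩ hr
  obtain ⟨b', hb', e⟩ := loc_inv hu B b (le_loc B hb) h0 h1
  obtain ⟨c₀, c, hc, e'⟩ := h _ h2
  have h3 : Ge x.O 1 (ρ (∑ i, c i * η i)) := by
    rw [map_sum]
    exact Ge.sum fun i _ => by simpa using (loc_mem hm _ (hc i)).mul (hp i)
  have h4 : Ge x.O 1 (algebraMap k F c₀) := by
    have h5 : Ge x.O 1 (ρ (r * b)) := by simpa using hr.mul (hm b hb)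
    have h6 := h5.sub h3
    rwa [← map_sub, e', add_sub_cancel_right, AlgHom.commutes] at h6
  have h7 : c₀ = 0 := by
    rcases h4 with h4 | h4
    · simpa using h4
    · rw [x.ord_const] at h4
      omega
  refine ⟨fun i => c i * b', fun i => mul_mem (hc i) hb', ?_⟩
  rw [← mul_one r, ← e, ← mul_assoc, e', h7, map_zero, zero_add, Finset.sum_mul]
  exact Finset.sum_congr rfl fun i _ => by ring

/-- One blow-up. -/
theorem Chart.step [IsAlgClosed k] [IsFF k F] (hu : ∀ r, ρ r ≠ 0 → IsUnit r)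
    (h : Chart ρ x A η δ) (i₀ : ι) {v : R} (hv : η i₀ * v = 1)
    (hm : ∀ j, Ge x.O (ord x.O (ρ (η i₀))) (ρ (η j))) :
    ∃ (A' : Subalgebra k R) (η' : ι → R) (δ' : ι → Derivation ℤ R R) (T : Matrix ι ι R),
      Chart ρ x A' η' δ' ∧ A ≤ A' ∧ (∀ j, η j * v ∈ A') ∧ (∀ a, δ' a = ∑ b, T a b • δ b) ∧
        T.det = η i₀ ^ (Fintype.card ι - 1) := by
  have hD : Disc x.O ∨ x.O = ⊤ := Or.inl x.disc
  have e1 : ρ (η i₀) * ρ v = 1 := by rw [← map_mul, hv, map_one]
  have h0 : ρ (η i₀) ≠ 0 := left_ne_zero_of_mul_eq_one e1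
  have hq : ∀ j, Ge x.O 0 (ρ (η j * v)) := fun j => by
    have := hm j
    rw [← one_mul (ρ (η j)), ← e1, mul_assoc, ge_mul_iff h0, sub_self] at this
    rwa [map_mul, mul_comm]
  choose c hc using fun j => x.exists_res ((mem_iff_ge hD).2 (hq j))
  let B : Subalgebra k R := Algebra.adjoin k (A ∪ Set.range fun j => η j * v)
  have hAB : A ≤ B := fun a ha => Algebra.subset_adjoin (Or.inl ha)
  have hqB : ∀ j, η j * v ∈ B := fun j => Algebra.subset_adjoin (Or.inr ⟨j, rfl⟩)
  have hBm : ∀ a ∈ B, Ge x.O 0 (ρ a) := by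
    intro a ha
    induction ha using Algebra.adjoin_induction with
    | mem a ha =>
      rcases ha with ha | ⟨j, rfl⟩
      exacts [h.mem a ha, hq j]
    | algebraMap r => exact h.mem _ (A.algebraMap_mem r)
    | add a b _ _ ha hb => rw [map_add]; exact ha.add hb
    | mul a b _ _ ha hb => rw [map_mul]; simpa using ha.mul hb
  let η' : ι → R := fun j => if j = i₀ then η i₀ else η j * v - algebraMap k R (c j)
  let T : Matrix ι ι R := (Matrix.diagonal fun j => if j = i₀ then 1 else η i₀).updateRow i₀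
    fun b => η b * v
  let δ' : ι → Derivation ℤ R R := fun a => ∑ b, T a b • δ b
  have hT0 : ∀ r, δ' i₀ r = ∑ b, η b * v * δ b r := fun r => by
    simp [δ', T, der_sum]
  have hT1 : ∀ a, a ≠ i₀ → ∀ r, δ' a r = η i₀ * δ a r := fun a ha r => by
    simp [δ', T, Matrix.diagonal_apply, ha, ite_smul]
  have hdv : ∀ a, δ a v = -(v * v * if a = i₀ then 1 else 0) := fun a => by
    have h1 := congrArg (δ a) hv
    rw [Derivation.leibniz, h.dual, Derivation.map_one_eq_zero, smul_eq_mul, smul_eq_mul] at h1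
    linear_combination v * h1 - δ a v * hv
  have hdq : ∀ a j, δ a (η j * v) =
      v * (if a = j then 1 else 0) - η j * v * v * if a = i₀ then 1 else 0 := fun a j => by
    rw [Derivation.leibniz, h.dual, hdv, smul_eq_mul, smul_eq_mul]
    ring
  have hq0 : ∀ j, δ' i₀ (η j * v) = 0 := fun j => by
    simp only [hT0, hdq, mul_sub, mul_ite, mul_one, mul_zero, Finset.sum_sub_distrib,
      Finset.sum_ite_eq', Finset.mem_univ, if_true]
    rw [hv]
    ring
  have hq1 : ∀ a, a ≠ i₀ → ∀ j, δ' a (η j * v) = if a = j then 1 else 0 := fun a ha j => by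
    rw [hT1 a ha, hdq, if_neg ha, mul_zero, sub_zero, ← mul_assoc, hv, one_mul]
  have hc0 : ∀ a r, δ' a (algebraMap k R r) = 0 := fun a r => by
    by_cases ha : a = i₀
    · simp [ha, hT0, h.const]
    · simp [hT1 a ha, h.const]
  have hpos : ∀ j, Ge x.O 1 (ρ (η' j)) := fun j => by
    by_cases hj : j = i₀
    · simpa [η', hj] using h.pos i₀
    · simpa [η', hj] using hc j
  have hη : ∀ j, η' j ∈ B := fun j => by
    by_cases hj : j = i₀
    · simpa [η', hj] using hAB (h.eta i₀)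
    · simpa [η', hj] using sub_mem (hqB j) (B.algebraMap_mem _)
  have hone : ∀ (r : R) (j : ι), r ∈ loc ρ x B → ∀ c₀ : k, ∃ (c₁ : k) (d : ι → R),
      (∀ i, d i ∈ loc ρ x B) ∧ algebraMap k R c₀ + r * η' j =
        algebraMap k R c₁ + ∑ i, d i * η' i := fun r j hr c₀ =>
    ⟨c₀, Pi.single j r, fun i => by
      by_cases hi : i = j
      · simpa [hi] using hr
      · simp [hi], by simp [Pi.single_apply]⟩
  refine ⟨loc ρ x B, η', δ', T, ⟨loc_mem hBm, loc_inv hu B, fun j => le_loc B (hη j), hpos,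
    loc_gen hu hBm hpos fun a ha => ?_, fun a j => ?_, fun a => loc_pres hu _ fun r hr => ?_, hc0⟩,
    hAB.trans (le_loc B), fun j => le_loc B (hqB j), fun _ => rfl, ?_⟩
  · induction ha using Algebra.adjoin_induction with
    | mem a ha =>
      rcases ha with ha | ⟨j, rfl⟩
      · obtain ⟨c₀, h1⟩ := x.exists_res ((mem_iff_ge hD).2 (h.mem a ha))
        obtain ⟨d, hd, e⟩ := h.gen (a - algebraMap k R c₀) (sub_mem ha (A.algebraMap_mem _))
          (by simpa using h1)
        have := hone (∑ i, d i * (η i * v)) i₀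
          (le_loc B (sum_mem fun i _ => mul_mem (hAB (hd i)) (hqB i))) c₀
        have e' : algebraMap k R c₀ + (∑ i, d i * (η i * v)) * η' i₀ = a := by
          rw [← sub_add_cancel a (algebraMap k R c₀), e, add_comm, Finset.sum_mul]
          simp only [η', if_true]
          exact congrArg (· + _) (Finset.sum_congr rfl fun i _ => by
            linear_combination d i * η i * hv)
        rwa [e'] at this
      · by_cases hj : j = i₀
        · exact ⟨1, 0, fun _ => zero_mem _, by simp [hj, hv]⟩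
        · simpa [η', hj] using hone 1 j (one_mem _) (c j)
    | algebraMap r => exact ⟨r, 0, fun _ => zero_mem _, by simp⟩
    | add a b _ _ ha hb =>
      obtain ⟨c₁, d, hd, rfl⟩ := ha
      obtain ⟨c₂, d', hd', rfl⟩ := hb
      refine ⟨c₁ + c₂, d + d', fun i => add_mem (hd i) (hd' i), ?_⟩
      simp only [map_add, Pi.add_apply, add_mul, Finset.sum_add_distrib]
      ring
    | mul a b _ hb' ha hb =>
      obtain ⟨c₁, d, hd, rfl⟩ := ha
      obtain ⟨c₂, d', hd', e⟩ := hb
      refine ⟨c₁ * c₂, fun i => algebraMap k R c₁ * d' i + b * d i, fun i =>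
        add_mem (mul_mem (Subalgebra.algebraMap_mem _ _) (hd' i)) (mul_mem (le_loc B hb') (hd i)),
        ?_⟩
      simp only [map_mul, add_mul, Finset.sum_add_distrib, mul_assoc, ← Finset.mul_sum]
      linear_combination algebraMap k R c₁ * e
  · by_cases ha : a = i₀ <;> by_cases hj : j = i₀
    · simp [η', ha, hj, hT0, h.dual, hv]
    · simp [η', ha, hj, hq0, hc0, Ne.symm hj, -Derivation.leibniz]
    · simp [η', ha, hj, hT1 a ha, h.dual]
    · simp [η', hj, hq1 a ha, hc0, -Derivation.leibniz]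
  · refine le_loc B ?_
    induction hr using Algebra.adjoin_induction with
    | mem r hr =>
      rcases hr with hr | ⟨j, rfl⟩
      · by_cases ha : a = i₀
        · rw [ha, hT0]
          exact sum_mem fun b _ => mul_mem (hqB b) (hAB (h.pres b r hr))
        · rw [hT1 a ha]
          exact hAB (mul_mem (h.eta _) (h.pres a r hr))
      · by_cases ha : a = i₀
        · rw [ha, hq0]
          exact zero_mem _
        · rw [hq1 a ha]
          split_ifs
          exacts [one_mem _, zero_mem _]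
    | algebraMap r => rw [hc0]; exact zero_mem _
    | add r s _ _ hr hs => rw [map_add]; exact add_mem hr hs
    | mul r s hr' hs' hr hs =>
      rw [Derivation.leibniz, smul_eq_mul, smul_eq_mul]
      exact add_mem (mul_mem hr' hs) (mul_mem hs' hr)
  · have e : (fun b => η b * v) = ∑ j, (if j = i₀ then 1 else η j * v * v) •
        (Matrix.diagonal fun j => if j = i₀ then 1 else η i₀ : Matrix ι ι R) j := by
      funext b
      simp only [Finset.sum_apply, Pi.smul_apply, smul_eq_mul, Matrix.diagonal_apply, mul_ite,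
        mul_zero, Finset.sum_ite_eq', Finset.mem_univ, if_true]
      split_ifs with hb
      · rw [hb, hv, mul_one]
      · linear_combination -(η b * v) * hv
    simp only [T]
    rw [e, Matrix.det_updateRow_sum, if_pos rfl, one_smul, Matrix.det_diagonal, Finset.prod_ite,
      Finset.prod_const_one, one_mul, Finset.prod_const, Finset.filter_ne',
      Finset.card_erase_of_mem (Finset.mem_univ _), Finset.card_univ]

/-- After finitely many blow-ups one coordinate is a uniformiser. -/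
theorem Chart.blow [CharZero k] [IsAlgClosed k] [IsFF k F] (hu : ∀ r, ρ r ≠ 0 → IsUnit r)
    (h : Chart ρ x A η δ) {a b : R} (ha : a ∈ A) (hb : b ∈ A) (ha0 : ρ a ≠ 0) (hb0 : ρ b ≠ 0)
    (hab : ord x.O (ρ a) = ord x.O (ρ b) + 1) :
    ∃ (A' : Subalgebra k R) (η' : ι → R) (δ' : ι → Derivation ℤ R R) (T : Matrix ι ι R)
      (u v : R) (i₀ : ι), Chart ρ x A' η' δ' ∧ u * v = 1 ∧ ρ (η' i₀) ≠ 0 ∧
        ord x.O (ρ (η' i₀)) = 1 ∧ (∀ a, δ' a = ∑ b, T a b • δ b) ∧
        T.det = u ^ (Fintype.card ι - 1) ∧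
        ∀ (s : ℕ), ∀ f ∈ A, f ∈ RingHom.ker ρ ^ s → f * v ^ s ∈ A' := by
  obtain ⟨n, hn⟩ := Int.eq_ofNat_of_zero_le ((ge_iff hb0).1 (h.mem b hb))
  induction n using Nat.strong_induction_on generalizing A η δ a b with
  | _ n ih =>
    have hsum : ∀ {e : ℤ}, (∀ j, Ge x.O e (ρ (η j))) → ∀ r ∈ A, Ge x.O 1 (ρ r) →
        Ge x.O e (ρ r) := fun {e} he r hr h1 => by
      obtain ⟨c, hc, rfl⟩ := h.gen r hr h1
      rw [map_sum]
      exact Ge.sum fun i _ => by simpa using (h.mem _ (hc i)).mul (he i)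
    have ha1 : Ge x.O 1 (ρ a) := Or.inr (by omega)
    have hne : (fun j => ρ (η j)) ≠ 0 := fun h0 => by
      have := (ge_iff ha0).1 (hsum (e := ord x.O (ρ a) + 1) (fun j => Or.inl (congrFun h0 j))
        a ha ha1)
      omega
    obtain ⟨i₀, h0, h1⟩ := exists_vord (V := x.O) hne
    have hm : ∀ j, Ge x.O (ord x.O (ρ (η i₀))) (ρ (η j)) := fun j =>
      (vge_iff hne).2 h1.le j
    have h2 := (ge_iff h0).1 (h.pos i₀)
    rcases h2.eq_or_lt with h3 | h3
    · exact ⟨A, η, δ, 1, 1, 1, i₀, h, mul_one _, h0, h3.symm, fun a => by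
        simp [Matrix.one_apply, ite_smul], by simp, fun s f hf _ => by simpa using hf⟩
    obtain ⟨v, hv⟩ := (hu _ h0).exists_right_inv
    obtain ⟨A₁, η₁, δ₁, T₁, h₁, hA, hq, hT, hdet⟩ := h.step hu i₀ hv hm
    have e1 : ρ (η i₀) * ρ v = 1 := by rw [← map_mul, hv, map_one]
    have hv0 : ρ v ≠ 0 := right_ne_zero_of_mul_eq_one e1
    have hov : ord x.O (ρ (η i₀)) + ord x.O (ρ v) = 0 := by rw [← ord_mul h0 hv0, e1, ord_one]
    have h4 := (ge_iff ha0).1 (hsum hm a ha ha1)
    have hdiv : ∀ r ∈ A, Ge x.O 1 (ρ r) → r * v ∈ A₁ := fun r hr h5 => by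
      obtain ⟨c, hc, rfl⟩ := h.gen r hr h5
      rw [Finset.sum_mul]
      exact sum_mem fun i _ => by rw [mul_assoc]; exact mul_mem (hA (hc i)) (hq i)
    have hb1 : b * v ∈ A₁ := hdiv b hb (Or.inr (by omega))
    have hb2 : ρ (b * v) ≠ 0 := by simp [hb0, hv0]
    obtain ⟨n', hn'⟩ := Int.eq_ofNat_of_zero_le ((ge_iff hb2).1 (h₁.mem _ hb1))
    have h6 : ord x.O (ρ (b * v)) = ord x.O (ρ b) + ord x.O (ρ v) := by
      rw [map_mul, ord_mul hb0 hv0]
    obtain ⟨A', η', δ', T', u', v', i₁, h', huv, h7, h8, hT', hdet', hf'⟩ :=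
      ih n' (by omega) h₁ (hdiv a ha ha1) hb1 (by simp [ha0, hv0]) hb2
        (by rw [h6, map_mul, ord_mul ha0 hv0]; omega) hn'
    refine ⟨A', η', δ', T' * T₁, u' * η i₀, v * v', i₁, h', by
      linear_combination u' * v' * hv + huv, h7, h8, fun a => ?_, ?_, fun s f hf hs => ?_⟩
    · simp only [hT', hT, Matrix.mul_apply, Finset.smul_sum, Finset.sum_smul, smul_smul]
      exact Finset.sum_comm
    · rw [Matrix.det_mul, hdet, hdet', mul_pow]
    · rw [mul_pow, ← mul_assoc]
      exact hf' s _ (h.div_mem hA hq s hf hs) (Ideal.mul_mem_right _ _ hs)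

theorem wd_smul (I : Ideal R) (v : R) (l : List ι) (f : R) : ∀ t : ℕ, f ∈ I ^ (t + l.length) →
    wd (fun a => v • δ a) l f - wd δ l (f * v ^ l.length) ∈ I ^ (t + 1) := by
  have h1 : ∀ (g : R) (l : List ι) (t : ℕ), f ∈ I ^ (t + l.length) →
      wd δ l (f * g) - g * wd δ l f ∈ I ^ (t + 1) := fun g l => by
    induction l with
    | nil => intro t _; simp [mul_comm]
    | cons a l ih =>
      intro t hf
      have hf' : f ∈ I ^ (t + 1 + l.length) := by rwa [add_assoc, add_comm 1]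
      have h2 := der_pow (δ a) I _ _ (ih (t + 1) hf')
      rw [map_sub, Derivation.leibniz, smul_eq_mul, smul_eq_mul] at h2
      have h3 := add_mem h2 (Ideal.mul_mem_right (δ a g) _ (wd_pow δ I l _ f hf'))
      convert h3 using 1
      simp only [wd_cons]
      ring
  have h2 : ∀ t : ℕ, f ∈ I ^ (t + l.length) →
      wd (fun a => v • δ a) l f - v ^ l.length * wd δ l f ∈ I ^ (t + 1) := by
    induction l with
    | nil => intro t _; simp
    | cons a l ih =>
      intro t hf
      have hf' : f ∈ I ^ (t + 1 + l.length) := by rwa [add_assoc, add_comm 1]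
      have h2 := der_pow (δ a) I _ _ (ih (t + 1) hf')
      rw [map_sub, Derivation.leibniz, smul_eq_mul, smul_eq_mul] at h2
      have h3 := Ideal.mul_mem_left _ v
        (add_mem h2 (Ideal.mul_mem_right (δ a (v ^ l.length)) _ (wd_pow δ I l _ f hf')))
      convert h3 using 1
      simp only [wd_cons, Derivation.smul_apply, smul_eq_mul, List.length_cons]
      ring
  intro t hf
  simpa using sub_mem (h2 t hf) (h1 (v ^ l.length) l t hf)

/-- A frame along the branch, integral on the leading forms and of small determinant. -/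
theorem Chart.frame [CharZero k] [IsAlgClosed k] [IsFF k F] (hu : ∀ r, ρ r ≠ 0 → IsUnit r)
    (h : Chart ρ x A η δ) {a b : R} (ha : a ∈ A) (hb : b ∈ A) (ha0 : ρ a ≠ 0) (hb0 : ρ b ≠ 0)
    (hab : ord x.O (ρ a) = ord x.O (ρ b) + 1) (D : ι → Derivation ℤ R R) (m : Matrix ι ι R)
    (hm : ∀ a, δ a = ∑ b, m a b • D b) (E : F → F) (γ : ι → F)
    (hE : ∀ r, E (ρ r) = ∑ a, ρ (D a r) * γ a) :
    ∃ (M : Matrix ι ι R) (i₀ : ι) (π : F), π ≠ 0 ∧ ord x.O π = 1 ∧
      ((M.map ρ).updateRow i₀ γ).det = E π * ρ m.det ∧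
      ∀ (l : List ι), ∀ f ∈ A, f ∈ RingHom.ker ρ ^ l.length →
        Ge x.O 0 (ρ (wd (fun a => ∑ b, M a b • D b) l f)) := by
  obtain ⟨A', η', δ', T, u, v, i₀, h', huv, h0, h1, hT, hdet, hf⟩ := h.blow hu ha hb ha0 hb0 hab
  have h2 : ∀ a, δ' a = ∑ b, (T * m) a b • D b := fun a => by
    simp only [hT, hm, Matrix.mul_apply, Finset.smul_sum, Finset.sum_smul, smul_smul]
    exact Finset.sum_comm
  have h3 : (Matrix.of fun a b => D a (η' b)) * (T * m) = 1 := by
    rw [mul_eq_one_comm]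
    ext a b
    have := h'.dual a b
    rw [h2, der_sum] at this
    rw [Matrix.mul_apply, Matrix.one_apply, ← this]
    rfl
  have h4 : γ = ∑ b, (E (ρ (η' b)) * ρ u) • (v • (T * m)).map ρ b := by
    funext a
    have h5 : ∀ c, ∑ b, ρ (D c (η' b)) * ρ ((T * m) b a) = if c = a then 1 else 0 := fun c => by
      have := congrArg ρ (congrFun (congrFun h3 c) a)
      rw [Matrix.mul_apply, Matrix.one_apply, map_sum] at this
      simpa [apply_ite] using this
    have h6 : ∀ b, E (ρ (η' b)) * ρ u * ρ (v * (T * m) b a) =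
        ∑ c, γ c * (ρ (D c (η' b)) * ρ ((T * m) b a)) := fun b => by
      rw [map_mul, mul_assoc, ← mul_assoc (ρ u), ← map_mul, huv, map_one, one_mul, hE,
        Finset.sum_mul]
      exact Finset.sum_congr rfl fun c _ => by ring
    simp only [Finset.sum_apply, Pi.smul_apply, Matrix.map_apply, Matrix.smul_apply, smul_eq_mul,
      h6]
    rw [Finset.sum_comm]
    simp [← Finset.mul_sum, h5]
  refine ⟨v • (T * m), i₀, _, h0, h1, ?_, fun l f hA hl => ?_⟩
  · have h5 : Fintype.card ι = Fintype.card ι - 1 + 1 :=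
      (Nat.sub_add_cancel (Fintype.card_pos_iff.2 ⟨i₀⟩)).symm
    rw [h4, Matrix.det_updateRow_sum, ← AlgHom.mapMatrix_apply, ← AlgHom.map_det, Matrix.det_smul,
      Matrix.det_mul, hdet, smul_eq_mul, mul_assoc, ← map_mul]
    congr 2
    generalize Fintype.card ι - 1 = n at h5
    rw [h5, pow_succ]
    have h6 : (u * v) ^ n = 1 := by simp [huv]
    linear_combination (u * v) ^ n * m.det * huv + m.det * h6
  · have h5 : (fun a => ∑ b, (v • (T * m)) a b • D b) = fun a => v • δ' a := funext fun a => by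
      simp [h2, Finset.smul_sum, smul_smul]
    have h6 := wd_smul (δ := δ') (RingHom.ker ρ) v l f 0 (by simpa using hl)
    rw [zero_add, pow_one, RingHom.mem_ker, map_sub, sub_eq_zero] at h6
    rw [h5, h6]
    refine h'.mem _ ?_
    generalize hf _ f hA hl = h7
    generalize f * v ^ l.length = g at h7
    clear h6 hl
    induction l with
    | nil => exact h7
    | cons a l ih => exact h'.pres a _ ih

end Pool.Agent.Lib.A35.Bl
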