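import Pool.Agent.Lib.A35.Det
import Pool.Agent.Lib.MP_7fcda1_ag.Ord2

/-! BLOW of ah35 (7.3): resolution of a branch by point blow-ups in an abstract chart. -/

namespace Pool.Agent.Lib.A35.T

open Pool.Agent.Lib.MP_7fcda1_ag Matrix

variable {k R F ι : Type} [Field k] [CommRing R] [Field F] [Algebra k R] [Fintype ι]
  [DecidableEq ι]

/-- The derivations with coefficient matrix `m` in the `D a`. -/
def dl (D : ι → Derivation ℤ R R) (m : Matrix ι ι R) (i : ι) : Derivation ℤ R R :=
  ∑ a, m i a • D a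

omit [DecidableEq ι] in
theorem dl_apply (D : ι → Derivation ℤ R R) (m : Matrix ι ι R) (i : ι) (x : R) :
    dl D m i x = ∑ a, m i a * D a x := sum_smul_apply D (m i) x

omit [DecidableEq ι] in
theorem dl_mul (D : ι → Derivation ℤ R R) (T m : Matrix ι ι R) (i : ι) (x : R) :
    dl D (T * m) i x = ∑ l, T i l * dl D m l x := by
  simp only [dl_apply, Matrix.mul_apply, Finset.sum_mul, Finset.mul_sum, mul_assoc]
  exact Finset.sum_comm

omit [DecidableEq ι] in
theorem dl_smul (D : ι → Derivation ℤ R R) (u : R) (m : Matrix ι ι R) :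
    dl D (u • m) = fun i => u • dl D m i := by
  funext i
  ext x
  simp [dl_apply, Finset.mul_sum, mul_assoc]

theorem wd_mul_sub {S J : Type} [CommRing S] [Algebra S R] (ε : J → Derivation S R R)
    (I : Ideal R) (g f : R) (l : List J) :
    ∀ s, f ∈ I ^ (s + l.length) → wd ε l (g * f) - g * wd ε l f ∈ I ^ (s + 1) := by
  induction l with
  | nil => intro s _; simp
  | cons i l ih =>
    intro s hf
    have hf' : f ∈ I ^ (s + 1 + l.length) := by
      rwa [List.length_cons, ← add_assoc, add_right_comm] at hf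
    have h1 := der_pow (ε i) I _ _ (ih (s + 1) hf')
    have h2 := wd_pow ε I l (s + 1) f hf'
    rw [map_sub, Derivation.leibniz, smul_eq_mul, smul_eq_mul] at h1
    have := add_mem h1 (Ideal.mul_mem_right (ε i g) _ h2)
    rw [wd_cons, wd_cons]
    refine (congrArg (· ∈ I ^ (s + 1)) ?_).mp this
    ring

theorem wd_smul_sub {S J : Type} [CommRing S] [Algebra S R] (ε : J → Derivation S R R)
    (I : Ideal R) (u f : R) (l : List J) : ∀ s, f ∈ I ^ (s + l.length) →
      wd (fun i => u • ε i) l f - u ^ l.length * wd ε l f ∈ I ^ (s + 1) := by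
  induction l with
  | nil => intro s _; simp
  | cons i l ih =>
    intro s hf
    have hf' : f ∈ I ^ (s + 1 + l.length) := by
      rwa [List.length_cons, ← add_assoc, add_right_comm] at hf
    have h1 := der_pow (ε i) I _ _ (ih (s + 1) hf')
    have h2 := wd_pow ε I l (s + 1) f hf'
    rw [map_sub, Derivation.leibniz, smul_eq_mul, smul_eq_mul] at h1
    have := Ideal.mul_mem_left _ u (add_mem h1 (Ideal.mul_mem_right (ε i (u ^ l.length)) _ h2))
    rw [wd_cons, wd_cons, Derivation.smul_apply, smul_eq_mul, List.length_cons]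
    refine (congrArg (· ∈ I ^ (s + 1)) ?_).mp this
    ring

theorem prod_ite_one {M : Type} [CommMonoid M] (i : ι) (x : M) :
    ∏ j, (if j = i then 1 else x) = x ^ (Fintype.card ι - 1) := by
  rw [← Finset.mul_prod_erase _ _ (Finset.mem_univ i), if_pos rfl, one_mul,
    Finset.prod_congr rfl fun j hj => if_neg (Finset.ne_of_mem_erase hj), Finset.prod_const,
    Finset.card_erase_of_mem (Finset.mem_univ i), Finset.card_univ]

/-- The ambient data: `R` is the germ along the curve with function field `F`, `O` a place with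
residue field `k`, `Dx` the derivation of `F` with the chain rule, `w` the order of `Dx π`. -/
structure Amb (k : Type) [Field k] [Algebra k R] (ρ : R →+* F) (O : ValuationSubring F)
    (D : ι → Derivation ℤ R R) (Dx : F → F) (γ : ι → F) (w : ℤ) : Prop where
  disc : Disc O
  unit : ∀ a, ρ a ≠ 0 → IsUnit a
  kill : ∀ a (c : k), D a (algebraMap k R c) = 0
  res : ∀ y ∈ O, ∃ c : k, Ge O 1 (y - ρ (algebraMap k R c))
  chain : ∀ f, Dx (ρ f) = ∑ a, ρ (D a f) * γ a
  fact : ∀ y, y ≠ 0 → ord O y = 1 → Dx y ≠ 0 ∧ ord O (Dx y) ≤ w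

/-- An abstract chart centred at the place `O`. -/
structure Chart (k : Type) [Field k] [Algebra k R] (ρ : R →+* F) (O : ValuationSubring F)
    (D : ι → Derivation ℤ R R) (A : Subring R) (η : ι → R) (m : Matrix ι ι R) : Prop where
  cst : ∀ c : k, algebraMap k R c ∈ A
  eta : ∀ i, η i ∈ A
  pos : ∀ i, Ge O 1 (ρ (η i))
  tay : ∀ a ∈ A, ∃ c : k, a - algebraMap k R c ∈ Submodule.span A (Set.range η)
  le : ∀ a ∈ A, ρ a ∈ O
  frac : ∃ a ∈ A, ∃ b ∈ A, ρ a ≠ 0 ∧ ρ b ≠ 0 ∧ ord O (ρ a) = ord O (ρ b) + 1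
  dual : ∀ i j, dl D m i (η j) = if i = j then 1 else 0
  pres : ∀ i, ∀ a ∈ A, dl D m i a ∈ A

/-- The conclusion of BLOW: the rows `≠ i0` of `ρ r` are the vectors `ξ`. -/
def Blown (ρ : R →+* F) (O : ValuationSubring F) (D : ι → Derivation ℤ R R) (γ : ι → F) (w : ℤ)
    (A : Subring R) (m : Matrix ι ι R) : Prop :=
  ∃ (i0 : ι) (r : Matrix ι ι R),
    (∀ l : List ι, i0 ∉ l → ∀ f ∈ A, f ∈ RingHom.ker ρ ^ l.length → ρ (wd (dl D r) l f) ∈ O) ∧
    ((r.map ρ).updateRow i0 γ).det ≠ 0 ∧
    ord O ((r.map ρ).updateRow i0 γ).det ≤ w + ord O (m.map ρ).det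

variable {ρ : R →+* F} {O : ValuationSubring F} {D : ι → Derivation ℤ R R} {Dx : F → F}
  {γ : ι → F} {w : ℤ} {A : Subring R} {η : ι → R} {m : Matrix ι ι R}

namespace Chart

theorem mul_eq (C : Chart k ρ O D A η m) :
    m.map ρ * (Matrix.of fun a b => ρ (D a (η b))) = 1 := by
  ext i j
  have := congrArg ρ (C.dual i j)
  rw [dl_apply, map_sum] at this
  simp only [map_mul] at this
  rw [Matrix.mul_apply, Matrix.one_apply]
  simp only [Matrix.map_apply, Matrix.of_apply, this]
  split_ifs <;> simp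

theorem det_ne (C : Chart k ρ O D A η m) : (m.map ρ).det ≠ 0 :=
  (Matrix.isUnit_det_of_right_inverse C.mul_eq).ne_zero

theorem ge_span (C : Chart k ρ O D A η m) (hO : Disc O) {n : ℤ} (h : ∀ j, Ge O n (ρ (η j)))
    {x : R} (hx : x ∈ Submodule.span A (Set.range η)) : Ge O n (ρ x) := by
  induction hx using Submodule.span_induction with
  | mem x hx => obtain ⟨j, rfl⟩ := hx; exact h j
  | zero => simp
  | add x y _ _ hx hy => rw [map_add]; exact hx.add hy
  | smul a x _ hx =>
    have := ((mem_iff_ge (Or.inl hO)).1 (C.le a a.2)).mul hx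
    rwa [zero_add, ← map_mul] at this

theorem ord_cst (C : Chart k ρ O D A η m) (hO : Disc O) {c : k} (hc : c ≠ 0) :
    ρ (algebraMap k R c) ≠ 0 ∧ ord O (ρ (algebraMap k R c)) = 0 := by
  have h0 : ρ (algebraMap k R c) ≠ 0 := (((IsUnit.mk0 c hc).map _).map ρ).ne_zero
  have h1 := (Ord2_mem hO h0).1 (C.le _ (C.cst c))
  have h2 : ρ (algebraMap k R c⁻¹) = (ρ (algebraMap k R c))⁻¹ :=
    map_inv₀ (ρ.comp (algebraMap k R)) c
  have h3 := (Ord2_mem hO (inv_ne_zero h0)).1 (h2 ▸ C.le _ (C.cst c⁻¹))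
  rw [ord_inv] at h3
  exact ⟨h0, by omega⟩

theorem mem_span (C : Chart k ρ O D A η m) (hO : Disc O) {a : R} (ha : a ∈ A)
    (h : Ge O 1 (ρ a)) : a ∈ Submodule.span A (Set.range η) := by
  obtain ⟨c, hc⟩ := C.tay a ha
  by_cases h0 : c = 0
  · simpa [h0] using hc
  · have h1 := h.sub (C.ge_span hO C.pos hc)
    rw [← map_sub, sub_sub_cancel, ge_iff (C.ord_cst hO h0).1, (C.ord_cst hO h0).2] at h1
    omega

theorem exists_ne (C : Chart k ρ O D A η m) (hO : Disc O) : ∃ j, ρ (η j) ≠ 0 := by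
  by_contra h
  push Not at h
  have h1 : ∀ a ∈ A, ρ a ≠ 0 → ord O (ρ a) = 0 := by
    intro a ha h0
    by_contra hne
    have h2 := (Ord2_mem hO h0).1 (C.le a ha)
    have h3 := C.ge_span hO (n := ord O (ρ a) + 1) (fun j => by simp [h j])
      (C.mem_span hO ha (Or.inr (by omega)))
    rw [ge_iff h0] at h3
    omega
  obtain ⟨a, ha, b, hb, ha0, hb0, h2⟩ := C.frac
  rw [h1 a ha ha0, h1 b hb hb0] at h2
  omega

/-- The derivations restricted to the chart ring. -/
def rs (C : Chart k ρ O D A η m) (i : ι) : Derivation ℤ A A :=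
  Derivation.mk' (AddMonoidHom.toIntLinearMap
    { toFun := fun a => ⟨dl D m i a, C.pres i a a.2⟩
      map_zero' := Subtype.ext (by simp)
      map_add' := fun a b => Subtype.ext (by simp) }) fun a b =>
        Subtype.ext ((dl D m i).leibniz a b)

theorem coe_wd (C : Chart k ρ O D A η m) (l : List ι) (a : A) :
    ((wd C.rs l a : A) : R) = wd (dl D m) l a := by
  induction l with
  | nil => rfl
  | cons i l ih => rw [wd_cons, wd_cons, ← ih]; rfl

theorem mem_ideal (C : Chart k ρ O D A η m) {a : A}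
    (h : (a : R) ∈ Submodule.span A (Set.range η)) :
    a ∈ Ideal.span (Set.range fun i => (⟨η i, C.eta i⟩ : A)) := by
  obtain ⟨b, hb⟩ := (Submodule.mem_span_range_iff_exists_fun A).1 h
  have : a = ∑ i, b i * ⟨η i, C.eta i⟩ := Subtype.ext (by simp [← hb, Subring.smul_def])
  rw [this]
  exact sum_mem fun i _ => Ideal.mul_mem_left _ _ (Ideal.subset_span ⟨i, rfl⟩)

theorem mem_pow [CharZero k] (C : Chart k ρ O D A η m) (hO : Disc O) {s : ℕ} {a : A}
    (h : (a : R) ∈ RingHom.ker ρ ^ s) :
    a ∈ Ideal.span (Set.range fun i => (⟨η i, C.eta i⟩ : A)) ^ s := by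
  have T : Tay (Ideal.span (Set.range fun i => (⟨η i, C.eta i⟩ : A))) ⊥
      (fun i => (⟨η i, C.eta i⟩ : A)) C.rs := by
    refine ⟨fun n => ?_, by simp, fun i x hx => by simp [Ideal.mem_bot.1 hx], fun i j => ?_⟩
    · refine IsUnit.of_mul_eq_one ⟨_, C.cst ((n : k) + 1)⁻¹⟩ (Subtype.ext ?_)
      have h1 : ((n : R) + 1) = algebraMap k R ((n : k) + 1) := by simp
      simp only [Subring.coe_mul, Subring.coe_add, Subring.coe_natCast, Subring.coe_one]
      rw [h1, ← map_mul, mul_inv_cancel₀ (Nat.cast_add_one_ne_zero n), map_one]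
    · have : C.rs i ⟨η j, C.eta j⟩ = if i = j then 1 else 0 := Subtype.ext (by
        refine (C.dual i j).trans ?_
        split_ifs <;> rfl)
      rw [this, sub_self]
      exact zero_mem _
  have := T.mem_pow s (f := a) fun l hl => C.mem_ideal (C.mem_span hO (wd C.rs l a).2 (by
    have h1 := wd_pow (dl D m) (RingHom.ker ρ) l 1 a (Ideal.pow_le_pow_right (by omega) h)
    rw [pow_one, RingHom.mem_ker] at h1
    rw [coe_wd, h1]
    exact ge_zero))
  simpa using this

/-- The smooth case. -/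
theorem base (H : Amb k ρ O D Dx γ w) (C : Chart k ρ O D A η m) {i : ι} (h0 : ρ (η i) ≠ 0)
    (h1 : ord O (ρ (η i)) = 1) : Blown ρ O D γ w A m := by
  have hγ : γ = ∑ b, Dx (ρ (η b)) • m.map ρ b := by
    have h2 := mul_eq_one_comm.1 C.mul_eq
    rw [← Matrix.vecMul_eq_sum]
    have h3 : (fun b => Dx (ρ (η b))) = γ ᵥ* Matrix.of fun a b => ρ (D a (η b)) := by
      funext b
      simp [H.chain, Matrix.vecMul, dotProduct, mul_comm]
    rw [h3, Matrix.vecMul_vecMul, h2, Matrix.vecMul_one]
  have hd : ((m.map ρ).updateRow i γ).det = Dx (ρ (η i)) * (m.map ρ).det := by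
    conv_lhs => rw [hγ]
    exact Matrix.det_updateRow_sum _ _ _
  obtain ⟨h2, h3⟩ := H.fact _ h0 h1
  refine ⟨i, m, fun l _ f hf _ => ?_, hd ▸ mul_ne_zero h2 C.det_ne, ?_⟩
  · have := C.coe_wd l ⟨f, hf⟩
    exact this ▸ C.le _ (wd C.rs l ⟨f, hf⟩).2
  · rw [hd, ord_mul h2 C.det_ne]
    omega

/-- One point blow-up. -/
theorem step [CharZero k] (H : Amb k ρ O D Dx γ w) (C : Chart k ρ O D A η m) {i : ι}
    (h0 : ρ (η i) ≠ 0) (hmin : ∀ j, Ge O (ord O (ρ (η i))) (ρ (η j))) :
    ∃ (A' : Subring R) (η' : ι → R) (m' : Matrix ι ι R), Chart k ρ O D A' η' m' ∧ η' i = η i ∧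
      (∀ a ∈ A, Ge O 1 (ρ a) → ∃ a' ∈ A', a = η i * a') ∧
      (Blown ρ O D γ w A' m' → Blown ρ O D γ w A m) := by
  have hO := H.disc
  obtain ⟨u, hu⟩ := (H.unit _ h0).exists_right_inv
  have hρu : ρ u = (ρ (η i))⁻¹ := eq_inv_of_mul_eq_one_right (by rw [← map_mul, hu, map_one])
  have hq : ∀ j, ρ (η j * u) ∈ O := fun j => by
    rw [mem_iff_ge (Or.inl hO), map_mul, hρu]
    have := (hmin j).mul (ge_ord (V := O) (a := (ρ (η i))⁻¹))
    rwa [ord_inv, add_neg_cancel] at this
  choose c hc using fun j => H.res _ (hq j)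
  let η' : ι → R := fun j => if j = i then η i else η j * u - algebraMap k R (c j)
  have hη'i : η' i = η i := if_pos rfl
  have hη' : ∀ j, j ≠ i → η' j = η j * u - algebraMap k R (c j) := fun j hj => if_neg hj
  let A' := Subring.closure ((A : Set R) ∪ Set.range η')
  have hAA : ∀ a ∈ A, a ∈ A' := fun a ha => Subring.subset_closure (Or.inl ha)
  have hηA : ∀ j, η' j ∈ A' := fun j => Subring.subset_closure (Or.inr ⟨j, rfl⟩)
  have hquo : ∀ j, η j * u ∈ A' := fun j => by
    by_cases hj : j = i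
    · rw [hj, hu]; exact one_mem _
    · have := add_mem (hηA j) (hAA _ (C.cst (c j)))
      rwa [hη' j hj, sub_add_cancel] at this
  have hsp : ∀ x ∈ Submodule.span A (Set.range η), u * x ∈ A' := by
    intro x hx
    induction hx using Submodule.span_induction with
    | mem x hx => obtain ⟨j, rfl⟩ := hx; rw [mul_comm]; exact hquo j
    | zero => simp
    | add x y _ _ hx hy => rw [mul_add]; exact add_mem hx hy
    | smul a x _ hx =>
      rw [Subring.smul_def, smul_eq_mul, mul_left_comm]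
      exact mul_mem (hAA a a.2) hx
  let T : Matrix ι ι R := (Matrix.diagonal fun j => if j = i then 1 else η i).updateRow i
    fun j => η j * u
  have hTi : ∀ x, dl D (T * m) i x = ∑ l, η l * u * dl D m l x := fun x => by
    rw [dl_mul]; simp [T]
  have hTj : ∀ j, j ≠ i → ∀ x, dl D (T * m) j x = η i * dl D m j x := fun j hj x => by
    rw [dl_mul]
    simp [T, Matrix.diagonal_apply, hj]
  have hk : ∀ l (e : k), dl D m l (algebraMap k R e) = 0 := fun l e => by
    simp [dl_apply, H.kill]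
  have hdu : ∀ l, dl D m l u = -(u * u * if l = i then 1 else 0) := fun l => by
    have h1 := (dl D m l).leibniz (η i) u
    rw [hu, Derivation.map_one_eq_zero, C.dual, smul_eq_mul, smul_eq_mul] at h1
    linear_combination (-u) * h1 - dl D m l u * hu
  have hdq : ∀ l j, j ≠ i → dl D m l (η' j)
      = (u * if l = j then 1 else 0) - η j * (u * u * if l = i then 1 else 0) := fun l j hj => by
    rw [hη' j hj, map_sub, hk, Derivation.leibniz, hdu, C.dual, smul_eq_mul, smul_eq_mul]
    ring
  have hdual : ∀ a j, dl D (T * m) a (η' j) = if a = j then 1 else 0 := by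
    intro a j
    by_cases ha : a = i <;> by_cases hj : j = i
    · rw [ha, hj, hTi, hη'i]
      simp [C.dual, hu]
    · rw [ha, hTi, if_neg (Ne.symm hj)]
      simp only [hdq _ j hj, mul_sub, Finset.sum_sub_distrib, mul_ite, mul_one, mul_zero,
        Finset.sum_ite_eq', Finset.mem_univ, if_true]
      linear_combination (-(η j * u * u)) * hu
    · rw [hj, hTj a ha, hη'i, C.dual, if_neg ha, mul_zero]
    · rw [hTj a ha, hdq a j hj, if_neg ha]
      split_ifs
      · linear_combination hu
      · simp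
  have hdet : ((T * m).map ρ).det = ρ (η i) ^ (Fintype.card ι - 1) * (m.map ρ).det := by
    have h1 : (fun j => η j * u) = ∑ l, (if l = i then 1 else η l * u * u) •
        (Matrix.diagonal fun j => if j = i then 1 else η i) l := by
      funext j
      rw [Finset.sum_apply, Finset.sum_eq_single j (fun l _ hl => by simp [hl]) (by simp)]
      by_cases hj : j = i
      · simp [hj, hu]
      · simp only [hj, if_false, Pi.smul_apply, Matrix.diagonal_apply_eq, smul_eq_mul]
        linear_combination (-(η j * u)) * hu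
    have h2 : T.det = η i ^ (Fintype.card ι - 1) := by
      simp only [T]
      rw [h1, Matrix.det_updateRow_sum, Matrix.det_diagonal, prod_ite_one]
      simp
    rw [Matrix.map_mul, Matrix.det_mul, ← map_pow, ← h2, RingHom.map_det]
    rfl
  have hpos : ∀ j, Ge O 1 (ρ (η' j)) := fun j => by
    by_cases hj : j = i
    · rw [hj, hη'i]; exact C.pos i
    · rw [hη' j hj, map_sub]; exact hc j
  refine ⟨A', η', T * m, ⟨fun e => hAA _ (C.cst e), hηA, hpos, fun a ha => ?_, fun a ha => ?_, ?_,
    hdual, fun j a ha => ?_⟩, hη'i, fun a ha h => ⟨u * a, hsp a (C.mem_span hO ha h), by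
      rw [← mul_assoc, hu, one_mul]⟩, ?_⟩
  · induction ha using Subring.closure_induction with
    | mem x hx =>
      rcases hx with hx | ⟨j, rfl⟩
      · obtain ⟨e, he⟩ := C.tay x hx
        refine ⟨e, ?_⟩
        have := Submodule.smul_mem (Submodule.span A' (Set.range η')) (⟨_, hsp _ he⟩ : A')
          (Submodule.subset_span ⟨i, rfl⟩)
        rwa [Subring.smul_def, smul_eq_mul, hη'i, mul_right_comm, mul_comm u, hu, one_mul] at this
      · exact ⟨0, by rw [map_zero, sub_zero]; exact Submodule.subset_span ⟨j, rfl⟩⟩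
    | zero => exact ⟨0, by simp⟩
    | one => exact ⟨1, by simp⟩
    | add x y _ _ hx hy =>
      obtain ⟨e, he⟩ := hx
      obtain ⟨e', he'⟩ := hy
      exact ⟨e + e', by rw [map_add, add_sub_add_comm]; exact add_mem he he'⟩
    | neg x _ hx =>
      obtain ⟨e, he⟩ := hx
      exact ⟨-e, by rw [map_neg, neg_sub_neg, ← neg_sub]; exact neg_mem he⟩
    | mul x y hx0 _ hx hy =>
      obtain ⟨e, he⟩ := hx
      obtain ⟨e', he'⟩ := hy
      refine ⟨e * e', ?_⟩
      have := add_mem (Submodule.smul_mem _ (⟨x, hx0⟩ : A') he')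
        (Submodule.smul_mem _ (⟨_, hAA _ (C.cst e')⟩ : A') he)
      rw [Subring.smul_def, Subring.smul_def, smul_eq_mul, smul_eq_mul] at this
      refine (congrArg (· ∈ Submodule.span A' (Set.range η')) ?_).mp this
      rw [map_mul]
      ring
  · refine (Subring.closure_le (t := O.toSubring.comap ρ)).2 ?_ ha
    rintro x (hx | ⟨j, rfl⟩)
    · exact C.le x hx
    · exact (mem_iff_ge (Or.inl hO)).2 ((hpos j).mono zero_le_one)
  · obtain ⟨a, ha, b, hb, h⟩ := C.frac
    exact ⟨a, hAA a ha, b, hAA b hb, h⟩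
  · induction ha using Subring.closure_induction with
    | mem x hx =>
      rcases hx with hx | ⟨l, rfl⟩
      · by_cases hj : j = i
        · rw [hj, hTi]
          exact sum_mem fun l _ => mul_mem (hquo l) (hAA _ (C.pres l x hx))
        · rw [hTj j hj]
          exact mul_mem (hAA _ (C.eta i)) (hAA _ (C.pres j x hx))
      · rw [hdual]
        split_ifs
        · exact one_mem _
        · exact zero_mem _
    | zero => simp
    | one => simp
    | add x y _ _ hx hy => rw [map_add]; exact add_mem hx hy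
    | neg x _ hx => rw [map_neg]; exact neg_mem hx
    | mul x y hx0 hy0 hx hy =>
      rw [Derivation.leibniz, smul_eq_mul, smul_eq_mul]
      exact add_mem (mul_mem hx0 hy) (mul_mem hy0 hx)
  · rintro ⟨i0, r, h1, h2, h3⟩
    have hpw : ∀ (s : ℕ) (a : A), a ∈ Ideal.span (Set.range fun i => (⟨η i, C.eta i⟩ : A)) ^ s →
        u ^ s * (a : R) ∈ A' := by
      intro s
      induction s with
      | zero => intro a _; simpa using hAA a a.2
      | succ s ih =>
        intro a ha
        rw [pow_succ] at ha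
        refine Submodule.mul_induction_on ha (fun x hx y hy => ?_) fun x y hx hy => ?_
        · have h4 : (y : R) ∈ Submodule.span A (Set.range η) := by
            obtain ⟨b, rfl⟩ := (Submodule.mem_span_range_iff_exists_fun A).1 hy
            rw [AddSubmonoidClass.coe_finsetSum]
            exact sum_mem fun l _ => Submodule.smul_mem _ (b l) (Submodule.subset_span ⟨l, rfl⟩)
          have := mul_mem (ih x hx) (hsp _ h4)
          rw [Subring.coe_mul, pow_succ, mul_mul_mul_comm]
          exact this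
        · rw [Subring.coe_add, mul_add]
          exact add_mem hx hy
    have hu0 : ρ u ≠ 0 := hρu ▸ inv_ne_zero h0
    have hd : (((u • r).map ρ).updateRow i0 γ).det
        = ρ u ^ (Fintype.card ι - 1) * ((r.map ρ).updateRow i0 γ).det := by
      rw [← prod_ite_one i0, ← Matrix.det_diagonal, ← Matrix.det_mul]
      congr 1
      ext a b
      rw [Matrix.diagonal_mul]
      by_cases ha : a = i0
      · simp [ha]
      · simp [ha]
    refine ⟨i0, u • r, fun l hl f hf hfm => ?_, hd ▸ mul_ne_zero (pow_ne_zero _ hu0) h2, ?_⟩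
    · have h4 := h1 l hl _ (hpw _ ⟨f, hf⟩ (C.mem_pow hO hfm)) (Ideal.mul_mem_left _ _ hfm)
      have h5 := wd_mul_sub (dl D r) (RingHom.ker ρ) (u ^ l.length) f l 0 (by simpa using hfm)
      have h6 := wd_smul_sub (dl D r) (RingHom.ker ρ) u f l 0 (by simpa using hfm)
      rw [zero_add, pow_one, RingHom.mem_ker, map_sub, sub_eq_zero] at h5 h6
      rw [dl_smul, h6, ← h5]
      exact h4
    · rw [hdet, ord_mul (pow_ne_zero _ h0) C.det_ne, ord_pow] at h3
      rw [hd, ord_mul (pow_ne_zero _ hu0) h2, ord_pow, hρu, ord_inv]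
      linarith

end Chart

theorem blow_aux [CharZero k] (H : Amb k ρ O D Dx γ w) (e : ℕ) :
    ∀ (A : Subring R) (η : ι → R) (m : Matrix ι ι R), Chart k ρ O D A η m →
      (∃ j, ρ (η j) ≠ 0 ∧ ord O (ρ (η j)) ≤ e) → Blown ρ O D γ w A m := by
  induction e with
  | zero =>
    rintro A η m C ⟨j, h0, h1⟩
    have := (ge_iff h0).1 (C.pos j)
    omega
  | succ e ih =>
    have inner : ∀ (o : ℕ) (A : Subring R) (η : ι → R) (m : Matrix ι ι R), Chart k ρ O D A η m →
        (∃ j, ρ (η j) ≠ 0 ∧ ord O (ρ (η j)) ≤ (e + 1 : ℕ)) → ∀ a ∈ A, ρ a ≠ 0 →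
        ¬ ((e + 1 : ℕ) : ℤ) ∣ ord O (ρ a) → ord O (ρ a) ≤ o → Blown ρ O D γ w A m := by
      intro o
      induction o with
      | zero =>
        intro A η m C _ a ha h0 hd ho
        have := (Ord2_mem H.disc h0).1 (C.le a ha)
        exact absurd ⟨0, by omega⟩ hd
      | succ o iho =>
        rintro A η m C ⟨i, hi0, hi⟩ a ha h0 hd ho
        by_cases hlt : ∃ j, ρ (η j) ≠ 0 ∧ ord O (ρ (η j)) ≤ e
        · exact ih A η m C hlt
        push Not at hlt
        have hi' := hlt i hi0
        obtain ⟨A', η', m', C', he, hdiv, hb⟩ := C.step H hi0 fun j => by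
          by_cases hj : ρ (η j) = 0
          · exact Or.inl hj
          · have := hlt j hj
            exact Or.inr (by omega)
        have h1 := (Ord2_mem H.disc h0).1 (C.le a ha)
        have h2 : ord O (ρ a) ≠ 0 := fun h => hd (h ▸ dvd_zero _)
        obtain ⟨a', ha', rfl⟩ := hdiv a ha (Or.inr (by omega))
        rw [map_mul] at h0 hd ho
        have h3 := right_ne_zero_of_mul h0
        rw [ord_mul hi0 h3] at hd ho
        have h4 : ord O (ρ (η i)) = (e + 1 : ℕ) := by omega
        refine hb (iho A' η' m' C' ⟨i, he ▸ hi0, he ▸ hi⟩ a' ha' h3 (fun h => hd ?_) (by omega))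
        exact dvd_add (h4 ▸ dvd_rfl) h
    rintro A η m C ⟨i, hi0, hi⟩
    rcases Nat.eq_zero_or_pos e with h | h
    · have := (ge_iff hi0).1 (C.pos i)
      exact C.base H hi0 (by omega)
    obtain ⟨a, ha, b, hb, ha0, hb0, hab⟩ := C.frac
    by_cases hd : ((e + 1 : ℕ) : ℤ) ∣ ord O (ρ a)
    · refine inner (ord O (ρ b)).toNat A η m C ⟨i, hi0, hi⟩ b hb hb0 (fun h' => ?_) (by omega)
      rw [hab] at hd
      have := Int.le_of_dvd one_pos ((dvd_add_right h').1 hd)
      omega
    · exact inner (ord O (ρ a)).toNat A η m C ⟨i, hi0, hi⟩ a ha ha0 hd (by omega)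

/-- BLOW. -/
theorem blow [CharZero k] (H : Amb k ρ O D Dx γ w) (C : Chart k ρ O D A η m) :
    Blown ρ O D γ w A m := by
  obtain ⟨j, hj⟩ := C.exists_ne H.disc
  exact blow_aux H (ord O (ρ (η j))).toNat A η m C ⟨j, hj, by omega⟩

end Pool.Agent.Lib.A35.T
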