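import Pool.Agent.Lib.A35.Defs

/-! Statements of the steps. -/

open Module Submodule Set Filter IsLocalRing
open scoped Polynomial

set_option linter.unusedVariables false

noncomputable section

namespace Pool.Agent.Lib.A35

open Pool.Agent.Lib.MP_7fcda1_ag Pool.Agent.Lib.UR G

/-! ### Numbers -/

def St_SYS : Prop := ∀ (L : Type) [Field L] [Algebra ℂ L] (n : ℕ) (X : Mod L n) (m : ℕ),
  ∃ u : ℕ, 0 < u ∧ Nonempty (Sys X (u * m) u)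

def St_NUM : Prop := ∀ (L : Type) [Field L] [Algebra ℂ L] (n : ℕ) (X : Mod L n) (κ : Type)
  [Field κ] [Algebra ℂ κ] (V : Pt L κ) (e : ℕ), X.ND → Dim κ V.K (e + 1) →
  ∃ k, V.Num X e k ∧ 0 < k 1

def St_HIL : Prop := ∀ (L : Type) [Field L] [Algebra ℂ L] (n : ℕ) (X : Mod L n) (κ : Type)
  [Field κ] [Algebra ℂ κ] (V : Pt L κ) (e : ℕ) (k : ℕ → ℕ) (a b : ℕ) (U : Sys X a b),
  Dim κ V.K (e + 1) → V.Num X e k → V.Hil U (e + 1) (Mix.pw k (e + 1) 0 a b)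

def St_BIG : Prop := ∀ (L : Type) [Field L] [Algebra ℂ L] (e : ℕ) (X : Mod L (e + 1))
  (k : ℕ → ℕ), (Pt.gp L).Num X e k → 0 < k (e + 1) → Big X.q X.y X.p (e + 1)

def St_NDD : Prop := ∀ (L : Type) [Field L] [Algebra ℂ L] (n : ℕ) (X : Mod L n) (N : ℕ),
  Hyp X.q X.y X.p N → X.ND

def St_EFW : Prop := ∀ (L : Type) [Field L] [Algebra ℂ L] (n : ℕ) (X : Mod L n) (u m : ℕ)
  (U : Sys X (u * m) u), ∃ g : L, g ≠ 0 ∧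
    span ℂ {g} * X.SecK m ^ (u * (X.r * m)) ≤ U.U (X.r * m + X.c)

def St_KDC : Prop := ∀ (L : Type) [Field L] [Algebra ℂ L] (n : ℕ) (X : Mod L n) (κ : Type)
  [Field κ] [Algebra ℂ κ] (V : Pt L κ) [IsFF κ V.K], X.r * V.Kc X ≤ X.c * V.Dc X

def St_NMB : Prop := ∀ (k : ℕ → ℕ) (e m : ℕ), 0 < k 1 → Mix.pw k (e + 1) 0 m 1 < m ^ (e + 1) →
  0 < e ∧ m ≤ Mix.pw k (e + 1) 0 m 1 ∧ Mix.pw k (e + 1) 0 m 1 ≤ (e + 1) * Mix.pw k e 0 m 1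

/-! ### The descent -/

def St_PGX : Prop := ∀ (L : Type) [Field L] [Algebra ℂ L] [Algebra.EssFiniteType ℂ L] (κ : Type)
  [Field κ] [Algebra ℂ κ] (V : Pt L κ) (d : ℕ), Dim κ V.K d →
  ∃ (G : PG L V.K d) (φ : V.R →+* G.R), IsMap (algebraMap κ V.K) φ ∧ V.m.map φ = G.p ∧
    ∀ W : Submodule ℂ L, FiniteDimensional κ (V.res W) →
      finrank V.K (G.V1.res W) ≤ finrank κ (V.res W)

def St_STP : Prop := ∀ (n : ℕ) (δ : ℝ), 0 < δ → δ < 1 / 2 → ∃ B : ℝ, 1 ≤ B ∧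
  ∀ (L : Type) [Field L] [Algebra ℂ L] (X : Mod L n) (u m : ℕ) (U : Sys X (u * m) u) (κ : Type)
    [Field κ] [Algebra ℂ κ] (e : ℕ) (G : PG L κ (e + 1)) (k : ℕ → ℕ) (Λ v C T : ℝ) (w c : ℕ),
    X.ND → Sta U G k Λ v C T w c →
    (∃ lam c', Lev (U.S κ G.s) G.p G.m lam (e + 1) c' ∧ u * lam * ((1 - 2 * δ) * v) ≤ 1) ∨
      ∃ e' < e, X.Has e' ((C + 2 * n / δ) * B) (T / B)

def St_INI : Prop := ∀ (L : Type) [Field L] [Algebra ℂ L] (e : ℕ) (X : Mod L (e + 1)), X.ND →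
  ¬ Big X.q X.y X.p (e + 1) → ∀ T : ℝ, X.Has e 0 T

/-! ### Generation of jets, the curve, its genus -/

def St_SS : Prop := ∀ (L : Type) [Field L] [Algebra ℂ L] (n : ℕ) (X : Mod L (n + 1)) (u m : ℕ)
  (U : Sys X (u * m) u) (κ : Type) [Field κ] [Algebra ℂ κ] (e : ℕ) (G : PG L κ (e + 1))
  (Λ lam : ℝ) (w c w' c' t : ℕ), 0 < u → 0 < m → Tow (U.S κ G.s) G.p Λ w c →
  Lev (U.S κ G.s) G.p G.m lam w' c' → u * (w * Λ + lam * (t + (e + 1 : ℕ))) < 1 → G.Onto X m t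

def St_CUR : Prop := ∀ (L : Type) [Field L] [Algebra ℂ L] (n : ℕ) (X : Mod L n) (u m : ℕ)
  (U : Sys X (u * m) u) (κ : Type) [Field κ] [Algebra ℂ κ] (e : ℕ) (G : PG L κ (e + 1))
  (k : ℕ → ℕ) (t : ℕ), 0 < u → 0 < m → 0 < t → G.V1.Num X e k → G.Onto X m t →
  ∃ (κ' : Type) (_ : Field κ') (_ : Algebra ℂ κ') (_ : IsAlgClosed κ') (V : Pt L κ')
    (_ : IsFF κ' V.K) (C : Crv X G m t V) (c₀ : ℕ), 0 < c₀ ∧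
    (t : ℤ) ^ e ≤ c₀ * V.Ec X (C.f.comp G.s) ∧
    t * V.Ec X (C.f.comp G.s) ≤ V.Kc X + m * V.Dc X + V.Hc X ∧
    (c₀ * V.Dc X : ℝ) ≤ X.rat m ^ e * (Mix.pw k e 1 m 1 : ℕ) ∧
    (c₀ * V.Hc X : ℝ) ≤ X.rat m ^ e * (Mix.pw k e 0 m 1 : ℕ)

def St_GCH : Prop := ∀ (L : Type) [Field L] [Algebra ℂ L] (n : ℕ) (X : Mod L n) (u m : ℕ)
  (U : Sys X (u * m) u) (κ κ' : Type) [Field κ] [Algebra ℂ κ] [Field κ'] [Algebra ℂ κ'] (e : ℕ)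
  (G : PG L κ (e + 1)) (t ω : ℕ) (V : Pt L κ') [IsFF κ' V.K] (C : Crv X G m t V)
  (D : Fin n → Derivation ℤ V.R V.R) (Λ lam Λ' : ℝ) (w c w' c' : ℕ), 0 < u → 0 < m → 0 < ω →
  IsD X D → Tow (U.S κ G.s) G.p Λ w c → Lev (U.S κ G.s) G.p G.m lam w' c' →
  u * Λ + X.rat m ≤ Λ' → u * Λ + u * Λ * t / ω + u * lam * t ≤ Λ' →
  V.Chn U D (C.f.comp G.s) Λ' t ω

def St_CHT : Prop := ∀ (L : Type) [Field L] [Algebra ℂ L] (n : ℕ) (X : Mod₀ L n)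
  (O : ValuationSubring L) (i : Fin (X.N + 1)), (∀ c : ℂ, algebraMap ℂ L c ∈ O) →
  (∀ j, O.valuation (X.y j) ≤ O.valuation (X.y i)) → ∃ S T t θ F μ, X.Loc O i S T t θ F μ

def St_FCT : Prop := ∀ (κ F : Type) [Field κ] [IsAlgClosed κ] [CharZero κ] [Field F] [Algebra κ F]
  [IsFF κ F], ∃ (D : Derivation κ F F) (W : Div κ F), D ≠ 0 ∧
    ∀ (v : Place κ F) (π : F), ord v.O π = 1 → W v = -ord v.O (D π)

def St_GEN : Prop := ∀ (L : Type) [Field L] [Algebra ℂ L] (c : ℕ) (X : Mod L (c + 2)) (u m : ℕ)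
  (U : Sys X (u * m) u) (κ : Type) [Field κ] [Algebra ℂ κ] [IsAlgClosed κ] (V : Pt L κ)
  [IsFF κ V.K] (D : Fin (c + 2) → Derivation ℤ V.R V.R) (s : L →ₐ[ℂ] κ) (Λ : ℝ) (t ω : ℕ)
  (D₀ : Derivation κ V.K V.K) (W : Div κ V.K), 0 < u → IsD X D → V.Chn U D s Λ t ω → D₀ ≠ 0 →
  (∀ (v : Place κ V.K) (π : V.K), ord v.O π = 1 → W v = -ord v.O (D₀ π)) →
  (degD W : ℝ) ≤ V.Kc X + V.Ec X s +
    2 * (c + 2) * max 0 (Λ * (m * V.Dc X + V.Hc X) - (t - ω) * V.Ec X s)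

/-! ### The end -/

def St_ARI : Prop := ∀ n N c r : ℕ, 0 < r → ∃ δ : ℝ, 0 < δ ∧ δ < 1 / 2 ∧ ∀ C : ℝ, ∃ T : ℝ, 1 < T ∧
  ∀ (e m w : ℕ) (x y v A B ρ : ℝ), e + 1 ≤ n → w ≤ n * n → 0 < m → 0 < v → 0 ≤ x → 0 ≤ y →
    ρ = 1 + c / (r * m) → x * v ≤ C → y * ((1 - 2 * δ) * v) ≤ 1 → T * v ≤ m → m ≤ v ^ (e + 1) →
    v ^ (e + 1) = m * A + B → 0 ≤ A → v ^ (e + 1) ≤ (e + 1) * B →
    ∃ (t ω : ℕ) (Λ : ℝ), 0 < t ∧ 0 < ω ∧ w * x + y * (t + (e + 1 : ℕ)) < 1 ∧ x + ρ ≤ Λ ∧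
      x + x * t / ω + y * t ≤ Λ ∧ ∀ E K D H W : ℝ, (t : ℝ) ^ e ≤ E → t * E ≤ K + m * D + H →
        D ≤ ρ ^ e * A → H ≤ ρ ^ e * B → r * K ≤ c * D →
        W ≤ K + E + 2 * n * max 0 (Λ * (m * D + H) - (t - ω) * E) → H ≤ N * W → False

def St_STA : Prop := ∀ (L : Type) [Field L] [Algebra ℂ L] (n : ℕ) (X : Mod L n) (N : ℕ),
  Hyp X.q X.y X.p N → ∃ δ : ℝ, 0 < δ ∧ δ < 1 / 2 ∧ ∀ C : ℝ, ∃ T : ℝ,
  ∀ (u m : ℕ) (U : Sys X (u * m) u) (κ : Type) [Field κ] [Algebra ℂ κ] (e : ℕ)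
    (G : PG L κ (e + 1)) (k : ℕ → ℕ) (Λ v lam : ℝ) (w c c' : ℕ), Sta U G k Λ v C T w c →
    Lev (U.S κ G.s) G.p G.m lam (e + 1) c' → u * lam * ((1 - 2 * δ) * v) ≤ 1 → False

/-- The theorem for a nef class `D`. -/
def St_MAIN : Prop := ∀ (L : Type) [Field L] [Algebra ℂ L] (e : ℕ) (X : Mod L (e + 1)) (N : ℕ),
  Hyp X.q X.y X.p N → Big X.q X.y X.p (e + 1)

def St_FRG : Prop := ∀ (L : Type) [Field L] [Algebra ℂ L] (n : ℕ) (X : Mod₀ L n), Free X.y X.G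

/-- The theorem for the canonical class. -/
def St_KIN : Prop := ∀ (L : Type) [Field L] [Algebra ℂ L] (e : ℕ) (X : Mod₀ L (e + 1)) (N : ℕ),
  Nef (e + 2) X.y X.G → Hyp (e + 2) X.y X.G N →
  (((e + 1 : ℕ) : ℕ∞) : WithBot ℕ∞) ≤ MP_9a2ae6_ag.kodaira ℂ L (e + 1)

end Pool.Agent.Lib.A35
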