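import Pool.Agent.Lib.NV.Spread

/-! The Cartier operator on a finite etale cover of affine space, and Frobenius powers. -/

open Set

set_option linter.unusedSectionVars false
set_option linter.unusedVariables false

noncomputable section

namespace Pool.Agent.Lib.A35.Car

open Pool.Agent.Lib.NV

/-- The ideal generated by the `q`-th powers. -/
def fpow {R : Type*} [CommRing R] (q : ℕ) (I : Ideal R) : Ideal R :=
  Ideal.span ((fun x => x ^ q) '' (I : Set R))

section fp
variable {R : Type*} [CommRing R]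

theorem pow_mem_fpow (q : ℕ) {I : Ideal R} {x : R} (h : x ∈ I) : x ^ q ∈ fpow q I :=
  Ideal.subset_span ⟨x, h, rfl⟩

theorem fpow_mono (q : ℕ) {I J : Ideal R} (h : I ≤ J) : fpow q I ≤ fpow q J :=
  Ideal.span_mono (image_mono h)

theorem fpow_mul (q : ℕ) (I J : Ideal R) : fpow q I * fpow q J ≤ fpow q (I * J) := by
  rw [fpow, fpow, Ideal.span_mul_span']
  refine Ideal.span_le.2 ?_
  rintro _ ⟨_, ⟨x, hx, rfl⟩, _, ⟨y, hy, rfl⟩, rfl⟩
  simpa only [mul_pow, SetLike.mem_coe] using pow_mem_fpow q (Ideal.mul_mem_mul hx hy)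

theorem fpow_pow (q : ℕ) (I : Ideal R) (t : ℕ) : fpow q I ^ t ≤ fpow q (I ^ t) := by
  induction t with
  | zero =>
    rw [pow_zero, pow_zero, Ideal.one_eq_top, top_le_iff, Ideal.eq_top_iff_one]
    simpa using pow_mem_fpow q (I := (⊤ : Ideal R)) (x := 1) trivial
  | succ t ih =>
    rw [pow_succ, pow_succ]
    exact (Ideal.mul_mono_left ih).trans (fpow_mul q _ _)

theorem sup_pow_le {I J K : Ideal R} {n : ℕ} (h : ∀ i ≤ n, I ^ i * J ^ (n - i) ≤ K) :
    (I ⊔ J) ^ n ≤ K := by
  rw [← Ideal.add_eq_sup, add_pow]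
  refine Finset.sum_induction _ (· ≤ K) (fun a b ha hb => sup_le ha hb) bot_le fun i hi => ?_
  exact Ideal.mul_le_left.trans (h i (Nat.lt_succ_iff.1 (Finset.mem_range.1 hi)))

theorem span_pow_step (q : ℕ) (s : Finset R) : ∀ n, s.card * (q - 1) + 1 ≤ n →
    Ideal.span (s : Set R) ^ n ≤ fpow q (Ideal.span s) * Ideal.span (s : Set R) ^ (n - q) := by
  classical
  induction s using Finset.induction_on with
  | empty =>
    intro n hn
    rw [Finset.coe_empty, Ideal.span_empty, ← Ideal.zero_eq_bot, zero_pow (by omega)]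
    exact bot_le
  | insert x s hx ih =>
    intro n hn
    rw [Finset.card_insert_of_notMem hx, add_mul, one_mul] at hn
    rw [Finset.coe_insert, Ideal.span_insert]
    set J := Ideal.span (s : Set R)
    set K := Ideal.span {x} ⊔ J
    have h1 : Ideal.span {x} ≤ K := le_sup_left
    have h2 : J ≤ K := le_sup_right
    refine sup_pow_le fun i hi => ?_
    by_cases h : q ≤ i
    · obtain ⟨l, rfl⟩ := Nat.exists_eq_add_of_le h
      rw [pow_add, mul_assoc]
      refine Ideal.mul_mono ?_ ?_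
      · rw [Ideal.span_singleton_pow, Ideal.span_singleton_le_iff_mem]
        exact pow_mem_fpow q (h1 (Ideal.mem_span_singleton_self x))
      · rw [show n - q = l + (n - (q + l)) by omega, pow_add]
        exact Ideal.mul_mono (Ideal.pow_right_mono h1 _) (Ideal.pow_right_mono h2 _)
    · refine (Ideal.mul_mono_right (ih _ (by omega))).trans ?_
      rw [mul_left_comm]
      refine Ideal.mul_mono (fpow_mono q h2) ?_
      refine (Ideal.mul_mono (Ideal.pow_right_mono h1 _) (Ideal.pow_right_mono h2 _)).trans ?_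
      rw [← pow_add]
      exact Ideal.pow_le_pow_right (by omega)

/-- Pigeonhole principle for powers of a finitely generated ideal. -/
theorem span_pow_le (q : ℕ) (s : Finset R) (t : ℕ) : ∀ n, q * t + s.card * (q - 1) + 1 ≤ n →
    Ideal.span (s : Set R) ^ n ≤ fpow q (Ideal.span (s : Set R) ^ (t + 1)) := by
  intro n hn
  refine le_trans ?_ (fpow_pow q _ _)
  induction t generalizing n with
  | zero =>
    exact (span_pow_step q s n (by omega)).trans (by rw [zero_add, pow_one]; exact Ideal.mul_le_left)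
  | succ t ih =>
    rw [mul_add, mul_one] at hn
    rw [pow_succ']
    exact (span_pow_step q s n (by omega)).trans (Ideal.mul_mono_right (ih _ (by omega)))

/-- The inclusion `p ^ (w q + 1) + (ζ) ^ (q (t + d)) ≤ ((ζ) ^ (t + 1) + p) ^ [q]`. -/
theorem sup_le_fpow {q w d t : ℕ} (g ζ : Finset R) (hg : g.card ≤ w) (hζ : ζ.card ≤ d)
    (hd : 0 < d) (hq : 0 < q) :
    Ideal.span (g : Set R) ^ (w * q + 1) ⊔ Ideal.span (ζ : Set R) ^ (q * (t + d)) ≤
      fpow q (Ideal.span (ζ : Set R) ^ (t + 1) ⊔ Ideal.span (g : Set R)) := by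
  refine sup_le ((span_pow_le q g 0 _ ?_).trans (fpow_mono q ?_))
    ((span_pow_le q ζ t _ ?_).trans (fpow_mono q le_sup_left))
  · have := Nat.mul_le_mul hg (Nat.sub_le q 1)
    omega
  · rw [zero_add, pow_one]
    exact le_sup_right
  · obtain ⟨r, rfl⟩ := Nat.exists_eq_add_of_lt hq
    have := Nat.mul_le_mul_right r hζ
    simp only [zero_add, Nat.add_sub_cancel]
    nlinarith

theorem fr_add {p : ℕ} (hp : p.Prime) (h : (p : R) = 0) (f : ℕ) (x y : R) :
    (x + y) ^ p ^ f = x ^ p ^ f + y ^ p ^ f := by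
  rw [add_pow_prime_pow_eq' hp, h, zero_mul, add_zero]

theorem fr_sum {p : ℕ} (hp : p.Prime) (h : (p : R) = 0) (f : ℕ) {ι : Type*} (s : Finset ι)
    (x : ι → R) : (∑ i ∈ s, x i) ^ p ^ f = ∑ i ∈ s, x i ^ p ^ f := by
  classical
  induction s using Finset.induction_on with
  | empty => simp [hp.ne_zero]
  | insert a s ha ih => rw [Finset.sum_insert ha, Finset.sum_insert ha, fr_add hp h, ih]

/-- An additive map which extracts `q`-th roots maps the Frobenius power into the ideal. -/
theorem map_fpow {q : ℕ} (C : R →+ R) (hC : ∀ f τ, C (f ^ q * τ) = f * C τ) (I : Ideal R) {x : R}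
    (hx : x ∈ fpow q I) : C x ∈ I := by
  have : ∀ r, C (r * x) ∈ I := by
    induction hx using Submodule.span_induction with
    | mem x hx =>
      obtain ⟨y, hy, rfl⟩ := hx
      intro r
      rw [mul_comm, hC]
      exact I.mul_mem_right _ hy
    | zero => simp
    | add x y _ _ hx hy => exact fun r => by rw [mul_add, map_add]; exact I.add_mem (hx r) (hy r)
    | smul c x _ hx => exact fun r => by rw [smul_eq_mul, ← mul_assoc]; exact hx _
  simpa using this 1

/-- Such a map extends to localisations. -/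
theorem ext_loc (M : Submonoid R) (S : Type*) [CommRing S] [Algebra R S] [IsLocalization M S]
    {q : ℕ} (hq : 0 < q) (C : R →+ R) (hC : ∀ f τ, C (f ^ q * τ) = f * C τ) :
    ∃ C' : S →+ S, (∀ f τ, C' (f ^ q * τ) = f * C' τ) ∧
      ∀ τ, C' (algebraMap R S τ) = algebraMap R S (C τ) := by
  obtain ⟨r, rfl⟩ := Nat.exists_eq_add_of_lt hq
  rw [zero_add] at hC ⊢
  have h1 : ∀ x : S, ∃ y : S, ∀ (a : R) (s : M), x * algebraMap R S s ^ (r + 1) =
      algebraMap R S a → y * algebraMap R S s = algebraMap R S (C a) := by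
    intro x
    obtain ⟨⟨a₀, s₀⟩, h0⟩ := IsLocalization.surj M x
    refine ⟨IsLocalization.mk' S (C (a₀ * s₀ ^ r)) s₀, fun a s h => ?_⟩
    have h2 : algebraMap R S (s₀ ^ (r + 1) * a) = algebraMap R S (s ^ (r + 1) * (a₀ * s₀ ^ r)) := by
      simp only [map_mul, map_pow]
      rw [← h, ← h0]
      ring
    obtain ⟨c, hc⟩ := (IsLocalization.eq_iff_exists M S).1 h2
    have h3 : C (((c : R) * s₀) ^ (r + 1) * a) = C ((c * s) ^ (r + 1) * (a₀ * s₀ ^ r)) := by
      congr 1
      linear_combination (c : R) ^ r * hc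
    rw [hC, hC] at h3
    refine (IsLocalization.map_units S (c * s₀)).mul_left_cancel ?_
    have h4 := congrArg (algebraMap R S) h3
    have h5 := IsLocalization.mk'_spec S (C (a₀ * s₀ ^ r)) s₀
    simp only [map_mul, Submonoid.coe_mul] at h4 ⊢
    linear_combination algebraMap R S c * algebraMap R S s * h5 - h4
  choose c hc using h1
  have h2 : ∀ x : S, ∃ (a : R) (s : M), x * algebraMap R S s ^ (r + 1) = algebraMap R S a := by
    intro x
    obtain ⟨⟨a, s⟩, h⟩ := IsLocalization.surj M x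
    exact ⟨a * s ^ r, s, by rw [map_mul, map_pow, ← h]; ring⟩
  refine ⟨AddMonoidHom.mk' c fun x y => ?_, fun f τ => ?_, fun τ => ?_⟩
  · obtain ⟨a, s, h⟩ := h2 x
    obtain ⟨b, t, h'⟩ := h2 y
    have h3 := hc (x + y) (t ^ (r + 1) * a + s ^ (r + 1) * b) (s * t) (by
      simp only [map_mul, map_pow, map_add, Submonoid.coe_mul]
      rw [← h, ← h']
      ring)
    refine (IsLocalization.map_units S (s * t)).mul_right_cancel ?_
    rw [h3, map_add, hC, hC]
    simp only [map_mul, map_add, Submonoid.coe_mul]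
    rw [← hc x a s h, ← hc y b t h']
    ring
  · obtain ⟨a, s, h⟩ := h2 τ
    obtain ⟨⟨b, t⟩, h'⟩ := IsLocalization.surj M f
    have h3 := hc (f ^ (r + 1) * τ) (b ^ (r + 1) * a) (s * t) (by
      simp only [map_mul, map_pow, Submonoid.coe_mul]
      rw [← h, ← h']
      ring)
    refine (IsLocalization.map_units S (s * t)).mul_right_cancel ?_
    change c _ * _ = f * c τ * _
    rw [h3, hC]
    simp only [map_mul, Submonoid.coe_mul]
    rw [← hc τ a s h, ← h']
    ring
  · simpa using hc (algebraMap R S τ) τ 1 (by simp)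

end fp

/-! ### The operator on polynomials -/
section poly
open MvPolynomial
variable {σ k : Type} [Fintype σ] [Field k]

/-- The exponent `(q - 1, …, q - 1)`. -/
def top (σ : Type) [Fintype σ] (q : ℕ) : σ →₀ ℕ := Finsupp.equivFunOnFinite.symm fun _ => q - 1

theorem top_lt {q : ℕ} (hq : 0 < q) (i : σ) : top σ q i < q := by
  change q - 1 < q
  omega

theorem deg_top (q : ℕ) : Finsupp.degree (top σ q) = Fintype.card σ * (q - 1) := by
  rw [Finsupp.degree_eq_sum]
  simp [top]

/-- The sharp degree bound. -/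
theorem deg_phi_top {q : ℕ} (hq : 0 < q) (f : MvPolynomial σ k) {D : ℕ}
    (h : f.totalDegree + Fintype.card σ + 1 ≤ q * (D + Fintype.card σ + 1)) :
    (phi hq (top σ q) f).totalDegree ≤ D := by
  refine Finset.sup_le fun α hα => ?_
  have h1 := le_totalDegree (p := f) (s := q • α + top σ q)
    (mem_support_iff.2 (mem_support_iff (p := phi hq (top σ q) f).1 hα))
  change Finsupp.degree _ ≤ _ at h1
  rw [map_add, map_nsmul, smul_eq_mul, deg_top] at h1
  change Finsupp.degree α ≤ D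
  obtain ⟨r, rfl⟩ := Nat.exists_eq_add_of_lt hq
  simp only [zero_add, Nat.add_sub_cancel] at h h1
  refine Nat.lt_succ_iff.1 (Nat.lt_of_mul_lt_mul_left (a := r + 1) ?_)
  nlinarith

theorem phi_top {q : ℕ} (hq : 0 < q) :
    phi hq (top σ q) (monomial (top σ q) (1 : k)) = 1 := by
  classical
  ext α
  rw [coeff_phi, coeff_monomial, coeff_one]
  refine if_congr ⟨fun h => inj_aff hq (top σ q) ?_, fun h => ?_⟩ rfl rfl
  · simpa using h
  · simp [← h]

end poly

/-! ### The operator on a cover -/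
section cover
open MvPolynomial
variable {σ k B O R ι : Type} [Fintype σ] [Field k] [CommRing B] [Algebra (MvPolynomial σ k) B]
  [CommRing O] [Algebra B O] [CommRing R] [Algebra O R] [Fintype ι]

/-- The Cartier operator. -/
theorem car (M : Submonoid (MvPolynomial σ k)) [IsLocalization M B] (N : Submonoid O)
    [IsLocalization N R] (Tr : O →ₗ[B] B) (e e' : ι → O)
    (hE : ∀ b, b = ∑ i, Tr (b * e' i) • e i) {p f : ℕ} (hp : p.Prime) (hp0 : (p : k) = 0)
    (hq : ∀ s : MvPolynomial σ k, s ^ p ^ f = expand (p ^ f) s)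
    (hT : ∀ b, Tr (b ^ p ^ f) = Tr b ^ p ^ f) :
    ∃ (C : O →+ O) (z : O), (∀ τ b (P : MvPolynomial σ k), algebraMap _ B P = Tr (τ * b ^ p ^ f) →
      algebraMap _ B (phi (pow_pos hp.pos f) (top σ (p ^ f)) P) = Tr (C τ * b)) ∧
      ∀ (I : Ideal R) (τ : O) (r : R), algebraMap O R τ - r ^ p ^ f * algebraMap O R z ∈
        fpow (p ^ f) I → algebraMap O R (C τ) - r ∈ I := by
  have hq0 := pow_pos hp.pos f
  set q := p ^ f with hqe
  obtain ⟨C₀, h0, h0'⟩ := ext_loc M B hq0 (phi hq0 (top σ q)) fun s g => by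
    rw [hq, phi_expand hq0 (top_lt hq0)]
  have hpO : (p : O) = 0 := by
    rw [← map_natCast (algebraMap B O), ← map_natCast (algebraMap (MvPolynomial σ k) B),
      ← map_natCast (C (σ := σ) (R := k)), hp0, map_zero, map_zero, map_zero]
  let C₁ : O →+ O := AddMonoidHom.mk' (fun τ => ∑ i, C₀ (Tr (τ * e i ^ q)) • e' i) fun x y => by
    simp only [add_mul, map_add, add_smul, Finset.sum_add_distrib]
  have h1 : ∀ τ b, Tr (C₁ τ * b) = C₀ (Tr (τ * b ^ q)) := fun τ b => by
    change Tr ((∑ i, C₀ (Tr (τ * e i ^ q)) • e' i) * b) = _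
    conv_rhs => rw [hE b, hqe, fr_sum hp hpO, ← hqe]
    simp only [Finset.sum_mul, Finset.mul_sum, map_sum, smul_mul_assoc, map_smul, smul_pow,
      mul_smul_comm, smul_eq_mul, h0]
    exact Finset.sum_congr rfl fun i _ => by rw [mul_comm, mul_comm (e' i)]
  have h2 : ∀ x y, (∀ b, Tr (x * b) = Tr (y * b)) → x = y := fun x y h => by
    rw [hE x, hE y]
    simp only [h]
  have h3 : ∀ g τ, C₁ (g ^ q * τ) = g * C₁ τ := fun g τ => h2 _ _ fun b => by
    rw [h1, mul_comm g, mul_assoc (C₁ τ), h1, mul_pow]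
    congr 2
    ring
  set z : O := algebraMap B O (algebraMap _ B (monomial (top σ q) (1 : k))) with hz
  have h4 : C₁ z = 1 := h2 _ _ fun b => by
    rw [h1, hz, ← Algebra.smul_def, map_smul, hT, smul_eq_mul, mul_comm, h0, h0', phi_top,
      map_one, mul_one, one_mul]
  obtain ⟨C₂, h5, h5'⟩ := ext_loc N R hq0 C₁ h3
  refine ⟨C₁, z, fun τ b P h => by rw [h1, ← h, h0'], fun I τ r h => ?_⟩
  have h6 := map_fpow C₂ h5 I h
  rwa [map_sub, h5, h5', h5', h4, map_one, mul_one] at h6

/-- Lifting modulo `I` with a degree bound on the traces. -/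
theorem frob_lift (M : Submonoid (MvPolynomial σ k)) [IsLocalization M B] (N : Submonoid O)
    [IsLocalization N R] (Tr : O →ₗ[B] B) (e e' : ι → O)
    (hE : ∀ b, b = ∑ i, Tr (b * e' i) • e i) {p f : ℕ} (hp : p.Prime) (hp0 : (p : k) = 0)
    (hq : ∀ s : MvPolynomial σ k, s ^ p ^ f = expand (p ^ f) s)
    (hT : ∀ b, Tr (b ^ p ^ f) = Tr b ^ p ^ f) (I : Ideal R) (BB : Set O) (D : ℕ)
    (h : ∀ ρ : R, ∃ τ : O, algebraMap O R τ - ρ ∈ fpow (p ^ f) I ∧ ∀ b ∈ BB,
      ∃ P : MvPolynomial σ k, P.totalDegree + Fintype.card σ + 1 ≤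
        p ^ f * (D + Fintype.card σ + 1) ∧ algebraMap _ B P = Tr (τ * b ^ p ^ f)) (r : R) :
    ∃ x : O, algebraMap O R x - r ∈ I ∧ ∀ b ∈ BB,
      ∃ P : MvPolynomial σ k, P.totalDegree ≤ D ∧ algebraMap _ B P = Tr (x * b) := by
  obtain ⟨C, z, h1, h2⟩ := car (R := R) M N Tr e e' hE hp hp0 hq hT
  obtain ⟨τ, h3, h4⟩ := h (r ^ p ^ f * algebraMap O R z)
  refine ⟨C τ, h2 I τ r h3, fun b hb => ?_⟩
  obtain ⟨P, h5, h6⟩ := h4 b hb
  exact ⟨_, deg_phi_top _ P h5, h1 τ b P h6⟩

end cover

end Pool.Agent.Lib.A35.Car
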