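import Mathlib

/-! Chains of ideals, levels and towers. -/

set_option autoImplicit false

open Pointwise

noncomputable section

namespace Pool.Agent.Lib.A35

section ch
variable {R : Type} [CommRing R]

/-- `B` arises from `A` by adding elements of `X` one at a time, each killed by `q`. -/
inductive Ch (q : Ideal R) (X : Set R) (A : Ideal R) : Ideal R → Prop
  | refl : Ch q X A A
  | step {J : Ideal R} {x : R} : Ch q X A J → x ∈ X → (∀ a ∈ q, a * x ∈ J) →
      Ch q X A (J ⊔ Ideal.span {x})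

namespace Ch
variable {q q' : Ideal R} {X X' : Set R} {A B C : Ideal R}

theorem le (h : Ch q X A B) : A ≤ B := by
  induction h with
  | refl => exact le_rfl
  | step _ _ _ ih => exact ih.trans le_sup_left

theorem of_eq (h : A = B) : Ch q X A B := h ▸ refl

theorem cast {A' B' : Ideal R} (h : Ch q X A B) (hA : A = A') (hB : B = B') : Ch q X A' B' :=
  hA ▸ hB ▸ h

theorem trans (h : Ch q X A B) (h' : Ch q X B C) : Ch q X A C := by
  induction h' with
  | refl => exact h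
  | step _ hx hq ih => exact ih.step hx hq

theorem sup (h : Ch q X A B) (C : Ideal R) : Ch q X (A ⊔ C) (B ⊔ C) := by
  induction h with
  | refl => exact refl
  | step _ hx hq ih =>
    exact (ih.step hx fun a ha => Ideal.mem_sup_left (hq a ha)).cast rfl (sup_right_comm _ _ _)

theorem mono (h : Ch q X A B) (hq : q' ≤ q) (hX : X ⊆ X') : Ch q' X' A B := by
  induction h with
  | refl => exact refl
  | step _ hx h1 ih => exact ih.step (hX hx) fun a ha => h1 a (hq ha)

/-- The elements may be changed by units and modulo `A`. -/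
theorem congr (h : Ch q X A B)
    (hX : ∀ x ∈ X, ∃ x' ∈ X', ∃ u : R, IsUnit u ∧ x' - u * x ∈ A) : Ch q X' A B := by
  induction h with
  | refl => exact refl
  | @step J x h0 hx h1 ih =>
    obtain ⟨x', hx', u, ⟨u, rfl⟩, h2⟩ := hX x hx
    have h3 : x' - u * x ∈ J := h0.le h2
    refine (ih.step hx' fun a ha => ?_).cast rfl (le_antisymm (sup_le le_sup_left ?_)
      (sup_le le_sup_left ?_))
    · have : a * x' = a * (x' - u * x) + u * (a * x) := by ring
      rw [this]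
      exact J.add_mem (J.mul_mem_left _ h3) (J.mul_mem_left _ (h1 a ha))
    · rw [Ideal.span_singleton_le_iff_mem]
      have : x' = (x' - u * x) + u * x := by ring
      rw [this]
      exact Submodule.add_mem_sup h3 (Ideal.mul_mem_left _ _ (Ideal.mem_span_singleton_self _))
    · rw [Ideal.span_singleton_le_iff_mem]
      have : x = -((u⁻¹ : Rˣ) * (x' - u * x)) + (u⁻¹ : Rˣ) * x' := by
        rw [mul_sub, ← mul_assoc, Units.inv_mul]; ring
      have h4 := Submodule.add_mem_sup (J.neg_mem (J.mul_mem_left (u⁻¹ : Rˣ) h3))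
        (Ideal.mul_mem_left _ ((u⁻¹ : Rˣ) : R) (Ideal.mem_span_singleton_self x'))
      rwa [← this] at h4

/-- Multiplying a chain by an element. -/
theorem smul (h : Ch q X A B) (x : R) (J : Ideal R) :
    Ch q ((fun y => x * y) '' X) (J ⊔ Ideal.span {x} * A) (J ⊔ Ideal.span {x} * B) := by
  induction h with
  | refl => exact refl
  | @step I y _ hy h1 ih =>
    refine (ih.step (x := x * y) ⟨y, hy, rfl⟩ fun a ha => Ideal.mem_sup_right ?_).cast rfl ?_
    · rw [mul_left_comm]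
      exact Ideal.mul_mem_mul (Ideal.mem_span_singleton_self _) (h1 a ha)
    · rw [Ideal.mul_sup, Ideal.span_singleton_mul_span_singleton, sup_assoc]

/-- Refinement. -/
theorem ref {q1 q2 : Ideal R} {X1 X2 : Set R} (h1 : Ch q1 X1 A B) (h2 : Ch q2 X2 (q1 ⊔ C) ⊤) :
    Ch q2 (X1 * X2) (A ⊔ C) (B ⊔ C) := by
  induction h1 with
  | refl => exact refl
  | @step J x _ hx hq ih =>
    refine ih.trans (((h2.smul x (J ⊔ C)).mono le_rfl ?_).cast ?_ ?_)
    · rintro _ ⟨y, hy, rfl⟩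
      exact Set.mul_mem_mul hx hy
    · refine sup_eq_left.2 ?_
      rw [Ideal.mul_sup]
      refine sup_le_sup (Ideal.mul_le.2 fun a ha b hb => ?_) Ideal.mul_le_right
      obtain ⟨r, rfl⟩ := Ideal.mem_span_singleton'.1 ha
      rw [mul_assoc, mul_comm x]
      exact J.mul_mem_left _ (hq b hb)
    · rw [Ideal.mul_top, sup_right_comm]

theorem of_finite {Y : Set R} (hY : Y.Finite) (hX : Y ⊆ X) (h : ∀ y ∈ Y, ∀ a ∈ q, a * y ∈ A) :
    Ch q X A (A ⊔ Ideal.span Y) := by
  induction Y, hY using Set.Finite.induction_on with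
  | empty => exact of_eq (by simp)
  | @insert y Y _ _ ih =>
    refine ((ih (fun z hz => hX (Set.mem_insert_of_mem _ hz))
      fun z hz => h z (Set.mem_insert_of_mem _ hz)).step (hX (Set.mem_insert _ _))
      fun a ha => Ideal.mem_sup_left (h y (Set.mem_insert _ _) a ha)).cast rfl ?_
    rw [Ideal.span_insert, sup_assoc, sup_comm (Ideal.span Y)]

/-- The monomials in `g` of degree in `[i, j)`. -/
def mons (g : Set R) (i j : ℕ) : Set R := {x | ∃ l, i ≤ l ∧ l < j ∧ x ∈ g ^ l}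

theorem span_pow' (g : Set R) (n : ℕ) : Ideal.span g ^ n = Ideal.span (g ^ n) :=
  Submodule.span_pow g n

theorem fin_pow {g : Set R} (hg : g.Finite) (n : ℕ) : (g ^ n).Finite := by
  induction n with
  | zero => simp
  | succ n ih => rw [pow_succ]; exact ih.mul hg

/-- The chain of monomials. -/
theorem pow {g : Set R} (hg : g.Finite) (a : Ideal R) {i j : ℕ} (hij : i ≤ j) :
    Ch (Ideal.span g ⊔ a) (mons g i j) (Ideal.span g ^ j ⊔ a) (Ideal.span g ^ i ⊔ a) := by
  induction j, hij using Nat.le_induction with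
  | base => exact refl
  | succ j hij ih =>
    refine Ch.trans ?_ (ih.mono le_rfl fun x ⟨l, h1, h2, h3⟩ => ⟨l, h1, by omega, h3⟩)
    refine (of_finite (Y := g ^ j) (fin_pow hg j)
      (fun x hx => (⟨j, hij, by omega, hx⟩ : x ∈ mons g i (j + 1))) fun y hy r hr => ?_).cast rfl ?_
    · obtain ⟨r1, h1, r2, h2, rfl⟩ := Submodule.mem_sup.1 hr
      rw [add_mul]
      refine Submodule.add_mem_sup ?_ (a.mul_mem_right _ h2)
      rw [pow_succ']
      refine Ideal.mul_mem_mul h1 ?_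
      rw [span_pow']
      exact Ideal.subset_span hy
    · rw [← span_pow', sup_right_comm,
        sup_eq_right.2 (Ideal.pow_le_pow_right (I := Ideal.span g) (Nat.le_succ j))]

theorem map {R' : Type} [CommRing R'] (φ : R →+* R') (h : Ch q X A B) :
    Ch (q.map φ) (φ '' X) (A.map φ) (B.map φ) := by
  induction h with
  | refl => exact refl
  | @step J x _ hx h1 ih =>
    refine (ih.step (x := φ x) ⟨x, hx, rfl⟩ fun a ha => ?_).cast rfl ?_
    · refine Submodule.span_induction (p := fun a _ => a * φ x ∈ J.map φ) ?_ ?_ ?_ ?_ ha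
      · rintro _ ⟨b, hb, rfl⟩
        rw [← map_mul]
        exact Ideal.mem_map_of_mem _ (h1 b hb)
      · simp
      · intro a b _ _ ha hb
        rw [add_mul]
        exact add_mem ha hb
      · intro r a _ ha
        rw [smul_eq_mul, mul_assoc]
        exact Ideal.mul_mem_left _ _ ha
    · rw [Ideal.map_sup, Ideal.map_span, Set.image_singleton]

/-- The last step. -/
theorem top (h : Ch q X A q) (h1 : (1 : R) ∈ X) : Ch q X A ⊤ :=
  (h.step h1 fun a ha => by rwa [mul_one]).cast rfl (by simp)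

end Ch

/-- Powers of an ideal with few generators lie in the ideal of powers of the generators. -/
theorem pow_le_span_pow (g : Finset R) {w : ℕ} (hw : g.card ≤ w) {n : ℕ} (hn : 0 < n)
    (h0 : 0 < w) : Ideal.span (g : Set R) ^ (w * n) ≤ Ideal.span ((fun x => x ^ n) '' g) := by
  rcases g.eq_empty_or_nonempty with rfl | hg
  · simp [(Nat.mul_pos h0 hn).ne']
  refine le_trans (Ideal.pow_le_pow_right (Nat.mul_le_mul_right n hw)) ?_
  clear hw
  induction hg using Finset.Nonempty.cons_induction with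
  | singleton x => simp [Ideal.span_singleton_pow]
  | cons x g hx _ ih =>
    rw [Finset.card_cons, Finset.coe_cons, Ideal.span_insert, Set.image_insert_eq,
      Ideal.span_insert, ← Ideal.span_singleton_pow, add_mul, one_mul, add_comm]
    exact Ideal.sup_pow_add_le_pow_sup_pow.trans (sup_le_sup_left ih _)

theorem pow_succ_le_span_pow (g : Finset R) {w : ℕ} (hw : g.card ≤ w) {n : ℕ} (hn : 0 < n) :
    Ideal.span (g : Set R) ^ (w * n + 1) ≤ Ideal.span ((fun x => x ^ n) '' g) := by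
  rcases Nat.eq_zero_or_pos w with rfl | h0
  · simp [Finset.card_eq_zero.1 (Nat.le_zero.1 hw)]
  · exact (Ideal.pow_le_pow_right (Nat.le_succ _)).trans (pow_le_span_pow g hw hn h0)

end ch

section lev
variable {k R : Type} [CommRing k] [CommRing R] [Algebra k R]

/-- A graded family of submodules. -/
structure Gr (S : ℕ → Submodule k R) : Prop where
  mul : ∀ i j x y, x ∈ S i → y ∈ S j → x * y ∈ S (i + j)
  mono : Monotone S
  one : (1 : R) ∈ S 0

/-- One level of a tower. -/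
def Lev (S : ℕ → Submodule k R) (p' p : Ideal R) (lam : ℝ) (w c : ℕ) : Prop :=
  ∃ (L g : Finset R) (a e b B : ℕ), (∀ x ∈ L, x ∈ S a) ∧ (∀ x ∈ g, x ∈ S e) ∧ g.card ≤ w ∧
    p = p' ⊔ Ideal.span (g : Set R) ∧ (∀ x ∈ L, x ∈ p ^ b ⊔ p') ∧
    p ^ B ≤ Ideal.span (L : Set R) ⊔ p' ∧ 0 < b ∧ (a : ℝ) ≤ lam * b ∧ e * B ≤ c

/-- A tower of levels from the zero ideal. -/
inductive Tow (S : ℕ → Submodule k R) : Ideal R → ℝ → ℕ → ℕ → Prop
  | zero {L : ℝ} {w c : ℕ} : 0 ≤ L → Tow S ⊥ L w c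
  | step {p' p : Ideal R} {L l : ℝ} {w w' c c' : ℕ} : Tow S p' L w c → Lev S p' p l w' c' →
      Tow S p (L + l) (w + w') (c + c')

variable {S : ℕ → Submodule k R} {p' p J : Ideal R} {lam : ℝ} {w c : ℕ}

theorem Gr.pow (hS : Gr S) {g : Set R} {e : ℕ} (hg : ∀ x ∈ g, x ∈ S e) (l : ℕ) :
    ∀ x ∈ g ^ l, x ∈ S (e * l) := by
  induction l with
  | zero =>
    intro x hx
    rw [pow_zero, Set.mem_one] at hx
    rw [hx]
    exact hS.one
  | succ l ih =>
    intro x hx
    rw [pow_succ] at hx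
    obtain ⟨y, hy, z, hz, rfl⟩ := hx
    exact hS.mul _ _ _ _ (ih y hy) (hg z hz)

theorem Gr.mons (hS : Gr S) {g : Set R} {e i j N : ℕ} (hg : ∀ x ∈ g, x ∈ S e)
    (hN : e * (j - 1) ≤ N) : ∀ x ∈ Ch.mons g i j, x ∈ S N := fun x ⟨l, _, h2, h3⟩ =>
  hS.mono ((Nat.mul_le_mul_left e (by omega)).trans hN) (hS.pow hg l x h3)

theorem mons_mem {g : Set R} {i j : ℕ} (hi : 0 < i) (hg : ∀ x ∈ g, x ∈ p) :
    ∀ x ∈ Ch.mons g i j, x ∈ p := fun x ⟨l, h1, _, h3⟩ => by
  have : x ∈ Ideal.span g ^ l := by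
    rw [Ch.span_pow']
    exact Ideal.subset_span h3
  exact Ideal.span_le.2 hg (Ideal.pow_le_self (by omega) this)

theorem Lev.le (h : Lev S p' p lam w c) : p' ≤ p := by
  obtain ⟨L, g, a, e, b, B, -, -, -, h4, -⟩ := h
  exact h4 ▸ le_sup_left

theorem Lev.nonneg (h : Lev S p' p lam w c) : 0 ≤ lam := by
  obtain ⟨L, g, a, e, b, B, -, -, -, -, -, -, h7, h8, -⟩ := h
  have : (0 : ℝ) < b := by exact_mod_cast h7
  exact le_of_mul_le_mul_right (by simpa using (Nat.cast_nonneg a).trans h8) this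

theorem Lev.mono {lam' : ℝ} {w' c' : ℕ} (h : Lev S p' p lam w c) (h1 : lam ≤ lam') (h2 : w ≤ w')
    (h3 : c ≤ c') : Lev S p' p lam' w' c' := by
  obtain ⟨L, g, a, e, b, B, k1, k2, k3, k4, k5, k6, k7, k8, k9⟩ := h
  exact ⟨L, g, a, e, b, B, k1, k2, k3.trans h2, k4, k5, k6, k7,
    k8.trans (mul_le_mul_of_nonneg_right h1 (Nat.cast_nonneg _)), k9.trans h3⟩

theorem sup_pow_le (I J : Ideal R) (n : ℕ) : (I ⊔ J) ^ n ≤ I ^ n ⊔ J := by
  induction n with
  | zero => simp
  | succ n ih =>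
    rw [pow_succ, pow_succ]
    refine (Ideal.mul_mono_left ih).trans ?_
    rw [Ideal.sup_mul, Ideal.mul_sup]
    exact sup_le (sup_le le_sup_left (le_sup_of_le_right Ideal.mul_le_right))
      (le_sup_of_le_right Ideal.mul_le_left)

/-- The chain of one level. -/
theorem Lev.ch' (hS : Gr S) (h : Lev S p' p lam w c) {M N : ℕ} (hM : p ^ M ≤ J ⊔ p')
    (hN : ⌊lam * M⌋₊ + c ≤ N) : Ch p ((S N : Set R) ∩ p) (p' ⊔ J) (p ⊔ J) := by
  have h0 := h.nonneg
  have hle := h.le
  obtain ⟨L, g, a, e, b, B, k1, k2, -, k4, k5, k6, k7, k8, k9⟩ := h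
  have hL : ∀ x ∈ (L : Set R), x ∈ p := fun x hx =>
    sup_le (Ideal.pow_le_self k7.ne') hle (k5 x hx)
  have hg : ∀ x ∈ (g : Set R), x ∈ p := fun x hx => k4 ▸ Ideal.mem_sup_right (Ideal.subset_span hx)
  have hg' : Ideal.span (g : Set R) ≤ p := Ideal.span_le.2 hg
  set I : Ideal R := Ideal.span (L : Set R) ⊔ p' ⊔ J with hI
  have hB : ∀ B', B ≤ B' → Ideal.span (g : Set R) ^ B' ⊔ I = I := fun B' hB' =>
    sup_eq_right.2 ((((Ideal.pow_right_mono hg' _).trans (Ideal.pow_le_pow_right hB')).trans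
      k6).trans le_sup_left)
  have hp : p ≤ Ideal.span (g : Set R) ⊔ I :=
    k4.le.trans (sup_le (le_sup_of_le_right (le_sup_of_le_left le_sup_right)) le_sup_left)
  have hcN : c ≤ N := by omega
  obtain ⟨j, hj1, hj2⟩ : ∃ j, M ≤ b * (j + 1) ∧ b * j ≤ M :=
    ⟨M / b, (Nat.lt_mul_div_succ M k7).le, Nat.mul_div_le M b⟩
  have c1 := Ch.pow L.finite_toSet p' (show 1 ≤ j + 1 by omega)
  have c2 : Ch p (Ch.mons (g : Set R) 0 B) (Ideal.span (L : Set R) ⊔ p' ⊔ J) ⊤ :=
    ((Ch.pow g.finite_toSet I (Nat.zero_le B)).mono hp le_rfl).cast (hB B le_rfl) (by simp)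
  have c3 : Ch p (Ch.mons (g : Set R) 1 (B + 1)) I (p ⊔ J) := by
    refine ((Ch.pow g.finite_toSet I (show 1 ≤ B + 1 by omega)).mono hp le_rfl).cast
      (hB _ (by omega)) (le_antisymm ?_ ?_)
    · rw [pow_one]
      exact sup_le (le_sup_of_le_left hg') (sup_le_sup_right (sup_le (Ideal.span_le.2 hL) hle) _)
    · rw [pow_one]
      exact sup_le hp (le_sup_of_le_right le_sup_right)
  refine Ch.trans (((c1.ref c2).mono le_rfl ?_).cast ?_ (by rw [pow_one])) (c3.mono le_rfl ?_)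
  · rintro _ ⟨x, hx, y, hy, rfl⟩
    refine ⟨hS.mono ?_ (hS.mul _ _ _ _ (hS.mons (N := a * j) k1 (by simp) x hx)
      (hS.mons (N := c) k2 ((Nat.mul_le_mul_left e (by omega)).trans k9) y hy)),
      p.mul_mem_right _ (mons_mem one_pos hL x hx)⟩
    have h1 : ((b * j : ℕ) : ℝ) ≤ M := by exact_mod_cast hj2
    have h2 : a * j ≤ ⌊lam * M⌋₊ := by
      refine Nat.le_floor ?_
      push_cast at h1 ⊢
      have h3 := mul_le_mul_of_nonneg_right k8 (Nat.cast_nonneg j : (0 : ℝ) ≤ j)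
      have h4 := mul_le_mul_of_nonneg_left h1 h0
      nlinarith
    omega
  · rw [sup_assoc]
    refine sup_eq_right.2 ?_
    refine (Ideal.pow_right_mono (Ideal.span_le.2 k5) _).trans ((sup_pow_le _ _ _).trans ?_)
    rw [← pow_mul]
    exact sup_le ((Ideal.pow_le_pow_right hj1).trans (hM.trans (sup_comm _ _).le)) le_sup_left
  · intro x hx
    exact ⟨hS.mons k2 (by simpa using k9.trans hcN) x hx, mons_mem one_pos hg x hx⟩

theorem Ch.top' (hS : Gr S) {N : ℕ} {A : Ideal R} (h : Ch p ((S N : Set R) ∩ p) A (p ⊔ J)) :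
    Ch p (S N) A ⊤ :=
  ((h.mono le_rfl Set.inter_subset_left).step (x := 1) (hS.mono (Nat.zero_le N) hS.one)
    fun a ha => by rw [mul_one]; exact Ideal.mem_sup_left ha).cast rfl (by simp)

theorem floor_le_of {x : ℝ} (h0 : 0 ≤ x) {c N : ℕ} (hN : x + c ≤ N) : ⌊x⌋₊ + c ≤ N := by
  have : ((⌊x⌋₊ + c : ℕ) : ℝ) ≤ N := by
    push_cast
    exact le_trans (add_le_add (Nat.floor_le h0) le_rfl) hN
  exact_mod_cast this

/-- LEV, first part. -/
theorem Lev.ch (hS : Gr S) (h : Lev S p' p lam w c) {M N : ℕ} (hM : p ^ M ≤ J ⊔ p')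
    (hN : lam * M + c ≤ N) : Ch p ((S N : Set R) ∩ p) (p' ⊔ J) (p ⊔ J) :=
  h.ch' hS hM (floor_le_of (mul_nonneg h.nonneg (Nat.cast_nonneg _)) hN)

/-- LEV, second part. -/
theorem Lev.ch_top (hS : Gr S) (h : Lev S p' p lam w c) {M N : ℕ} (hM : p ^ M ≤ J ⊔ p')
    (hN : lam * M + c ≤ N) : Ch p (S N) (p' ⊔ J) ⊤ := (h.ch hS hM hN).top' hS

theorem Tow.nonneg (h : Tow S p lam w c) : 0 ≤ lam := by
  induction h with
  | zero h => exact h
  | step _ h ih => exact add_nonneg ih h.nonneg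

theorem Tow.mono {lam' : ℝ} {w' c' : ℕ} (h : Tow S p lam w c) (h1 : lam ≤ lam') (h2 : w ≤ w')
    (h3 : c ≤ c') : Tow S p lam' w' c' := by
  cases h with
  | zero h => exact Tow.zero (h.trans h1)
  | @step p' p L l w0 w1 c0 c1 h0 h =>
    have := h0.step (h.mono (lam' := lam' - L) (w' := w' - w0) (c' := c' - c0) (by linarith)
      (by omega) (by omega))
    rwa [add_sub_cancel, Nat.add_sub_cancel' (by omega), Nat.add_sub_cancel' (by omega)] at this

/-- The top ideal of a tower has at most `w` generators. -/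
theorem Tow.gen (h : Tow S p lam w c) :
    ∃ g : Finset R, g.card ≤ w ∧ p = Ideal.span (g : Set R) := by
  classical
  induction h with
  | zero => exact ⟨∅, Nat.zero_le _, by simp⟩
  | step _ h ih =>
    obtain ⟨g', h1, h2⟩ := ih
    obtain ⟨L, g, a, e, b, B, -, -, k3, k4, -⟩ := h
    refine ⟨g' ∪ g, (Finset.card_union_le _ _).trans (add_le_add h1 k3), ?_⟩
    rw [Finset.coe_union, Ideal.span_union, ← h2, k4]

theorem Gr.mul_sub (hS : Gr S) {i j N : ℕ} (h : i + j ≤ N) (I : Ideal R) :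
    ((S i : Set R) ∩ I) * (S j : Set R) ⊆ (S N : Set R) ∩ I := by
  rintro _ ⟨x, hx, y, hy, rfl⟩
  exact ⟨hS.mono h (hS.mul _ _ _ _ hx.1 hy), I.mul_mem_right _ hx.2⟩

theorem Gr.mul_sub' (hS : Gr S) {i j N : ℕ} (h : i + j ≤ N) :
    (S i : Set R) * (S j : Set R) ⊆ (S N : Set R) := by
  rintro _ ⟨x, hx, y, hy, rfl⟩
  exact hS.mono h (hS.mul _ _ _ _ hx hy)

theorem Tow.ch' (hS : Gr S) (h : Tow S p lam w c) {M N : ℕ} (hM : p ^ M ≤ J)
    (hN : ⌊lam * M⌋₊ + c ≤ N) : Ch p ((S N : Set R) ∩ p) J (p ⊔ J) := by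
  induction h generalizing N with
  | zero => exact Ch.of_eq (by simp)
  | @step p' p L l w w' c c' h0 h ih =>
    have h1 := ih ((Ideal.pow_right_mono h.le M).trans hM) le_rfl
    have h2 := h.ch' hS (hM.trans le_sup_left) (J := J) le_rfl
    have h3 : ⌊L * M⌋₊ + ⌊l * M⌋₊ ≤ ⌊(L + l) * M⌋₊ := by
      refine Nat.le_floor ?_
      push_cast
      rw [add_mul]
      exact add_le_add (Nat.floor_le (mul_nonneg h0.nonneg (Nat.cast_nonneg _)))
        (Nat.floor_le (mul_nonneg h.nonneg (Nat.cast_nonneg _)))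
    refine Ch.trans (((h1.ref (h2.top' hS)).mono le_rfl ?_).cast (sup_idem _)
      (by rw [sup_assoc, sup_idem])) (h2.mono le_rfl ?_)
    · exact (hS.mul_sub (by omega) p').trans (Set.inter_subset_inter_right _ h.le)
    · exact Set.inter_subset_inter_left _ (hS.mono (by omega))

/-- TOW, first part. -/
theorem Tow.ch (hS : Gr S) (h : Tow S p lam w c) {M N : ℕ} (hM : p ^ M ≤ J)
    (hN : lam * M + c ≤ N) : Ch p ((S N : Set R) ∩ p) J (p ⊔ J) :=
  h.ch' hS hM (floor_le_of (mul_nonneg h.nonneg (Nat.cast_nonneg _)) hN)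

/-- TOW, second part. -/
theorem Tow.ch_top (hS : Gr S) (h : Tow S p lam w c) {M N : ℕ} (hM : p ^ M ≤ J)
    (hN : lam * M + c ≤ N) : Ch p (S N) J ⊤ := (h.ch hS hM hN).top' hS

/-- SPAN. -/
theorem Ch.span {m A B : Ideal R} {Z : Submodule k R}
    (hm : ∀ r : R, ∃ c : k, r - algebraMap k R c ∈ m) (h : Ch m Z A B) :
    ∀ x ∈ B, ∃ z ∈ Z, x - z ∈ A := by
  induction h with
  | refl => exact fun x hx => ⟨0, Z.zero_mem, by simpa using hx⟩
  | @step J y _ hy h1 ih =>
    intro x hx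
    obtain ⟨a, ha, b, hb, rfl⟩ := Submodule.mem_sup.1 hx
    obtain ⟨r, rfl⟩ := Ideal.mem_span_singleton'.1 hb
    obtain ⟨c, hc⟩ := hm r
    obtain ⟨z, hz, h2⟩ := ih _ (J.add_mem ha (h1 _ hc))
    refine ⟨z + c • y, Z.add_mem hz (Z.smul_mem c hy), ?_⟩
    rw [Algebra.smul_def]
    have e : a + r * y - (z + algebraMap k R c * y) = a + (r - algebraMap k R c) * y - z := by ring
    rwa [e]

/-- A tower followed by one more level (the point level), relative form. -/
theorem Tow.rel (hS : Gr S) {m : Ideal R} {l : ℝ} {w' c' M M' N : ℕ} (h : Tow S p lam w c)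
    (h' : Lev S p m l w' c') (hM : p ^ M ≤ J) (hM' : m ^ M' ≤ J ⊔ p)
    (hN : lam * M + l * M' + c + c' ≤ N) : Ch m ((S N : Set R) ∩ p) J (p ⊔ J) := by
  have h1 := Nat.floor_le (mul_nonneg h.nonneg (Nat.cast_nonneg M))
  have h2 := Nat.floor_le (mul_nonneg h'.nonneg (Nat.cast_nonneg M'))
  have h3 : ⌊lam * M⌋₊ + c + (⌊l * M'⌋₊ + c') ≤ N := by
    have : ((⌊lam * M⌋₊ + c + (⌊l * M'⌋₊ + c') : ℕ) : ℝ) ≤ N := by
      push_cast
      linarith
    exact_mod_cast this
  exact (((h.ch' hS hM le_rfl).ref ((h'.ch' hS hM' le_rfl).top' hS)).mono le_rfl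
    (hS.mul_sub h3 p)).cast (sup_idem _) (by rw [sup_assoc, sup_idem])

/-- A tower followed by one more level, absolute form. -/
theorem Tow.rel_top (hS : Gr S) {m : Ideal R} {l : ℝ} {w' c' M M' N : ℕ} (h : Tow S p lam w c)
    (h' : Lev S p m l w' c') (hM : p ^ M ≤ J) (hM' : m ^ M' ≤ J ⊔ p)
    (hN : lam * M + l * M' + c + c' ≤ N) : Ch m (S N) J ⊤ := by
  refine ((h.rel hS h' hM hM' hN).mono le_rfl Set.inter_subset_left).trans (h'.ch_top hS hM' ?_)
  have h1 := mul_nonneg h.nonneg (Nat.cast_nonneg M)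
  have h2 : (0 : ℝ) ≤ c := Nat.cast_nonneg c
  linarith

/-- COR of section 7.0: correction of an element of `p + J` by an element of `S N` in `p`. -/
theorem Tow.cor (hS : Gr S) {m : Ideal R} {l : ℝ} {w' c' M M' N : ℕ} (h : Tow S p lam w c)
    (h' : Lev S p m l w' c') (hm : ∀ r : R, ∃ a : k, r - algebraMap k R a ∈ m) (hM : p ^ M ≤ J)
    (hM' : m ^ M' ≤ J ⊔ p) (hN : lam * M + l * M' + c + c' ≤ N) :
    ∀ x ∈ p ⊔ J, ∃ z ∈ S N, z ∈ p ∧ x - z ∈ J := fun x hx => by
  obtain ⟨z, hz, h1⟩ := Ch.span (Z := S N ⊓ p.restrictScalars k) hm (h.rel hS h' hM hM' hN) x hx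
  exact ⟨z, hz.1, hz.2, h1⟩

/-- Section 5.6: the ring is `S N + J`. -/
theorem Tow.onto (hS : Gr S) {m : Ideal R} {l : ℝ} {w' c' M M' N : ℕ} (h : Tow S p lam w c)
    (h' : Lev S p m l w' c') (hm : ∀ r : R, ∃ a : k, r - algebraMap k R a ∈ m) (hM : p ^ M ≤ J)
    (hM' : m ^ M' ≤ J ⊔ p) (hN : lam * M + l * M' + c + c' ≤ N) (x : R) :
    ∃ z ∈ S N, x - z ∈ J :=
  Ch.span hm (h.rel_top hS h' hM hM' hN) x trivial

/-- The trivial level. -/
theorem Lev.triv {g : Finset R} {e B : ℕ} (hg : ∀ x ∈ g, x ∈ S e)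
    (hp : p = p' ⊔ Ideal.span (g : Set R)) (hB : p ^ B ≤ p') : Lev S p' p 0 g.card (e * B) :=
  ⟨∅, g, 0, e, 1, B, by simp, hg, le_rfl, hp, by simp, by simpa using hB, one_pos, by simp, le_rfl⟩

/-! ### Change of the family -/

theorem exists_units {T : Set R} (g : Finset R) (h : ∀ x ∈ g, ∃ u : R, IsUnit u ∧ u * x ∈ T) :
    ∃ g' : Finset R, (∀ x ∈ g', x ∈ T) ∧ g'.card ≤ g.card ∧
      Ideal.span (g' : Set R) = Ideal.span (g : Set R) := by
  classical
  choose! u hu using h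
  refine ⟨g.image fun x => u x * x, ?_, Finset.card_image_le,
    le_antisymm (Ideal.span_le.2 ?_) (Ideal.span_le.2 fun x hx => ?_)⟩
  · simp only [Finset.forall_mem_image]
    exact fun x hx => (hu x hx).2
  · rw [Finset.coe_image]
    rintro _ ⟨x, hx, rfl⟩
    exact Ideal.mul_mem_left _ _ (Ideal.subset_span hx)
  · refine (Ideal.unit_mul_mem_iff_mem _ (hu x hx).1).1 (Ideal.subset_span ?_)
    rw [Finset.coe_image]
    exact ⟨x, hx, rfl⟩

/-- RESC' for one level. -/
theorem Lev.resc (hS : Gr S) {k₁ : Type} [CommRing k₁] [Algebra k₁ R] {S₁ : ℕ → Submodule k₁ R}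
    {θ c₀ η : ℝ} (hθ : 0 ≤ θ) (hη : 0 < η)
    (H : ∀ a a' : ℕ, θ * a + c₀ ≤ a' → ∀ x ∈ S a, ∃ u : R, IsUnit u ∧ u * x ∈ S₁ a')
    (h : Lev S p' p lam w c) : ∃ c', Lev S₁ p' p (θ * lam + η) w c' := by
  classical
  obtain ⟨L, g, a, e, b, B, k1, k2, k3, k4, k5, k6, k7, k8, -⟩ := h
  obtain ⟨s, hs⟩ := exists_nat_gt ((|c₀| + 1) / η)
  have hs0 : 0 < s := by
    have : (0 : ℝ) < s := lt_trans (by positivity) hs
    exact_mod_cast this
  rw [div_lt_iff₀ hη] at hs
  obtain ⟨L', l1, -, l3⟩ := exists_units (T := S₁ ⌈θ * (a * s : ℕ) + |c₀|⌉₊) (L ^ s)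
    fun x hx => H (a * s) _ (le_trans (add_le_add le_rfl (le_abs_self _)) (Nat.le_ceil _)) x
      (hS.pow k1 s x (by rwa [← Finset.coe_pow]))
  obtain ⟨g', g1, g2, g3⟩ := exists_units (T := S₁ ⌈θ * e + c₀⌉₊) g
    fun x hx => H e _ (Nat.le_ceil _) x (k2 x hx)
  rw [Finset.coe_pow, ← Ch.span_pow'] at l3
  refine ⟨_, L', g', _, _, b * s, B * s, l1, g1, g2.trans k3, by rw [g3, k4], fun x hx => ?_, ?_,
    Nat.mul_pos k7 hs0, ?_, le_rfl⟩
  · rw [pow_mul]
    refine sup_pow_le _ _ _ (Ideal.pow_right_mono (Ideal.span_le.2 k5) s ?_)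
    rw [← l3]
    exact Ideal.subset_span hx
  · rw [l3, pow_mul]
    exact (Ideal.pow_right_mono k6 s).trans (sup_pow_le _ _ _)
  · refine (Nat.ceil_lt_add_one (by positivity)).le.trans ?_
    push_cast
    have hb : (1 : ℝ) ≤ b := by exact_mod_cast k7
    have hs' : (0 : ℝ) ≤ s := Nat.cast_nonneg s
    have h1 := mul_le_mul_of_nonneg_left (mul_le_mul_of_nonneg_right k8 hs') hθ
    have h2 := mul_le_mul_of_nonneg_left hb (mul_nonneg hs' hη.le)
    nlinarith

/-- RESC' for a tower. -/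
theorem Tow.resc (hS : Gr S) {k₁ : Type} [CommRing k₁] [Algebra k₁ R] {S₁ : ℕ → Submodule k₁ R}
    {θ c₀ : ℝ} (hθ : 0 ≤ θ)
    (H : ∀ a a' : ℕ, θ * a + c₀ ≤ a' → ∀ x ∈ S a, ∃ u : R, IsUnit u ∧ u * x ∈ S₁ a')
    (h : Tow S p lam w c) {η : ℝ} (hη : 0 < η) : ∃ c', Tow S₁ p (θ * lam + η) w c' := by
  induction h generalizing η with
  | zero h => exact ⟨0, Tow.zero (by positivity)⟩
  | step _ h ih =>
    obtain ⟨c1, h1⟩ := ih (half_pos hη)
    obtain ⟨c2, h2⟩ := h.resc hS hθ (half_pos hη) H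
    exact ⟨_, (h1.step h2).mono (le_of_eq (by ring)) le_rfl le_rfl⟩

/-! ### Transport -/

variable {k' R' : Type} [CommRing k'] [CommRing R'] [Algebra k' R'] {S' : ℕ → Submodule k' R'}

theorem Lev.map (φ : R →+* R') (hφ : ∀ j, ∀ x ∈ S j, φ x ∈ S' j) (h : Lev S p' p lam w c) :
    Lev S' (p'.map φ) (p.map φ) lam w c := by
  classical
  obtain ⟨L, g, a, e, b, B, k1, k2, k3, k4, k5, k6, k7, k8, k9⟩ := h
  refine ⟨L.image φ, g.image φ, a, e, b, B, ?_, ?_, Finset.card_image_le.trans k3, ?_, ?_, ?_,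
    k7, k8, k9⟩
  · simp only [Finset.forall_mem_image]
    exact fun x hx => hφ _ _ (k1 x hx)
  · simp only [Finset.forall_mem_image]
    exact fun x hx => hφ _ _ (k2 x hx)
  · rw [Finset.coe_image, ← Ideal.map_span, ← Ideal.map_sup, ← k4]
  · simp only [Finset.forall_mem_image]
    intro x hx
    rw [← Ideal.map_pow, ← Ideal.map_sup]
    exact Ideal.mem_map_of_mem _ (k5 x hx)
  · rw [Finset.coe_image, ← Ideal.map_span, ← Ideal.map_sup, ← Ideal.map_pow]
    exact Ideal.map_mono k6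

theorem Tow.map (φ : R →+* R') (hφ : ∀ j, ∀ x ∈ S j, φ x ∈ S' j) (h : Tow S p lam w c) :
    Tow S' (p.map φ) lam w c := by
  induction h with
  | zero h => rw [Ideal.map_bot]; exact Tow.zero h
  | step _ h ih => exact ih.step (h.map φ hφ)

end lev

/-! ### Counting -/

section cnt
variable {k R K : Type} [Field k] [CommRing R] [Algebra k R] [Field K] [Algebra k K]

/-- The image of a submodule in a quotient. -/
abbrev img (Z : Submodule k R) (A : Ideal R) : Submodule k (R ⧸ A) :=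
  Z.map (Ideal.Quotient.mkₐ k A).toLinearMap

open Module

theorem finrank_map_add {V W : Type} [AddCommGroup V] [Module k V] [AddCommGroup W] [Module k W]
    (f : V →ₗ[k] W) (Z : Submodule k V) [FiniteDimensional k Z] :
    finrank k (Z.map f) + finrank k ↥(Z ⊓ LinearMap.ker f) = finrank k Z := by
  rw [← (f.domRestrict Z).finrank_range_add_finrank_ker, LinearMap.range_domRestrict,
    LinearMap.ker_domRestrict, ← Submodule.map_comap_subtype, Submodule.finrank_map_subtype_eq]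

theorem finrank_map_eq {V W W' : Type} [AddCommGroup V] [Module k V] [AddCommGroup W] [Module k W]
    [AddCommGroup W'] [Module k W'] (f : V →ₗ[k] W) (g : V →ₗ[k] W') (E : Submodule k V)
    (h : ∀ e ∈ E, f e = 0 ↔ g e = 0) : finrank k (E.map f) = finrank k (E.map g) := by
  have h1 : LinearMap.ker (f.domRestrict E) = LinearMap.ker (g.domRestrict E) := by
    ext e
    exact h e e.2
  rw [← LinearMap.range_domRestrict, ← LinearMap.range_domRestrict,
    ← (f.domRestrict E).quotKerEquivRange.finrank_eq,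
    ← (g.domRestrict E).quotKerEquivRange.finrank_eq, h1]

theorem finrank_img (Z : Submodule k R) [FiniteDimensional k Z] (A : Ideal R) :
    finrank k (img Z A) + finrank k ↥(Z ⊓ A.restrictScalars k) = finrank k Z := by
  have h : LinearMap.ker (Ideal.Quotient.mkₐ k A).toLinearMap = A.restrictScalars k := by
    ext x
    exact Ideal.Quotient.eq_zero_iff_mem (I := A) (a := x)
  rw [← finrank_map_add (Ideal.Quotient.mkₐ k A).toLinearMap Z, h]

theorem length_step {m J : Ideal R} (hm : m.IsMaximal) {x : R} (h : ∀ a ∈ m, a * x ∈ J) :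
    Module.length R (R ⧸ J) ≤ 1 + Module.length R (R ⧸ (J ⊔ Ideal.span {x})) := by
  let f : (R ⧸ m) →ₗ[R] R ⧸ J := Submodule.mapQ m J (LinearMap.mulRight R x) h
  let g : (R ⧸ J) →ₗ[R] R ⧸ (J ⊔ Ideal.span {x}) := Submodule.factor le_sup_left
  have hg : Function.Surjective g := Submodule.factor_surjective _
  have h1 : LinearMap.ker g = LinearMap.range f := by
    ext y
    obtain ⟨y, rfl⟩ := Submodule.Quotient.mk_surjective _ y
    constructor
    · intro hy
      obtain ⟨a, ha, b, hb, rfl⟩ := Submodule.mem_sup.1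
        ((Submodule.Quotient.mk_eq_zero (J ⊔ Ideal.span {x})).1 hy)
      obtain ⟨r, rfl⟩ := Ideal.mem_span_singleton'.1 hb
      refine ⟨Submodule.Quotient.mk r, (Submodule.Quotient.eq J).2 ?_⟩
      simpa using ha
    · rintro ⟨r, hr⟩
      obtain ⟨r, rfl⟩ := Submodule.Quotient.mk_surjective _ r
      rw [← hr]
      exact (Submodule.Quotient.mk_eq_zero (J ⊔ Ideal.span {x})).2
        (Ideal.mem_sup_right (Ideal.mul_mem_left _ r (Ideal.mem_span_singleton_self x)))
  have h2 : Module.length R (R ⧸ m) = 1 := Module.length_eq_one_iff.2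
    (isSimpleModule_iff_quot_maximal.2 ⟨m, hm, ⟨LinearEquiv.refl _ _⟩⟩)
  rw [Module.length_eq_add_of_exact (LinearMap.ker g).subtype g (Submodule.injective_subtype _) hg
    (LinearMap.exact_subtype_ker_map g), h1, ← h2]
  exact add_le_add (Module.length_le_of_surjective f.rangeRestrict f.surjective_rangeRestrict)
    le_rfl

theorem Ch.cnt' {m A B : Ideal R} (hm : m.IsMaximal) (ρ : R →ₐ[k] K) (hρ : ∀ r, ρ r = 0 ↔ r ∈ m)
    (hu : ∀ r, r ∉ m → IsUnit r) {X : Set R} (h : Ch m X A B) (E Z : Submodule k R)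
    [FiniteDimensional k Z] (hE : ∀ e ∈ E, ∀ x ∈ X, e * x ∈ Z) :
    ∃ n : ℕ, Module.length R (R ⧸ A) ≤ n + Module.length R (R ⧸ B) ∧
      n * finrank k (E.map ρ.toLinearMap) + finrank k ↥(Z ⊓ A.restrictScalars k) ≤
        finrank k ↥(Z ⊓ B.restrictScalars k) := by
  induction h with
  | refl => exact ⟨0, by simp, by simp⟩
  | @step J x h0 hx h1 ih =>
    obtain ⟨n, h2, h3⟩ := ih
    by_cases hJ : x ∈ J
    · rw [sup_eq_left.2 ((Ideal.span_singleton_le_iff_mem _).2 hJ)]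
      exact ⟨n, h2, h3⟩
    refine ⟨n + 1, h2.trans ?_, ?_⟩
    · push_cast
      rw [add_assoc]
      exact add_le_add le_rfl (length_step hm h1)
    have h4 := finrank_img (Z ⊓ (J ⊔ Ideal.span {x}).restrictScalars k) J
    have h5 : Z ⊓ (J ⊔ Ideal.span {x}).restrictScalars k ⊓ J.restrictScalars k =
        Z ⊓ J.restrictScalars k := by
      rw [inf_assoc, inf_eq_right.2 (show J.restrictScalars k ≤
        (J ⊔ Ideal.span {x}).restrictScalars k from fun y hy => Ideal.mem_sup_left hy)]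
    have h6 := finrank_map_eq ρ.toLinearMap
      ((Ideal.Quotient.mkₐ k J).toLinearMap ∘ₗ LinearMap.mulRight k x) E fun e _ => by
        change ρ e = 0 ↔ Ideal.Quotient.mk J (e * x) = 0
        rw [hρ, Ideal.Quotient.eq_zero_iff_mem]
        refine ⟨h1 e, fun h7 => by_contra fun h8 => hJ ?_⟩
        exact (J.unit_mul_mem_iff_mem (hu e h8)).1 h7
    have h7 : finrank k (E.map ((Ideal.Quotient.mkₐ k J).toLinearMap ∘ₗ LinearMap.mulRight k x)) ≤
        finrank k (img (Z ⊓ (J ⊔ Ideal.span {x}).restrictScalars k) J) := by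
      refine Submodule.finrank_mono ?_
      rintro _ ⟨e, he, rfl⟩
      exact ⟨e * x, ⟨hE e he x hx, Ideal.mem_sup_right
        (Ideal.mul_mem_left _ _ (Ideal.mem_span_singleton_self _))⟩, rfl⟩
    rw [h5] at h4
    rw [add_mul, one_mul]
    omega

/-- CNT. -/
theorem Ch.cnt {m A : Ideal R} (hm : m.IsMaximal) (ρ : R →ₐ[k] K) (hρ : ∀ r, ρ r = 0 ↔ r ∈ m)
    (hu : ∀ r, r ∉ m → IsUnit r) {X : Set R} (h : Ch m X A ⊤) (E Z : Submodule k R)
    [FiniteDimensional k Z] (hE : ∀ e ∈ E, ∀ x ∈ X, e * x ∈ Z) {l : ℕ}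
    (hl : (l : ℕ∞) ≤ Module.length R (R ⧸ A)) :
    l * finrank k (E.map ρ.toLinearMap) ≤ finrank k (img Z A) := by
  obtain ⟨n, h1, h2⟩ := h.cnt' hm ρ hρ hu E Z hE
  have h3 : Module.length R (R ⧸ (⊤ : Ideal R)) = 0 := Module.length_eq_zero_iff.2 inferInstance
  rw [h3, add_zero] at h1
  have h4 : l ≤ n := by exact_mod_cast hl.trans h1
  have h5 := finrank_img Z A
  have h6 : finrank k ↥(Z ⊓ (⊤ : Ideal R).restrictScalars k) ≤ finrank k Z :=
    Submodule.finrank_mono inf_le_left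
  have h7 := Nat.mul_le_mul_right (finrank k (E.map ρ.toLinearMap)) h4
  omega

end cnt

end Pool.Agent.Lib.A35
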