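import Pool.Agent.Lib.UR.Defs
import Pool.Agent.Lib.A35.Chain

/-! Eventual homomorphisms: toolkit, and transport of levels and towers. -/

set_option autoImplicit false

open Pointwise Filter

noncomputable section

namespace Pool.Agent.Lib.A35

open Pool.Agent.Lib.UR

variable {I : Type} {U : Filter I} {A : Type} [CommRing A] {B : I → Type} [∀ i, CommRing (B i)]
  {f : ∀ i, A → B i}

theorem eh_zero (h : EH U f) : ∀ᶠ i in U, f i 0 = 0 := by
  filter_upwards [h.add 0 0] with i h1
  rw [add_zero] at h1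
  exact left_eq_add.1 h1

theorem eh_neg (h : EH U f) (a : A) : ∀ᶠ i in U, f i (-a) = -f i a := by
  filter_upwards [h.add (-a) a, eh_zero h] with i h1 h2
  rw [neg_add_cancel, h2] at h1
  exact eq_neg_of_add_eq_zero_left h1.symm

theorem eh_sub (h : EH U f) (a b : A) : ∀ᶠ i in U, f i (a - b) = f i a - f i b := by
  filter_upwards [h.add a (-b), eh_neg h b] with i h1 h2
  rw [sub_eq_add_neg, h1, h2, sub_eq_add_neg]

theorem eh_sum (h : EH U f) {τ : Type} (s : Finset τ) (a : τ → A) :
    ∀ᶠ i in U, f i (∑ t ∈ s, a t) = ∑ t ∈ s, f i (a t) := by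
  classical
  induction s using Finset.induction_on with
  | empty => simpa using eh_zero h
  | insert t s ht ih =>
    filter_upwards [ih, h.add (a t) (∑ t ∈ s, a t)] with i h1 h2
    rw [Finset.sum_insert ht, Finset.sum_insert ht, h2, h1]

theorem eh_prod (h : EH U f) {τ : Type} (s : Finset τ) (a : τ → A) :
    ∀ᶠ i in U, f i (∏ t ∈ s, a t) = ∏ t ∈ s, f i (a t) := by
  classical
  induction s using Finset.induction_on with
  | empty => simpa using h.one
  | insert t s ht ih =>
    filter_upwards [ih, h.mul (a t) (∏ t ∈ s, a t)] with i h1 h2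
    rw [Finset.prod_insert ht, Finset.prod_insert ht, h2, h1]

theorem eh_pow (h : EH U f) (a : A) (n : ℕ) : ∀ᶠ i in U, f i (a ^ n) = f i a ^ n := by
  simpa using eh_prod h (Finset.range n) fun _ => a

theorem eh_natCast (h : EH U f) (n : ℕ) : ∀ᶠ i in U, f i (n : A) = n := by
  induction n with
  | zero => simpa using eh_zero h
  | succ n ih =>
    filter_upwards [ih, h.add n 1, h.one] with i h1 h2 h3
    push_cast
    rw [h2, h1, h3]

theorem eh_unit (h : EH U f) {a : A} (ha : IsUnit a) : ∀ᶠ i in U, IsUnit (f i a) := by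
  obtain ⟨b, hb⟩ := ha.exists_right_inv
  filter_upwards [h.mul a b, h.one] with i h1 h2
  rw [hb, h2] at h1
  exact IsUnit.of_mul_eq_one _ h1.symm

theorem eh_comp_left (h : EH U f) {C : I → Type} [∀ i, CommRing (C i)] (g : ∀ i, B i →+* C i) :
    EH U fun i a => g i (f i a) where
  one := h.one.mono fun i h1 => by rw [h1, map_one]
  add a b := (h.add a b).mono fun i h1 => by rw [h1, map_add]
  mul a b := (h.mul a b).mono fun i h1 => by rw [h1, map_mul]

theorem eh_comp_right (h : EH U f) {A' : Type} [CommRing A'] (g : A' →+* A) :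
    EH U fun i a => f i (g a) where
  one := by simpa using h.one
  add a b := by simpa using h.add (g a) (g b)
  mul a b := by simpa using h.mul (g a) (g b)

theorem eh_congr (h : EH U f) {f' : ∀ i, A → B i} (h' : ∀ a, ∀ᶠ i in U, f' i a = f i a) :
    EH U f' where
  one := by
    filter_upwards [h.one, h' 1] with i h1 h2
    rw [h2, h1]
  add a b := by
    filter_upwards [h.add a b, h' a, h' b, h' (a + b)] with i h1 h2 h3 h4
    rw [h4, h1, h2, h3]
  mul a b := by
    filter_upwards [h.mul a b, h' a, h' b, h' (a * b)] with i h1 h2 h3 h4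
    rw [h4, h1, h2, h3]

/-- Two eventual homomorphisms which agree on generators agree. -/
theorem eh_ext (h : EH U f) {f' : ∀ i, A → B i} (h' : EH U f') {s : Set A}
    (hs : ∀ a ∈ s, ∀ᶠ i in U, f i a = f' i a) {a : A} (ha : a ∈ Subring.closure s) :
    ∀ᶠ i in U, f i a = f' i a := by
  induction ha using Subring.closure_induction with
  | mem a ha => exact hs a ha
  | zero =>
    filter_upwards [eh_zero h, eh_zero h'] with i h1 h2
    rw [h1, h2]
  | one =>
    filter_upwards [h.one, h'.one] with i h1 h2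
    rw [h1, h2]
  | add a b _ _ ha hb =>
    filter_upwards [h.add a b, h'.add a b, ha, hb] with i h1 h2 h3 h4
    rw [h1, h2, h3, h4]
  | neg a _ ha =>
    filter_upwards [eh_neg h a, eh_neg h' a, ha] with i h1 h2 h3
    rw [h1, h2, h3]
  | mul a b _ _ ha hb =>
    filter_upwards [h.mul a b, h'.mul a b, ha, hb] with i h1 h2 h3 h4
    rw [h1, h2, h3, h4]

/-- Membership in a span passes to the reductions. -/
theorem eh_mem_span (h : EH U f) {k : Type} [CommRing k] [Algebra k A] {k' : I → Type}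
    [∀ i, CommRing (k' i)] [∀ i, Algebra (k' i) (B i)]
    (hk : ∀ c : k, ∀ᶠ i in U, ∃ c', f i (algebraMap k A c) = algebraMap (k' i) (B i) c')
    {T : Set A} {Z : ∀ i, Submodule (k' i) (B i)} (hT : ∀ x ∈ T, ∀ᶠ i in U, f i x ∈ Z i)
    {x : A} (hx : x ∈ Submodule.span k T) : ∀ᶠ i in U, f i x ∈ Z i := by
  induction hx using Submodule.span_induction with
  | mem x hx => exact hT x hx
  | zero => exact (eh_zero h).mono fun i h1 => h1 ▸ (Z i).zero_mem
  | add a b _ _ ha hb =>
    filter_upwards [h.add a b, ha, hb] with i h1 h2 h3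
    exact h1 ▸ (Z i).add_mem h2 h3
  | smul c a _ ha =>
    filter_upwards [h.mul (algebraMap k A c) a, ha, hk c] with i h1 h2 ⟨c', h3⟩
    rw [Algebra.smul_def, h1, h3, ← Algebra.smul_def]
    exact (Z i).smul_mem _ h2

variable (U f) in
/-- The ideal `P` reduces into the ideals `Q i`. -/
def IR (P : Ideal A) (Q : ∀ i, Ideal (B i)) : Prop := ∀ x ∈ P, ∀ᶠ i in U, f i x ∈ Q i

namespace IR
variable {P P' : Ideal A} {Q Q' : ∀ i, Ideal (B i)}

theorem span (h : EH U f) {G : Set A} (hG : ∀ x ∈ G, ∀ᶠ i in U, f i x ∈ Q i) :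
    IR U f (Ideal.span G) Q := fun _ hx =>
  eh_mem_span (k := A) (k' := B) h (fun c => Eventually.of_forall fun i => ⟨f i c, rfl⟩) hG hx

theorem image (h : EH U f) (G : Set A) : IR U f (Ideal.span G) fun i => Ideal.span (f i '' G) :=
  span h fun x hx => Eventually.of_forall fun _ => Ideal.subset_span ⟨x, hx, rfl⟩

theorem mono (h1 : IR U f P Q) (hP : P' ≤ P) (hQ : ∀ᶠ i in U, Q i ≤ Q' i) : IR U f P' Q' :=
  fun x hx => by
    filter_upwards [h1 x (hP hx), hQ] with i h2 h3
    exact h3 h2

theorem sup (h : EH U f) (h1 : IR U f P Q) (h2 : IR U f P' Q') :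
    IR U f (P ⊔ P') fun i => Q i ⊔ Q' i := fun x hx => by
  obtain ⟨a, ha, b, hb, rfl⟩ := Submodule.mem_sup.1 hx
  filter_upwards [h.add a b, h1 a ha, h2 b hb] with i h3 h4 h5
  exact h3 ▸ Submodule.add_mem_sup h4 h5

theorem mul (h : EH U f) (h1 : IR U f P Q) (h2 : IR U f P' Q') :
    IR U f (P * P') fun i => Q i * Q' i := fun x hx => by
  refine Submodule.mul_induction_on hx (fun a ha b hb => ?_) fun a b ha hb => ?_
  · filter_upwards [h.mul a b, h1 a ha, h2 b hb] with i h3 h4 h5
    exact h3 ▸ Ideal.mul_mem_mul h4 h5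
  · filter_upwards [h.add a b, ha, hb] with i h3 h4 h5
    exact h3 ▸ add_mem h4 h5

theorem pow (h : EH U f) (h1 : IR U f P Q) (n : ℕ) : IR U f (P ^ n) fun i => Q i ^ n := by
  induction n with
  | zero => exact fun x _ => Eventually.of_forall fun i => by simp
  | succ n ih =>
    simp only [pow_succ]
    exact mul h ih h1

theorem le {G : Set A} (hG : G.Finite) (h1 : IR U f (Ideal.span G) Q) :
    ∀ᶠ i in U, Ideal.span (f i '' G) ≤ Q i := by
  filter_upwards [(eventually_all_finite hG).2 fun x hx => h1 x (Ideal.subset_span hx)] with i h2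
  exact Ideal.span_le.2 (Set.image_subset_iff.2 h2)

end IR

theorem eh_image_pow (h : EH U f) {G : Set A} (hG : G.Finite) (n : ℕ) :
    ∀ᶠ i in U, (f i '' G) ^ n ⊆ f i '' (G ^ n) := by
  induction n with
  | zero =>
    filter_upwards [h.one] with i h1 x hx
    rw [pow_zero, Set.mem_one] at hx
    exact ⟨1, by simp, by rw [h1, hx]⟩
  | succ n ih =>
    filter_upwards [ih, (eventually_all_finite (Ch.fin_pow hG n)).2 fun x _ =>
      (eventually_all_finite hG).2 fun y _ => h.mul x y] with i h1 h2 z hz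
    rw [pow_succ] at hz ⊢
    obtain ⟨a, ha, _, ⟨y, hy, rfl⟩, rfl⟩ := hz
    obtain ⟨x, hx, rfl⟩ := h1 ha
    exact ⟨x * y, Set.mul_mem_mul hx hy, h2 x hx y hy⟩

theorem IR.pow_le (h : EH U f) {Q : ∀ i, Ideal (B i)} {G : Set A} (hG : G.Finite) {n : ℕ}
    (h1 : IR U f (Ideal.span G ^ n) Q) : ∀ᶠ i in U, Ideal.span (f i '' G) ^ n ≤ Q i := by
  rw [Ch.span_pow'] at h1
  filter_upwards [h1.le (Ch.fin_pow hG n), eh_image_pow h hG n] with i h2 h3
  rw [Ch.span_pow']
  exact (Ideal.span_mono h3).trans h2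

/-- The reduction of an ideal does not depend on the finite generating set. -/
theorem eh_span_eq (h : EH U f) {G G' : Set A} (hG : G.Finite) (hG' : G'.Finite)
    (e : Ideal.span G = Ideal.span G') :
    ∀ᶠ i in U, Ideal.span (f i '' G) = Ideal.span (f i '' G') := by
  filter_upwards [IR.le hG (e ▸ IR.image h G'), IR.le hG' (e ▸ IR.image h G)] with i h1 h2
  exact le_antisymm h1 h2

variable {k : Type} [CommRing k] [Algebra k A] {k' : I → Type} [∀ i, CommRing (k' i)]
  [∀ i, Algebra (k' i) (B i)] {S : ℕ → Submodule k A} {S' : ∀ i, ℕ → Submodule (k' i) (B i)}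
  {lam : ℝ} {w c : ℕ}

/-- Levels reduce. -/
theorem Lev.eh (h : EH U f) (hS : ∀ j, ∀ x ∈ S j, ∀ᶠ i in U, f i x ∈ S' i j) {G' G : Set A}
    (hG' : G'.Finite) (hG : G.Finite) (h1 : Lev S (Ideal.span G') (Ideal.span G) lam w c) :
    ∀ᶠ i in U, Lev (S' i) (Ideal.span (f i '' G')) (Ideal.span (f i '' G)) lam w c := by
  classical
  obtain ⟨L, g, a, e, b, C, k1, k2, k3, k4, k5, k6, k7, k8, k9⟩ := h1
  rw [← Ideal.span_union] at k4
  filter_upwards [(eventually_all_finset L).2 fun x hx => hS a x (k1 x hx),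
    (eventually_all_finset g).2 fun x hx => hS e x (k2 x hx),
    eh_span_eq h hG (hG'.union g.finite_toSet) k4,
    (eventually_all_finset L).2 fun x hx =>
      (((IR.image h G).pow h b).sup h (IR.image h G')) x (k5 x hx),
    IR.pow_le h hG (((IR.image h L).sup h (IR.image h G')).mono k6
      (Eventually.of_forall fun _ => le_rfl))] with i l1 l2 l4 l5 l6
  refine ⟨L.image (f i), g.image (f i), a, e, b, C, ?_, ?_, Finset.card_image_le.trans k3, ?_, ?_,
    ?_, k7, k8, k9⟩
  · simpa only [Finset.forall_mem_image] using l1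
  · simpa only [Finset.forall_mem_image] using l2
  · rw [l4, Set.image_union, Ideal.span_union, Finset.coe_image]
  · simpa only [Finset.forall_mem_image] using l5
  · rwa [Finset.coe_image]

/-- Towers reduce. -/
theorem Tow.eh (h : EH U f) (hS : ∀ j, ∀ x ∈ S j, ∀ᶠ i in U, f i x ∈ S' i j) {p : Ideal A}
    (h1 : Tow S p lam w c) {G : Set A} (hG : G.Finite) (e : p = Ideal.span G) :
    ∀ᶠ i in U, Tow (S' i) (Ideal.span (f i '' G)) lam w c := by
  induction h1 generalizing G with
  | zero h0 =>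
    filter_upwards [eh_span_eq h hG Set.finite_empty (by rw [← e, Ideal.span_empty])] with i h2
    rw [h2, Set.image_empty, Ideal.span_empty]
    exact Tow.zero h0
  | step h0 h2 ih =>
    obtain ⟨g, -, hg⟩ := h0.gen
    rw [e, hg] at h2
    filter_upwards [ih g.finite_toSet hg, h2.eh h hS g.finite_toSet hG] with i h3 h4
    exact h3.step h4

end Pool.Agent.Lib.A35
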