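import Pool.Agent.Lib.A35.Tay

/-! DET, EMB and SPEC of ah35, section 2. -/

namespace Pool.Agent.Lib.A35.T

section Alg

variable {k K : Type} [CommRing k] [Field K] [CharZero K] [Algebra k K]

theorem der_eq_zero_of_root (D : Derivation k K K) (y : K) (n : ℕ) :
    ∀ q : Polynomial K, q.natDegree ≤ n → q ≠ 0 → (∀ i, D (q.coeff i) = 0) → q.eval y = 0 →
      D y = 0 := by
  induction n with
  | zero =>
    intro q hq h0 _ hy
    rw [Polynomial.eq_C_of_natDegree_le_zero hq] at h0 hy
    rw [Polynomial.eval_C] at hy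
    exact absurd (by rw [hy, map_zero]) h0
  | succ n ih =>
    intro q hq h0 hc hy
    have key : D (q.eval y) = q.derivative.eval y * D y := by
      rw [Polynomial.derivative_eval, Polynomial.eval_eq_sum, Polynomial.sum_def,
        Polynomial.sum_def, map_sum, Finset.sum_mul]
      refine Finset.sum_congr rfl fun i _ => ?_
      rw [D.leibniz, hc, D.leibniz_pow]
      simp
      ring
    rw [hy, map_zero] at key
    rcases mul_eq_zero.1 key.symm with h | h
    · by_cases hd : q.derivative = 0
      · have h1 := Polynomial.derivative_eq_zero.1 hd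
        rw [Polynomial.eq_C_of_natDegree_eq_zero h1] at h0 hy
        rw [Polynomial.eval_C] at hy
        exact absurd (by rw [hy, map_zero]) h0
      · refine ih _ ((Polynomial.natDegree_derivative_le q).trans (by omega)) hd (fun i => ?_) h
        rw [Polynomial.coeff_derivative, D.leibniz, hc]
        simp
    · exact h

/-- A derivation that kills `x` kills everything algebraic over `k[x]`. -/
theorem der_eq_zero_of_isAlgebraic (D : Derivation k K K) (s : Set K) (hs : ∀ x ∈ s, D x = 0)
    [h : Algebra.IsAlgebraic (Algebra.adjoin k s) K] : D = 0 := by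
  have h1 : ∀ x ∈ Algebra.adjoin k s, D x = 0 := by
    intro x hx
    induction hx using Algebra.adjoin_induction with
    | mem x hx => exact hs x hx
    | algebraMap r => simp
    | add x y _ _ hx hy => simp [hx, hy]
    | mul x y _ _ hx hy => simp [hx, hy]
  ext y
  obtain ⟨q, hq, hy⟩ := h.isAlgebraic y
  refine der_eq_zero_of_root D y _ (q.map (algebraMap _ K)) le_rfl
    ((Polynomial.map_ne_zero_iff Subtype.val_injective).2 hq) (fun i => ?_) ?_
  · rw [Polynomial.coeff_map]
    exact h1 _ (q.coeff i).2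
  · rwa [Polynomial.eval_map_algebraMap]

end Alg

open scoped IntermediateField.algebraAdjoinAdjoin in
/-- In characteristic zero every field extension is formally smooth. -/
theorem smooth_of_charZero (k K : Type) [Field k] [CharZero k] [Field K] [Algebra k K] :
    Algebra.FormallySmooth k K := by
  obtain ⟨s, hs⟩ := exists_isTranscendenceBasis k K
  have := hs.isAlgebraic_field
  exact .of_algebraicIndependent_of_isSeparable hs.1

section Words

variable {k A : Type} [CommRing k] [CommRing A] [Algebra k A] {J : Type}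

/-- The ideal spanned by the words of length at most `n` applied to `f`. -/
def wdI (d : J → Derivation k A A) (f : A) (n : ℕ) : Ideal A :=
  Ideal.span {g | ∃ l : List J, l.length ≤ n ∧ wd d l f = g}

theorem wdI_mono (d : J → Derivation k A A) (f : A) {n n' : ℕ} (h : n ≤ n') :
    wdI d f n ≤ wdI d f n' :=
  Ideal.span_mono fun _ ⟨l, hl, e⟩ => ⟨l, hl.trans h, e⟩

theorem der_wdI (d : J → Derivation k A A) (f : A) (n : ℕ) (j : J) :
    ∀ x ∈ wdI d f n, d j x ∈ wdI d f (n + 1) := by
  intro x hx
  induction hx using Submodule.span_induction with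
  | mem x hx =>
    obtain ⟨l, hl, rfl⟩ := hx
    exact Ideal.subset_span ⟨j :: l, by simpa using hl, rfl⟩
  | zero => simp
  | add x y _ _ hx hy => rw [map_add]; exact add_mem hx hy
  | smul a x hx0 hx =>
    rw [smul_eq_mul, Derivation.leibniz, smul_eq_mul, smul_eq_mul]
    exact add_mem (Ideal.mul_mem_left _ _ hx)
      (Ideal.mul_mem_right _ _ (wdI_mono d f (Nat.le_succ n) hx0))

theorem sum_smul_apply [Fintype J] (d : J → Derivation k A A) (r : J → A) (x : A) :
    (∑ j, r j • d j) x = ∑ j, r j * d j x := by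
  have := map_sum (Derivation.coeFnAddMonoidHom (R := k) (A := A) (M := A)) (fun j => r j • d j)
    Finset.univ
  have h := congrFun this x
  rw [Finset.sum_apply] at h
  exact h

/-- Words in combinations of the `d j` lie in the ideal of shorter or equal words in the `d j`. -/
theorem wd_comb_mem [Fintype J] {ι : Type} (d : J → Derivation k A A) (r : ι → J → A) (f : A)
    (l : List ι) : wd (fun i => ∑ j, r i j • d j) l f ∈ wdI d f l.length := by
  induction l with
  | nil => exact Ideal.subset_span ⟨[], le_rfl, rfl⟩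
  | cons i l ih =>
    rw [wd_cons, sum_smul_apply]
    exact sum_mem fun j _ => Ideal.mul_mem_left _ _ (der_wdI d f _ j _ ih)

end Words

section Det

variable {k A K J : Type} [Field k] [CommRing A] [Field K] [Algebra k A] [Algebra k K]
  [Fintype J] [DecidableEq J]

/-- Hypotheses of DET: `ρ` is the residue map, `d` is dual to `t` modulo the kernel, and a
derivation into `A / m ^ 2` is determined by its values on `t`. -/
structure Det (ρ : A →ₐ[k] K) (d : J → Derivation k A A) (t : J → A) : Prop where
  surj : Function.Surjective ρ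
  dual : ∀ i j, ρ (d i (t j)) = if i = j then 1 else 0
  uniq : ∀ D : Derivation k A (A ⧸ RingHom.ker ρ ^ 2), (∀ j, D (t j) = 0) → D = 0

namespace Det

variable {ρ : A →ₐ[k] K} {d : J → Derivation k A A} {t : J → A}

/-- DET. -/
theorem mem_sq [Algebra.FormallySmooth k K] (H : Det ρ d t) {f : A} (hf : ρ f = 0)
    (hd : ∀ j, ρ (d j f) = 0) : f ∈ RingHom.ker ρ ^ 2 := by
  let π : (A ⧸ RingHom.ker ρ ^ 2) →ₐ[k] K := Ideal.Quotient.liftₐ _ ρ fun a ha =>
    Ideal.pow_le_self two_ne_zero ha
  let mk : A →+* A ⧸ RingHom.ker ρ ^ 2 := Ideal.Quotient.mk _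
  have hπ : ∀ a, π (mk a) = ρ a := fun a => rfl
  have hsq : ∀ x y, π x = 0 → π y = 0 → x * y = 0 := by
    intro x y hx hy
    obtain ⟨a, rfl⟩ := Ideal.Quotient.mk_surjective x
    obtain ⟨b, rfl⟩ := Ideal.Quotient.mk_surjective y
    rw [← map_mul, Ideal.Quotient.eq_zero_iff_mem, pow_two]
    exact Ideal.mul_mem_mul hx hy
  have hs : Function.Surjective π := fun y => by
    obtain ⟨a, rfl⟩ := H.surj y
    exact ⟨mk a, rfl⟩
  have hn : IsNilpotent (RingHom.ker π) := ⟨2, by
    rw [pow_two (RingHom.ker π), Ideal.zero_eq_bot, eq_bot_iff]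
    exact Ideal.mul_le.2 fun x hx y hy => hsq x y hx hy⟩
  let s := Algebra.FormallySmooth.liftOfSurjective (AlgHom.id k K) π hs hn
  have hs' : ∀ y, π (s y) = y := Algebra.FormallySmooth.liftOfSurjective_apply _ π hs hn
  let δ0 : A →ₗ[k] A ⧸ RingHom.ker ρ ^ 2 :=
    (Ideal.Quotient.mkₐ k _).toLinearMap - (s.comp ρ).toLinearMap
  have h0 : ∀ a, δ0 a = mk a - s (ρ a) := fun a => rfl
  have h1 : ∀ a, π (δ0 a) = 0 := fun a => by rw [h0, map_sub, hπ, hs', sub_self]
  let δ : Derivation k A (A ⧸ RingHom.ker ρ ^ 2) := Derivation.mk' δ0 fun a b => by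
    have := hsq _ _ (h1 a) (h1 b)
    rw [h0, h0] at this
    rw [h0, h0, h0, Algebra.smul_def, Algebra.smul_def, map_mul, map_mul, map_mul]
    change _ = mk a * _ + mk b * _
    linear_combination -this
  let E : J → Derivation k A (A ⧸ RingHom.ker ρ ^ 2) := fun j =>
    (LinearMap.mulLeft A (δ0 (t j)) ∘ₗ Algebra.linearMap A _).compDer (d j)
  have hE : ∀ a, (δ - ∑ j, E j) a = δ0 a - ∑ j, δ0 (t j) * mk (d j a) := by
    intro a
    have := congrFun (map_sum (Derivation.coeFnAddMonoidHom (R := k) (A := A)
      (M := A ⧸ RingHom.ker ρ ^ 2)) E Finset.univ) a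
    rw [Finset.sum_apply] at this
    rw [Derivation.sub_apply]
    exact congrArg (fun z => δ0 a - z) this
  have hz := H.uniq (δ - ∑ j, E j) fun i => by
    rw [hE, Finset.sum_eq_single i]
    · have := hsq _ (mk (d i (t i)) - 1) (h1 (t i)) (by rw [map_sub, hπ, H.dual]; simp)
      linear_combination -this
    · intro j _ hj
      exact hsq _ _ (h1 _) (by rw [hπ, H.dual, if_neg hj])
    · simp
  have h2 := hE f
  rw [hz, h0, hf, map_zero, sub_zero,
    Finset.sum_eq_zero fun j _ => hsq _ _ (h1 _) (by rw [hπ, hd]), sub_zero] at h2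
  exact Ideal.Quotient.eq_zero_iff_mem.1 h2.symm

omit [Fintype J] in
theorem ker_ne_top (ρ : A →ₐ[k] K) : RingHom.ker ρ ≠ ⊤ := RingHom.ker_ne_top ρ

/-- DET and EMB: local coordinates with dual derivations that are combinations of the `d j`. -/
theorem exists_tay [CharZero k] [IsLocalRing A] [IsNoetherianRing A]
    (H : Det ρ d t) : ∃ (c : ℕ) (η : Fin c → A) (r : Fin c → J → A),
      Tay (RingHom.ker ρ) ⊥ η (fun i => ∑ j, r i j • d j) ∧ c ≤ Fintype.card J ∧
      ∀ (n : ℕ) (x : Fin n → K), Algebra.IsAlgebraic (Algebra.adjoin k (Set.range x)) K →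
        Fintype.card J ≤ c + n := by
  have := smooth_of_charZero k K
  have hφ : ∀ a f, ρ f = 0 → ∀ j, ρ (d j (a * f)) = ρ a * ρ (d j f) := by
    intro a f hf j
    rw [Derivation.leibniz, smul_eq_mul, smul_eq_mul, map_add, map_mul, map_mul, hf]
    simp
  let W : Submodule K (J → K) :=
    { carrier := {w | ∃ f, ρ f = 0 ∧ ∀ j, ρ (d j f) = w j}
      add_mem' := by
        rintro _ _ ⟨f, hf, h⟩ ⟨g, hg, h'⟩
        exact ⟨f + g, by simp [hf, hg], fun j => by simp [h, h']⟩
      zero_mem' := ⟨0, by simp, by simp⟩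
      smul_mem' := by
        rintro c w ⟨f, hf, h⟩
        obtain ⟨a, rfl⟩ := H.surj c
        exact ⟨a * f, by simp [hf], fun j => by rw [hφ a f hf, h]; rfl⟩ }
  let b := Module.finBasis K W
  choose η hη hη' using fun i => (b i).2
  choose g hg using fun i => LinearMap.exists_extend (b.coord i)
  choose lf hlf using H.surj
  have hspan : RingHom.ker ρ = Ideal.span (Set.range η) := by
    refine le_antisymm ?_ (Ideal.span_le.2 (by rintro _ ⟨i, rfl⟩; exact hη i))
    refine Submodule.le_of_le_smul_of_le_jacobson_bot (I := RingHom.ker ρ)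
      (IsNoetherian.noetherian _) ?_ fun f hf => ?_
    · rw [IsLocalRing.jacobson_eq_maximalIdeal ⊥ bot_ne_top]
      exact IsLocalRing.le_maximalIdeal (ker_ne_top ρ)
    · let w : W := ⟨fun j => ρ (d j f), f, hf, fun _ => rfl⟩
      have h1 : f - ∑ i, lf (b.repr w i) * η i ∈ RingHom.ker ρ ^ 2 := by
        refine H.mem_sq ?_ fun j => ?_
        · rw [map_sub, RingHom.mem_ker.1 hf, map_sum]
          simp [hη]
        · have := congrArg (fun v : W => (v : J → K) j) (b.sum_repr w)
          simp only [Submodule.coe_sum, Finset.sum_apply, Submodule.coe_smul, Pi.smul_apply,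
            smul_eq_mul] at this
          rw [map_sub, map_sum, map_sub, map_sum]
          simp only [hφ _ _ (hη _), hlf, hη']
          rw [this]
          exact sub_self _
      have h2 : f = ∑ i, lf (b.repr w i) * η i + (f - ∑ i, lf (b.repr w i) * η i) := by ring
      rw [h2]
      refine Submodule.add_mem_sup (sum_mem fun i _ =>
        Ideal.mul_mem_left _ _ (Ideal.subset_span ⟨i, rfl⟩)) ?_
      rwa [smul_eq_mul, ← pow_two]
  refine ⟨_, η, fun i j => lf (g i (Pi.single j 1)), ⟨fun n => ?_, ?_, ?_, fun i l => ?_⟩, ?_,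
    fun n x hx => ?_⟩
  · have : ((n : k) + 1) ≠ 0 := Nat.cast_add_one_ne_zero n
    simpa using (IsUnit.mk0 _ this).map (algebraMap k A)
  · simpa using hspan
  · intro i x hx
    simp [Ideal.mem_bot.1 hx]
  · rw [RingHom.mem_ker, map_sub, sum_smul_apply, map_sum]
    simp only [map_mul, hlf, hη']
    have h1 : g i (b l) = b.coord i (b l) := LinearMap.congr_fun (hg i) (b l)
    rw [LinearMap.pi_apply_eq_sum_univ] at h1
    have h2 : ∑ j, g i (Pi.single j 1) * (b l : J → K) j = b.coord i (b l) := by
      rw [← h1]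
      refine Finset.sum_congr rfl fun j _ => ?_
      rw [smul_eq_mul, mul_comm]
      congr 2
      ext j'
      simp [Pi.single_apply, eq_comm]
    rw [h2]
    by_cases h : i = l
    · subst h; simp
    · simp [h, Finsupp.single_eq_of_ne h]
  · simpa using Submodule.finrank_le W
  · have : CharZero K := charZero_of_injective_algebraMap (algebraMap k K).injective
    let Λ : (J → K) →ₗ[K] (Fin (Module.finrank K W) ⊕ Fin n → K) :=
      Matrix.mulVecLin (Matrix.of fun a j => ρ (d j (Sum.elim η (fun a => lf (x a)) a)))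
    have hΛ : ∀ v a, Λ v a = ρ ((∑ j, lf (v j) • d j) (Sum.elim η (fun a => lf (x a)) a)) := by
      intro v a
      rw [sum_smul_apply, map_sum]
      simp [Λ, Matrix.mulVec, dotProduct, hlf, mul_comm]
    have hinj : Function.Injective Λ := by
      rw [← LinearMap.ker_eq_bot, eq_bot_iff]
      intro v hv
      have hv' := fun a => (hΛ v a).symm.trans (congrFun (LinearMap.mem_ker.1 hv) a)
      have hpres : ∀ y, ρ y = 0 → ρ ((∑ j, lf (v j) • d j) y) = 0 := by
        intro y hy
        have hy' : y ∈ Ideal.span (Set.range η) := hspan ▸ hy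
        induction hy' using Submodule.span_induction with
        | mem y hy' =>
          obtain ⟨i, rfl⟩ := hy'
          exact hv' (Sum.inl i)
        | zero => simp
        | add y z hy1 hz1 hy2 hz2 =>
          rw [map_add, map_add, hy2 (hspan.ge hy1), hz2 (hspan.ge hz1), add_zero]
        | smul a y hy1 hy2 =>
          rw [smul_eq_mul, Derivation.leibniz, smul_eq_mul, smul_eq_mul, map_add, map_mul,
            map_mul, hy2 (hspan.ge hy1), RingHom.mem_ker.1 (hspan.ge hy1)]
          simp
      have hD : Derivation.liftOfSurjective H.surj hpres = 0 :=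
        der_eq_zero_of_isAlgebraic _ (Set.range x) (by
          rintro _ ⟨a, rfl⟩
          rw [← hlf (x a), Derivation.liftOfSurjective_apply]
          exact hv' (Sum.inr a))
      refine funext fun i => ?_
      have h1 := Derivation.liftOfSurjective_apply H.surj hpres (t i)
      rw [hD, sum_smul_apply, map_sum] at h1
      simp only [map_mul, hlf, H.dual] at h1
      simpa using h1.symm
    simpa using LinearMap.finrank_le_finrank_of_injective hinj

variable [CharZero k] [IsLocalRing A] [IsNoetherianRing A]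

/-- DET with TAY (b): words in the given derivations detect powers of the maximal ideal. -/
theorem mem_pow (H : Det ρ d t) (s : ℕ) {f : A}
    (h : ∀ l : List J, l.length < s → ρ (wd d l f) = 0) : f ∈ RingHom.ker ρ ^ s := by
  obtain ⟨c, η, r, T, -, -⟩ := H.exists_tay
  have := T.mem_pow s (f := f) fun l hl => by
    refine (show wdI d f l.length ≤ RingHom.ker ρ from Ideal.span_le.2 ?_) (wd_comb_mem d r f l)
    rintro _ ⟨l', hl', rfl⟩
    exact h l' (by omega)
  simpa using this

theorem mem_succ (H : Det ρ d t) (s : ℕ) {f : A} (hf : f ∈ RingHom.ker ρ ^ s)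
    (h : ∀ l : List J, l.length = s → ρ (wd d l f) = 0) : f ∈ RingHom.ker ρ ^ (s + 1) := by
  refine H.mem_pow _ fun l hl => ?_
  rcases Nat.lt_succ_iff_lt_or_eq.1 hl with h1 | h1
  · have := wd_pow d (RingHom.ker ρ) l 1 f (Ideal.pow_le_pow_right (by omega) hf)
    rwa [pow_one] at this
  · exact h l h1

/-- DET, EMB and TAY (c): the length of `A / m ^ s` is at least the number of monomials of
degree `< s` in `e` variables when `e + trdeg ≤ card J`. -/
theorem length_ge_sum (H : Det ρ d t) {n : ℕ} (x : Fin n → K)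
    (hx : Algebra.IsAlgebraic (Algebra.adjoin k (Set.range x)) K) {e : ℕ}
    (he : e + n ≤ Fintype.card J) (s : ℕ) :
    ((∑ i ∈ Finset.range s, e.multichoose i : ℕ) : ℕ∞)
      ≤ Module.length A (A ⧸ RingHom.ker ρ ^ s) := by
  obtain ⟨c, η, r, T, -, hc⟩ := H.exists_tay
  have h1 := T.length_ge_sum (ker_ne_top ρ) s
  rw [sup_bot_eq, Fintype.card_fin] at h1
  refine le_trans (Nat.cast_le.2 (Finset.sum_le_sum fun i _ => ?_)) h1
  have := hc n x hx
  rw [Nat.multichoose_eq, Nat.multichoose_eq]
  exact Nat.choose_le_choose _ (by omega)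

theorem length_ge (H : Det ρ d t) {n : ℕ} (x : Fin n → K)
    (hx : Algebra.IsAlgebraic (Algebra.adjoin k (Set.range x)) K) {e : ℕ}
    (he : e + n ≤ Fintype.card J) (s : ℕ) :
    (((s + e).choose e : ℕ) : ℕ∞) ≤ Module.length A (A ⧸ RingHom.ker ρ ^ (s + 1)) := by
  have := H.length_ge_sum x hx he (s + 1)
  rwa [Nat.sum_range_multichoose] at this

end Det

end Det

/-- G4 SPEC: independent elements in a quotient, together with a nonzero element of the kernel,
are independent in the domain upstairs. -/
theorem spec {κ A B ι : Type} [CommRing κ] [CommRing A] [IsDomain A] [CommRing B] [Algebra κ A]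
    [Algebra κ B] (φ : A →ₐ[κ] B) (x : ι → A) (hx : AlgebraicIndependent κ (φ ∘ x)) {f : A}
    (hf : f ≠ 0) (hφ : φ f = 0) : AlgebraicIndependent κ fun o : Option ι => o.elim f x := by
  have hx' : AlgebraicIndependent κ x := AlgebraicIndependent.of_comp φ hx
  rw [hx'.option_iff_transcendental]
  rintro ⟨q, hq, hqf⟩
  obtain ⟨q1, h1, h2⟩ := Polynomial.exists_eq_pow_rootMultiplicity_mul_and_not_dvd q hq 0
  rw [h1, map_mul, map_pow] at hqf
  simp only [map_zero, sub_zero, Polynomial.aeval_X] at hqf h2
  have h3 : Polynomial.aeval f q1 = 0 := (mul_eq_zero.1 hqf).resolve_left (pow_ne_zero _ hf)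
  apply h2
  rw [Polynomial.X_dvd_iff]
  have h4 : φ (q1.coeff 0 : A) = 0 := by
    rw [← Polynomial.divX_mul_X_add q1, map_add, map_mul, Polynomial.aeval_X,
      Polynomial.aeval_C] at h3
    have := congrArg φ h3
    rwa [map_add, map_mul, hφ, mul_zero, zero_add, map_zero] at this
  obtain ⟨P, hP⟩ := (Algebra.adjoin_range_eq_range_aeval κ x).le (q1.coeff 0).2
  replace hP : MvPolynomial.aeval x P = (q1.coeff 0 : A) := hP
  have h6 : P = 0 := by
    refine algebraicIndependent_iff.1 hx P ?_
    rw [← h4, ← hP]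
    exact (MvPolynomial.comp_aeval_apply x φ P).symm
  refine Subtype.ext ?_
  rw [← hP, h6]
  simp

/-- G4 SPEC for ideals `P ≤ P'` with `P` prime. -/
theorem spec_ideal {κ R ι : Type} [CommRing κ] [CommRing R] [Algebra κ R] {P P' : Ideal R}
    [P.IsPrime] (h : P ≤ P') (x : ι → R)
    (hx : AlgebraicIndependent κ fun i => Ideal.Quotient.mk P' (x i)) {f : R} (hf : f ∉ P)
    (hf' : f ∈ P') :
    AlgebraicIndependent κ fun o : Option ι => Ideal.Quotient.mk P (o.elim f x) := by
  have := spec (Ideal.Quotient.factorₐ κ h) (fun i => Ideal.Quotient.mk P (x i)) hx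
    (f := Ideal.Quotient.mk P f) (fun e => hf (Ideal.Quotient.eq_zero_iff_mem.1 e))
    (Ideal.Quotient.eq_zero_iff_mem.2 hf')
  have e : (fun o : Option ι => Ideal.Quotient.mk P (o.elim f x))
      = fun o : Option ι => o.elim (Ideal.Quotient.mk P f) fun i => Ideal.Quotient.mk P (x i) := by
    funext o
    cases o <;> rfl
  rwa [e]

end Pool.Agent.Lib.A35.T
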