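import Mathlib

/-! Germs: localisations of `κ ⊗ L`, extension of derivations. -/

open scoped TensorProduct
open Algebra

set_option linter.unusedSectionVars false
set_option linter.unusedVariables false

noncomputable section

namespace Pool.Agent.Lib.A35.G

section loc
variable {k A R : Type} [CommRing k] [CommRing A] [CommRing R] [Algebra k A] [Algebra k R]
  [Algebra A R] [IsScalarTower k A R]

/-- A derivation with values in a module over the localisation extends to the localisation. -/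
theorem der_loc (S : Submonoid A) [IsLocalization S R] {M : Type} [AddCommGroup M] [Module k M]
    [Module A M] [Module R M] [IsScalarTower k A M] [IsScalarTower k R M] [IsScalarTower A R M]
    (d : Derivation k A M) : ∃ D : Derivation k R M, ∀ a, D (algebraMap A R a) = d a := by
  have := Algebra.FormallyEtale.of_isLocalization (Rₘ := R) S
  let e := KaehlerDifferential.tensorKaehlerEquivOfFormallyEtale k A R
  let f : R ⊗[A] Ω[A⁄k] →ₗ[R] M := d.liftKaehlerDifferential.liftBaseChange R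
  refine ⟨(f.comp e.symm.toLinearMap).compDer (KaehlerDifferential.D k R), fun a => ?_⟩
  change f (e.symm (KaehlerDifferential.D k R (algebraMap A R a))) = _
  rw [KaehlerDifferential.tensorKaehlerEquivOfFormallyEtale_symm_D_algebraMap]
  simp [f]

/-- A self-derivation extends to the localisation. -/
theorem der_loc_self (S : Submonoid A) [IsLocalization S R] (d : Derivation k A A) :
    ∃ D : Derivation k R R, ∀ a, D (algebraMap A R a) = algebraMap A R (d a) := by
  obtain ⟨D, hD⟩ := der_loc (R := R) S ((Algebra.linearMap A R).compDer d)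
  exact ⟨D, fun a => by rw [hD]; rfl⟩

omit [Algebra k A] [Algebra k R] [IsScalarTower k A R] in
/-- An additive Leibniz map which kills the ring kills its localisation. -/
theorem leib_loc (S : Submonoid A) [IsLocalization S R] {R' M : Type} [CommRing R']
    [AddCommGroup M] [Module R' M] (φ : R →+* R') (δ : R → M)
    (h : ∀ a b, δ (a * b) = φ a • δ b + φ b • δ a) (h0 : ∀ a, δ (algebraMap A R a) = 0) (r : R) :
    δ r = 0 := by
  obtain ⟨⟨a, s⟩, hs⟩ := IsLocalization.surj S r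
  have h1 := h r (algebraMap A R s)
  rw [hs, h0, h0, smul_zero, zero_add] at h1
  exact ((IsLocalization.map_units R s).map φ).smul_eq_zero.1 h1.symm

end loc

section tens
variable {k κ L : Type} [CommRing k] [CommRing κ] [CommRing L] [Algebra k κ] [Algebra k L]

/-- The derivation `1 ⊗ d`. -/
def derR (κ : Type) [CommRing κ] [Algebra k κ] (d : Derivation k L L) :
    Derivation κ (κ ⊗[k] L) (κ ⊗[k] L) :=
  Derivation.mk' (d.toLinearMap.baseChange κ) fun a b => by
    induction a with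
    | zero => simp
    | add a a' h h' => simp only [add_mul, map_add, h, h', add_smul, smul_add]; abel
    | tmul c x =>
      induction b with
      | zero => simp
      | add b b' h h' => simp only [mul_add, map_add, h, h', add_smul, smul_add]; abel
      | tmul c' y =>
        simp [TensorProduct.tmul_add, mul_comm c c']

theorem derR_tmul (d : Derivation k L L) (c : κ) (x : L) :
    derR κ d (c ⊗ₜ x) = c ⊗ₜ d x := rfl

/-- The derivation `d ⊗ 1`. -/
def derL (L : Type) [CommRing L] [Algebra k L] (d : Derivation k κ κ) :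
    Derivation k (κ ⊗[k] L) (κ ⊗[k] L) :=
  Derivation.mk' (d.toLinearMap.rTensor L) fun a b => by
    induction a with
    | zero => simp
    | add a a' h h' => simp only [add_mul, map_add, h, h', add_smul, smul_add]; abel
    | tmul c x =>
      induction b with
      | zero => simp
      | add b b' h h' => simp only [mul_add, map_add, h, h', add_smul, smul_add]; abel
      | tmul c' y =>
        simp [TensorProduct.add_tmul, mul_comm x y]

theorem derL_tmul (d : Derivation k κ κ) (c : κ) (x : L) :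
    derL L d (c ⊗ₜ x) = d c ⊗ₜ x := rfl

end tens

section germ
variable {k κ L K : Type} [Field k] [Field κ] [Field L] [Field K] [Algebra k κ] [Algebra k L]
  [Algebra k K] [Algebra κ K] [IsScalarTower k κ K]

variable (κ) in
/-- Evaluation at the point `σ`. -/
def ev (σ : L →ₐ[k] K) : κ ⊗[k] L →ₐ[κ] K :=
  Algebra.TensorProduct.lift (Algebra.ofId κ K) σ fun _ _ => .all _ _

variable (κ) in
/-- The prime of the point `σ`. -/
def cen (σ : L →ₐ[k] K) : Ideal (κ ⊗[k] L) := RingHom.ker (ev κ σ)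

instance cen_prime (σ : L →ₐ[k] K) : (cen κ σ).IsPrime := RingHom.ker_isPrime _

variable (κ) in
/-- The local ring at the point `σ`. -/
abbrev Germ (σ : L →ₐ[k] K) : Type := Localization.AtPrime (cen κ σ)

variable (κ) in
/-- The map to the local ring. -/
def mkG (σ : L →ₐ[k] K) : κ ⊗[k] L →ₐ[κ] Germ κ σ := IsScalarTower.toAlgHom κ _ _

variable (κ) in
/-- The right copy of `L`. -/
def iota (σ : L →ₐ[k] K) : L →ₐ[k] Germ κ σ :=
  ((mkG κ σ).restrictScalars k).comp Algebra.TensorProduct.includeRight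

variable (κ) in
/-- The residue map. -/
def rho (σ : L →ₐ[k] K) : Germ κ σ →ₐ[κ] K :=
  IsLocalization.liftAlgHom (M := (cen κ σ).primeCompl) (f := ev κ σ) fun s =>
    IsUnit.mk0 _ s.2

variable {σ : L →ₐ[k] K}

theorem ev_tmul (c : κ) (x : L) : ev κ σ (c ⊗ₜ x) = algebraMap κ K c * σ x := rfl

theorem mem_cen {a : κ ⊗[k] L} : a ∈ cen κ σ ↔ ev κ σ a = 0 := Iff.rfl

theorem mkG_eq (a : κ ⊗[k] L) : mkG κ σ a = algebraMap _ _ a := rfl

theorem iota_eq (x : L) : iota κ σ x = mkG κ σ (1 ⊗ₜ x) := rfl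

theorem mkG_tmul (c : κ) (x : L) :
    mkG κ σ (c ⊗ₜ x) = algebraMap κ _ c * iota κ σ x := by
  rw [iota_eq, ← Algebra.smul_def, ← map_smul, TensorProduct.smul_tmul', smul_eq_mul, mul_one]

theorem rho_mkG (a : κ ⊗[k] L) : rho κ σ (mkG κ σ a) = ev κ σ a :=
  IsLocalization.lift_eq (M := (cen κ σ).primeCompl) _ a

theorem rho_iota (x : L) : rho κ σ (iota κ σ x) = σ x := by
  rw [iota_eq, rho_mkG, ev_tmul, map_one, one_mul]

theorem germ_surj (r : Germ κ σ) : ∃ a s, ev κ σ s ≠ 0 ∧ r * mkG κ σ s = mkG κ σ a := by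
  obtain ⟨⟨a, s⟩, h⟩ := IsLocalization.surj (cen κ σ).primeCompl r
  exact ⟨a, s, s.2, h⟩

theorem mkG_eq_zero {a : κ ⊗[k] L} : mkG κ σ a = 0 ↔ ∃ s, ev κ σ s ≠ 0 ∧ s * a = 0 := by
  rw [mkG_eq, IsLocalization.map_eq_zero_iff (cen κ σ).primeCompl]
  exact ⟨fun ⟨s, h⟩ => ⟨s, s.2, h⟩, fun ⟨s, h, h'⟩ => ⟨⟨s, h⟩, h'⟩⟩

theorem isUnit_mkG {s : κ ⊗[k] L} (h : ev κ σ s ≠ 0) : IsUnit (mkG κ σ s) :=
  IsLocalization.map_units (M := (cen κ σ).primeCompl) _ ⟨s, h⟩

theorem germ_isUnit {r : Germ κ σ} : IsUnit r ↔ rho κ σ r ≠ 0 := by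
  refine ⟨fun h => (h.map _).ne_zero, fun h => ?_⟩
  obtain ⟨a, s, hs, h1⟩ := germ_surj r
  have h2 : ev κ σ a ≠ 0 := by
    rw [← rho_mkG, ← h1, map_mul, rho_mkG]
    exact mul_ne_zero h hs
  exact isUnit_of_mul_isUnit_left (h1 ▸ isUnit_mkG h2)

theorem mem_max {r : Germ κ σ} : r ∈ IsLocalRing.maximalIdeal (Germ κ σ) ↔ rho κ σ r = 0 := by
  rw [IsLocalRing.mem_maximalIdeal, mem_nonunits_iff, germ_isUnit, not_not]

theorem ker_rho : RingHom.ker (rho κ σ) = IsLocalRing.maximalIdeal (Germ κ σ) :=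
  Ideal.ext fun _ => mem_max.symm

theorem max_eq_map : IsLocalRing.maximalIdeal (Germ κ σ) = (cen κ σ).map (mkG κ σ) :=
  (Localization.AtPrime.map_eq_maximalIdeal (I := cen κ σ)).symm

theorem isUnit_iota {x : L} (hx : x ≠ 0) : IsUnit (iota κ σ x) := (IsUnit.mk0 x hx).map _

theorem rho_surj (h : IntermediateField.adjoin κ (Set.range σ) = ⊤) :
    Function.Surjective (rho κ σ) := by
  intro c
  have hc : c ∈ IntermediateField.adjoin κ (Set.range σ) := h ▸ IntermediateField.mem_top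
  induction hc using IntermediateField.adjoin_induction with
  | mem x hx => obtain ⟨x, rfl⟩ := hx; exact ⟨_, rho_iota x⟩
  | algebraMap c => exact ⟨_, (rho κ σ).commutes c⟩
  | add x y _ _ hx hy =>
    obtain ⟨a, rfl⟩ := hx; obtain ⟨b, rfl⟩ := hy; exact ⟨a + b, map_add _ _ _⟩
  | mul x y _ _ hx hy =>
    obtain ⟨a, rfl⟩ := hx; obtain ⟨b, rfl⟩ := hy; exact ⟨a * b, map_mul _ _ _⟩
  | inv x _ hx =>
    obtain ⟨a, rfl⟩ := hx
    by_cases h0 : rho κ σ a = 0
    · exact ⟨0, by rw [h0, inv_zero, map_zero]⟩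
    · obtain ⟨u, rfl⟩ := germ_isUnit.2 h0
      exact ⟨↑u⁻¹, by rw [map_units_inv]⟩

theorem germ_noeth [Algebra.EssFiniteType k L] : IsNoetherianRing (Germ κ σ) := by
  have : Algebra.EssFiniteType κ (Germ κ σ) :=
    have := Algebra.EssFiniteType.of_isLocalization (Germ κ σ) (cen κ σ).primeCompl
    Algebra.EssFiniteType.comp κ (κ ⊗[k] L) _
  exact Algebra.EssFiniteType.isNoetherianRing κ _

/-- Ring maps out of a germ are determined by `κ` and `L`. -/
theorem germ_ext {T : Type} [CommRing T] {f g : Germ κ σ →+* T}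
    (h1 : ∀ c, f (algebraMap κ _ c) = g (algebraMap κ _ c))
    (h2 : ∀ x, f (iota κ σ x) = g (iota κ σ x)) : f = g := by
  refine IsLocalization.ringHom_ext (cen κ σ).primeCompl (RingHom.ext fun a => ?_)
  change f (mkG κ σ a) = g (mkG κ σ a)
  induction a with
  | zero => simp
  | add a b ha hb => simp only [map_add, ha, hb]
  | tmul c x => simp only [mkG_tmul, map_mul, h1, h2]

/-- Universal property. -/
theorem germ_lift {T : Type} [CommRing T] (f : κ ⊗[k] L →+* T)
    (h : ∀ s, ev κ σ s ≠ 0 → IsUnit (f s)) : ∃ g : Germ κ σ →+* T, ∀ a, g (mkG κ σ a) = f a :=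
  ⟨IsLocalization.lift (M := (cen κ σ).primeCompl) (g := f) fun s => h s s.2,
    fun a => IsLocalization.lift_eq (M := (cen κ σ).primeCompl) _ a⟩

/-- G2: a derivation of `L` extends, killing `κ`. -/
theorem exists_derR (d : Derivation k L L) :
    ∃ D : Derivation κ (Germ κ σ) (Germ κ σ), ∀ x, D (iota κ σ x) = iota κ σ (d x) := by
  obtain ⟨D, hD⟩ := der_loc_self (R := Germ κ σ) (cen κ σ).primeCompl (derR κ d)
  exact ⟨D, fun x => hD _⟩

/-- G2: a derivation of `κ` extends, killing `L`. -/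
theorem exists_derL (d : Derivation k κ κ) :
    ∃ D : Derivation k (Germ κ σ) (Germ κ σ), (∀ c, D (algebraMap κ _ c) = algebraMap κ _ (d c)) ∧
      ∀ x, D (iota κ σ x) = 0 := by
  obtain ⟨D, hD⟩ := der_loc_self (R := Germ κ σ) (cen κ σ).primeCompl (derL L d)
  refine ⟨D, fun c => hD (c ⊗ₜ 1), fun x => (hD (1 ⊗ₜ x)).trans ?_⟩
  rw [derL_tmul, d.map_one_eq_zero, TensorProduct.zero_tmul, map_zero]

/-- G2: an additive Leibniz map killing `κ` and `L` vanishes. -/
theorem leib_zero {R' M : Type} [CommRing R'] [AddCommGroup M] [Module R' M]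
    (φ : Germ κ σ →+* R') (δ : Germ κ σ → M) (ha : ∀ a b, δ (a + b) = δ a + δ b)
    (h : ∀ a b, δ (a * b) = φ a • δ b + φ b • δ a) (h1 : ∀ c, δ (algebraMap κ _ c) = 0)
    (h2 : ∀ x, δ (iota κ σ x) = 0) (r : Germ κ σ) : δ r = 0 := by
  refine leib_loc (cen κ σ).primeCompl φ δ h (fun a => ?_) r
  change δ (mkG κ σ a) = 0
  induction a with
  | zero => simpa using h1 0
  | add a b h3 h4 => rw [map_add, ha, h3, h4, add_zero]
  | tmul c x => rw [mkG_tmul, h, h1, h2, smul_zero, smul_zero, add_zero]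

/-- G2: derivations commute with a ring map as soon as they do on `κ` and `L`. -/
theorem der_comm {R' k1 k2 : Type} [CommRing R'] [CommRing k1] [CommRing k2]
    [Algebra k1 (Germ κ σ)] [Algebra k2 R'] (φ : Germ κ σ →+* R')
    (D : Derivation k1 (Germ κ σ) (Germ κ σ)) (D' : Derivation k2 R' R')
    (h1 : ∀ c, D' (φ (algebraMap κ _ c)) = φ (D (algebraMap κ _ c)))
    (h2 : ∀ x, D' (φ (iota κ σ x)) = φ (D (iota κ σ x))) (r : Germ κ σ) :
    D' (φ r) = φ (D r) := by
  refine sub_eq_zero.1 (leib_zero φ (fun r => D' (φ r) - φ (D r)) (fun a b => ?_) (fun a b => ?_)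
    (fun c => sub_eq_zero.2 (h1 c)) (fun x => sub_eq_zero.2 (h2 x)) r)
  · simp only [map_add]; ring
  · simp only [map_mul, map_add, Derivation.leibniz, smul_eq_mul]; ring

/-! ### G1 -/
section G1
variable {κ' K' : Type} [Field κ'] [Field K'] [Algebra k κ'] [Algebra k K'] [Algebra κ' K']
  [IsScalarTower k κ' K'] {σ' : L →ₐ[k] K'}

variable (L) in
/-- Change of the constants. -/
def bc (j : κ →ₐ[k] κ') : κ ⊗[k] L →ₐ[k] κ' ⊗[k] L := Algebra.TensorProduct.map j (AlgHom.id k L)

theorem bc_tmul (j : κ →ₐ[k] κ') (c : κ) (x : L) : bc L j (c ⊗ₜ x) = j c ⊗ₜ x := rfl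

/-- G1. -/
theorem exists_phi (j : κ →ₐ[k] κ') (h : ∀ a, ev κ σ a ≠ 0 → ev κ' σ' (bc L j a) ≠ 0) :
    ∃ φ : Germ κ σ →+* Germ κ' σ', (∀ c, φ (algebraMap κ _ c) = algebraMap κ' _ (j c)) ∧
      (∀ x, φ (iota κ σ x) = iota κ' σ' x) ∧ ∀ a, φ (mkG κ σ a) = mkG κ' σ' (bc L j a) := by
  obtain ⟨φ, hφ⟩ := germ_lift (σ := σ) ((mkG κ' σ').toRingHom.comp (bc L j).toRingHom)
    fun s hs => isUnit_mkG (h s hs)
  refine ⟨φ, fun c => hφ (c ⊗ₜ 1), fun x => (hφ _).trans ?_, hφ⟩
  change mkG κ' σ' (j 1 ⊗ₜ x) = _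
  rw [map_one, iota_eq]

/-- G1 from a ring map `ψ` of the germ to the new residue field. -/
theorem exists_phi' (j : κ →ₐ[k] κ') (ψ : Germ κ σ →+* K')
    (h1 : ∀ c, ψ (algebraMap κ _ c) = algebraMap κ' K' (j c)) (h2 : ∀ x, ψ (iota κ σ x) = σ' x) :
    ∃ φ : Germ κ σ →+* Germ κ' σ', (∀ c, φ (algebraMap κ _ c) = algebraMap κ' _ (j c)) ∧
      (∀ x, φ (iota κ σ x) = iota κ' σ' x) ∧ (∀ a, φ (mkG κ σ a) = mkG κ' σ' (bc L j a)) ∧
      ∀ r, rho κ' σ' (φ r) = ψ r := by
  have key : ∀ a, ev κ' σ' (bc L j a) = ψ (mkG κ σ a) := fun a => by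
    induction a with
    | zero => simp
    | add a b ha hb => simp only [map_add, ha, hb]
    | tmul c x => rw [bc_tmul, ev_tmul, mkG_tmul, map_mul, h1, h2]
  obtain ⟨φ, p1, p2, p3⟩ := exists_phi (σ := σ) (σ' := σ') j fun a ha => by
    rw [key]; exact ((isUnit_mkG ha).map ψ).ne_zero
  refine ⟨φ, p1, p2, p3, fun r => ?_⟩
  refine RingHom.congr_fun (germ_ext (f := (rho κ' σ').toRingHom.comp φ) (g := ψ) (fun c => ?_)
    fun x => ?_) r
  · change rho κ' σ' (φ _) = _
    rw [p1, h1, AlgHom.commutes]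
  · change rho κ' σ' (φ _) = _
    rw [p2, h2, rho_iota]

end G1

/-! ### G3 -/

variable (κ σ) in
/-- The `κ`-span of the right copy of a linear system. -/
def spn (W : Submodule k L) : Submodule κ (Germ κ σ) := Submodule.span κ (iota κ σ '' W)

theorem iota_mem {W : Submodule k L} {x : L} (hx : x ∈ W) : iota κ σ x ∈ spn κ σ W :=
  Submodule.subset_span ⟨x, hx, rfl⟩

theorem spn_mono {W W' : Submodule k L} (h : W ≤ W') : spn κ σ W ≤ spn κ σ W' :=
  Submodule.span_mono (Set.image_mono h)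

theorem spn_mul {W W' W'' : Submodule k L} (h : W * W' ≤ W'') :
    spn κ σ W * spn κ σ W' ≤ spn κ σ W'' := by
  rw [spn, spn, Submodule.span_mul_span, Submodule.span_le]
  rintro _ ⟨_, ⟨x, hx, rfl⟩, _, ⟨y, hy, rfl⟩, rfl⟩
  exact Submodule.subset_span ⟨x * y, h (Submodule.mul_mem_mul hx hy), map_mul _ _ _⟩

theorem one_mem_spn {W : Submodule k L} (h : (1 : L) ∈ W) : (1 : Germ κ σ) ∈ spn κ σ W := by
  simpa using iota_mem (κ := κ) (σ := σ) h

theorem spn_fd (W : Submodule k L) [FiniteDimensional k W] : FiniteDimensional κ (spn κ σ W) := by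
  obtain ⟨s, hs, rfl⟩ := Submodule.fg_def.1 ((Module.Finite.iff_fg (N := W)).1 inferInstance)
  have : spn κ σ (Submodule.span k s) = Submodule.span κ (iota κ σ '' s) := by
    refine le_antisymm (Submodule.span_le.2 ?_)
      (Submodule.span_mono (Set.image_mono Submodule.subset_span))
    rintro _ ⟨x, hx, rfl⟩
    induction hx using Submodule.span_induction with
    | mem x hx => exact Submodule.subset_span ⟨x, hx, rfl⟩
    | zero => simp
    | add x y _ _ hx hy => rw [map_add]; exact add_mem hx hy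
    | smul c x _ hx => rw [map_smul]; exact Submodule.smul_of_tower_mem _ c hx
  rw [this]
  exact FiniteDimensional.span_of_finite κ (hs.image _)

/-- A map of germs respects the spans. -/
theorem map_spn {κ' K' : Type} [Field κ'] [Field K'] [Algebra k κ'] [Algebra k K'] [Algebra κ' K']
    [IsScalarTower k κ' K'] {σ' : L →ₐ[k] K'} (j : κ → κ') (φ : Germ κ σ →+* Germ κ' σ')
    (h1 : ∀ c, φ (algebraMap κ _ c) = algebraMap κ' _ (j c))
    (h2 : ∀ x, φ (iota κ σ x) = iota κ' σ' x) {W : Submodule k L} {r : Germ κ σ}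
    (hr : r ∈ spn κ σ W) : φ r ∈ spn κ' σ' W := by
  induction hr using Submodule.span_induction with
  | mem x hx => obtain ⟨x, hx, rfl⟩ := hx; rw [h2]; exact iota_mem hx
  | zero => simp
  | add x y _ _ hx hy => rw [map_add]; exact add_mem hx hy
  | smul c x _ hx =>
    rw [Algebra.smul_def, map_mul, h1, ← Algebra.smul_def]
    exact Submodule.smul_mem _ _ hx

/-- A derivation which kills `L` and preserves `κ` preserves the spans. -/
theorem der_spn {k1 : Type} [CommRing k1] [Algebra k1 (Germ κ σ)]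
    (D : Derivation k1 (Germ κ σ) (Germ κ σ)) (d : κ → κ)
    (h1 : ∀ c, D (algebraMap κ _ c) = algebraMap κ _ (d c)) (h2 : ∀ x, D (iota κ σ x) = 0)
    {W : Submodule k L} {r : Germ κ σ} (hr : r ∈ spn κ σ W) : D r ∈ spn κ σ W := by
  induction hr using Submodule.span_induction with
  | mem x hx => obtain ⟨x, hx, rfl⟩ := hx; rw [h2]; exact zero_mem _
  | zero => simp
  | add x y _ _ hx hy => rw [map_add]; exact add_mem hx hy
  | smul c x hx0 hx =>
    rw [Algebra.smul_def, D.leibniz, h1, smul_eq_mul, smul_eq_mul, mul_comm x, ← Algebra.smul_def,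
      ← Algebra.smul_def]
    exact add_mem (Submodule.smul_mem _ _ hx) (Submodule.smul_mem _ _ hx0)

/-- G3: every element is a unit times an element of some `S e`. -/
theorem exists_unit_spn (W : ℕ → Submodule k L) (hm : ∀ i j, W i * W j ≤ W (i + j))
    (h1 : (1 : L) ∈ W 1) (h0 : (1 : L) ∈ W 0)
    (hg : IntermediateField.adjoin k (W 1 : Set L) = ⊤) (r : Germ κ σ) :
    ∃ e, ∃ u : Germ κ σ, IsUnit u ∧ u * r ∈ spn κ σ (W e) := by
  have mono1 : ∀ i, W i ≤ W (i + 1) := fun i x hx => by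
    simpa using hm i 1 (Submodule.mul_mem_mul hx h1)
  have mono : Monotone W := monotone_nat_of_le_succ mono1
  have hA : ∀ x ∈ Algebra.adjoin k (W 1 : Set L), ∃ e, x ∈ W e := fun x hx => by
    induction hx using Algebra.adjoin_induction with
    | mem x hx => exact ⟨1, hx⟩
    | algebraMap c => exact ⟨0, by rw [Algebra.algebraMap_eq_smul_one]; exact (W 0).smul_mem _ h0⟩
    | add x y _ _ hx hy =>
      obtain ⟨i, hi⟩ := hx; obtain ⟨j, hj⟩ := hy
      exact ⟨i + j, add_mem (mono (Nat.le_add_right _ _) hi) (mono (Nat.le_add_left _ _) hj)⟩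
    | mul x y _ _ hx hy =>
      obtain ⟨i, hi⟩ := hx; obtain ⟨j, hj⟩ := hy
      exact ⟨i + j, hm i j (Submodule.mul_mem_mul hi hj)⟩
  have hT : ∀ a : κ ⊗[k] L, ∃ e, ∃ b ∈ W e, b ≠ 0 ∧
      iota κ σ b * mkG κ σ a ∈ spn κ σ (W e) := fun a => by
    induction a with
    | zero => exact ⟨0, 1, h0, one_ne_zero, by simp⟩
    | add a a' h h' =>
      obtain ⟨i, b, hb, hb0, h⟩ := h; obtain ⟨j, b', hb', hb0', h'⟩ := h'
      refine ⟨i + j, b * b', hm i j (Submodule.mul_mem_mul hb hb'), mul_ne_zero hb0 hb0', ?_⟩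
      have : iota κ σ (b * b') * mkG κ σ (a + a') = iota κ σ b * mkG κ σ a * iota κ σ b' +
          iota κ σ b * (iota κ σ b' * mkG κ σ a') := by rw [map_mul, map_add]; ring
      rw [this]
      exact add_mem (spn_mul (hm i j) (Submodule.mul_mem_mul h (iota_mem hb')))
        (spn_mul (hm i j) (Submodule.mul_mem_mul (iota_mem hb) h'))
    | tmul c x =>
      have hx : x ∈ IntermediateField.adjoin k (W 1 : Set L) := hg ▸ IntermediateField.mem_top
      obtain ⟨a, ha, b, hb, rfl⟩ := IntermediateField.mem_adjoin_iff_div.1 hx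
      by_cases hb0 : b = 0
      · exact ⟨0, 1, h0, one_ne_zero, by simp [hb0]⟩
      obtain ⟨i, hi⟩ := hA a ha; obtain ⟨j, hj⟩ := hA b hb
      refine ⟨i + j, b, mono (Nat.le_add_left _ _) hj, hb0, ?_⟩
      rw [mkG_tmul, mul_left_comm, ← map_mul, mul_div_cancel₀ _ hb0, ← Algebra.smul_def]
      exact Submodule.smul_mem _ _ (iota_mem (mono (Nat.le_add_right _ _) hi))
  obtain ⟨a, s, hs, h⟩ := germ_surj r
  obtain ⟨e, b, _, hb0, hb⟩ := hT a
  refine ⟨e, iota κ σ b * mkG κ σ s, (isUnit_iota hb0).mul (isUnit_mkG hs), ?_⟩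
  rwa [mul_assoc, mul_comm _ r, h]

end germ

end Pool.Agent.Lib.A35.G
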