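import Pool.Agent.Lib.A35.Blow
import Pool.Agent.Lib.A35.Det
import Pool.Agent.Lib.A35.Germ
import Pool.Agent.Lib.UR.M_NORM
import Pool.Agent.Lib.UR.Defs
import Pool.Agent.Lib.MP_99f32e_ag.Smooth

/-! Local rings of a smooth model: normality, coordinates, dual derivations, charts at a place. -/

open Module Set KaehlerDifferential

set_option linter.unusedSectionVars false
set_option linter.unusedVariables false

noncomputable section

namespace Pool.Agent.Lib.A35.Ct

open Pool.Agent.Lib.MP_7fcda1_ag Pool.Agent.Lib.UR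

section loc
variable {k L : Type} [Field k] [Field L] [Algebra k L] (B : Subalgebra k L) (Q : Ideal B)
  [hQ : Q.IsPrime]

/-- The local ring of `B` at `Q`. -/
def OQ : Subalgebra k L where
  carrier := {x | ∃ b : B, b ∉ Q ∧ (b : L) * x ∈ B}
  mul_mem' := by
    rintro x y ⟨b, hb, h⟩ ⟨b', hb', h'⟩
    refine ⟨b * b', hQ.mul_notMem hb hb', ?_⟩
    rw [MulMemClass.coe_mul, mul_mul_mul_comm]
    exact mul_mem h h'
  add_mem' := by
    rintro x y ⟨b, hb, h⟩ ⟨b', hb', h'⟩
    refine ⟨b * b', hQ.mul_notMem hb hb', ?_⟩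
    rw [MulMemClass.coe_mul, show (b : L) * b' * (x + y) = b * x * b' + b' * y * b by ring]
    exact add_mem (mul_mem h b'.2) (mul_mem h' b.2)
  algebraMap_mem' c := ⟨1, (Ideal.ne_top_iff_one Q).1 hQ.ne_top, by simp⟩

theorem mem_OQ {x : L} : x ∈ OQ B Q ↔ ∃ b : B, b ∉ Q ∧ (b : L) * x ∈ B := Iff.rfl

theorem le_OQ : B ≤ OQ B Q := fun x hx => ⟨1, (Ideal.ne_top_iff_one Q).1 hQ.ne_top, by simpa⟩

variable {B Q}

theorem ne_zero_of {b : B} (hb : b ∉ Q) : (b : L) ≠ 0 := fun h =>
  hb (by rw [show b = 0 from Subtype.ext h]; exact Q.zero_mem)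

theorem inv_mem_OQ {b : B} (hb : b ∉ Q) : (b : L)⁻¹ ∈ OQ B Q :=
  ⟨b, hb, by rw [mul_inv_cancel₀ (ne_zero_of hb)]; exact one_mem _⟩

variable (B Q)

/-- The algebra structure. -/
abbrev algOQ : Algebra B (OQ B Q) := (Subalgebra.inclusion (le_OQ B Q)).toRingHom.toAlgebra

attribute [local instance] algOQ

theorem towOQ : IsScalarTower k B (OQ B Q) := .of_algebraMap_eq fun _ => rfl

theorem towOQ' : IsScalarTower B (OQ B Q) L := .of_algebraMap_eq fun _ => rfl

theorem locOQ : IsLocalization.AtPrime (OQ B Q) Q where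
  map_units s := IsUnit.of_mul_eq_one ⟨_, inv_mem_OQ s.2⟩
    (Subtype.ext (mul_inv_cancel₀ (ne_zero_of (b := s.1) s.2)))
  surj x := by
    obtain ⟨b, hb, h⟩ := x.2
    exact ⟨⟨⟨_, h⟩, ⟨b, hb⟩⟩, Subtype.ext (mul_comm _ _)⟩
  exists_of_eq {a b} h := ⟨1, by
    rw [show a = b from Subtype.ext (congrArg (fun z : OQ B Q => (z : L)) h)]⟩

theorem localOQ : IsLocalRing (OQ B Q) :=
  have := locOQ B Q
  IsLocalization.AtPrime.isLocalRing (OQ B Q) Q

theorem fracOQ [IsFractionRing B L] : IsFractionRing (OQ B Q) L :=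
  have := locOQ B Q
  have := towOQ' B Q
  IsFractionRing.isFractionRing_of_isDomain_of_isLocalization Q.primeCompl (OQ B Q) L

/-- Normality. -/
theorem mem_of_val [IsFractionRing B L] [Algebra.Smooth k B] {x : L}
    (h : ∀ O : ValuationSubring L, (∀ a ∈ OQ B Q, a ∈ O) → x ∈ O) : x ∈ OQ B Q := by
  have := locOQ B Q
  have := fracOQ B Q
  have := MP_99f32e_ag.isIntegrallyClosed_of_smooth k B
  have : IsIntegrallyClosed (OQ B Q) := isIntegrallyClosed_of_isLocalization (OQ B Q) Q.primeCompl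
    Q.primeCompl_le_nonZeroDivisors
  have h1 : x ∈ (integralClosure (Subring.closure (OQ B Q : Set L)) L).toSubring := by
    rw [← iInf_valuationSubring_superset, Subring.mem_iInf]
    exact fun V => h V.1 fun c hc => V.2 hc
  rw [show Subring.closure (OQ B Q : Set L) = (OQ B Q).toSubring from
    Subring.closure_eq (OQ B Q).toSubring] at h1
  obtain ⟨y, rfl⟩ := (IsIntegrallyClosed.isIntegral_iff (R := OQ B Q) (K := L)).1 h1
  exact y.2

variable {B Q} {ι : Type} {w : ι → L}

theorem w_mem (hB : B = Algebra.adjoin k (range w)) (j : ι) : w j ∈ OQ B Q :=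
  le_OQ B Q (hB ▸ Algebra.subset_adjoin ⟨j, rfl⟩)

theorem span_D (hB : B = Algebra.adjoin k (range w)) : Submodule.span (OQ B Q)
    (range fun j => D k (OQ B Q) ⟨w j, w_mem hB j⟩) = ⊤ := by
  set N := Submodule.span (OQ B Q) (range fun j => D k (OQ B Q) ⟨w j, w_mem hB j⟩)
  have h1 : ∀ a (ha : a ∈ Algebra.adjoin k (range w)),
      D k (OQ B Q) ⟨a, le_OQ B Q (hB ▸ ha)⟩ ∈ N := fun a ha => by
    induction ha using Algebra.adjoin_induction with
    | mem x hx =>
      obtain ⟨j, rfl⟩ := hx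
      exact Submodule.subset_span ⟨j, rfl⟩
    | algebraMap c =>
      rw [show (⟨algebraMap k L c, _⟩ : OQ B Q) = algebraMap k (OQ B Q) c from rfl,
        Derivation.map_algebraMap]
      exact N.zero_mem
    | add x y hx hy h h' =>
      rw [show (⟨x + y, _⟩ : OQ B Q) = ⟨x, le_OQ B Q (hB ▸ hx)⟩ + ⟨y, le_OQ B Q (hB ▸ hy)⟩ from rfl,
        map_add]
      exact N.add_mem h h'
    | mul x y hx hy h h' =>
      rw [show (⟨x * y, _⟩ : OQ B Q) = ⟨x, le_OQ B Q (hB ▸ hx)⟩ * ⟨y, le_OQ B Q (hB ▸ hy)⟩ from rfl,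
        Derivation.leibniz]
      exact N.add_mem (N.smul_mem _ h') (N.smul_mem _ h)
  rw [eq_top_iff, ← span_range_derivation, Submodule.span_le]
  rintro _ ⟨x, rfl⟩
  obtain ⟨b, hb, h⟩ := x.2
  let b' : OQ B Q := ⟨b, le_OQ B Q b.2⟩
  let c : OQ B Q := ⟨_, inv_mem_OQ hb⟩
  have h2 : c * b' = 1 := Subtype.ext (inv_mul_cancel₀ (ne_zero_of hb))
  have h3 : D k (OQ B Q) (b' * x) ∈ N := h1 _ (hB ▸ h)
  have h4 : D k (OQ B Q) b' ∈ N := h1 _ (hB ▸ b.2)
  have h5 : D k (OQ B Q) x = c • (D k (OQ B Q) (b' * x) - x • D k (OQ B Q) b') := by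
    rw [Derivation.leibniz, add_sub_cancel_right, smul_smul, h2, one_smul]
  exact h5 ▸ N.smul_mem _ (N.sub_mem h3 (N.smul_mem _ h4))

variable (B Q) in
/-- `u` is a system of coordinates at `Q` with dual derivations `δ`. -/
structure Coord {τ : Type} [DecidableEq τ] (u : τ → L) (δ : τ → Derivation k L L) : Prop where
  mem : ∀ c, u c ∈ OQ B Q
  dual : ∀ a c, δ a (u c) = if a = c then 1 else 0
  pres : ∀ a, ∀ z ∈ OQ B Q, δ a z ∈ OQ B Q
  uniq : ∀ (T : Type) [CommRing T] (ψ : OQ B Q →+* T) (E : OQ B Q →+ T),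
    (∀ a b, E (a * b) = ψ a * E b + ψ b * E a) → (∀ c : k, E (algebraMap k _ c) = 0) →
    (∀ c, E ⟨u c, mem c⟩ = 0) → ∀ a, E a = 0

theorem exists_coord0 [Finite ι] [IsFractionRing B L] [Algebra.Smooth k B]
    (hB : B = Algebra.adjoin k (range w)) : ∃ (τ : Type) (_ : Fintype τ) (_ : DecidableEq τ)
      (S : τ → ι) (δ : τ → Derivation k L L), Coord B Q (fun c => w (S c)) δ := by
  classical
  have := locOQ B Q
  have := fracOQ B Q
  have := towOQ B Q
  have := localOQ B Q
  have : Algebra.FormallySmooth B (OQ B Q) := .of_isLocalization Q.primeCompl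
  have : Algebra.FormallySmooth k (OQ B Q) := .comp k B (OQ B Q)
  have hs := span_D (Q := Q) hB
  have : Module.Finite (OQ B Q) Ω[OQ B Q⁄k] := ⟨hs ▸ Submodule.fg_span (finite_range _)⟩
  have : Module.FinitePresentation (OQ B Q) Ω[OQ B Q⁄k] :=
    Module.finitePresentation_of_projective _ _
  obtain ⟨τ, S, b, hb⟩ := Module.exists_basis_of_span_of_flat _ hs
  have : Finite τ := Module.Finite.finite_basis b
  choose δ hδ using fun c => G.der_loc_self (k := k) (R := L) (nonZeroDivisors (OQ B Q))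
    ((b.coord c).compDer (D k (OQ B Q)))
  refine ⟨τ, Fintype.ofFinite τ, inferInstance, S, δ, fun c => w_mem hB _, fun a c => ?_,
    fun a z hz => ?_, fun T _ ψ E h1 h2 h3 a => ?_⟩
  · have h := hδ a ⟨_, w_mem hB (S c)⟩
    change δ a (w (S c)) = (b.coord a (D k (OQ B Q) ⟨_, _⟩) : OQ B Q) at h
    rw [h, ← hb]
    by_cases hac : a = c <;> simp [hac]
  · have h := hδ a ⟨z, hz⟩
    change δ a z = _ at h
    rw [h]
    exact Subtype.prop _
  · let : Algebra (OQ B Q) T := ψ.toAlgebra
    let : Algebra k T := (ψ.comp (algebraMap k (OQ B Q))).toAlgebra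
    have : IsScalarTower k (OQ B Q) T := .of_algebraMap_eq fun _ => rfl
    let E' : Derivation k (OQ B Q) T := Derivation.mk'
      { toFun := E
        map_add' := E.map_add
        map_smul' := fun c x => by
          rw [Algebra.smul_def, h1, h2, mul_zero, add_zero]
          rfl }
      fun x y => h1 x y
    have h4 : E'.liftKaehlerDifferential = 0 := b.ext fun c => by
      rw [hb, Derivation.liftKaehlerDifferential_comp_D]
      exact h3 c
    have h5 := Derivation.liftKaehlerDifferential_comp_D E' a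
    rw [h4] at h5
    exact h5.symm

theorem der_sum' {τ : Type} (s : Finset τ) (E : τ → Derivation k L L) (r : L) :
    (∑ b ∈ s, E b) r = ∑ b ∈ s, E b r := by
  classical
  induction s using Finset.induction_on with
  | empty => simp
  | insert a s ha ih => simp [Finset.sum_insert ha, ih]

theorem Coord.eq_zero [IsFractionRing B L] {τ : Type} [DecidableEq τ] {u : τ → L}
    {δ : τ → Derivation k L L} (h : Coord B Q u δ) (E : Derivation k L L) (hE : ∀ c, E (u c) = 0)
    (z : L) : E z = 0 := by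
  have h1 := h.uniq L (OQ B Q).val.toRingHom
    ((E : L →ₗ[k] L).toAddMonoidHom.comp (OQ B Q).val.toRingHom.toAddMonoidHom)
    (fun a b => E.leibniz a b) (fun c => E.map_algebraMap c) hE
  obtain ⟨a, b, -, rfl⟩ := IsFractionRing.div_surjective (A := B) z
  have ha : E (algebraMap B L a) = 0 := h1 ⟨a, le_OQ B Q a.2⟩
  have hb : E (algebraMap B L b) = 0 := h1 ⟨b, le_OQ B Q b.2⟩
  rw [Derivation.leibniz_div, ha, hb]
  simp

theorem Coord.expand [IsFractionRing B L] {τ : Type} [Fintype τ] [DecidableEq τ] {u : τ → L}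
    {δ : τ → Derivation k L L} (h : Coord B Q u δ) (E : Derivation k L L) (z : L) :
    E z = ∑ c, E (u c) * δ c z := by
  have := h.eq_zero (E - ∑ c, E (u c) • δ c) (fun c => by
    simp [der_sum', h.dual]) z
  simpa [der_sum', sub_eq_zero] using this

variable [CharZero k] {n : ℕ} {x : Fin n → L} {d : Fin n → Derivation k L L}

theorem expand_tb (hx : IsTranscendenceBasis k x)
    (hd : ∀ a b, d a (x b) = if a = b then 1 else 0) (E : Derivation k L L) :
    E = ∑ b, E (x b) • d b := by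
  have : CharZero L := charZero_of_injective_algebraMap (algebraMap k L).injective
  have := hx.isAlgebraic
  refine sub_eq_zero.1 (T.der_eq_zero_of_isAlgebraic _ (range x) ?_)
  rintro _ ⟨b, rfl⟩
  simp [der_sum', hd]

/-- Coordinates can be chosen among the generators. -/
theorem exists_coord [Finite ι] [IsFractionRing B L] [Algebra.Smooth k B]
    (hB : B = Algebra.adjoin k (range w)) (hx : IsTranscendenceBasis k x)
    (hd : ∀ a b, d a (x b) = if a = b then 1 else 0) :
    ∃ (S : Fin n → ι) (δ : Fin n → Derivation k L L), Coord B Q (fun c => w (S c)) δ := by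
  obtain ⟨τ, _, _, S, δ, h⟩ := exists_coord0 (Q := Q) hB
  have h1 : Fintype.card τ = Fintype.card (Fin n) := by
    refine Matrix.square_of_invertible (Matrix.of fun a b => δ a (x b))
      (Matrix.of fun b c => d b (w (S c))) ?_ ?_
    · ext a c
      have := congrArg (fun E : Derivation k L L => E (w (S c))) (expand_tb hx hd (δ a))
      simp only [der_sum', Derivation.smul_apply, smul_eq_mul, h.dual] at this
      simp [Matrix.mul_apply, Matrix.one_apply, ← this]
    · ext b b'
      have := h.expand (d b) (x b')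
      simp [Matrix.mul_apply, Matrix.one_apply, ← this, hd]
  let e : Fin n ≃ τ := (Fintype.equivOfCardEq h1).symm
  refine ⟨fun c => S (e c), fun c => δ (e c), fun c => h.mem _, fun a c => by simp [h.dual],
    fun a => h.pres _, fun T _ ψ E h2 h3 h4 => h.uniq T ψ E h2 h3 fun c => ?_⟩
  obtain ⟨c, rfl⟩ := e.surjective c
  exact h4 c

theorem Coord.det_mul [IsFractionRing B L] {u : Fin n → L} {δ : Fin n → Derivation k L L}
    (h : Coord B Q u δ) (hx : IsTranscendenceBasis k x)
    (hd : ∀ a b, d a (x b) = if a = b then 1 else 0) :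
    (Matrix.of fun a b => δ a (x b)).det * (Matrix.of fun b c => d b (u c)).det = 1 := by
  rw [← Matrix.det_mul, ← Matrix.det_one (n := Fin n)]
  congr 1
  ext a c
  have := congrArg (fun E : Derivation k L L => E (u c)) (expand_tb hx hd (δ a))
  simp only [der_sum', Derivation.smul_apply, smul_eq_mul, h.dual] at this
  simp [Matrix.mul_apply, Matrix.one_apply, ← this]

end loc

section cen
variable {k L : Type} [Field k] [Field L] [Algebra k L] (B : Subalgebra k L)
  (O : ValuationSubring L) (h : ∀ b ∈ B, b ∈ O)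

/-- The centre of a valuation ring. -/
def cen : Ideal B := (IsLocalRing.maximalIdeal O).comap
  ((B.val : B →+* L).codRestrict O.toSubring fun b => h b b.2)

instance : (cen B O h).IsPrime := Ideal.comap_isPrime _ _

theorem notMem_cen {b : B} : b ∉ cen B O h ↔ O.valuation (b : L) = 1 := by
  have h1 : b ∈ cen B O h ↔ O.valuation (b : L) < 1 := O.valuation_lt_one_iff ⟨b, h b b.2⟩
  rw [h1, not_lt]
  exact ⟨fun e => le_antisymm ((O.valuation_le_one_iff _).2 (h b b.2)) e, fun e => e.ge⟩

theorem OQ_le : ∀ z ∈ OQ B (cen B O h), z ∈ O := by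
  rintro z ⟨b, hb, hz⟩
  have h1 := (O.valuation_le_one_iff _).2 (h _ hz)
  rwa [map_mul, (notMem_cen B O h).1 hb, one_mul, O.valuation_le_one_iff] at h1

end cen

section gauss
variable {L ι : Type} [Field L] [Algebra ℂ L] {n : ℕ} {y : ι → L} {i : ι}

theorem chart_le {O : ValuationSubring L} (hO : ∀ c : ℂ, algebraMap ℂ L c ∈ O)
    (hi : ∀ j, y j / y i ∈ O) : ∀ b ∈ GD.chart y i, b ∈ O := fun b hb => by
  induction hb using Algebra.adjoin_induction with
  | mem x hx =>
    obtain ⟨j, rfl⟩ := hx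
    exact hi j
  | algebraMap c => exact hO c
  | add x y _ _ hx hy => exact add_mem hx hy
  | mul x y _ _ hx hy => exact mul_mem hx hy

theorem gauss_change (d δ : Fin n → Derivation ℂ L L) (J : Matrix (Fin n) (Fin n) L) (w : ι → L)
    (h : ∀ a j, d a (w j) = ∑ c, J a c * δ c (w j)) (S : Fin (n + 1) → ι) :
    gaussT d w S = J.det * gaussT δ w S := by
  let A : Matrix (Fin (n + 1)) (Fin (n + 1)) L :=
    Matrix.of (Fin.cons (Fin.cons 1 fun _ => 0) fun a => Fin.cons 0 fun b => J a b)
  have hA : A.det = J.det := by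
    rw [Matrix.det_succ_row_zero, Fin.sum_univ_succ]
    have h1 : A.submatrix Fin.succ (Fin.succAbove 0) = J := by
      ext a b
      simp [A]
    rw [h1]
    simp [A]
  have h1 := congrFun (pl_mul A (Fin.cons w fun a j => δ a (w j) : Fin (n + 1) → ι → L)) S
  rw [hA, Pi.smul_apply, smul_eq_mul] at h1
  refine Eq.trans (congrFun (congrArg pl (funext fun s => funext fun j => ?_)) S) h1
  refine Fin.cases ?_ (fun a => ?_) s
  · simp [A, Fin.sum_univ_succ]
  · simp [A, Fin.sum_univ_succ, Finset.sum_apply, h]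

variable {Q : Ideal (GD.chart y i)} [Q.IsPrime] {S : Fin n → ι} {δ : Fin n → Derivation ℂ L L}

theorem Coord.gauss_one (h : Coord (GD.chart y i) Q (fun c => y (S c) / y i) δ) (hi : y i ≠ 0) :
    gaussT δ (fun j => y j / y i) (Fin.cons i S) = 1 := by
  unfold gaussT pl
  rw [Matrix.det_succ_column_zero, Fin.sum_univ_succ]
  have h1 : (Matrix.of fun s t => (Fin.cons (fun j => y j / y i) fun a j => δ a (y j / y i) :
      Fin (n + 1) → ι → L) s ((Fin.cons i S : Fin (n + 1) → ι) t)).submatrix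
      (Fin.succAbove 0) Fin.succ = 1 := by
    ext a b
    simpa [Matrix.one_apply] using h.dual a b
  rw [h1]
  simp [hi]

theorem Coord.gauss_mem (h : Coord (GD.chart y i) Q (fun c => y (S c) / y i) δ)
    (S' : Fin (n + 1) → ι) : gaussT δ (fun j => y j / y i) S' ∈ OQ (GD.chart y i) Q := by
  unfold gaussT pl
  rw [Matrix.det_apply']
  refine sum_mem fun s _ => mul_mem (intCast_mem _ _) (prod_mem fun t _ => ?_)
  have h1 := w_mem (Q := Q) (w := fun j => y j / y i) rfl (S' t)
  rw [Matrix.of_apply]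
  exact Fin.cases h1 (fun a => h.pres a _ h1) (s t)

/-- The Gauss map in the coordinates. -/
theorem Coord.gauss_eq [IsFractionRing (GD.chart y i) L]
    (h : Coord (GD.chart y i) Q (fun c => y (S c) / y i) δ) (hi : y i ≠ 0)
    (d : Fin n → Derivation ℂ L L) (S' : Fin (n + 1) → ι) :
    gaussT d y S' = y i ^ (n + 1) * (Matrix.of fun b c => d b (y (S c) / y i)).det *
      gaussT δ (fun j => y j / y i) S' := by
  have h1 := M.NORM.gauss_mul d (fun j => y j / y i) (y i) S'
  simp only [mul_div_cancel₀ _ hi] at h1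
  rw [h1, gauss_change d δ (Matrix.of fun b c => d b (y (S c) / y i)) _
    (fun a j => h.expand (d a) _), mul_assoc]

variable {x : Fin n → L} {d : Fin n → Derivation ℂ L L}

/-- The dominant coordinate of the Gauss map and the determinant of the dual derivations. -/
theorem Coord.gauss [IsFractionRing (GD.chart y i) L]
    (h : Coord (GD.chart y i) Q (fun c => y (S c) / y i) δ) (hi : y i ≠ 0)
    (hx : IsTranscendenceBasis ℂ x) (hd : ∀ a b, d a (x b) = if a = b then 1 else 0) :
    (Matrix.of fun a b => δ a (x b)).det * gaussT d y (Fin.cons i S) = y i ^ (n + 1) ∧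
      gaussT d y (Fin.cons i S) ≠ 0 ∧
      ∀ S', gaussT d y S' / gaussT d y (Fin.cons i S) ∈ OQ (GD.chart y i) Q := by
  have h1 := h.gauss_eq hi d (Fin.cons i S)
  rw [h.gauss_one hi, mul_one] at h1
  have h2 : (Matrix.of fun a b => δ a (x b)).det * gaussT d y (Fin.cons i S) = y i ^ (n + 1) := by
    rw [h1, mul_left_comm, h.det_mul hx hd, mul_one]
  have h3 : gaussT d y (Fin.cons i S) ≠ 0 := fun e => pow_ne_zero _ hi (by rw [← h2, e, mul_zero])
  refine ⟨h2, h3, fun S' => ?_⟩
  rw [h.gauss_eq hi d S', ← h1, mul_div_cancel_left₀ _ h3]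
  exact h.gauss_mem S'

variable {τ : Type} {p : τ → L}

theorem le_ball {O : ValuationSubring L} (hO : ∀ c : ℂ, algebraMap ℂ L c ∈ O) {s : τ}
    (h0 : p s ≠ 0) (h : ∀ s', p s' / p s ∈ O) :
    Submodule.span ℂ (range p) ≤ ball O hO (O.valuation (p s)) := by
  refine Submodule.span_le.2 ?_
  rintro _ ⟨s', rfl⟩
  have := (O.valuation_le_one_iff _).2 (h s')
  rwa [map_div₀, div_le_one₀ ((Valuation.pos_iff _).2 h0)] at this

/-- A local generator of a free linear system. -/
theorem free_mem (hs : GD.SmoothModel y) {s : τ} (h0 : p s ≠ 0)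
    (h : ∀ s', p s' / p s ∈ OQ (GD.chart y i) Q) {U : Submodule ℂ L} {γ : L} (hγ : γ ≠ 0)
    {a b c : ℕ} (hU : Submodule.span ℂ {γ} * U * Submodule.span ℂ (range y) ^ c ≤
      cl (Submodule.span ℂ (range p) ^ a * Submodule.span ℂ (range y) ^ b)) (j : ℕ) {z : L}
    (hz : z ∈ cl (U ^ j)) : z / (p s ^ a * y i ^ b / (γ * y i ^ c)) ^ j ∈ OQ (GD.chart y i) Q := by
  obtain ⟨hi, hf, hsm⟩ := hs i
  refine mem_of_val _ _ fun O hO => ?_
  have hc : ∀ c : ℂ, algebraMap ℂ L c ∈ O := fun c => hO _ (Subalgebra.algebraMap_mem _ c)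
  have h1 := le_ball hc h0 fun s' => hO _ (h s')
  have h2 := le_ball hc hi fun j => hO _ (w_mem (Q := Q) (w := fun j => y j / y i) rfl j)
  have h3 := cl_le_ball (ball_mul (ball_pow h1 a) (ball_pow h2 b))
  have hg : γ * y i ^ c ≠ 0 := mul_ne_zero hγ (pow_ne_zero _ hi)
  have h4 : U ≤ ball O hc (O.valuation (p s ^ a * y i ^ b / (γ * y i ^ c))) := fun u hu => by
    have h5 := h3 (hU (Submodule.mul_mem_mul (Submodule.mul_mem_mul
      (Submodule.mem_span_singleton_self γ) hu)
      (Submodule.pow_mem_pow _ (Submodule.subset_span (mem_range_self i)) c)))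
    rw [mem_ball, ← map_pow, ← map_pow, ← map_mul] at h5
    rw [mem_ball, map_div₀, le_div_iff₀ ((Valuation.pos_iff _).2 hg), ← map_mul]
    rwa [show u * (γ * y i ^ c) = γ * u * y i ^ c by ring]
  have h5 := cl_le_ball (ball_pow h4 j) hz
  have h6 : (p s ^ a * y i ^ b / (γ * y i ^ c)) ^ j ≠ 0 :=
    pow_ne_zero _ (div_ne_zero (mul_ne_zero (pow_ne_zero _ h0) (pow_ne_zero _ hi)) hg)
  rw [mem_ball, ← map_pow] at h5
  rwa [← O.valuation_le_one_iff, map_div₀, div_le_one₀ ((Valuation.pos_iff _).2 h6)]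

/-- The local generator has the value of the system. -/
theorem free_le {O : ValuationSubring L} (hO : ∀ c : ℂ, algebraMap ℂ L c ∈ O) (hi : y i ≠ 0)
    (hy : ∀ j, y j / y i ∈ O) (s : τ) {U : Submodule ℂ L} {γ : L} (hγ : γ ≠ 0) {a b c : ℕ}
    (hU : Submodule.span ℂ (range p) ^ a * Submodule.span ℂ (range y) ^ b ≤
      cl (Submodule.span ℂ {γ} * U * Submodule.span ℂ (range y) ^ c)) :
    ∃ u ∈ U, O.valuation (p s ^ a * y i ^ b / (γ * y i ^ c)) ≤ O.valuation u := by
  obtain ⟨z, hz, h1⟩ := hU (Submodule.mul_mem_mul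
    (Submodule.pow_mem_pow _ (Submodule.subset_span (mem_range_self s)) a)
    (Submodule.pow_mem_pow _ (Submodule.subset_span (mem_range_self i)) b)) O hO
  obtain ⟨z1, hz1, z2, hz2, h2⟩ := exists_le_mul O hO hz
  obtain ⟨z3, hz3, u, hu, h3⟩ := exists_le_mul O hO hz1
  have h4 := ball_pow (le_ball hO hi hy) c hz2
  have h5 : z3 ∈ ball O hO (O.valuation γ) :=
    (Submodule.span_le.2 (singleton_subset_iff.2 (le_refl (O.valuation γ))) :
      _ ≤ ball O hO (O.valuation γ)) hz3
  refine ⟨u, hu, ?_⟩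
  rw [map_div₀, div_le_iff₀ ((Valuation.pos_iff _).2 (mul_ne_zero hγ (pow_ne_zero _ hi))),
    map_mul O.valuation γ, map_pow, mul_left_comm, ← mul_assoc]
  exact h1.trans (h2.trans (mul_le_mul' (h3.trans (mul_le_mul' h5 le_rfl)) h4))

end gauss

section place
variable {k₀ L k G F ι τ : Type} [Field k₀] [Field L] [Algebra k₀ L] [Field k] [IsAlgClosed k]
  [CommRing G] [Field F] [Algebra k₀ k] [Algebra k G] [Algebra k₀ G] [IsScalarTower k₀ k G]
  [Algebra k F] [IsFF k F] [Fintype ι] [Fintype τ] [DecidableEq τ] {B : Subalgebra k₀ L}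
  {Q : Ideal B} [Q.IsPrime] {w : ι → L} (e : L →ₐ[k₀] G) (ρ : G →ₐ[k] F) (x : Place k F)

variable (w) in
/-- The local ring of the model, with extended constants, at the centre of the place. -/
def AA : Subalgebra k G := Bl.loc ρ x (Algebra.adjoin k (range fun j => e (w j)))

variable {e ρ x}

theorem adj_mem (hB : B = Algebra.adjoin k₀ (range w)) :
    ∀ b ∈ B, e b ∈ Algebra.adjoin k (range fun j => e (w j)) := fun b hb => by
  rw [hB] at hb
  induction hb using Algebra.adjoin_induction with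
  | mem z hz =>
    obtain ⟨j, rfl⟩ := hz
    exact Algebra.subset_adjoin ⟨j, rfl⟩
  | algebraMap c =>
    rw [e.commutes, IsScalarTower.algebraMap_apply k₀ k G]
    exact Subalgebra.algebraMap_mem _ _
  | add a b _ _ ha hb => rw [map_add]; exact add_mem ha hb
  | mul a b _ _ ha hb => rw [map_mul]; exact mul_mem ha hb

theorem OQ_AA (hB : B = Algebra.adjoin k₀ (range w))
    (hQ : ∀ b : B, b ∉ Q → ord x.O (ρ (e b)) = 0) : ∀ z ∈ OQ B Q, e z ∈ AA w e ρ x := by
  rintro z ⟨b, hb, h⟩
  refine ⟨e b, adj_mem hB _ b.2, (((IsUnit.mk0 _ (ne_zero_of hb)).map e).map ρ).ne_zero, hQ b hb,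
    ?_⟩
  rw [← map_mul, mul_comm]
  exact adj_mem hB _ h

theorem adj_ge (hw : ∀ j, Ge x.O 0 (ρ (e (w j)))) :
    ∀ a ∈ Algebra.adjoin k (range fun j => e (w j)), Ge x.O 0 (ρ a) := fun a ha => by
  induction ha using Algebra.adjoin_induction with
  | mem z hz =>
    obtain ⟨j, rfl⟩ := hz
    exact hw j
  | algebraMap c => rw [ρ.commutes]; exact Or.inr (x.ord_const c).ge
  | add a b _ _ ha hb => rw [map_add]; exact ha.add hb
  | mul a b _ _ ha hb => rw [map_mul]; simpa using ha.mul hb

theorem const_zero {c : k} (h : Ge x.O 1 (algebraMap k F c)) : c = 0 := by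
  rcases h with h | h
  · simpa using h
  · rw [x.ord_const] at h
    omega

/-- The residue map of a subalgebra of the ring of the place. -/
theorem exists_eps {A : Subalgebra k G} (hA : ∀ a ∈ A, Ge x.O 0 (ρ a)) :
    ∃ ε : A →ₐ[k] k, ∀ a : A, Ge x.O 1 (ρ a - algebraMap k F (ε a)) := by
  have hD : Disc x.O ∨ x.O = ⊤ := Or.inl x.disc
  choose ε hε using fun a : A => x.exists_res ((mem_iff_ge hD).2 (hA a a.2))
  have hu : ∀ (a : A) (c : k), Ge x.O 1 (ρ a - algebraMap k F c) → ε a = c := fun a c h => by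
    have := h.sub (hε a)
    rw [sub_sub_sub_cancel_left, ← map_sub] at this
    exact sub_eq_zero.1 (const_zero this)
  have hc : ∀ c : k, ε (algebraMap k A c) = c := fun c => hu _ _ (Or.inl (by simp))
  refine ⟨{ toFun := ε
            map_one' := by simpa using hc 1
            map_zero' := by simpa using hc 0
            map_add' := fun a b => hu _ _ ?_
            map_mul' := fun a b => hu _ _ ?_
            commutes' := hc }, hε⟩
  · have := ((hA a a.2).mul (hε b)).add (Ge.mul (Or.inr (x.ord_const (ε b)).ge) (hε a))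
    rw [zero_add] at this
    rwa [MulMemClass.coe_mul, map_mul, map_mul, show ρ a * ρ b -
      algebraMap k F (ε a) * algebraMap k F (ε b) = ρ a * (ρ b - algebraMap k F (ε b)) +
      algebraMap k F (ε b) * (ρ a - algebraMap k F (ε a)) by ring]
  · have := (hε a).add (hε b)
    rwa [AddMemClass.coe_add, map_add, map_add, show ρ a + ρ b -
      (algebraMap k F (ε a) + algebraMap k F (ε b)) = ρ a - algebraMap k F (ε a) +
      (ρ b - algebraMap k F (ε b)) by ring]

/-- The chart at a place. -/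
theorem chart (hu : ∀ r, ρ r ≠ 0 → IsUnit r) (hB : B = Algebra.adjoin k₀ (range w))
    (hw : ∀ j, Ge x.O 0 (ρ (e (w j)))) (hQ : ∀ b : B, b ∉ Q → ord x.O (ρ (e b)) = 0)
    {u : τ → L} {δ : τ → Derivation k₀ L L} (h : Coord B Q u δ) (Δ : τ → Derivation ℤ G G)
    (hΔ : ∀ a z, Δ a (e z) = e (δ a z)) (hΔ' : ∀ a c, Δ a (algebraMap k G c) = 0) :
    ∃ c : τ → k, Bl.Chart ρ x (AA w e ρ x) (fun a => e (u a) - algebraMap k G (c a)) Δ := by
  classical
  have hB' := adj_ge hw
  have hA : ∀ a ∈ AA w e ρ x, Ge x.O 0 (ρ a) := Bl.loc_mem hB'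
  obtain ⟨ε, hε⟩ := exists_eps hA
  let f : OQ B Q →+* AA w e ρ x := ((e : L →+* G).comp (OQ B Q).val.toRingHom).codRestrict
    (AA w e ρ x).toSubring fun z => OQ_AA hB hQ z z.2
  have hf : ∀ z : OQ B Q, (f z : G) = e z := fun _ => rfl
  let r : AA w e ρ x → AA w e ρ x := fun a => a - algebraMap k _ (ε a)
  let I : Ideal (AA w e ρ x) := RingHom.ker ε
  have hI : ∀ a : AA w e ρ x, a ∈ I ↔ Ge x.O 1 (ρ a) := fun a => by
    refine ⟨fun ha => by simpa [(RingHom.mem_ker).1 ha] using hε a, fun ha => ?_⟩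
    have := ha.sub (hε a)
    rw [sub_sub_cancel] at this
    exact const_zero this
  have hr : ∀ a, r a ∈ I := fun a => by simp [r, I, RingHom.mem_ker]
  let η : τ → AA w e ρ x := fun a => r (f ⟨u a, h.mem a⟩)
  let θ : ι → AA w e ρ x := fun j => r (f ⟨w j, w_mem hB j⟩)
  have h1 : I ≤ Ideal.span (range θ) := fun a ha => by
    obtain ⟨c, hc, h2⟩ := Bl.loc_gen (η := fun j => (θ j : G)) hu hB'
      (fun j => (hI _).1 (hr _)) (fun b hb => by
        have h3 : ∀ b (hb : b ∈ Algebra.adjoin k (range fun j => e (w j))),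
            r ⟨b, Bl.le_loc _ hb⟩ ∈ Ideal.span (range θ) := fun b hb => by
          induction hb using Algebra.adjoin_induction with
          | mem z hz =>
            obtain ⟨j, rfl⟩ := hz
            exact Ideal.subset_span ⟨j, rfl⟩
          | algebraMap c =>
            rw [show (⟨algebraMap k G c, _⟩ : AA w e ρ x) = algebraMap k _ c from rfl]
            simp [r]
          | add a b ha hb h h' =>
            rw [show (⟨a + b, _⟩ : AA w e ρ x) = ⟨a, Bl.le_loc _ ha⟩ + ⟨b, Bl.le_loc _ hb⟩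
              from rfl]
            have := add_mem h h'
            simp only [r, map_add] at this ⊢
            rwa [add_sub_add_comm]
          | mul a b ha hb h h' =>
            rw [show (⟨a * b, _⟩ : AA w e ρ x) = ⟨a, Bl.le_loc _ ha⟩ * ⟨b, Bl.le_loc _ hb⟩
              from rfl]
            generalize (⟨a, Bl.le_loc _ ha⟩ : AA w e ρ x) = a' at h ⊢
            generalize (⟨b, Bl.le_loc _ hb⟩ : AA w e ρ x) = b' at h' ⊢
            have := add_mem (Ideal.mul_mem_left _ a' h')
              (Ideal.mul_mem_left _ (algebraMap k _ (ε b')) h)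
            simp only [r, map_mul] at this ⊢
            rwa [show a' * b' - algebraMap k _ (ε a') * algebraMap k _ (ε b') =
              a' * (b' - algebraMap k _ (ε b')) +
                algebraMap k _ (ε b') * (a' - algebraMap k _ (ε a')) by ring]
        obtain ⟨c, hc⟩ := Ideal.mem_span_range_iff_exists_fun.1 (h3 b hb)
        refine ⟨ε ⟨b, Bl.le_loc _ hb⟩, fun j => c j, fun j => (c j).2, ?_⟩
        have h4 := congrArg Subtype.val hc
        simp only [AddSubmonoidClass.coe_finsetSum, MulMemClass.coe_mul] at h4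
        rw [h4]
        simp [r]) a a.2 ((hI a).1 ha)
    exact Ideal.mem_span_range_iff_exists_fun.2 ⟨fun j => ⟨c j, hc j⟩, Subtype.ext (by
      rw [h2]; simp)⟩
  have h2 : ∀ z : OQ B Q, r (f z) ∈ Ideal.span (range η) ⊔ I * I := fun z => by
    let π := Ideal.Quotient.mk (Ideal.span (range η) ⊔ I * I)
    refine Ideal.Quotient.eq_zero_iff_mem.1 (h.uniq _ (π.comp f)
      { toFun := fun z => π (r (f z))
        map_zero' := by simp [r]
        map_add' := fun a b => by
          simp only [r, map_add, map_sub]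
          ring } (fun a b => ?_) (fun c => ?_) (fun c => ?_) z)
    · change π (r (f (a * b))) = π (f a) * π (r (f b)) + π (f b) * π (r (f a))
      rw [← map_mul, ← map_mul, ← map_add, eq_comm, Ideal.Quotient.eq]
      refine Ideal.mem_sup_right ?_
      have := Ideal.mul_mem_mul (hr (f a)) (hr (f b))
      simp only [r, map_mul] at this ⊢
      rwa [show f a * (f b - algebraMap k _ (ε (f b))) + f b * (f a - algebraMap k _ (ε (f a))) -
        (f a * f b - algebraMap k _ (ε (f a)) * algebraMap k _ (ε (f b))) =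
        (f a - algebraMap k _ (ε (f a))) * (f b - algebraMap k _ (ε (f b))) by ring]
    · change π (r (f (algebraMap k₀ _ c))) = 0
      rw [show f (algebraMap k₀ _ c) = algebraMap k _ (algebraMap k₀ k c) from Subtype.ext
        ((e.commutes c).trans (IsScalarTower.algebraMap_apply k₀ k G c))]
      simp [r]
    · exact Ideal.Quotient.eq_zero_iff_mem.2 (Ideal.mem_sup_left (Ideal.subset_span ⟨c, rfl⟩))
  have h3 : Ideal.span (range θ) ≤ Ideal.span (range η) := by
    refine Submodule.le_of_le_smul_of_le_jacobson_bot (I := I)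
      (Submodule.fg_span (finite_range θ)) (fun a ha => Ideal.mem_jacobson_bot.2 fun b => ?_)
      (Ideal.span_le.2 ?_)
    · have h4 := ord_add_of_ge (V := x.O) (one_ne_zero (α := F)) (b := ρ (a * b : AA w e ρ x))
        (by simpa using (hI _).1 (I.mul_mem_right b ha))
      rw [ord_one, add_comm, ← map_one ρ, ← map_add] at h4
      obtain ⟨c, hc, h5⟩ := Bl.loc_inv hu _ _ (a * b + 1).2 h4.1 h4.2
      exact IsUnit.of_mul_eq_one ⟨c, hc⟩ (Subtype.ext h5)
    · rintro _ ⟨j, rfl⟩
      exact sup_le_sup_left (Ideal.mul_mono_right h1) _ (h2 _)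
  refine ⟨fun a => ε (f ⟨u a, h.mem a⟩), hA, Bl.loc_inv hu _, fun a => (η a).2,
    fun a => (hI (η a)).1 (hr _), fun a ha h4 => ?_, fun a b => ?_, fun a => ?_, hΔ'⟩
  · obtain ⟨c, hc⟩ := Ideal.mem_span_range_iff_exists_fun.1 (h3 (h1 ((hI ⟨a, ha⟩).2 h4)))
    refine ⟨fun j => c j, fun j => (c j).2, ?_⟩
    have h5 := congrArg Subtype.val hc
    simp only [AddSubmonoidClass.coe_finsetSum, MulMemClass.coe_mul] at h5
    exact h5.symm
  · rw [map_sub, hΔ, hΔ', sub_zero, h.dual]
    split_ifs <;> simp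
  · refine Bl.loc_pres hu _ fun b hb => ?_
    induction hb using Algebra.adjoin_induction with
    | mem z hz =>
      obtain ⟨j, rfl⟩ := hz
      rw [hΔ]
      exact OQ_AA hB hQ _ (h.pres a _ (w_mem hB j))
    | algebraMap c => rw [hΔ']; exact zero_mem _
    | add b b' _ _ hb hb' => rw [map_add]; exact add_mem hb hb'
    | mul b b' h5 h6 hb hb' =>
      rw [Derivation.leibniz, smul_eq_mul, smul_eq_mul]
      exact add_mem (mul_mem (Bl.le_loc _ h5) hb') (mul_mem (Bl.le_loc _ h6) hb)

end place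

end Pool.Agent.Lib.A35.Ct
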