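import Pool.Agent.Lib.A35.Car
import Pool.Agent.Lib.A35.Trc
import Pool.Agent.Lib.A35.Deg
import Pool.Agent.Lib.A35.Chain

/-! Generation of jets over a finite field. -/

open Set Polynomial
open scoped nonZeroDivisors

set_option linter.unusedSectionVars false
set_option linter.unusedVariables false

noncomputable section

namespace Pool.Agent.Lib.A35.Car

open Pool.Agent.Lib.UR

/-- An algebraic closure of the field of rational functions. -/
abbrev Om (n : ℕ) (k : Type) [Field k] : Type :=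
  AlgebraicClosure (FractionRing (MvPolynomial (Fin n) k))

/-- The coordinates. -/
def Zv (n : ℕ) (k : Type) [Field k] : Fin n → Om n k :=
  fun i => algebraMap (MvPolynomial (Fin n) k) _ (.X i)

section bd
variable {n : ℕ} {k : Type} [Field k]

theorem aeval_Zv (P : MvPolynomial (Fin n) k) :
    MvPolynomial.aeval (Zv n k) P = algebraMap _ (Om n k) P := by
  have : (MvPolynomial.aeval (Zv n k) : MvPolynomial (Fin n) k →ₐ[k] Om n k) =
      IsScalarTower.toAlgHom k _ _ := MvPolynomial.algHom_ext fun i => by simp [Zv]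
  rw [this]
  rfl

theorem inj_Om : Function.Injective (algebraMap (MvPolynomial (Fin n) k) (Om n k)) := by
  rw [IsScalarTower.algebraMap_eq _ (FractionRing (MvPolynomial (Fin n) k))]
  exact (algebraMap (FractionRing (MvPolynomial (Fin n) k)) (Om n k)).injective.comp
    (IsFractionRing.injective _ _)

theorem ind_Zv : AlgebraicIndependent k (Zv n k) := fun P Q h =>
  inj_Om (by rwa [aeval_Zv, aeval_Zv] at h)

variable {O : Type} [CommRing O] [Algebra (MvPolynomial (Fin n) k) O] [Algebra k O]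
  [IsScalarTower k (MvPolynomial (Fin n) k) O]

variable (n k O) in
/-- The elements all of whose conjugates grow at most like polynomials of degree `j`. -/
def Bd (j : ℕ) : Submodule k O where
  carrier := {τ | ∀ ψ : O →ₐ[MvPolynomial (Fin n) k] Om n k, ψ τ ∈ cl (sys k (Zv n k) ^ j)}
  zero_mem' ψ := by simp
  add_mem' ha hb ψ := by rw [map_add]; exact add_mem (ha ψ) (hb ψ)
  smul_mem' c a ha ψ := by
    have := map_smul (ψ.restrictScalars k) c a
    simp only [AlgHom.restrictScalars_apply] at this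
    rw [this]
    exact Submodule.smul_mem _ _ (ha ψ)

theorem Bd.mul {i j : ℕ} {x y : O} (hx : x ∈ Bd n k O i) (hy : y ∈ Bd n k O j) :
    x * y ∈ Bd n k O (i + j) := fun ψ => by
  rw [map_mul, pow_add]
  exact mul_mem_cl (hx ψ) (hy ψ)

theorem Bd.one (j : ℕ) : (1 : O) ∈ Bd n k O j := fun ψ => by
  rw [map_one]
  exact le_cl _ (one_mem_pow (one_mem_sys _) j)

theorem Bd.mono {i j : ℕ} (h : i ≤ j) : Bd n k O i ≤ Bd n k O j := fun x hx ψ =>
  cl_mono (pow_mono' (one_mem_sys _) h) (hx ψ)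

/-- A root of a monic equation with bounded degrees. -/
theorem Bd.of_eqn (j : ℕ) (G : (MvPolynomial (Fin n) k)[X]) (hG : G.Monic)
    (hd : ∀ i, (G.coeff i).totalDegree ≤ j * (G.natDegree - i)) {x : O} (hx : aeval x G = 0) :
    x ∈ Bd n k O j := fun ψ => mem_cl_of_eqn _ j G hG hd (by
  have h := congrArg ψ hx
  rw [← aeval_algHom_apply, map_zero, aeval_def] at h
  rw [← h]
  congr 1
  exact RingHom.ext aeval_Zv)

variable (n k) in
/-- The graded family in the cover. -/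
def Tj (BB : Set O) (γ : O) (u a j : ℕ) : Submodule k O :=
  ⨅ b ∈ BB, (Bd n k O (u * j * a)).comap (LinearMap.mulRight k (γ ^ j * b ^ (u * j)))

theorem mem_Tj {BB : Set O} {γ τ : O} {u a j : ℕ} :
    τ ∈ Tj n k BB γ u a j ↔ ∀ b ∈ BB, τ * (γ ^ j * b ^ (u * j)) ∈ Bd n k O (u * j * a) := by
  simp [Tj, mul_assoc]

variable (R : Type) [CommRing R] [Algebra O R] [Algebra k R] [IsScalarTower k O R]

variable (n k) in
/-- The graded family in the local ring. -/
def Sb (BB : Set O) (γ : O) (u a j : ℕ) : Submodule k R :=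
  (Tj n k BB γ u a j).map (IsScalarTower.toAlgHom k O R).toLinearMap

theorem mem_Sb {BB : Set O} {γ τ : O} {u a j : ℕ} (h : τ ∈ Tj n k BB γ u a j) :
    algebraMap O R τ ∈ Sb n k R BB γ u a j := ⟨τ, h, rfl⟩

theorem Tj_mul {BB : Set O} {γ : O} {u a i j : ℕ} {x y : O} (hx : x ∈ Tj n k BB γ u a i)
    (hy : y ∈ Tj n k BB γ u a j) : x * y ∈ Tj n k BB γ u a (i + j) := mem_Tj.2 fun b hb => by
  have h := Bd.mul (mem_Tj.1 hx b hb) (mem_Tj.1 hy b hb)
  rw [← add_mul, ← mul_add] at h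
  convert h using 1
  ring

theorem gr_Sb {BB : Set O} {γ : O} {u a : ℕ} (h1 : ∀ b ∈ BB, γ * b ^ u ∈ Bd n k O (u * a)) :
    Gr (Sb n k R BB γ u a) where
  mul := by
    rintro i j _ _ ⟨x, hx, rfl⟩ ⟨y, hy, rfl⟩
    exact ⟨x * y, Tj_mul hx hy, by simp⟩
  mono := monotone_nat_of_le_succ fun j => by
    rintro _ ⟨x, hx, rfl⟩
    refine ⟨x, ?_, rfl⟩
    simpa using Tj_mul hx (y := 1) (j := 1) (mem_Tj.2 (by simpa using h1))
  one := ⟨1, mem_Tj.2 fun b _ => by simpa using Bd.one 0, by simp⟩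

end bd

theorem arith {Lam lam : ℝ} {u w t d : ℕ} (hu : 0 < u) (c r₀ : ℕ)
    (h : u * (w * Lam + lam * (t + d)) < 1) : ∃ Q : ℕ, ∀ q j r : ℕ, Q < q → q = u * j + r →
      r < r₀ + u → Lam * (w * q + 1 : ℕ) + lam * (q * (t + d) : ℕ) + c ≤ j := by
  obtain ⟨Q, hQ⟩ := exists_nat_ge ((u * Lam + u * c + r₀ + u) /
    (1 - u * (w * Lam + lam * (t + d))))
  rw [div_le_iff₀ (sub_pos.2 h)] at hQ
  refine ⟨Q, fun q j r h1 h2 h3 => ?_⟩
  have h4 : (Q : ℝ) < q := by exact_mod_cast h1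
  have h5 : (q : ℝ) = u * j + r := by exact_mod_cast h2
  have h6 : (r : ℝ) < r₀ + u := by exact_mod_cast h3
  have h7 : (0 : ℝ) < u := by exact_mod_cast hu
  have h8 := mul_le_mul_of_nonneg_right h4.le (sub_pos.2 h).le
  refine le_of_mul_le_mul_left ?_ h7
  push_cast
  nlinarith

variable {n : ℕ} {k B R β : Type} [Field k] [Finite k] [CommRing B]
  [Algebra (MvPolynomial (Fin n) k) B] [Algebra k B] [IsScalarTower k (MvPolynomial (Fin n) k) B]
  [CommRing R] [Algebra k R] [Fintype β]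

/-- Generation of jets. -/
theorem core (M : Submonoid (MvPolynomial (Fin n) k)) [IsLocalization M B]
    (hM : M ≤ (MvPolynomial (Fin n) k)⁰) (F : B[X]) (hF : F.Monic)
    (hu : IsUnit (aeval (AdjoinRoot.root F) F.derivative)) [Algebra (AdjoinRoot F) R]
    [IsScalarTower k (AdjoinRoot F) R] (N : Submonoid (AdjoinRoot F)) [IsLocalization N R]
    (b : β → AdjoinRoot F) (γ : AdjoinRoot F) (g : ℕ → AdjoinRoot F) {u D r₀ : ℕ} (hu0 : 0 < u)
    (hr : 0 < r₀) (h1 : ∀ i, γ * b i ^ u ∈ Bd n k _ (u * (D + n + 1)))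
    (h2 : ∀ r, r₀ ≤ r → r < r₀ + u → IsUnit (algebraMap _ R (g r)) ∧
      ∀ i, g r * b i ^ r ∈ Bd n k _ (r * (D + n + 1) - (n + 1)))
    (hγ : IsUnit (algebraMap _ R γ)) {p m : Ideal R} {Lam lam : ℝ} {w c w' c' t d : ℕ}
    (hT : Tow (Sb n k R (range b) γ u (D + n + 1)) p Lam w c)
    (hL : Lev (Sb n k R (range b) γ u (D + n + 1)) p m lam w' c')
    (hm : ∀ r : R, ∃ a : k, r - algebraMap k R a ∈ m) (ζ : Finset R) (hζ : ζ.card ≤ d)
    (hd : 0 < d) (hmζ : m ≤ Ideal.span (ζ : Set R) ⊔ p)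
    (hlt : u * (w * Lam + lam * (t + d)) < 1) (r : R) :
    ∃ (x : AdjoinRoot F) (P : β → MvPolynomial (Fin n) k),
      algebraMap _ R x - r ∈ Ideal.span (ζ : Set R) ^ (t + 1) ⊔ p ∧
      (∀ i, (P i).totalDegree ≤ D) ∧
      (∀ s : β → MvPolynomial (Fin n) k, ∑ i, s i • b i = 0 → ∑ i, s i * P i = 0) ∧
      ∀ (g₀ : AdjoinRoot F) (e : Fin F.natDegree → β),
        (∀ i, b (e i) = g₀ * AdjoinRoot.root F ^ (i : ℕ)) →
        x * g₀ * aeval (AdjoinRoot.root F) F.derivative =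
          ∑ i, P (e i) • aeval (AdjoinRoot.root F) (cq F i) := by
  classical
  have hun : ∀ y : M, IsUnit (algebraMap _ (Om n k) y.1) := fun y =>
    ((map_ne_zero_iff _ inj_Om).2 (nonZeroDivisors.ne_zero (hM y.2))).isUnit
  let _ : Algebra B (Om n k) := (IsLocalization.lift (S := B) hun).toAlgebra
  have hj : ∀ P, algebraMap B (Om n k) (algebraMap (MvPolynomial (Fin n) k) B P) =
      algebraMap _ _ P := fun P => IsLocalization.lift_eq hun P
  have : IsScalarTower (MvPolynomial (Fin n) k) B (Om n k) :=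
    .of_algebraMap_eq fun P => (hj P).symm
  have hB : Function.Injective (algebraMap (MvPolynomial (Fin n) k) B) :=
    IsLocalization.injective B hM
  have hinj : Function.Injective (algebraMap B (Om n k)) :=
    (IsLocalization.lift_injective_iff hun).2 fun x y => by rw [hB.eq_iff, inj_Om.eq_iff]
  obtain ⟨φ, Tr, h3, -, -, h4⟩ := exists_tr hinj F hF hu
  obtain ⟨v, hv⟩ := hu.exists_right_inv
  obtain ⟨Q, hQ⟩ := arith hu0 (c + c') r₀ hlt
  obtain ⟨π, f, hp, hp0, hq, hexp⟩ := NV.exists_q (σ := Fin n) k (Q + r₀)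
  have hq0 : 0 < π ^ f := by omega
  obtain ⟨j, r', h5, h6, h7⟩ : ∃ j r', π ^ f = u * j + r' ∧ r₀ ≤ r' ∧ r' < r₀ + u :=
    ⟨(π ^ f - r₀) / u, r₀ + (π ^ f - r₀) % u, by
      have := Nat.div_add_mod (π ^ f - r₀) u
      omega, Nat.le_add_right _ _, Nat.add_lt_add_left (Nat.mod_lt _ hu0) _⟩
  obtain ⟨s, hs, hps⟩ := hT.gen
  refine (frob_lift (σ := Fin n) (R := R) M N Tr
    (fun i : Fin F.natDegree => aeval (AdjoinRoot.root F) (cq F i) * v)
    (fun i => AdjoinRoot.root F ^ (i : ℕ))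
    (fun y => by
      simp only [← smul_mul_assoc]
      rw [← Finset.sum_mul, ← h4, mul_assoc, hv, mul_one]) hp hp0 hexp
    (tr_pow _ hinj (fun i => (φ i).toRingHom) Tr h3 hp (by
      rw [← map_natCast (algebraMap k (Om n k)), hp0, map_zero]) f)
    (Ideal.span (ζ : Set R) ^ (t + 1) ⊔ p) (range b) D (fun ρ => ?_) r).elim
      fun x ⟨h8, h9⟩ => ?_
  swap
  · choose P hP hP' using fun i => h9 (b i) ⟨i, rfl⟩
    refine ⟨x, P, h8, hP, fun s' h => hB ?_, fun g₀ e he => ?_⟩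
    · have h10 := congrArg (fun y => Tr (x * y)) h
      simp only [Finset.mul_sum, mul_smul_comm, map_sum, mul_zero, map_zero] at h10
      rw [map_sum, map_zero, ← h10]
      refine Finset.sum_congr rfl fun i _ => ?_
      rw [map_mul, hP', ← algebraMap_smul B (s' i), map_smul, smul_eq_mul]
    · rw [h4]
      refine Finset.sum_congr rfl fun i _ => ?_
      rw [mul_assoc, ← he, ← hP', algebraMap_smul]
  · obtain ⟨ι, hι⟩ := ((hγ.pow j).mul (h2 r' h6 h7).1).exists_left_inv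
    obtain ⟨_, ⟨τ, hτ, rfl⟩, h10⟩ := hT.onto (gr_Sb R (by rintro _ ⟨i, rfl⟩; exact h1 i)) hL hm
      (J := p ^ (w * π ^ f + 1) ⊔ Ideal.span (ζ : Set R) ^ (π ^ f * (t + d))) (N := j)
      (M' := π ^ f * (t + d)) le_sup_left
      ((Ideal.pow_right_mono hmζ _).trans ((A35.sup_pow_le _ _ _).trans
        (sup_le_sup_right le_sup_right _)))
      (by
        have := hQ _ j r' (by omega) h5 h7
        rwa [Nat.cast_add c, ← add_assoc] at this) (ρ * ι)
    refine ⟨τ * (γ ^ j * g r'), ?_, ?_⟩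
    · have h11 := Ideal.mul_mem_right (-(algebraMap _ R γ ^ j * algebraMap _ R (g r'))) _ h10
      rw [hps] at h11 ⊢
      refine sup_le_fpow s ζ hs hζ hd hq0 ?_
      convert h11 using 1
      simp only [map_mul, map_pow, AlgHom.toLinearMap_apply, IsScalarTower.coe_toAlgHom']
      linear_combination ρ * hι
    · rintro _ ⟨i, rfl⟩
      have h11 := Bd.mul (mem_Tj.1 hτ _ ⟨i, rfl⟩) ((h2 r' h6 h7).2 i)
      have h12 : n + 1 ≤ r' * (D + n + 1) :=
        (Nat.le_add_left _ D).trans (Nat.le_mul_of_pos_left _ (by omega))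
      obtain ⟨P, h13, h14⟩ := pol_of_cl ind_Zv (u * j * (D + n + 1) + (r' * (D + n + 1) - (n + 1)))
        (x := algebraMap B (Om n k) (Tr (τ * (γ ^ j * g r') * b i ^ π ^ f))) (by
          obtain ⟨⟨y, y'⟩, h⟩ := IsLocalization.surj M (Tr (τ * (γ ^ j * g r') * b i ^ π ^ f))
          refine (IntermediateField.mem_adjoin_range_iff k _ _).2 ⟨y, y', ?_⟩
          rw [aeval_Zv, aeval_Zv, eq_div_iff (hun y').ne_zero, ← hj, ← hj, ← map_mul, h]) (by
          rw [h3]
          refine Submodule.sum_mem _ fun l _ => ?_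
          convert h11 ((φ l).restrictScalars _) using 1
          rw [AlgHom.restrictScalars_apply, h5]
          congr 1
          ring)
      refine ⟨P, ?_, hinj (by rw [hj, ← aeval_Zv, h14])⟩
      rw [Fintype.card_fin, h5, add_mul]
      omega

end Pool.Agent.Lib.A35.Car
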