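import Mathlib

/-! The Jacobian determinant of a system of relations multiplies the dual module for the trace
into the ring (Kaehler different inside Dedekind different), and a block determinant identity. -/

open MvPolynomial Matrix

noncomputable section

namespace Pool.Agent.Lib.A35.D34

/-- Divided differences. -/
theorem divdiff {k R S σ : Type} [CommRing k] [CommRing R] [CommRing S] [Algebra k R] [Fintype σ]
    (T : Subalgebra k R) {p q : σ → R} (hp : ∀ j, p j ∈ T) (hq : ∀ j, q j ∈ T) (π : R →+* S)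
    (h : ∀ j, π (p j) = π (q j)) (f : MvPolynomial σ k) :
    ∃ a : σ → R, (∀ j, a j ∈ T) ∧ aeval p f - aeval q f = ∑ j, a j * (p j - q j) ∧
      (∀ j, π (a j) = π (aeval p (pderiv j f))) ∧ aeval q f ∈ T ∧
      π (aeval q f) = π (aeval p f) := by
  classical
  induction f using MvPolynomial.induction_on with
  | C c => exact ⟨0, fun _ => T.zero_mem, by simp, by simp, by simp, by simp⟩
  | add f g hf hg =>
    obtain ⟨a, h1, h2, h3, h4, h5⟩ := hf
    obtain ⟨b, k1, k2, k3, k4, k5⟩ := hg
    refine ⟨a + b, fun j => T.add_mem (h1 j) (k1 j), ?_, fun j => ?_, ?_, ?_⟩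
    · simp only [map_add, Pi.add_apply, add_mul, Finset.sum_add_distrib, ← h2, ← k2]
      ring
    · simp only [map_add, Pi.add_apply, h3, k3]
    · rw [map_add]; exact T.add_mem h4 k4
    · simp only [map_add, h5, k5]
  | mul_X f i hf =>
    obtain ⟨a, h1, h2, h3, h4, h5⟩ := hf
    refine ⟨fun j => a j * p i + if j = i then aeval q f else 0, fun j => T.add_mem
      (T.mul_mem (h1 j) (hp i)) (by split_ifs; exacts [h4, T.zero_mem]), ?_, fun j => ?_, ?_, ?_⟩
    · simp only [map_mul, aeval_X, add_mul, Finset.sum_add_distrib, ite_mul, zero_mul,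
        Finset.sum_ite_eq', Finset.mem_univ, if_true]
      have h6 : ∑ j, a j * p i * (p j - q j) = (aeval p f - aeval q f) * p i := by
        rw [h2, Finset.sum_mul]
        exact Finset.sum_congr rfl fun j _ => by ring
      rw [h6]
      ring
    · by_cases hj : j = i
      · subst hj
        simp [h3, h5, add_comm, mul_comm]
      · simp [h3, hj, Ne.symm hj, mul_comm]
    · rw [map_mul, aeval_X]; exact T.mul_mem h4 (hq i)
    · simp only [map_mul, aeval_X, h5, h]

theorem det_mem {k R τ : Type} [CommRing k] [CommRing R] [Algebra k R] [Fintype τ] [DecidableEq τ]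
    (T : Subalgebra k R) {M : Matrix τ τ R} (h : ∀ i j, M i j ∈ T) : M.det ∈ T := by
  rw [Matrix.det_apply']
  exact T.sum_mem fun s _ => T.mul_mem (intCast_mem T _) (T.prod_mem fun i _ => h _ _)

/-- The Jacobian determinant of the relations `c r * g r = f r` of generators `w` of `L / K`
multiplies the dual module of `B` into `O`, if `B` contains `ε w` for a unit `ε` of `O`. -/
theorem nd {k K L σ τ : Type} [Field k] [Field K] [Field L] [Algebra k K] [Algebra K L]
    [Algebra k L] [IsScalarTower k K L] [FiniteDimensional K L] [Algebra.IsSeparable K L]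
    [Fintype σ] [Fintype τ] [DecidableEq τ] (e : τ ≃ σ) (O : ValuationSubring L)
    (hk : ∀ c : k, algebraMap k L c ∈ O) (B : Subring L) {ε : L} (hε : O.valuation ε = 1)
    (hB : ε ∈ B) {w : σ → L} (hw : IntermediateField.adjoin K (Set.range w) = ⊤)
    (hwO : ∀ j, w j ∈ O) (hBw : ∀ j, ε * w j ∈ B) {x : L}
    (hx : ∀ b ∈ B, algebraMap K L (Algebra.trace K L (x * b)) ∈ O)
    (f g : τ → MvPolynomial σ k) (c : τ → K) (hc : ∀ r, algebraMap K L (c r) ∈ O)
    (hrel : ∀ r, algebraMap K L (c r) * aeval w (g r) = aeval w (f r)) :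
    x * (Matrix.of fun r j => algebraMap K L (c r) * aeval w (pderiv (e j) (g r)) -
      aeval w (pderiv (e j) (f r))).det ∈ O := by
  classical
  let Ω := AlgebraicClosure L
  let E := L →ₐ[K] Ω
  let ι₀ : E := IsScalarTower.toAlgHom K L Ω
  let N : (E → Ω) → Prop := fun ψ => ∀ b ∈ B, ∃ o ∈ O, ∑ s : E, ψ s * s (x * b) = ι₀ o
  have N1 : N 1 := fun b hb => ⟨_, hx b hb, by
    rw [AlgHom.commutes, trace_eq_sum_embeddings Ω]
    simp only [Pi.one_apply, one_mul]
    rfl⟩
  have Nadd : ∀ φ ψ, N φ → N ψ → N (φ + ψ) := fun φ ψ h1 h2 b hb => by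
    obtain ⟨o, ho, e1⟩ := h1 b hb
    obtain ⟨o', ho', e2⟩ := h2 b hb
    exact ⟨o + o', add_mem ho ho', by
      simp only [Pi.add_apply, add_mul, Finset.sum_add_distrib, e1, e2, map_add]⟩
  have Nc : ∀ a ∈ O, ∀ ψ, N ψ → N ((fun _ => ι₀ a) * ψ) := fun a ha ψ h1 b hb => by
    obtain ⟨o, ho, e1⟩ := h1 b hb
    exact ⟨a * o, mul_mem ha ho, by
      simp only [Pi.mul_apply, mul_assoc, ← Finset.mul_sum, e1, map_mul ι₀]⟩
  have Ne : ∀ a ∈ B, ∀ ψ, N ψ → N ((fun s => s a) * ψ) := fun a ha ψ h1 b hb => by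
    obtain ⟨o, ho, e1⟩ := h1 (a * b) (mul_mem ha hb)
    refine ⟨o, ho, ?_⟩
    rw [← e1]
    refine Finset.sum_congr rfl fun s _ => ?_
    simp only [Pi.mul_apply, map_mul]
    ring
  let η : E → Ω := fun s => s ε
  have Np : ∀ (m : ℕ) ψ, N ψ → N (η ^ m * ψ) := fun m ψ h1 => by
    have h2 := Ne (ε ^ m) (pow_mem hB m) ψ h1
    have h3 : (fun s : E => s (ε ^ m)) = η ^ m := funext fun s => by simp [η]
    rwa [h3] at h2
  let T : Subalgebra k (E → Ω) :=
    { carrier := {φ | ∃ m : ℕ, ∀ ψ, N ψ → N (φ * (η ^ m * ψ))}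
      mul_mem' := by
        rintro φ φ' ⟨m, h1⟩ ⟨m', h2⟩
        refine ⟨m + m', fun ψ hψ => ?_⟩
        have h3 := h1 _ (h2 ψ hψ)
        rwa [show φ * (η ^ m * (φ' * (η ^ m' * ψ))) = φ * φ' * (η ^ (m + m') * ψ) by ring] at h3
      add_mem' := by
        rintro φ φ' ⟨m, h1⟩ ⟨m', h2⟩
        refine ⟨m + m', fun ψ hψ => ?_⟩
        have h3 := Nadd _ _ (h1 _ (Np m' ψ hψ)) (h2 _ (Np m ψ hψ))
        rwa [show φ * (η ^ m * (η ^ m' * ψ)) + φ' * (η ^ m' * (η ^ m * ψ)) =
          (φ + φ') * (η ^ (m + m') * ψ) by ring] at h3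
      algebraMap_mem' := fun a => ⟨0, fun ψ hψ => by
        have h3 := Nc _ (hk a) ψ hψ
        have h4 : (fun _ : E => ι₀ (algebraMap k L a)) = algebraMap k (E → Ω) a :=
          funext fun s => (IsScalarTower.algebraMap_apply k L Ω a).symm
        rwa [pow_zero, one_mul, ← h4]⟩ }
  have Tc : ∀ a ∈ O, (fun _ => ι₀ a) ∈ T := fun a ha => ⟨0, fun ψ hψ => by
    rw [pow_zero, one_mul]; exact Nc a ha ψ hψ⟩
  have Te : ∀ j, (fun s : E => s (w j)) ∈ T := fun j => ⟨1, fun ψ hψ => by
    have h3 := Ne _ (hBw j) ψ hψ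
    have h4 : (fun s : E => s (ε * w j)) * ψ = (fun s : E => s (w j)) * (η ^ 1 * ψ) :=
      funext fun s => by simp only [Pi.mul_apply, map_mul, pow_one, η]; ring
    rwa [h4] at h3⟩
  have hev : ∀ (s : E) (P : MvPolynomial σ k),
      aeval (fun j => fun s : E => s (w j)) P s = s (aeval w P) := fun s P => by
    have h1 := comp_aeval_apply (fun j => fun s : E => s (w j)) (Pi.evalAlgHom k (fun _ : E => Ω) s) P
    have h2 := comp_aeval_apply w (s.restrictScalars k) P
    exact h1.trans h2.symm
  have hco : ∀ (s : E) (P : MvPolynomial σ k),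
      aeval (fun j => fun _ : E => ι₀ (w j)) P s = ι₀ (aeval w P) := fun s P => by
    have h1 := comp_aeval_apply (fun j => fun _ : E => ι₀ (w j))
      (Pi.evalAlgHom k (fun _ : E => Ω) s) P
    have h2 := comp_aeval_apply w (ι₀.restrictScalars k) P
    exact h1.trans h2.symm
  have dd := fun P => divdiff T (p := fun j _ => ι₀ (w j)) (q := fun j s => s (w j))
    (fun j => Tc _ (hwO j)) Te (Pi.evalRingHom (fun _ : E => Ω) ι₀) (fun _ => rfl) P
  choose a ha1 ha2 ha3 _ using dd
  let A : Matrix τ τ (E → Ω) := Matrix.of fun r j =>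
    (fun _ => ι₀ (algebraMap K L (c r))) * a (g r) (e j) - a (f r) (e j)
  obtain ⟨m, hm⟩ : A.det ∈ T := det_mem T fun r j =>
    T.sub_mem (T.mul_mem (Tc _ (hc r)) (ha1 _ _)) (ha1 _ _)
  obtain ⟨o, ho, h1⟩ := hm 1 N1 1 B.one_mem
  have hdet : ∀ s : E, A.det s = (A.map fun φ => φ s).det := fun s =>
    RingHom.map_det (Pi.evalRingHom (fun _ : E => Ω) s) A
  rw [Finset.sum_eq_single ι₀] at h1
  · have h2 : (A.map fun φ => φ ι₀) = (Matrix.of fun r j => algebraMap K L (c r) *
        aeval w (pderiv (e j) (g r)) - aeval w (pderiv (e j) (f r))).map ι₀ := by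
      ext r j
      have h3 := ha3 (g r) (e j)
      have h4 := ha3 (f r) (e j)
      simp only [Pi.evalRingHom_apply, hco] at h3 h4
      simp only [A, Matrix.map_apply, Matrix.of_apply, Pi.sub_apply, Pi.mul_apply, h3, h4, map_sub,
        map_mul]
    have h5 := (RingHom.map_det (ι₀ : L →+* Ω) (Matrix.of fun r j => algebraMap K L (c r) *
        aeval w (pderiv (e j) (g r)) - aeval w (pderiv (e j) (f r)))).symm
    simp only [Pi.mul_apply, Pi.pow_apply, mul_one, hdet, h2, η] at h1
    rw [RingHom.mapMatrix_apply] at h5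
    erw [h5] at h1
    have h6 := (ι₀ : L →+* Ω).injective (a₁ := (Matrix.of fun r j => algebraMap K L (c r) *
        aeval w (pderiv (e j) (g r)) - aeval w (pderiv (e j) (f r))).det * ε ^ m * x) (a₂ := o)
      (by rw [map_mul, map_mul, map_pow]; exact h1)
    rw [← O.valuation_le_one_iff] at ho ⊢
    rw [← h6, map_mul, map_mul, map_pow, hε, one_pow, mul_one, mul_comm, ← map_mul] at ho
    exact ho
  · intro s _ hs
    have h2 : (A.map fun φ => φ s).det = 0 := by
      refine Matrix.exists_mulVec_eq_zero_iff.1 ⟨fun j => ι₀ (w (e j)) - s (w (e j)), fun h0 => hs ?_,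
        funext fun r => ?_⟩
      · have h3 : ∀ j, s (w j) = ι₀ (w j) := fun j => by
          have := congrFun h0 (e.symm j)
          simp only [Equiv.apply_symm_apply, Pi.zero_apply, sub_eq_zero] at this
          exact this.symm
        refine AlgHom.ext fun z => ?_
        have hz : z ∈ IntermediateField.adjoin K (Set.range w) := hw ▸ IntermediateField.mem_top
        induction hz using IntermediateField.adjoin_induction with
        | mem z hz => obtain ⟨j, rfl⟩ := hz; exact h3 j
        | algebraMap z => rw [AlgHom.commutes, AlgHom.commutes]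
        | add _ _ _ _ h h' => rw [map_add, map_add, h, h']
        | inv _ _ h => rw [map_inv₀, map_inv₀, h]
        | mul _ _ _ _ h h' => rw [map_mul, map_mul, h, h']
      · have h3 := congrFun (ha2 (g r)) s
        have h4 := congrFun (ha2 (f r)) s
        simp only [Pi.sub_apply, hev, hco, Finset.sum_apply, Pi.mul_apply] at h3 h4
        rw [← Equiv.sum_comp e] at h3 h4
        simp only [Matrix.mulVec, dotProduct, A, Matrix.map_apply, Matrix.of_apply, Pi.sub_apply,
          Pi.mul_apply, sub_mul (_ * _), Finset.sum_sub_distrib, mul_assoc, ← Finset.mul_sum,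
          Pi.zero_apply]
        rw [← h3, ← h4, ← hrel, map_mul, map_mul, AlgHom.commutes, AlgHom.commutes]
        ring
    simp only [Pi.mul_apply, hdet, h2, zero_mul]
  · simp

/-- The block identity: `J` is orthogonal to the rows of `Θ`. -/
theorem blk {R σ : Type} [CommRing R] [Fintype σ] {ρ n : ℕ} (e : Fin ρ ⊕ Fin n ≃ σ)
    (J : Fin ρ → σ → R) (P Θ : Fin n → σ → R) (h : ∀ r a, ∑ j, J r j * Θ a j = 0) :
    (Matrix.of fun r j => Sum.elim J P r (e j)).det *
        (Matrix.of fun a b => Θ a (e (.inr b))).det =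
      (Matrix.of fun r r' => J r (e (.inl r'))).det *
        (Matrix.of fun t a => ∑ j, P t j * Θ a j).det := by
  have h1 : (Matrix.of fun r j => Sum.elim J P r (e j)) *
      Matrix.fromBlocks 1 (Matrix.of fun r a => Θ a (e (.inl r))) 0
        (Matrix.of fun a b => Θ a (e (.inr b)))ᵀ =
      Matrix.fromBlocks (Matrix.of fun r r' => J r (e (.inl r'))) 0
        (Matrix.of fun t r' => P t (e (.inl r'))) (Matrix.of fun t a => ∑ j, P t j * Θ a j) := by
    ext r t
    rcases r with r | r <;> rcases t with t | t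
    · simp [Matrix.mul_apply, Matrix.one_apply]
    · have := h r t
      rw [← Equiv.sum_comp e] at this
      simpa [Matrix.mul_apply] using this
    · simp [Matrix.mul_apply, Matrix.one_apply]
    · simp only [Matrix.fromBlocks_apply₂₂, Matrix.of_apply]
      rw [← Equiv.sum_comp e]
      simp [Matrix.mul_apply]
  have h2 := congrArg Matrix.det h1
  rwa [Matrix.det_mul, Matrix.det_fromBlocks_zero₂₁, Matrix.det_fromBlocks_zero₁₂, Matrix.det_one,
    one_mul, Matrix.det_transpose] at h2

/-- A finite integral algebra is spanned by the monomials of bounded degree. -/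
theorem fg {k L τ : Type} [Field k] [Field L] [Algebra k L] [Finite τ] (A : Subalgebra k L)
    (u : τ → L) (hu : ∀ t, IsIntegral A (u t)) (U : Submodule k L) (h1 : (1 : L) ∈ U)
    (hU : ∀ t, u t ∈ U) : ∃ e₀ : ℕ, ∀ e, e₀ ≤ e → ∀ b ∈ Algebra.adjoin A (Set.range u),
      b ∈ Submodule.span A ((U ^ e : Submodule k L) : Set L) := by
  have mono : ∀ {i j : ℕ}, i ≤ j → Submodule.span A ((U ^ i : Submodule k L) : Set L) ≤
      Submodule.span A ((U ^ j : Submodule k L) : Set L) := fun {i j} hij => by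
    obtain ⟨l, rfl⟩ := Nat.exists_eq_add_of_le hij
    refine Submodule.span_mono fun x hx => ?_
    rw [pow_add]
    simpa using Submodule.mul_mem_mul hx (Submodule.pow_mem_pow U h1 l)
  have key : ∀ b ∈ Algebra.adjoin A (Set.range u),
      ∃ e, b ∈ Submodule.span A ((U ^ e : Submodule k L) : Set L) := fun b hb => by
    induction hb using Algebra.adjoin_induction with
    | mem z hz =>
      obtain ⟨t, rfl⟩ := hz
      exact ⟨1, Submodule.subset_span (by simpa using hU t)⟩
    | algebraMap a =>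
      refine ⟨0, ?_⟩
      rw [Algebra.algebraMap_eq_smul_one]
      exact Submodule.smul_mem _ _ (Submodule.subset_span (by simp))
    | add _ _ _ _ h h' =>
      obtain ⟨i, hi⟩ := h
      obtain ⟨j, hj⟩ := h'
      exact ⟨i + j, add_mem (mono (by omega) hi) (mono (by omega) hj)⟩
    | mul _ _ _ _ h h' =>
      obtain ⟨i, hi⟩ := h
      obtain ⟨j, hj⟩ := h'
      refine ⟨i + j, ?_⟩
      have h2 := Submodule.mul_mem_mul hi hj
      rw [Submodule.span_mul_span] at h2
      refine Submodule.span_mono ?_ h2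
      rintro _ ⟨a, ha, b, hb, rfl⟩
      rw [pow_add]
      exact Submodule.mul_mem_mul ha hb
  obtain ⟨s, hs⟩ := fg_adjoin_of_finite (R := A) (Set.finite_range u) (by
    rintro _ ⟨t, rfl⟩; exact hu t)
  have h2 : ∀ b ∈ s, ∃ e, b ∈ Submodule.span A ((U ^ e : Submodule k L) : Set L) :=
    fun b hb => key b (by
      have h : b ∈ Submodule.span A (s : Set L) := Submodule.subset_span hb
      rw [hs] at h
      exact h)
  choose! ee hee using h2
  refine ⟨s.sup ee, fun e he b hb => ?_⟩
  have h3 : b ∈ Submodule.span A (s : Set L) := by rw [hs]; exact hb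
  refine (Submodule.span_le.2 fun z hz => ?_ : Submodule.span A (s : Set L) ≤ _) h3
  exact mono (le_trans (Finset.le_sup (f := ee) hz) he) (hee z hz)

end Pool.Agent.Lib.A35.D34
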