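import Pool.Agent.Lib.A35.D34a
import Pool.Agent.Lib.UR.M_JAC
import Pool.Agent.Lib.UR.M_TAN
import Pool.Agent.Lib.UR.B_JSE
import Pool.Agent.Lib.MP_7fcda1_ag.Noe

/-! Duality for a finite projection of a smooth projective variety: the dual module for the trace,
multiplied by the Jacobian determinant, consists of regular canonical forms. -/

open MvPolynomial Set

noncomputable section

namespace Pool.Agent.Lib.A35.D34

open Pool.Agent.Lib.UR Pool.Agent.Lib.MP_7fcda1_ag

variable {L ι κ κ' : Type} [Field L] [Algebra ℂ L]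

/-- The local ring at the centre of `O` on the affine chart with coordinates `w`. -/
def lc (O : ValuationSubring L) (w : ι → L) : Subalgebra ℂ L where
  carrier := {a | ∃ P Q : MvPolynomial ι ℂ, O.valuation (aeval w Q) = 1 ∧
    aeval w Q * a = aeval w P}
  mul_mem' := by
    rintro a b ⟨P, Q, h1, h2⟩ ⟨P', Q', h3, h4⟩
    exact ⟨P * P', Q * Q', by rw [map_mul, map_mul, h1, h3, one_mul],
      by rw [map_mul, map_mul, ← h2, ← h4]; ring⟩
  add_mem' := by
    rintro a b ⟨P, Q, h1, h2⟩ ⟨P', Q', h3, h4⟩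
    exact ⟨P * Q' + P' * Q, Q * Q', by rw [map_mul, map_mul, h1, h3, one_mul],
      by rw [map_add, map_mul, map_mul, map_mul, ← h2, ← h4]; ring⟩
  algebraMap_mem' c := ⟨C c, 1, by simp, by simp⟩

section lc
variable {O : ValuationSubring L} {w : ι → L} {a : L}

theorem aeval_in (hO : ∀ c : ℂ, algebraMap ℂ L c ∈ O) (hw : ∀ j, w j ∈ O)
    (P : MvPolynomial ι ℂ) : aeval w P ∈ O := by
  induction P using MvPolynomial.induction_on with
  | C c => simpa using hO c
  | add f g hf hg => rw [map_add]; exact add_mem hf hg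
  | mul_X f i hf => rw [map_mul, aeval_X]; exact mul_mem hf (hw i)

theorem lc_aeval (P : MvPolynomial ι ℂ) : aeval w P ∈ lc O w := ⟨P, 1, by simp, by simp⟩

theorem lc_self (j : ι) : w j ∈ lc O w := by simpa using lc_aeval (O := O) (w := w) (X j)

theorem lc_le (hO : ∀ c : ℂ, algebraMap ℂ L c ∈ O) (hw : ∀ j, w j ∈ O) (ha : a ∈ lc O w) :
    a ∈ O := by
  obtain ⟨P, Q, h1, h2⟩ := ha
  have h3 := (O.valuation_le_one_iff _).2 (aeval_in hO hw P)
  rwa [← h2, map_mul, h1, one_mul, O.valuation_le_one_iff] at h3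

theorem lc_inv (ha : a ∈ lc O w) (h : O.valuation a = 1) : a⁻¹ ∈ lc O w := by
  obtain ⟨P, Q, h1, h2⟩ := ha
  have h0 : a ≠ 0 := fun h0 => by simp [h0] at h
  exact ⟨Q, P, by rw [← h2, map_mul, h1, h, one_mul], by rw [← h2, mul_inv_cancel_right₀ h0]⟩

end lc

/-- The family `r` is locally principal on the projective variety with coordinates `y`. -/
def FreeV (y : ι → L) (r : κ → L) : Prop :=
  ∀ O : ValuationSubring L, (∀ c : ℂ, algebraMap ℂ L c ∈ O) → ∀ i, (∀ j, y j / y i ∈ O) →
    ∃ s, r s ≠ 0 ∧ ∀ t, r t / r s ∈ lc O fun j => y j / y i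

theorem FreeV.mul {y : ι → L} {r : κ → L} {r' : κ' → L} (h : FreeV y r) (h' : FreeV y r') :
    FreeV y fun p : κ × κ' => r p.1 * r' p.2 := fun O hO i hi => by
  obtain ⟨s, h1, h2⟩ := h O hO i hi
  obtain ⟨s', h3, h4⟩ := h' O hO i hi
  exact ⟨(s, s'), mul_ne_zero h1 h3, fun t => by
    rw [mul_div_mul_comm]; exact mul_mem (h2 _) (h4 _)⟩

theorem FreeV.smul {y : ι → L} {r : κ → L} (h : FreeV y r) {l : L} (hl : l ≠ 0) :
    FreeV y fun t => l * r t := fun O hO i hi => by
  obtain ⟨s, h1, h2⟩ := h O hO i hi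
  exact ⟨s, mul_ne_zero hl h1, fun t => by rw [mul_div_mul_left _ _ hl]; exact h2 t⟩

theorem exists_equiv {σ : Type} [Fintype σ] {ρ m : ℕ} {S : Fin ρ → σ} (hS : Function.Injective S)
    (h : Fintype.card σ = ρ + m) : ∃ e : Fin ρ ⊕ Fin m ≃ σ, ∀ r, e (.inl r) = S r := by
  classical
  have h1 : Fintype.card ↥(range S)ᶜ = m := by
    rw [Fintype.card_compl_set, card_range_of_injective hS, Fintype.card_fin]
    omega
  exact ⟨((Equiv.ofInjective S hS).sumCongr (Fintype.equivFinOfCardEq h1).symm).trans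
    (Equiv.Set.sumCompl (range S)), fun r => rfl⟩

variable {N n : ℕ} {y : Fin (N + 1) → L}

/-- Equations with a unit minor at the centre of a valuation ring. -/
theorem jacO (hs : GD.SmoothModel y) (ht : Algebra.trdeg ℂ L = n) (hn : n ≤ N)
    (O : ValuationSubring L) (hO : ∀ c : ℂ, algebraMap ℂ L c ∈ O) (i : Fin (N + 1))
    (hi : ∀ j, y j / y i ∈ O) : ∃ (ρ : ℕ) (e : Fin ρ ⊕ Fin (n + 1) ≃ Fin (N + 1))
      (F : Fin ρ → MvPolynomial (Fin (N + 1)) ℂ), (∀ r, aeval (fun j => y j / y i) (F r) = 0) ∧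
      (∀ (d : Fin n → Derivation ℂ L L) r a, ∑ j, aeval (fun j => y j / y i) (pderiv j (F r)) *
        (Fin.cons (fun j => y j / y i) fun a j => d a (y j / y i) :
          Fin (n + 1) → Fin (N + 1) → L) a j = 0) ∧
      O.valuation (Matrix.of fun r r' =>
        aeval (fun j => y j / y i) (pderiv (e (.inl r')) (F r))).det = 1 := by
  obtain ⟨δ, Λ, _, G, hG⟩ := exists_eqs (k := ℂ) y
  obtain ⟨ρ, rfl⟩ := Nat.exists_eq_add_of_le' hn
  obtain ⟨P, hPV, hP⟩ := exists_plc_residue O (RingHom.id _)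
  let φ₀ : ℂ →+* O := (algebraMap ℂ L).codRestrict O.toSubring hO
  let φ : ℂ →+* IsLocalRing.ResidueField O := (IsLocalRing.residue O).comp φ₀
  let _ : Algebra ℂ (IsLocalRing.ResidueField O) := φ.toAlgebra
  have h2 : ∀ g : MvPolynomial (Fin (ρ + n + 1)) ℂ,
      P.To (eval₂ (algebraMap ℂ L) (fun j => y j / y i) g)
        (eval₂ φ (fun j => IsLocalRing.residue O ⟨_, hi j⟩) g) :=
    M.to_eval₂ (fun c => hP (φ₀ c)) fun j => hP ⟨_, hi j⟩
  obtain ⟨S, hS⟩ := M.st_jac L Λ _ n ρ δ y G hs ht rfl hG i (IsLocalRing.ResidueField O)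
    (fun j => IsLocalRing.residue O ⟨_, hi j⟩) fun g hg => by
      have h3 := h2 g
      rw [← aeval_def, hg] at h3
      exact h3.unique Plc.to_zero
  obtain ⟨I, hI⟩ := Function.ne_iff.1 hS
  have h4 := (h2 (M.amin G S I)).val_eq_one_iff.2 hI
  rw [hPV] at h4
  have h5 : eval₂ (algebraMap ℂ L) (fun j => y j / y i) (M.amin G S I) = (Matrix.of fun r' r =>
      aeval (fun j => y j / y i) (pderiv (S r') (G (I r)))).det :=
    congrFun (M.atup_eq G S (algebraMap ℂ L) fun j => y j / y i) I
  rw [h5] at h4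
  have hinj : Function.Injective S := fun a b hab => by
    by_contra hne
    rw [Matrix.det_zero_of_row_eq hne (funext fun r => by simp [hab]), map_zero] at h4
    exact zero_ne_one h4
  obtain ⟨e, he⟩ := exists_equiv (m := n + 1) hinj (by rw [Fintype.card_fin]; omega)
  have hGy : ∀ l, aeval (fun j => y j / y i) (G l) = 0 := fun l => by
    have := Def1.aeval_hom (hG.hom l) (y i)⁻¹ y
    simp only [hG.zero, mul_zero] at this
    simpa only [div_eq_inv_mul] using this
  refine ⟨ρ, e, fun r => G (I r), fun r => hGy _, fun d r a => ?_, ?_⟩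
  · refine Fin.cases ?_ (fun b => ?_) a
    · simpa using Def1.euler (hG.hom (I r)) (hGy _)
    · have := Def1.der_aeval (d b) (fun j => y j / y i) (G (I r))
      rw [hGy, map_zero] at this
      simpa using this.symm
  · rw [← Matrix.det_transpose] at h4
    simp only [he]
    exact h4

theorem le_of_gauss {d : Fin n → Derivation ℂ L L} (hG : gaussT d y ≠ 0) : n ≤ N := by
  have := (pl_ne_zero_iff.1 hG).fintype_card_le_finrank
  simp only [Fintype.card_fin, Module.finrank_fintype_fun_eq_card] at this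
  omega

/-- The Gauss map of a smooth variety is a morphism. -/
theorem free_gauss (hs : GD.SmoothModel y) (ht : Algebra.trdeg ℂ L = n)
    {d : Fin n → Derivation ℂ L L} (hG : gaussT d y ≠ 0) : FreeV y (gaussT d y) := by
  intro O hO i hi
  obtain ⟨ρ, e, F, -, h2, h3⟩ := jacO hs ht (le_of_gauss hG) O hO i hi
  have hy := (hs i).1
  have key : ∀ S, ∃ c ∈ lc O fun j => y j / y i,
      gaussT d y S = c * gaussT d y fun b => e (.inr b) := fun S => by
    have h4 := blk e _ (fun t j => if j = S t then 1 else 0) _ (h2 d)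
    simp only [ite_mul, one_mul, zero_mul, Finset.sum_ite_eq', Finset.mem_univ, if_true] at h4
    rw [← Matrix.det_transpose (Matrix.of fun t a => (Fin.cons (fun j => y j / y i)
      fun a j => d a (y j / y i) : Fin (n + 1) → Fin (N + 1) → L) a (S t))] at h4
    change _ * gaussT d (fun j => y j / y i) (fun b => e (.inr b)) =
      _ * gaussT d (fun j => y j / y i) S at h4
    rw [← JSE.gauss_div d y hy, ← JSE.gauss_div d y hy, ← mul_div_assoc, ← mul_div_assoc,
      div_left_inj' (pow_ne_zero _ hy)] at h4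
    refine ⟨_ * _, mul_mem (lc_inv (det_mem _ fun _ _ => by exact lc_aeval _) h3)
      (det_mem (M := Matrix.of fun r j => Sum.elim (fun r j => aeval (fun j => y j / y i)
        (pderiv j (F r))) (fun t j => if j = S t then 1 else 0) r (e j)) _ fun r j => ?_), ?_⟩
    · rcases r with r | r
      · exact lc_aeval _
      · simp only [Matrix.of_apply, Sum.elim_inr]
        split_ifs
        exacts [one_mem _, zero_mem _]
    · rw [mul_assoc, h4, inv_mul_cancel_left₀ fun h0 => zero_ne_one (by rwa [h0, map_zero] at h3)]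
  have h0 : (gaussT d y fun b => e (.inr b)) ≠ 0 := fun h0 => hG (funext fun S => by
    obtain ⟨c, -, hc⟩ := key S
    rw [hc, h0, mul_zero, Pi.zero_apply])
  refine ⟨_, h0, fun S => ?_⟩
  obtain ⟨c, hc, h4⟩ := key S
  rwa [h4, mul_div_cancel_right₀ _ h0]

theorem det_row {R : Type} [CommRing R] (X : Matrix (Fin (n + 1)) (Fin (n + 1)) R)
    (l : Fin (n + 1)) (h1 : X l 0 = 1) (h0 : ∀ b, X l (Fin.succ b) = 0) :
    X.det = (-1) ^ (l : ℕ) * (Matrix.of fun c b => X (l.succAbove c) (Fin.succ b)).det := by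
  rw [Matrix.det_succ_row X l, Fin.sum_univ_succ]
  simp only [h0, h1, mul_zero, zero_mul, Finset.sum_const_zero, add_zero, mul_one, Fin.val_zero,
    Fin.succAbove_zero]
  rfl

variable {K : Type} [Field K] [Algebra ℂ K] [Algebra K L] [IsScalarTower ℂ K L]

theorem gen_chart (hs : GD.SmoothModel y) (i : Fin (N + 1)) :
    IntermediateField.adjoin K (range fun j => y j / y i) = ⊤ := by
  have := (hs i).2.1
  have h1 : GD.chart y i ≤ (IntermediateField.adjoin K
      (range fun j => y j / y i)).toSubalgebra.restrictScalars ℂ :=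
    Algebra.adjoin_le (IntermediateField.subset_adjoin K _)
  refine eq_top_iff.2 fun x _ => ?_
  obtain ⟨a, b, -, rfl⟩ := IsFractionRing.div_surjective (A := GD.chart y i) x
  exact div_mem (h1 a.2) (h1 b.2)

variable [FiniteDimensional K L]

/-- The local statement. -/
theorem core (hs : GD.SmoothModel y) (ht : Algebra.trdeg ℂ L = n) (hn : n ≤ N)
    (d : Fin n → Derivation ℂ L L) (O : ValuationSubring L) (hO : ∀ c : ℂ, algebraMap ℂ L c ∈ O)
    (i : Fin (N + 1)) (hi : ∀ j, y j / y i ∈ O) (z : Fin (n + 1) → K) (l : Fin (n + 1))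
    (hz : z l = 1) (hzl : ∀ c, algebraMap K L (z c) ∈ lc O fun j => y j / y i) (B : Subring L)
    {ε : L} (hε : O.valuation ε = 1) (hB : ε ∈ B) (hBw : ∀ j, ε * (y j / y i) ∈ B) {x : L}
    (hx : ∀ b ∈ B, algebraMap K L (Algebra.trace K L (x * b)) ∈ O) :
    ∃ S, O.valuation (x * gaussT d (fun c => algebraMap K L (z c)) id) ≤
      O.valuation (gaussT d (fun j => y j / y i) S) := by
  have : CharZero K := charZero_of_injective_algebraMap (algebraMap ℂ K).injective
  obtain ⟨ρ, e, F, h1, h2, h3⟩ := jacO hs ht hn O hO i hi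
  have hy := (hs i).1
  set w : Fin (N + 1) → L := fun j => y j / y i with hw
  have hwi : w i = 1 := div_self hy
  have hPQ : ∀ c, ∃ P Q : MvPolynomial (Fin (N + 1)) ℂ, O.valuation (aeval w Q) = 1 ∧
      aeval w Q * algebraMap K L (z c) = aeval w P ∧ (c = l → P = 1 ∧ Q = X i) := fun c => by
    by_cases hc : c = l
    · exact ⟨1, X i, by simp [hwi], by simp [hwi, hc, hz], fun _ => ⟨rfl, rfl⟩⟩
    · obtain ⟨P, Q, h4, h5⟩ := hzl c
      exact ⟨P, Q, h4, h5, fun h => absurd h hc⟩
  choose P Q hQ hP hl using hPQ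
  have h4 := nd e O hO B hε hB (gen_chart hs i) hi hBw hx (Sum.elim (fun _ => 0) P) (Sum.elim F Q)
    (Sum.elim (fun _ => 1) z)
    (by rintro (r | r)
        · simp
        · exact lc_le hO hi (hzl r))
    (by rintro (r | r)
        · simpa using h1 r
        · simpa [mul_comm] using hP r)
  have h5 := blk e _ (fun c j => algebraMap K L (z c) * aeval w (pderiv j (Q c)) -
    aeval w (pderiv j (P c))) _ (h2 d)
  have h6 : (Matrix.of fun r j => algebraMap K L (Sum.elim (fun _ => 1) z r) *
      aeval w (pderiv (e j) (Sum.elim F Q r)) - aeval w (pderiv (e j)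
        (Sum.elim (fun _ => 0) P r))) = Matrix.of fun r j => Sum.elim
      (fun r j => aeval w (pderiv j (F r))) (fun c j => algebraMap K L (z c) *
        aeval w (pderiv j (Q c)) - aeval w (pderiv j (P c))) r (e j) := by
    ext r j
    rcases r with r | r <;> simp
  erw [h6] at h4
  have h7 : ∀ c b, ∑ j, (algebraMap K L (z c) * aeval w (pderiv j (Q c)) -
      aeval w (pderiv j (P c))) * d b (w j) = -aeval w (Q c) * d b (algebraMap K L (z c)) := by
    intro c b
    simp only [sub_mul, Finset.sum_sub_distrib, mul_assoc, ← Finset.mul_sum, ← Def1.der_aeval]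
    rw [← hP, Derivation.leibniz, smul_eq_mul, smul_eq_mul]
    ring
  have h8 : gaussT d (fun c => algebraMap K L (z c)) id = (-1) ^ (l : ℕ) *
      (Matrix.of fun c b => d b (algebraMap K L (z (l.succAbove c)))).det := by
    rw [gaussT, pl, ← Matrix.det_transpose, det_row _ l (by simp [hz]) (fun b => by simp [hz])]
    rfl
  have hX : (Matrix.of fun t a => ∑ j, (algebraMap K L (z t) * aeval w (pderiv j (Q t)) -
      aeval w (pderiv j (P t))) * (Fin.cons w fun a j => d a (w j) :
        Fin (n + 1) → Fin (N + 1) → L) a j).det =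
      (∏ c, -aeval w (Q (l.succAbove c))) * gaussT d (fun c => algebraMap K L (z c)) id := by
    rw [det_row _ l (by simp [hl l rfl, hz, Pi.single_apply, hwi]) (fun b => by
      simp only [Matrix.of_apply, Fin.cons_succ]
      rw [h7, hz, map_one, Derivation.map_one_eq_zero, mul_zero]), h8, mul_left_comm,
      ← Matrix.det_mul_column]
    simp only [Matrix.of_apply, Fin.cons_succ, h7]
  refine ⟨fun b => e (.inr b), ?_⟩
  have h9 := congrArg O.valuation (h5.trans (congrArg (_ * ·) hX))
  have h10 : O.valuation (∏ c, -aeval w (Q (l.succAbove c))) = 1 := by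
    rw [map_prod]
    exact Finset.prod_eq_one fun c _ => by rw [Valuation.map_neg, hQ]
  rw [map_mul, map_mul, h3, one_mul, map_mul, h10, one_mul] at h9
  rw [map_mul, ← h9, ← mul_assoc, ← map_mul]
  exact mul_le_of_le_one_left' ((O.valuation_le_one_iff _).2 h4)

theorem isIntegral_of_val (A : Subalgebra ℂ L) {a : L}
    (h : ∀ O : ValuationSubring L, (∀ b ∈ A, b ∈ O) → a ∈ O) : IsIntegral A a := by
  have h1 : a ∈ (integralClosure (Subring.closure (A : Set L)) L).toSubring := by
    rw [← iInf_valuationSubring_superset, Subring.mem_iInf]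
    exact fun V => h V.1 fun c hc => V.2 hc
  have h2 : Subring.closure (A : Set L) = A.toSubring := Subring.closure_eq A.toSubring
  rw [h2] at h1
  exact h1

omit [Algebra ℂ L] in
theorem exists_dom {τ : Type} [Finite τ] [Nonempty τ] (O : ValuationSubring L) (w : τ → L) :
    ∃ i, (∀ j, O.valuation (w j) ≤ O.valuation (w i)) ∧ ∀ j, w j / w i ∈ O := by
  obtain ⟨i, hi⟩ := Finite.exists_max fun j => O.valuation (w j)
  exact ⟨i, hi, fun j => noe_div_mem O (hi j)⟩

/-- Duality. `V` is the product of a free system with the hyperplane system, `z` is a finite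
projection by members of `V`. -/
theorem dualG [Finite κ] (hs : GD.SmoothModel y) (ht : Algebra.trdeg ℂ L = n) (hn : n ≤ N)
    (d : Fin n → Derivation ℂ L L) {r : κ → L} (hr : FreeV y r) (z : Fin (n + 1) → K) (hz : z 0 = 1)
    (V : Submodule ℂ L) (hV : V = Submodule.span ℂ (range r) * Submodule.span ℂ (range y))
    (hzV : ∀ c, algebraMap K L (z c) ∈ V) (hVz : V ≤ cl (sys ℂ fun c => algebraMap K L (z c))) :
    ∃ e₀ : ℕ, ∀ e, e₀ ≤ e → ∀ a m : ℕ, a + (n + 1) = e + m → ∀ x : L,
      (∀ β ∈ V ^ e, algebraMap K L (Algebra.trace K L (x * β)) ∈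
        cl (sys ℂ (fun c => algebraMap K L (z c)) ^ a)) →
      x * gaussT d (fun c => algebraMap K L (z c)) id ∈
        cl (V ^ m * Submodule.span ℂ (range (gaussT d y))) / Submodule.span ℂ (range y) ^ (n + 1) := by
  set Z : Fin (n + 1) → L := fun c => algebraMap K L (z c) with hZ
  have hry : ∀ s j, r s * y j ∈ V := fun s j => hV ▸ Submodule.mul_mem_mul
    (Submodule.subset_span ⟨s, rfl⟩) (Submodule.subset_span ⟨j, rfl⟩)
  have hball : ∀ (O : ValuationSubring L) (hO : ∀ c : ℂ, algebraMap ℂ L c ∈ O) l,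
      (∀ c, O.valuation (Z c) ≤ O.valuation (Z l)) → sys ℂ Z ≤ ball O hO (O.valuation (Z l)) :=
    fun O hO l h => sys_le (mem_ball.2 (by simpa [hZ, hz] using h 0)) h
  have hfg := fun l => fg (Algebra.adjoin ℂ (range fun c => Z c / Z l))
    (fun p : κ × Fin (N + 1) => r p.1 * y p.2 / Z l) (fun p => isIntegral_of_val _ fun O hO => by
      by_cases h0 : Z l = 0
      · rw [h0, div_zero]; exact zero_mem _
      refine noe_div_mem O (cl_le_ball (hball O (fun c => hO _ (Subalgebra.algebraMap_mem _ c)) l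
        fun c => ?_) (hVz (hry _ _)))
      have h1 := (O.valuation_le_one_iff _).2 (hO _ (Algebra.subset_adjoin ⟨c, rfl⟩))
      rwa [map_div₀, div_le_one₀ (zero_lt_iff.2 ((map_ne_zero _).2 h0))] at h1)
    (sys ℂ fun p : κ × Fin (N + 1) => r p.1 * y p.2 / Z l) (one_mem_sys _) (mem_sys _)
  choose ee hee using hfg
  refine ⟨Finset.univ.sup ee, fun e he a m ham x hx =>
    Submodule.mem_div_iff_forall_mul_mem.2 fun h hh O hO => ?_⟩
  obtain ⟨i, hi, hi'⟩ := exists_dom O y
  obtain ⟨l, hl, hl'⟩ := exists_dom O Z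
  obtain ⟨s, hs0, hs1⟩ := hr O hO i hi'
  have hy := (hs i).1
  have hl0 : Z l ≠ 0 := fun h0 => by
    have h1 := hl 0
    rw [h0] at h1
    simp [hZ, hz] at h1
  have hg : r s * y i ≠ 0 := mul_ne_zero hs0 hy
  have h1 : ∀ β ∈ V, β / (r s * y i) ∈ lc O fun j => y j / y i := fun β hβ => by
    have h2 : V ≤ (Subalgebra.toSubmodule (lc O fun j => y j / y i)).comap
        (LinearMap.mulRight ℂ (r s * y i)⁻¹) := by
      rw [hV, Submodule.span_mul_span, Submodule.span_le]
      rintro _ ⟨_, ⟨t, rfl⟩, _, ⟨j, rfl⟩, rfl⟩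
      change r t * y j * (r s * y i)⁻¹ ∈ lc O fun j => y j / y i
      rw [← div_eq_mul_inv, mul_div_mul_comm]
      exact mul_mem (hs1 t) (lc_self j)
    rw [div_eq_mul_inv]
    exact h2 hβ
  have h2 : O.valuation (Z l / (r s * y i)) = 1 := by
    have h3 := (O.valuation_le_one_iff _).2 (lc_le hO hi' (h1 _ (hzV l)))
    have h4 := mem_ball.1 (cl_le_ball (hball O hO l hl) (hVz (hry s i)))
    refine le_antisymm h3 ?_
    rwa [map_div₀, one_le_div₀ (zero_lt_iff.2 ((map_ne_zero _).2 hg))]
  have hzl : z l ≠ 0 := fun h0 => hl0 (by simp [hZ, h0])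
  obtain ⟨S, hS⟩ := core hs ht hn d O hO i hi' (fun c => z c / z l) l (div_self hzl)
    (fun c => by
      have h3 := mul_mem (h1 _ (hzV c)) (lc_inv (h1 _ (hzV l)) h2)
      rwa [← div_eq_mul_inv, div_div_div_cancel_right₀ hg, ← map_div₀] at h3)
    (Algebra.adjoin (Algebra.adjoin ℂ (range fun c => Z c / Z l))
      (range fun p : κ × Fin (N + 1) => r p.1 * y p.2 / Z l)).toSubring
    (ε := r s * y i / Z l) (by rw [← inv_div, map_inv₀, h2, inv_one])
    (Algebra.subset_adjoin ⟨(s, i), rfl⟩)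
    (fun j => Algebra.subset_adjoin ⟨(s, j), by field_simp⟩) (x := x * Z l ^ e / Z l ^ a)
    (fun b hb => by
      have h3 := hee l e (le_trans (Finset.le_sup (Finset.mem_univ l)) he) b hb
      clear hb
      induction h3 using Submodule.span_induction with
      | mem β hβ =>
        have h4 : Submodule.span ℂ {Z l} * sys ℂ (fun p : κ × Fin (N + 1) =>
            r p.1 * y p.2 / Z l) ≤ V := by
          rw [sys, Submodule.span_mul_span, Submodule.span_le]
          rintro _ ⟨_, rfl, _, rfl | ⟨p, rfl⟩, rfl⟩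
          · simpa using hzV l
          · simpa [mul_div_cancel₀ _ hl0] using hry p.1 p.2
        have h5 : Z l ^ e * β ∈ V ^ e := pow_le_pow_left' h4 e (by
          rw [mul_pow]
          exact Submodule.mul_mem_mul (Submodule.pow_mem_pow _
            (Submodule.mem_span_singleton_self _) e) hβ)
        have h6 := mem_ball.1 (cl_le_ball (ball_pow (hball O hO l hl) a) (hx _ h5))
        have h7 : x * Z l ^ e / Z l ^ a * β = (z l ^ a)⁻¹ • (x * (Z l ^ e * β)) := by
          rw [Algebra.smul_def, map_inv₀, map_pow]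
          ring
        rw [h7, map_smul, smul_eq_mul, map_mul, map_inv₀, map_pow, ← div_eq_inv_mul]
        exact noe_div_mem O (by rwa [map_pow])
      | zero => simp
      | add _ _ _ _ h h' => rw [mul_add, map_add, map_add]; exact add_mem h h'
      | smul c β _ h =>
        have h4 : (c : L) ∈ O ∧ ∃ k : K, algebraMap K L k = c := by
          obtain ⟨c, hc⟩ := c
          induction hc using Algebra.adjoin_induction with
          | mem _ h => obtain ⟨c, rfl⟩ := h; exact ⟨hl' c, z c / z l, map_div₀ _ _ _⟩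
          | algebraMap c => exact ⟨hO c, _, (IsScalarTower.algebraMap_apply ℂ K L c).symm⟩
          | add _ _ _ _ h h' =>
            obtain ⟨h, k, rfl⟩ := h
            obtain ⟨h', k', rfl⟩ := h'
            exact ⟨add_mem h h', k + k', map_add _ _ _⟩
          | mul _ _ _ _ h h' =>
            obtain ⟨h, k, rfl⟩ := h
            obtain ⟨h', k', rfl⟩ := h'
            exact ⟨mul_mem h h', k * k', map_mul _ _ _⟩
        obtain ⟨h4, k, hk⟩ := h4
        have h5 : x * Z l ^ e / Z l ^ a * c • β = k • (x * Z l ^ e / Z l ^ a * β) := by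
          rw [Algebra.smul_def k, hk, Subalgebra.smul_def, smul_eq_mul]
          ring
        rw [h5, map_smul, smul_eq_mul, map_mul, hk]
        exact mul_mem h4 h)
  simp only [map_div₀ (algebraMap K L)] at hS
  rw [← JSE.gauss_div d y hy, ← JSE.gauss_div d Z hl0] at hS
  refine ⟨Z l ^ m * gaussT d y S, Submodule.mul_mem_mul (Submodule.pow_mem_pow _ (hzV l) m)
    (Submodule.subset_span ⟨S, rfl⟩), ?_⟩
  have h3 : O.valuation h ≤ O.valuation (y i) ^ (n + 1) :=
    ball_pow (hO := hO) (Submodule.span_le.2 (range_subset_iff.2 hi)) (n + 1) hh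
  have h4 : x * gaussT d Z id * h =
      x * Z l ^ e / Z l ^ a * (gaussT d Z id / Z l ^ (n + 1)) * Z l ^ m * h := by
    have h5 : Z l ^ a * Z l ^ (n + 1) = Z l ^ e * Z l ^ m := by rw [← pow_add, ← pow_add, ham]
    field_simp
    linear_combination x * gaussT d Z id * h * h5
  have h5 : Z l ^ m * gaussT d y S = gaussT d y S / y i ^ (n + 1) * Z l ^ m * y i ^ (n + 1) := by
    field_simp
  rw [h4, h5, map_mul _ _ h, map_mul _ _ (Z l ^ m), map_mul _ _ (y i ^ (n + 1)),
    map_mul _ _ (Z l ^ m), map_pow _ (y i)]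
  exact mul_le_mul' (mul_le_mul' hS le_rfl) h3

end Pool.Agent.Lib.A35.D34
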