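import Pool.Agent.Lib.A35.Det

/-! DET and EMB at the level of a local ring `R` with an ideal `p`, a coefficient field
`lam : k →+* R ⧸ p` and derivations over `ℤ`. -/

namespace Pool.Agent.Lib.A35.T

variable {k R K J : Type} [Field k] [CommRing R] [Field K] [Algebra k K] [Fintype J]
  [DecidableEq J]

/-- Hypotheses of DET on `R ⧸ p` over the field `lam k`, stated in `R`. -/
structure DetQ (ρ : R →+* K) (p : Ideal R) (lam : k →+* R ⧸ p) (d : J → Derivation ℤ R R)
    (t : J → R) : Prop where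
  surj : Function.Surjective ρ
  compat : ∀ a c, Ideal.Quotient.mk p a = lam c → ρ a = algebraMap k K c
  kill : ∀ j a c, Ideal.Quotient.mk p a = lam c → d j a ∈ p
  dual : ∀ i j, ρ (d i (t j)) = if i = j then 1 else 0
  uniq : ∀ (M : Type) [AddCommGroup M] [Module R M] (D : Derivation ℤ R M),
    (∀ a c, Ideal.Quotient.mk p a = lam c → D a = 0) → (∀ j, D (t j) = 0) → D = 0

namespace DetQ

variable {ρ : R →+* K} {p : Ideal R} {lam : k →+* R ⧸ p} {d : J → Derivation ℤ R R} {t : J → R}

omit [Fintype J] in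
theorem le (H : DetQ ρ p lam d t) : p ≤ RingHom.ker ρ := fun a ha => by
  have := H.compat a 0 (by rw [map_zero, Ideal.Quotient.eq_zero_iff_mem.2 ha])
  rwa [map_zero] at this

omit [Fintype J] in
theorem pres (H : DetQ ρ p lam d t) (j : J) (a : R) (ha : a ∈ p) : d j a ∈ p :=
  H.kill j a 0 (by rw [map_zero, Ideal.Quotient.eq_zero_iff_mem.2 ha])

variable [CharZero k] [IsLocalRing R] [IsNoetherianRing R]

theorem exists_tay (H : DetQ ρ p lam d t) : ∃ (c : ℕ) (η : Fin c → R) (r : Fin c → J → R),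
      Tay (RingHom.ker ρ) p η (fun i => ∑ j, r i j • d j) ∧ c ≤ Fintype.card J ∧
      ∀ (n : ℕ) (x : Fin n → K), Algebra.IsAlgebraic (Algebra.adjoin k (Set.range x)) K →
        Fintype.card J ≤ c + n := by
  let _ : Algebra k (R ⧸ p) := lam.toAlgebra
  have hal : ∀ c, algebraMap k (R ⧸ p) c = lam c := fun _ => rfl
  have hp : p ≠ ⊤ := fun e => RingHom.ker_ne_top ρ (top_le_iff.1 (e ▸ H.le))
  have : Nontrivial (R ⧸ p) := Ideal.Quotient.nontrivial_iff.2 hp
  have : IsLocalRing (R ⧸ p) := IsLocalRing.of_surjective' _ Ideal.Quotient.mk_surjective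
  choose lf hlf using Ideal.Quotient.mk_surjective (I := p)
  let ρ' : (R ⧸ p) →ₐ[k] K :=
    { Ideal.Quotient.lift p ρ H.le with
      commutes' := fun c => by
        rw [hal, ← hlf (lam c)]
        exact H.compat _ c (hlf _) }
  have hρ : ∀ a, ρ' (Ideal.Quotient.mk p a) = ρ a := fun a => rfl
  let d0 : J → Derivation ℤ (R ⧸ p) (R ⧸ p) := fun j =>
    Derivation.liftOfSurjective (f := Ideal.Quotient.mkₐ ℤ p) Ideal.Quotient.mk_surjective
      (d := d j) fun x hx =>
        Ideal.Quotient.eq_zero_iff_mem.2 (H.pres j x (Ideal.Quotient.eq_zero_iff_mem.1 hx))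
  have hd0 : ∀ j a, d0 j (Ideal.Quotient.mk p a) = Ideal.Quotient.mk p (d j a) := fun j a =>
    Derivation.liftOfSurjective_apply (f := Ideal.Quotient.mkₐ ℤ p) _ _ a
  have hk0 : ∀ j c, d0 j (lam c) = 0 := fun j c => by
    rw [← hlf (lam c), hd0, Ideal.Quotient.eq_zero_iff_mem]
    exact H.kill j _ c (hlf _)
  let d' : J → Derivation k (R ⧸ p) (R ⧸ p) := fun j => Derivation.mk'
    { toFun := d0 j
      map_add' := map_add _
      map_smul' := fun c x => by
        rw [RingHom.id_apply, Algebra.smul_def, Algebra.smul_def, hal, Derivation.leibniz, hk0,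
          smul_zero, add_zero, smul_eq_mul] } fun a b => (d0 j).leibniz a b
  have hd' : ∀ j a, d' j (Ideal.Quotient.mk p a) = Ideal.Quotient.mk p (d j a) := hd0
  have H' : Det ρ' d' fun j => Ideal.Quotient.mk p (t j) := by
    refine ⟨fun y => ?_, fun i j => by rw [hd', hρ, H.dual], fun D hD => ?_⟩
    · obtain ⟨a, rfl⟩ := H.surj y
      exact ⟨_, hρ a⟩
    · let D' : Derivation ℤ R ((R ⧸ p) ⧸ RingHom.ker ρ' ^ 2) := Derivation.mk'
        (AddMonoidHom.toIntLinearMap
          { toFun := fun a => D (Ideal.Quotient.mk p a)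
            map_zero' := by simp
            map_add' := fun a b => by simp }) fun a b => by
          change D (Ideal.Quotient.mk p (a * b)) = a • D (Ideal.Quotient.mk p b)
            + b • D (Ideal.Quotient.mk p a)
          rw [map_mul, D.leibniz, ← algebraMap_smul (R ⧸ p) a, ← algebraMap_smul (R ⧸ p) b]
          rfl
      have h0 := H.uniq _ D' (fun a c hac => by
        change D (Ideal.Quotient.mk p a) = 0
        rw [hac, ← hal, D.map_algebraMap]) hD
      ext y
      rw [← hlf y]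
      exact congrArg (fun E : Derivation ℤ R _ => E (lf y)) h0
  obtain ⟨c, η, r, T, hc, hn⟩ := H'.exists_tay
  have hmax : RingHom.ker ρ = IsLocalRing.maximalIdeal R :=
    IsLocalRing.eq_maximalIdeal (RingHom.ker_isMaximal_of_surjective ρ H.surj)
  refine ⟨c, fun i => lf (η i), fun i j => lf (r i j), ⟨fun n => ?_, ?_, fun i x hx => ?_,
    fun i l => ?_⟩, hc, hn⟩
  · have : CharZero K := charZero_of_injective_algebraMap (algebraMap k K).injective
    rw [← IsLocalRing.notMem_maximalIdeal, ← hmax, RingHom.mem_ker]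
    simpa using Nat.cast_add_one_ne_zero (R := K) n
  · have h1 : Ideal.span (Set.range η)
        = (Ideal.span (Set.range fun i => lf (η i))).map (Ideal.Quotient.mk p) := by
      rw [Ideal.map_span, ← Set.range_comp]
      congr 2
      funext i
      exact (hlf _).symm
    have h2 := congrArg (Ideal.comap (Ideal.Quotient.mk p)) T.eq
    rw [sup_bot_eq, h1, Ideal.comap_map_quotientMk, sup_comm] at h2
    exact h2
  · rw [sum_smul_apply]
    exact sum_mem fun j _ => Ideal.mul_mem_left _ _ (H.pres j x hx)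
  · have h1 := T.dual i l
    rw [RingHom.mem_ker, map_sub, sum_smul_apply, map_sum] at h1 ⊢
    have h2 : ∀ j, ρ (lf (r i j) * d j (lf (η l))) = ρ' (r i j * d' j (η l)) := fun j => by
      rw [← hρ, map_mul, ← hd', hlf, hlf]
    simp only [h2]
    rw [← h1]
    congr 1
    split_ifs <;> simp

/-- DET with TAY (b). -/
theorem mem_pow (H : DetQ ρ p lam d t) (s : ℕ) {f : R}
    (h : ∀ l : List J, l.length < s → ρ (wd d l f) = 0) : f ∈ RingHom.ker ρ ^ s ⊔ p := by
  obtain ⟨c, η, r, T, -, -⟩ := H.exists_tay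
  refine T.mem_pow s fun l hl => ?_
  refine (show wdI d f l.length ≤ RingHom.ker ρ from Ideal.span_le.2 ?_) (wd_comb_mem d r f l)
  rintro _ ⟨l', hl', rfl⟩
  exact h l' (by omega)

theorem mem_succ (H : DetQ ρ p lam d t) (s : ℕ) {f : R} (hf : f ∈ RingHom.ker ρ ^ s ⊔ p)
    (h : ∀ l : List J, l.length = s → ρ (wd d l f) = 0) : f ∈ RingHom.ker ρ ^ (s + 1) ⊔ p := by
  refine H.mem_pow _ fun l hl => ?_
  rcases Nat.lt_succ_iff_lt_or_eq.1 hl with h1 | h1
  · have := wd_pow_sup d (RingHom.ker ρ) p H.pres l 1 f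
      (sup_le_sup_right (Ideal.pow_le_pow_right (by omega)) p hf)
    rwa [pow_one, sup_eq_left.2 H.le] at this
  · exact h l h1

/-- DET, EMB and TAY (c). -/
theorem length_ge_sum (H : DetQ ρ p lam d t) {n : ℕ} (x : Fin n → K)
    (hx : Algebra.IsAlgebraic (Algebra.adjoin k (Set.range x)) K) {e : ℕ}
    (he : e + n ≤ Fintype.card J) (s : ℕ) :
    ((∑ i ∈ Finset.range s, e.multichoose i : ℕ) : ℕ∞)
      ≤ Module.length R (R ⧸ (RingHom.ker ρ ^ s ⊔ p)) := by
  obtain ⟨c, η, r, T, -, hc⟩ := H.exists_tay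
  have h1 := T.length_ge_sum (RingHom.ker_ne_top ρ) s
  rw [Fintype.card_fin] at h1
  refine le_trans (Nat.cast_le.2 (Finset.sum_le_sum fun i _ => ?_)) h1
  have := hc n x hx
  rw [Nat.multichoose_eq, Nat.multichoose_eq]
  exact Nat.choose_le_choose _ (by omega)

theorem length_ge (H : DetQ ρ p lam d t) {n : ℕ} (x : Fin n → K)
    (hx : Algebra.IsAlgebraic (Algebra.adjoin k (Set.range x)) K) {e : ℕ}
    (he : e + n ≤ Fintype.card J) (s : ℕ) :
    (((s + e).choose e : ℕ) : ℕ∞) ≤ Module.length R (R ⧸ (RingHom.ker ρ ^ (s + 1) ⊔ p)) := by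
  have := H.length_ge_sum x hx he (s + 1)
  rwa [Nat.sum_range_multichoose] at this

end DetQ

end Pool.Agent.Lib.A35.T
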