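import Pool.Agent.Lib.A35.Mix4

/-! The numbers of a point over a model; bigness. -/

open Module Set Submodule
open scoped TensorProduct

set_option linter.unusedSectionVars false
set_option linter.unusedVariables false

noncomputable section

namespace Pool.Agent.Lib.A35.Mix

open Pool.Agent.Lib.MP_7fcda1_ag Pool.Agent.Lib.UR

section pt
variable {k L κ K ι ι' : Type} [Field k] [Field L] [Algebra k L] [Field κ] [Field K]
  [Algebra κ K] [Fintype ι] [Fintype ι'] (σ : L →+* K) (p : ι' → L) (y : ι → L) (q : ℕ)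

/-- The degree of `H` on a curve over the point. -/
def yH (E : Ext κ K) : ℤ := dg E.k' (opt fun j => E.φ (σ (y j)))

/-- The degree of `D = P - q H` on a curve over the point. -/
def xD (E : Ext κ K) : ℤ := (dg E.k' fun j => E.φ (σ (p j))) - q * yH σ y E

variable {σ p y q} (hc : ∀ c : k, ∃ c' : κ, σ (algebraMap k L c) = algebraMap κ K c')
  (hσ : Gen κ σ)
include hc hσ

theorem gen_pt {τ : Type} {w : τ → L} (hw : Gen k w) : Gen κ fun j => σ (w j) := by
  let T := IntermediateField.adjoin κ (range fun j => σ (w j))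
  have h1 : ∀ x : L, σ x ∈ T := by
    intro x
    have h2 : IntermediateField.adjoin k (range w) ≤
        (T.toSubfield.comap σ).toIntermediateField fun c => by
          obtain ⟨c', h⟩ := hc c
          rw [Subfield.mem_comap, h]
          exact T.algebraMap_mem _ :=
      IntermediateField.adjoin_le_iff.2 (range_subset_iff.2 fun j =>
        IntermediateField.subset_adjoin κ (range fun j => σ (w j)) ⟨j, rfl⟩)
    exact h2 (hw.ge trivial)
  exact eq_top_iff.2 (hσ.ge.trans (IntermediateField.adjoin_le_iff.2 (range_subset_iff.2 h1)))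

variable [CharZero κ]

theorem Cls.cl (hp : p ≠ 0) {τ : Type} [Fintype τ] {w : τ → L} (hw : Gen k w) {a b : ℕ}
    (h : Cls (span k (range p)) (sys k y) q (sys k w) a b) :
    Cl (κ := κ) (xD σ p y q) (yH σ y) ⟨τ, fun j => σ (w j)⟩ a b := by
  refine ⟨gen_pt hc hσ hw, fun E hE => ?_⟩
  have := E.isFF (F := ⟨τ, fun j => σ (w j)⟩) (gen_pt hc hσ hw) hE
  have h1 : ∀ c : k, ∃ c' : E.k', (E.φ.comp σ) (algebraMap k L c) = algebraMap E.k' E.K' c' :=
    fun c => by
      obtain ⟨c', h⟩ := hc c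
      exact ⟨E.ψ c', by rw [RingHom.comp_apply, h, E.comm]⟩
  exact h.deg h1 (HD.span h1 hp) (HD.sys h1 y) (HD.sys h1 w)

theorem cl_H (hp : p ≠ 0) (hy : Gen k y) :
    Cl (κ := κ) (xD σ p y q) (yH σ y) ⟨ι, fun j => σ (y j)⟩ 0 1 := by
  exact_mod_cast Cls.cl hc hσ hp hy (cls_H _ q)

theorem span_ne_bot (hp : p ≠ 0) : span k (range p) ≠ ⊥ := fun h => hp (funext fun j =>
  (span_eq_bot.1 h) _ ⟨j, rfl⟩)

/-- The numbers `D ^ j H ^ (e + 1 - j)` of a point of dimension `e + 1`. -/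
theorem num_pt [CharZero k] {n e : ℕ} (hp : p ≠ 0) (hy : Gen k y) (hn : Dim k L n)
    (hN : NefS (span k (range p)) (sys k y) q) (hd : Dim κ K (e + 1)) :
    ∃ a : ℕ → ℕ, Num (κ := κ) (xD σ p y q) (yH σ y) ⟨ι, fun j => σ (y j)⟩ e a := by
  have := FiniteDimensional.span_of_finite k (finite_range p)
  obtain ⟨r, w, h1, h2⟩ := exists_Y (span_ne_bot hc hσ hp) hy q
  refine exists_num (c := ((q + 1 : ℕ) : ℤ)) hd (by exact_mod_cast Cls.cl hc hσ hp h1 h2)
    (cl_H hc hσ hp hy) fun M => ?_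
  obtain ⟨u, r, w, h3, h4, h5⟩ := hN.sys (span_ne_bot hc hσ hp) hy hn M
  exact ⟨u, _, h3, by exact_mod_cast Cls.cl hc hσ hp h4 h5⟩

end pt

section big
variable {k L ι ι' : Type} [Field k] [CharZero k] [Field L] [Algebra k L] [Fintype ι] [Fintype ι']
  {p : ι' → L} {y : ι → L} {q e : ℕ}

theorem finrank_le_of_mul {U V : Submodule k L} [FiniteDimensional k V] {s : L} (hs : s ≠ 0)
    (h : span k {s} * U ≤ V) : finrank k U ≤ finrank k V :=
  LinearMap.finrank_le_finrank_of_injective (f := LinearMap.codRestrict V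
    ((LinearMap.mulLeft k s).comp U.subtype) fun z =>
      h (mul_mem_mul (mem_span_singleton_self s) z.2))
    fun a b hab => Subtype.ext (mul_left_cancel₀ hs (congrArg Subtype.val hab))

/-- If the top number is positive, then `a D - H` is effective for some `a > 0`. -/
theorem big_of_pos (hp : p ≠ 0) (hy : Gen k y) (hn : Dim k L (e + 1))
    (hN : NefS (span k (range p)) (sys k y) q) {a : ℕ → ℕ}
    (h : Num (κ := k) (xD (RingHom.id L) p y q) (yH (RingHom.id L) y) ⟨ι, y⟩ e a)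
    (ha : 0 < a (e + 1)) : ∃ (m : ℕ) (s : L), 0 < m ∧ s ≠ 0 ∧
      span k {s} * sys k y ≤ Sec (span k (range p)) (sys k y) q m 0 := by
  have hc : ∀ c : k, ∃ c' : k, RingHom.id L (algebraMap k L c) = algebraMap k L c' :=
    fun c => ⟨c, rfl⟩
  have hσ : Gen k (RingHom.id L) := (Ext.refl k L).gen
  have := FiniteDimensional.span_of_finite k (finite_range p)
  obtain ⟨M, h1⟩ := h.big hn (cl_H hc hσ hp hy) ha 2
  obtain ⟨u, r, w, h3, h4, h5⟩ := hN.sys (span_ne_bot hc hσ hp) hy hn M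
  obtain ⟨j, hj, h6⟩ := h1 u _ h3 (by exact_mod_cast Cls.cl hc hσ hp h4 h5)
  obtain ⟨s, h7, h8⟩ := h5.big (ne_bot_of_one (one_mem_sys y)) (j := j) (c := u * j)
    (by rwa [show u * j + u * j = j * (2 * u) by ring])
  have h9 : span k {s} * sys k y ^ 1 ≤ Sec (span k (range p)) (sys k y) q (u * M * j) 0 :=
    (mul_le_mul' le_rfl (pow_mono' (one_mem_sys y) (Nat.mul_pos h3 hj))).trans h8
  refine ⟨u * M * j, s, Nat.pos_of_ne_zero fun h0 => ?_, h7, by rwa [pow_one] at h9⟩
  rw [h0] at h9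
  obtain ⟨c, hc0, h10⟩ := finrank_ge hy hn
  have := fd_Sec (P := span k (range p)) (q := q) hy hn 0 0
  set t := finrank k (Sec (span k (range p)) (sys k y) q 0 0)
  have h11 := sec_pow_le h9 (c * (t + 1))
  rw [zero_mul, one_mul] at h11
  have h12 := finrank_le_of_mul (pow_ne_zero _ h7) h11
  have := (h10 t).trans h12
  have : t + 1 ≤ (t + 1) ^ (e + 1) := Nat.le_self_pow (Nat.succ_ne_zero e) (t + 1)
  omega

theorem big_of_sec {P : Submodule k L} [FiniteDimensional k P] {n m : ℕ} (hy : Gen k y)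
    (hn : Dim k L n) (hm : 0 < m) {s : L} (hs : s ≠ 0)
    (h : span k {s} * sys k y ≤ Sec P (sys k y) q m 0) :
    ∃ C : ℕ, ∃ᶠ a : ℕ in Filter.atTop, a ^ n ≤ C * finrank k (Sec P (sys k y) q a 0) := by
  obtain ⟨c, hc, h2⟩ := finrank_ge hy hn
  refine ⟨(m * c) ^ n, Filter.frequently_atTop.2 fun t => ⟨m * c * (t + 1),
    (Nat.le_succ t).trans (Nat.le_mul_of_pos_left _ (Nat.mul_pos hm hc)), ?_⟩⟩
  have h3 := sec_pow_le (c := 1) (by rwa [pow_one]) (c * (t + 1))
  rw [one_mul, ← mul_assoc m] at h3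
  have := fd_Sec (P := P) (q := q) hy hn (m * c * (t + 1)) 0
  rw [mul_pow _ (t + 1)]
  exact Nat.mul_le_mul_left _ ((h2 t).trans (finrank_le_of_mul (pow_ne_zero _ hs) h3))

end big

section kod
open KaehlerDifferential Pool.Agent.Lib.GD Pool.Agent.Lib.MP_e06174_ag

variable {L ι : Type} [Field L] [Algebra ℂ L] [Fintype ι] {y : ι → L} {n : ℕ} {x : Fin n → L}
  {d : Fin n → Derivation ℂ L L}

theorem form_mem (hd : Dual x d) (hy : y ≠ 0) {m : ℕ} {z : L}
    (hz : z ∈ Sec (span ℂ (range (gaussT d y))) (span ℂ (range y)) (n + 1) m 0) :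
    form x m z ∈ MP_9a2ae6_ag.sections ℂ L n m {1} := by
  intro O _ hO
  obtain ⟨i, hi, hy'⟩ := exists_min_coord O hy
  have : Nonempty ι := ⟨i⟩
  obtain ⟨S, hS⟩ := Finite.exists_max fun S => O.valuation (gaussT d y S)
  have h1 : span ℂ (range (gaussT d y)) ≤ ball O hO (O.valuation (gaussT d y S)) :=
    span_le.2 (range_subset_iff.2 hS)
  have h2 := mem_div_iff_forall_mul_mem.1 hz _
    (Submodule.pow_mem_pow _ (subset_span (mem_range_self i)) _)
  rw [pow_zero, mul_one] at h2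
  have h3 := mem_ball.1 (cl_le_ball (ball_pow h1 m) h2)
  rw [← map_pow] at h3
  obtain ⟨c, hc⟩ := (ValuationSubring.valuation_le_iff _ _ _).1 h3
  have h4 : c * (gaussT d y S / y i ^ (n + 1)) ^ m = z := by
    rw [div_pow, ← mul_div_assoc, hc, ← pow_mul, mul_div_cancel_right₀ _ (pow_ne_zero _ hi)]
  rw [JSE.gauss_div d y hi] at h4
  have h5 := MP_e06174_ag.pow_mem (m := m) _ fun _ => JSE.gauss_mem hd O.toSubring hy' S
  rw [MultilinearMap.map_smul_univ, Finset.prod_const, Finset.card_univ, Fintype.card_fin] at h5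
  have h6 := Submodule.smul_mem _ (⟨c, c.2⟩ : O.toSubring) h5
  rw [Subring.smul_def, smul_smul] at h6
  rw [form, ← h4]
  refine span_mono ?_ h6
  rintro _ ⟨f, hf, rfl⟩
  exact ⟨1, Finset.mem_singleton_self _, f, hf, (one_smul _ _).symm⟩

/-- If `K` is big, the variety is of general type. -/
theorem kodaira_ge (hx : IsTranscendenceBasis ℂ x)
    (hd : ∀ a b, d a (x b) = if a = b then 1 else 0) (hy : y ≠ 0)
    (h : ∃ C : ℕ, ∃ᶠ a : ℕ in Filter.atTop, a ^ n ≤ C * finrank ℂ
      (Sec (span ℂ (range (gaussT d y))) (span ℂ (range y)) (n + 1) a 0)) :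
    ((n : ℕ∞) : WithBot ℕ∞) ≤ MP_9a2ae6_ag.kodaira ℂ L n := by
  obtain ⟨d', hd'⟩ := exists_dual hx
  obtain rfl : d = d' := by
    funext a
    ext f
    have h1 := hd'.chain (AlgHom.id ℂ L) (d a) f
    simpa [hd] using h1
  obtain ⟨C, h⟩ := h
  refine le_iSup₂_of_le (f := fun (κ : ℕ) (_ : ∃ C : ℕ, ∃ᶠ m : ℕ in Filter.atTop,
    (m : Cardinal) ^ κ ≤ C * MP_9a2ae6_ag.plurigenus ℂ L n {1} m) => ((κ : ℕ∞) : WithBot ℕ∞))
    n ⟨C, h.mono fun m hm => ?_⟩ le_rfl
  let f : Sec (span ℂ (range (gaussT d y))) (span ℂ (range y)) (n + 1) m 0 →ₗ[ℂ]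
      MP_9a2ae6_ag.sections ℂ L n m {1} :=
    { toFun := fun z => ⟨form x _ z, form_mem hd' hy z.2⟩
      map_add' := fun a b => Subtype.ext (by simp [form, add_smul])
      map_smul' := fun a b => Subtype.ext (by simp [form]) }
  have h4 : Function.Injective f := fun a b hab =>
    Subtype.ext (form_injective hx _ (congrArg Subtype.val hab))
  have h5 := (Cardinal.natCast_toNat_le _).trans (f.rank_le_of_injective h4)
  rw [MP_9a2ae6_ag.plurigenus_eq]
  exact le_trans (by exact_mod_cast hm) (mul_le_mul_right h5 _)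

end kod

end Pool.Agent.Lib.A35.Mix
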