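import Pool.Agent.Lib.A35.SDefs
import Pool.Agent.Lib.A35.Chain
import Pool.Agent.Lib.A35.PGK
import Pool.Agent.Lib.A35.DetQ
import Pool.Agent.Lib.A35.Mix5

/-! Models, points, pointed germs, states. -/

open Module Submodule Set Filter IsLocalRing
open scoped Polynomial

set_option linter.unusedSectionVars false
set_option linter.unusedVariables false

noncomputable section

namespace Pool.Agent.Lib.A35

open Pool.Agent.Lib.MP_7fcda1_ag Pool.Agent.Lib.UR G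

/-! ### Models -/

/-- A smooth projective model. -/
structure Mod₀ (L : Type) [Field L] [Algebra ℂ L] (n : ℕ) where
  N : ℕ
  y : Fin (N + 1) → L
  x : Fin n → L
  d : Fin n → Derivation ℂ L L
  sm : GD.SmoothModel y
  y0 : y 0 = 1
  tb : IsTranscendenceBasis ℂ x
  dual : ∀ a b, d a (x b) = if a = b then 1 else 0

/-- A smooth projective model with a nef class `D` such that `c D - r K` is effective. -/
structure Mod (L : Type) [Field L] [Algebra ℂ L] (n : ℕ) extends Mod₀ L n where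
  τ : Type
  [ft : Fintype τ]
  p : τ → L
  q : ℕ
  c : ℕ
  r : ℕ
  rpos : 0 < r
  free : Free y p
  nef : Nef q y p
  eff : Eff q y p (n + 1) (gaussT d y) c r

attribute [instance] Mod.ft

variable {L : Type} [Field L] [Algebra ℂ L] {n : ℕ}

/-- The Gauss map. -/
def Mod₀.G (X : Mod₀ L n) : (Fin (n + 1) → Fin (X.N + 1)) → L := gaussT X.d X.y

/-- The Jacobian determinant. -/
def Mod₀.jac (X : Mod₀ L n) (t : Fin n → L) : L := (Matrix.of fun a b => X.d a (t b)).det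

/-- The local ring `T` of the model at the centre of `O`, with etale coordinates. -/
structure Mod₀.Loc (X : Mod₀ L n) (O : ValuationSubring L) (i : Fin (X.N + 1))
    (S : Fin (n + 1) → Fin (X.N + 1)) (T : Subring L) (t : Fin n → L) (θ : L)
    (F : (MvPolynomial (Fin n) ℂ)[X]) (μ : Fin n → Fin n → L) : Prop where
  le : ∀ f ∈ T, f ∈ O
  inv : ∀ f ∈ T, O.valuation f = 1 → f⁻¹ ∈ T
  chart : ∀ f ∈ GD.chart X.y i, f ∈ T
  den : ∀ f ∈ T, ∃ b ∈ GD.chart X.y i, O.valuation b = 1 ∧ b * f ∈ GD.chart X.y i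
  ne : X.G S ≠ 0
  G : ∀ S', X.G S' / X.G S ∈ T
  nml : ∀ l, (∀ O' : ValuationSubring L, (∀ f ∈ T, f ∈ O') → l ∈ O') → l ∈ T
  tmem : ∀ a, t a ∈ T
  θmem : θ ∈ T
  root : F.eval₂ (MvPolynomial.aeval t : MvPolynomial (Fin n) ℂ →ₐ[ℂ] L).toRingHom θ = 0
  sep : O.valuation (F.derivative.eval₂
    (MvPolynomial.aeval t : MvPolynomial (Fin n) ℂ →ₐ[ℂ] L).toRingHom θ) = 1
  frac : ∀ f ∈ T, ∃ b ∈ Algebra.adjoin ℂ (insert θ (range t)), O.valuation b = 1 ∧
    b * f ∈ Algebra.adjoin ℂ (insert θ (range t))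
  dual : ∀ a b, ∑ e, μ a e * X.d e (t b) = if a = b then 1 else 0
  pres : ∀ a, ∀ f ∈ T, ∑ e, μ a e * X.d e f ∈ T
  jac : O.valuation (X.jac t * X.y i ^ (n + 1)) = O.valuation (X.G S)

namespace Mod
variable (X : Mod L n)

/-- The system of class `H`. -/
def H : Submodule ℂ L := sys ℂ X.y

/-- The system of class `D + q H`. -/
def P : Submodule ℂ L := span ℂ (range X.p)

/-- The system of class `K + (n + 1) H`. -/
def A : Submodule ℂ L := span ℂ (range X.G)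

/-- Sections of `K + m D + H`. -/
def SecK (m : ℕ) : Submodule ℂ L := cl (X.A * X.P ^ m * X.H) / X.H ^ (n + 1 + X.q * m)

/-- The ratio `1 + c / (r m)`. -/
def rat (m : ℕ) : ℝ := 1 + X.c / (X.r * m)

end Mod

/-- A free, generating linear system of class `a D + b H`. -/
structure Sys (X : Mod L n) (a b : ℕ) where
  r : ℕ
  w : Fin r → L
  γ : L
  ne : γ ≠ 0
  gen : Gen ℂ w
  eq : cl (span ℂ {γ} * sys ℂ w * X.H ^ (X.q * a)) = cl (X.P ^ a * X.H ^ b)

/-- The complete systems of the multiples. -/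
def Sys.U {X : Mod L n} {a b : ℕ} (U : Sys X a b) (j : ℕ) : Submodule ℂ L := cl (sys ℂ U.w ^ j)

/-! ### Points and germs -/

section germ
variable {κ K κ' K' : Type} [Field κ] [Field K] [Algebra ℂ κ] [Algebra ℂ K] [Algebra κ K]
  [IsScalarTower ℂ κ K] [Field κ'] [Field K'] [Algebra ℂ κ'] [Algebra ℂ K'] [Algebra κ' K']
  [IsScalarTower ℂ κ' K']

/-- `φ` is the map of germs over `f`. -/
structure IsMap {σ : L →ₐ[ℂ] K} {σ' : L →ₐ[ℂ] K'} (f : κ → κ') (φ : Germ κ σ →+* Germ κ' σ') :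
    Prop where
  const : ∀ c, φ (algebraMap κ _ c) = algebraMap κ' _ (f c)
  fn : ∀ l, φ (iota κ σ l) = iota κ' σ' l

/-- `D` extends the derivations of the model and kills the constants. -/
structure IsD (X : Mod L n) {σ : L →ₐ[ℂ] K} (D : Fin n → Derivation ℤ (Germ κ σ) (Germ κ σ)) :
    Prop where
  const : ∀ a c, D a (algebraMap κ _ c) = 0
  fn : ∀ a l, D a (iota κ σ l) = iota κ σ (X.d a l)

variable (κ) in
/-- The graded family of a linear system in a germ. -/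
def Sys.S {X : Mod L n} {a b : ℕ} (U : Sys X a b) (σ : L →ₐ[ℂ] K) (j : ℕ) :
    Submodule κ (Germ κ σ) := spn κ σ (U.U j)

end germ

/-- A point of the base change of the variety to `κ`, over the generic point. -/
structure Pt (L κ : Type) [Field L] [Algebra ℂ L] [Field κ] [Algebra ℂ κ] where
  K : Type
  [fK : Field K]
  [a1 : Algebra κ K]
  [a2 : Algebra ℂ K]
  [t1 : IsScalarTower ℂ κ K]
  σ : L →ₐ[ℂ] K
  gen : Gen κ σ

attribute [instance] Pt.fK Pt.a1 Pt.a2 Pt.t1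

namespace Pt
variable {κ : Type} [Field κ] [Algebra ℂ κ] (V : Pt L κ)

/-- The local ring at the point. -/
abbrev R : Type := Germ κ V.σ

/-- The maximal ideal. -/
abbrev m : Ideal V.R := maximalIdeal V.R

/-- The span of a space of functions in the residue field. -/
def res (U : Submodule ℂ L) : Submodule κ V.K := span κ (V.σ '' U)

/-- The degree of `H` on a curve. -/
def Hc (X : Mod L n) : ℤ := ht κ fun j => V.σ (X.y j)

/-- The degree of `D` on a curve. -/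
def Dc (X : Mod L n) : ℤ := ht κ (fun S => V.σ (X.p S)) - X.q * V.Hc X

/-- The degree of `K` on a curve. -/
def Kc (X : Mod L n) : ℤ := ht κ (fun S => V.σ (X.G S)) - (n + 1) * V.Hc X

/-- `k j = D ^ j H ^ (e + 1 - j)` on a point of dimension `e + 1`. -/
def Num (X : Mod L n) (e : ℕ) (k : ℕ → ℕ) : Prop :=
  Mix.Num (κ := κ) (Mix.xD (V.σ : L →+* V.K) X.p X.y X.q) (Mix.yH (V.σ : L →+* V.K) X.y)
    ⟨Fin (X.N + 1), fun j => (V.σ : L →+* V.K) (X.y j)⟩ e k

/-- The Hilbert function of `U` on a point of dimension `d` has leading term `ν j ^ d / d!`. -/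
def Hil {X : Mod L n} {a b : ℕ} (U : Sys X a b) (d ν : ℕ) : Prop :=
  ∃ e : ℕ, ∀ j : ℕ, FiniteDimensional κ (V.res (U.U j)) ∧
    finrank κ (V.res (U.U j)) ≤ ν * (j + e + d).choose d ∧
    ν * (j + d).choose d ≤ finrank κ (V.res (U.U (j + e)))

/-- Affine coordinates centred at the point `s`. -/
def zt (X : Mod L n) (s : L →ₐ[ℂ] κ) : Fin (X.N + 1) → V.K :=
  fun j => V.σ (X.y j) - algebraMap κ V.K (s (X.y j))

/-- The exceptional divisor over `s` on a curve. -/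
def Ed (X : Mod L n) (s : L →ₐ[ℂ] κ) : Div κ V.K := vdiv κ (V.zt X s) ⊔ 0

/-- Its degree. -/
def Ec (X : Mod L n) (s : L →ₐ[ℂ] κ) : ℤ := degD (V.Ed X s)

/-- The derivatives of `f` vanish to high order at the places over `s`. -/
def Gain (X : Mod L n) (D : Fin n → Derivation ℤ V.R V.R) (s : L →ₐ[ℂ] κ) (M ω : ℕ) (f : V.R) :
    Prop := ∀ x : Place κ V.K, 0 < V.Ed X s x → ∀ l : List (Fin n),
      Ge x.O (V.Ed X s x * ((M : ℤ) - ω * l.length)) (rho κ V.σ (T.wd D l f))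

/-- Sections vanishing at `s` generate the jets along the curve. -/
def Chn {X : Mod L n} {a b : ℕ} (U : Sys X a b) (D : Fin n → Derivation ℤ V.R V.R)
    (s : L →ₐ[ℂ] κ) (Λ : ℝ) (t ω : ℕ) : Prop :=
  ∃ c₀ : ℝ, ∀ N₀ : ℕ, ∃ N j : ℕ, N₀ ≤ N ∧ (b * j : ℝ) ≤ N * Λ + c₀ ∧
    Ch V.m {f | f ∈ U.S κ V.σ j ∧ V.Gain X D s (N * t) ω f} (V.m ^ N) ⊤

end Pt

/-- `D` is positive on all curves through the generic point, over any field of constants. -/
def Mod.ND (X : Mod L n) : Prop :=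
  ∀ (κ : Type) [Field κ] [Algebra ℂ κ] (V : Pt L κ), Dim κ V.K 1 → 0 < V.Dc X

/-- The generic point. -/
@[reducible] def Pt.gp (L : Type) [Field L] [Algebra ℂ L] : Pt L ℂ where
  K := L
  σ := AlgHom.id ℂ L
  gen := eq_top_iff.2 fun x _ => IntermediateField.subset_adjoin ℂ _ ⟨x, rfl⟩

/-- A pointed germ of a subvariety of dimension `d`. -/
structure PG (L κ : Type) [Field L] [Algebra ℂ L] [Field κ] [Algebra ℂ κ] (d : ℕ) where
  κ₀ : Type
  [f0 : Field κ₀]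
  [a0 : Algebra ℂ κ₀]
  [a1 : Algebra κ₀ κ]
  [t0 : IsScalarTower ℂ κ₀ κ]
  s : L →ₐ[ℂ] κ
  gen₀ : Gen κ₀ s
  z : Fin d → L
  tb : IsTranscendenceBasis κ₀ fun j => s (z j)
  δ' : Fin d → Derivation κ₀ κ κ
  δ : Fin d → Derivation ℤ (Germ κ s) (Germ κ s)
  tay : T.Tay (maximalIdeal (Germ κ s)) (pgI κ₀ s) (zeta s z) δ
  δκ : ∀ i c, δ i (algebraMap κ _ c) = algebraMap κ _ (δ' i c)
  δL : ∀ i l, δ i (iota κ s l) = 0
  δt : ∀ i j, δ' i (s (z j)) = if i = j then 1 else 0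
  V1 : Pt L κ
  π : Germ κ s →ₐ[κ] V1.K
  hπ : ∀ l, π (iota κ s l) = V1.σ l
  ker : ∀ r, π r = 0 ↔ r ∈ pgI κ₀ s
  dim : Dim κ V1.K d

attribute [instance] PG.f0 PG.a0 PG.a1 PG.t0

namespace PG
variable {κ : Type} [Field κ] [Algebra ℂ κ] {d : ℕ} (G : PG L κ d)

/-- The local ring. -/
abbrev R : Type := Germ κ G.s

/-- The maximal ideal. -/
abbrev m : Ideal G.R := maximalIdeal G.R

/-- The ideal of the subvariety. -/
abbrev p : Ideal G.R := pgI G.κ₀ G.s

/-- The coordinates. -/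
abbrev ζ : Fin d → G.R := zeta G.s G.z

/-- Sections of `K + m D + H` generate the jets of order `t` along the subvariety. -/
def Onto (X : Mod L n) (m t : ℕ) : Prop :=
  ∀ r : G.R, ∃ z ∈ spn κ G.s (X.SecK m), r - z ∈ G.m ^ (t + 1) ⊔ G.p

/-- Sections of `K + m D + H` of multiplicity `t` along the subvariety. -/
def W (X : Mod L n) (m t : ℕ) : Set G.R := {z | z ∈ spn κ G.s (X.SecK m) ∧ z ∈ G.m ^ t ⊔ G.p}

end PG

/-- The curve `V` is cut out on the subvariety by `e` sections of multiplicity `t`. -/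
structure Crv (X : Mod L n) {κ κ' : Type} [Field κ] [Algebra ℂ κ] [Field κ'] [Algebra ℂ κ']
    {e : ℕ} (G : PG L κ (e + 1)) (m t : ℕ) (V : Pt L κ') where
  f : κ →ₐ[ℂ] κ'
  φ : G.R →+* V.R
  map : IsMap f φ
  s₀ : G.R
  θ : Fin e → V.R
  hs₀ : s₀ ∈ G.W X m t
  unit : IsUnit (φ s₀)
  hθ : ∀ a, θ a ∈ span κ' (φ '' G.W X m t)
  le : Ideal.span (range θ) ⊔ G.p.map φ ≤ V.m
  pow : ∃ B, V.m ^ B ≤ Ideal.span (range θ) ⊔ G.p.map φ

/-- A state of the induction. -/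
structure Sta {X : Mod L n} {u m : ℕ} (U : Sys X (u * m) u) {κ : Type} [Field κ] [Algebra ℂ κ]
    {e : ℕ} (G : PG L κ (e + 1)) (k : ℕ → ℕ) (Λ v C T : ℝ) (w c : ℕ) : Prop where
  num : G.V1.Num X e k
  k1 : 0 < k 1
  upos : 0 < u
  mpos : 0 < m
  le : e + 1 ≤ n
  tow : Tow (U.S κ G.s) G.p Λ w c
  hw : w + n * (e + 1) ≤ n * n
  vpos : 0 < v
  hv : v ^ (e + 1) = (Mix.pw k (e + 1) 0 m 1 : ℕ)
  hC : u * Λ * v ≤ C
  hT : T * v ≤ m

/-- There is a state of dimension `e + 1` with constants `C`, `T`. -/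
def Mod.Has (X : Mod L n) (e : ℕ) (C T : ℝ) : Prop :=
  ∃ (u m : ℕ) (U : Sys X (u * m) u) (κ : Type) (_ : Field κ) (_ : Algebra ℂ κ)
    (G : PG L κ (e + 1)) (k : ℕ → ℕ) (Λ v : ℝ) (w c : ℕ), Sta U G k Λ v C T w c

end Pool.Agent.Lib.A35
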