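import Pool.Agent.Lib.A35.Chain
import Pool.Agent.Lib.A35.DetQ

/-! The dichotomy at the generic point. -/

open Module Pool.Agent.Lib.A35.T

noncomputable section

namespace Pool.Agent.Lib.A35.Di

section words
variable {A R ι : Type} [CommRing A] [CommRing R] [Algebra A R] (D : ι → Derivation A R R)

theorem wd_set {T : Set R} (h : ∀ i, ∀ x ∈ T, D i x ∈ T) (l : List ι) {x : R} (hx : x ∈ T) :
    wd D l x ∈ T := by
  induction l with
  | nil => exact hx
  | cons i l ih => exact h i _ ih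

theorem wd_hom {A' R' : Type} [CommRing A'] [CommRing R'] [Algebra A' R'] (φ : R →+* R')
    (D' : ι → Derivation A' R' R') (h : ∀ i x, φ (D i x) = D' i (φ x)) (l : List ι) (x : R) :
    φ (wd D l x) = wd D' l (φ x) := by
  induction l with
  | nil => rfl
  | cons i l ih => rw [wd_cons, wd_cons, h, ih]

/-- The words of length at most `j` applied to `s`. -/
def wds (j : ℕ) (s : R) : Set R := (fun l => wd D l s) '' {l | l.length ≤ j}

theorem wds_finite [Finite ι] (j : ℕ) (s : R) : (wds D j s).Finite :=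
  (List.finite_length_le ι j).image _

/-- Words in combinations of derivations are combinations of words. -/
theorem wd_comb [Fintype ι] {A' ι' : Type} [CommRing A'] [Algebra A' R]
    (δ : ι' → Derivation A' R R) (h : ∀ i, ∃ r : ι → R, ∀ x, δ i x = ∑ j, r j * D j x) (f : R)
    (l : List ι') : wd δ l f ∈ Ideal.span (wds D l.length f) := by
  induction l with
  | nil => exact Ideal.subset_span ⟨[], Nat.zero_le _, rfl⟩
  | cons i l ih =>
    obtain ⟨r, hr⟩ := h i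
    rw [wd_cons, hr]
    refine sum_mem fun j _ => Ideal.mul_mem_left _ _ ?_
    have h1 : Ideal.span (wds D l.length f) ≤ Ideal.span (wds D (i :: l).length f) :=
      Ideal.span_mono (Set.image_mono fun l' hl' => le_trans (b := l.length) hl' (by simp))
    refine Submodule.span_induction (p := fun y _ => D j y ∈ Ideal.span (wds D (i :: l).length f))
      ?_ (by simp) (fun a b _ _ ha hb => ?_) (fun a y hy hy' => ?_) ih
    · rintro _ ⟨l', hl', rfl⟩
      exact Ideal.subset_span ⟨j :: l', Nat.succ_le_succ hl', rfl⟩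
    · rw [map_add]
      exact add_mem ha hb
    · rw [smul_eq_mul, Derivation.leibniz, smul_eq_mul, smul_eq_mul]
      exact add_mem (Ideal.mul_mem_left _ _ hy') (Ideal.mul_mem_right _ _ (h1 hy))

end words

section spec
variable (k : Type) {R : Type} [Field k] [CommRing R] [Algebra k R]

/-- There are `r` elements which are independent modulo `P`. -/
def Ind (r : ℕ) (P : Ideal R) : Prop :=
  ∃ x : Fin r → R, AlgebraicIndependent k fun i => Ideal.Quotient.mk P (x i)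

variable {k}

theorem ind_zero {P : Ideal R} (h : P ≠ ⊤) : Ind k 0 P := by
  have := Ideal.Quotient.nontrivial_iff.2 h
  exact ⟨Fin.elim0, algebraicIndependent_empty_type_iff.2 (algebraMap k (R ⧸ P)).injective⟩

theorem Ind.succ {P Q : Ideal R} (hP : P.IsPrime) (h : P < Q) {r : ℕ} (hr : Ind k r Q) :
    Ind k (r + 1) P := by
  obtain ⟨x, hx⟩ := hr
  obtain ⟨f, hf, hfP⟩ := SetLike.exists_of_lt h
  refine ⟨Fin.cons f x, algebraicIndependent_iff.2 fun G hG => ?_⟩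
  have h1 : MvPolynomial.aeval (Fin.cons f x : Fin (r + 1) → R) G ∈ P := by
    rw [← Ideal.Quotient.eq_zero_iff_mem, ← hG]
    exact MvPolynomial.comp_aeval_apply _ (Ideal.Quotient.mkₐ k P) G
  by_contra h0
  have h2 : MvPolynomial.finSuccEquiv k r G ≠ 0 := by simpa using h0
  obtain ⟨g, hg, hg0⟩ := Polynomial.exists_eq_pow_rootMultiplicity_mul_and_not_dvd _ h2 0
  have h3 : ∀ G : MvPolynomial (Fin (r + 1)) k, MvPolynomial.aeval (Fin.cons f x : Fin (r + 1) → R) G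
      = Polynomial.eval₂ (MvPolynomial.aeval x : MvPolynomial (Fin r) k →ₐ[k] R).toRingHom f
        (MvPolynomial.finSuccEquiv k r G) := fun G => by
    induction G using MvPolynomial.induction_on with
    | C a => simp [MvPolynomial.finSuccEquiv_apply]
    | add p q hp hq => simp [hp, hq, Polynomial.eval₂_add]
    | mul_X p i hp =>
      rw [map_mul, map_mul, Polynomial.eval₂_mul, hp]
      cases i using Fin.cases <;> simp [MvPolynomial.finSuccEquiv_X_zero,
        MvPolynomial.finSuccEquiv_X_succ]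
  rw [h3, hg, Polynomial.eval₂_mul] at h1
  simp only [map_zero, sub_zero, Polynomial.eval₂_pow, Polynomial.eval₂_X] at h1 hg0
  have h4 := h.le ((hP.mem_or_mem h1).resolve_left fun h5 => hfP (hP.mem_of_pow_mem _ h5))
  refine hg0 (Polynomial.X_dvd_iff.2 (algebraicIndependent_iff.1 hx _ ?_))
  rw [← Polynomial.divX_mul_X_add g, Polynomial.eval₂_add, Polynomial.eval₂_mul,
    Polynomial.eval₂_X, Polynomial.eval₂_C] at h4
  have h5 := (Q.add_mem_iff_right (Q.mul_mem_left _ hf)).1 h4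
  rw [← Ideal.Quotient.eq_zero_iff_mem] at h5
  exact (MvPolynomial.comp_aeval_apply _ (Ideal.Quotient.mkₐ k Q) _).symm.trans h5

/-- The gap lemma. -/
theorem gap {p : Ideal R} (hp : p.IsPrime) (I : ℕ → Ideal R) (hI : Monotone I) (h0 : p < I 0)
    (n : ℕ) : ∀ Q : Ideal R, Q.IsPrime → I n ≤ Q → ∀ r, Ind k r Q →
      (∃ i < n, ∃ P ≤ Q, P ∈ (I i).minimalPrimes ∧ I (i + 1) ≤ P) ∨ Ind k (r + n + 1) p := by
  induction n with
  | zero => exact fun Q _ hQ r hr => Or.inr (hr.succ hp (h0.trans_le hQ))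
  | succ n ih =>
    intro Q hQ h r hr
    obtain ⟨P, hP, hPQ⟩ := Ideal.exists_minimalPrimes_le ((hI n.le_succ).trans h)
    by_cases h1 : I (n + 1) ≤ P
    · exact Or.inl ⟨n, n.lt_succ_self, P, hPQ, hP, h1⟩
    · rcases ih P hP.1.1 hP.1.2 (r + 1)
        (hr.succ hP.1.1 (lt_of_le_of_ne hPQ fun e => h1 (e ▸ h))) with ⟨i, hi, P', h2, h3⟩ | h2
      · exact Or.inl ⟨i, by omega, P', h2.trans hPQ, h3⟩
      · exact Or.inr (by rwa [show r + (n + 1) + 1 = r + 1 + n + 1 by omega])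

end spec

section lev
variable {k R : Type} [Field k] [CommRing R] [Algebra k R] {S : ℕ → Submodule k R}

/-- A section with a large order of vanishing. -/
theorem exs {A ι : Type} [CommRing A] [Algebra A R] [Fintype ι] [DecidableEq ι] {m p : Ideal R}
    {ζ : ι → R} {D : ι → Derivation A R R} (T : Tay m p ζ D)
    (hr : ∀ r : R, ∃ c : k, r - algebraMap k R c ∈ m) (Z : Submodule k R) {a : ℕ}
    (h : (a + Fintype.card ι).choose (Fintype.card ι) < finrank k (img Z p)) :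
    ∃ s ∈ Z, s ∈ m ^ (a + 1) ⊔ p ∧ s ∉ p := by
  by_contra hc
  push Not at hc
  obtain ⟨h1, h2⟩ := T.finrank_le hr a
  have h5 : finrank k (img Z (m ^ (a + 1) ⊔ p)) = finrank k (img Z p) :=
    finrank_map_eq _ _ Z fun e he => by
      change Ideal.Quotient.mk _ e = 0 ↔ Ideal.Quotient.mk _ e = 0
      rw [Ideal.Quotient.eq_zero_iff_mem, Ideal.Quotient.eq_zero_iff_mem]
      exact ⟨hc e he, Ideal.mem_sup_right⟩
  have h6 := Submodule.finrank_le (img Z (m ^ (a + 1) ⊔ p))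
  omega

/-- A level from a family whose only common zero is the closed point. -/
theorem lev_of_prime [IsNoetherianRing R] (hS : Gr S)
    (hG : ∀ r : R, ∃ e u, IsUnit u ∧ u * r ∈ S e) {m p : Ideal R} {ι : Type} [Fintype ι]
    (η : ι → R) (hm : m = Ideal.span (Set.range η) ⊔ p) {L : Set R} (hL : L.Finite) {a b : ℕ}
    (h1 : ∀ x ∈ L, x ∈ S a) (h2 : ∀ x ∈ L, x ∈ m ^ b ⊔ p) (hb : 0 < b)
    (h3 : ∀ Q : Ideal R, Q.IsPrime → Ideal.span L ⊔ p ≤ Q → m ≤ Q) :
    ∃ c, Lev S p m (a / b) (Fintype.card ι) c := by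
  classical
  choose e u hu using hG
  obtain ⟨g, g1, g2, g3⟩ := exists_units (T := S (Finset.univ.sup fun i => e (η i)))
    (Finset.univ.image η) fun x hx => by
      obtain ⟨i, -, rfl⟩ := Finset.mem_image.1 hx
      exact ⟨u _, (hu _).1, hS.mono (Finset.le_sup (f := fun i => e (η i)) (Finset.mem_univ i))
        (hu _).2⟩
  obtain ⟨B, hB⟩ := (Ideal.span L ⊔ p).exists_radical_pow_le_of_fg (IsNoetherian.noetherian _)
  have h4 : m ≤ (Ideal.span L ⊔ p).radical := by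
    rw [Ideal.radical_eq_sInf]
    exact le_sInf fun Q hQ => h3 Q hQ.2 hQ.1
  refine ⟨_, hL.toFinset, g, a, _, b, B, by simpa using h1, g1,
    g2.trans (Finset.card_image_le.trans (by simp)), ?_, by simpa using h2, ?_, hb, ?_, le_rfl⟩
  · rw [g3, hm, sup_comm]
    simp
  · simpa using (Ideal.pow_right_mono h4 B).trans hB
  · rw [div_mul_cancel₀ _ (by exact_mod_cast hb.ne')]

/-- The dichotomy, for a given section. -/
theorem dich₀ [IsNoetherianRing R] {A ι : Type} [CommRing A] [Algebra A R] [Fintype ι]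
    [DecidableEq ι] {m p : Ideal R} {ζ : ι → R} {D : ι → Derivation A R R} (T : Tay m p ζ D)
    (hm : ∀ Q : Ideal R, Q.IsPrime → Q ≤ m) (hp : p.IsPrime) (hS : Gr S)
    (hG : ∀ r : R, ∃ e u, IsUnit u ∧ u * r ∈ S e) (hD : ∀ j i, ∀ x ∈ S j, D i x ∈ S j) {d : ℕ}
    (hd : ¬ Ind k (d + 1) p) {a a₀ b : ℕ} (h0 : 0 < a₀) {s : R} (h1 : s ∈ S a)
    (h2 : s ∈ m ^ (a₀ + d * b) ⊔ p) (h3 : s ∉ p) :
    (∃ c, Lev S p m (a / a₀) (Fintype.card ι) c) ∨ ∃ P : Ideal R, P.IsPrime ∧ p < P ∧ P < m ∧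
      ∃ L : Set R, L.Finite ∧ (∀ x ∈ L, x ∈ S a) ∧ P ∈ (Ideal.span L ⊔ p).minimalPrimes ∧
        ∀ x ∈ L, ∀ l : List ι, l.length ≤ b → wd D l x ∈ P := by
  have hW : ∀ j, ∀ x ∈ wds D j s, x ∈ S a := by
    rintro j _ ⟨l, -, rfl⟩
    exact wd_set D (hD a) l h1
  by_cases hA : ∀ Q : Ideal R, Q.IsPrime → Ideal.span (wds D (d * b) s) ⊔ p ≤ Q → m ≤ Q
  · refine Or.inl (lev_of_prime hS hG ζ T.eq (wds_finite D _ s) (hW _) ?_ h0 hA)
    rintro _ ⟨l, hl, rfl⟩
    exact wd_pow_sup D m p T.pres l a₀ s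
      (sup_le_sup_right (Ideal.pow_le_pow_right (Nat.add_le_add_left hl _)) p h2)
  push Not at hA
  obtain ⟨Q, hQ, h4, h5⟩ := hA
  have hI : Monotone fun i => Ideal.span (wds D (i * b) s) ⊔ p := fun i j hij =>
    sup_le_sup_right (Ideal.span_mono (Set.image_mono fun l hl =>
      le_trans (b := i * b) hl (Nat.mul_le_mul_right b hij))) p
  have hI0 : p < Ideal.span (wds D (0 * b) s) ⊔ p := lt_of_le_of_ne le_sup_right fun e =>
    h3 (e ▸ Ideal.mem_sup_left (Ideal.subset_span ⟨[], Nat.zero_le _, rfl⟩))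
  rcases gap (k := k) hp _ hI hI0 d Q hQ h4 0 (ind_zero hQ.ne_top) with
    ⟨i, -, P, hPQ, hP, h6⟩ | h6
  · refine Or.inr ⟨P, hP.1.1, hI0.trans_le ((hI (Nat.zero_le i)).trans hP.1.2),
      lt_of_le_of_ne (hm P hP.1.1) fun e => h5 (e ▸ hPQ), _, wds_finite D _ s, hW _, hP, ?_⟩
    rintro _ ⟨l', hl', rfl⟩ l hl
    refine h6 (Ideal.mem_sup_left (Ideal.subset_span ⟨l ++ l', ?_, wd_append D l l' s⟩))
    change (l ++ l').length ≤ (i + 1) * b
    have : l'.length ≤ i * b := hl'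
    rw [List.length_append, add_mul]
    omega
  · exact absurd (by rwa [zero_add] at h6) hd

variable {R' : Type} [CommRing R'] [Algebra k R'] {S' : ℕ → Submodule k R'}

/-- The new level, in the local ring at `P`. -/
theorem levB [IsNoetherianRing R'] {A A' A'' ι ι' : Type} [CommRing A] [Algebra A R]
    [CommRing A'] [Algebra A' R'] [CommRing A''] [Algebra A'' R'] [Fintype ι] [Fintype ι']
    [DecidableEq ι'] (φ : R →+* R') (hφ : ∀ j, ∀ x ∈ S j, φ x ∈ S' j) (hS : Gr S')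
    (hG : ∀ r : R', ∃ e u, IsUnit u ∧ u * r ∈ S' e) {p P : Ideal R}
    (hP : ∀ Q : Ideal R', Q.IsPrime → Q.comap φ ≤ P) {D : ι → Derivation A R R}
    {D' : ι → Derivation A' R' R'} (hD : ∀ i x, φ (D i x) = D' i (φ x)) {η : ι' → R'}
    {δ : ι' → Derivation A'' R' R'} (T : Tay (P.map φ) (p.map φ) η δ)
    (hδ : ∀ i, ∃ r : ι → R', ∀ x, δ i x = ∑ j, r j * D' j x) {L : Set R} (hL : L.Finite) {a b : ℕ}
    (h1 : ∀ x ∈ L, x ∈ S a) (h2 : P ∈ (Ideal.span L ⊔ p).minimalPrimes)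
    (h3 : ∀ x ∈ L, ∀ l : List ι, l.length ≤ b → wd D l x ∈ P) :
    ∃ c, Lev S' (p.map φ) (P.map φ) (a / (b + 1 : ℕ)) (Fintype.card ι') c := by
  refine lev_of_prime hS hG η T.eq (hL.image φ) ?_ ?_ b.succ_pos fun Q hQ h => ?_
  · rintro _ ⟨x, hx, rfl⟩
    exact hφ a x (h1 x hx)
  · rintro _ ⟨x, hx, rfl⟩
    refine T.mem_pow _ fun l hl => Ideal.span_le.2 ?_ (wd_comb D' δ hδ _ l)
    rintro _ ⟨l', hl', rfl⟩
    have h4 : l'.length ≤ l.length := hl'
    have h5 := Ideal.mem_map_of_mem φ (h3 x hx l' (by omega))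
    rwa [wd_hom D φ D' hD] at h5
  · rw [← Ideal.map_span, ← Ideal.map_sup, Ideal.map_le_iff_le_comap] at h
    exact Ideal.map_le_iff_le_comap.2 (h2.2 ⟨Ideal.comap_isPrime φ Q, h⟩ (hP Q hQ))

theorem img_anti (Z : Submodule k R) [FiniteDimensional k Z] {A B : Ideal R} (h : A ≤ B) :
    finrank k (img Z B) ≤ finrank k (img Z A) := by
  have h1 := finrank_img Z A
  have h2 := finrank_img Z B
  have : FiniteDimensional k ↥(Z ⊓ B.restrictScalars k) :=
    Submodule.finiteDimensional_of_le inf_le_left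
  have h3 : finrank k ↥(Z ⊓ A.restrictScalars k) ≤ finrank k ↥(Z ⊓ B.restrictScalars k) :=
    Submodule.finrank_mono (inf_le_inf_left _ h)
  omega

theorem img_map (φ : R →ₐ[k] R') (Z : Submodule k R) [FiniteDimensional k Z] (Z' : Submodule k R')
    (h : Z' ≤ Z.map φ.toLinearMap) (p : Ideal R) :
    finrank k (img Z' (p.map φ)) ≤ finrank k (img Z p) := by
  refine le_trans (Submodule.finrank_mono ?_)
    (Submodule.finrank_map_le (Ideal.quotientMapₐ (p.map φ) φ Ideal.le_comap_map).toLinearMap _)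
  rintro _ ⟨x, hx, rfl⟩
  obtain ⟨y, hy, rfl⟩ := h hx
  exact ⟨_, ⟨y, hy, rfl⟩, rfl⟩

/-- The count along the new level. -/
theorem cntB {K : Type} [Field K] [Algebra k K] {A ι : Type} [CommRing A] [Algebra A R]
    [Fintype ι] [DecidableEq ι] {m p : Ideal R} {η : ι → R} {δ : ι → Derivation A R R}
    (T : Tay m p η δ) (hm : m.IsMaximal) (ρ : R →ₐ[k] K) (hρ : ∀ r, ρ r = 0 ↔ r ∈ m)
    (hu : ∀ r, r ∉ m → IsUnit r) (hS : Gr S) (hf : ∀ j, FiniteDimensional k (S j)) {a b w c : ℕ}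
    (h : Lev S p m (a / (b + 1 : ℕ)) w c) (j : ℕ) :
    ((b + 1) * j + Fintype.card ι).choose (Fintype.card ι) *
      finrank k ((S (a * j)).map ρ.toLinearMap) ≤ finrank k (img (S (2 * a * j + a + c)) p) := by
  have := hf (2 * a * j + a + c)
  have h1 : Ch m (S (a * j + a + c)) (p ⊔ m ^ ((b + 1) * (j + 1))) ⊤ :=
    h.ch_top hS (M := (b + 1) * (j + 1)) le_sup_left (le_of_eq (by
      push_cast
      field_simp))
  refine le_trans (h1.cnt hm ρ hρ hu (S (a * j)) (S (2 * a * j + a + c)) (fun e he x hx => ?_) ?_)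
    (img_anti _ le_sup_left)
  · exact hS.mono (le_of_eq (by ring)) (hS.mul _ _ _ _ he hx)
  · refine (T.length_ge hm.ne_top _).trans ?_
    have h2 : p ⊔ m ^ ((b + 1) * (j + 1)) ≤ m ^ ((b + 1) * j + 1) ⊔ p :=
      sup_le le_sup_right (le_sup_of_le_left (Ideal.pow_le_pow_right (by nlinarith)))
    exact Module.length_le_of_surjective (Submodule.factor h2) (Submodule.factor_surjective h2)

end lev

section num

theorem pow_le_fac_choose (x c : ℕ) : x ^ c ≤ c.factorial * (x + c).choose c := by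
  rw [← Nat.ascFactorial_eq_factorial_mul_choose]
  exact (Nat.pow_le_pow_left x.le_succ c).trans (Nat.pow_succ_le_ascFactorial _ _)

/-- The degree estimate, in natural numbers. -/
theorem deg_nat {H H' : ℕ → ℕ} {d d' c g g' e e' a b c₀ : ℕ} (ha : 0 < a) (hd : d' ≤ d)
    (hc : d - d' ≤ c) (h1 : ∀ j, H j ≤ g * (j + e + d).choose d)
    (h2 : ∀ j, g' * (j + d').choose d' ≤ H' (j + e'))
    (h3 : ∀ j, ((b + 1) * j + c).choose c * H' (a * j) ≤ H (2 * a * j + a + c₀)) :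
    g' * (b + 1) ^ (d - d') ≤ 6 ^ d * d.factorial * a ^ (d - d') * g := by
  obtain ⟨c', rfl⟩ := Nat.exists_eq_add_of_le hd
  rw [Nat.add_sub_cancel_left] at hc ⊢
  set j := 2 * e' + a + c₀ + e + (d' + c') + 1 with hj
  have hj0 : 0 < j := by omega
  have haj : j ≤ a * j := Nat.le_mul_of_pos_left j ha
  obtain ⟨i, hi⟩ : ∃ i, a * j = i + e' := ⟨a * j - e', by omega⟩
  have k1 : ((b + 1) * j) ^ c' ≤ c'.factorial * ((b + 1) * j + c).choose c := by
    refine (pow_le_fac_choose _ _).trans (Nat.mul_le_mul_left _ ?_)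
    rw [← Nat.choose_symm_add, ← Nat.choose_symm_add (b := c)]
    exact Nat.choose_le_choose _ (by omega)
  have k2 : (a * j) ^ d' ≤ 2 ^ d' * (d'.factorial * (i + d').choose d') := by
    refine le_trans ?_ (Nat.mul_le_mul_left _ (pow_le_fac_choose i d'))
    rw [← mul_pow]
    exact Nat.pow_le_pow_left (by omega) _
  have k3 : H (2 * a * j + a + c₀) ≤ g * (3 * (a * j)) ^ (d' + c') := by
    refine (h1 _).trans (Nat.mul_le_mul_left _ ((Nat.choose_le_pow _ _).trans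
      (Nat.pow_le_pow_left ?_ _)))
    have : 2 * a * j = 2 * (a * j) := by ring
    omega
  have k4 := h2 i
  rw [← hi] at k4
  have k5 : c'.factorial * d'.factorial ≤ (d' + c').factorial := by
    rw [mul_comm]
    exact Nat.le_of_dvd (Nat.factorial_pos _) (Nat.factorial_mul_factorial_dvd_factorial_add _ _)
  have k6 : 2 ^ d' ≤ 2 ^ (d' + c') := Nat.pow_le_pow_right two_pos (by omega)
  refine Nat.le_of_mul_le_mul_right (c := j ^ c' * (a * j) ^ d') ?_ (by positivity)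
  calc g' * (b + 1) ^ c' * (j ^ c' * (a * j) ^ d')
      = ((b + 1) * j) ^ c' * ((a * j) ^ d' * g') := by rw [mul_pow (b + 1)]; ring
    _ ≤ c'.factorial * ((b + 1) * j + c).choose c *
        (2 ^ d' * (d'.factorial * (i + d').choose d') * g') := by gcongr
    _ = c'.factorial * d'.factorial * 2 ^ d' *
        (((b + 1) * j + c).choose c * (g' * (i + d').choose d')) := by ring
    _ ≤ (d' + c').factorial * 2 ^ (d' + c') * (g * (3 * (a * j)) ^ (d' + c')) :=
        Nat.mul_le_mul (Nat.mul_le_mul k5 k6) (((Nat.mul_le_mul_left _ k4).trans (h3 j)).trans k3)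
    _ = 6 ^ (d' + c') * (d' + c').factorial * a ^ c' * g * (j ^ c' * (a * j) ^ d') := by
        rw [show (6 : ℕ) = 2 * 3 by norm_num, mul_pow, mul_pow, mul_pow, mul_pow, pow_add a,
          pow_add j]
        ring

theorem choose_deg {d g e : ℕ} {V δ : ℝ} (hV0 : 0 < V) (hV : V ^ d = g) (hδ : 0 < δ)
    (hδ' : δ < 1 / 2) (hd : 0 < d) : ∃ j a₀ b : ℕ, 0 < j ∧ 0 < a₀ ∧
      (a₀ + d * b + d).choose d < g * (j + d).choose d ∧ (1 - 2 * δ) * V * (j + e : ℕ) ≤ a₀ ∧
      δ * V * (j + e : ℕ) ≤ 2 * d * (b + 1 : ℕ) := by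
  have hδV := mul_pos hδ hV0
  obtain ⟨j, hj⟩ := exists_nat_gt ((d + V * e + 4) / (δ * V))
  have he : (0 : ℝ) ≤ e := Nat.cast_nonneg e
  have hd' : (0 : ℝ) < d := by exact_mod_cast hd
  have hVe := mul_nonneg hV0.le he
  have hj0 : (0 : ℝ) < j := lt_trans (by positivity) hj
  rw [div_lt_iff₀ hδV] at hj
  set x : ℝ := V * (j + e) with hx
  have hx0 : 0 < x := by positivity
  have h1 : d + V * e + 4 < δ * x := by
    have := mul_nonneg hδV.le he
    rw [hx]
    nlinarith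
  have h2 : 0 < (1 - 2 * δ) * x := mul_pos (by linarith) hx0
  have h3 := Nat.ceil_lt_add_one h2.le
  have h4 := Nat.lt_floor_add_one ((1 - δ) * x)
  have h5 := Nat.floor_le (show 0 ≤ (1 - δ) * x from (mul_pos (by linarith) hx0).le)
  have h6 := Nat.le_ceil ((1 - 2 * δ) * x)
  set a₀ := ⌈(1 - 2 * δ) * x⌉₊
  set a₁ := ⌊(1 - δ) * x⌋₊
  have h7 : a₀ ≤ a₁ := by
    have : (a₀ : ℝ) ≤ a₁ := by nlinarith
    exact_mod_cast this
  obtain ⟨y, hy⟩ := Nat.exists_eq_add_of_le h7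
  have h8 := Nat.mul_div_le y d
  have h9 : (y : ℝ) < d * (y / d + 1 : ℕ) := by exact_mod_cast Nat.lt_mul_div_succ y hd
  have h10 : (a₁ : ℝ) = a₀ + y := by exact_mod_cast hy
  refine ⟨j, a₀, y / d, by exact_mod_cast hj0, Nat.ceil_pos.2 h2, ?_, ?_, ?_⟩
  · refine lt_of_le_of_lt (Nat.choose_le_choose d (show _ ≤ a₁ + d by omega))
      (Nat.lt_of_mul_lt_mul_left (a := d.factorial) ?_)
    have k1 : d.factorial * (a₁ + d).choose d ≤ (a₁ + d) ^ d := by
      rw [← Nat.descFactorial_eq_factorial_mul_choose]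
      exact Nat.descFactorial_le_pow _ _
    have k2 : ((a₁ + d : ℕ) : ℝ) ^ d < (V * j) ^ d := by
      refine pow_lt_pow_left₀ ?_ (Nat.cast_nonneg _) hd.ne'
      push_cast
      nlinarith
    rw [mul_pow, hV] at k2
    have k3 : (a₁ + d) ^ d < g * j ^ d := by exact_mod_cast k2
    have k4 := Nat.mul_le_mul_left g (pow_le_fac_choose j d)
    rw [mul_left_comm] at k4
    omega
  · push_cast
    nlinarith
  · rw [Nat.cast_add j e, mul_assoc δ, ← hx]
    nlinarith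

/-- The constant in the degree estimate. -/
def cB (n : ℕ) (δ : ℝ) : ℝ := 6 ^ n * n.factorial * (2 * n / δ) ^ n

theorem one_le_cB {n : ℕ} {δ : ℝ} (hδ : 0 < δ) (hδ' : δ ≤ 1) : 1 ≤ cB n δ := by
  rcases n.eq_zero_or_pos with rfl | hn
  · simp [cB]
  have h1 : (1 : ℝ) ≤ n := by exact_mod_cast hn
  have h2 : (1 : ℝ) ≤ 2 * n / δ := by
    rw [le_div_iff₀ hδ]
    linarith
  have h3 : (1 : ℝ) ≤ n.factorial := by exact_mod_cast n.factorial_pos
  exact one_le_mul_of_one_le_of_one_le (one_le_mul_of_one_le_of_one_le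
    (one_le_pow₀ (by norm_num)) h3) (one_le_pow₀ h2)

/-- The degree estimate, for the roots. -/
theorem deg_real {n d d' g g' a b : ℕ} {V V' δ : ℝ} (ha : 0 < a) (h0 : 0 < d') (hd : d' ≤ d)
    (hn : d ≤ n) (hV0 : 0 < V) (hV : V ^ d = g) (hV' : V' ^ d' = g') (hδ : 0 < δ) (hδ' : δ ≤ 1)
    (h1 : δ * V * a ≤ 2 * d * (b + 1 : ℕ))
    (h2 : g' * (b + 1) ^ (d - d') ≤ 6 ^ d * d.factorial * a ^ (d - d') * g) :
    V' ≤ cB n δ * V := by
  obtain ⟨c, rfl⟩ := Nat.exists_eq_add_of_le hd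
  rw [Nat.add_sub_cancel_left] at h2
  have hC := one_le_cB (n := n) hδ hδ'
  have ha' : (0 : ℝ) < a := by exact_mod_cast ha
  have hn' : ((d' + c : ℕ) : ℝ) ≤ n := by exact_mod_cast hn
  have hn1 : (1 : ℝ) ≤ n := by exact_mod_cast (show 1 ≤ n by omega)
  have h3 : (g' : ℝ) * ((b + 1 : ℕ) : ℝ) ^ c ≤
      6 ^ (d' + c) * (d' + c).factorial * (a : ℝ) ^ c * g := by exact_mod_cast h2
  have h4 : V * a ≤ 2 * n / δ * (b + 1 : ℕ) := by
    rw [div_mul_eq_mul_div, le_div_iff₀ hδ]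
    have : (0 : ℝ) ≤ (b + 1 : ℕ) := Nat.cast_nonneg _
    nlinarith
  have h5 : (1 : ℝ) ≤ 2 * n / δ := by
    rw [le_div_iff₀ hδ]
    linarith
  have h6 : (g' : ℝ) ≤ cB n δ * V ^ d' := by
    refine le_of_mul_le_mul_right (a := (V * a) ^ c) ?_ (by positivity)
    calc (g' : ℝ) * (V * a) ^ c ≤ g' * (2 * n / δ * (b + 1 : ℕ)) ^ c := by gcongr
      _ = (2 * n / δ) ^ c * (g' * ((b + 1 : ℕ) : ℝ) ^ c) := by rw [mul_pow]; ring
      _ ≤ (2 * n / δ) ^ n * (6 ^ n * n.factorial * (a : ℝ) ^ c * g) := by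
        refine mul_le_mul (pow_le_pow_right₀ h5 (by omega)) (h3.trans ?_) (by positivity)
          (by positivity)
        gcongr
        norm_num
      _ = cB n δ * V ^ d' * (V * a) ^ c := by rw [cB, ← hV, pow_add, mul_pow]; ring
  refine le_of_pow_le_pow_left₀ h0.ne' (by positivity) ?_
  rw [hV', mul_pow]
  exact h6.trans (mul_le_mul_of_nonneg_right (le_self_pow₀ hC h0.ne') (by positivity))

/-- The descent: `St d V L` is a state of dimension `d`, root `V` and slope `L`. -/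
theorem descent {St Fin : ℕ → ℝ → ℝ → Prop} {C D : ℝ} (hC : 1 ≤ C) (hD : 0 ≤ D)
    (step : ∀ d V L, St d V L → Fin d V L ∨
      ∃ d' V' L', d' < d ∧ St d' V' L' ∧ 0 < V' ∧ V' ≤ C * V ∧ 0 ≤ L' ∧ L' * V ≤ L * V + D)
    (n : ℕ) : ∀ (d : ℕ) (V L B : ℝ), d ≤ n → St d V L → 0 < V → 0 ≤ B → L * V ≤ B →
      ∃ d' V' L', d' ≤ d ∧ St d' V' L' ∧ Fin d' V' L' ∧ 0 < V' ∧ V' ≤ C ^ n * V ∧
        L' * V' ≤ C ^ n * (B + n * D) := by
  induction n with
  | zero =>
    intro d V L B hd h hV _ hL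
    rcases step d V L h with h1 | ⟨d', _, _, h1, -⟩
    · exact ⟨d, V, L, le_rfl, h, h1, hV, by simp, by simpa using hL⟩
    · omega
  | succ n ih =>
    intro d V L B hd h hV hB hL
    have h0 : 1 ≤ C ^ (n + 1) := one_le_pow₀ hC
    have hn : (0 : ℝ) ≤ n := Nat.cast_nonneg n
    rcases step d V L h with h1 | ⟨d', V', L', h1, h2, h3, h4, h5, h6⟩
    · refine ⟨d, V, L, le_rfl, h, h1, hV, le_mul_of_one_le_left hV.le h0, hL.trans ?_⟩
      refine le_trans ?_ (le_mul_of_one_le_left (by positivity) h0)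
      exact le_add_of_nonneg_right (by positivity)
    · obtain ⟨d₁, V₁, L₁, k1, k2, k3, k4, k5, k6⟩ := ih d' V' L' (C * (B + D)) (by omega) h2 h3
        (by positivity) (by nlinarith [mul_le_mul_of_nonneg_left h4 h5])
      have hCn : 0 ≤ C ^ n := by positivity
      refine ⟨d₁, V₁, L₁, by omega, k2, k3, k4, k5.trans ?_, k6.trans ?_⟩
      · rw [pow_succ, mul_assoc]
        exact mul_le_mul_of_nonneg_left h4 hCn
      · rw [pow_succ, mul_assoc]
        refine mul_le_mul_of_nonneg_left ?_ hCn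
        push_cast
        nlinarith [mul_nonneg (mul_nonneg hn hD) (sub_nonneg.2 hC)]

end num

section main
variable {k R : Type} [Field k] [CommRing R] [Algebra k R] {S : ℕ → Submodule k R}

/-- The dichotomy. -/
theorem dich [IsNoetherianRing R] {A ι : Type} [CommRing A] [Algebra A R] [Fintype ι]
    [DecidableEq ι] {m p : Ideal R} {ζ : ι → R} {D : ι → Derivation A R R} (T : Tay m p ζ D)
    (hr : ∀ r : R, ∃ c : k, r - algebraMap k R c ∈ m) (hm : ∀ Q : Ideal R, Q.IsPrime → Q ≤ m)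
    (hp : p.IsPrime) (hS : Gr S) (hG : ∀ r : R, ∃ e u, IsUnit u ∧ u * r ∈ S e)
    (hD : ∀ j i, ∀ x ∈ S j, D i x ∈ S j) {d g e : ℕ} (hι : Fintype.card ι = d) (h0 : 0 < d)
    (hd : ¬ Ind k (d + 1) p) (hg : ∀ j, g * (j + d).choose d ≤ finrank k (img (S (j + e)) p))
    {V δ : ℝ} (hV0 : 0 < V) (hV : V ^ d = g) (hδ : 0 < δ) (hδ' : δ < 1 / 2) :
    (∃ lam c, Lev S p m lam d c ∧ lam * ((1 - 2 * δ) * V) ≤ 1) ∨
      ∃ P : Ideal R, P.IsPrime ∧ p < P ∧ P < m ∧ ∃ (a b : ℕ) (L : Set R), 0 < a ∧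
        δ * V * a ≤ 2 * d * (b + 1 : ℕ) ∧ L.Finite ∧ (∀ x ∈ L, x ∈ S a) ∧
        P ∈ (Ideal.span L ⊔ p).minimalPrimes ∧
        ∀ x ∈ L, ∀ l : List ι, l.length ≤ b → wd D l x ∈ P := by
  obtain ⟨j, a₀, b, k1, k2, k3, k4, k5⟩ := choose_deg (e := e) hV0 hV hδ hδ' h0
  obtain ⟨s, s1, s2, s3⟩ := exs T hr (S (j + e)) (a := a₀ + d * b) (by
    rw [hι]
    exact k3.trans_le (hg j))
  rcases dich₀ T hm hp hS hG hD hd k2 s1
    (sup_le_sup_right (Ideal.pow_le_pow_right (Nat.le_succ _)) p s2) s3 with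
    ⟨c, h⟩ | ⟨P, h1, h2, h3, L, h4⟩
  · refine Or.inl ⟨_, c, hι ▸ h, ?_⟩
    rw [div_mul_eq_mul_div, div_le_one (by exact_mod_cast k2), mul_comm]
    exact k4
  · exact Or.inr ⟨P, h1, h2, h3, j + e, b, L, by omega, k5, h4⟩

variable {R' : Type} [CommRing R'] [Algebra k R'] {S' : ℕ → Submodule k R'}

/-- The second case: the new level and the degree estimate. -/
theorem caseB [IsNoetherianRing R'] [IsLocalRing R'] {k₀ K A ι : Type} [Field k₀] [CharZero k₀]
    [Field K] [Algebra k₀ K] [Algebra k K] [CommRing A]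
    [Algebra A R] [Fintype ι] [DecidableEq ι] (φ : R →ₐ[k] R') (ρ : R' →ₐ[k] K) {p P : Ideal R}
    {lam : k₀ →+* R' ⧸ p.map φ} {D : ι → Derivation A R R} {D' : ι → Derivation ℤ R' R'}
    {t : ι → R'} (H : DetQ (ρ : R' →+* K) (p.map φ) lam D' t)
    (hρ : ∀ r, ρ r = 0 ↔ r ∈ P.map φ) (hP : ∀ r, ρ (φ r) = 0 → r ∈ P)
    (hD : ∀ i x, φ (D i x) = D' i (φ x)) (hS : Gr S') (hf : ∀ j, FiniteDimensional k (S j))
    (hφ : ∀ j, S' j = (S j).map φ.toLinearMap) (hG : ∀ r : R', ∃ e u, IsUnit u ∧ u * r ∈ S' e)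
    {n d d' g g' e e' : ℕ} (hι : Fintype.card ι = d) (h0 : 0 < d') (hd : d' ≤ d) (hn : d ≤ n)
    (x : Fin d' → K) (hx : Algebra.IsAlgebraic (Algebra.adjoin k₀ (Set.range x)) K)
    (hg : ∀ j, finrank k (img (S j) p) ≤ g * (j + e + d).choose d)
    (hg' : ∀ j, g' * (j + d').choose d' ≤ finrank k ((S' (j + e')).map ρ.toLinearMap))
    {V V' δ : ℝ} (hV0 : 0 < V) (hV : V ^ d = g) (hV' : V' ^ d' = g') (hδ : 0 < δ) (hδ' : δ ≤ 1)
    {a b : ℕ} {L : Set R} (ha : 0 < a) (hab : δ * V * a ≤ 2 * d * (b + 1 : ℕ)) (hL : L.Finite)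
    (h1 : ∀ x ∈ L, x ∈ S a) (h2 : P ∈ (Ideal.span L ⊔ p).minimalPrimes)
    (h3 : ∀ x ∈ L, ∀ l : List ι, l.length ≤ b → wd D l x ∈ P) :
    (∃ l c, Lev S' (p.map φ) (P.map φ) l d c ∧ l * V ≤ 2 * n / δ) ∧ V' ≤ cB n δ * V := by
  have hk : RingHom.ker (ρ : R' →+* K) = P.map φ := Ideal.ext hρ
  have hmax : (P.map φ).IsMaximal := hk ▸ RingHom.ker_isMaximal_of_surjective _ H.surj
  have hloc := IsLocalRing.eq_maximalIdeal hmax
  obtain ⟨c, η, r, T, c1, c2⟩ := H.exists_tay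
  rw [hk] at T
  have c3 := c2 d' x hx
  obtain ⟨c₀, hl⟩ := levB (S := S) (S' := S') (φ : R →+* R')
    (fun j x hx => hφ j ▸ ⟨x, hx, rfl⟩) hS hG (p := p) (P := P)
    (fun Q hQ y hy => hP y ((hρ _).2 (hloc ▸ IsLocalRing.le_maximalIdeal hQ.ne_top hy))) hD T
    (fun i => ⟨r i, sum_smul_apply D' (r i)⟩) hL h1 h2 h3
  have hf' : ∀ j, FiniteDimensional k (S' j) := fun j => by
    have := hf j
    rw [hφ]
    infer_instance
  rw [Fintype.card_fin] at hl
  refine ⟨⟨_, c₀, hl.mono le_rfl (hι ▸ c1) le_rfl, ?_⟩, deg_real ha h0 hd hn hV0 hV hV' hδ hδ' hab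
    (deg_nat (H := fun j => finrank k (img (S j) p))
      (H' := fun j => finrank k ((S' j).map ρ.toLinearMap)) (c := c) (c₀ := c₀) ha hd (by omega)
      hg hg' fun j => ?_)⟩
  · have hb : (0 : ℝ) < (b + 1 : ℕ) := by exact_mod_cast b.succ_pos
    have hn' : (d : ℝ) ≤ n := by exact_mod_cast hn
    rw [div_mul_eq_mul_div, div_le_div_iff₀ hb hδ]
    nlinarith
  · have := hf (2 * a * j + a + c₀)
    have h4 := cntB T hmax ρ hρ
      (fun r hr => IsLocalRing.notMem_maximalIdeal.1 (hloc ▸ hr)) hS hf' hl j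
    rw [Fintype.card_fin] at h4
    exact h4.trans (img_map φ _ _ (hφ _).le p)

end main

end Pool.Agent.Lib.A35.Di
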