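import Pool.Agent.Lib.A35.Chain
import Pool.Agent.Lib.A35.Tay

/-! The dichotomy of section 4: ring part. -/

set_option autoImplicit false

open Module

noncomputable section

namespace Pool.Agent.Lib.A35.H45

open Pool.Agent.Lib.A35.T

section primes
variable {R : Type} [CommRing R]

/-- A power of `m` lies in `I` when every prime over `I` contains `m`. -/
theorem pow_le_of_primes [IsNoetherianRing R] {m I : Ideal R}
    (h : ∀ Q : Ideal R, Q.IsPrime → I ≤ Q → m ≤ Q) : ∃ B, m ^ B ≤ I := by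
  refine Ideal.exists_pow_le_of_le_radical_of_fg ?_ (IsNoetherian.noetherian _)
  rw [Ideal.radical_eq_sInf]
  exact le_sInf fun Q hQ => h Q hQ.2 hQ.1

theorem ht_step {p P Q : Ideal R} [P.IsPrime] [Q.IsPrime] (hp : p ≤ P) (h : P < Q) :
    (P.map (Ideal.Quotient.mk p)).height + 1 ≤ (Q.map (Ideal.Quotient.mk p)).height := by
  have h1 : ∀ I : Ideal R, p ≤ I → RingHom.ker (Ideal.Quotient.mk p) ≤ I := fun I hI => by
    rwa [Ideal.mk_ker]
  have := Ideal.map_isPrime_of_surjective Ideal.Quotient.mk_surjective (h1 P hp)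
  have := Ideal.map_isPrime_of_surjective Ideal.Quotient.mk_surjective (h1 Q (hp.trans h.le))
  refine Ideal.height_add_one_le_of_lt_of_isPrime (lt_of_le_of_ne (Ideal.map_mono h.le) fun e => ?_)
  have := congrArg (Ideal.comap (Ideal.Quotient.mk p)) e
  rw [Ideal.comap_map_quotientMk, Ideal.comap_map_quotientMk, sup_eq_right.2 hp,
    sup_eq_right.2 (hp.trans h.le)] at this
  exact h.ne this

theorem ht_le [IsNoetherianRing R] {ι : Type} [Fintype ι] {m p : Ideal R} [hm : m.IsPrime]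
    (ζ : ι → R) (h : m = Ideal.span (Set.range ζ) ⊔ p) :
    (m.map (Ideal.Quotient.mk p)).height ≤ Fintype.card ι := by
  classical
  have hp : p ≤ m := h ▸ le_sup_right
  have := Ideal.map_isPrime_of_surjective (f := Ideal.Quotient.mk p) Ideal.Quotient.mk_surjective
    (I := m) (by rwa [Ideal.mk_ker])
  have h1 : m.map (Ideal.Quotient.mk p) = Ideal.span
      ((Finset.univ.image fun i => Ideal.Quotient.mk p (ζ i) : Finset (R ⧸ p)) : Set (R ⧸ p)) := by
    rw [h, Ideal.map_sup, Ideal.map_quotient_self, sup_bot_eq, Ideal.map_span, Finset.coe_image,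
      Finset.coe_univ, Set.image_univ, ← Set.range_comp]
    rfl
  refine (Ideal.height_le_card_of_mem_minimalPrimes_span_finset
    (s := Finset.univ.image fun i => Ideal.Quotient.mk p (ζ i)) ?_).trans ?_
  · rw [← h1, Ideal.minimalPrimes_eq_subsingleton_self]
    rfl
  · exact_mod_cast Finset.card_image_le

/-- The pigeonhole principle for minimal primes of an increasing sequence of ideals. -/
theorem pigeon {p : Ideal R} [p.IsPrime] (I : ℕ → Ideal R) (hI : Monotone I) (h0 : p < I 0)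
    (n : ℕ) : ∀ Q : Ideal R, Q.IsPrime → I n ≤ Q →
      (∃ i < n, ∃ P ∈ (I i).minimalPrimes, P ≤ Q ∧ I (i + 1) ≤ P) ∨
        ((n + 1 : ℕ) : ℕ∞) ≤ (Q.map (Ideal.Quotient.mk p)).height := by
  induction n with
  | zero =>
    intro Q hQ h
    exact Or.inr (le_trans (by simp) (ht_step le_rfl (h0.trans_le h)))
  | succ n ih =>
    intro Q hQ h
    obtain ⟨P, hP, hPQ⟩ := Ideal.exists_minimalPrimes_le ((hI (Nat.le_succ n)).trans h)
    by_cases h1 : I (n + 1) ≤ P
    · exact Or.inl ⟨n, Nat.lt_succ_self n, P, hP, hPQ, h1⟩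
    have := hP.1.1
    rcases ih P hP.1.1 hP.1.2 with ⟨i, hi, P', h2, h3, h4⟩ | h2
    · exact Or.inl ⟨i, by omega, P', h2, h3.trans hPQ, h4⟩
    · refine Or.inr (le_trans ?_ (ht_step ((h0.le.trans (hI (Nat.zero_le n))).trans hP.1.2)
        (lt_of_le_of_ne hPQ fun e => h1 (e ▸ h))))
      push_cast at h2 ⊢
      exact add_le_add h2 le_rfl

end primes

section dich
variable {k A R : Type} [Field k] [CommRing A] [CommRing R] [Algebra k R] [Algebra A R]
  {ι : Type} [Fintype ι] [DecidableEq ι]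

/-- An element of high order, by counting. -/
theorem exists_high {m p : Ideal R} {ζ : ι → R} {δ : ι → Derivation A R R} (T : Tay m p ζ δ)
    (hk : ∀ r : R, ∃ c : k, r - algebraMap k R c ∈ m) (Z : Submodule k R) [FiniteDimensional k Z]
    (a : ℕ) (h : (a + Fintype.card ι).choose (Fintype.card ι) < finrank k (img Z p)) :
    ∃ s ∈ Z, s ∈ m ^ (a + 1) ⊔ p ∧ s ∉ p := by
  by_contra hn
  push Not at hn
  obtain ⟨h1, h2⟩ := T.finrank_le hk a
  have h3 := finrank_img Z p
  have h4 := finrank_img Z (m ^ (a + 1) ⊔ p)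
  have h5 : Z ⊓ (m ^ (a + 1) ⊔ p).restrictScalars k = Z ⊓ p.restrictScalars k :=
    le_antisymm (fun x hx => ⟨hx.1, hn x hx.1 hx.2⟩)
      fun x hx => ⟨hx.1, Ideal.mem_sup_right hx.2⟩
  have h6 := Submodule.finrank_le (img Z (m ^ (a + 1) ⊔ p))
  rw [h5] at h4
  omega

/-- The words of length at most `j` applied to `s`. -/
def wds (δ : ι → Derivation A R R) (s : R) (j : ℕ) : Finset R :=
  ((List.finite_length_le ι j).image fun l => wd δ l s).toFinset

omit [DecidableEq ι] in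
theorem mem_wds {δ : ι → Derivation A R R} {s x : R} {j : ℕ} :
    x ∈ wds δ s j ↔ ∃ l : List ι, l.length ≤ j ∧ wd δ l s = x := by
  simp [wds]

omit [Fintype ι] [DecidableEq ι] in
theorem wd_mem_sub {δ : ι → Derivation A R R} {Z : Submodule k R} (h : ∀ i, ∀ x ∈ Z, δ i x ∈ Z)
    (l : List ι) {x : R} (hx : x ∈ Z) : wd δ l x ∈ Z := by
  induction l with
  | nil => exact hx
  | cons i l ih => exact h i _ ih

omit [DecidableEq ι] in
/-- A level from a finite set of high order cutting out `m`. -/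
theorem lev_of_primes [IsNoetherianRing R] {S : ℕ → Submodule k R} (hS : Monotone S)
    {m p : Ideal R} {η : ι → R} (hm : m = Ideal.span (Set.range η) ⊔ p)
    (hu : ∀ j, ∃ (e : ℕ) (u : R), IsUnit u ∧ u * η j ∈ S e) {L : Finset R} {a b : ℕ} {lam : ℝ}
    (hL : ∀ x ∈ L, x ∈ S a) (hL' : ∀ x ∈ L, x ∈ m ^ b ⊔ p) (hb : 0 < b) (hl : (a : ℝ) ≤ lam * b)
    (h : ∀ Q : Ideal R, Q.IsPrime → Ideal.span (L : Set R) ⊔ p ≤ Q → m ≤ Q) :
    ∃ c, Lev S p m lam (Fintype.card ι) c := by
  classical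
  obtain ⟨B, hB⟩ := pow_le_of_primes h
  choose e u hu1 hu2 using hu
  obtain ⟨g, g1, g2, g3⟩ := exists_units (T := S (Finset.univ.sup e)) (Finset.univ.image η) (by
    simp only [Finset.forall_mem_image]
    exact fun j _ => ⟨u j, hu1 j, hS (Finset.le_sup (Finset.mem_univ j)) (hu2 j)⟩)
  refine ⟨_, L, g, a, _, b, B, hL, g1, g2.trans Finset.card_image_le, ?_, hL', hB, hb, hl, le_rfl⟩
  rw [g3, hm, sup_comm, Finset.coe_image, Finset.coe_univ, Set.image_univ]

/-- DICH. Either (A) a level from `p` to `m`, or (B) a prime strictly between `p` and `m`, minimal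
over a finite subset of `S a` and `p`, containing the short words applied to this subset. -/
theorem dich [IsNoetherianRing R] {S : ℕ → Submodule k R} (hS : Monotone S) {m p : Ideal R}
    [hm : m.IsPrime] [p.IsPrime] (hloc : ∀ r, r ∉ m → IsUnit r) {ζ : ι → R}
    {δ : ι → Derivation A R R} (T : Tay m p ζ δ)
    (hu : ∀ j, ∃ (e : ℕ) (u : R), IsUnit u ∧ u * ζ j ∈ S e) {a a0 a1 b : ℕ}
    (hδ : ∀ i, ∀ x ∈ S a, δ i x ∈ S a) {s : R} (hs : s ∈ S a) (hs1 : s ∈ m ^ a1 ⊔ p) (hs2 : s ∉ p)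
    (h0 : 0 < a0) (hab : a0 + Fintype.card ι * b ≤ a1) {lam : ℝ} (hl : (a : ℝ) ≤ lam * a0) :
    (∃ c, Lev S p m lam (Fintype.card ι) c) ∨ ∃ (P : Ideal R) (L : Finset R), P.IsPrime ∧ p < P ∧
      P < m ∧ (∀ x ∈ L, x ∈ S a) ∧ P ∈ (Ideal.span (L : Set R) ⊔ p).minimalPrimes ∧
      ∀ x ∈ L, ∀ l : List ι, l.length ≤ b → wd δ l x ∈ P := by
  have hL : ∀ j, ∀ x ∈ wds δ s j, x ∈ S a := fun j x hx => by
    obtain ⟨l, -, rfl⟩ := mem_wds.1 hx
    exact wd_mem_sub hδ l hs
  let I : ℕ → Ideal R := fun i => Ideal.span (wds δ s (i * b) : Set R) ⊔ p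
  by_cases h : ∀ Q : Ideal R, Q.IsPrime → I (Fintype.card ι) ≤ Q → m ≤ Q
  · refine Or.inl (lev_of_primes hS T.eq hu (hL _) (fun x hx => ?_) h0 hl h)
    obtain ⟨l, h1, rfl⟩ := mem_wds.1 hx
    exact wd_pow_sup δ m p T.pres l a0 s
      (sup_le_sup_right (Ideal.pow_le_pow_right (by omega)) p hs1)
  push Not at h
  obtain ⟨Q, hQ, h1, h2⟩ := h
  have hQm : Q < m := lt_of_le_of_ne (fun x hx => by_contra fun h3 =>
    hQ.ne_top (Q.eq_top_of_isUnit_mem hx (hloc x h3))) fun e => h2 e.ge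
  have hI : Monotone I := fun i j hij => sup_le_sup_right (Ideal.span_mono fun x hx => by
    obtain ⟨l, h3, rfl⟩ := mem_wds.1 hx
    exact mem_wds.2 ⟨l, h3.trans (Nat.mul_le_mul_right b hij), rfl⟩) p
  have hI0 : p < I 0 := lt_of_le_of_ne le_sup_right fun e => hs2 (e ▸ Ideal.mem_sup_left
    (Ideal.subset_span (mem_wds.2 ⟨[], by simp, rfl⟩)))
  rcases pigeon I hI hI0 _ Q hQ h1 with ⟨i, -, P, h3, h4, h5⟩ | h3
  · refine Or.inr ⟨P, wds δ s (i * b), h3.1.1, (hI0.trans_le (hI (Nat.zero_le i))).trans_le h3.1.2,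
      h4.trans_lt hQm, hL _, h3, fun x hx l hl => h5 (Ideal.mem_sup_left (Ideal.subset_span ?_))⟩
    obtain ⟨l', h6, rfl⟩ := mem_wds.1 hx
    refine mem_wds.2 ⟨l ++ l', ?_, wd_append _ _ _ _⟩
    rw [List.length_append, add_mul]
    omega
  · have h4 := (ht_step (le_sup_right.trans h1) hQm).trans (ht_le ζ T.eq)
    have h5 : ((Fintype.card ι + 1 : ℕ) : ℕ∞) ≤ (Fintype.card ι : ℕ) :=
      h3.trans (le_self_add.trans h4)
    have : Fintype.card ι + 1 ≤ Fintype.card ι := by exact_mod_cast h5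
    omega

end dich

section loc
variable {k A A' A'' R R' : Type} [Field k] [CommRing A] [CommRing A'] [CommRing A''] [CommRing R]
  [CommRing R'] [Algebra k R'] [Algebra A R] [Algebra A' R'] [Algebra A'' R'] {ι κ : Type}

/-- Words in combinations of derivations are combinations of words that are not longer. -/
theorem wd_comb [Fintype ι] (d : ι → Derivation A' R' R') (δ : κ → Derivation A'' R' R')
    (r : κ → ι → R') (h : ∀ i x, δ i x = ∑ j, r i j * d j x) (y : R') (l : List κ) :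
    wd δ l y ∈ Ideal.span {z | ∃ l' : List ι, l'.length ≤ l.length ∧ wd d l' y = z} := by
  induction l with
  | nil => exact Ideal.subset_span ⟨[], le_rfl, rfl⟩
  | cons i l ih =>
    rw [wd_cons, h]
    refine sum_mem fun j _ => Ideal.mul_mem_left _ _ ?_
    refine Submodule.span_induction (p := fun z _ => d j z ∈ Ideal.span
      {z | ∃ l' : List ι, l'.length ≤ (i :: l).length ∧ wd d l' y = z}) ?_ ?_ ?_ ?_ ih
    · rintro _ ⟨l', h1, rfl⟩
      exact Ideal.subset_span ⟨j :: l', by simpa using h1, rfl⟩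
    · simp
    · intro a b _ _ ha hb
      rw [map_add]
      exact add_mem ha hb
    · intro c a h1 ha
      rw [smul_eq_mul, Derivation.leibniz, smul_eq_mul, smul_eq_mul]
      refine add_mem (Ideal.mul_mem_left _ _ ha) (Ideal.mul_mem_right _ _ ?_)
      refine Ideal.span_mono ?_ h1
      rintro _ ⟨l', h2, rfl⟩
      exact ⟨l', h2.trans (by simp), rfl⟩

theorem wd_map (φ : R →+* R') (d : ι → Derivation A R R) (d' : ι → Derivation A' R' R')
    (h : ∀ j x, d' j (φ x) = φ (d j x)) (l : List ι) (x : R) : wd d' l (φ x) = φ (wd d l x) := by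
  induction l with
  | nil => rfl
  | cons i l ih => rw [wd_cons, wd_cons, ih, h]

/-- Case (B): in the localisation at `P` the chosen elements have order more than `b`. -/
theorem mem_pow_loc [Fintype ι] [Fintype κ] [DecidableEq κ] (φ : R →+* R')
    (d : ι → Derivation A R R) (d' : ι → Derivation A' R' R') (hd : ∀ j x, d' j (φ x) = φ (d j x))
    {m' p' : Ideal R'} {η : κ → R'} {δ : κ → Derivation A'' R' R'} (T : Tay m' p' η δ)
    (r : κ → ι → R') (h : ∀ i x, δ i x = ∑ j, r i j * d' j x) {x : R} {b : ℕ}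
    (hx : ∀ l : List ι, l.length ≤ b → φ (wd d l x) ∈ m') : φ x ∈ m' ^ (b + 1) ⊔ p' := by
  refine T.mem_pow _ fun l hl => Ideal.span_le.2 ?_ (wd_comb d' δ r h (φ x) l)
  rintro _ ⟨l', h1, rfl⟩
  rw [wd_map φ d d' hd]
  exact hx l' (by omega)

/-- Case (B): the maximal ideal is the only prime over the chosen elements and `p`. -/
theorem only_prime_loc (φ : R →+* R') {I P : Ideal R} (hP : P ∈ I.minimalPrimes) {m' : Ideal R'}
    (hloc : ∀ r, r ∉ m' → IsUnit r) (h1 : m'.comap φ ≤ P) (h2 : m' ≤ P.map φ) (Q : Ideal R')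
    (hQ : Q.IsPrime) (h : I.map φ ≤ Q) : m' ≤ Q := by
  have hQm : Q ≤ m' := fun x hx => by_contra fun h3 =>
    hQ.ne_top (Q.eq_top_of_isUnit_mem hx (hloc x h3))
  exact h2.trans (Ideal.map_le_iff_le_comap.2 (hP.2 ⟨inferInstance, Ideal.map_le_iff_le_comap.1 h⟩
    ((Ideal.comap_mono hQm).trans h1)))

/-- Case (B): the new level, in the localisation at `P`. -/
theorem lev_loc [Fintype ι] [Fintype κ] [DecidableEq κ] [IsNoetherianRing R'] (φ : R →+* R')
    {S' : ℕ → Submodule k R'} (hS : Monotone S') {p P : Ideal R} {L : Finset R}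
    (hP : P ∈ (Ideal.span (L : Set R) ⊔ p).minimalPrimes) {m' : Ideal R'}
    (hloc : ∀ r, r ∉ m' → IsUnit r) (h1 : m'.comap φ = P) (h2 : m' ≤ P.map φ)
    (d : ι → Derivation A R R) (d' : ι → Derivation A' R' R') (hd : ∀ j x, d' j (φ x) = φ (d j x))
    {η : κ → R'} {δ : κ → Derivation A'' R' R'} (T : Tay m' (p.map φ) η δ)
    (r : κ → ι → R') (h : ∀ i x, δ i x = ∑ j, r i j * d' j x)
    (hu : ∀ j, ∃ (e : ℕ) (u : R'), IsUnit u ∧ u * η j ∈ S' e) {a b : ℕ}
    (hL : ∀ x ∈ L, φ x ∈ S' a) (hw : ∀ x ∈ L, ∀ l : List ι, l.length ≤ b → wd d l x ∈ P) {lam : ℝ}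
    (hl : (a : ℝ) ≤ lam * (b + 1)) :
    ∃ c, Lev S' (p.map φ) m' lam (Fintype.card κ) c := by
  classical
  refine lev_of_primes hS T.eq hu (L := L.image φ) (a := a) (b := b + 1) ?_ ?_ (Nat.succ_pos b)
    (by push_cast; exact hl) fun Q hQ h3 => only_prime_loc φ hP hloc h1.le h2 Q hQ ?_
  · simpa only [Finset.forall_mem_image] using hL
  · simp only [Finset.forall_mem_image]
    exact fun x hx => mem_pow_loc φ d d' hd T r h fun l hl => h1.ge (hw x hx l hl)
  · rwa [Ideal.map_sup, Ideal.map_span, ← Finset.coe_image]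

end loc

section deg
variable {k A R K : Type} [Field k] [CommRing A] [CommRing R] [Algebra k R] [Algebra A R]
  [Field K] [Algebra k K] {κ : Type} [Fintype κ] [DecidableEq κ]

theorem finrank_img_anti (Z : Submodule k R) [FiniteDimensional k Z] {I J : Ideal R} (h : I ≤ J) :
    finrank k (img Z J) ≤ finrank k (img Z I) := by
  have h1 := finrank_img Z I
  have h2 := finrank_img Z J
  have h3 : finrank k ↥(Z ⊓ I.restrictScalars k) ≤ finrank k ↥(Z ⊓ J.restrictScalars k) :=
    Submodule.finrank_mono (inf_le_inf_left Z fun x hx => h hx)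
  omega

/-- DEG, ring part: a level from `p` to `m` bounds the Hilbert function at `m` by that at `p`. -/
theorem deg_ring {S : ℕ → Submodule k R} (hS : Gr S) (hfd : ∀ j, FiniteDimensional k (S j))
    {m p : Ideal R} (hm : m.IsMaximal) (ρ : R →ₐ[k] K) (hρ : ∀ r, ρ r = 0 ↔ r ∈ m)
    (hloc : ∀ r, r ∉ m → IsUnit r) {η : κ → R} {δ : κ → Derivation A R R} (T : Tay m p η δ)
    {lam : ℝ} {w c : ℕ} (h : Lev S p m lam w c) {c' : ℕ} (hc : c' ≤ Fintype.card κ) {M i N : ℕ}
    (hN : lam * (M + 1) + c ≤ N) :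
    (M + c').choose c' * finrank k ((S i).map ρ.toLinearMap) ≤ finrank k (img (S (i + N)) p) := by
  have h1 : Ch m (S N) (p ⊔ m ^ (M + 1)) ⊤ := h.ch_top hS le_sup_left (by push_cast; exact hN)
  have := hfd (i + N)
  refine (h1.cnt hm ρ hρ hloc (S i) (S (i + N)) (fun e he x hx => hS.mul _ _ _ _ he hx) ?_).trans
    (finrank_img_anti _ le_sup_left)
  rw [sup_comm]
  refine le_trans ?_ (T.length_ge hm.ne_top M)
  have h2 : (M + c').choose c' ≤ (M + Fintype.card κ).choose (Fintype.card κ) := by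
    rw [Nat.choose_symm_add.symm, (Nat.choose_symm_add (b := Fintype.card κ)).symm]
    exact Nat.choose_le_choose M (by omega)
  exact_mod_cast h2

end deg

end Pool.Agent.Lib.A35.H45
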