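import Pool.Agent.Lib.A35.Dich

/-! The dichotomy of section 4: numbers. -/

set_option autoImplicit false

open Module Filter Topology

noncomputable section

namespace Pool.Agent.Lib.A35.H45

open Pool.Agent.Lib.A35.T

theorem pow_le_choose' (j d : ℕ) : ((j : ℝ) + 1) ^ d / d.factorial ≤ (j + d).choose d := by
  have := Nat.pow_le_choose (α := ℝ) d (j + d)
  rwa [show j + d + 1 - d = j + 1 by omega, Nat.cast_add, Nat.cast_one] at this

theorem choose_le_pow' (j d : ℕ) : ((j + d).choose d : ℝ) ≤ ((j : ℝ) + d) ^ d / d.factorial := by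
  have := Nat.choose_le_pow_div (α := ℝ) d (j + d)
  rwa [Nat.cast_add] at this

theorem tendsto_div_nat (E : ℝ) : Tendsto (fun j : ℕ => E / (j : ℝ)) atTop (𝓝 0) :=
  tendsto_const_div_atTop_nhds_zero_nat E

/-- DEG, numerical part. -/
theorem deg_num {H H' : ℕ → ℕ} {F F' lam : ℝ} (hF : 0 ≤ F) (hF' : 0 ≤ F') (hl : 0 < lam)
    {d' c' c e e' : ℕ} (hH : ∀ j, (H j : ℝ) ≤ F * (j + e + (d' + c')).choose (d' + c'))
    (hH' : ∀ j, F' * (j + d').choose d' ≤ H' (j + e'))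
    (h : ∀ M i N : ℕ, lam * (M + 1) + c ≤ N → (M + c').choose c' * H' i ≤ H (i + N)) :
    F' ≤ 2 ^ (d' + c') * lam ^ c' * F := by
  obtain ⟨E, hE⟩ : ∃ E : ℝ, E = (e' : ℝ) + c + e + (d' + c') := ⟨_, rfl⟩
  have hE0 : 0 ≤ E := by rw [hE]; positivity
  have key : ∀ᶠ j : ℕ in atTop, F' * (1 / lam - 1 / j) ^ c' ≤ F * (2 + E / j) ^ (d' + c') := by
    filter_upwards [tendsto_natCast_atTop_atTop.eventually_ge_atTop lam, eventually_gt_atTop 0]
      with j hj hj0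
    have hj1 : (0 : ℝ) < j := by exact_mod_cast hj0
    have h1 : 1 ≤ (j : ℝ) / lam := (one_le_div hl).2 hj
    obtain ⟨M, hM⟩ : ∃ M, ⌊(j : ℝ) / lam⌋₊ = M + 1 :=
      Nat.exists_eq_succ_of_ne_zero (Nat.floor_pos.2 h1).ne'
    have h2 : (M : ℝ) + 1 ≤ j / lam := by
      have := Nat.floor_le (zero_le_one.trans h1)
      rw [hM] at this
      exact_mod_cast this
    have h3 : (j : ℝ) / lam - 1 ≤ M + 1 := by
      have := Nat.lt_floor_add_one ((j : ℝ) / lam)
      rw [hM] at this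
      push_cast at this
      linarith
    have h4 := h M (j + e') (j + c) (by
      rw [le_div_iff₀ hl] at h2
      push_cast
      linarith)
    have h5 : ((M + c').choose c' : ℝ) * H' (j + e') ≤ H (j + e' + (j + c)) := by exact_mod_cast h4
    have h6 := pow_le_choose' M c'
    have h7 := pow_le_choose' j d'
    have h8 := choose_le_pow' (j + e' + (j + c) + e) (d' + c')
    have h9 : ((j + e' + (j + c) + e : ℕ) : ℝ) + (d' + c' : ℕ) = 2 * j + E := by
      rw [hE]; push_cast; ring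
    rw [h9] at h8
    have f1 : (0 : ℝ) < c'.factorial := by exact_mod_cast c'.factorial_pos
    have f2 : (0 : ℝ) < d'.factorial := by exact_mod_cast d'.factorial_pos
    have f3 : (d'.factorial : ℝ) * c'.factorial ≤ (d' + c').factorial := by
      exact_mod_cast Nat.le_of_dvd (Nat.factorial_pos _)
        (Nat.factorial_mul_factorial_dvd_factorial_add d' c')
    have h10 : ((j : ℝ) / lam - 1) ^ c' / c'.factorial * (F' * ((j : ℝ) ^ d' / d'.factorial)) ≤
        F * ((2 * j + E) ^ (d' + c') / (d'.factorial * c'.factorial)) := by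
      refine le_trans ?_ (h5.trans ((hH _).trans (mul_le_mul_of_nonneg_left (h8.trans ?_) hF)))
      · refine mul_le_mul (le_trans ?_ h6) (le_trans ?_ (hH' j)) (by positivity) (by positivity)
        · have : 0 ≤ (j : ℝ) / lam - 1 := by linarith
          gcongr
        · refine mul_le_mul_of_nonneg_left (le_trans ?_ h7) hF'
          gcongr
          linarith
      · gcongr
    have e1 : 1 / lam - 1 / j = ((j : ℝ) / lam - 1) / j := by field_simp
    have e2 : 2 + E / j = (2 * (j : ℝ) + E) / j := by field_simp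
    rw [e1, e2, div_pow, div_pow, ← mul_div_assoc, ← mul_div_assoc,
      div_le_div_iff₀ (by positivity) (by positivity), pow_add, ← mul_assoc]
    refine mul_le_mul_of_nonneg_right ?_ (by positivity)
    have e3 : ((j : ℝ) / lam - 1) ^ c' / c'.factorial * (F' * ((j : ℝ) ^ d' / d'.factorial)) =
      F' * ((j : ℝ) / lam - 1) ^ c' * (j : ℝ) ^ d' / (d'.factorial * c'.factorial) := by field_simp
    rw [e3, ← mul_div_assoc, div_le_div_iff_of_pos_right (by positivity)] at h10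
    exact h10
  have t1 : Tendsto (fun j : ℕ => F' * (1 / lam - 1 / (j : ℝ)) ^ c') atTop
      (𝓝 (F' * (1 / lam - 0) ^ c')) :=
    ((tendsto_const_nhds.sub (tendsto_div_nat 1)).pow _).const_mul _
  have t2 : Tendsto (fun j : ℕ => F * (2 + E / (j : ℝ)) ^ (d' + c')) atTop
      (𝓝 (F * (2 + 0) ^ (d' + c'))) :=
    ((tendsto_const_nhds.add (tendsto_div_nat E)).pow _).const_mul _
  have h1 := le_of_tendsto_of_tendsto t1 t2 key
  rw [sub_zero, add_zero, one_div, inv_pow, ← div_eq_mul_inv, div_le_iff₀ (by positivity)] at h1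
  linarith

/-- The choice of the degree and of the orders. -/
theorem params {x δ : ℝ} (hx : 0 < x) (hδ : 0 < δ) (hδ' : δ < 1 / 2) {d : ℕ} (hd : 0 < d) (e : ℕ) :
    ∃ j a a0 b : ℕ, ((a + d).choose d : ℝ) < x ^ d * (j + d).choose d ∧ 0 < a0 ∧
      a0 + d * b ≤ a + 1 ∧ ((j + e : ℕ) : ℝ) ≤ 1 / ((1 - 2 * δ) * x) * a0 ∧
      ((j + e : ℕ) : ℝ) ≤ 2 * d / (δ * x) * (b + 1) := by
  have hδx : 0 < δ * x := by positivity
  obtain ⟨j, hj⟩ := exists_nat_gt ((4 + d + e * x) / (δ * x))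
  rw [div_lt_iff₀ hδx] at hj
  have hd' : (0 : ℝ) < d := by exact_mod_cast hd
  have he : (0 : ℝ) ≤ e := Nat.cast_nonneg e
  have hex : 0 ≤ e * x := by positivity
  have hj0 : (0 : ℝ) < j := by
    by_contra h
    have : (j : ℝ) * (δ * x) ≤ 0 := mul_nonpos_of_nonpos_of_nonneg (not_lt.1 h) hδx.le
    linarith
  obtain ⟨y, hy⟩ : ∃ y : ℝ, y = ((j : ℝ) + e) * x := ⟨_, rfl⟩
  have hy0 : 0 < y := by rw [hy]; positivity
  have hy1 : 4 < δ * y := by rw [hy]; nlinarith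
  have h1 : 0 < (1 - 2 * δ) * y := mul_pos (by linarith) hy0
  have h2 : 0 ≤ (1 - δ) * y := by nlinarith
  have a1 := Nat.floor_le h2
  have a2 := Nat.lt_floor_add_one ((1 - δ) * y)
  have a3 := Nat.le_ceil ((1 - 2 * δ) * y)
  have a4 := Nat.ceil_lt_add_one h1.le
  generalize ⌊(1 - δ) * y⌋₊ = a at a1 a2
  have a5 := Nat.ceil_pos.2 h1
  generalize ⌈(1 - 2 * δ) * y⌉₊ = a0 at a3 a4 a5
  have a6 : a0 ≤ a := by
    have : (a0 : ℝ) ≤ a := by linarith
    exact_mod_cast this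
  have b1 := Nat.mul_div_le (a - a0) d
  have b2 := Nat.lt_mul_div_succ (a - a0) hd
  generalize (a - a0) / d = b at b1 b2
  have b3 : (a : ℝ) - a0 < d * (b + 1) := by
    have : ((a - a0 : ℕ) : ℝ) < (d * (b + 1) : ℕ) := by exact_mod_cast b2
    rwa [Nat.cast_sub a6, Nat.cast_mul, Nat.cast_add, Nat.cast_one] at this
  refine ⟨j, a, a0, b, (choose_le_pow' a d).trans_lt (lt_of_lt_of_le ?_
    (mul_le_mul_of_nonneg_left (pow_le_choose' j d) (by positivity))), a5, by omega, ?_, ?_⟩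
  · rw [← mul_div_assoc, ← mul_pow]
    have f1 : (0 : ℝ) < d.factorial := by exact_mod_cast d.factorial_pos
    refine div_lt_div_of_pos_right (pow_lt_pow_left₀ ?_ (by positivity) hd.ne') f1
    rw [hy] at a1
    nlinarith
  · rw [one_div, inv_mul_eq_div, le_div_iff₀ (mul_pos (by linarith) hx)]
    push_cast
    rw [hy] at a3
    linarith
  · rw [div_mul_eq_mul_div, le_div_iff₀ hδx]
    push_cast
    have : ((j : ℝ) + e) * (δ * x) = δ * y := by rw [hy]; ring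
    rw [this]
    linarith

section
variable {k A R : Type} [Field k] [CommRing A] [CommRing R] [Algebra k R] [Algebra A R]

/-- DICH with numbers: `x = u v`, where `x ^ d` is the degree of the Hilbert function. -/
theorem dich_num [IsNoetherianRing R] {S : ℕ → Submodule k R} (hS : Monotone S)
    (hfd : ∀ j, FiniteDimensional k (S j)) {m p : Ideal R} [hm : m.IsPrime] [p.IsPrime]
    (hloc : ∀ r, r ∉ m → IsUnit r) (hk : ∀ r : R, ∃ c : k, r - algebraMap k R c ∈ m) {d : ℕ}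
    (hd : 0 < d) {ζ : Fin d → R} {D : Fin d → Derivation A R R} (T : Tay m p ζ D)
    (hu : ∀ j, ∃ (e : ℕ) (u : R), IsUnit u ∧ u * ζ j ∈ S e) (hD : ∀ i j, ∀ x ∈ S j, D i x ∈ S j)
    {x δ : ℝ} (hx : 0 < x) (hδ : 0 < δ) (hδ' : δ < 1 / 2) {e : ℕ}
    (hH : ∀ j, x ^ d * (j + d).choose d ≤ finrank k (img (S (j + e)) p)) :
    (∃ c, Lev S p m (1 / ((1 - 2 * δ) * x)) d c) ∨ ∃ (P : Ideal R) (L : Finset R) (a b : ℕ),
      P.IsPrime ∧ p < P ∧ P < m ∧ (∀ y ∈ L, y ∈ S a) ∧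
      P ∈ (Ideal.span (L : Set R) ⊔ p).minimalPrimes ∧
      (∀ y ∈ L, ∀ l : List (Fin d), l.length ≤ b → wd D l y ∈ P) ∧
      (a : ℝ) ≤ 2 * d / (δ * x) * (b + 1) := by
  obtain ⟨j, a, a0, b, h1, h2, h3, h4, h5⟩ := params hx hδ hδ' hd e
  have := hfd (j + e)
  obtain ⟨s, hs, hs1, hs2⟩ := exists_high T hk (S (j + e)) a (by
    rw [Fintype.card_fin]
    exact_mod_cast h1.trans_le (hH j))
  rcases dich hS hloc T hu (fun i => hD i _) hs hs1 hs2 h2 (b := b) (by rwa [Fintype.card_fin]) h4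
    with h | ⟨P, L, h6, h7, h8, h9, h10, h11⟩
  · rw [Fintype.card_fin] at h
    exact Or.inl h
  · exact Or.inr ⟨P, L, j + e, b, h6, h7, h8, h9, h10, h11, h5⟩

end

/-- The new volume is bounded by a constant times the old one. -/
theorem vol_step {n d d' : ℕ} {δ v v' : ℝ} (hδ : 0 < δ) (hδ' : δ ≤ 1) (hv : 0 < v) (hd : d ≤ n)
    (h1 : 0 < d') (h2 : d' < d) (h : v' ^ d' ≤ 2 ^ d * (2 * d / (δ * v)) ^ (d - d') * v ^ d) :
    v' ≤ 2 ^ n * (2 * n / δ) ^ n * v := by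
  have hn : (1 : ℝ) ≤ n := by exact_mod_cast (show 1 ≤ n by omega)
  have hdn : (d : ℝ) ≤ n := by exact_mod_cast hd
  have h3 : 1 ≤ 2 * n / δ := by
    rw [one_le_div hδ]
    linarith
  have h4 : (1 : ℝ) ≤ 2 ^ n * (2 * n / δ) ^ n :=
    one_le_mul_of_one_le_of_one_le (one_le_pow₀ one_le_two) (one_le_pow₀ h3)
  refine le_of_pow_le_pow_left₀ h1.ne' (by positivity) (h.trans ?_)
  obtain ⟨c, rfl⟩ := Nat.exists_eq_add_of_le h2.le
  have e : (2 : ℝ) ^ (d' + c) * (2 * (d' + c : ℕ) / (δ * v)) ^ (d' + c - d') * v ^ (d' + c) =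
      2 ^ (d' + c) * (2 * (d' + c : ℕ) / δ) ^ c * v ^ d' := by
    rw [Nat.add_sub_cancel_left, pow_add v, ← div_div, div_pow _ v]
    field_simp
  rw [e, mul_pow]
  refine mul_le_mul_of_nonneg_right (le_trans ?_ (le_self_pow₀ h4 h1.ne')) (by positivity)
  refine mul_le_mul (pow_le_pow_right₀ one_le_two hd) (le_trans ?_
    (pow_le_pow_right₀ h3 (show c ≤ n by omega))) (by positivity) (by positivity)
  gcongr

/-- The induction of section 4. `St m d v Λ`: a state; `A m d v Λ`: a state in case (A). -/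
theorem induct (n : ℕ) {δ : ℝ} (hδ : 0 < δ) (hδ' : δ ≤ 1) (St A : ℕ → ℕ → ℝ → ℝ → Prop)
    (h0 : ∀ m d v Λ, St m d v Λ → 0 < v ∧ 0 ≤ Λ ∧ d ≤ n)
    (hstep : ∀ m d v Λ, St m d v Λ → v < m → A m d v Λ ∨ ∃ d' v', 0 < d' ∧ d' < d ∧
      v' ^ d' ≤ 2 ^ d * (2 * d / (δ * v)) ^ (d - d') * v ^ d ∧ St m d' v' (Λ + 2 * d / (δ * v)))
    (hA : ∀ C : ℝ, ∃ T : ℝ, ∀ m d v Λ, A m d v Λ → Λ * v ≤ C → T * v ≤ m → False) (C : ℝ) :
    ∃ T : ℝ, ∀ m d v Λ, St m d v Λ → Λ * v ≤ C → T * v ≤ m → False := by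
  obtain ⟨K, hK⟩ : ∃ K : ℝ, K = 2 ^ n * (2 * n / δ) ^ n := ⟨_, rfl⟩
  have hK0 : 0 ≤ K := by rw [hK]; positivity
  suffices H : ∀ (D : ℕ) (C : ℝ), ∃ T : ℝ, ∀ m d v Λ, d < D → St m d v Λ → Λ * v ≤ C →
      T * v ≤ m → False by
    obtain ⟨T, hT⟩ := H (n + 1) C
    exact ⟨T, fun m d v Λ h => hT m d v Λ (Nat.lt_succ_of_le (h0 _ _ _ _ h).2.2) h⟩
  intro D
  induction D with
  | zero => exact fun C => ⟨0, fun m d v Λ h => absurd h (Nat.not_lt_zero d)⟩
  | succ D ih =>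
    intro C
    obtain ⟨T1, hT1⟩ := hA C
    obtain ⟨T2, hT2⟩ := ih ((C + 2 * n / δ) * K)
    refine ⟨max (max T1 2) (|T2| * K), fun m d v Λ hd h hC hT => ?_⟩
    obtain ⟨hv, hΛ, hdn⟩ := h0 _ _ _ _ h
    have h1 : ∀ t : ℝ, t ≤ max (max T1 2) (|T2| * K) → t * v ≤ m := fun t ht =>
      (mul_le_mul_of_nonneg_right ht hv.le).trans hT
    have h2 := h1 2 ((le_max_right _ _).trans (le_max_left _ _))
    rcases hstep m d v Λ h (by linarith) with h3 | ⟨d', v', h3, h4, h5, h6⟩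
    · exact hT1 m d v Λ h3 hC (h1 _ ((le_max_left _ _).trans (le_max_left _ _)))
    have h7 := vol_step hδ hδ' hv hdn h3 h4 h5
    rw [← hK] at h7
    obtain ⟨hv', hΛ', -⟩ := h0 _ _ _ _ h6
    refine hT2 m d' v' _ (by omega) h6 ((mul_le_mul_of_nonneg_left h7 hΛ').trans ?_) ?_
    · have e : (Λ + 2 * d / (δ * v)) * (K * v) = (Λ * v + 2 * d / δ) * K := by field_simp
      have hdn' : (d : ℝ) ≤ n := by exact_mod_cast hdn
      rw [e]
      gcongr
    · refine le_trans ?_ (h1 _ (le_max_right _ _))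
      rw [mul_assoc]
      exact (mul_le_mul_of_nonneg_right (le_abs_self T2) hv'.le).trans
        (mul_le_mul_of_nonneg_left h7 (abs_nonneg _))

/-- The start of the induction. -/
theorem start {n : ℕ} (c T : ℝ) : ∃ m₀ : ℕ, ∀ m : ℕ, m₀ ≤ m → 0 < m ∧ ∀ v : ℝ, 0 ≤ v →
    v ^ (n + 1) ≤ c * (m : ℝ) ^ n → T * v ≤ m := by
  obtain ⟨m₀, h⟩ := exists_nat_gt (|T| ^ (n + 1) * |c|)
  have h0 : 0 ≤ |T| ^ (n + 1) * |c| := by positivity
  refine ⟨m₀, fun m hm => ?_⟩
  have hm' : (m₀ : ℝ) ≤ m := by exact_mod_cast hm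
  have hm0 : (0 : ℝ) < m := by linarith
  refine ⟨by exact_mod_cast hm0, fun v hv h1 => ?_⟩
  refine (mul_le_mul_of_nonneg_right (le_abs_self T) hv).trans
    (le_of_pow_le_pow_left₀ (Nat.succ_ne_zero n) hm0.le ?_)
  rw [mul_pow, pow_succ' (m : ℝ)]
  refine (mul_le_mul_of_nonneg_left (h1.trans (mul_le_mul_of_nonneg_right (le_abs_self c)
    (by positivity))) (by positivity)).trans ?_
  rw [← mul_assoc]
  exact mul_le_mul_of_nonneg_right (h.le.trans hm') (by positivity)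

end Pool.Agent.Lib.A35.H45
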