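import Pool.Agent.Lib.A35.ChainEH
import Pool.Agent.Lib.NV.Spread

/-! Eventual homomorphisms: reductions of a field, polynomials, extension along a presentation. -/

set_option autoImplicit false
set_option linter.unusedVariables false

open Filter Polynomial

noncomputable section

namespace Pool.Agent.Lib.A35

open Pool.Agent.Lib.UR

section gen
variable {I : Type} {U : Filter I} {A : Type} [CommRing A] {B : I → Type} [∀ i, CommRing (B i)]
  {f : ∀ i, A → B i}

/-- Restriction of the index set. -/
theorem eh_comap (h : EH U f) {I' : Type} (e : I' → I) :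
    EH (U.comap e) fun i a => f (e i) a where
  one := (tendsto_comap (f := e)).eventually h.one
  add a b := (tendsto_comap (f := e)).eventually (h.add a b)
  mul a b := (tendsto_comap (f := e)).eventually (h.mul a b)

theorem neBot_sub [U.NeBot] {P : I → Prop} (h : ∀ᶠ i in U, P i) :
    (U.comap (Subtype.val : {i // P i} → I)).NeBot :=
  comap_neBot fun t ht => by
    obtain ⟨i, h1, h2⟩ := (h.and ht).exists
    exact ⟨⟨i, h1⟩, h2⟩

theorem eh_ringHom (g : ∀ i, A →+* B i) : EH U fun i a => g i a where
  one := Eventually.of_forall fun i => map_one _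
  add a b := Eventually.of_forall fun i => map_add _ _ _
  mul a b := Eventually.of_forall fun i => map_mul _ _ _

/-- Extension along a presentation by fractions. -/
theorem eh_extend (h : EH U f) {R : Type} [CommRing R] (φ : A →+* R)
    (h1 : ∀ r : R, ∃ s g : A, r * φ s = φ g ∧ ∀ᶠ i in U, IsUnit (f i s))
    (h2 : ∀ g : A, φ g = 0 → ∀ᶠ i in U, f i g = 0) :
    ∃ f' : ∀ i, R → B i, EH U f' ∧ ∀ g, ∀ᶠ i in U, f' i (φ g) = f i g := by
  choose s g hsg hu using h1
  have key : ∀ (r : R) (s' g' : A), r * φ s' = φ g' →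
      ∀ᶠ i in U, f i (g r) * Ring.inverse (f i (s r)) * f i s' = f i g' := by
    intro r s' g' e
    have e0 : φ (g r * s' - g' * s r) = 0 := by
      rw [map_sub, map_mul, map_mul, ← hsg, ← e]; ring
    filter_upwards [h2 _ e0, eh_sub h (g r * s') (g' * s r), h.mul (g r) s', h.mul g' (s r), hu r]
      with i k1 k2 k3 k4 k5
    rw [k2, k3, k4, sub_eq_zero] at k1
    rw [mul_right_comm, k1, mul_assoc, Ring.mul_inverse_cancel _ k5, mul_one]
  have k0 : ∀ a, ∀ᶠ i in U, f i (g (φ a)) * Ring.inverse (f i (s (φ a))) = f i a := fun a => by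
    filter_upwards [key (φ a) 1 a (by simp), h.one] with i k1 k2
    rwa [k2, mul_one] at k1
  refine ⟨fun i r => f i (g r) * Ring.inverse (f i (s r)), ⟨?_, fun a b => ?_, fun a b => ?_⟩, k0⟩
  · filter_upwards [k0 1, h.one] with i k1 k2
    rwa [map_one, k2] at k1
  · filter_upwards [key (a + b) (s a * s b) (g a * s b + g b * s a) (by
        rw [map_add, map_mul, map_mul, map_mul, ← hsg, ← hsg]; ring), hu a, hu b,
      h.mul (s a) (s b), h.add (g a * s b) (g b * s a), h.mul (g a) (s b), h.mul (g b) (s a)]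
      with i k1 k2 k3 k4 k5 k6 k7
    rw [k4, k5, k6, k7] at k1
    refine (k2.mul k3).mul_right_cancel (k1.trans ?_)
    have l1 := Ring.inverse_mul_cancel _ k2
    have l2 := Ring.inverse_mul_cancel _ k3
    linear_combination (-(f i (g a) * f i (s b))) * l1 - f i (g b) * f i (s a) * l2
  · filter_upwards [key (a * b) (s a * s b) (g a * g b) (by
        rw [map_mul, map_mul, ← hsg, ← hsg]; ring), hu a, hu b,
      h.mul (s a) (s b), h.mul (g a) (g b)] with i k1 k2 k3 k4 k5
    rw [k4, k5] at k1
    refine (k2.mul k3).mul_right_cancel (k1.trans ?_)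
    have l1 := Ring.inverse_mul_cancel _ k2
    have l2 := Ring.inverse_mul_cancel _ k3
    linear_combination (-(f i (g a) * f i (g b))) * l1 -
      f i (g a) * f i (g b) * (Ring.inverse (f i (s a)) * f i (s a)) * l2

/-- Uniqueness of the extension. -/
theorem eh_ext_frac (h : EH U f) {f' : ∀ i, A → B i} (h' : EH U f') {r s g : A} (e : r * s = g)
    (hu : IsUnit s) (hs : ∀ᶠ i in U, f i s = f' i s) (hg : ∀ᶠ i in U, f i g = f' i g) :
    ∀ᶠ i in U, f i r = f' i r := by
  filter_upwards [h.mul r s, h'.mul r s, eh_unit h hu, hs, hg] with i k1 k2 k3 k4 k5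
  refine k3.mul_right_cancel ?_
  rw [← k1, e, k5, k4, ← k2, e]

/-! ### Polynomials in several variables -/

section mv
variable {σ : Type}

open Classical in
theorem coeff_pm_of_mem {A B : Type} [CommRing A] [CommRing B] (f : A → B) (P : MvPolynomial σ A)
    (α : σ →₀ ℕ) : (pm f P).coeff α = if P.coeff α = 0 then 0 else f (P.coeff α) := by
  classical
  simp only [pm, MvPolynomial.coeff_sum, MvPolynomial.coeff_monomial, Finset.sum_ite_eq',
    MvPolynomial.mem_support_iff]
  by_cases h : P.coeff α = 0 <;> simp [h]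

theorem coeff_pm {A B : Type} [CommRing A] [CommRing B] {f : A → B} (h0 : f 0 = 0)
    (P : MvPolynomial σ A) (α : σ →₀ ℕ) : (pm f P).coeff α = f (P.coeff α) := by
  rw [coeff_pm_of_mem]
  split_ifs with h
  · rw [h, h0]
  · rfl

theorem totalDegree_pm {A B : Type} [CommRing A] [CommRing B] (f : A → B) (P : MvPolynomial σ A) :
    (pm f P).totalDegree ≤ P.totalDegree :=
  Finset.sup_mono fun α hα => by
    rw [MvPolynomial.mem_support_iff] at hα ⊢
    intro h
    rw [coeff_pm_of_mem, if_pos h] at hα
    exact hα rfl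

theorem eh_pm_monomial (h : EH U f) (α : σ →₀ ℕ) (a : A) :
    ∀ᶠ i in U, pm (f i) (MvPolynomial.monomial α a) = MvPolynomial.monomial α (f i a) := by
  classical
  filter_upwards [eh_zero h] with i h0
  ext β
  rw [coeff_pm h0, MvPolynomial.coeff_monomial, MvPolynomial.coeff_monomial]
  split_ifs
  · rfl
  · exact h0

theorem eh_pm_add (h : EH U f) (P Q : MvPolynomial σ A) :
    ∀ᶠ i in U, pm (f i) (P + Q) = pm (f i) P + pm (f i) Q := by
  classical
  filter_upwards [eh_zero h, (eventually_all_finset (P.support ∪ Q.support)).2 fun α _ =>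
    h.add (P.coeff α) (Q.coeff α)] with i h0 h1
  ext β
  rw [MvPolynomial.coeff_add, coeff_pm h0, coeff_pm h0, coeff_pm h0, MvPolynomial.coeff_add]
  by_cases hβ : β ∈ P.support ∪ Q.support
  · exact h1 β hβ
  · rw [Finset.mem_union, not_or, MvPolynomial.notMem_support_iff,
      MvPolynomial.notMem_support_iff] at hβ
    rw [hβ.1, hβ.2, add_zero, h0, add_zero]

theorem eh_pm (h : EH U f) : EH U fun i (P : MvPolynomial σ A) => pm (f i) P where
  one := by
    filter_upwards [eh_pm_monomial h (0 : σ →₀ ℕ) 1, h.one] with i h1 h2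
    rw [h2] at h1
    exact h1
  add := eh_pm_add h
  mul P Q := by
    induction P using MvPolynomial.induction_on' with
    | monomial α a =>
      induction Q using MvPolynomial.induction_on' with
      | monomial β b =>
        filter_upwards [eh_pm_monomial h α a, eh_pm_monomial h β b,
          eh_pm_monomial h (α + β) (a * b), h.mul a b] with i h1 h2 h3 h4
        rw [MvPolynomial.monomial_mul, h1, h2, h3, h4, MvPolynomial.monomial_mul]
      | add Q Q' h1 h2 =>
        filter_upwards [h1, h2, eh_pm_add h Q Q', eh_pm_add h (MvPolynomial.monomial α a * Q)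
          (MvPolynomial.monomial α a * Q')] with i h1 h2 h3 h4
        rw [mul_add, h4, h1, h2, h3, mul_add]
    | add P P' h1 h2 =>
      filter_upwards [h1, h2, eh_pm_add h P P', eh_pm_add h (P * Q) (P' * Q)] with i h1 h2 h3 h4
      rw [add_mul, h4, h1, h2, h3, add_mul]

theorem eh_pm_C (h : EH U f) (a : A) :
    ∀ᶠ i in U, pm (σ := σ) (f i) (MvPolynomial.C a) = MvPolynomial.C (f i a) :=
  eh_pm_monomial h 0 a

theorem eh_pm_X (h : EH U f) (j : σ) :
    ∀ᶠ i in U, pm (f i) (MvPolynomial.X j : MvPolynomial σ A) = MvPolynomial.X j := by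
  filter_upwards [eh_pm_monomial h (Finsupp.single j 1) 1, h.one] with i h1 h2
  rw [h2] at h1
  exact h1

/-- Eventual homomorphisms on a polynomial ring are determined on constants and variables. -/
theorem eh_mv_ext {g g' : ∀ i, MvPolynomial σ A → B i} (h : EH U g) (h' : EH U g')
    (hC : ∀ a, ∀ᶠ i in U, g i (MvPolynomial.C a) = g' i (MvPolynomial.C a))
    (hX : ∀ j, ∀ᶠ i in U, g i (MvPolynomial.X j) = g' i (MvPolynomial.X j))
    (P : MvPolynomial σ A) : ∀ᶠ i in U, g i P = g' i P := by
  induction P using MvPolynomial.induction_on with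
  | C a => exact hC a
  | add P Q h1 h2 =>
    filter_upwards [h1, h2, h.add P Q, h'.add P Q] with i h1 h2 h3 h4
    rw [h3, h4, h1, h2]
  | mul_X P j h1 =>
    filter_upwards [h1, hX j, h.mul P (MvPolynomial.X j), h'.mul P (MvPolynomial.X j)]
      with i h1 h2 h3 h4
    rw [h3, h4, h1, h2]

end mv

/-! ### Polynomials in one variable -/

open Classical in
theorem coeff_pp_ite {A B : Type} [CommRing A] [CommRing B] (f : A → B) (P : A[X]) (n : ℕ) :
    (pp f P).coeff n = if P.coeff n = 0 then 0 else f (P.coeff n) := by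
  simp only [pp, finsetSum_coeff, coeff_monomial, Finset.sum_ite_eq', mem_support_iff]
  by_cases h : P.coeff n = 0 <;> simp [h]

theorem coeff_pp {A B : Type} [CommRing A] [CommRing B] {f : A → B} (h0 : f 0 = 0) (P : A[X])
    (n : ℕ) : (pp f P).coeff n = f (P.coeff n) := by
  rw [coeff_pp_ite]
  split_ifs with h
  · rw [h, h0]
  · rfl

theorem natDegree_pp {A B : Type} [CommRing A] [CommRing B] (f : A → B) (P : A[X]) :
    (pp f P).natDegree ≤ P.natDegree :=
  natDegree_le_iff_coeff_eq_zero.2 fun n hn => by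
    rw [coeff_pp_ite, if_pos (coeff_eq_zero_of_natDegree_lt hn)]

theorem monic_pp {A B : Type} [CommRing A] [CommRing B] [Nontrivial B] {f : A → B} (h0 : f 0 = 0)
    (h1 : f 1 = 1) {P : A[X]} (hP : P.Monic) :
    (pp f P).Monic ∧ (pp f P).natDegree = P.natDegree := by
  have h2 : (pp f P).coeff P.natDegree = 1 := by rw [coeff_pp h0, hP.coeff_natDegree, h1]
  exact ⟨monic_of_natDegree_le_of_coeff_eq_one _ (natDegree_pp f P) h2,
    le_antisymm (natDegree_pp f P) (le_natDegree_of_ne_zero (by rw [h2]; exact one_ne_zero))⟩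

theorem eh_pp_monomial (h : EH U f) (n : ℕ) (a : A) :
    ∀ᶠ i in U, pp (f i) (monomial n a) = monomial n (f i a) := by
  filter_upwards [eh_zero h] with i h0
  ext m
  rw [coeff_pp h0, coeff_monomial, coeff_monomial]
  split_ifs
  · rfl
  · exact h0

theorem eh_pp_add (h : EH U f) (P Q : A[X]) :
    ∀ᶠ i in U, pp (f i) (P + Q) = pp (f i) P + pp (f i) Q := by
  filter_upwards [eh_zero h, (eventually_all_finset (P.support ∪ Q.support)).2 fun α _ =>
    h.add (P.coeff α) (Q.coeff α)] with i h0 h1
  ext β
  rw [coeff_add, coeff_pp h0, coeff_pp h0, coeff_pp h0, coeff_add]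
  by_cases hβ : β ∈ P.support ∪ Q.support
  · exact h1 β hβ
  · rw [Finset.mem_union, not_or, notMem_support_iff, notMem_support_iff] at hβ
    rw [hβ.1, hβ.2, add_zero, h0, add_zero]

theorem eh_pp (h : EH U f) : EH U fun i (P : A[X]) => pp (f i) P where
  one := by
    filter_upwards [eh_pp_monomial h 0 1, h.one] with i h1 h2
    rw [h2] at h1
    exact h1
  add := eh_pp_add h
  mul P Q := by
    induction P using Polynomial.induction_on' with
    | monomial α a =>
      induction Q using Polynomial.induction_on' with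
      | monomial β b =>
        filter_upwards [eh_pp_monomial h α a, eh_pp_monomial h β b,
          eh_pp_monomial h (α + β) (a * b), h.mul a b] with i h1 h2 h3 h4
        rw [monomial_mul_monomial, h1, h2, h3, h4, monomial_mul_monomial]
      | add Q Q' h1 h2 =>
        filter_upwards [h1, h2, eh_pp_add h Q Q', eh_pp_add h (monomial α a * Q)
          (monomial α a * Q')] with i h1 h2 h3 h4
        rw [mul_add, h4, h1, h2, h3, mul_add]
    | add P P' h1 h2 =>
      filter_upwards [h1, h2, eh_pp_add h P P', eh_pp_add h (P * Q) (P' * Q)] with i h1 h2 h3 h4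
      rw [add_mul, h4, h1, h2, h3, add_mul]

theorem eh_pp_C (h : EH U f) (a : A) : ∀ᶠ i in U, pp (f i) (C a) = C (f i a) :=
  eh_pp_monomial h 0 a

theorem eh_pp_X (h : EH U f) : ∀ᶠ i in U, pp (f i) (X : A[X]) = X := by
  filter_upwards [eh_pp_monomial h 1 1, h.one] with i h1 h2
  rw [h2] at h1
  exact h1

theorem eh_poly_ext {g g' : ∀ i, A[X] → B i} (h : EH U g) (h' : EH U g')
    (hC : ∀ a, ∀ᶠ i in U, g i (C a) = g' i (C a)) (hX : ∀ᶠ i in U, g i X = g' i X) (P : A[X]) :
    ∀ᶠ i in U, g i P = g' i P := by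
  induction P using Polynomial.induction_on' with
  | monomial n a =>
    filter_upwards [hC a, hX, h.mul (C a) (X ^ n), h'.mul (C a) (X ^ n), eh_pow h X n,
      eh_pow h' X n] with i h1 h2 h3 h4 h5 h6
    rw [← C_mul_X_pow_eq_monomial, h3, h4, h5, h6, h1, h2]
  | add P Q h1 h2 =>
    filter_upwards [h1, h2, h.add P Q, h'.add P Q] with i h1 h2 h3 h4
    rw [h3, h4, h1, h2]

theorem derivative_pp (h : EH U f) (P : A[X]) :
    ∀ᶠ i in U, pp (f i) (derivative P) = derivative (pp (f i) P) := by
  induction P using Polynomial.induction_on' with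
  | monomial n a =>
    filter_upwards [eh_pp_monomial h n a, eh_pp_monomial h (n - 1) (a * n), h.mul a n,
      eh_natCast h n] with i h1 h2 h3 h4
    rw [derivative_monomial, h1, h2, h3, h4, derivative_monomial]
  | add P Q h1 h2 =>
    filter_upwards [h1, h2, eh_pp_add h P Q, eh_pp_add h (derivative P) (derivative Q)]
      with i h1 h2 h3 h4
    rw [derivative_add, h3, h4, h1, h2, derivative_add]

end gen

/-- Reductions of a field to finite fields. -/
theorem exists_red (κ : Type) [Field κ] : ∃ (I : Type) (U : Filter I) (_ : U.NeBot) (k : I → Type)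
    (_ : ∀ i, Field (k i)) (_ : ∀ i, Finite (k i)) (π : ∀ i, κ → k i), EH U π := by
  classical
  choose R k fk fin π hR using fun s : Finset κ => NV.exists_res (s : Set κ) s.finite_toSet
  have hm : ∀ a : κ, ∀ᶠ s : Finset κ in atTop, a ∈ R s := fun a =>
    (eventually_ge_atTop {a}).mono fun s hs => hR s (hs (Finset.mem_singleton_self a))
  refine ⟨Finset κ, atTop, inferInstance, k, fk, fin,
    fun s a => if h : a ∈ R s then π s ⟨a, h⟩ else 0, Eventually.of_forall fun s => ?_,
    fun a b => ?_, fun a b => ?_⟩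
  · rw [dif_pos (R s).one_mem]
    exact map_one (π s)
  · filter_upwards [hm a, hm b] with s ha hb
    rw [dif_pos ha, dif_pos hb, dif_pos ((R s).add_mem ha hb), ← map_add]
    rfl
  · filter_upwards [hm a, hm b] with s ha hb
    rw [dif_pos ha, dif_pos hb, dif_pos ((R s).mul_mem ha hb), ← map_mul]
    rfl

end Pool.Agent.Lib.A35
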