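import Pool.Agent.Lib.A35.Blue
import Pool.Agent.Lib.UR.B_JB

/-! Elementary facts on models, systems, points and pointed germs. -/

open Module Submodule Set Filter IsLocalRing

set_option linter.unusedSectionVars false

noncomputable section

namespace Pool.Agent.Lib.A35

open Pool.Agent.Lib.MP_7fcda1_ag Pool.Agent.Lib.UR G

theorem charZ (κ : Type) [Field κ] [Algebra ℂ κ] : CharZero κ :=
  charZero_of_injective_algebraMap (algebraMap ℂ κ).injective

variable {L : Type} [Field L] [Algebra ℂ L] {n : ℕ}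

namespace Mod₀
variable (X : Mod₀ L n)

theorem y_ne (i : Fin (X.N + 1)) : X.y i ≠ 0 := (X.sm i).1

theorem y_ne' : X.y ≠ 0 := fun h => X.y_ne 0 (congrFun h 0)

theorem gen : Gen ℂ X.y := JB.gen (X.sm 0).2.1 fun j => ⟨j, by rw [X.y0, div_one]⟩

include X in
theorem dim : Dim ℂ L n := ⟨X.x, X.tb⟩

include X in
theorem essFin : Algebra.EssFiniteType ℂ L := Du.essFin X.gen

theorem G_ne : X.G ≠ 0 := JB.gauss_ne (X.sm 0).2.1 (X.y_ne 0) X.dual

theorem sys_y : sys ℂ X.y = span ℂ (range X.y) := by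
  rw [sys, insert_eq_of_mem (show (1 : L) ∈ range X.y from ⟨0, X.y0⟩)]

end Mod₀

theorem span_ne_bot {ι : Type} {p : ι → L} (h : p ≠ 0) : span ℂ (range p) ≠ ⊥ := fun e =>
  h (funext fun i => span_eq_bot.1 e _ ⟨i, rfl⟩)

namespace Mod
variable (X : Mod L n)

theorem p_ne : X.p ≠ 0 := by
  obtain ⟨S, h, -⟩ := X.free 0 ⊥ Ideal.isPrime_bot
  exact fun e => h (congrFun e S)

theorem H_eq : X.H = span ℂ (range X.y) := X.sys_y

theorem one_mem_H : (1 : L) ∈ X.H := one_mem_sys _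

theorem y_mem (j : Fin (X.N + 1)) : X.y j ∈ X.H := mem_sys _ j

theorem P_ne : X.P ≠ ⊥ := span_ne_bot X.p_ne

theorem A_ne : X.A ≠ ⊥ := span_ne_bot X.G_ne

theorem H_ne : X.H ≠ ⊥ := fun e => one_ne_zero ((mem_bot ℂ).1 (e ▸ X.one_mem_H))

instance fd_H : FiniteDimensional ℂ X.H := inferInstanceAs (FiniteDimensional ℂ (sys ℂ X.y))

instance fd_P : FiniteDimensional ℂ X.P := .span_of_finite ℂ (finite_range _)

instance fd_A : FiniteDimensional ℂ X.A := .span_of_finite ℂ (finite_range _)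

theorem nefS : Mix.NefS X.P X.H X.q := by
  rw [X.H_eq]
  exact X.nef

theorem sec_eq (a b : ℕ) : Sec X.q X.y X.p a b = Mix.Sec X.P X.H X.q a b := by
  rw [X.H_eq]
  rfl

include X in
theorem fd_cl (W : Submodule ℂ L) [FiniteDimensional ℂ W] : FiniteDimensional ℂ (cl W) :=
  Mix.hFD ℂ L _ X.y n X.gen X.dim W inferInstance

instance fd_SecK (m : ℕ) : FiniteDimensional ℂ (X.SecK m) := by
  have := fd_pow X.P m
  have := fd_mul X.A (X.P ^ m)
  have := fd_mul (X.A * X.P ^ m) X.H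
  have := X.fd_cl (X.A * X.P ^ m * X.H)
  exact finiteDimensional_of_le (S₂ := cl (X.A * X.P ^ m * X.H)) fun x hx => by
    simpa using mem_div_iff_forall_mul_mem.1 hx 1 (one_mem_pow X.one_mem_H _)

theorem eff' : ∃ g : L, g ≠ 0 ∧ span ℂ {g} * X.A ^ X.r * X.H ^ (X.q * X.c) ≤
    cl (X.P ^ X.c * X.H ^ ((n + 1) * X.r)) := by
  rw [X.H_eq]
  exact X.eff

theorem one_le_rat (m : ℕ) : 1 ≤ X.rat m := le_add_of_nonneg_right (by positivity)

end Mod

namespace Sys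
variable {X : Mod L n} {a b : ℕ} (U : Sys X a b)

theorem cls : Mix.Cls X.P X.H X.q (sys ℂ U.w) a b := ⟨U.γ, U.ne, U.eq⟩

theorem one_mem (j : ℕ) : (1 : L) ∈ U.U j := le_cl _ (one_mem_pow (one_mem_sys _) j)

theorem mono : Monotone U.U := fun _ _ h => cl_mono (pow_mono' (one_mem_sys _) h)

theorem mul (i j : ℕ) : U.U i * U.U j ≤ U.U (i + j) := by
  rw [Sys.U, Sys.U, Sys.U, pow_add]
  exact cl_mul_le _ _

theorem mul_mem {i j : ℕ} {x y : L} (hx : x ∈ U.U i) (hy : y ∈ U.U j) : x * y ∈ U.U (i + j) :=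
  U.mul i j (mul_mem_mul hx hy)

theorem w_mem (i : Fin U.r) : U.w i ∈ U.U 1 := le_cl _ (by rw [pow_one]; exact mem_sys _ i)

theorem cl_U (j : ℕ) : cl (U.U j) = U.U j := cl_cl _

instance fd (j : ℕ) : FiniteDimensional ℂ (U.U j) :=
  have := fd_pow (sys ℂ U.w) j
  X.fd_cl _

theorem adjoin_U : IntermediateField.adjoin ℂ (U.U 1 : Set L) = ⊤ :=
  top_le_iff.1 (U.gen.ge.trans
    (IntermediateField.adjoin.mono _ _ _ (range_subset_iff.2 U.w_mem)))

end Sys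

section germ
variable {κ K κ' K' : Type} [Field κ] [Field K] [Algebra ℂ κ] [Algebra ℂ K] [Algebra κ K]
  [IsScalarTower ℂ κ K] [Field κ'] [Field K'] [Algebra ℂ κ'] [Algebra ℂ K'] [Algebra κ' K']
  [IsScalarTower ℂ κ' K'] {σ : L →ₐ[ℂ] K} {σ' : L →ₐ[ℂ] K'} {X : Mod L n} {a b : ℕ}

theorem Mod₀.noeth (X : Mod₀ L n) (κ : Type) [Field κ] [Algebra ℂ κ] [Algebra κ K]
    [IsScalarTower ℂ κ K] (σ : L →ₐ[ℂ] K) : IsNoetherianRing (Germ κ σ) :=
  have := X.essFin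
  germ_noeth

theorem unit_succ (j : ℕ) : IsUnit ((j : Germ κ σ) + 1) :=
  have := charZ κ
  unit_nat j

variable (κ σ) in
theorem Sys.gr (U : Sys X a b) : Gr (U.S κ σ) :=
  ⟨fun i j _ _ hx hy => spn_mul (U.mul i j) (mul_mem_mul hx hy), fun _ _ h => spn_mono (U.mono h),
    one_mem_spn (U.one_mem 0)⟩

instance Sys.fd_S (U : Sys X a b) (j : ℕ) : FiniteDimensional κ (U.S κ σ j) := spn_fd _

theorem Sys.iota_mem (U : Sys X a b) {j : ℕ} {x : L} (h : x ∈ U.U j) : iota κ σ x ∈ U.S κ σ j :=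
  G.iota_mem h

theorem Sys.exists_unit (U : Sys X a b) (r : Germ κ σ) :
    ∃ e, ∃ u : Germ κ σ, IsUnit u ∧ u * r ∈ U.S κ σ e :=
  exists_unit_spn U.U U.mul (U.one_mem 1) (U.one_mem 0) U.adjoin_U r

theorem IsMap.spn {f : κ → κ'} {φ : Germ κ σ →+* Germ κ' σ'} (h : IsMap f φ) {W : Submodule ℂ L}
    {r : Germ κ σ} (hr : r ∈ spn κ σ W) : φ r ∈ spn κ' σ' W := map_spn f φ h.const h.fn hr

theorem IsMap.S {f : κ → κ'} {φ : Germ κ σ →+* Germ κ' σ'} (h : IsMap f φ) (U : Sys X a b) (j : ℕ) :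
    ∀ r ∈ U.S κ σ j, φ r ∈ U.S κ' σ' j := fun _ hr => h.spn hr

theorem IsMap.smul {f : κ → κ'} {φ : Germ κ σ →+* Germ κ' σ'} (h : IsMap f φ) (c : κ)
    (r : Germ κ σ) : φ (c • r) = f c • φ r := by
  rw [Algebra.smul_def, Algebra.smul_def, map_mul, h.const]

theorem IsMap.comp {κ'' K'' : Type} [Field κ''] [Field K''] [Algebra ℂ κ''] [Algebra ℂ K'']
    [Algebra κ'' K''] [IsScalarTower ℂ κ'' K''] {σ'' : L →ₐ[ℂ] K''} {f : κ → κ'} {g : κ' → κ''}
    {φ : Germ κ σ →+* Germ κ' σ'} {ψ : Germ κ' σ' →+* Germ κ'' σ''} (h' : IsMap g ψ)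
    (h : IsMap f φ) : IsMap (g ∘ f) (ψ.comp φ) :=
  ⟨fun c => by rw [RingHom.comp_apply, h.const, h'.const]; rfl,
    fun l => by rw [RingHom.comp_apply, h.fn, h'.fn]⟩

variable (κ σ X) in
theorem exists_isD : ∃ D : Fin n → Derivation ℤ (Germ κ σ) (Germ κ σ), IsD X D := by
  choose D h using fun a => exists_derR (κ := κ) (σ := σ) (X.d a)
  exact ⟨fun a => toZ (D a), fun a c => (D a).map_algebraMap c, h⟩

theorem IsD.smul {D : Fin n → Derivation ℤ (Germ κ σ) (Germ κ σ)} (h : IsD X D) (i : Fin n) (c : κ)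
    (r : Germ κ σ) : D i (c • r) = c • D i r := by
  rw [Algebra.smul_def, Algebra.smul_def, (D i).leibniz, h.const, smul_zero, add_zero, smul_eq_mul]

theorem IsD.comm {f : κ → κ'} {φ : Germ κ σ →+* Germ κ' σ'}
    {D : Fin n → Derivation ℤ (Germ κ σ) (Germ κ σ)}
    {D' : Fin n → Derivation ℤ (Germ κ' σ') (Germ κ' σ')} (h : IsD X D) (h' : IsD X D')
    (hφ : IsMap f φ) (i : Fin n) (r : Germ κ σ) : D' i (φ r) = φ (D i r) :=
  der_comm φ (D i) (D' i) (fun c => by rw [hφ.const, h'.const, h.const, map_zero])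
    (fun x => by rw [hφ.fn, h'.fn, h.fn, hφ.fn]) r

theorem IsD.comm_wd {f : κ → κ'} {φ : Germ κ σ →+* Germ κ' σ'}
    {D : Fin n → Derivation ℤ (Germ κ σ) (Germ κ σ)}
    {D' : Fin n → Derivation ℤ (Germ κ' σ') (Germ κ' σ')} (h : IsD X D) (h' : IsD X D')
    (hφ : IsMap f φ) (l : List (Fin n)) (r : Germ κ σ) : T.wd D' l (φ r) = φ (T.wd D l r) := by
  induction l with
  | nil => rfl
  | cons i l ih => rw [T.wd_cons, T.wd_cons, ih, h.comm h' hφ]

/-- The image of a span under a map to a field. -/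
theorem map_spn_eq {F : Type} [Field F] [Algebra κ F] (π : Germ κ σ →ₐ[κ] F) {s : L → F}
    (h : ∀ l, π (iota κ σ l) = s l) (W : Submodule ℂ L) :
    (spn κ σ W).map π.toLinearMap = span κ (s '' W) := by
  rw [spn, map_span, image_image]
  exact congrArg (fun f : L → F => span κ (f '' W)) (funext h)

end germ

namespace Pt
variable {κ : Type} [Field κ] [Algebra ℂ κ] (V : Pt L κ)

theorem res_eq (W : Submodule ℂ L) : V.res W = (spn κ V.σ W).map (rho κ V.σ).toLinearMap :=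
  (map_spn_eq _ rho_iota W).symm

instance fd_res (W : Submodule ℂ L) [FiniteDimensional ℂ W] : FiniteDimensional κ (V.res W) := by
  have := spn_fd (κ := κ) (σ := V.σ) W
  rw [res_eq]
  infer_instance

theorem res_mono {W W' : Submodule ℂ L} (h : W ≤ W') : V.res W ≤ V.res W' :=
  span_mono (image_mono h)

theorem surj : Function.Surjective (rho κ V.σ) := rho_surj V.gen

theorem mem_m {r : V.R} : r ∈ V.m ↔ rho κ V.σ r = 0 := mem_max

theorem gp_res (W : Submodule ℂ L) : (Pt.gp L).res W = W :=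
  (congrArg (span ℂ) (image_id _)).trans (span_eq W)

end Pt

namespace PG
variable {κ : Type} [Field κ] [Algebra ℂ κ] {d : ℕ} (G : PG L κ d)

theorem p_le : G.p ≤ G.m := pgI_le

theorem m_ne : G.m ≠ ⊤ := (maximalIdeal.isMaximal _).ne_top

theorem ker_eq : RingHom.ker G.π = G.p := Ideal.ext G.ker

instance prime : G.p.IsPrime := G.ker_eq ▸ RingHom.ker_isPrime _

theorem sub_mem (r : G.R) : r - algebraMap κ _ (rho κ G.s r) ∈ G.m := sub_rho r

theorem exists_const (r : G.R) : ∃ c : κ, r - algebraMap κ _ c ∈ G.m := ⟨_, sub_rho r⟩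

theorem m_eq : G.m = Ideal.span (range G.ζ) ⊔ G.p := G.tay.eq

theorem δ_ζ (i j : Fin d) : G.δ i (G.ζ j) = if i = j then 1 else 0 := by
  rw [PG.ζ, zeta, map_sub, G.δκ, G.δL, G.δt, sub_zero]
  split_ifs <;> simp

theorem δ_spn (i : Fin d) {W : Submodule ℂ L} {r : G.R} (h : r ∈ spn κ G.s W) :
    G.δ i r ∈ spn κ G.s W := der_spn (G.δ i) (G.δ' i) (G.δκ i) (G.δL i) h

theorem δ_S {X : Mod L n} {a b : ℕ} (U : Sys X a b) (i : Fin d) (j : ℕ) :
    ∀ r ∈ U.S κ G.s j, G.δ i r ∈ U.S κ G.s j := fun _ h => G.δ_spn i h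

theorem res_eq (W : Submodule ℂ L) : G.V1.res W = (spn κ G.s W).map G.π.toLinearMap :=
  (map_spn_eq _ G.hπ W).symm

theorem finrank_img (W : Submodule ℂ L) :
    finrank κ (img (spn κ G.s W) G.p) = finrank κ (G.V1.res W) := by
  rw [G.res_eq]
  exact finrank_map_eq _ _ _ fun r _ => Ideal.Quotient.eq_zero_iff_mem.trans (G.ker r).symm

theorem finrank_S {X : Mod L n} {a b : ℕ} (U : Sys X a b) (j : ℕ) :
    finrank κ (img (U.S κ G.s j) G.p) = finrank κ (G.V1.res (U.U j)) := G.finrank_img _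

theorem frac (y : G.V1.K) : ∃ a b, G.π b ≠ 0 ∧ y * G.π b = G.π a := by
  have h : y ∈ IntermediateField.adjoin κ (range G.V1.σ) := G.V1.gen ▸ trivial
  obtain ⟨a, ha, b, hb, rfl⟩ := IntermediateField.mem_adjoin_iff_div.1 h
  have k : Algebra.adjoin κ (range G.V1.σ) ≤ G.π.range :=
    Algebra.adjoin_le (range_subset_iff.2 fun l => ⟨_, G.hπ l⟩)
  obtain ⟨a, rfl⟩ := k ha
  obtain ⟨b, rfl⟩ := k hb
  by_cases h0 : G.π b = 0
  · exact ⟨0, 1, by simp, by simp [h0]⟩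
  · exact ⟨a, b, h0, div_mul_cancel₀ _ h0⟩

theorem ζ_basis : IsTranscendenceBasis κ fun j => G.π (G.ζ j) :=
  have := charZ G.κ₀
  zeta_basis G.gen₀ G.tb G.π G.ker (by rw [funext G.hπ]; exact G.V1.gen)

theorem exists_lam : ∃ lam : κ →+* G.R ⧸ G.p,
    (∀ x, lam (G.s x) = Ideal.Quotient.mk _ (iota κ G.s x)) ∧
    (∀ c : G.κ₀, lam (algebraMap G.κ₀ κ c) =
      Ideal.Quotient.mk _ (algebraMap κ _ (algebraMap G.κ₀ κ c))) ∧
    ∀ c, ∃ r, rho κ G.s r = c ∧ lam c = Ideal.Quotient.mk _ r := A35.G.exists_lam G.gen₀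

end PG

end Pool.Agent.Lib.A35
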