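import Pool.Agent.Lib.UR.Defs
import Pool.Agent.Lib.UR.Iface

/-! Sections of `a D + b H`, nef and big classes, curves through the generic point. -/

open Module Submodule Set Filter

noncomputable section

namespace Pool.Agent.Lib.A35

open Pool.Agent.Lib.MP_7fcda1_ag Pool.Agent.Lib.UR

variable {L ι τ τ' : Type} [Field L] [Algebra ℂ L] (q : ℕ) (y : ι → L) (p : τ → L)

/-- Global sections of `a D + b H`, when `y` has class `H` and `p` has class `D + q H`. -/
def Sec (a b : ℕ) : Submodule ℂ L :=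
  cl (span ℂ (range p) ^ a * span ℂ (range y) ^ b) / span ℂ (range y) ^ (q * a)

/-- For every `m` a multiple of `m D + H` is generated by its global sections. -/
def Nef : Prop := ∀ m : ℕ, ∃ u : ℕ, 0 < u ∧ span ℂ (range p) ^ (u * m) * span ℂ (range y) ^ u ≤
  cl (Sec q y p (u * m) u * span ℂ (range y) ^ (q * (u * m)))

/-- `D` is big. -/
def Big (n : ℕ) : Prop := ∃ C : ℕ, ∃ᶠ a : ℕ in atTop, a ^ n ≤ C * finrank ℂ (Sec q y p a 0)

/-- Every curve through the generic point has `D · C > 0` and `H · C ≤ N (2 g - 2)`. -/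
def Hyp (N : ℕ) : Prop :=
  ∀ (κ F : Type) [Field κ] [IsAlgClosed κ] [Field F] [Algebra ℂ κ] [Algebra κ F] [Algebra ℂ F]
    [IsScalarTower ℂ κ F] [IsFF κ F] (σ : L →ₐ[ℂ] F), Gen κ σ →
    q * ht κ (fun j => σ (y j)) < ht κ (fun S => σ (p S)) ∧
    ∀ (D : Derivation κ F F) (W : Div κ F), D ≠ 0 →
      (∀ (v : Place κ F) (π : F), ord v.O π = 1 → W v = -ord v.O (D π)) →
      ht κ (fun j => σ (y j)) ≤ N * degD W

/-- The linear system `p` has no base points on the model. -/
def Free : Prop := ∀ (i : ι) (Q : Ideal (GD.chart y i)), Q.IsPrime → ∃ S, p S ≠ 0 ∧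
  ∀ S', ∃ b : GD.chart y i, b ∉ Q ∧ (b : L) * (p S' / p S) ∈ GD.chart y i

/-- `c D - r K` has a non-zero section, when `G` has class `K + q' H`. -/
def Eff (q' : ℕ) (G : τ' → L) (c r : ℕ) : Prop := ∃ g : L, g ≠ 0 ∧
  span ℂ {g} * span ℂ (range G) ^ r * span ℂ (range y) ^ (q * c) ≤
    cl (span ℂ (range p) ^ c * span ℂ (range y) ^ (q' * r))

end Pool.Agent.Lib.A35
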