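import Pool.Agent.Lib.A35.All
import Pool.Agent.Lib.NAK.Trf

/-! Finite extensions of the function field of a variety with big canonical class. -/

open Module Submodule Set

noncomputable section

namespace Pool.Agent.Lib.A35.Ext

open Pool.Agent.Lib.MP_7fcda1_ag Pool.Agent.Lib.UR Pool.Agent.Lib.GD Pool.Agent.Lib.MP_e06174_ag
  Pool.Agent.Lib.NAK

variable {L L' : Type} [Field L] [Algebra ℂ L] [Field L'] [Algebra ℂ L']

theorem map_cl (f : L →ₐ[ℂ] L') {U : Submodule ℂ L} {x : L} (hx : x ∈ cl U) :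
    f x ∈ cl (U.map f.toLinearMap) := fun O hO => by
  obtain ⟨y, hy, h2⟩ := hx (O.comap f.toRingHom) fun c => by
    rw [ValuationSubring.mem_comap]
    exact (f.commutes c).symm ▸ hO c
  obtain ⟨a, ha⟩ := (ValuationSubring.valuation_le_iff _ _ _).1 h2
  exact ⟨f y, mem_map_of_mem hy, (ValuationSubring.valuation_le_iff _ _ _).2 ⟨⟨f a, a.2⟩, by
    rw [← ha, map_mul]⟩⟩

theorem map_sec (f : L →ₐ[ℂ] L') {P H : Submodule ℂ L} {q a b : ℕ} {z : L}
    (hz : z ∈ Mix.Sec P H q a b) :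
    f z ∈ Mix.Sec (P.map f.toLinearMap) (H.map f.toLinearMap) q a b := by
  refine mem_div_iff_forall_mul_mem.2 fun w hw => ?_
  rw [← Submodule.map_pow] at hw
  obtain ⟨w, hw, rfl⟩ := hw
  have h := map_cl f (mem_div_iff_forall_mul_mem.1 hz w hw)
  rwa [Submodule.map_mul, Submodule.map_pow, Submodule.map_pow, map_mul] at h

theorem kodaira_ge [Algebra L L'] [IsScalarTower ℂ L L'] [Algebra.IsAlgebraic L L'] {n : ℕ}
    (X : Mod₀ L n) (h : Big (n + 1) X.y X.G n) :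
    ((n : ℕ∞) : WithBot ℕ∞) ≤ MP_9a2ae6_ag.kodaira ℂ L' n := by
  let ψ := IsScalarTower.toAlgHom ℂ L L'
  have hx : IsTranscendenceBasis ℂ fun a => ψ (X.x a) := X.tb.algebraMap_comp
  obtain ⟨d, hd⟩ := GD.exists_dual X.tb
  obtain ⟨d', hd'⟩ := GD.exists_dual hx
  have e0 : X.d = d := by
    funext a
    ext f
    have h1 := hd.chain (AlgHom.id ℂ L) (X.d a) f
    simpa [X.dual] using h1
  have e1 : ∀ a f, d' a (ψ f) = ψ (X.d a f) := fun a f => by
    rw [hd.chain ψ (d' a) f, e0]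
    simp only [hd'.dual]
    simp
  have e2 : gaussT d' (fun j => ψ (X.y j)) = fun S => ψ (X.G S) := by
    funext S
    rw [Mod₀.G, gaussT, gaussT, pl, pl, AlgHom.map_det]
    congr 1
    ext i j
    refine Fin.cases ?_ (fun a => ?_) i <;> simp [e1]
  have e3 : ∀ {τ : Type} (w : τ → L), span ℂ (range fun j => ψ (w j)) =
      (span ℂ (range w)).map ψ.toLinearMap := fun w => by
    rw [Submodule.map_span, ← range_comp]
    rfl
  have hy : (fun j => ψ (X.y j)) ≠ 0 := Function.ne_iff.2 ⟨0, by simp [X.y0]⟩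
  obtain ⟨C, h⟩ := h
  refine le_iSup₂_of_le (f := fun (κ : ℕ) (_ : ∃ C : ℕ, ∃ᶠ m : ℕ in Filter.atTop,
    (m : Cardinal) ^ κ ≤ C * MP_9a2ae6_ag.plurigenus ℂ L' n {1} m) => ((κ : ℕ∞) : WithBot ℕ∞))
    n ⟨C, h.mono fun m hm => ?_⟩ le_rfl
  let f : Sec (n + 1) X.y X.G m 0 →ₗ[ℂ] MP_9a2ae6_ag.sections ℂ L' n m {1} :=
    { toFun := fun z => ⟨form (fun a => ψ (X.x a)) _ (ψ z), Mix.form_mem hd' hy (by
        rw [e2, e3, e3]
        exact map_sec ψ z.2)⟩
      map_add' := fun a b => Subtype.ext (by simp [form, add_smul])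
      map_smul' := fun a b => Subtype.ext (by simp [form]) }
  have h4 : Function.Injective f := fun a b hab =>
    Subtype.ext (ψ.injective (GD.form_injective hx _ (congrArg Subtype.val hab)))
  have h5 := (Cardinal.natCast_toNat_le _).trans (f.rank_le_of_injective h4)
  rw [MP_9a2ae6_ag.plurigenus_eq]
  exact le_trans (by exact_mod_cast hm) (mul_le_mul_right h5 _)

theorem big {e : ℕ} (X : Mod₀ L (e + 1)) {N : ℕ}
    {g : ℕ → MvPolynomial (Fin (X.N + 1)) ℂ} (hg : ∀ m, MvPolynomial.aeval X.y (g m) ≠ 0)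
    (h' : NefC (e + 2) X.y X.G) (h : HypC (e + 2) X.y X.G N g) : Big (e + 2) X.y X.G (e + 1) :=
  main L e
    { toMod₀ := X, τ := _, p := X.G, q := e + 2, c := 1, r := 1, rpos := one_pos
      free := st_FRG L _ X
      nef := nef_of_cnef (Function.ne_iff.2 ⟨0, X.y0 ▸ one_ne_zero⟩) X.G_ne (cnef_of h')
      eff := ⟨1, one_ne_zero, by rw [← Submodule.one_eq_span, one_mul]; exact le_cl _⟩ } N
    (hyp_of X.y0 X.gen X.G_ne hg h' h)

end Pool.Agent.Lib.A35.Ext
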