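import Pool.Agent.Lib.A35.Tay

/-! The symmetric multilinear form attached to an element of `m ^ i`. -/

set_option linter.unusedSectionVars false

noncomputable section

namespace Pool.Agent.Lib.A35.Fm

open Pool.Agent.Lib.A35.T

variable {k R F ι : Type} [CommRing k] [CommRing R] [CommRing F] [Algebra k R] [Fintype ι]

/-- The value of the form of `f` at a list of vectors. -/
def frm (ρ : R →+* F) (D : ι → Derivation k R R) : List (ι → F) → R → F
  | [], f => ρ f
  | ξ :: l, f => ∑ a, ξ a * frm ρ D l (D a f)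

theorem frm.rlz : True := by have := @frm.eq_def; trivial

variable {ρ : R →+* F} {D : ι → Derivation k R R}

theorem frm_nil (f : R) : frm ρ D [] f = ρ f := rfl

theorem frm_cons (ξ : ι → F) (l : List (ι → F)) (f : R) :
    frm ρ D (ξ :: l) f = ∑ a, ξ a * frm ρ D l (D a f) := rfl

theorem frm_add (l : List (ι → F)) (f g : R) :
    frm ρ D l (f + g) = frm ρ D l f + frm ρ D l g := by
  induction l generalizing f g with
  | nil => exact map_add ρ f g
  | cons ξ l ih => simp only [frm_cons, map_add, ih, mul_add, Finset.sum_add_distrib]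

/-- The form is additive in `f`. -/
def frmA (ρ : R →+* F) (D : ι → Derivation k R R) (l : List (ι → F)) : R →+ F :=
  AddMonoidHom.mk' (frm ρ D l) (frm_add l)

theorem frm_zero (l : List (ι → F)) : frm ρ D l 0 = 0 := map_zero (frmA ρ D l)

theorem frm_sub (l : List (ι → F)) (f g : R) :
    frm ρ D l (f - g) = frm ρ D l f - frm ρ D l g := map_sub (frmA ρ D l) f g

theorem frm_sum {α : Type} (l : List (ι → F)) (s : Finset α) (f : α → R) :
    frm ρ D l (∑ i ∈ s, f i) = ∑ i ∈ s, frm ρ D l (f i) := map_sum (frmA ρ D l) f s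

/-- Constants come out. -/
theorem frm_const (l : List (ι → F)) {c : R} (hc : ∀ a, D a c = 0) (f : R) :
    frm ρ D l (c * f) = ρ c * frm ρ D l f := by
  induction l generalizing f with
  | nil => exact map_mul ρ c f
  | cons ξ l ih =>
    simp only [frm_cons, Derivation.leibniz, hc, smul_eq_mul, mul_zero, add_zero, ih,
      Finset.mul_sum, mul_left_comm]

theorem frm_van (l : List (ι → F)) {f : R} (hf : f ∈ RingHom.ker ρ ^ (l.length + 1)) :
    frm ρ D l f = 0 := by
  induction l generalizing f with
  | nil => rw [List.length_nil, zero_add, pow_one] at hf; exact hf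
  | cons ξ l ih =>
    exact Finset.sum_eq_zero fun a _ => by rw [ih (der_pow (D a) _ _ f hf), mul_zero]

theorem frm_mul (l : List (ι → F)) (g : R) {f : R} (hf : f ∈ RingHom.ker ρ ^ l.length) :
    frm ρ D l (g * f) = ρ g * frm ρ D l f := by
  induction l generalizing f with
  | nil => exact map_mul ρ g f
  | cons ξ l ih =>
    rw [frm_cons, frm_cons, Finset.mul_sum]
    refine Finset.sum_congr rfl fun a _ => ?_
    rw [Derivation.leibniz, smul_eq_mul, smul_eq_mul, frm_add, ih (der_pow (D a) _ _ f hf),
      frm_van l (Ideal.mul_mem_right _ _ hf), add_zero, mul_left_comm]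

/-- Symmetry. -/
theorem frm_perm {l l' : List (ι → F)} (h : l.Perm l') {f : R}
    (hf : f ∈ RingHom.ker ρ ^ l.length) : frm ρ D l f = frm ρ D l' f := by
  induction h generalizing f with
  | nil => rfl
  | cons ξ _ ih =>
    exact Finset.sum_congr rfl fun a _ => by rw [ih (der_pow (D a) _ _ f hf)]
  | swap ξ η l =>
    simp only [frm_cons, Finset.mul_sum]
    rw [Finset.sum_comm]
    refine Finset.sum_congr rfl fun a _ => Finset.sum_congr rfl fun b _ => ?_
    have h1 := frm_van (D := D) l (der_pow ⁅D a, D b⁆ _ _ f hf)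
    rw [Derivation.commutator_apply, frm_sub, sub_eq_zero] at h1
    rw [h1, mul_left_comm]
  | trans h1 _ ih1 ih2 => rw [ih1 hf, ih2 (h1.length_eq ▸ hf)]

theorem frm_mid_add (l l' : List (ι → F)) (ξ η : ι → F) (f : R) :
    frm ρ D (l ++ (ξ + η) :: l') f = frm ρ D (l ++ ξ :: l') f + frm ρ D (l ++ η :: l') f := by
  induction l generalizing f with
  | nil => simp only [List.nil_append, frm_cons, Pi.add_apply, add_mul, Finset.sum_add_distrib]
  | cons ζ l ih => simp only [List.cons_append, frm_cons, ih, mul_add, Finset.sum_add_distrib]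

theorem frm_mid_smul (l l' : List (ι → F)) (c : F) (ξ : ι → F) (f : R) :
    frm ρ D (l ++ (c • ξ) :: l') f = c * frm ρ D (l ++ ξ :: l') f := by
  induction l generalizing f with
  | nil => simp only [List.nil_append, frm_cons, Pi.smul_apply, smul_eq_mul, Finset.mul_sum,
      mul_assoc]
  | cons ζ l ih => simp only [List.cons_append, frm_cons, ih, Finset.mul_sum, mul_left_comm]

/-- The form as a linear map in one slot. -/
def frmL (ρ : R →+* F) (D : ι → Derivation k R R) (l l' : List (ι → F)) (f : R) :
    (ι → F) →ₗ[F] F where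
  toFun ξ := frm ρ D (l ++ ξ :: l') f
  map_add' ξ η := frm_mid_add l l' ξ η f
  map_smul' c ξ := frm_mid_smul l l' c ξ f

/-- A bound on words in a set of vectors holds for words in its span. -/
theorem frm_span {O : Type} [CommRing O] [Algebra O F] (N : Submodule O F) (S : Set (ι → F))
    (n : ℕ) (f : R) (h : ∀ l : List (ι → F), l.length = n → (∀ ξ ∈ l, ξ ∈ S) → frm ρ D l f ∈ N)
    (l : List (ι → F)) (hl : l.length = n) (hS : ∀ ξ ∈ l, ξ ∈ Submodule.span O S) :
    frm ρ D l f ∈ N := by
  have key : ∀ l l' : List (ι → F), l.length + l'.length = n →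
      (∀ ξ ∈ l, ξ ∈ Submodule.span O S) → (∀ ξ ∈ l', ξ ∈ S) → frm ρ D (l ++ l') f ∈ N := by
    intro l
    induction l using List.reverseRecOn with
    | nil => intro l' h1 _ h2; exact h l' (by simpa using h1) h2
    | append_singleton l ξ ih =>
      intro l' h1 h2 h3
      have h4 : ξ ∈ Submodule.span O S := h2 ξ (by simp)
      rw [List.append_assoc, List.singleton_append]
      have h5 : Submodule.span O S ≤ N.comap ((frmL ρ D l l' f).restrictScalars O) :=
        Submodule.span_le.2 fun η hη => ih (η :: l') (by simp at h1 ⊢; omega)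
          (fun ζ hζ => h2 ζ (by simp [hζ])) (List.forall_mem_cons.2 ⟨hη, h3⟩)
      exact h5 h4
  simpa using key l [] (by simpa using hl) hS (by simp)

theorem wd_mul {J : Type} (δ : J → Derivation k R R) (l : List J) (g : R) {f : R}
    (hf : f ∈ RingHom.ker ρ ^ l.length) : ρ (wd δ l (g * f)) = ρ g * ρ (wd δ l f) := by
  induction l using List.reverseRecOn generalizing f with
  | nil => exact map_mul ρ g f
  | append_singleton l i ih =>
    rw [List.length_append, List.length_singleton] at hf
    have h1 := wd_pow δ (RingHom.ker ρ) l 1 (f * δ i g)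
      (Ideal.mul_mem_right _ _ (by rwa [add_comm]))
    rw [pow_one, RingHom.mem_ker] at h1
    simp only [wd_append, wd_cons, wd_nil, Derivation.leibniz, smul_eq_mul, wd_add, map_add]
    rw [ih (der_pow _ _ _ f hf), h1, add_zero]

theorem wd_sum {J α : Type} (δ : J → Derivation k R R) (l : List J) (s : Finset α) (f : α → R) :
    wd δ l (∑ i ∈ s, f i) = ∑ i ∈ s, wd δ l (f i) :=
  map_sum (AddMonoidHom.mk' (wd δ l) (wd_add δ l)) f s

theorem comb_apply (r : ι → R) (x : R) : (∑ a, r a • D a) x = ∑ a, r a * D a x := by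
  have h := congrFun (map_sum (Derivation.coeFnAddMonoidHom (R := k) (A := R) (M := R))
    (fun a => r a • D a) Finset.univ) x
  rw [Finset.sum_apply] at h
  exact h

/-- Words in combinations of the derivations. -/
theorem frm_comb {J : Type} (M : J → ι → R) (l : List J) {f : R}
    (hf : f ∈ RingHom.ker ρ ^ l.length) :
    ρ (wd (fun i => ∑ a, M i a • D a) l f) = frm ρ D (l.map fun i a => ρ (M i a)) f := by
  induction l using List.reverseRecOn generalizing f with
  | nil => rfl
  | append_singleton l i ih =>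
    rw [List.map_append, List.map_singleton, frm_perm (List.perm_append_singleton _ _)
      (by simpa using hf), frm_cons, wd_append, wd_cons, wd_nil, comb_apply, wd_sum, map_sum]
    rw [List.length_append, List.length_singleton] at hf
    exact Finset.sum_congr rfl fun a _ => by
      rw [wd_mul _ _ _ (der_pow _ _ _ f hf), ih (der_pow _ _ _ f hf)]

/-- Words in the derivations themselves. -/
theorem frm_std [DecidableEq ι] (l : List ι) {f : R} (hf : f ∈ RingHom.ker ρ ^ l.length) :
    ρ (wd D l f) = frm ρ D (l.map fun i => Pi.single i 1) f := by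
  have h := frm_comb (D := D) (fun i => (Pi.single i 1 : ι → R)) l hf
  have h1 : (fun i => ∑ a, (Pi.single i 1 : ι → R) a • D a) = D := funext fun i => by
    simp [Pi.single_apply]
  have h2 : (fun i a => ρ ((Pi.single i 1 : ι → R) a)) = fun i => Pi.single i 1 :=
    funext fun i => funext fun a => by simp [Pi.single_apply]
  rwa [h1, h2] at h

/-- The tangent vector of the curve is in the kernel of the form. -/
theorem frm_tan {γ : ι → F} (hγ : ∀ r, ρ r = 0 → ∑ a, ρ (D a r) * γ a = 0) {l : List (ι → F)}
    (hl : γ ∈ l) {f : R} (hf : f ∈ RingHom.ker ρ ^ l.length) : frm ρ D l f = 0 := by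
  have key : ∀ (l : List (ι → F)) (f : R), f ∈ RingHom.ker ρ ^ (l.length + 1) →
      frm ρ D (l ++ [γ]) f = 0 := fun l => by
    induction l with
    | nil =>
      intro f hf
      rw [List.length_nil, zero_add, pow_one] at hf
      simpa only [List.nil_append, frm_cons, frm_nil, mul_comm] using hγ f hf
    | cons ξ l ih =>
      intro f hf
      exact Finset.sum_eq_zero fun a _ =>
        mul_eq_zero_of_right _ (ih _ (der_pow (D a) _ _ f hf))
  obtain ⟨s, t, rfl⟩ := List.append_of_mem hl
  rw [frm_perm (List.perm_middle.trans (List.perm_append_singleton _ _).symm) hf]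
  exact key _ f (by simpa [add_assoc] using hf)

theorem tan_of_chain (E : F → F) {γ : ι → F} (hE : ∀ r, E (ρ r) = ∑ a, ρ (D a r) * γ a) (r : R)
    (hr : ρ r = 0) : ∑ a, ρ (D a r) * γ a = 0 := by
  rw [← hE, hr, ← map_zero ρ, hE]
  simp

/-- A bound on words in `S` holds for words in the span of `S` plus multiples of the tangent. -/
theorem frm_span_tan {O : Type} [CommRing O] [Algebra O F] (N : Submodule O F) (S : Set (ι → F))
    {γ : ι → F} (hγ : ∀ r, ρ r = 0 → ∑ a, ρ (D a r) * γ a = 0) {n : ℕ} {f : R}
    (hf : f ∈ RingHom.ker ρ ^ n)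
    (h : ∀ l : List (ι → F), l.length = n → (∀ ξ ∈ l, ξ ∈ S) → frm ρ D l f ∈ N)
    (l : List (ι → F)) (hl : l.length = n)
    (hS : ∀ ξ ∈ l, ∃ c : F, ξ - c • γ ∈ Submodule.span O S) : frm ρ D l f ∈ N := by
  refine frm_span N (S ∪ Set.range fun c : F => c • γ) n f (fun l hl h1 => ?_) l hl
    fun ξ hξ => ?_
  · by_cases h2 : ∀ ξ ∈ l, ξ ∈ S
    · exact h l hl h2
    · push Not at h2
      obtain ⟨ξ, h3, h4⟩ := h2
      obtain ⟨c, rfl⟩ := (h1 ξ h3).resolve_left h4
      rw [frm_tan (fun r hr => ?_) h3 (hl ▸ hf)]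
      · exact N.zero_mem
      · simp only [Pi.smul_apply, smul_eq_mul, mul_left_comm _ c, ← Finset.mul_sum, hγ r hr,
          mul_zero]
  · obtain ⟨c, hc⟩ := hS ξ hξ
    rw [← sub_add_cancel ξ (c • γ)]
    exact add_mem (Submodule.span_mono Set.subset_union_left hc)
      (Submodule.subset_span (Or.inr ⟨c, rfl⟩))

/-- If the form vanishes on words in `ε`, and `ε` with the tangent spans, all words vanish. -/
theorem wd_zero [DecidableEq ι] {J : Type} (ε : J → ι → F) {γ : ι → F}
    (hγ : ∀ r, ρ r = 0 → ∑ a, ρ (D a r) * γ a = 0)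
    (hs : ∀ ξ, ∃ c : F, ξ - c • γ ∈ Submodule.span F (Set.range ε)) {n : ℕ} {f : R}
    (hf : f ∈ RingHom.ker ρ ^ n) (h : ∀ w : List J, w.length = n → frm ρ D (w.map ε) f = 0)
    (l : List ι) (hl : l.length = n) : ρ (wd D l f) = 0 := by
  rw [frm_std l (hl ▸ hf)]
  refine frm_span_tan (⊥ : Submodule F F) (Set.range ε) hγ hf (fun l hl h1 => ?_) _
    (by simpa using hl) fun ξ _ => hs ξ
  choose g hg using h1
  have h2 : l = (l.attach.map fun x => g x.1 x.2).map ε := by
    rw [List.map_map]
    conv_lhs => rw [← List.attach_map_subtype_val l]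
    exact List.map_congr_left fun x _ => (hg x.1 x.2).symm
  rw [h2]
  exact h _ (by simpa using hl)

/-- Triangular frames: the leading term of the value at a word. -/
theorem frm_tri {J : Type} (wt : J → ℕ) (ε ξ : J → ι → F) (c : J → F) {γ : ι → F}
    (hγ : ∀ r, ρ r = 0 → ∑ a, ρ (D a r) * γ a = 0)
    (hξ : ∀ j, ∃ b : F, ξ j - c j • ε j - b • γ ∈ Submodule.span F (ε '' {i | wt i < wt j}))
    {f : R} (w : List J) (hf : f ∈ RingHom.ker ρ ^ w.length)
    (h : ∀ w' : List J, w'.length = w.length → (w'.map wt).sum < (w.map wt).sum →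
      frm ρ D (w'.map ε) f = 0) :
    frm ρ D (w.map ξ) f = (w.map c).prod * frm ρ D (w.map ε) f := by
  have key : ∀ u v : List J, u.length + v.length = w.length →
      (u.map wt).sum + (v.map wt).sum ≤ (w.map wt).sum →
      frm ρ D (u.map ε ++ v.map ξ) f = (v.map c).prod * frm ρ D (u.map ε ++ v.map ε) f := by
    intro u v
    induction v generalizing u with
    | nil => simp
    | cons j v ih =>
      intro h1 h2
      simp only [List.length_cons, List.map_cons, List.sum_cons] at h1 h2
      obtain ⟨b, hb⟩ := hξ j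
      have h3 : ∀ i, wt i ≤ wt j → frm ρ D (u.map ε ++ ε i :: v.map ξ) f =
          (v.map c).prod * frm ρ D (u.map ε ++ ε i :: v.map ε) f := fun i hi => by
        simpa using ih (u ++ [i]) (by simp; omega) (by simp; omega)
      have h4 : Submodule.span F (ε '' {i | wt i < wt j}) ≤
          LinearMap.ker (frmL ρ D (u.map ε) (v.map ξ) f) := by
        rw [Submodule.span_le]
        rintro _ ⟨i, hi, rfl⟩
        have h5 := h (u ++ i :: v) (by simp; omega) (by
          simp only [Set.mem_setOf_eq] at hi
          simp; omega)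
        rw [List.map_append, List.map_cons] at h5
        exact (h3 i hi.le).trans (by rw [h5, mul_zero])
      have h6 : frmL ρ D (u.map ε) (v.map ξ) f γ = 0 :=
        frm_tan hγ (by simp) (by simpa [← add_assoc, add_assoc, h1] using hf)
      have h7 := h4 hb
      rw [LinearMap.mem_ker, map_sub, map_sub, map_smul, map_smul, h6, smul_zero, sub_zero,
        sub_eq_zero] at h7
      rw [List.map_cons, List.map_cons, List.map_cons, List.prod_cons, mul_assoc, ← h3 j le_rfl]
      exact h7
  simpa using key [] w (by simp) (by simp)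

theorem ofFn_update {α : Type} {n : ℕ} [DecidableEq (Fin n)] (v : Fin n → α) (i : Fin n) (x : α) :
    List.ofFn (Function.update v i x) =
      (List.ofFn v).take i ++ x :: (List.ofFn v).drop (i + 1) := by
  have h : List.ofFn (Function.update v i x) = (List.ofFn v).set i x := by
    refine List.ext_getElem (by simp) fun j h1 h2 => ?_
    simp [List.getElem_set, Function.update_apply, Fin.ext_iff, eq_comm]
  rw [h, List.set_eq_take_append_cons_drop, if_pos (by simp)]

/-- The form as a multilinear map. -/
def frmM (ρ : R →+* F) (D : ι → Derivation k R R) (n : ℕ) (f : R) :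
    MultilinearMap F (fun _ : Fin n => ι → F) F where
  toFun v := frm ρ D (List.ofFn v) f
  map_update_add' v i x y := by simp only [ofFn_update, frm_mid_add]
  map_update_smul' v i c x := by simp only [ofFn_update, frm_mid_smul, smul_eq_mul]

theorem frmM_apply (n : ℕ) (f : R) (v : Fin n → ι → F) :
    frmM ρ D n f v = frm ρ D (List.ofFn v) f := rfl

theorem frmM_perm {n : ℕ} {f : R} (hf : f ∈ RingHom.ker ρ ^ n) (v : Fin n → ι → F)
    (σ : Equiv.Perm (Fin n)) : frmM ρ D n f (v ∘ σ) = frmM ρ D n f v :=
  frm_perm (σ.ofFn_comp_perm v) (by simpa using hf)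

theorem frmM_tan {γ : ι → F} (hγ : ∀ r, ρ r = 0 → ∑ a, ρ (D a r) * γ a = 0) {n : ℕ} {f : R}
    (hf : f ∈ RingHom.ker ρ ^ n) (v : Fin n → ι → F) {i : Fin n} (hi : v i = γ) :
    frmM ρ D n f v = 0 :=
  frm_tan hγ (List.mem_ofFn.2 ⟨i, hi⟩) (by simpa using hf)

end Pool.Agent.Lib.A35.Fm
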