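import Pool.Agent.Lib.A35.Form

/-! The form of an element of `m ^ i` as a symmetric tensor indexed by words. -/

set_option linter.unusedSectionVars false

noncomputable section

namespace Pool.Agent.Lib.A35.Fm

open Pool.Agent.Lib.A35.T

variable {k R F ι : Type} [CommRing k] [CommRing R] [CommRing F] [Algebra k R] [Fintype ι]
  {ρ : R →+* F} {D : ι → Derivation k R R}

/-- The tensor of `f`. -/
def ten (ρ : R →+* F) (D : ι → Derivation k R R) (i : ℕ) (f : R) (w : Fin i → ι) : F :=
  ρ (wd D (List.ofFn w) f)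

theorem ten_eq [DecidableEq ι] {i : ℕ} {f : R} (hf : f ∈ RingHom.ker ρ ^ i) (w : Fin i → ι) :
    ten ρ D i f w = frmM ρ D i f fun j => Pi.single (w j) 1 := by
  rw [ten, frm_std _ (by simpa using hf), List.map_ofFn]
  rfl

/-- The value at a family of vectors is the contraction with the tensor. -/
theorem frmM_eq {i : ℕ} {f : R} (hf : f ∈ RingHom.ker ρ ^ i) (v : Fin i → ι → F) :
    frmM ρ D i f v = ∑ β : Fin i → ι, (∏ j, v j (β j)) * ten ρ D i f β := by
  classical
  have h : v = fun j => ∑ a, v j a • (Pi.single a 1 : ι → F) := funext fun j => pi_eq_sum_univ' _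
  conv_lhs => rw [h]
  rw [MultilinearMap.map_sum]
  exact Finset.sum_congr rfl fun β _ => by
    rw [MultilinearMap.map_smul_univ, ten_eq hf, smul_eq_mul]

/-- Change of frame. -/
theorem ten_comb {J : Type} (M : J → ι → R) {i : ℕ} {f : R} (hf : f ∈ RingHom.ker ρ ^ i)
    (w : Fin i → J) : ρ (wd (fun j => ∑ a, M j a • D a) (List.ofFn w) f) =
      ∑ β : Fin i → ι, (∏ j, ρ (M (w j) (β j))) * ten ρ D i f β := by
  rw [frm_comb M _ (by simpa using hf), List.map_ofFn]
  exact frmM_eq hf fun j a => ρ (M (w j) a)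

theorem ten_perm {i : ℕ} {f : R} (hf : f ∈ RingHom.ker ρ ^ i) (σ : Equiv.Perm (Fin i))
    (w : Fin i → ι) : ten ρ D i f (w ∘ σ) = ten ρ D i f w := by
  classical
  rw [ten_eq hf, ten_eq hf]
  exact frmM_perm hf (fun j => Pi.single (w j) 1) σ

/-- The tangent vector in the first slot. -/
theorem ten_tan {γ : ι → F} (hγ : ∀ r, ρ r = 0 → ∑ a, ρ (D a r) * γ a = 0) {i : ℕ} {f : R}
    (hf : f ∈ RingHom.ker ρ ^ (i + 1)) (w : Fin i → ι) :
    ∑ a, γ a * ten ρ D (i + 1) f (Fin.cons a w) = 0 := by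
  have h := wd_pow D (RingHom.ker ρ) (List.ofFn w) 1 f (by simpa [add_comm] using hf)
  rw [pow_one] at h
  rw [← hγ _ h]
  exact Finset.sum_congr rfl fun a _ => by
    rw [ten, List.ofFn_succ, mul_comm]
    rfl

/-- Any contraction containing the tangent vector vanishes. -/
theorem ten_tan' {γ : ι → F} (hγ : ∀ r, ρ r = 0 → ∑ a, ρ (D a r) * γ a = 0) {i : ℕ} {f : R}
    (hf : f ∈ RingHom.ker ρ ^ i) (v : Fin i → ι → F) {j : Fin i} (hj : v j = γ) :
    ∑ β : Fin i → ι, (∏ j, v j (β j)) * ten ρ D i f β = 0 := by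
  rw [← frmM_eq hf, frmM_tan hγ hf v hj]

theorem wd_const {J : Type} (δ : J → Derivation k R R) {c : R} (hc : ∀ a, δ a c = 0) (l : List J)
    (f : R) : wd δ l (c * f) = c * wd δ l f := by
  induction l with
  | nil => rfl
  | cons a l ih => rw [wd_cons, wd_cons, ih, Derivation.leibniz, hc]; simp

/-- The tensor as a linear map over the constants. -/
def tenL {κ : Type} [CommRing κ] [Algebra κ R] [Algebra κ F] (ρ : R →ₐ[κ] F)
    (D : ι → Derivation k R R) (hD : ∀ a c, D a (algebraMap κ R c) = 0) (i : ℕ) :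
    R →ₗ[κ] (Fin i → ι) → F where
  toFun := ten ρ.toRingHom D i
  map_add' f g := funext fun w => by simp only [ten, wd_add, map_add, Pi.add_apply]
  map_smul' c f := funext fun w => by
    simp only [ten, Algebra.smul_def, wd_const D (hD · c), map_mul, RingHom.id_apply,
      Pi.mul_apply]
    exact congrArg (· * _) (ρ.commutes c)

theorem tenL_apply {κ : Type} [CommRing κ] [Algebra κ R] [Algebra κ F] (ρ : R →ₐ[κ] F)
    (D : ι → Derivation k R R) (hD : ∀ a c, D a (algebraMap κ R c) = 0) (i : ℕ) (f : R)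
    (w : Fin i → ι) : tenL ρ D hD i f w = ρ (wd D (List.ofFn w) f) := rfl

/-- A vanishing tensor kills all words of that length. -/
theorem wd_of_ten {i : ℕ} {f : R} (h : ten ρ D i f = 0) (l : List ι) (hl : l.length = i) :
    ρ (wd D l f) = 0 := by
  subst hl
  have := congrFun h l.get
  rwa [ten, List.ofFn_get] at this

end Pool.Agent.Lib.A35.Fm
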