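import Pool.Agent.Lib.A35.PosP
import Pool.Agent.Lib.A35.Blow
import Pool.Agent.Lib.A35.Form

/-! Frames of the normal space at all places of the curve. -/

set_option linter.unusedSectionVars false

noncomputable section

namespace Pool.Agent.Lib.A35.Fr

open Pool.Agent.Lib.MP_7fcda1_ag Pool.Agent.Lib.A35.T Pool.Agent.Lib.A35.Bl

variable {k R F ι : Type} [Field k] [CommRing R] [Field F] [Algebra k R] [Algebra k F]
  [Fintype ι] [DecidableEq ι]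

/-- A chart at `x` whose Jacobian has order at most `a`, and a local generator of order at least
`b` of the graded family `S`. -/
def Loc (ρ : R →ₐ[k] F) (D : ι → Derivation ℤ R R) (S : ℕ → Submodule k R) (x : Place k F)
    (a b : ℤ) : Prop :=
  ∃ (A : Subalgebra k R) (η : ι → R) (δ : ι → Derivation ℤ R R) (m : Matrix ι ι R) (g : R),
    Chart ρ x A η δ ∧ (∀ i, δ i = ∑ c, m i c • D c) ∧ ρ m.det ≠ 0 ∧ ord x.O (ρ m.det) ≤ a ∧
    (∀ z : F, ∃ p ∈ A, ∃ q ∈ A, ρ q ≠ 0 ∧ z * ρ q = ρ p) ∧ ρ g ≠ 0 ∧ b ≤ ord x.O (ρ g) ∧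
    ∀ j, ∀ f ∈ S j, ∃ f' ∈ A, f = g ^ j * f'

/-- The determinant of a frame completed by the tangent vector. -/
def dt (ρ : R →ₐ[k] F) (γ : ι → F) (M : Matrix ι ι R) (i : ι) : F :=
  ((M.map ρ).updateRow i γ).det

theorem dt_one (ρ : R →ₐ[k] F) (γ : ι → F) (i : ι) : dt ρ γ 1 i = γ i := PosP.det_one ρ i γ

/-- The bound for the forms of the sections in the frame `M`. -/
def Bnd (ρ : R →ₐ[k] F) (D : ι → Derivation ℤ R R) (S : ℕ → Submodule k R) (x : Place k F)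
    (b : ℤ) (M : Matrix ι ι R) : Prop :=
  ∀ (j : ℕ) (l : List ι), ∀ f ∈ S j, f ∈ RingHom.ker ρ ^ l.length →
    Ge x.O (j * b) (ρ (wd (fun a => ∑ c, M a c • D c) l f))

variable [CharZero k] [IsAlgClosed k] [IsFF k F] {ρ : R →ₐ[k] F} {D : ι → Derivation ℤ R R}
  {S : ℕ → Submodule k R} {E : Derivation k F F} {γ : ι → F}

theorem Loc.frame (hu : ∀ r, ρ r ≠ 0 → IsUnit r) (hE0 : E ≠ 0)
    (hE : ∀ r, E (ρ r) = ∑ a, ρ (D a r) * γ a) {x : Place k F} {a b w : ℤ}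
    (hw : ∀ π, ord x.O π = 1 → w = -ord x.O (E π)) (h : Loc ρ D S x a b) :
    ∃ (M : Matrix ι ι R) (i : ι), dt ρ γ M i ≠ 0 ∧ ord x.O (dt ρ γ M i) ≤ -w + a ∧
      Bnd ρ D S x b M := by
  obtain ⟨A, η, δ, m, g, hc, hm, h0, h1, hq, g0, g1, hS⟩ := h
  obtain ⟨z, z0, z1⟩ := x.disc.exists_ord 1
  obtain ⟨p, hp, q, hq', q0, e⟩ := hq z
  have p0 : ρ p ≠ 0 := e ▸ mul_ne_zero z0 q0
  obtain ⟨M, i, π, -, π1, hd, hM⟩ := hc.frame hu hp hq' p0 q0
    (by rw [← e, ord_mul z0 q0, z1, add_comm]) D m hm E γ hE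
  have h2 := (Fc.ord_der hE0 x π1 (f := π) (by omega)).1
  refine ⟨M, i, ?_, ?_, fun j l f hf hl => ?_⟩
  · rw [dt, hd]
    exact mul_ne_zero h2 h0
  · rw [dt, hd, ord_mul h2 h0, hw π π1]
    omega
  · obtain ⟨f', hf', rfl⟩ := hS j f hf
    have h3 : f' ∈ RingHom.ker ρ ^ l.length :=
      (Ideal.unit_mul_mem_iff_mem _ ((hu g g0).pow j)).1 hl
    have h4 := Fm.wd_mul (ρ := (ρ : R →+* F)) (fun a => ∑ c, M a c • D c) l (g ^ j) h3
    rw [RingHom.coe_coe] at h4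
    rw [h4, map_pow]
    simpa using (Ge.pow (Or.inr g1 : Ge x.O b (ρ g)) j).mul (hM l f' hf' h3)

theorem exists_gamma (hs : Function.Surjective ρ) (hE0 : E ≠ 0)
    (hE : ∀ r, E (ρ r) = ∑ a, ρ (D a r) * γ a) : ∃ l, γ l ≠ 0 := by
  by_contra h
  push Not at h
  refine hE0 (Derivation.ext fun z => ?_)
  obtain ⟨r, rfl⟩ := hs z
  simp [hE, h]

/-- Frames at all places. -/
theorem frames (hu : ∀ r, ρ r ≠ 0 → IsUnit r) (hE0 : E ≠ 0)
    (hE : ∀ r, E (ρ r) = ∑ a, ρ (D a r) * γ a) {l₀ : ι} (hl : γ l₀ ≠ 0) (W κ e μ : Div k F)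
    (hW : ∀ (x : Place k F) (π : F), ord x.O π = 1 → W x = -ord x.O (E π)) (he : 0 ≤ e)
    (h0 : ∀ x, e x = 0 → Loc ρ D S x (-κ x) (μ x))
    (h1 : ∀ x, 0 < e x → κ x ≤ 1 ∧ ∃ r, ord x.O (ρ r) ≠ 0 ∧ ord x.O (ρ r) ≤ e x ∧
      ∀ a, Ge x.O 0 (ρ (D a r)))
    {T₀ : Set (Place k F)} (hT : T₀.Finite)
    (h2 : ∀ x ∉ T₀, ∀ (j : ℕ), ∀ f ∈ S j, ∀ l : List ι, Ge x.O 0 (ρ (wd D l f))) :
    ∃ (M : Place k F → Matrix ι ι R) (i : Place k F → ι) (T : Finset (Place k F)),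
      (∀ x ∉ T, M x = 1 ∧ i x = l₀) ∧ ∀ x, dt ρ γ (M x) (i x) ≠ 0 ∧
        ord x.O (dt ρ γ (M x) (i x)) ≤ -W x - κ x + e x ∧ (0 < e x → M x = 1) ∧
        (e x = 0 → Bnd ρ D S x (μ x) (M x)) := by
  obtain ⟨φ, T, t1, t2, t3, t4⟩ := PosP.glue
    (fun x (φ : Matrix ι ι R × ι) => dt ρ γ φ.1 φ.2 ≠ 0 ∧ (0 < e x → φ.1 = 1) ∧
      (e x = 0 → Bnd ρ D S x (μ x) φ.1)) (fun φ => dt ρ γ φ.1 φ.2) (-W - κ + e) (1, l₀)
    (fun x => by
      rw [Finsupp.add_apply, Finsupp.sub_apply, Finsupp.neg_apply]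
      rcases (show (0 : ℤ) ≤ e x from he x).eq_or_lt with h | h
      · obtain ⟨M, i, a1, a2, a3⟩ := (h0 x h.symm).frame hu hE0 hE (hW x)
        exact ⟨(M, i), ⟨a1, fun h3 => absurd h h3.ne, fun _ => a3⟩, by
          dsimp only
          omega⟩
      · obtain ⟨a0, r, a1, a2, a3⟩ := h1 x h
        obtain ⟨π, -, hπ⟩ := x.disc.exists_ord 1
        obtain ⟨l, a4, a5⟩ := PosP.exists_small hE0 x hπ a1 a2 a3 (hE r)
        have a6 := hW x π hπ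
        refine ⟨(1, l), ⟨(dt_one ρ γ l).symm ▸ a4, fun _ => rfl, fun h3 => absurd h3 h.ne'⟩, ?_⟩
        dsimp only
        rw [dt_one]
        omega)
    (hT.union μ.support.finite_toSet)
    (fun x hx => ⟨(dt_one ρ γ l₀).symm ▸ hl, fun _ => rfl, fun _ j l f hf _ => by
      have a1 : μ x = 0 := by
        by_contra a2
        exact hx (Or.inr (Finsupp.mem_support_iff.2 a2))
      dsimp only
      rw [PosP.comb_one, a1, mul_zero]
      exact h2 x (fun a2 => hx (Or.inl a2)) j f hf l⟩)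
  refine ⟨fun x => (φ x).1, fun x => (φ x).2, t1.toFinset, fun x hx => ?_, fun x =>
    ⟨(t2 x).1, t4 x, (t2 x).2⟩⟩
  have := t3 x fun h => hx (t1.mem_toFinset.2 h)
  simp only [this, and_self]

/-- The same, for a family `Z` of sections with a prescribed vanishing at the places with
`0 < e x`; the frames do not depend on `Z`. -/
theorem bound {x : Place k F} {M : Matrix ι ι R} {e μ : ℤ} (he : 0 ≤ e) (h1 : 0 < e → M = 1)
    (h0 : e = 0 → Bnd ρ D S x μ M) (hμ : 0 < e → μ ≤ 0) {j : ℕ} {f : R} (hf : f ∈ S j)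
    (l : List ι) (hl : f ∈ RingHom.ker ρ ^ l.length) {n : ℤ}
    (hZ : 0 < e → Ge x.O (e * n) (ρ (wd D l f))) :
    Ge x.O (j * μ + e * n) (ρ (wd (fun a => ∑ c, M a c • D c) l f)) := by
  rcases he.eq_or_lt with h | h
  · rw [← h, zero_mul, add_zero]
    exact h0 h.symm j l f hf hl
  · rw [h1 h, PosP.comb_one]
    have := mul_nonpos_of_nonneg_of_nonpos (Nat.cast_nonneg j : (0 : ℤ) ≤ j) (hμ h)
    exact (hZ h).mono (by omega)

end Pool.Agent.Lib.A35.Fr
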