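import Pool.Agent.Lib.UR.B_NOE
import Pool.Agent.Lib.UR.B_POL
import Pool.Agent.Lib.UR.B_TRC
import Pool.Agent.Lib.UR.B_ALG
import Pool.Agent.Lib.MP_7fcda1_ag.CT2

/-! A finitely generated ring which contains all complete systems `cl (U ^ j)` and is stable under
finitely many derivations; the finite set of bad places on a curve. -/

open Module Set

noncomputable section

namespace Pool.Agent.Lib.A35.GenR

open Pool.Agent.Lib.MP_7fcda1_ag Pool.Agent.Lib.UR

variable {k L : Type} [Field k] [Field L] [Algebra k L]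

theorem pow_le_alg {U : Submodule k L} {A : Subalgebra k L} (h : ∀ x ∈ U, x ∈ A) (m : ℕ) :
    ∀ x ∈ U ^ m, x ∈ A := by
  induction m with
  | zero =>
    intro x hx
    rw [pow_zero, Submodule.mem_one] at hx
    obtain ⟨c, rfl⟩ := hx
    exact A.algebraMap_mem c
  | succ m ih =>
    intro x hx
    rw [pow_succ] at hx
    exact Submodule.mul_induction_on hx (fun a ha b hb => A.mul_mem (ih a ha) (h b hb))
      fun a b ha hb => A.add_mem ha hb

theorem exists_den {τ ι : Type} [Fintype τ] (t : τ → L) (u : ι → L) (s : Finset ι)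
    (h : ∀ i, IsAlgebraic (IntermediateField.adjoin k (range t)) (u i)) :
    ∃ e : ℕ, ∃ p ∈ sys k t ^ e, p ≠ 0 ∧ ∀ i ∈ s, p * u i ∈ cl (sys k t ^ e) := by
  classical
  induction s using Finset.induction_on with
  | empty => exact ⟨0, 1, one_mem_pow (one_mem_sys t) 0, one_ne_zero, by simp⟩
  | insert a s _ ih =>
    obtain ⟨e, p, h1, h2, h3⟩ := ih
    obtain ⟨e', p', h1', h2', h3'⟩ := st_ALG k L τ t (u a) (h a)
    refine ⟨e + e', p * p', ?_, mul_ne_zero h2 h2', fun i hi => ?_⟩
    · rw [pow_add]
      exact Submodule.mul_mem_mul h1 h1'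
    · rw [pow_add]
      rcases Finset.mem_insert.1 hi with rfl | hi
      · rw [mul_assoc]
        exact mul_mem_cl (le_cl _ h1) h3'
      · rw [mul_right_comm]
        exact mul_mem_cl (h3 i hi) (le_cl _ h1')

theorem exists_ring [CharZero k] {τ ι : Type} [Finite τ] [Finite ι] {w : τ → L} {n : ℕ}
    (hw : Gen k w) (hd : Dim k L n) (u : ι → L) :
    ∃ s : Finset L, ∀ j : ℕ, ∀ x ∈ cl (sys k u ^ j), x ∈ Algebra.adjoin k (s : Set L) := by
  classical
  have := Fintype.ofFinite ι
  obtain ⟨t, ht⟩ := hd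
  let F := IntermediateField.adjoin k (range t)
  have halg : Algebra.IsAlgebraic F L := ht.isAlgebraic_field
  have hfd : FiniteDimensional F L := by
    have h2 := IntermediateField.finiteDimensional_adjoin (K := F) (S := range w)
      (fun x _ => Algebra.IsIntegral.isIntegral x)
    have h3 : IntermediateField.adjoin F (range w) = ⊤ := by
      rw [eq_top_iff]
      intro z _
      have h4 : z ∈ IntermediateField.adjoin k (range w) := by
        rw [show IntermediateField.adjoin k (range w) = ⊤ from hw]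
        trivial
      have h5 : IntermediateField.adjoin k (range w) ≤
          (IntermediateField.adjoin F (range w)).restrictScalars k :=
        IntermediateField.adjoin_le_iff.2 (IntermediateField.subset_adjoin F (range w))
      exact h5 h4
    rw [h3] at h2
    exact Module.Finite.equiv IntermediateField.topEquiv.toLinearEquiv
  have : CharZero F := charZero_of_injective_algebraMap (algebraMap k F).injective
  let t' : Fin n → F := fun i => ⟨t i, IntermediateField.subset_adjoin k _ ⟨i, rfl⟩⟩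
  have htt : (fun i => algebraMap F L (t' i)) = t := rfl
  have hind : AlgebraicIndependent k t' :=
    AlgebraicIndependent.of_comp (IsScalarTower.toAlgHom k F L) ht.1
  have hgen : Gen k t' := by
    apply IntermediateField.map_injective F.val
    rw [IntermediateField.adjoin_map, ← range_comp, ← AlgHom.fieldRange_eq_map,
      IntermediateField.fieldRange_val]
    rfl
  let b := Module.finBasis F L
  let b' := (Algebra.traceForm F L).dualBasis (traceForm_nondegenerate F L) b
  obtain ⟨e, p, h1, h2, h3⟩ := exists_den (k := k) t (Sum.elim u b) Finset.univ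
    fun i => Algebra.IsAlgebraic.isAlgebraic _
  obtain ⟨q, hq⟩ : ∃ q : F, algebraMap F L q = p := by
    rw [← htt, ← NOE.map_sys] at h1
    obtain ⟨q, -, hq⟩ := h1
    exact ⟨q, hq⟩
  refine ⟨insert p⁻¹ (Finset.univ.image t ∪ Finset.univ.image b'), fun j x hx => ?_⟩
  set A := Algebra.adjoin k
    ((insert p⁻¹ (Finset.univ.image t ∪ Finset.univ.image b') : Finset L) : Set L) with hA
  have hp : p⁻¹ ∈ A := Algebra.subset_adjoin (by simp)
  have hb : ∀ i, b' i ∈ A := fun i => Algebra.subset_adjoin (by simp)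
  have hs : ∀ y ∈ sys k t, y ∈ A := fun y hy =>
    sys_le (U := Subalgebra.toSubmodule A) A.one_mem
      (fun i => Algebra.subset_adjoin (by simp)) hy
  have h4 : Submodule.span k {p} * sys k u ≤ cl (sys k t ^ e) := by
    rw [sys, Submodule.span_mul_span, Submodule.span_le]
    rintro _ ⟨_, rfl, y, hy, rfl⟩
    rcases hy with rfl | ⟨i, rfl⟩
    · simpa using le_cl _ h1
    · exact h3 (Sum.inl i) (Finset.mem_univ _)
  have h5 : p ^ j * x ∈ cl (sys k t ^ (e * j)) := by
    rw [pow_mul]
    refine cl_le_cl (pow_le_cl h4 j) ?_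
    rw [mul_pow]
    exact mul_mem_cl (le_cl _ (Submodule.pow_mem_pow _ (Submodule.mem_span_singleton_self p) j)) hx
  rw [← b'.sum_repr x]
  refine A.sum_mem fun i _ => ?_
  rw [LinearMap.BilinForm.dualBasis_repr_apply, Algebra.traceForm_apply, Algebra.smul_def]
  refine A.mul_mem ?_ (hb i)
  have h6 : Algebra.trace F L (p ^ j * x * (p * b i)) ∈ sys k t' ^ (e * j + e) := by
    rw [← st_POL k F n t' hind hgen]
    refine st_TRC k F L _ _ ?_
    rw [NOE.map_sys, pow_add]
    exact mul_mem_cl h5 (h3 (Sum.inr i) (Finset.mem_univ _))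
  have h7 : algebraMap F L (Algebra.trace F L (p ^ j * x * (p * b i))) ∈ A := by
    refine pow_le_alg hs (e * j + e) _ ?_
    rw [← htt, ← NOE.map_sys]
    exact ⟨_, h6, rfl⟩
  have h8 : p ^ j * x * (p * b i) = q ^ (j + 1) • (x * b i) := by
    rw [Algebra.smul_def, map_pow, hq]
    ring
  rw [h8, map_smul, smul_eq_mul, map_mul, map_pow, hq] at h7
  have h9 := A.mul_mem (A.pow_mem hp (j + 1)) h7
  rwa [← mul_assoc, ← mul_pow, inv_mul_cancel₀ h2, one_pow, one_mul] at h9

theorem der_mem {S : Set L} {A : Subalgebra k L} (D : Derivation k L L) (h : S ⊆ A)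
    (hD : ∀ x ∈ S, D x ∈ A) : ∀ x ∈ Algebra.adjoin k S, D x ∈ A := by
  intro x hx
  induction hx using Algebra.adjoin_induction with
  | mem x hx => exact hD x hx
  | algebraMap c =>
    rw [D.map_algebraMap]
    exact A.zero_mem
  | add x y _ _ hx hy =>
    rw [map_add]
    exact A.add_mem hx hy
  | mul x y hx' hy' hx hy =>
    rw [D.leibniz, smul_eq_mul, smul_eq_mul]
    exact A.add_mem (A.mul_mem (Algebra.adjoin_le h hx') hy)
      (A.mul_mem (Algebra.adjoin_le h hy') hx)

theorem exists_stable {τ J : Type} [Finite τ] [Finite J] {w : τ → L} (hw : Gen k w)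
    (d : J → Derivation k L L) (s : Finset L) : ∃ s' : Finset L, s ⊆ s' ∧
      ∀ a, ∀ x ∈ Algebra.adjoin k (s' : Set L), d a x ∈ Algebra.adjoin k (s' : Set L) := by
  classical
  have := Fintype.ofFinite τ
  have := Fintype.ofFinite J
  have h1 : ∀ z : L, ∃ p ∈ Algebra.adjoin k (range w), ∃ q ∈ Algebra.adjoin k (range w),
      z = p / q := fun z => IntermediateField.mem_adjoin_iff_div.1 (by
    rw [show IntermediateField.adjoin k (range w) = ⊤ from hw]
    trivial)
  choose p hp q hq hpq using h1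
  let s₁ : Finset L := s ∪ Finset.univ.image w
  let s₂ : Finset L := s₁ ∪ (Finset.univ ×ˢ s₁).image fun z : J × L => (q (d z.1 z.2))⁻¹
  have h2 : Algebra.adjoin k (range w) ≤ Algebra.adjoin k (s₁ : Set L) :=
    Algebra.adjoin_mono (range_subset_iff.2 fun i => by simp [s₁])
  have h3 : (s₁ : Set L) ⊆ Algebra.adjoin k (s₂ : Set L) := fun x hx =>
    Algebra.subset_adjoin (Finset.mem_coe.2 (Finset.mem_union_left _ hx))
  have h4 : ∀ a, ∀ x ∈ Algebra.adjoin k (s₁ : Set L), d a x ∈ Algebra.adjoin k (s₂ : Set L) :=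
    fun a => der_mem (d a) h3 fun x hx => by
      rw [hpq (d a x), div_eq_mul_inv]
      refine mul_mem (Algebra.adjoin_le h3 (h2 (hp _))) (Algebra.subset_adjoin ?_)
      exact Finset.mem_coe.2 (Finset.mem_union_right _ (Finset.mem_image.2
        ⟨(a, x), Finset.mem_product.2 ⟨Finset.mem_univ _, hx⟩, rfl⟩))
  refine ⟨s₂, fun x hx => Finset.mem_union_left _ (Finset.mem_union_left _ hx), fun a =>
    der_mem (d a) Algebra.subset_adjoin fun x hx => ?_⟩
  rcases Finset.mem_union.1 (Finset.mem_coe.1 hx) with h | h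
  · exact h4 a x (Algebra.subset_adjoin h)
  · obtain ⟨z, -, rfl⟩ := Finset.mem_image.1 h
    rw [Derivation.leibniz_inv, smul_eq_mul]
    exact mul_mem (neg_mem (pow_mem (Algebra.subset_adjoin hx) 2)) (h4 a _ (h2 (hq _)))

/-- The generic ring. -/
theorem generic_ring [CharZero k] {τ ι J : Type} [Finite τ] [Finite ι] [Finite J] {w : τ → L}
    {n : ℕ} (hw : Gen k w) (hd : Dim k L n) (u : ι → L) (d : J → Derivation k L L) :
    ∃ s : Finset L, ∀ (j : ℕ), ∀ x ∈ cl (sys k u ^ j), ∀ l : List J,
      l.foldr (fun a g => d a g) x ∈ Algebra.adjoin k (s : Set L) := by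
  obtain ⟨s, hs⟩ := exists_ring hw hd u
  obtain ⟨s', h1, h2⟩ := exists_stable hw d s
  refine ⟨s', fun j x hx l => ?_⟩
  induction l with
  | nil => exact Algebra.adjoin_mono (Finset.coe_subset.2 h1) (hs j x hx)
  | cons a l ih => exact h2 a _ ih

/-- Outside a finite set of places of a curve, all iterated derivatives of all elements of the
complete systems `cl (U ^ j)` are regular. -/
theorem finite_bad [CharZero k] {τ ι J : Type} [Finite τ] [Finite ι] [Finite J] {w : τ → L}
    {n : ℕ} (hw : Gen k w) (hd : Dim k L n) (u : ι → L) (d : J → Derivation k L L)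
    {κ F : Type} [Field κ] [Field F] [Algebra κ F] [IsFF κ F] (σ : L →+* F)
    (hσ : ∀ c : k, σ (algebraMap k L c) ∈ (algebraMap κ F).range) :
    ∃ T : Set (Place κ F), T.Finite ∧ ∀ v ∉ T, ∀ (j : ℕ), ∀ x ∈ cl (sys k u ^ j), ∀ l : List J,
      σ (l.foldr (fun a g => d a g) x) ∈ v.O := by
  obtain ⟨s, hs⟩ := generic_ring hw hd u d
  refine ⟨⋃ g ∈ s, {v | ord v.O (σ g) ≠ 0}, s.finite_toSet.biUnion fun g _ => finite_ord _,
    fun v hv j x hx l => ?_⟩
  have h1 : ∀ g ∈ s, σ g ∈ v.O := fun g hg => by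
    have h2 : ord v.O (σ g) = 0 := by
      by_contra h3
      exact hv (mem_iUnion₂.2 ⟨g, hg, h3⟩)
    exact (mem_iff_ge (Or.inl v.disc)).2 (Or.inr h2.ge)
  have h2 := hs j x hx l
  generalize l.foldr (fun a g => d a g) x = y at h2
  induction h2 using Algebra.adjoin_induction with
  | mem x hx => exact h1 x hx
  | algebraMap c =>
    obtain ⟨c', hc⟩ := hσ c
    rw [← hc]
    exact v.const c'
  | add x y _ _ hx hy =>
    rw [map_add]
    exact add_mem hx hy
  | mul x y _ _ hx hy =>
    rw [map_mul]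
    exact mul_mem hx hy

end Pool.Agent.Lib.A35.GenR
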