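import Pool.Agent.Lib.A35.Herm2
import Pool.Agent.Lib.A35.Form2

/-! The upper bound for the jets along a curve, and the comparison with a lower bound. -/

open Module Finset

set_option linter.unusedSectionVars false

noncomputable section

namespace Pool.Agent.Lib.A35.H91

open Pool.Agent.Lib.MP_7fcda1_ag Pool.Agent.Lib.A35.T

variable {k κ F R : Type} [CommRing k] [Field κ] [Field F] [Algebra κ F] [IsFF κ F] [CommRing R]
  [Algebra k R] [Algebra κ R] {r : ℕ} (ρ : R →ₐ[κ] F) (D : Fin (r + 1) → Derivation k R R)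

/-- The upper bound. -/
theorem jet_upper (hD : ∀ a c, D a (algebraMap κ R c) = 0) {γ : Fin (r + 1) → F}
    (hγ : ∀ g, ρ g = 0 → ∑ a, ρ (D a g) * γ a = 0)
    (hm : ∀ (s : ℕ) (f : R), f ∈ RingHom.ker ρ ^ s →
      (∀ l : List (Fin (r + 1)), l.length = s → ρ (wd D l f) = 0) → f ∈ RingHom.ker ρ ^ (s + 1))
    {l₀ : Fin (r + 1)} (h0 : γ l₀ ≠ 0) (M : Place κ F → Matrix (Fin (r + 1)) (Fin (r + 1)) R)
    (i₀ : Place κ F → Fin (r + 1)) (T : Finset (Place κ F))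
    (hM : ∀ x, (((M x).map ρ).updateRow (i₀ x) γ).det ≠ 0) (hT : ∀ x ∉ T, M x = 1 ∧ i₀ x = l₀)
    (Δ : Div κ F) (hΔ : ∀ x, ord x.O (((M x).map ρ).updateRow (i₀ x) γ).det ≤ Δ x) :
    ∃ B : ℕ, ∀ (Z : Submodule κ R) [FiniteDimensional κ Z] (n : ℕ) (E : ℕ → Div κ F) (c : ℕ),
      RR κ F c → (∀ i < n, (i * B : ℤ) ≤ degD (E i) + c) →
      (∀ f ∈ Z, ∀ (x : Place κ F) (l : List (Fin (r + 1))), l.length < n →
        f ∈ RingHom.ker ρ ^ l.length →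
        Ge x.O (-E l.length x) (ρ (wd (fun a => ∑ b, M x a b • D b) l f))) →
      (r : ℤ) * finrank κ (img Z (RingHom.ker ρ ^ n)) ≤
        ∑ i ∈ range n, r.multichoose i * (r * (degD (E i) + c) + i * degD Δ) := by
  obtain ⟨A, B, hA, h⟩ := st_HERA κ F r γ l₀ (fun x => (M x).map ρ) i₀ T h0 hM fun x hx =>
    ⟨by rw [(hT x hx).1, Matrix.map_one _ (map_zero ρ) (map_one ρ)], (hT x hx).2⟩
  have h1 : degD A ≤ degD Δ := degD_mono fun x => (hA x).trans_le (hΔ x)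
  refine ⟨B, fun Z _ n E c hc hB hE => HERM.tele Z _ _ _ n fun i hi => ?_⟩
  let Y := Z ⊓ (RingHom.ker ρ ^ i).restrictScalars κ
  have h2 := h i Y ((Fm.tenL ρ D hD i).domRestrict Y) (E i) c hc (hB i hi)
    (fun f σ w => Fm.ten_perm (ρ := ρ.toRingHom) f.2.2 σ w)
    (fun f j w => by
      obtain ⟨s, rfl⟩ := Nat.exists_eq_succ_of_ne_zero j.pos.ne'
      exact HERM.upd_of_cons (Fm.ten_perm (ρ := ρ.toRingHom) f.2.2)
        (Fm.ten_tan (ρ := ρ.toRingHom) hγ f.2.2) j w)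
    fun f x w _ => by
      have h3 := hE f f.2.1 x (List.ofFn w) (by simpa using hi) (by simpa using f.2.2)
      rw [List.length_ofFn] at h3
      exact (congrArg (Ge x.O (-E i x))
        (Fm.ten_comb (ρ := ρ.toRingHom) (D := D) (M x) f.2.2 w)).mp h3
  have h3 := HERM.ker_le (Y' := Z ⊓ (RingHom.ker ρ ^ (i + 1)).restrictScalars κ)
    ((Fm.tenL ρ D hD i).domRestrict Y) fun f hf =>
      ⟨f.2.1, hm i f f.2.2 (Fm.wd_of_ten (ρ := ρ.toRingHom) hf)⟩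
  have h4 := mul_le_mul_of_nonneg_left (Int.ofNat_le.2 h3) (Int.natCast_nonneg r)
  have h5 := mul_le_mul_of_nonneg_left (mul_le_mul_of_nonneg_left h1 (Int.natCast_nonneg i))
    (Int.natCast_nonneg (r.multichoose i))
  linarith

/-- The comparison with a lower bound. -/
theorem jet_ineq (hr : 0 < r) (hD : ∀ a c, D a (algebraMap κ R c) = 0) {γ : Fin (r + 1) → F}
    (hγ : ∀ g, ρ g = 0 → ∑ a, ρ (D a g) * γ a = 0)
    (hm : ∀ (s : ℕ) (f : R), f ∈ RingHom.ker ρ ^ s →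
      (∀ l : List (Fin (r + 1)), l.length = s → ρ (wd D l f) = 0) → f ∈ RingHom.ker ρ ^ (s + 1))
    {l₀ : Fin (r + 1)} (h0 : γ l₀ ≠ 0) (M : Place κ F → Matrix (Fin (r + 1)) (Fin (r + 1)) R)
    (i₀ : Place κ F → Fin (r + 1)) (T : Finset (Place κ F))
    (hM : ∀ x, (((M x).map ρ).updateRow (i₀ x) γ).det ≠ 0) (hT : ∀ x ∉ T, M x = 1 ∧ i₀ x = l₀)
    (Δ : Div κ F) (hΔ : ∀ x, ord x.O (((M x).map ρ).updateRow (i₀ x) γ).det ≤ Δ x) :
    ∃ B : ℕ, ∀ (Z : Submodule κ R) [FiniteDimensional κ Z] (n : ℕ) (E : ℕ → Div κ F) (c : ℕ)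
      (lo up : ℤ), 0 < n → RR κ F c → (∀ i < n, (i * B : ℤ) ≤ degD (E i) + c) →
      (∀ i < n, degD (E i) + c ≤ up) →
      (∀ f ∈ Z, ∀ (x : Place κ F) (l : List (Fin (r + 1))), l.length < n →
        f ∈ RingHom.ker ρ ^ l.length →
        Ge x.O (-E l.length x) (ρ (wd (fun a => ∑ b, M x a b • D b) l f))) →
      ((∑ i ∈ range n, r.multichoose i : ℕ) : ℤ) * lo ≤ finrank κ (img Z (RingHom.ker ρ ^ n)) →
      -degD Δ * (n - 1) ≤ 2 * r * max 0 (up - lo) := by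
  obtain ⟨B, h⟩ := jet_upper ρ D hD hγ hm h0 M i₀ T hM hT Δ hΔ
  exact ⟨B, fun Z _ n E c lo up hn hc hB hup hE hlo =>
    HERM.final hr hn hlo (h Z n E c hc hB hE) hup⟩

end Pool.Agent.Lib.A35.H91
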