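import Pool.Agent.Lib.A35.Kit
import Pool.Agent.Lib.A35.Ch70
import Pool.Agent.Lib.A35.Herm3
import Pool.Agent.Lib.A35.Chart
import Pool.Agent.Lib.A35.Curve
import Pool.Agent.Lib.A35.Frames
import Pool.Agent.Lib.A35.HTC

/-! Frames along a curve through the generic point of a model. -/

open Module Set

set_option linter.unusedSectionVars false

noncomputable section

namespace Pool.Agent.Lib.A35.GW

open Pool.Agent.Lib.MP_7fcda1_ag Pool.Agent.Lib.UR G T

/-- The chain rule for a derivation of an extension field. -/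
theorem chain {k κ L F : Type} [Field k] [CharZero k] [Field κ] [Field L] [Field F] [Algebra k L]
    [Algebra k κ] [Algebra κ F] [Algebra k F] [IsScalarTower k κ F] {n : ℕ} {x : Fin n → L}
    {d : Fin n → Derivation k L L} (hx : IsTranscendenceBasis k x)
    (hd : ∀ a b, d a (x b) = if a = b then 1 else 0) (σ : L →ₐ[k] F) (E : Derivation κ F F)
    (z : L) : E (σ z) = ∑ a, σ (d a z) * E (σ (x a)) := by
  let : Algebra L F := σ.toRingHom.toAlgebra
  have : IsScalarTower k L F := .of_algebraMap_eq fun c => (σ.commutes c).symm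
  let E' : Derivation k L F := (E.restrictScalars k).compAlgebraMap L
  refine sub_eq_zero.1 ((Module.forall_dual_apply_eq_zero_iff L _).1 fun φ => ?_)
  have h := congrArg (fun P : Derivation k L L => P z) (Ct.expand_tb hx hd (φ.compDer E'))
  simp only [Ct.der_sum', Derivation.smul_apply, smul_eq_mul] at h
  rw [map_sub, map_sum, sub_eq_zero]
  refine Eq.trans h (Finset.sum_congr rfl fun a _ => ?_)
  rw [mul_comm]
  exact (φ.map_smul (d a z) _).symm

variable {L κ : Type} [Field L] [Algebra ℂ L] [Field κ] [Algebra ℂ κ] {n a b : ℕ}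
  {X : Mod L n} (U : Sys X a b) (V : Pt L κ) {D : Fin n → Derivation ℤ V.R V.R}

/-- The chain rule on the germ. -/
theorem chain_germ (hD : IsD X D) (E : Derivation κ V.K V.K) (r : V.R) :
    E (rho κ V.σ r) = ∑ c, rho κ V.σ (D c r) * E (V.σ (X.x c)) := by
  refine sub_eq_zero.1 (leib_zero (rho κ V.σ : V.R →+* V.K)
    (fun r => E (rho κ V.σ r) - ∑ c, rho κ V.σ (D c r) * E (V.σ (X.x c))) (fun p q => ?_)
    (fun p q => ?_) (fun c => ?_) (fun z => ?_) r)
  · simp only [map_add, add_mul, Finset.sum_add_distrib]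
    ring
  · simp only [map_mul, map_add, Derivation.leibniz, smul_eq_mul, add_mul, mul_assoc,
      Finset.sum_add_distrib, ← Finset.mul_sum, RingHom.coe_coe]
    ring
  · simp [hD.const]
  · simp only [hD.fn, rho_iota]
    exact sub_eq_zero.2 (chain X.tb X.dual V.σ E z)

theorem frac {B : Subalgebra ℂ L} [IsFractionRing B L] {A : Subalgebra κ V.R}
    (h : ∀ z ∈ B, iota κ V.σ z ∈ A) (z : V.K) :
    ∃ p ∈ A, ∃ q ∈ A, rho κ V.σ q ≠ 0 ∧ z * rho κ V.σ q = rho κ V.σ p := by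
  have hz : z ∈ IntermediateField.adjoin κ (range V.σ) := by
    rw [show IntermediateField.adjoin κ (range V.σ) = ⊤ from V.gen]
    trivial
  induction hz using IntermediateField.adjoin_induction with
  | mem z hz =>
    obtain ⟨l, rfl⟩ := hz
    obtain ⟨p, q, hq, rfl⟩ := IsFractionRing.div_surjective (A := B) l
    have h0 : V.σ q ≠ 0 := (map_ne_zero V.σ).2
      (IsFractionRing.to_map_ne_zero_of_mem_nonZeroDivisors (K := L) hq)
    refine ⟨_, h p p.2, _, h q q.2, by rwa [rho_iota], ?_⟩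
    rw [rho_iota, rho_iota, map_div₀]
    exact div_mul_cancel₀ _ h0
  | algebraMap c => exact ⟨_, A.algebraMap_mem c, 1, one_mem _, by simp, by simp⟩
  | add z z' _ _ hz hz' =>
    obtain ⟨p, hp, q, hq, h0, e⟩ := hz
    obtain ⟨p', hp', q', hq', h0', e'⟩ := hz'
    refine ⟨_, add_mem (mul_mem hp hq') (mul_mem hp' hq), _, mul_mem hq hq', by simp [h0, h0'], ?_⟩
    simp only [map_mul, map_add, ← e, ← e']
    ring
  | mul z z' _ _ hz hz' =>
    obtain ⟨p, hp, q, hq, h0, e⟩ := hz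
    obtain ⟨p', hp', q', hq', h0', e'⟩ := hz'
    refine ⟨_, mul_mem hp hp', _, mul_mem hq hq', by simp [h0, h0'], ?_⟩
    simp only [map_mul, ← e, ← e']
    ring
  | inv z _ hz =>
    obtain ⟨p, hp, q, hq, h0, e⟩ := hz
    by_cases h1 : z = 0
    · exact ⟨0, zero_mem _, 1, one_mem _, by simp, by simp [h1]⟩
    · exact ⟨q, hq, p, hp, e ▸ mul_ne_zero h1 h0, by rw [← e, inv_mul_cancel_left₀ h1]⟩

variable [IsFF κ V.K]

theorem ord_c (x : Place κ V.K) (c : ℂ) : ord x.O ((V.σ : L →+* V.K) (algebraMap ℂ L c)) = 0 := by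
  rw [RingHom.coe_coe, AlgHom.commutes, IsScalarTower.algebraMap_apply ℂ κ V.K]
  exact x.ord_const _

/-- The divisor of the system on the curve. -/
def mu : Div κ V.K := vdiv κ fun o => V.σ (opt U.w o)

variable (X) in
/-- The opposite of the canonical divisor of the model on the curve. -/
def kap : Div κ V.K :=
  vdiv κ (fun S => V.σ (X.G S)) - (n + 1) • vdiv κ fun j => V.σ (X.y j)

theorem mu_eq (x : Place κ V.K) :
    ord x.O (V.σ U.γ) + mu U V x + (X.q * a : ℕ) * vord x.O (fun j => V.σ (X.y j)) =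
      a * vord x.O (fun S => V.σ (X.p S)) + b * vord x.O fun j => V.σ (X.y j) := by
  have hk := ord_c V x
  have h0 : opt U.w ≠ 0 := fun h => one_ne_zero (congrFun h none)
  have h1 := ((H91.HTC.Tp.single hk U.ne).mul (H91.HTC.Tp.span hk h0)).mul
    ((H91.HTC.Tp.span hk X.y_ne').pow hk (X.q * a))
  have h2 := ((H91.HTC.Tp.span hk X.p_ne).pow hk a).mul ((H91.HTC.Tp.span hk X.y_ne').pow hk b)
  have h3 := U.eq
  rw [X.H_eq, sys_eq, Mod.P] at h3
  rw [mu, vdiv_apply]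
  exact le_antisymm (h2.le x.disc hk h1 ((le_cl _).trans h3.ge))
    (h1.le x.disc hk h2 ((le_cl _).trans h3.le))

theorem deg_mu : degD (mu U V) = -(a * V.Dc X + b * V.Hc X) := by
  have h : div κ (V.σ U.γ) + mu U V + (X.q * a) • vdiv κ (fun j => V.σ (X.y j)) =
      a • vdiv κ (fun S => V.σ (X.p S)) + b • vdiv κ fun j => V.σ (X.y j) := by
    ext x
    simpa only [Finsupp.add_apply, Finsupp.smul_apply, vdiv_apply, div_apply, nsmul_eq_mul]
      using mu_eq U V x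
  have h1 := congrArg degD h
  simp only [map_add, map_nsmul, degD_div, nsmul_eq_mul, Nat.cast_mul] at h1
  simp only [Pt.Dc, Pt.Hc, ht]
  linarith

theorem mu_le (x : Place κ V.K) : mu U V x ≤ 0 := by
  have h0 : (fun o => V.σ (opt U.w o)) ≠ 0 := fun h => by simpa [opt] using congrFun h none
  have h1 := (vge_iff (V := x.O) h0).2 le_rfl none
  rw [mu, vdiv_apply]
  simpa [opt, Ge] using h1

variable (X) in
theorem deg_kap : degD (kap X V) = -V.Kc X := by
  simp only [kap, map_sub, map_nsmul, nsmul_eq_mul, Pt.Kc, Pt.Hc, ht, Nat.cast_add, Nat.cast_one]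
  ring

variable [IsAlgClosed κ] {V}

/-- The chart at a place. -/
theorem loc (hD : IsD X D) (x : Place κ V.K) :
    Fr.Loc (rho κ V.σ) D (U.S κ V.σ) x (-kap X V x) (mu U V x) := by
  have hx : Disc x.O ∨ x.O = ⊤ := Or.inl x.disc
  have hu : ∀ r, rho κ V.σ r ≠ 0 → IsUnit r := fun _ => germ_isUnit.2
  have hy : (fun j => V.σ (X.y j)) ≠ 0 := fun h => by simpa [X.y0] using congrFun h 0
  obtain ⟨i, i0, i1⟩ := exists_vord (V := x.O) hy
  obtain ⟨hi, hf, hs⟩ := X.sm i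
  let O : ValuationSubring L := x.O.comap (V.σ : L →+* V.K)
  have hO : ∀ z, z ∈ O ↔ Ge x.O 0 (V.σ z) := fun z => mem_iff_ge hx
  have hw : ∀ j, Ge x.O 0 (V.σ (X.y j / X.y i)) := fun j => by
    rw [map_div₀, div_eq_inv_mul, ge_mul_iff (inv_ne_zero i0), ord_inv, zero_sub, neg_neg, i1]
    exact (vge_iff hy).2 le_rfl j
  have hB := Ct.chart_le (O := O) (fun c => (hO _).2 (Or.inr (ord_c V x c).ge))
    fun j => (hO _).2 (hw j)
  let Q := Ct.cen _ O hB
  have hQ : ∀ z : GD.chart X.y i, z ∉ Q → ord x.O (rho κ V.σ (iota κ V.σ z)) = 0 := fun z hz => by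
    have h0 : V.σ z ≠ 0 := (map_ne_zero V.σ).2 (Ct.ne_zero_of hz)
    have h1 := (ge_iff h0).1 ((hO _).1 (hB z z.2))
    have h2 := (hO _).1 (Ct.OQ_le _ O hB _ (Ct.inv_mem_OQ hz))
    rw [map_inv₀, ge_iff (inv_ne_zero h0), ord_inv] at h2
    rw [rho_iota]
    omega
  have hb : GD.chart X.y i = Algebra.adjoin ℂ (range fun j => X.y j / X.y i) := rfl
  have hA := Ct.OQ_AA hb hQ
  obtain ⟨S, δ, h⟩ := Ct.exists_coord (Q := Q) hb X.tb X.dual
  obtain ⟨g1, g2, -⟩ := h.gauss hi X.tb X.dual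
  let m : Matrix (Fin n) (Fin n) L := Matrix.of fun c e => δ c (X.x e)
  obtain ⟨c, hc⟩ := Ct.chart hu hb (fun j => by simpa only [rho_iota] using hw j) hQ h
    (fun c => ∑ e, m.map (iota κ V.σ) c e • D e) (fun c z => by
      have := congrArg (fun P : Derivation ℂ L L => P z) (Ct.expand_tb X.tb X.dual (δ c))
      simp only [Ct.der_sum', Derivation.smul_apply, smul_eq_mul] at this
      rw [this, Bl.der_sum, map_sum]
      exact Finset.sum_congr rfl fun e _ => by simp [m, hD.fn])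
    fun c e => by simp [Bl.der_sum, hD.const]
  obtain ⟨s, s0, s1⟩ := X.free i Q inferInstance
  have m0 : V.σ m.det ≠ 0 := (map_ne_zero V.σ).2 fun e => pow_ne_zero _ hi (by
    rw [← g1, show (Matrix.of fun c e => δ c (X.x e)).det = 0 from e, zero_mul])
  have m1 : rho κ V.σ (m.map (iota κ V.σ)).det = V.σ m.det := by
    rw [← rho_iota (κ := κ), (iota κ V.σ).map_det]
    rfl
  have p0 : V.σ (X.p s) ≠ 0 := (map_ne_zero V.σ).2 s0
  have γ0 : V.σ U.γ ≠ 0 := (map_ne_zero V.σ).2 U.ne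
  have g0 : X.p s ^ a * X.y i ^ b / (U.γ * X.y i ^ (X.q * a)) ≠ 0 :=
    div_ne_zero (mul_ne_zero (pow_ne_zero _ s0) (pow_ne_zero _ hi))
      (mul_ne_zero U.ne (pow_ne_zero _ hi))
  refine ⟨_, _, _, m.map (iota κ V.σ),
    iota κ V.σ (X.p s ^ a * X.y i ^ b / (U.γ * X.y i ^ (X.q * a))), hc, fun _ => rfl, m1 ▸ m0, ?_,
    frac V fun z hz => hA z (Ct.le_OQ _ _ hz), ?_, ?_, fun j f hf => ?_⟩
  · have G0 : V.σ (X.G (Fin.cons i S)) ≠ 0 := (map_ne_zero V.σ).2 g2
    have h1 := (ge_iff G0).1 ((vge_iff (V := x.O) (w := fun S => V.σ (X.G S))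
      fun e => G0 (congrFun e _)).2 le_rfl _)
    have h2 : ord x.O (V.σ m.det * V.σ (X.G (Fin.cons i S))) = ord x.O (V.σ (X.y i) ^ (n + 1)) := by
      rw [← map_mul, ← map_pow, ← g1]
      rfl
    rw [ord_mul m0 G0, ord_pow, i1] at h2
    rw [m1, kap, Finsupp.sub_apply, Finsupp.smul_apply, vdiv_apply, vdiv_apply, nsmul_eq_mul]
    omega
  · rw [rho_iota]
    exact (map_ne_zero V.σ).2 g0
  · have h1 := (ge_iff p0).1 ((vge_iff (V := x.O) (w := fun S => V.σ (X.p S))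
      fun e => p0 (congrFun e _)).2 le_rfl _)
    have h2 := mu_eq U V x
    have h3 := mul_le_mul_of_nonneg_left h1 (Nat.cast_nonneg a : (0 : ℤ) ≤ a)
    rw [rho_iota, map_div₀, map_mul, map_mul, map_pow, map_pow, map_pow,
      ord_div (mul_ne_zero (pow_ne_zero _ p0) (pow_ne_zero _ i0))
        (mul_ne_zero γ0 (pow_ne_zero _ i0)), ord_mul (pow_ne_zero _ p0) (pow_ne_zero _ i0),
      ord_mul γ0 (pow_ne_zero _ i0), ord_pow, ord_pow, ord_pow, i1]
    omega
  · induction hf using Submodule.span_induction with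
    | mem f hf =>
      obtain ⟨z, hz, rfl⟩ := hf
      have h3 := (le_cl _).trans U.eq.le
      rw [X.H_eq] at h3
      refine ⟨_, hA _ (Ct.free_mem X.sm s0 s1 U.ne h3 j hz), ?_⟩
      rw [← map_pow, ← map_mul, mul_div_cancel₀ _ (pow_ne_zero _ g0)]
    | zero => exact ⟨0, zero_mem _, (mul_zero _).symm⟩
    | add f f' _ _ hf hf' =>
      obtain ⟨r, hr, rfl⟩ := hf
      obtain ⟨r', hr', rfl⟩ := hf'
      exact ⟨_, add_mem hr hr', (mul_add _ _ _).symm⟩
    | smul e f _ hf =>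
      obtain ⟨r, hr, rfl⟩ := hf
      exact ⟨_, Subalgebra.smul_mem _ hr e, (mul_smul_comm _ _ _).symm⟩

omit [IsAlgClosed κ] in
theorem cong (s : L →ₐ[ℂ] κ) {x : Place κ V.K} (he : 0 < V.Ed X s x) (z : L) :
    Ge x.O (V.Ed X s x) ((V.σ : L →+* V.K) z - algebraMap κ V.K ((s : L →+* κ) z)) :=
  CRV.cg_field x X.gen (fun c => by simp [← IsScalarTower.algebraMap_apply]) he
    (CRV.ge_zdiv (ζ := V.zt X s) he) z

omit [IsAlgClosed κ] in
/-- All words are regular at the places centred at the point. -/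
theorem reg (hD : IsD X D) (s : L →ₐ[ℂ] κ) {x : Place κ V.K} (he : 0 < V.Ed X s x)
    {W : Submodule ℂ L} {f : V.R} (hf : f ∈ spn κ V.σ W) (l : List (Fin n)) :
    Ge x.O 0 (rho κ V.σ (wd D l f)) := by
  refine PosP.ge_span _ D hD.const x l ?_ hf
  rintro _ ⟨g, -, rfl⟩
  rw [PosP.wd_iota _ (fun c g => X.d c g) D hD.fn, rho_iota]
  exact Or.inr (CRV.ord_field x he (cong s he) _).ge

/-- The sections with the gain. -/
def Zg (hD : IsD X D) (s : L →ₐ[ℂ] κ) (N ω j : ℕ) : Submodule κ V.R where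
  carrier := {f | f ∈ U.S κ V.σ j ∧ V.Gain X D s N ω f}
  zero_mem' := ⟨zero_mem _, fun _ _ l => Or.inl (by rw [H45.wd_zero, map_zero])⟩
  add_mem' := fun hf hg => ⟨add_mem hf.1 hg.1, fun x h l => by
    rw [wd_add, map_add]
    exact (hf.2 x h l).add (hg.2 x h l)⟩
  smul_mem' := fun c f hf => ⟨Submodule.smul_mem _ c hf.1, fun x h l => by
    rw [PosP.wd_ksmul D hD.const, map_smul]
    exact x.ge_smul (hf.2 x h l) c⟩

omit [IsAlgClosed κ] in
theorem Zg_le (hD : IsD X D) (s : L →ₐ[ℂ] κ) (N ω j : ℕ) : Zg U hD s N ω j ≤ U.S κ V.σ j :=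
  fun _ h => h.1

omit [IsAlgClosed κ] in
theorem Zg_mul (hD : IsD X D) (s : L →ₐ[ℂ] κ) (N ω i j : ℕ) (g : V.R) (hg : g ∈ U.S κ V.σ i)
    (f : V.R) (hf : f ∈ Zg U hD s N ω j) : g * f ∈ Zg U hD s N ω (i + j) := by
  refine ⟨spn_mul (U.mul i j) (Submodule.mul_mem_mul hg hf.1), fun x h l => ?_⟩
  have := H45.wd_mul_mem D (rho κ V.σ : V.R →+* V.K) (O := {z | Ge x.O 0 z})
    (V := fun t => { carrier := {z | Ge x.O (V.Ed X s x * ((N : ℤ) - ω * t)) z}
                     zero_mem' := Or.inl rfl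
                     add_mem' := Ge.add
                     neg_mem' := Ge.neg })
    (fun t t' ht z hz => Ge.mono hz (by gcongr)) (fun t p hp q hq => by
      have := Ge.mul hp hq
      rwa [zero_add] at this) l g f 0 (reg hD s h hg) fun l' => by
        rw [zero_add]
        exact hf.2 x h l'
  rwa [zero_add] at this

/-- The places centred at the point. -/
theorem centred (hD : IsD X D) (s : L →ₐ[ℂ] κ) (x : Place κ V.K) (he : 0 < V.Ed X s x) :
    kap X V x ≤ 1 ∧ ∃ r, ord x.O (rho κ V.σ r) ≠ 0 ∧ ord x.O (rho κ V.σ r) ≤ V.Ed X s x ∧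
      ∀ c, Ge x.O 0 (rho κ V.σ (D c r)) := by
  have h2 := cong s he
  have h3 : V.zt X s ≠ 0 := fun h => by simp [Pt.Ed, h, vdiv_apply] at he
  obtain ⟨j, j0, j1⟩ := CRV.exists_ord_le (k := κ) h3 x
  have h4 := (ge_iff j0).1 (h2 (X.y j))
  have h5 : rho κ V.σ (iota κ V.σ (X.y j) - algebraMap κ _ (s (X.y j))) = V.zt X s j := by
    rw [map_sub, rho_iota, AlgHom.commutes]
    rfl
  refine ⟨?_, _, h5 ▸ (he.trans_le h4).ne', h5 ▸ j1, fun c => ?_⟩
  · rw [kap, Finsupp.sub_apply, Finsupp.smul_apply, vdiv_apply, vdiv_apply]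
    have a1 := CRV.vord_field x he h2 X.G
    have a2 := CRV.vord_field x he h2 X.y
    rw [RingHom.coe_coe] at a1 a2
    simp [a1, a2]
  · rw [map_sub, hD.fn, hD.const, sub_zero, rho_iota]
    exact Or.inr (CRV.ord_field x he h2 _).ge

/-- Frames at all places of the curve, with the bounds for the forms of the sections. -/
theorem frames (hD : IsD X D) (s : L →ₐ[ℂ] κ) {E : Derivation κ V.K V.K} (hE : E ≠ 0)
    {W : Div κ V.K} (hW : ∀ (x : Place κ V.K) (π : V.K), ord x.O π = 1 → W x = -ord x.O (E π)) :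
    ∃ (l₀ : Fin n) (M : Place κ V.K → Matrix (Fin n) (Fin n) V.R) (i : Place κ V.K → Fin n)
      (T : Finset (Place κ V.K)), E (V.σ (X.x l₀)) ≠ 0 ∧ (∀ x ∉ T, M x = 1 ∧ i x = l₀) ∧
      (∀ x, Fr.dt (rho κ V.σ) (fun c => E (V.σ (X.x c))) (M x) (i x) ≠ 0) ∧
      (∀ x, ord x.O (Fr.dt (rho κ V.σ) (fun c => E (V.σ (X.x c))) (M x) (i x)) ≤
        (-W - kap X V + V.Ed X s) x) ∧
      ∀ (x : Place κ V.K) (N ω j : ℕ), ∀ f ∈ Zg U hD s N ω j,
        ∀ l : List (Fin n), f ∈ RingHom.ker (rho κ V.σ) ^ l.length →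
          Ge x.O (j * mu U V x + V.Ed X s x * ((N : ℤ) - ω * l.length))
            (rho κ V.σ (wd (fun c => ∑ e, M x c e • D e) l f)) := by
  have := charZ κ
  have hc := chain_germ V hD E
  obtain ⟨l₀, hl⟩ := Fr.exists_gamma (rho_surj V.gen) hE hc
  obtain ⟨T₀, hT, h2⟩ := PosP.finite_bad X.gen X.dim U.w X.d (V.σ : L →+* V.K)
    (fun c => ⟨algebraMap ℂ κ c, by simp [← IsScalarTower.algebraMap_apply]⟩) (iota κ V.σ)
    (rho κ V.σ) rho_iota D hD.fn hD.const
  have he : 0 ≤ V.Ed X s := le_sup_right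
  obtain ⟨M, i, T, t1, t2⟩ := Fr.frames (fun _ => germ_isUnit.2) hE hc hl W (kap X V) (V.Ed X s)
    (mu U V) hW he (fun x _ => loc U hD x) (centred hD s) hT h2
  exact ⟨l₀, M, i, T, hl, t1, fun x => (t2 x).1, fun x => (t2 x).2.1, fun x N ω j f hf l hl =>
    Fr.bound (he x) (t2 x).2.2.1 (t2 x).2.2.2 (fun _ => mu_le U V x) hf.1 l hl fun h => hf.2 x h l⟩

omit [IsAlgClosed κ] in
theorem Ec_nonneg (s : L →ₐ[ℂ] κ) : 0 ≤ V.Ec X s := by
  simpa [Pt.Ec] using degD_mono (show 0 ≤ V.Ed X s from le_sup_right)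

/-- The genus of the curve is bounded by the number of jets of the sections with the gain. -/
theorem jet {r : ℕ} {X : Mod L (r + 1)} (U : Sys X a b) {D : Fin (r + 1) → Derivation ℤ V.R V.R}
    (hr : 0 < r) (hD : IsD X D) (s : L →ₐ[ℂ] κ) {E : Derivation κ V.K V.K} (hE : E ≠ 0)
    {W : Div κ V.K} (hW : ∀ (x : Place κ V.K) (π : V.K), ord x.O π = 1 → W x = -ord x.O (E π))
    (hm : ∀ (i : ℕ) (f : V.R), f ∈ V.m ^ i → (∀ l : List (Fin (r + 1)), l.length = i →
      rho κ V.σ (wd D l f) = 0) → f ∈ V.m ^ (i + 1)) :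
    ∃ B : ℕ, ∀ (N ω j t c : ℕ) (lo : ℤ), 0 < t → RR κ V.K c →
      t * B + N * V.Ec X s ≤ j * (a * V.Dc X + b * V.Hc X) + c →
      ((∑ i ∈ Finset.range t, r.multichoose i : ℕ) : ℤ) * lo ≤
        finrank κ (img (Zg U hD s N ω j) (V.m ^ t)) →
      (degD W - V.Kc X - V.Ec X s) * (t - 1) ≤ 2 * r *
        max 0 (j * (a * V.Dc X + b * V.Hc X) - ((N : ℤ) - ω * t) * V.Ec X s + c - lo) := by
  obtain ⟨l₀, M, i, T, h0, h1, h2, h3, h4⟩ := frames U hD s hE hW
  have hk : RingHom.ker (rho κ V.σ) = V.m := ker_rho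
  obtain ⟨B, h⟩ := H91.jet_ineq (rho κ V.σ) D hr hD.const (γ := fun c => E (V.σ (X.x c)))
    (fun g hg => by rw [← chain_germ V hD E, hg, map_zero]) (hk ▸ hm) h0 M i T h2 h1 _ h3
  refine ⟨B, fun N ω j t c lo ht hc hB hlo => ?_⟩
  have := Submodule.finiteDimensional_of_le (Zg_le U hD s N ω j)
  have he := Ec_nonneg (X := X) (V := V) s
  have hd : ∀ i : ℕ, degD (-(j • mu U V + ((N : ℤ) - ω * i) • V.Ed X s)) =
      j * (a * V.Dc X + b * V.Hc X) - ((N : ℤ) - ω * i) * V.Ec X s := fun i => by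
    rw [map_neg, map_add, map_nsmul, map_zsmul, deg_mu, nsmul_eq_mul, smul_eq_mul, Pt.Ec]
    ring
  have h5 := h (Zg U hD s N ω j) t (fun i => -(j • mu U V + ((N : ℤ) - ω * i) • V.Ed X s)) c lo
    (j * (a * V.Dc X + b * V.Hc X) - ((N : ℤ) - ω * t) * V.Ec X s + c) ht hc
    (fun i hi => by
      have a1 : (i * B : ℤ) ≤ t * B := by gcongr
      have a2 : (0 : ℤ) ≤ ω * i * V.Ec X s := by positivity
      rw [hd]
      linarith)
    (fun i hi => by
      have a1 : (ω * i * V.Ec X s : ℤ) ≤ ω * t * V.Ec X s := by gcongr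
      rw [hd]
      linarith)
    (fun f hf x l _ hl => by
      have := h4 x N ω j f hf l hl
      simpa only [Finsupp.neg_apply, neg_neg, Finsupp.add_apply, Finsupp.smul_apply, nsmul_eq_mul,
        smul_eq_mul, mul_comm (V.Ed X s x)] using this) (hk ▸ hlo)
  rw [map_add, map_sub, map_neg, deg_kap] at h5
  rw [show degD W - V.Kc X - V.Ec X s = -(-degD W - -V.Kc X + degD (V.Ed X s)) by
    rw [Pt.Ec]; ring]
  exact h5

end Pool.Agent.Lib.A35.GW
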