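import Pool.Agent.Lib.MP_7fcda1_ag.CT2

/-! Sections of symmetric powers of a vector bundle on a curve, counted through a filtration by
line bundles. -/

open Module Finset

set_option linter.unusedSectionVars false

noncomputable section

namespace Pool.Agent.Lib.A35.H91

open Pool.Agent.Lib.MP_7fcda1_ag

/-- The coefficient `w` of the tensor `b` in the frame `M`. -/
def tf {F : Type} [Field F] {r i : ℕ} (M : Matrix (Fin r) (Fin r) F) (b : (Fin i → Fin r) → F)
    (w : Fin i → Fin r) : F := ∑ β : Fin i → Fin r, (∏ k, M (w k) (β k)) * b β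

/-- The count of symmetric tensors which are integral in local frames. -/
def St_HERM : Prop := ∀ (κ F : Type) [Field κ] [Field F] [Algebra κ F] [IsFF κ F] (r : ℕ)
  (M : Place κ F → Matrix (Fin r) (Fin r) F) (T : Finset (Place κ F)), (∀ x, (M x).det ≠ 0) →
    (∀ x ∉ T, M x = 1) → ∃ A : Fin r → Div κ F, (∀ x, ∑ l, A l x = ord x.O (M x).det) ∧
      ∀ (i : ℕ) (Z : Type) [AddCommGroup Z] [Module κ Z] [FiniteDimensional κ Z]
        (b : Z →ₗ[κ] (Fin i → Fin r) → F) (D : Div κ F) (c : ℤ),
        (∀ f (σ : Equiv.Perm (Fin i)) w, b f (w ∘ σ) = b f w) →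
        (∀ f (x : Place κ F) w, Ge x.O (-D x) (tf (M x) (b f) w)) →
        (∀ w : Fin i → Fin r, (finrank κ (Ls (D + ∑ k, A (w k))) : ℤ) ≤
          degD (D + ∑ k, A (w k)) + c) →
        (r : ℤ) * finrank κ Z ≤ r * finrank κ (LinearMap.ker b) +
          r.multichoose i * (r * (degD D + c) + i * ∑ l, degD (A l))

namespace HERM

section loc
variable {F : Type} [Field F] {r : ℕ}

theorem tri (V : ValuationSubring F) (M : Matrix (Fin r) (Fin r) F) (s : ℕ) :
    ∃ U : Matrix (Fin r) (Fin r) F, (∀ j l, U j l ∈ V) ∧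
      V.valuation (U * M).det = V.valuation M.det ∧
      ∀ j l : Fin r, j < l → r ≤ l + s → (U * M) j l = 0 := by
  induction s with
  | zero =>
    refine ⟨1, fun j l => ?_, by rw [one_mul], fun j l _ h => absurd l.2 (by omega)⟩
    rw [Matrix.one_apply]
    split_ifs
    exacts [one_mem _, zero_mem _]
  | succ s ih =>
    obtain ⟨U, h1, h2, h3⟩ := ih
    by_cases hs : r ≤ s
    · exact ⟨U, h1, h2, fun j l h _ => h3 j l h (by omega)⟩
    let a : Fin r := ⟨r - 1 - s, by omega⟩
    obtain ⟨j₀, hj, hm⟩ := (univ.filter (· ≤ a)).exists_max_image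
      (fun j => V.valuation ((U * M) j a)) ⟨a, by simp⟩
    replace hj : j₀ ≤ a := by simpa using hj
    let σ := Equiv.swap j₀ a
    have hσ : ∀ j l, j ≤ l → a ≤ l → σ j ≤ l := fun j l h h' => by
      rw [Equiv.swap_apply_def]
      split_ifs
      exacts [h', hj.trans h', h]
    have hm' : ∀ j ≤ a, V.valuation ((U * M) (σ j) a) ≤ V.valuation ((U * M) j₀ a) :=
      fun j h => hm _ (by simpa using hσ j a h le_rfl)
    let q : Fin r → F := fun j => if j < a then -((U * M) (σ j) a / (U * M) j₀ a) else 0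
    have hq : ∀ j, q j ∈ V := fun j => by
      simp only [q]
      split_ifs with h
      · refine neg_mem ?_
        rw [← V.valuation_le_one_iff, map_div₀]
        exact div_le_one_of_le₀ (hm' j h.le) zero_le
      · exact zero_mem _
    have he : ∀ j l, ((Matrix.of fun j l => U (σ j) l + q j * U j₀ l) * M) j l =
        (U * M) (σ j) l + q j * (U * M) j₀ l := fun j l => by
      simp only [Matrix.mul_apply, Matrix.of_apply, add_mul, sum_add_distrib, mul_sum, mul_assoc]
    refine ⟨.of fun j l => U (σ j) l + q j * U j₀ l,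
      fun j l => add_mem (h1 _ _) (mul_mem (hq _) (h1 _ _)), ?_, fun j l h hl => ?_⟩
    · rw [Matrix.det_eq_of_forall_row_eq_smul_add_const (B := (U * M).submatrix σ id) q a
        (by simp [q]) fun j l => by rw [he]; simp [σ], Matrix.det_permute, map_mul, h2]
      rcases Int.units_eq_one_or (Equiv.Perm.sign σ) with h | h <;> simp [h]
    · rw [he]
      have ha : a ≤ l := by
        change r - 1 - s ≤ l
        omega
      rcases ha.eq_or_lt with rfl | ha
      · simp only [q, if_pos h]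
        by_cases h0 : (U * M) j₀ a = 0
        · have := hm' j h.le
          rw [h0, map_zero, le_zero_iff, map_eq_zero] at this
          rw [this, h0, mul_zero, add_zero]
        · rw [neg_mul, div_mul_cancel₀ _ h0, add_neg_cancel]
      · have hl' : r ≤ l + s := by
          change r - 1 - s < l at ha
          omega
        have h4 : σ j < l := by
          rw [Equiv.swap_apply_def]
          split_ifs
          exacts [ha, hj.trans_lt ha, h]
        rw [h3 _ _ h4 hl', h3 _ _ (hj.trans_lt ha) hl', mul_zero, add_zero]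

theorem tf_mul {i : ℕ} (U M : Matrix (Fin r) (Fin r) F) (b : (Fin i → Fin r) → F)
    (α : Fin i → Fin r) : tf (U * M) b α = ∑ w : Fin i → Fin r, (∏ k, U (α k) (w k)) * tf M b w := by
  simp only [tf, Matrix.mul_apply, mul_sum]
  rw [sum_comm]
  refine sum_congr rfl fun β _ => ?_
  rw [Fintype.prod_sum, sum_mul]
  refine sum_congr rfl fun w _ => ?_
  rw [prod_mul_distrib, mul_assoc]

theorem tf_tri {i : ℕ} {N : Matrix (Fin r) (Fin r) F} (hN : ∀ j l, j < l → N j l = 0)
    {b : (Fin i → Fin r) → F} {α : Fin i → Fin r}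
    (hb : ∀ β, ∑ k, (β k : ℕ) < ∑ k, (α k : ℕ) → b β = 0) :
    tf N b α = (∏ k, N (α k) (α k)) * b α := by
  refine sum_eq_single α (fun β _ h => ?_) (by simp)
  by_cases h1 : ∀ k, β k ≤ α k
  · obtain ⟨k, hk⟩ := Function.ne_iff.1 h
    rw [hb β (sum_lt_sum (fun k _ => h1 k)
      ⟨k, mem_univ _, Fin.lt_def.1 (lt_of_le_of_ne (h1 k) hk)⟩), mul_zero]
  · push Not at h1
    obtain ⟨k, hk⟩ := h1
    rw [prod_eq_zero (mem_univ k) (hN _ _ hk), zero_mul]

theorem loc {V : ValuationSubring F} (hV : Disc V) {M : Matrix (Fin r) (Fin r) F}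
    (hM : M.det ≠ 0) : ∃ a : Fin r → ℤ, ∑ l, a l = ord V M.det ∧ (M = 1 → a = 0) ∧
      ∀ (i : ℕ) (b : (Fin i → Fin r) → F) (n : ℤ), (∀ w, Ge V n (tf M b w)) → ∀ α,
        (∀ β, ∑ k, (β k : ℕ) < ∑ k, (α k : ℕ) → b β = 0) → Ge V (n - ∑ k, a (α k)) (b α) := by
  obtain ⟨U, h0, h1, h2, h3⟩ : ∃ U : Matrix (Fin r) (Fin r) F, (M = 1 → U = 1) ∧
      (∀ j l, U j l ∈ V) ∧ V.valuation (U * M).det = V.valuation M.det ∧
      ∀ j l : Fin r, j < l → (U * M) j l = 0 := by
    by_cases h : M = 1
    · refine ⟨1, fun _ => rfl, fun j l => ?_, by rw [one_mul], fun j l hl => ?_⟩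
      · rw [Matrix.one_apply]
        split_ifs
        exacts [one_mem _, zero_mem _]
      · rw [h, one_mul, Matrix.one_apply_ne hl.ne]
    · obtain ⟨U, h1, h2, h3⟩ := tri V M r
      exact ⟨U, fun h' => absurd h' h, h1, h2, fun j l hl => h3 j l hl (by omega)⟩
  have h4 : (U * M).det = ∏ l, (U * M) l l :=
    Matrix.det_of_isLowerTriangular _ fun j l hl => h3 j l hl
  have h5 : (U * M).det ≠ 0 := fun h => by
    rw [h, map_zero, eq_comm, map_eq_zero] at h2
    exact hM h2
  have h6 : ∀ l, (U * M) l l ≠ 0 := fun l =>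
    prod_ne_zero_iff.1 (h4.symm.trans_ne h5) l (mem_univ l)
  refine ⟨fun l => ord V ((U * M) l l), ?_, fun h => ?_, fun i b n hb α hα => ?_⟩
  · rw [← ord_prod _ _ fun l _ => h6 l, ← h4]
    exact le_antisymm ((ge_iff hM).1 ((val_le_iff (Or.inl hV) h5).1 h2.ge))
      ((ge_iff h5).1 ((val_le_iff (Or.inl hV) hM).1 h2.le))
  · funext l
    rw [h0 h, h, one_mul, Matrix.one_apply_eq, ord_one]
    rfl
  · rw [← ord_prod _ _ fun k _ => h6 (α k),
      ← ge_mul_iff (prod_ne_zero_iff.2 fun k _ => h6 (α k)), ← tf_tri h3 hα, tf_mul]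
    refine Ge.sum fun w _ => ?_
    simpa using Ge.mul ((mem_iff_ge (Or.inl hV)).1 (prod_mem fun k _ => h1 _ _)) (hb w)

end loc

theorem filt {κ F Z S : Type} [Field κ] [AddCommGroup F] [Module κ F] [AddCommGroup Z] [Module κ Z]
    [FiniteDimensional κ Z] (φ : S → Z →ₗ[κ] F) (L : S → Submodule κ F)
    [∀ s, FiniteDimensional κ (L s)] (wt : S → ℕ) (T : Finset S) :
    (∀ s ∈ T, ∀ f, (∀ s' ∈ T, wt s' < wt s → φ s' f = 0) → φ s f ∈ L s) →
      finrank κ Z ≤ finrank κ ↥(⨅ s ∈ T, LinearMap.ker (φ s)) + ∑ s ∈ T, finrank κ (L s) := by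
  classical
  induction T using Finset.induction_on_max_value wt with
  | empty =>
    intro _
    rw [show ⨅ s ∈ (∅ : Finset S), LinearMap.ker (φ s) = ⊤ by simp, finrank_top]
    exact Nat.le_add_right _ _
  | insert a T ha hm ih =>
    intro h
    have h1 := ih fun s hs f hf => h s (mem_insert_of_mem hs) f fun s' hs' hlt => by
      rcases mem_insert.1 hs' with rfl | hs'
      · exact absurd hlt (not_lt.2 (hm s hs))
      · exact hf s' hs' hlt
    set K := ⨅ s ∈ T, LinearMap.ker (φ s) with hK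
    have h2 : ∀ f : K, (φ a).domRestrict K f ∈ L a := fun f =>
      h a (mem_insert_self _ _) f fun s' hs' hlt => by
        rcases mem_insert.1 hs' with rfl | hs'
        · exact absurd hlt (lt_irrefl _)
        · exact (Submodule.mem_iInf _).1 ((Submodule.mem_iInf _).1 f.2 s') hs'
    have h3 := (((φ a).domRestrict K).codRestrict _ h2).finrank_range_add_finrank_ker
    have h4 := Submodule.finrank_le (LinearMap.range (((φ a).domRestrict K).codRestrict _ h2))
    have h5 : finrank κ (LinearMap.ker (((φ a).domRestrict K).codRestrict _ h2)) ≤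
        finrank κ ↥(LinearMap.ker (φ a) ⊓ K) := by
      rw [← Submodule.finrank_map_subtype_eq]
      refine Submodule.finrank_mono ?_
      rintro _ ⟨f, hf, rfl⟩
      exact ⟨congrArg Subtype.val hf, f.2⟩
    rw [sum_insert ha, Finset.iInf_insert, ← hK]
    omega

section sym
variable {r i : ℕ}

/-- The class of a word. -/
def cls (w : Fin i → Fin r) : Sym (Fin r) i := ⟨univ.val.map w, by simp⟩

theorem cls_surj (α : Sym (Fin r) i) : ∃ w, cls w = α := by
  obtain ⟨⟨l⟩, rfl⟩ := α
  exact ⟨l.get, Subtype.ext ((Fin.univ_val_map _).trans (congrArg _ (List.ofFn_get l)))⟩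

theorem exists_perm {w w' : Fin i → Fin r} (h : cls w = cls w') :
    ∃ σ : Equiv.Perm (Fin i), w' ∘ σ = w := by
  have h1 : ∀ c, Fintype.card {k // w k = c} = Fintype.card {k // w' k = c} := fun c => by
    have h2 := congrArg (fun α : Sym (Fin r) i => Multiset.count c α.1) h
    simp only [cls, Multiset.count_map] at h2
    simpa only [Fintype.card_subtype, Finset.card, filter_val, eq_comm] using h2
  exact ⟨Equiv.ofFiberEquiv fun c => Fintype.equivOfCardEq (h1 c),
    funext (Equiv.ofFiberEquiv_map _)⟩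

theorem sum_sym (a : Fin r → ℤ) : (r : ℤ) * ∑ α : Sym (Fin r) i, (α.1.map a).sum =
    r.multichoose i * (i * ∑ l, a l) := by
  have h1 : ∀ l l' : Fin r, ∑ α : Sym (Fin r) i, (α.1.count l : ℤ) =
      ∑ α : Sym (Fin r) i, (α.1.count l' : ℤ) := fun l l' =>
    Fintype.sum_equiv (Sym.equivCongr (Equiv.swap l l')) _ _ fun α => by
      have := Multiset.count_map_eq_count' _ α.1 (Equiv.swap l l').injective l
      rw [Equiv.swap_apply_left] at this
      exact congrArg Nat.cast this.symm
  have h2 : ∀ l, (r : ℤ) * ∑ α : Sym (Fin r) i, (α.1.count l : ℤ) = r.multichoose i * i :=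
    fun l => by
      have h3 : ∑ l' : Fin r, ∑ α : Sym (Fin r) i, (α.1.count l' : ℤ) = r.multichoose i * i := by
        rw [sum_comm, sum_congr rfl fun (α : Sym (Fin r) i) _ =>
          show ∑ l' : Fin r, (α.1.count l' : ℤ) = i by
            rw [← Nat.cast_sum, Multiset.sum_count_eq_card fun _ _ => mem_univ _, α.2]]
        simp [Sym.card_sym_eq_multichoose]
      rw [← h3, sum_congr rfl fun l' _ => h1 l' l]
      simp
  have h4 : ∀ α : Sym (Fin r) i, (α.1.map a).sum = ∑ l, (α.1.count l : ℤ) * a l := fun α => by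
    rw [Finset.sum_multiset_map_count, sum_subset (subset_univ _) fun l _ hl => by
      rw [Multiset.count_eq_zero_of_notMem fun h => hl (Multiset.mem_toFinset.2 h), zero_smul]]
    simp
  simp only [h4]
  rw [sum_comm, mul_sum, mul_sum, mul_sum]
  refine sum_congr rfl fun l _ => ?_
  rw [← sum_mul, ← mul_assoc, h2, mul_assoc]

end sym

end HERM

theorem st_HERM : St_HERM := by
  intro κ F _ _ _ _ r M T hM hT
  choose a h1 h2 h3 using fun x : Place κ F => HERM.loc x.disc (hM x)
  let A : Fin r → Div κ F := fun l => Finsupp.onFinset T (fun x => a x l) fun x hx => by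
    by_contra h
    exact hx (congrFun (h2 x (hT x h)) l)
  refine ⟨A, h1, fun i Z _ _ _ b D c hs hb hc => ?_⟩
  choose w hw using HERM.cls_surj (r := r) (i := i)
  have h4 : ∀ β, ∃ σ : Equiv.Perm (Fin i), w (HERM.cls β) ∘ σ = β :=
    fun β => HERM.exists_perm (hw _).symm
  have h5 := HERM.filt (fun α => LinearMap.proj (w α) ∘ₗ b) (fun α => Ls (D + ∑ k, A (w α k)))
    (fun α => ∑ k, (w α k : ℕ)) univ fun α _ f hf => mem_Ls.2 fun x => by
      refine (h3 x i (b f) _ (hb f x) (w α) fun β hβ => ?_).mono (le_of_eq ?_)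
      · obtain ⟨σ, hσ⟩ := h4 β
        rw [← hσ, hs]
        refine hf _ (mem_univ _) (lt_of_eq_of_lt ?_ hβ)
        rw [← Equiv.sum_comp σ]
        exact sum_congr rfl fun k _ => congrArg _ (congrFun hσ k)
      · rw [Finsupp.add_apply, Finsupp.finsetSum_apply, neg_add, sub_eq_add_neg]
        rfl
  have h6 : finrank κ ↥(⨅ α ∈ univ, LinearMap.ker (LinearMap.proj (w α) ∘ₗ b)) ≤
      finrank κ (LinearMap.ker b) := Submodule.finrank_mono fun f hf => funext fun β => by
    obtain ⟨σ, hσ⟩ := h4 β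
    rw [← hσ, hs]
    exact (Submodule.mem_iInf _).1 ((Submodule.mem_iInf _).1 hf _) (mem_univ _)
  have h7 : ∑ α, (finrank κ (Ls (D + ∑ k, A (w α k))) : ℤ) ≤
      ∑ α : Sym (Fin r) i, (degD D + c + (α.1.map fun l => degD (A l)).sum) :=
    sum_le_sum fun α _ => (hc _).trans (le_of_eq (by
      conv_rhs => rw [← hw α]
      rw [map_add, map_sum, HERM.cls, Multiset.map_map, add_right_comm]
      rfl))
  rw [sum_add_distrib, sum_const, card_univ, Sym.card_sym_eq_multichoose, Fintype.card_fin,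
    nsmul_eq_mul] at h7
  have h8 := HERM.sum_sym (i := i) fun l => degD (A l)
  have h9 : (finrank κ Z : ℤ) ≤ finrank κ (LinearMap.ker b) +
      ∑ α, (finrank κ (Ls (D + ∑ k, A (w α k))) : ℤ) := by
    exact_mod_cast h5.trans (Nat.add_le_add_right h6 _)
  have h0 : (0 : ℤ) ≤ r := Int.natCast_nonneg _
  nlinarith [mul_le_mul_of_nonneg_left (h9.trans (add_le_add le_rfl h7)) h0]

end Pool.Agent.Lib.A35.H91
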