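import Pool.Agent.Lib.MP_7fcda1_ag.CT2

/-! The Riemann inequality for any divisor. -/

open Module

noncomputable section

namespace Pool.Agent.Lib.A35

open Pool.Agent.Lib.MP_7fcda1_ag

/-- The upper Riemann inequality for a divisor which need not be effective. -/
theorem rr_upper {κ L : Type*} [Field κ] [Field L] [Algebra κ L] [IsFF κ L] {c : ℕ}
    (hc : RR κ L c) (D : Div κ L) (h : 0 ≤ degD D + c) :
    (finrank κ (Ls D) : ℤ) ≤ degD D + c := by
  rcases Nat.eq_zero_or_pos (finrank κ (Ls D)) with h0 | h0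
  · rw [h0]
    exact_mod_cast h
  · obtain ⟨z, hz⟩ := Module.finrank_pos_iff_exists_ne_zero.1 h0
    have hz0 : (z : L) ≠ 0 := fun h1 => hz (Subtype.ext h1)
    have h1 : 0 ≤ D + div κ (z : L) := fun v => by
      have h2 := (ge_iff hz0).1 (mem_Ls.1 z.2 v)
      rw [Finsupp.add_apply, div_apply]
      change (0 : ℤ) ≤ _
      omega
    have h2 := (hc _).2 h1
    have h3 := CT2_finrank_le_shift D hz0
    rw [map_add, degD_div] at h2
    omega

theorem rr_upper_max {κ L : Type*} [Field κ] [Field L] [Algebra κ L] [IsFF κ L] {c : ℕ}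
    (hc : RR κ L c) (D : Div κ L) : (finrank κ (Ls D) : ℤ) ≤ max 0 (degD D + c) := by
  rcases le_or_gt 0 (degD D + c) with h | h
  · exact (rr_upper hc D h).trans (le_max_right _ _)
  · have h1 : Ls D = ⊥ := eq_bot_iff.2 fun a ha =>
      eq_zero_of_degD_neg (D := D) (by omega) (mem_Ls.1 ha)
    rw [h1, finrank_bot]
    exact le_max_left _ _

end Pool.Agent.Lib.A35
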