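import Pool.Agent.Lib.A35.Herm
import Pool.Agent.Lib.A35.RRup
import Pool.Agent.Lib.A35.Chain

/-! The count of symmetric tensors on the normal bundle of a curve. -/

open Module Finset

set_option linter.unusedSectionVars false

noncomputable section

namespace Pool.Agent.Lib.A35.H91

open Pool.Agent.Lib.MP_7fcda1_ag

/-- The count of symmetric tensors killed by `γ`, which are integral in local frames. -/
def St_HERA : Prop := ∀ (κ F : Type) [Field κ] [Field F] [Algebra κ F] [IsFF κ F] (r : ℕ)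
  (γ : Fin (r + 1) → F) (l₀ : Fin (r + 1))
  (N : Place κ F → Matrix (Fin (r + 1)) (Fin (r + 1)) F) (i₀ : Place κ F → Fin (r + 1))
  (T : Finset (Place κ F)), γ l₀ ≠ 0 → (∀ x, ((N x).updateRow (i₀ x) γ).det ≠ 0) →
    (∀ x ∉ T, N x = 1 ∧ i₀ x = l₀) → ∃ (A : Div κ F) (B : ℕ),
      (∀ x, A x = ord x.O ((N x).updateRow (i₀ x) γ).det) ∧
      ∀ (i : ℕ) (Z : Type) [AddCommGroup Z] [Module κ Z] [FiniteDimensional κ Z]
        (t : Z →ₗ[κ] (Fin i → Fin (r + 1)) → F) (D : Div κ F) (c : ℕ), RR κ F c →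
        (i * B : ℤ) ≤ degD D + c →
        (∀ f (σ : Equiv.Perm (Fin i)) w, t f (w ∘ σ) = t f w) →
        (∀ f k w, ∑ a, γ a * t f (Function.update w k a) = 0) →
        (∀ f (x : Place κ F) w, (∀ k, w k ≠ i₀ x) → Ge x.O (-D x) (tf (N x) (t f) w)) →
        (r : ℤ) * finrank κ Z ≤ r * finrank κ (LinearMap.ker t) +
          r.multichoose i * (r * (degD D + c) + i * degD A)

namespace HERM

section amb
variable {F ι : Type} [Field F] [Fintype ι] {i r : ℕ}

/-- The value of the multilinear form with coefficients `t`. -/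
def tv (v : Fin i → ι → F) (t : (Fin i → ι) → F) : F :=
  ∑ β : Fin i → ι, (∏ k, v k (β k)) * t β

/-- From the head slot to any slot. -/
theorem upd_of_cons {γ : ι → F} {t : (Fin (i + 1) → ι) → F}
    (hs : ∀ (σ : Equiv.Perm (Fin (i + 1))) w, t (w ∘ σ) = t w)
    (h : ∀ u : Fin i → ι, ∑ a, γ a * t (Fin.cons a u) = 0) (k : Fin (i + 1))
    (w : Fin (i + 1) → ι) : ∑ a, γ a * t (Function.update w k a) = 0 := by
  rw [← h (k.removeNth w)]
  refine sum_congr rfl fun a _ => ?_
  rw [← hs k.cycleRange (Fin.cons a _), Fin.cons_comp_cycleRange, Fin.insertNth_removeNth]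

theorem tv_kill {γ : ι → F} {t : (Fin i → ι) → F}
    (h : ∀ k w, ∑ a, γ a * t (Function.update w k a) = 0) {v : Fin i → ι → F} {k : Fin i} {c : F}
    (hv : v k = c • γ) : tv v t = 0 := by
  obtain ⟨j, rfl⟩ := Nat.exists_eq_succ_of_ne_zero k.pos.ne'
  rw [tv, ← (Fin.insertNthEquiv (fun _ => ι) k).sum_comp, Fintype.sum_prod_type_right]
  refine sum_eq_zero fun u _ => ?_
  rcases isEmpty_or_nonempty ι with _ | ⟨⟨a₀⟩⟩
  · simp
  have h1 := congrArg (fun z => c * (∏ l, v (k.succAbove l) (u l)) * z) (h k (k.insertNth a₀ u))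
  simp only [mul_sum, mul_zero, Fin.update_insertNth] at h1
  rw [← h1]
  refine sum_congr rfl fun a _ => ?_
  rw [show Fin.insertNthEquiv (fun _ => ι) k (a, u) = k.insertNth a u from rfl]
  simp only [Fin.prod_univ_succAbove _ k, Fin.insertNth_apply_same,
    Fin.insertNth_apply_succAbove, hv, Pi.smul_apply, smul_eq_mul]
  ring

theorem tv_add {γ : ι → F} {t : (Fin i → ι) → F}
    (h : ∀ k w, ∑ a, γ a * t (Function.update w k a) = 0) (v : Fin i → ι → F) (c : Fin i → F) :
    tv ((fun k => c k • γ) + v) t = tv v t := by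
  let B : MultilinearMap F (fun _ : Fin i => ι → F) F := ∑ β : Fin i → ι, t β •
    (MultilinearMap.mkPiAlgebra F (Fin i) F).compLinearMap fun k => LinearMap.proj (β k)
  have hB : ∀ v, B v = tv v t := fun v => by simp [B, tv, mul_comm]
  rw [← hB, B.map_add_univ, sum_eq_single ∅ (fun s _ hs => ?_) (by simp), piecewise_empty, hB]
  obtain ⟨k, hk⟩ := nonempty_iff_ne_empty.2 hs
  rw [hB]
  exact tv_kill h (piecewise_eq_of_mem _ _ _ hk)

theorem tv_res {l₀ : Fin (r + 1)} {v : Fin i → Fin (r + 1) → F} (hv : ∀ k, v k l₀ = 0)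
    (t : (Fin i → Fin (r + 1)) → F) :
    tv v t = tv (fun k l => v k (l₀.succAbove l)) fun β => t (l₀.succAbove ∘ β) := by
  refine (sum_of_injOn (fun β => l₀.succAbove ∘ β)
    (Fin.succAbove_right_injective.comp_left.injOn) (by simp) (fun β _ hβ => ?_)
    fun _ _ => rfl).symm
  by_cases h : ∀ k, β k ≠ l₀
  · choose β' hβ' using fun k => Fin.exists_succAbove_eq (h k)
    exact absurd ⟨β', by simp, funext hβ'⟩ hβ
  · push Not at h
    obtain ⟨k, hk⟩ := h
    rw [prod_eq_zero (mem_univ k) (by rw [hk, hv]), zero_mul]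

/-- The frame induced on the quotient by `γ`. -/
def qm (γ : Fin (r + 1) → F) (l₀ i₀ : Fin (r + 1)) (N : Matrix (Fin (r + 1)) (Fin (r + 1)) F) :
    Matrix (Fin r) (Fin r) F := .of fun j l => N (i₀.succAbove j) (l₀.succAbove l) -
      N (i₀.succAbove j) l₀ / γ l₀ * γ (l₀.succAbove l)

theorem tv_qm {γ : Fin (r + 1) → F} {l₀ : Fin (r + 1)} (h0 : γ l₀ ≠ 0)
    {t : (Fin i → Fin (r + 1)) → F} (h : ∀ k w, ∑ a, γ a * t (Function.update w k a) = 0)
    (v : Fin i → Fin (r + 1) → F) : tv v t = tv (fun k l => v k (l₀.succAbove l) -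
      v k l₀ / γ l₀ * γ (l₀.succAbove l)) fun β => t (l₀.succAbove ∘ β) := by
  rw [← tv_res (v := fun k a => v k a - v k l₀ / γ l₀ * γ a) fun k => by simp [h0],
    ← tv_add h (fun k a => v k a - v k l₀ / γ l₀ * γ a) fun k => v k l₀ / γ l₀]
  congr 1
  ext k a
  simp

theorem det_qm {γ : Fin (r + 1) → F} {l₀ : Fin (r + 1)} (h0 : γ l₀ ≠ 0) (i₀ : Fin (r + 1))
    (N : Matrix (Fin (r + 1)) (Fin (r + 1)) F) :
    (N.updateRow i₀ γ).det = (-1) ^ (i₀ + l₀ : ℕ) * γ l₀ * (qm γ l₀ i₀ N).det := by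
  rw [Matrix.det_eq_of_forall_row_eq_smul_add_const
    (B := .of fun j a => if j = i₀ then γ a else N j a - N j l₀ / γ l₀ * γ a)
    (fun j => if j = i₀ then 0 else N j l₀ / γ l₀) i₀ (if_pos rfl) fun j a => by
      by_cases h : j = i₀ <;> simp [h], Matrix.det_succ_column _ l₀,
    sum_eq_single i₀ (fun j _ h => by simp [h, h0]) (by simp)]
  congr 2
  · simp
  · ext j l
    simp [qm]

theorem qm_one (γ : Fin (r + 1) → F) (l₀ : Fin (r + 1)) : qm γ l₀ l₀ 1 = 1 := by
  ext j l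
  simp [qm, Matrix.one_apply]

end amb

/-- Telescoping along the powers of an ideal. -/
theorem tele {κ R : Type} [Field κ] [CommRing R] [Algebra κ R] (Z : Submodule κ R)
    [FiniteDimensional κ Z] (m : Ideal R) (r : ℤ) (g : ℕ → ℤ) (n : ℕ)
    (h : ∀ i < n, r * finrank κ ↥(Z ⊓ (m ^ i).restrictScalars κ) ≤
      r * finrank κ ↥(Z ⊓ (m ^ (i + 1)).restrictScalars κ) + g i) :
    r * finrank κ (img Z (m ^ n)) ≤ ∑ i ∈ range n, g i := by
  have h1 : r * finrank κ Z ≤ r * finrank κ ↥(Z ⊓ (m ^ n).restrictScalars κ) +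
      ∑ i ∈ range n, g i := by
    induction n with
    | zero =>
      rw [show Z ⊓ (m ^ 0).restrictScalars κ = Z by simp]
      simp
    | succ n ih =>
      have h2 := ih fun i hi => h i (hi.trans n.lt_succ_self)
      have h3 := h n n.lt_succ_self
      rw [sum_range_succ]
      linarith
  rw [← finrank_img Z (m ^ n), Nat.cast_add, mul_add] at h1
  linarith

/-- The kernel of a form on `Z ⊓ I` which detects `J`. -/
theorem ker_le {κ R V : Type} [Field κ] [CommRing R] [Algebra κ R] [AddCommGroup V] [Module κ V]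
    {Y Y' : Submodule κ R} [FiniteDimensional κ Y'] (t : Y →ₗ[κ] V)
    (h : ∀ f : Y, t f = 0 → (f : R) ∈ Y') : finrank κ (LinearMap.ker t) ≤ finrank κ Y' := by
  rw [← Submodule.finrank_map_subtype_eq]
  refine Submodule.finrank_mono ?_
  rintro _ ⟨f, hf, rfl⟩
  exact h f hf

theorem mono_mc (r : ℕ) : Monotone (r + 1).multichoose :=
  monotone_nat_of_le_succ fun k => by
    rw [Nat.multichoose_succ_succ]
    exact Nat.le_add_left _ _

theorem cheb {ρ : ℕ → ℕ} (h : Monotone ρ) (n : ℕ) :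
    ((n : ℤ) - 1) * ∑ i ∈ range n, (ρ i : ℤ) ≤ 2 * ∑ i ∈ range n, (ρ i : ℤ) * i := by
  induction n with
  | zero => simp
  | succ n ih =>
    have h1 : ∑ i ∈ range n, (ρ i : ℤ) ≤ n * ρ n := by
      simpa using sum_le_card_nsmul (range n) (fun i => (ρ i : ℤ)) (ρ n)
        fun i hi => Nat.cast_le.2 (h (mem_range.1 hi).le)
    rw [sum_range_succ, sum_range_succ]
    push_cast
    nlinarith

/-- The comparison of the two counts. -/
theorem final {r n : ℕ} (hr : 0 < r) (hn : 0 < n) {d lo up Δ : ℤ} {g : ℕ → ℤ}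
    (h1 : ((∑ i ∈ range n, r.multichoose i : ℕ) : ℤ) * lo ≤ d)
    (h2 : r * d ≤ ∑ i ∈ range n, r.multichoose i * (r * g i + i * Δ)) (h3 : ∀ i < n, g i ≤ up) :
    -Δ * (n - 1) ≤ 2 * r * max 0 (up - lo) := by
  obtain ⟨r, rfl⟩ := Nat.exists_eq_succ_of_ne_zero hr.ne'
  have hn' : (0 : ℤ) ≤ n - 1 := by omega
  have h0 : (0 : ℤ) ≤ (r.succ : ℕ) := Int.natCast_nonneg _
  have hm : (0 : ℤ) ≤ max 0 (up - lo) := le_max_left _ _
  rcases le_or_gt 0 Δ with hΔ | hΔ
  · nlinarith [mul_nonneg hΔ hn', mul_nonneg h0 hm]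
  have h4 := cheb (mono_mc r) n
  have h5 : ∑ i ∈ range n, ((r + 1).multichoose i : ℤ) * ((r.succ : ℕ) * g i + i * Δ) ≤
      (∑ i ∈ range n, ((r + 1).multichoose i : ℤ)) * ((r.succ : ℕ) * up) +
        (∑ i ∈ range n, ((r + 1).multichoose i : ℤ) * i) * Δ := by
    rw [sum_mul, sum_mul, ← sum_add_distrib]
    refine sum_le_sum fun i hi => ?_
    have := mul_le_mul_of_nonneg_left (mul_le_mul_of_nonneg_left (h3 i (mem_range.1 hi)) h0)
      (Int.natCast_nonneg ((r + 1).multichoose i))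
    linarith
  have h6 : (0 : ℤ) < ∑ i ∈ range n, ((r + 1).multichoose i : ℤ) :=
    lt_of_lt_of_le (by simp) (single_le_sum (f := fun i => ((r + 1).multichoose i : ℤ))
      (fun i _ => Int.natCast_nonneg _) (mem_range.2 hn))
  push_cast at h1
  generalize ∑ i ∈ range n, ((r + 1).multichoose i : ℤ) = S at *
  generalize ∑ i ∈ range n, ((r + 1).multichoose i : ℤ) * i = S' at *
  refine le_of_mul_le_mul_left ?_ h6
  have h7 := mul_le_mul_of_nonneg_left h1 h0
  have h8 := mul_le_mul_of_nonneg_left h4 (neg_pos.2 hΔ).le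
  have h9 := mul_le_mul_of_nonneg_left (le_max_right 0 (up - lo)) (mul_nonneg h6.le h0)
  nlinarith [h2.trans h5]

end HERM

theorem st_HERA : St_HERA := by
  intro κ F _ _ _ _ r γ l₀ N i₀ T h0 hN hT
  have h1 : ∀ x, (HERM.qm γ l₀ (i₀ x) (N x)).det ≠ 0 := fun x h => hN x (by
    rw [HERM.det_qm h0, h, mul_zero])
  obtain ⟨A, hA, h⟩ := st_HERM κ F r (fun x => HERM.qm γ l₀ (i₀ x) (N x)) T h1 fun x hx => by
    rw [(hT x hx).1, (hT x hx).2, HERM.qm_one]
  refine ⟨div κ (γ l₀) + ∑ l, A l, univ.sup fun l => (degD (A l)).natAbs, fun x => ?_,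
    fun i Z _ _ _ t D c hc hB hs hγ ht => ?_⟩
  · rw [Finsupp.add_apply, Finsupp.finsetSum_apply, hA, div_apply, HERM.det_qm h0,
      ord_mul (mul_ne_zero (by simp) h0) (h1 x), ord_mul (by simp) h0, ord_pow, ord_neg, ord_one,
      mul_zero, zero_add]
  · let b : Z →ₗ[κ] (Fin i → Fin r) → F := LinearMap.funLeft κ F (fun β => l₀.succAbove ∘ β) ∘ₗ t
    have h2 := h i Z b D c (fun f σ w => hs f σ (l₀.succAbove ∘ w))
      (fun f x w => by
        have h3 := ht f x ((i₀ x).succAbove ∘ w) fun k => Fin.succAbove_ne _ _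
        rwa [show tf (N x) (t f) ((i₀ x).succAbove ∘ w) = _ from
          HERM.tv_qm h0 (hγ f) fun k => N x ((i₀ x).succAbove (w k))] at h3)
      fun w => rr_upper hc _ (by
        have h3 : ∑ k : Fin i, -((univ.sup fun l => (degD (A l)).natAbs : ℕ) : ℤ) ≤
            ∑ k, degD (A (w k)) := sum_le_sum fun k _ => by
          have := le_sup (f := fun l => (degD (A l)).natAbs) (mem_univ (w k))
          omega
        rw [sum_const, card_univ, Fintype.card_fin, nsmul_eq_mul] at h3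
        rw [map_add, map_sum]
        linarith)
    have h3 : finrank κ (LinearMap.ker b) ≤ finrank κ (LinearMap.ker t) :=
      Submodule.finrank_mono fun f hf => funext fun w => by
        have h4 : HERM.tv (fun k => Pi.single (w k) 1) (t f) = t f w := by
          rw [HERM.tv, sum_eq_single w (fun β _ hβ => ?_) (by simp)]
          · simp
          · obtain ⟨k, hk⟩ := Function.ne_iff.1 hβ
            rw [prod_eq_zero (mem_univ k) (Pi.single_eq_of_ne hk _), zero_mul]
        rw [← h4, HERM.tv_qm h0 (hγ f)]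
        exact sum_eq_zero fun β _ => mul_eq_zero_of_right _ (congrFun hf β)
    rw [map_add, degD_div, zero_add, map_sum]
    have h4 := mul_le_mul_of_nonneg_left (Int.ofNat_le.2 h3) (Int.natCast_nonneg r)
    linarith

end Pool.Agent.Lib.A35.H91
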