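import Mathlib

/-! Linear algebra over an extension field: a proper span is cut out by multipliers. -/

noncomputable section

namespace Pool.Agent.Lib.A35.Lin

variable {k κ : Type} [Field k] [Field κ] [Algebra k κ]

/-- A vector over `κ` orthogonal to the solutions over `k` of a linear system is a combination of
finitely many equations. -/
theorem exists_mult {ι J : Type} [Fintype ι] (M : J → ι → k) (f : ι → κ)
    (h : ∀ P : ι → k, (∀ j, ∑ i, M j i * P i = 0) → ∑ i, P i • f i = 0) :
    ∃ (T : Finset J) (lam : J → κ), ∀ i, f i = ∑ j ∈ T, lam j * algebraMap k κ (M j i) := by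
  classical
  obtain ⟨s, hs, hsp, hli⟩ := exists_linearIndependent k (Set.range M)
  have hfin : s.Finite := hli.setFinite
  choose g hg using fun x : s => hs x.2
  have := hfin.to_subtype
  have := Fintype.ofFinite s
  let A : (ι → k) →ₗ[k] (s → k) := LinearMap.pi fun x => ∑ i, (x : ι → k) i • LinearMap.proj i
  have hA : ∀ P x, A P x = ∑ i, (x : ι → k) i * P i := fun P x => by simp [A]
  let F : (ι → k) →ₗ[k] κ := Fintype.linearCombination k f
  have hker : LinearMap.ker A ≤ LinearMap.ker F := fun P hP => by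
    refine h P fun j => ?_
    have hj : M j ∈ Submodule.span k s := hsp ▸ Submodule.subset_span ⟨j, rfl⟩
    generalize M j = y at hj
    induction hj using Submodule.span_induction with
    | mem x hx => rw [← hA P ⟨x, hx⟩, LinearMap.mem_ker.1 hP]; rfl
    | zero => simp
    | add x y _ _ hx hy => simp only [Pi.add_apply, add_mul, Finset.sum_add_distrib, hx, hy, add_zero]
    | smul c x _ hx =>
      simp only [Pi.smul_apply, smul_eq_mul, mul_assoc, ← Finset.mul_sum, hx, mul_zero]
  obtain ⟨G, hG⟩ := LinearMap.exists_extend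
    (((LinearMap.ker A).liftQ F hker).comp A.quotKerEquivRange.symm.toLinearMap)
  have hGA : ∀ P, G (A P) = F P := fun P => by
    have h1 := LinearMap.congr_fun hG ⟨A P, LinearMap.mem_range_self A P⟩
    simpa [LinearMap.quotKerEquivRange_symm_apply_image] using h1
  have hinj : Function.Injective g := fun x y e => Subtype.ext (by rw [← hg x, ← hg y, e])
  refine ⟨Finset.univ.image g, Function.extend g (fun x => G (Pi.single x 1)) 0, fun i => ?_⟩
  rw [Finset.sum_image fun x _ y _ e => hinj e]
  have h2 : f i = F (Pi.single i 1) := by simp [F]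
  rw [h2, ← hGA, ← (Pi.basisFun k s).sum_repr (A (Pi.single i 1)), map_sum]
  refine Finset.sum_congr rfl fun x _ => ?_
  rw [hinj.extend_apply, hg, map_smul, Pi.basisFun_repr, hA, Pi.basisFun_apply, Algebra.smul_def,
    mul_comm]
  simp [Pi.single_apply]

/-- A proper subspace of `κ ^ A` is killed by a functional with one coefficient `1`. -/
theorem exists_psi {A : Type} [Fintype A] (W : Submodule κ (A → κ)) (h : W ≠ ⊤) :
    ∃ (ψ : A → κ) (a0 : A), ψ a0 = 1 ∧ ∀ v ∈ W, ∑ a, ψ a * v a = 0 := by
  classical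
  obtain ⟨f, hf, hW⟩ := W.exists_le_ker_of_lt_top h.lt_top
  obtain ⟨a0, h0⟩ : ∃ a0, f (Pi.single a0 1) ≠ 0 := by
    by_contra hc
    push Not at hc
    exact hf ((Pi.basisFun κ A).ext fun a => by simpa using hc a)
  refine ⟨fun a => f (Pi.single a 1) / f (Pi.single a0 1), a0, div_self h0, fun v hv => ?_⟩
  have h1 : f v = ∑ a, f (Pi.single a 1) * v a := by
    conv_lhs => rw [← (Pi.basisFun κ A).sum_repr v, map_sum]
    simp [mul_comm]
  simp only [div_mul_eq_mul_div, ← Finset.sum_div, ← h1, LinearMap.mem_ker.1 (hW hv), zero_div]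

/-- The multipliers of 5.3: `c i` is the jet of the `i`-th basis vector, `M` the system. -/
theorem exists_psi_mult {ι J A : Type} [Fintype ι] [Fintype A] (M : J → ι → k) (c : ι → A → κ)
    (h : Submodule.span κ {v | ∃ P : ι → k, (∀ j, ∑ i, M j i * P i = 0) ∧ v = ∑ i, P i • c i} ≠ ⊤) :
    ∃ (ψ : A → κ) (a0 : A) (T : Finset J) (lam : J → κ), ψ a0 = 1 ∧
      ∀ i, ∑ a, ψ a * c i a = ∑ j ∈ T, lam j * algebraMap k κ (M j i) := by
  obtain ⟨ψ, a0, h0, h1⟩ := exists_psi _ h
  obtain ⟨T, lam, h2⟩ := exists_mult M (fun i => ∑ a, ψ a * c i a) fun P hP => by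
    rw [← h1 _ (Submodule.subset_span ⟨P, hP, rfl⟩)]
    simp only [Finset.sum_apply, Pi.smul_apply, Finset.smul_sum, Finset.mul_sum, mul_smul_comm]
    exact Finset.sum_comm
  exact ⟨ψ, a0, T, lam, h0, h2⟩

/-- The use of the multipliers over any ring. -/
theorem psi_zero {k' ι J A : Type} [CommRing k'] [Fintype ι] [Fintype A] (M : J → ι → k')
    (c : ι → A → k') (ψ : A → k') (T : Finset J) (lam : J → k')
    (h : ∀ i, ∑ a, ψ a * c i a = ∑ j ∈ T, lam j * M j i) (P : ι → k')
    (hP : ∀ j ∈ T, ∑ i, M j i * P i = 0) : ∑ a, ψ a * ∑ i, P i * c i a = 0 := by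
  calc ∑ a, ψ a * ∑ i, P i * c i a = ∑ i, P i * ∑ a, ψ a * c i a := by
        simp only [Finset.mul_sum]
        rw [Finset.sum_comm]
        exact Finset.sum_congr rfl fun i _ => Finset.sum_congr rfl fun a _ => by ring
    _ = ∑ j ∈ T, lam j * ∑ i, M j i * P i := by
        simp only [h, Finset.mul_sum]
        rw [Finset.sum_comm]
        exact Finset.sum_congr rfl fun i _ => Finset.sum_congr rfl fun a _ => by ring
    _ = 0 := Finset.sum_eq_zero fun j hj => by rw [hP j hj, mul_zero]

end Pool.Agent.Lib.A35.Lin
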