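import Pool.Agent.Lib.UR.B_EXC
import Pool.Agent.Lib.UR.B_UNQ
import Pool.Agent.Lib.UR.B_SYM
import Pool.Agent.Lib.UR.B_DIM
import Pool.Agent.Lib.UR.B_GPO
import Pool.Agent.Lib.UR.B_SET
import Pool.Agent.Lib.UR.B_MON
import Pool.Agent.Lib.UR.B_POL
import Pool.Agent.Lib.UR.B_TRC
import Pool.Agent.Lib.UR.B_ALG
import Pool.Agent.Lib.UR.B_NOE
import Pool.Agent.Lib.UR.B_HSU
import Pool.Agent.Lib.UR.B_HSL
import Pool.Agent.Lib.UR.B_LSC
import Pool.Agent.Lib.UR.B_CRV

/-! Intersection numbers of several linear systems. -/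

open Module Set

set_option linter.unusedSectionVars false
set_option linter.unusedVariables false

noncomputable section

namespace Pool.Agent.Lib.A35.Mix

open Pool.Agent.Lib.MP_7fcda1_ag Pool.Agent.Lib.UR Pool.Agent.Lib.UR.SYM

theorem hHSU : St_HSU :=
  st_HSU st_GPO (st_SET st_DIM) (st_NOE st_MON st_POL st_TRC st_ALG)

theorem hHSL : St_HSL := st_HSL (st_SET st_DIM) st_MON

theorem hCRV : St_CRV := st_CRV hHSU hHSL st_LSC

/-- Two block families agree up to renaming. -/
def Iso {A Z A' Z' R : Type} (W : A → Z → R) (W' : A' → Z' → R) : Prop :=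
  ∃ (eA : A ≃ A') (eZ : Z ≃ Z'), ∀ a z, W' (eA a) (eZ z) = W a z

section iso
variable {A Z A' Z' A'' Z'' B Y B' Y' R S : Type}

theorem Iso.of_eq {W W' : A → Z → R} (h : ∀ a z, W' a z = W a z) : Iso W W' :=
  ⟨Equiv.refl _, Equiv.refl _, h⟩

theorem Iso.refl (W : A → Z → R) : Iso W W := Iso.of_eq fun _ _ => rfl

theorem Iso.symm {W : A → Z → R} {W' : A' → Z' → R} (h : Iso W W') : Iso W' W := by
  obtain ⟨e, f, h⟩ := h
  exact ⟨e.symm, f.symm, fun a z => by rw [← h]; simp⟩

theorem Iso.trans {W : A → Z → R} {W' : A' → Z' → R} {W'' : A'' → Z'' → R} (h : Iso W W')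
    (h' : Iso W' W'') : Iso W W'' := by
  obtain ⟨e, f, h⟩ := h
  obtain ⟨e', f', h'⟩ := h'
  exact ⟨e.trans e', f.trans f', fun a z => (h' _ _).trans (h a z)⟩

theorem Iso.map {W : A → Z → R} {W' : A' → Z' → R} (h : Iso W W') (φ : R → S) :
    Iso (fun a z => φ (W a z)) fun a z => φ (W' a z) := by
  obtain ⟨e, f, h⟩ := h
  exact ⟨e, f, fun a z => congrArg φ (h a z)⟩

variable [Field R] [Field S]

theorem Iso.blk {W : A → Z → R} {W' : A' → Z' → R} {V : B → Y → R} {V' : B' → Y' → R}
    (h : Iso W W') (h' : Iso V V') : Iso (blk W V) (blk W' V') := by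
  obtain ⟨e, f, h⟩ := h
  obtain ⟨e', f', h'⟩ := h'
  refine ⟨e.sumCongr e', f.sumCongr f', ?_⟩
  rintro (a | a) (z | z)
  · exact h a z
  · rfl
  · rfl
  · exact h' a z

theorem blk_comm (W : A → Z → R) (V : B → Y → R) : Iso (blk W V) (blk V W) := by
  refine ⟨Equiv.sumComm _ _, Equiv.sumComm _ _, ?_⟩
  rintro (a | a) (z | z) <;> rfl

theorem blk_assoc (W : A → Z → R) (V : B → Y → R) (T : A' → Z' → R) :
    Iso (blk (blk W V) T) (blk W (blk V T)) := by
  refine ⟨Equiv.sumAssoc _ _ _, Equiv.sumAssoc _ _ _, ?_⟩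
  rintro ((a | a) | a) ((z | z) | z) <;> rfl

theorem blk_empty (W : A → Z → R) (V : B → Y → R) [IsEmpty B] [IsEmpty Y] : Iso (blk W V) W := by
  refine ⟨Equiv.sumEmpty _ _, Equiv.sumEmpty _ _, ?_⟩
  rintro (a | a) (z | z)
  · rfl
  · exact isEmptyElim z
  · exact isEmptyElim a
  · exact isEmptyElim a

theorem blk_map (φ : R →+* S) (W : A → Z → R) (V : B → Y → R) :
    Iso (fun a z => φ (blk W V a z)) (blk (fun a z => φ (W a z)) fun a z => φ (V a z)) := by
  refine Iso.of_eq ?_
  rintro (a | a) (z | z) <;> simp [SYM.blk]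

theorem rep_map (φ : R →+* S) (n : ℕ) (w : Z → R) :
    Iso (fun a z => φ (rep n w a z)) (rep n fun j => φ (w j)) := by
  refine Iso.of_eq fun a z => ?_
  unfold rep
  split_ifs <;> simp

theorem rep_succ (n : ℕ) (w : Z → R) : Iso (blk (rep n w) (rep 1 w)) (rep (n + 1) w) := by
  refine ⟨finSumFinEquiv, (Equiv.sumProdDistrib _ _ _).symm.trans
    (finSumFinEquiv.prodCongr (Equiv.refl Z)), ?_⟩
  rintro (a | a) (⟨b, z⟩ | ⟨b, z⟩)
  · simp [SYM.blk, rep]
  · have : Fin.natAdd n b ≠ Fin.castAdd 1 a := fun h => by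
      have := congrArg Fin.val h
      simp at this
      omega
    simp [SYM.blk, rep, this]
  · have : Fin.castAdd 1 b ≠ Fin.natAdd n a := fun h => by
      have := congrArg Fin.val h
      simp at this
      omega
    simp [SYM.blk, rep, this]
  · simp [SYM.blk, rep, Subsingleton.elim b a]

end iso

/-- A finite family. -/
structure Fam (R : Type) where
  τ : Type
  [fin : Fintype τ]
  w : τ → R

attribute [instance] Fam.fin

section lists
variable {R : Type}

/-- Equations of a list of families. -/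
def IA : List (Fam R) → Type
  | [] => Empty
  | _ :: l => IA l ⊕ Fin 1

/-- Coefficients of a list of families. -/
def IZ : List (Fam R) → Type
  | [] => Empty
  | F :: l => IZ l ⊕ Fin 1 × F.τ

@[reducible] def finIZ : (l : List (Fam R)) → Fintype (IZ l)
  | [] => inferInstanceAs (Fintype Empty)
  | F :: l => @instFintypeSum (IZ l) (Fin 1 × F.τ) (finIZ l) inferInstance

attribute [local instance] finIZ

variable [Field R]

/-- The block family of a list of families. -/
def IW : (l : List (Fam R)) → IA l → IZ l → R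
  | [] => fun a _ => a.elim
  | F :: l => blk (IW l) (rep 1 F.w)

theorem iso_perm {l l' : List (Fam R)} (h : l.Perm l') : Iso (IW l) (IW l') := by
  induction h with
  | nil => exact Iso.refl _
  | cons F _ ih => exact ih.blk (Iso.refl _)
  | swap F G l =>
    exact ((blk_assoc _ _ _).trans ((Iso.refl _).blk (blk_comm _ _))).trans (blk_assoc _ _ _).symm
  | trans _ _ ih ih' => exact ih.trans ih'

theorem iso_rep (F : Fam R) (l : List (Fam R)) (i : ℕ) :
    Iso (blk (IW l) (rep i F.w)) (IW (List.replicate i F ++ l)) := by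
  induction i with
  | zero => exact blk_empty _ _
  | succ i ih =>
    exact (((Iso.refl _).blk (rep_succ i F.w).symm).trans (blk_assoc _ _ _).symm).trans
      (ih.blk (Iso.refl _))

theorem iso_nil {A Z : Type} (W : A → Z → R) : Iso (blk (IW []) W) W :=
  (blk_comm _ _).trans (@blk_empty _ _ _ _ _ _ W (IW []) (inferInstanceAs (IsEmpty Empty))
    (inferInstanceAs (IsEmpty Empty)))

end lists

attribute [local instance] finIZ

section deg
variable (k : Type) {K A Z A' Z' : Type} [Field k] [Field K] [Algebra k K] [Fintype Z]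
  [Fintype Z']

/-- The degree of the cut. -/
def dI (W : A → Z → K) : ℕ := (Classical.choice (st_EXC k K A Z W)).deg

variable {k}

theorem deg_eq {W : A → Z → K} {W' : A' → Z' → K} (h : Iso W W') (C : Cut k K W) :
    C.deg = dI k W' := by
  obtain ⟨e, f, h⟩ := h
  exact st_UNQ k K _ _ _ _ W W' e f h C _

theorem dI_congr {W : A → Z → K} {W' : A' → Z' → K} (h : Iso W W') : dI k W = dI k W' :=
  deg_eq h _

theorem dI_comp {W : A → Z → K} (W' : A' → Z' → K) (C : Cut k K W) :
    dI C.k' (fun a z => algebraMap K C.L' (W' a z)) = dI k (blk W' W) := by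
  obtain ⟨C', h⟩ := SYM.comp W' C (Classical.choice (st_EXC C.k' C.L' _ _
    fun a z => algebraMap K C.L' (W' a z))) fun _ _ => rfl
  rw [← deg_eq (Iso.refl _) C', h]
  rfl

end deg

/-- A point over `K / κ`. -/
structure Ext (κ K : Type) [Field κ] [Field K] [Algebra κ K] where
  k' : Type
  K' : Type
  [fk : Field k']
  [fK : Field K']
  [alg : Algebra k' K']
  ψ : κ →+* k'
  φ : K →+* K'
  comm : ∀ c, φ (algebraMap κ K c) = algebraMap k' K' (ψ c)
  gen : Gen k' φ

attribute [instance] Ext.fk Ext.fK Ext.alg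

namespace Ext
variable {κ K : Type} [Field κ] [Field K] [Algebra κ K]

instance [CharZero κ] (E : Ext κ K) : CharZero E.k' := charZero_of_injective_ringHom E.ψ.injective

variable (κ K) in
/-- The point itself. -/
@[reducible] def refl : Ext κ K where
  k' := κ
  K' := K
  ψ := RingHom.id κ
  φ := RingHom.id K
  comm := fun _ => rfl
  gen := by
    rw [Gen, eq_top_iff]
    exact fun x _ => IntermediateField.subset_adjoin κ _ ⟨x, rfl⟩

/-- A generic cut of a point. -/
@[reducible] def cut (E : Ext κ K) {A Z : Type} [Fintype Z] {W : A → Z → E.K'}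
    (C : Cut E.k' E.K' W) : Ext κ K where
  k' := C.k'
  K' := C.L'
  ψ := (algebraMap E.k' C.k').comp E.ψ
  φ := (algebraMap E.K' C.L').comp E.φ
  comm := fun c => by
    simp only [RingHom.comp_apply]
    rw [E.comm, ← IsScalarTower.algebraMap_apply, ← IsScalarTower.algebraMap_apply]
  gen := C.gen E.gen

theorem gen_map (E : Ext κ K) {τ : Type} {w : τ → K} (hw : Gen κ w) :
    Gen E.k' fun j => E.φ (w j) := by
  let T := IntermediateField.adjoin E.k' (range fun j => E.φ (w j))
  have h1 : ∀ x : K, E.φ x ∈ T := by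
    intro x
    have hx : x ∈ IntermediateField.adjoin κ (range w) := by
      rw [show IntermediateField.adjoin κ (range w) = ⊤ from hw]
      trivial
    have h2 : IntermediateField.adjoin κ (range w) ≤
        (T.toSubfield.comap E.φ).toIntermediateField fun c => by
          rw [Subfield.mem_comap, E.comm]
          exact T.algebraMap_mem _ :=
      IntermediateField.adjoin_le_iff.2 (range_subset_iff.2 fun j =>
        IntermediateField.subset_adjoin E.k' (range fun j => E.φ (w j)) ⟨j, rfl⟩)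
    exact h2 hx
  refine eq_top_iff.2 ?_
  rw [← show IntermediateField.adjoin E.k' (range E.φ) = ⊤ from E.gen]
  exact IntermediateField.adjoin_le_iff.2 (range_subset_iff.2 h1)

/-- The intersection number of a list of families. -/
def I (E : Ext κ K) (l : List (Fam K)) : ℕ := dI E.k' fun a z => E.φ (IW l a z)

/-- The degree of a family on a curve. -/
def ht (E : Ext κ K) (F : Fam K) : ℤ := dg E.k' (opt fun j => E.φ (F.w j))

theorem I_perm (E : Ext κ K) {l l' : List (Fam K)} (h : l.Perm l') : E.I l = E.I l' :=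
  dI_congr ((iso_perm h).map _)

theorem I_cut (E : Ext κ K) (F : Fam K) (i : ℕ)
    (C : Cut E.k' E.K' (rep i fun j => E.φ (F.w j))) (l : List (Fam K)) :
    (E.cut C).I l = E.I (List.replicate i F ++ l) :=
  (dI_comp (fun a z => E.φ (IW l a z)) C).trans (dI_congr
    ((((Iso.refl _).blk (rep_map E.φ i F.w).symm).trans (blk_map E.φ _ _).symm).trans
      ((iso_rep F l i).map _)))

theorem deg_rep (E : Ext κ K) (F : Fam K) (i : ℕ)
    (C : Cut E.k' E.K' (rep i fun j => E.φ (F.w j))) : C.deg = E.I (List.replicate i F) := by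
  refine deg_eq ((rep_map E.φ i F.w).symm.trans (Iso.map ?_ _)) C
  have := (iso_nil (rep i F.w)).symm.trans (iso_rep F [] i)
  rwa [List.append_nil] at this

theorem I_one [CharZero κ] (E : Ext κ K) (hE : Dim E.k' E.K' 1) {F : Fam K} (hF : Gen κ F.w) :
    (E.I [F] : ℤ) = E.ht F := by
  obtain ⟨C⟩ := st_EXC E.k' E.K' _ _ (rep 1 fun j => E.φ (F.w j))
  rw [ht, ← hCRV E.k' E.K' _ _ (E.gen_map hF) hE C, E.deg_rep F 1 C]
  rfl

theorem tower [CharZero κ] (n : ℕ) (l : List (Fam K)) (hl : ∀ F ∈ l, Gen κ F.w) :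
    ∀ E : Ext κ K, Dim E.k' E.K' (l.length + n) →
      ∃ E' : Ext κ K, Dim E'.k' E'.K' n ∧ ∀ l', E'.I l' = E.I (l ++ l') := by
  induction l with
  | nil => exact fun E h => ⟨E, by simpa using h, fun _ => rfl⟩
  | cons F l ih =>
    intro E h
    obtain ⟨C⟩ := st_EXC E.k' E.K' _ _ (rep 1 fun j => E.φ (F.w j))
    have h1 := (st_DIM E.k' E.K' _ _ 1 (l.length + n) (E.gen_map (hl F (by simp)))
      (by rwa [List.length_cons, add_right_comm, add_comm] at h) C).2
    obtain ⟨E', h2, h3⟩ := ih (fun G hG => hl G (by simp [hG])) (E.cut C) h1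
    exact ⟨E', h2, fun l' => (h3 l').trans (E.I_cut F 1 C _)⟩

end Ext

end Pool.Agent.Lib.A35.Mix
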