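import Pool.Agent.Lib.A35.Mix1

/-! Divisors of linear systems on curves; multilinearity and monotonicity of intersection
numbers. -/

open Module Set Polynomial

set_option linter.unusedSectionVars false
set_option linter.unusedVariables false

noncomputable section

namespace Pool.Agent.Lib.A35.Mix

open Pool.Agent.Lib.MP_7fcda1_ag Pool.Agent.Lib.UR

section hd
variable {κ K k F : Type} [Field κ] [Field K] [Algebra κ K] [Field k] [Field F] [Algebra k F]
  [IsFF k F]

/-- `D` is the divisor of common zeros of the system `U` on the curve `φ`. -/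
def HD (φ : K →+* F) (U : Submodule κ K) (D : Div k F) : Prop :=
  ∀ v : Place k F, (∃ a ∈ U, a ≠ 0 ∧ ord v.O (φ a) = D v) ∧ ∀ x ∈ U, Ge v.O (D v) (φ x)

variable {φ : K →+* F} {U U' : Submodule κ K} {D D' : Div k F}

theorem HD.mul (h : HD φ U D) (h' : HD φ U' D') : HD φ (U * U') (D + D') := fun v => by
  obtain ⟨⟨a, ha, a0, h1⟩, h2⟩ := h v
  obtain ⟨⟨b, hb, b0, h3⟩, h4⟩ := h' v
  refine ⟨⟨a * b, Submodule.mul_mem_mul ha hb, mul_ne_zero a0 b0, ?_⟩, fun x hx => ?_⟩
  · rw [map_mul, ord_mul ((_root_.map_ne_zero φ).2 a0) ((_root_.map_ne_zero φ).2 b0), h1, h3,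
      Finsupp.add_apply]
  · refine Submodule.mul_induction_on hx (fun y hy z hz => ?_) fun y z hy hz => ?_
    · rw [map_mul, Finsupp.add_apply]
      exact (h2 y hy).mul (h4 z hz)
    · rw [map_add]
      exact hy.add hz

variable (hc : ∀ c : κ, ∃ c' : k, φ (algebraMap κ K c) = algebraMap k F c')
include hc

theorem const_mem (v : Place k F) (c : κ) : φ (algebraMap κ K c) ∈ v.O := by
  obtain ⟨c', h⟩ := hc c
  rw [h]
  exact v.const c'

theorem HD.span {ι : Type} [Finite ι] {w : ι → K} (hw : w ≠ 0) :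
    HD φ (Submodule.span κ (range w)) (vdiv k fun j => φ (w j)) := fun v => by
  have h0 : (fun j => φ (w j)) ≠ 0 := fun h => hw (funext fun j =>
    (_root_.map_eq_zero φ).1 (congrFun h j))
  obtain ⟨i, h1, h2⟩ := exists_vord (V := v.O) h0
  rw [vdiv_apply]
  refine ⟨⟨w i, Submodule.subset_span ⟨i, rfl⟩, (_root_.map_ne_zero φ).1 h1, h2⟩,
    fun x hx => ?_⟩
  induction hx using Submodule.span_induction with
  | mem x hx =>
    obtain ⟨j, rfl⟩ := hx
    exact (vge_iff h0).2 le_rfl j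
  | zero => simp
  | add x y _ _ hx hy => rw [map_add]; exact hx.add hy
  | smul c x _ hx =>
    rw [Algebra.smul_def, map_mul]
    simpa using ((mem_iff_ge (Or.inl v.disc)).1 (const_mem hc v c)).mul hx

theorem HD.single {g : K} (hg : g ≠ 0) : HD φ (Submodule.span κ {g}) (div k (φ g)) := fun v => by
  rw [div_apply]
  refine ⟨⟨g, Submodule.mem_span_singleton_self g, hg, rfl⟩, fun x hx => ?_⟩
  obtain ⟨c, rfl⟩ := Submodule.mem_span_singleton.1 hx
  rw [Algebra.smul_def, map_mul]
  simpa using ((mem_iff_ge (Or.inl v.disc)).1 (const_mem hc v c)).mul (ge_ord (a := φ g))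

theorem HD.one : HD φ (1 : Submodule κ K) (0 : Div k F) := by
  have h := HD.single hc (one_ne_zero (α := K))
  have h1 : div k (φ 1) = 0 := by
    ext v
    rw [div_apply, map_one, ord_one]
    rfl
  rwa [← Submodule.one_eq_span, h1] at h

theorem HD.pow (h : HD φ U D) (j : ℕ) : HD φ (U ^ j) (j • D) := by
  induction j with
  | zero => rw [pow_zero, zero_smul]; exact HD.one hc
  | succ j ih => rw [pow_succ, succ_nsmul]; exact ih.mul h

theorem HD.sys {ι : Type} [Finite ι] (w : ι → K) :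
    HD φ (sys κ w) (vdiv k (opt fun j => φ (w j))) := by
  have h := HD.span hc (w := opt w) fun h => one_ne_zero (congrFun h none)
  have h1 : (fun j => φ (opt w j)) = opt fun j => φ (w j) := by
    funext o
    cases o <;> simp [opt]
  rwa [← sys_eq, h1] at h

theorem HD.ge_cl (h : HD φ U D) {x : K} (hx : x ∈ cl U) (v : Place k F) :
    Ge v.O (D v) (φ x) := by
  obtain ⟨u, hu, h1⟩ := hx (v.O.comap φ) fun c => const_mem hc v c
  obtain ⟨a, ha⟩ := (ValuationSubring.valuation_le_iff _ _ _).1 h1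
  rw [← ha, map_mul]
  simpa using ((mem_iff_ge (Or.inl v.disc)).1 (show φ a ∈ v.O from a.2)).mul ((h v).2 u hu)

theorem HD.le (h : HD φ U D) (h' : HD φ U' D') (hle : U ≤ cl U') : D' ≤ D := fun v => by
  obtain ⟨a, ha, a0, h1⟩ := (h v).1
  rw [← h1]
  exact (ge_iff ((_root_.map_ne_zero φ).2 a0)).1 (h'.ge_cl hc (hle ha) v)

theorem HD.deg_le (h : HD φ U D) (h' : HD φ U' D') (hle : U ≤ cl U') : degD D' ≤ degD D :=
  degD_mono (h.le hc h' hle)

theorem HD.eq (h : HD φ U D) (h' : HD φ U' D') (e : cl U = cl U') : D = D' :=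
  le_antisymm (h'.le hc h (e ▸ le_cl U')) (h.le hc h' (e ▸ le_cl U))

theorem dg_le {ι ι' : Type} [Finite ι] [Finite ι'] {w : ι → K} {w' : ι' → K} {g : K} (hg : g ≠ 0)
    {s t : ℕ} (h : Submodule.span κ {g} * UR.sys κ w ^ s ≤ cl (UR.sys κ w' ^ t)) :
    s * dg k (opt fun j => φ (w j)) ≤ t * dg k (opt fun j => φ (w' j)) := by
  have h1 := ((HD.single hc hg).mul ((HD.sys hc w).pow hc s)).deg_le hc
    ((HD.sys hc w').pow hc t) h
  rw [map_add, degD_div, map_nsmul, map_nsmul, nsmul_eq_mul, nsmul_eq_mul] at h1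
  unfold dg
  linarith

end hd

variable {κ K : Type} [Field κ] [CharZero κ] [Field K] [Algebra κ K]

theorem Ext.isFF (E : Ext κ K) {F : Fam K} (hF : Gen κ F.w) (hE : Dim E.k' E.K' 1) :
    IsFF E.k' E.K' := Dim.isFF (E.gen_map hF) hE

theorem Ext.hc (E : Ext κ K) (c : κ) :
    ∃ c' : E.k', E.φ (algebraMap κ K c) = algebraMap E.k' E.K' c' := ⟨_, E.comm c⟩

/-- A generating family of class `a D + b H`, where `x` and `y` are the degrees of `D` and `H` on
curves. -/
def Cl (x y : Ext κ K → ℤ) (F : Fam K) (a b : ℤ) : Prop :=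
  Gen κ F.w ∧ ∀ E : Ext κ K, Dim E.k' E.K' 1 → E.ht F = a * x E + b * y E

/-- The linear polynomial of a class. -/
def lp (t : Fam K × ℤ × ℤ) : ℤ[X] := C t.2.1 * X + C t.2.2

variable {x y : Ext κ K → ℤ} {Y H : Fam K} {c : ℤ} {d : ℕ}

theorem lin (hd : Dim κ K d) (hY : Cl x y Y 1 c) (hH : Cl x y H 0 1) {F : Fam K} {a b : ℤ}
    (hF : Cl x y F a b) (l : List (Fam K)) (hl : ∀ G ∈ l, Gen κ G.w) (hn : l.length + 1 = d) :
    ((Ext.refl κ K).I (F :: l) : ℤ) =
      a * (Ext.refl κ K).I (Y :: l) + (b - c * a) * (Ext.refl κ K).I (H :: l) := by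
  obtain ⟨E, h1, h2⟩ := Ext.tower 1 l hl (Ext.refl κ K) (hn ▸ hd)
  have h3 : ∀ G : Fam K, Gen κ G.w → ((Ext.refl κ K).I (G :: l) : ℤ) = E.ht G := fun G hG => by
    rw [← E.I_one h1 hG, h2, Ext.I_perm _ (List.perm_append_singleton G l)]
  rw [h3 F hF.1, h3 Y hY.1, h3 H hH.1, hF.2 E h1, hY.2 E h1, hH.2 E h1]
  ring

theorem exists_lam (hd : Dim κ K d) (hY : Cl x y Y 1 c) (hH : Cl x y H 0 1) :
    ∃ lam : ℤ[X] →ₗ[ℤ] ℤ, ∀ T : List (Fam K × ℤ × ℤ), (∀ t ∈ T, Cl x y t.1 t.2.1 t.2.2) →
      T.length = d → ((Ext.refl κ K).I (T.map Prod.fst) : ℤ) = lam (T.map lp).prod := by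
  let μ : ℕ → ℤ := fun j =>
    (Ext.refl κ K).I (List.replicate j Y ++ List.replicate (d - j) H)
  let Λ : ℤ[X] →ₗ[ℤ] ℤ := (basisMonomials ℤ).constr ℤ μ
  have hΛ : ∀ j, Λ (X ^ j) = μ j := fun j => by
    have := (basisMonomials ℤ).constr_basis ℤ μ j
    rw [X_pow_eq_monomial]
    simpa only [coe_basisMonomials] using this
  have key : ∀ T : List (Fam K × ℤ × ℤ), (∀ t ∈ T, Cl x y t.1 t.2.1 t.2.2) → ∀ j i,
      T.length + j + i = d → ((Ext.refl κ K).I
        (T.map Prod.fst ++ (List.replicate j Y ++ List.replicate i H)) : ℤ) =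
      Λ (taylor (-c) (T.map lp).prod * X ^ j) := by
    intro T
    induction T with
    | nil =>
      intro _ j i h
      obtain rfl : i = d - j := by simp at h; omega
      simp [hΛ, μ]
    | cons t T ih =>
      intro hT j i h
      have hT' : ∀ t ∈ T, Cl x y t.1 t.2.1 t.2.2 := fun s hs => hT s (by simp [hs])
      rw [List.length_cons] at h
      have h1 := ih hT' (j + 1) i (by omega)
      have h2 := ih hT' j (i + 1) (by omega)
      rw [List.map_cons, List.cons_append, lin hd hY hH (hT t (by simp)) _ ?_ (by simp; omega)]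
      · have e1 : (Y :: (T.map Prod.fst ++ (List.replicate j Y ++ List.replicate i H))).Perm
            (T.map Prod.fst ++ (List.replicate (j + 1) Y ++ List.replicate i H)) :=
          List.perm_middle.symm
        have e2 : (H :: (T.map Prod.fst ++ (List.replicate j Y ++ List.replicate i H))).Perm
            (T.map Prod.fst ++ (List.replicate j Y ++ List.replicate (i + 1) H)) :=
          List.perm_middle.symm.trans (List.Perm.append_left _ List.perm_middle.symm)
        rw [Ext.I_perm _ e1, Ext.I_perm _ e2, h1, h2, List.map_cons, List.prod_cons, taylor_mul,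
          ← smul_eq_mul t.2.1, ← smul_eq_mul (t.2.2 - _), ← map_smul, ← map_smul, ← map_add]
        congr 1
        simp only [lp, map_add, taylor_mul, taylor_X, zsmul_eq_mul, eq_intCast,
          map_neg, Int.cast_sub, Int.cast_mul]
        have e3 : ∀ z : ℤ, taylor (-c) (z : ℤ[X]) = z := fun z => taylor_C (-c) z
        simp only [e3]
        ring
      · intro G hG
        simp only [List.mem_append, List.mem_map, List.mem_replicate] at hG
        rcases hG with ⟨s, hs, rfl⟩ | ⟨-, rfl⟩ | ⟨-, rfl⟩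
        exacts [(hT' s hs).1, hY.1, hH.1]
  refine ⟨Λ ∘ₗ taylor (-c), fun T hT h => ?_⟩
  simpa using key T hT 0 0 h

theorem nonneg_of_lin {p r : ℤ} (h : ∀ M : ℕ, 0 ≤ M * p + r) : 0 ≤ p := by
  by_contra hp
  have h1 := h (r.toNat + 1)
  have h2 : r ≤ (r.toNat : ℤ) := Int.self_le_toNat r
  have h3 : (0 : ℤ) ≤ (r.toNat : ℤ) := Int.natCast_nonneg _
  push_cast at h1
  nlinarith

/-- `D` is nef: a multiple of `M D + H` is the class of a generating family. -/
def Nef (x y : Ext κ K → ℤ) : Prop :=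
  ∀ M : ℕ, ∃ (u : ℕ) (U : Fam K), 0 < u ∧ Cl x y U (u * M) u

theorem lam_nonneg (hN : Nef x y) {lam : ℤ[X] →ₗ[ℤ] ℤ}
    (hl : ∀ T : List (Fam K × ℤ × ℤ), (∀ t ∈ T, Cl x y t.1 t.2.1 t.2.2) →
      T.length = d → ((Ext.refl κ K).I (T.map Prod.fst) : ℤ) = lam (T.map lp).prod) (j : ℕ) :
    ∀ T : List (Fam K × ℤ × ℤ), (∀ t ∈ T, Cl x y t.1 t.2.1 t.2.2) → T.length + j = d →
      0 ≤ lam (X ^ j * (T.map lp).prod) := by
  induction j with
  | zero =>
    intro T hT h
    rw [pow_zero, one_mul, ← hl T hT h]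
    exact Int.natCast_nonneg _
  | succ j ih =>
    intro T hT h
    refine nonneg_of_lin (r := lam (X ^ j * (T.map lp).prod)) fun M => ?_
    obtain ⟨u, U, hu, hU⟩ := hN M
    have h1 := ih ((U, u * M, u) :: T) (by
      intro t ht
      rcases List.mem_cons.1 ht with rfl | ht
      exacts [hU, hT t ht]) (by rw [List.length_cons]; omega)
    have h2 : X ^ j * (((U, (u * M : ℤ), (u : ℤ)) :: T).map lp).prod =
        (u : ℤ) • ((M : ℤ) • (X ^ (j + 1) * (T.map lp).prod) + X ^ j * (T.map lp).prod) := by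
      simp only [List.map_cons, List.prod_cons, lp, zsmul_eq_mul, eq_intCast, Int.cast_mul]
      ring
    rw [h2, map_smul, map_add, map_smul, smul_eq_mul, smul_eq_mul] at h1
    exact nonneg_of_mul_nonneg_right h1 (by exact_mod_cast hu)

/-- The degree of the cut of a curve by one member of any family is at most its height. -/
def St_CRVP : Prop :=
  ∀ (k L : Type) [Field k] [CharZero k] [Field L] [Algebra k L] [IsFF k L] (τ : Type) [Fintype τ]
    (w : τ → L) (C : Cut k L (rep 1 w)), (C.deg : ℤ) ≤ dg k (opt w)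

theorem mon (hP : St_CRVP) {e : ℕ} (W U U' : Fam K) (hU : Gen κ U.w) (hU' : Gen κ U'.w)
    (hW : ∀ i, i ≤ e → ∀ C : Cut κ K (rep i W.w), Dim C.k' C.L' (e + 1 - i)) {g : K} (hg : g ≠ 0)
    {s t : ℕ} (h : Submodule.span κ {g} * sys κ W.w ^ s ≤ cl (sys κ U.w ^ t)) :
    ∀ i j, i + j = e → s ^ i * (Ext.refl κ K).I
      (List.replicate i W ++ (List.replicate j U ++ [U'])) ≤
      t ^ i * (Ext.refl κ K).I (List.replicate e U ++ [U']) := by
  intro i
  induction i with
  | zero =>
    intro j hj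
    obtain rfl : j = e := by omega
    simp
  | succ i ih =>
    intro j hj
    have h1 := ih (j + 1) (by omega)
    obtain ⟨C⟩ := st_EXC κ K _ _ (rep i W.w)
    obtain ⟨E, h2, h3⟩ := Ext.tower 1 (List.replicate j U ++ [U']) (by
      intro G hG
      simp only [List.mem_append, List.mem_replicate, List.mem_singleton] at hG
      rcases hG with ⟨-, rfl⟩ | rfl
      exacts [hU, hU']) ((Ext.refl κ K).cut C) (by
        have := hW i (by omega) C
        rwa [show e + 1 - i = (List.replicate j U ++ [U']).length + 1 by simp; omega] at this)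
    have h4 : ∀ G : Fam K, E.I [G] = (Ext.refl κ K).I
        (G :: (List.replicate i W ++ (List.replicate j U ++ [U']))) := fun G => by
      rw [h3, (Ext.refl κ K).I_cut W i C, ← List.append_assoc,
        Ext.I_perm _ (List.perm_append_singleton G _)]
    have := E.isFF hU h2
    obtain ⟨C'⟩ := st_EXC E.k' E.K' _ _ (rep 1 fun j => E.φ (W.w j))
    have h5 := hP E.k' E.K' _ _ C'
    rw [E.deg_rep W 1 C'] at h5
    have h6 := dg_le E.hc hg h
    have h7 := E.I_one h2 hU
    have h8 : s * E.I [W] ≤ t * E.I [U] := by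
      have h9 : (s : ℤ) * E.I [W] ≤ t * E.I [U] := by
        rw [h7]
        exact (mul_le_mul_of_nonneg_left h5 (Int.natCast_nonneg s)).trans h6
      exact_mod_cast h9
    rw [h4, h4, Ext.I_perm _ (l := U :: _) List.perm_middle.symm] at h8
    calc s ^ (i + 1) * _ = s ^ i * (s * (Ext.refl κ K).I
          (W :: (List.replicate i W ++ (List.replicate j U ++ [U'])))) := by
          rw [pow_succ, mul_assoc]; rfl
      _ ≤ s ^ i * (t * _) := Nat.mul_le_mul_left _ h8
      _ = t * (s ^ i * _) := mul_left_comm _ _ _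
      _ ≤ t * (t ^ i * _) := Nat.mul_le_mul_left _ h1
      _ = _ := by rw [pow_succ', mul_assoc]

end Pool.Agent.Lib.A35.Mix
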