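import Pool.Agent.Lib.A35.Mix2
import Pool.Agent.Lib.UR.B_ASY
import Pool.Agent.Lib.UR.B_FD
import Pool.Agent.Lib.UR.B_GAU
import Pool.Agent.Lib.UR.B_RES
import Pool.Agent.Lib.UR.B_UPP
import Pool.Agent.Lib.UR.B_S1

/-! The numbers `D ^ j H ^ (d - j)` of a point. -/

open Module Set Polynomial

set_option linter.unusedSectionVars false
set_option linter.unusedVariables false

noncomputable section

namespace Pool.Agent.Lib.A35.Mix

open Pool.Agent.Lib.MP_7fcda1_ag Pool.Agent.Lib.UR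

theorem hFD : St_FD := st_FD st_EXC hHSU

theorem hUPP : St_UPP := st_UPP st_DIM hFD (st_RES st_GAU)

theorem hS1 : St_S1 := st_S1 st_ASY st_DIM hHSU hHSL hUPP

/-- The number `D ^ s (a D + b H) ^ n H ^ (d - n - s)`. -/
def pw {R : Type} [CommSemiring R] (k : ℕ → ℕ) (n s : ℕ) (a b : R) : R :=
  ∑ j ∈ Finset.range (n + 1), (n.choose j : R) * a ^ j * b ^ (n - j) * k (j + s)

theorem pw_cast {R S : Type} [CommSemiring R] [CommSemiring S] (f : R →+* S) (k : ℕ → ℕ)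
    (n s : ℕ) (a b : R) : f (pw k n s a b) = pw k n s (f a) (f b) := by
  simp [pw]

theorem pw_nat {R : Type} [CommSemiring R] (k : ℕ → ℕ) (n s a b : ℕ) :
    ((pw k n s a b : ℕ) : R) = pw k n s (a : R) (b : R) := pw_cast (Nat.castRingHom R) k n s a b

theorem lam_pw {lam : ℤ[X] →ₗ[ℤ] ℤ} {k : ℕ → ℕ} {n s : ℕ}
    (h : ∀ j, j ≤ n + s → lam (X ^ j) = k j) (a b : ℤ) :
    lam (X ^ s * (C a * X + C b) ^ n) = pw k n s a b := by
  rw [add_pow, Finset.mul_sum, map_sum, pw]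
  refine Finset.sum_congr rfl fun j hj => ?_
  rw [← h _ (by have := Finset.mem_range.1 hj; omega), ← smul_eq_mul _ (lam _), ← map_smul]
  congr 1
  simp only [zsmul_eq_mul, eq_intCast, Int.cast_mul, Int.cast_pow, Int.cast_natCast]
  ring

theorem pw_succ {R : Type} [CommSemiring R] (k : ℕ → ℕ) (n s : ℕ) (a b : R) :
    pw k (n + 1) s a b = a * pw k n (s + 1) a b + b * pw k n s a b := by
  have h := Finset.sum_choose_succ_mul (fun i j : ℕ => a ^ i * b ^ j * (k (i + s) : R)) n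
  simp only [pw, mul_assoc, Finset.mul_sum] at h ⊢
  rw [h, add_comm]
  congr 1
  · refine Finset.sum_congr rfl fun j hj => ?_
    rw [show j + (s + 1) = j + 1 + s by omega]
    ring
  · refine Finset.sum_congr rfl fun j hj => ?_
    rw [show n + 1 - j = n - j + 1 by have := Finset.mem_range.1 hj; omega]
    ring

theorem pw_smul {R : Type} [CommSemiring R] (k : ℕ → ℕ) (n s : ℕ) (u a b : R) :
    pw k n s (u * a) (u * b) = u ^ n * pw k n s a b := by
  rw [pw, pw, Finset.mul_sum]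
  refine Finset.sum_congr rfl fun j hj => ?_
  obtain ⟨i, rfl⟩ := Nat.exists_eq_add_of_le (Nat.lt_succ_iff.1 (Finset.mem_range.1 hj))
  rw [Nat.add_sub_cancel_left]
  ring

theorem pw_ge (k : ℕ → ℕ) (n s a b : ℕ) : a ^ n * k (n + s) ≤ pw k n s a b := by
  have := Finset.single_le_sum (f := fun j => n.choose j * a ^ j * b ^ (n - j) * k (j + s))
    (fun _ _ => Nat.zero_le _) (Finset.self_mem_range_succ n)
  simpa [pw] using this

theorem pw_le (k : ℕ → ℕ) (n s : ℕ) {a b : ℕ} (h : b ≤ a) :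
    pw k n s a b ≤ a ^ n * pw k n s 1 1 := by
  have h1 := pw_smul k n s a 1 1
  rw [mul_one] at h1
  rw [← h1]
  exact Finset.sum_le_sum fun j _ => by gcongr

variable {κ K : Type} [Field κ] [CharZero κ] [Field K] [Algebra κ K] {x y : Ext κ K → ℤ}
  {Y H : Fam K} {c : ℤ} {e : ℕ}

/-- The numbers `k j = D ^ j H ^ (e + 1 - j)` compute all intersection numbers. -/
structure Num (x y : Ext κ K → ℤ) (H : Fam K) (e : ℕ) (k : ℕ → ℕ) : Prop where
  pos : 0 < k 0
  one : ∃ E : Ext κ K, Dim E.k' E.K' 1 ∧ (k 1 : ℤ) = x E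
  top : ∀ (F : Fam K) (a b : ℤ), Cl x y F a b → ∀ C : Cut κ K (rep (e + 1) F.w),
    (C.deg : ℤ) = pw k (e + 1) 0 a b
  mix : ∀ (F G : Fam K) (a b a' b' : ℤ), Cl x y F a b → Cl x y G a' b' →
    ∀ (C₁ : Cut κ K (rep 1 G.w)) (C₂ : Cut C₁.k' C₁.L' (rep e (C₁.map F.w))),
    (C₂.deg : ℤ) = a' * pw k e 1 a b + b' * pw k e 0 a b
  mon : St_CRVP → ∀ (W U : Fam K) (a b : ℤ) (g : K) (s t : ℕ), Cl x y U a b →
    (∀ i, i ≤ e → ∀ C : Cut κ K (rep i W.w), Dim C.k' C.L' (e + 1 - i)) → g ≠ 0 →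
    Submodule.span κ {g} * sys κ W.w ^ s ≤ cl (sys κ U.w ^ t) → ∀ C : Cut κ K (rep e W.w),
    s ^ e * x ((Ext.refl κ K).cut C) ≤ t ^ e * pw k e 1 a b ∧
      s ^ e * y ((Ext.refl κ K).cut C) ≤ t ^ e * pw k e 0 a b

theorem exists_num (hd : Dim κ K (e + 1)) (hY : Cl x y Y 1 c) (hH : Cl x y H 0 1)
    (hN : Nef x y) : ∃ k, Num x y H e k := by
  obtain ⟨lam, hl⟩ := exists_lam hd hY hH
  have hrep : ∀ (F : Fam K) (a b : ℤ) (i : ℕ) (T : List (Fam K × ℤ × ℤ)), Cl x y F a b →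
      (∀ t ∈ T, Cl x y t.1 t.2.1 t.2.2) → ∀ t ∈ List.replicate i (F, a, b) ++ T,
        Cl x y t.1 t.2.1 t.2.2 := fun F a b i T hF hT t ht => by
    rcases List.mem_append.1 ht with h | h
    · rw [(List.mem_replicate.1 h).2]
      exact hF
    · exact hT t h
  have hk : ∀ j, j ≤ e + 1 → lam (X ^ j) = ((lam (X ^ j)).toNat : ℕ) := fun j hj => by
    have := lam_nonneg hN hl j _ (hrep H 0 1 (e + 1 - j) [] hH (by simp)) (by simp; omega)
    rw [Int.toNat_of_nonneg (by simpa [lp] using this)]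
  set k : ℕ → ℕ := fun j => (lam (X ^ j)).toNat
  have h2 : ∀ (F G : Fam K) (a b a' b' : ℤ), Cl x y F a b → Cl x y G a' b' →
      ((Ext.refl κ K).I (List.replicate e F ++ [G]) : ℤ) =
        a' * pw k e 1 a b + b' * pw k e 0 a b := fun F G a b a' b' hF hG => by
    have h1 := hl _ (hrep F a b e [(G, a', b')] hF (by simpa using hG)) (by simp)
    rw [← lam_pw (lam := lam) (fun j hj => hk j hj), ← lam_pw (lam := lam)
      (fun j hj => hk j (by omega)), ← smul_eq_mul a', ← smul_eq_mul b', ← map_smul, ← map_smul,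
      ← map_add]
    simp only [List.map_append, List.map_replicate, List.map_cons, List.map_nil, List.prod_append,
      List.prod_replicate, List.prod_cons, List.prod_nil, lp] at h1
    rw [h1]
    congr 1
    simp only [zsmul_eq_mul, eq_intCast]
    ring
  have htop : ∀ (F : Fam K) (a b : ℤ), Cl x y F a b → ∀ C : Cut κ K (rep (e + 1) F.w),
      (C.deg : ℤ) = pw k (e + 1) 0 a b := fun F a b hF C => by
    rw [(Ext.refl κ K).deg_rep F (e + 1) C, List.replicate_succ', h2 F F a b a b hF hF, pw_succ]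
  refine ⟨k, ?_, ?_, htop, fun F G a b a' b' hF hG C₁ C₂ => ?_,
    fun hP W U a b g s t hU hW hg h C => ?_⟩
  · obtain ⟨C⟩ := st_EXC κ K _ _ (rep (e + 1) H.w)
    have h3 := (hHSL κ K _ H.w (e + 1) hH.1 hd C).1
    have h4 := htop H 0 1 hH C
    rw [pw, Finset.sum_range_succ', Finset.sum_eq_zero (by simp)] at h4
    simp at h4
    omega
  · obtain ⟨E, h3, h4⟩ := Ext.tower 1 (List.replicate e H)
      (fun G hG => (List.mem_replicate.1 hG).2 ▸ hH.1) (Ext.refl κ K) (by simpa using hd)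
    refine ⟨E, h3, ?_⟩
    have h5 := h2 H Y 0 1 1 c hH hY
    have h6 := h2 H H 0 1 0 1 hH hH
    rw [← h4, E.I_one h3 hY.1, hY.2 E h3] at h5
    rw [← h4, E.I_one h3 hH.1, hH.2 E h3] at h6
    have h7 : pw k e 1 (0 : ℤ) 1 = k 1 := by
      rw [pw, Finset.sum_range_succ', Finset.sum_eq_zero (by simp)]
      simp
    rw [h7] at h5
    simp only [zero_mul, one_mul, zero_add] at h5 h6
    rw [h6] at h5
    linarith
  · have h3 : C₂.deg = _ := (((Ext.refl κ K).cut C₁).deg_rep F e C₂).trans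
      ((Ext.refl κ K).I_cut G 1 C₁ _)
    rw [h3, ← h2 F G a b a' b' hF hG, Ext.I_perm _ (List.perm_append_singleton G _)]
    rfl
  · have hE : Dim C.k' C.L' 1 := by simpa using hW e le_rfl C
    have h3 : ∀ (G : Fam K) (a' b' : ℤ), Cl x y G a' b' →
        s ^ e * (a' * x ((Ext.refl κ K).cut C) + b' * y ((Ext.refl κ K).cut C)) ≤
          t ^ e * (a' * pw k e 1 a b + b' * pw k e 0 a b) := fun G a' b' hG => by
      have h4 := mon hP W U G hU.1 hG.1 hW hg h e 0 rfl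
      rw [← hG.2 _ hE, ← Ext.I_one _ hE hG.1, (Ext.refl κ K).I_cut W e C, ← h2 U G a b a' b' hU hG]
      exact_mod_cast h4
    refine ⟨sub_nonneg.1 (nonneg_of_lin (r := t ^ e * pw k e 0 a b -
      s ^ e * y ((Ext.refl κ K).cut C)) fun M => ?_), by simpa using h3 H 0 1 hH⟩
    obtain ⟨u, G, hu, hG⟩ := hN M
    refine nonneg_of_mul_nonneg_right (a := (u : ℤ)) ?_ (by exact_mod_cast hu)
    have := h3 G _ _ hG
    linarith

/-- If the top number is positive, the class is big. -/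
theorem Num.big {k : ℕ → ℕ} (h : Num x y H e k) (hd : Dim κ K (e + 1)) (hH : Cl x y H 0 1)
    (hk : 0 < k (e + 1)) (r : ℕ) : ∃ M : ℕ, ∀ (u : ℕ) (U : Fam K), 0 < u → Cl x y U (u * M) u →
      ∃ j, 0 < j ∧ cl (sys κ U.w ^ j) / sys κ H.w ^ (j * (r * u)) ≠ ⊥ := by
  refine ⟨(e + 1) * r * pw k e 0 1 1 + 1, fun u U hu hU => ?_⟩
  set M := (e + 1) * r * pw k e 0 1 1 + 1 with hM
  by_contra hne
  push Not at hne
  obtain ⟨C⟩ := st_EXC κ K _ _ (rep (e + 1) U.w)
  obtain ⟨C₁⟩ := st_EXC κ K _ _ (rep 1 H.w)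
  obtain ⟨C₂⟩ := st_EXC C₁.k' C₁.L' _ _ (rep e (C₁.map U.w))
  have h1 := hS1 κ K _ _ U.w H.w e hU.1 hH.1 hd C C₁ C₂ (r * u) hne
  have h2 : C.deg = pw k (e + 1) 0 (u * M) u := by
    have := h.top U _ _ hU C
    rw [← Nat.cast_mul, ← pw_nat] at this
    exact Nat.cast_injective (R := ℤ) this
  have h3 : C₂.deg = pw k e 0 (u * M) u := by
    have := h.mix U H _ _ _ _ hU hH C₁ C₂
    rw [zero_mul, zero_add, one_mul, ← Nat.cast_mul, ← pw_nat] at this
    exact Nat.cast_injective (R := ℤ) this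
  have h4 := pw_ge k (e + 1) 0 (u * M) u
  have h5 := pw_le k e 0 (a := u * M) (b := u) (Nat.le_mul_of_pos_right _ (by omega))
  have h6 : (u * M) ^ (e + 1) ≤ (e + 1) * (r * u) * ((u * M) ^ e * pw k e 0 1 1) :=
    ((Nat.le_mul_of_pos_right _ hk).trans h4).trans
      (h2 ▸ h1.trans (Nat.mul_le_mul_left _ (h3 ▸ h5)))
  have h7 : 0 < u * (u * M) ^ e := by positivity
  have h8 : u * (u * M) ^ e * M ≤ u * (u * M) ^ e * ((e + 1) * r * pw k e 0 1 1) :=
    calc u * (u * M) ^ e * M = (u * M) ^ (e + 1) := by ring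
      _ ≤ _ := h6
      _ = _ := by ring
  have := Nat.le_of_mul_le_mul_left h8 h7
  omega

end Pool.Agent.Lib.A35.Mix
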