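import Pool.Agent.Lib.A35.Mix3
import Pool.Agent.Lib.UR.B_BM
import Pool.Agent.Lib.UR.B_JSE
import Pool.Agent.Lib.MP_7fcda1_ag.Ord2

/-! Spaces of sections of `a D + b H`, where `D = P - q H`. -/

open Module Set Submodule

set_option linter.unusedSectionVars false
set_option linter.unusedVariables false

noncomputable section

namespace Pool.Agent.Lib.A35.Mix

open Pool.Agent.Lib.MP_7fcda1_ag Pool.Agent.Lib.UR

section sec
variable {k L : Type} [Field k] [Field L] [Algebra k L] (P H : Submodule k L) (q : ℕ)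

/-- Sections of `a D + b H`. -/
def Sec (a b : ℕ) : Submodule k L := cl (P ^ a * H ^ b) / H ^ (q * a)

/-- The system `U` has class `a D + b H`. -/
def Cls (U : Submodule k L) (a b : ℕ) : Prop :=
  ∃ γ : L, γ ≠ 0 ∧ cl (span k {γ} * U * H ^ (q * a)) = cl (P ^ a * H ^ b)

/-- A multiple of `m D + H` is free, for every `m`. -/
def NefS : Prop := ∀ m : ℕ, ∃ u : ℕ, 0 < u ∧
  P ^ (u * m) * H ^ u ≤ cl (Sec P H q (u * m) u * H ^ (q * (u * m)))

variable {P H q}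

theorem cl_bot : cl (⊥ : Submodule k L) = ⊥ := by
  refine eq_bot_iff.2 fun x hx => ?_
  obtain ⟨u, hu, h⟩ := hx ⊤ fun _ => trivial
  rw [(mem_bot k).1 hu, map_zero, le_zero_iff, map_eq_zero] at h
  exact h

theorem mul_ne_bot {U V : Submodule k L} (hU : U ≠ ⊥) (hV : V ≠ ⊥) : U * V ≠ ⊥ := by
  obtain ⟨x, hx, h1⟩ := (Submodule.ne_bot_iff U).1 hU
  obtain ⟨y, hy, h2⟩ := (Submodule.ne_bot_iff V).1 hV
  exact (Submodule.ne_bot_iff _).2 ⟨x * y, mul_mem_mul hx hy, mul_ne_zero h1 h2⟩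

theorem pow_ne_bot {U : Submodule k L} (hU : U ≠ ⊥) (j : ℕ) : U ^ j ≠ ⊥ := by
  obtain ⟨x, hx, h1⟩ := (Submodule.ne_bot_iff U).1 hU
  exact (Submodule.ne_bot_iff _).2 ⟨x ^ j, pow_mem_pow _ hx j, pow_ne_zero j h1⟩

theorem cl_mul_cl (U V : Submodule k L) : cl (cl U * V) = cl (U * V) :=
  le_antisymm (cl_le_cl ((mul_le_mul' le_rfl (le_cl V)).trans (cl_mul_le U V)))
    (cl_mono (mul_le_mul' (le_cl U) le_rfl))

theorem cl_congr_mul {U U' : Submodule k L} (h : cl U = cl U') (V : Submodule k L) :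
    cl (U * V) = cl (U' * V) := by rw [← cl_mul_cl, h, cl_mul_cl]

theorem cl_congr_pow {U U' : Submodule k L} (h : cl U = cl U') (j : ℕ) :
    cl (U ^ j) = cl (U' ^ j) :=
  le_antisymm (cl_le_cl (pow_le_cl (h ▸ le_cl U) j)) (cl_le_cl (pow_le_cl (h ▸ le_cl U') j))

theorem sec_mul_le (a b : ℕ) : Sec P H q a b * H ^ (q * a) ≤ cl (P ^ a * H ^ b) :=
  Submodule.le_div_iff_mul_le.1 le_rfl

theorem Sec_mul (a b a' b' : ℕ) :
    Sec P H q a b * Sec P H q a' b' ≤ Sec P H q (a + a') (b + b') := by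
  have h := div_mul_div_le (P ^ a * H ^ b) (P ^ a' * H ^ b') (H ^ (q * a)) (H ^ (q * a'))
  rwa [mul_mul_mul_comm, ← pow_add, ← pow_add, ← pow_add, ← mul_add] at h

theorem Sec_pow {a b : ℕ} {x : L} (hx : x ∈ Sec P H q a b) (j : ℕ) :
    x ^ j ∈ Sec P H q (a * j) (b * j) := by
  have h := pow_mem_div hx j
  rwa [mul_pow, ← pow_mul, ← pow_mul, ← pow_mul, mul_assoc] at h

theorem Sec_mono (h1 : (1 : L) ∈ H) (a : ℕ) {b b' : ℕ} (h : b ≤ b') :
    Sec P H q a b ≤ Sec P H q a b' :=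
  div_le_div' (cl_mono (mul_le_mul' le_rfl (pow_mono' h1 h))) le_rfl

theorem pow_le_Sec (a : ℕ) : P ^ a ≤ Sec P H q a (q * a) :=
  Submodule.le_div_iff_mul_le.2 (le_cl _)

theorem Sec_mul_pow (a b c : ℕ) : Sec P H q a b * H ^ c ≤ Sec P H q a (b + c) := by
  refine Submodule.le_div_iff_mul_le.2 ?_
  rw [mul_right_comm, pow_add, ← mul_assoc]
  exact (mul_le_mul' (sec_mul_le a b) (le_cl _)).trans (cl_mul_le _ _)

theorem NefS.ne_bot (h : NefS P H q) (hP : P ≠ ⊥) (hH : H ≠ ⊥) (m : ℕ) :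
    ∃ u : ℕ, 0 < u ∧ Sec P H q (u * m) u ≠ ⊥ ∧
      cl (Sec P H q (u * m) u * H ^ (q * (u * m))) = cl (P ^ (u * m) * H ^ u) := by
  obtain ⟨u, hu, h1⟩ := h m
  refine ⟨u, hu, fun h0 => ?_, le_antisymm (cl_le_cl (sec_mul_le _ _)) (cl_le_cl h1)⟩
  rw [h0, Submodule.bot_mul, cl_bot] at h1
  exact mul_ne_bot (pow_ne_bot hP _) (pow_ne_bot hH _) (eq_bot_iff.2 h1)

/-- Padding. -/
theorem NefS.pad (h : NefS P H q) (hP : P ≠ ⊥) (h1 : (1 : L) ∈ H) {m : ℕ} (hm : 0 < m) (c : ℕ) :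
    ∃ C : ℕ, ∀ a b : ℕ, C ≤ a → a ≤ m * b + c → Sec P H q a b ≠ ⊥ := by
  obtain ⟨u, hu, h2, -⟩ := h.ne_bot hP (ne_bot_of_one h1) (2 * m)
  obtain ⟨γ, hγ, h3⟩ := (Submodule.ne_bot_iff _).1 h2
  obtain ⟨p, hp, h4⟩ := (Submodule.ne_bot_iff _).1 hP
  set w := u * (2 * m) with hw
  have hw0 : 0 < w := by positivity
  refine ⟨w * (m * (q * w) + c), fun a b ha hb => (Submodule.ne_bot_iff _).2
    ⟨γ ^ (a / w) * p ^ (a % w), ?_, mul_ne_zero (pow_ne_zero _ h3) (pow_ne_zero _ h4)⟩⟩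
  have h5 := Sec_mul _ _ _ _ (mul_mem_mul (Sec_pow hγ (a / w))
    (pow_le_Sec (H := H) (q := q) (a % w) (pow_mem_pow _ hp _)))
  rw [Nat.div_add_mod] at h5
  refine Sec_mono h1 a (Nat.le_of_mul_le_mul_left ?_ hm) h5
  have h6 : m * (q * w) + c ≤ a / w := (Nat.le_div_iff_mul_le hw0).2 (by rwa [mul_comm])
  have h7 : w * (a / w) ≤ a := Nat.mul_div_le a w
  have h8 : m * (q * (a % w)) ≤ m * (q * w) := by
    gcongr
    exact (Nat.mod_lt a hw0).le
  have h9 : a / w ≤ m * (u * (a / w)) :=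
    (Nat.le_mul_of_pos_left _ hu).trans (Nat.le_mul_of_pos_left _ hm)
  have h10 : w * (a / w) = 2 * (m * (u * (a / w))) := by rw [hw]; ring
  rw [mul_add]
  omega

theorem Cls.pow {U : Submodule k L} {a b : ℕ} (h : Cls P H q U a b) (j : ℕ) :
    Cls P H q (U ^ j) (a * j) (b * j) := by
  obtain ⟨γ, h0, h⟩ := h
  refine ⟨γ ^ j, pow_ne_zero j h0, ?_⟩
  have h1 := cl_congr_pow h j
  rwa [mul_pow, mul_pow, mul_pow, span_pow, singleton_pow, ← pow_mul, ← pow_mul, ← pow_mul,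
    mul_assoc q] at h1

theorem Cls.mul {U U' : Submodule k L} {a b a' b' : ℕ} (h : Cls P H q U a b)
    (h' : Cls P H q U' a' b') : Cls P H q (U * U') (a + a') (b + b') := by
  obtain ⟨γ, h0, h⟩ := h
  obtain ⟨γ', h0', h'⟩ := h'
  refine ⟨γ * γ', mul_ne_zero h0 h0', ?_⟩
  have h1 := cl_congr_mul h (span k {γ'} * U' * H ^ (q * a'))
  rw [mul_comm (P ^ a * H ^ b), cl_congr_mul h'] at h1
  rw [← singleton_mul_singleton, ← span_mul_span, mul_add, pow_add, pow_add, pow_add]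
  convert h1 using 2 <;> ring

theorem mem_sec_iff [FiniteDimensional k H] (hH : H ≠ ⊥) {U : Submodule k L} {a b : ℕ} {γ : L}
    (h0 : γ ≠ 0) (h : cl (span k {γ} * U * H ^ (q * a)) = cl (P ^ a * H ^ b)) (x : L) :
    γ * x ∈ Sec P H q a b ↔ x ∈ cl U := by
  have := fd_pow H (q * a)
  rw [Sec, ← h, cl_cancel _ (pow_ne_bot hH _)]
  refine ⟨fun hx => ?_, mul_mem_cl (le_cl _ (mem_span_singleton_self γ))⟩
  have h1 := mul_mem_cl (le_cl _ (mem_span_singleton_self (R := k) γ⁻¹)) hx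
  rwa [← mul_assoc, ← mul_assoc, inv_mul_cancel₀ h0, span_mul_span, singleton_mul_singleton,
    inv_mul_cancel₀ h0, ← one_eq_span, one_mul, one_mul] at h1

variable {ι : Type} [Fintype ι] {y : ι → L} {n : ℕ}

theorem cls_H (P : Submodule k L) (q : ℕ) : Cls P H q H 0 1 :=
  ⟨1, one_ne_zero, by rw [← one_eq_span]; simp⟩

theorem den (hy : Gen k y) (W : Submodule k L) [FiniteDimensional k W] :
    ∃ (g : L) (c : ℕ), g ≠ 0 ∧ span k {g} * W ≤ sys k y ^ c := by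
  obtain ⟨s, rfl⟩ := (Module.Finite.iff_fg (N := W)).1 inferInstance
  obtain ⟨B, e, hB, -, h2⟩ := FD.den hy s
  refine ⟨B, e, hB, ?_⟩
  rw [span_mul_span, span_le]
  rintro _ ⟨a, rfl, x, hx, rfl⟩
  exact h2 x hx

/-- `r (m D + H) - W` is effective for large `r`. -/
theorem NefS.pad' (h : NefS P (sys k y) q) (hP : P ≠ ⊥) (hy : Gen k y) {m : ℕ} (hm : 0 < m)
    (W : Submodule k L) [FiniteDimensional k W] : ∃ r₀ : ℕ, ∀ r, r₀ ≤ r → ∃ g : L, g ≠ 0 ∧
      span k {g} * W ≤ Sec P (sys k y) q (m * r) r := by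
  obtain ⟨g, c, hg, h1⟩ := den hy W
  obtain ⟨C, h2⟩ := h.pad hP (one_mem_sys y) hm (m * c)
  refine ⟨C + c, fun r hr => ?_⟩
  obtain ⟨s, rfl⟩ := Nat.exists_eq_add_of_le' (le_of_add_le_right hr)
  obtain ⟨γ, hγ, h3⟩ := (Submodule.ne_bot_iff _).1 (h2 (m * (s + c)) s
    ((le_of_add_le_left hr).trans (Nat.le_mul_of_pos_left _ hm)) (mul_add m s c).le)
  refine ⟨γ * g, mul_ne_zero h3 hg, ?_⟩
  rw [← singleton_mul_singleton, ← span_mul_span, mul_assoc]
  exact (mul_le_mul' ((span_singleton_le_iff_mem _ _).2 hγ) h1).trans (Sec_mul_pow _ _ _)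

variable [CharZero k] [FiniteDimensional k P]

theorem fd_Sec (hy : Gen k y) (hn : Dim k L n) (a b : ℕ) :
    FiniteDimensional k (Sec P (sys k y) q a b) := by
  have := fd_pow P a
  have := fd_pow (sys k y) b
  have := hFD k L ι y n hy hn _ (fd_mul (P ^ a) (sys k y ^ b))
  exact Submodule.finiteDimensional_of_le (div_le_self' _ (one_mem_pow (one_mem_sys y) _))

/-- Generating systems of class a multiple of `m D + H`. -/
theorem NefS.sys (h : NefS P (sys k y) q) (hP : P ≠ ⊥) (hy : Gen k y) (hn : Dim k L n) (m : ℕ) :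
    ∃ (u r : ℕ) (w : Fin r → L), 0 < u ∧ Gen k w ∧ Cls P (sys k y) q (sys k w) (u * m) u := by
  obtain ⟨u, hu, h2, h3⟩ := h.ne_bot hP (ne_bot_of_one (one_mem_sys y)) (2 * m)
  obtain ⟨γ, hγ, h4⟩ := (Submodule.ne_bot_iff _).1 h2
  have := fd_Sec (P := P) (q := q) hy hn (u * (2 * m)) u
  obtain ⟨r, w, h5, h6⟩ := BM.exists_v hy _ hγ h4 hu
  refine ⟨2 * u, r, w, by omega, h5, γ, h4, ?_⟩
  rw [h6, show 2 * u * m = u * (2 * m) by ring, mul_right_comm, cl_congr_mul h3, mul_assoc,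
    ← pow_add, two_mul u]

omit [FiniteDimensional k P] in
/-- A generating system of class `D + (q + 1) H`. -/
theorem exists_Y [FiniteDimensional k P] (hP : P ≠ ⊥) (hy : Gen k y) (q : ℕ) :
    ∃ (r : ℕ) (w : Fin r → L), Gen k w ∧ Cls P (sys k y) q (sys k w) 1 (q + 1) := by
  obtain ⟨γ, hγ, h4⟩ := (Submodule.ne_bot_iff _).1 hP
  obtain ⟨r, w, h5, h6⟩ := BM.exists_v hy P hγ h4 one_pos
  refine ⟨r, w, h5, γ, h4, ?_⟩
  rw [h6, mul_assoc, ← pow_add, pow_one, mul_one, add_comm]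

end sec

section ht
variable {κ K k F : Type} [Field κ] [Field K] [Algebra κ K] [Field k] [Field F] [Algebra k F]
  [IsFF k F] {φ : K →+* F} {P H U : Submodule κ K} {q a b : ℕ} {DP DH DU : Div k F}

/-- The degree of a system of class `a D + b H` on a curve. -/
theorem Cls.deg (hc : ∀ c : κ, ∃ c' : k, φ (algebraMap κ K c) = algebraMap k F c')
    (h : Cls P H q U a b) (hP : HD φ P DP) (hH : HD φ H DH) (hU : HD φ U DU) :
    -degD DU = a * (-degD DP - q * -degD DH) + b * -degD DH := by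
  obtain ⟨γ, h0, h⟩ := h
  have h1 := congrArg degD ((((HD.single hc h0).mul hU).mul (hH.pow hc _)).eq hc
    ((hP.pow hc _).mul (hH.pow hc _)) h)
  simp only [map_add, map_nsmul, degD_div, nsmul_eq_mul, Nat.cast_mul] at h1
  linarith

end ht

section big
variable {k L : Type} [Field k] [Field L] [Algebra k L] {P H U : Submodule k L} {q a b : ℕ}

theorem Cls.big [FiniteDimensional k H] (hH : H ≠ ⊥) (h : Cls P H q U a b) {j c : ℕ}
    (h1 : cl (U ^ j) / H ^ (b * j + c) ≠ ⊥) :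
    ∃ s : L, s ≠ 0 ∧ span k {s} * H ^ c ≤ Sec P H q (a * j) 0 := by
  obtain ⟨γ, h0, h2⟩ := h.pow j
  obtain ⟨x, hx, h3⟩ := (Submodule.ne_bot_iff _).1 h1
  refine ⟨γ * x, mul_ne_zero h0 h3, Submodule.le_div_iff_mul_le.2 ?_⟩
  have := fd_pow H (b * j)
  rw [pow_zero, mul_one, ← cl_cancel (P ^ (a * j)) (pow_ne_bot hH (b * j)), ← h2,
    Submodule.le_div_iff_mul_le, ← singleton_mul_singleton, ← span_mul_span]
  have h4 : span k {x} * H ^ (b * j + c) ≤ cl (U ^ j) :=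
    Submodule.le_div_iff_mul_le.1 ((span_singleton_le_iff_mem _ _).2 hx)
  calc _ = span k {γ} * (span k {x} * H ^ (b * j + c)) * H ^ (q * (a * j)) := by ring
    _ ≤ cl (span k {γ}) * cl (U ^ j) * cl (H ^ (q * (a * j))) :=
      mul_le_mul' (mul_le_mul' (le_cl _) h4) (le_cl _)
    _ ≤ _ := (mul_le_mul' (cl_mul_le _ _) le_rfl).trans (cl_mul_le _ _)

theorem sec_pow_le {s : L} {c : ℕ} (h : span k {s} * H ^ c ≤ Sec P H q a 0) (t : ℕ) :
    span k {s ^ t} * H ^ (c * t) ≤ Sec P H q (a * t) 0 := by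
  induction t with
  | zero =>
    refine Submodule.le_div_iff_mul_le.2 ?_
    rw [pow_zero, ← one_eq_span]
    simpa using le_cl (1 : Submodule k L)
  | succ t ih =>
    rw [pow_succ, ← singleton_mul_singleton, ← span_mul_span, mul_add_one, mul_add_one, pow_add,
      mul_mul_mul_comm]
    exact (mul_le_mul' ih h).trans (Sec_mul _ _ _ _)

theorem finrank_ge [CharZero k] {ι : Type} [Fintype ι] {y : ι → L} {n : ℕ} (hy : Gen k y)
    (hn : Dim k L n) : ∃ c : ℕ, 0 < c ∧ ∀ t : ℕ,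
      (t + 1) ^ n ≤ finrank k ↥(sys k y ^ (c * (t + 1))) := by
  obtain ⟨C⟩ := st_EXC k L _ _ (rep n y)
  obtain ⟨h0, e, h1⟩ := hHSL k L ι y n hy hn C
  have hf := n.factorial_pos
  refine ⟨n.factorial + e, by omega, fun t => ?_⟩
  have := fd_pow (sys k y) ((n.factorial + e) * (t + 1))
  refine le_trans ?_ (((Nat.le_mul_of_pos_left _ h0).trans (h1 (n.factorial * (t + 1)))).trans
    (Submodule.finrank_mono (pow_mono' (one_mem_sys y) (by nlinarith))))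
  refine Nat.le_of_mul_le_mul_left ?_ hf
  rw [← Nat.ascFactorial_eq_factorial_mul_choose]
  refine le_trans ?_ (Nat.pow_succ_le_ascFactorial _ n)
  rcases Nat.eq_zero_or_pos n with rfl | hn
  · simp
  · calc _ ≤ n.factorial ^ n * (t + 1) ^ n :=
          Nat.mul_le_mul_right _ (Nat.le_self_pow hn.ne' _)
      _ = (n.factorial * (t + 1)) ^ n := (mul_pow _ _ _).symm
      _ ≤ _ := Nat.pow_le_pow_left (Nat.le_succ _) n

end big

end Pool.Agent.Lib.A35.Mix
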