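import Pool.Agent.Lib.NAK.LDefs

/-! Logarithmic algebraic hyperbolicity along the curves through very general points. -/

noncomputable section

namespace Pool.Agent.Lib.A35

open Pool.Agent.Lib.MP_7fcda1_ag Pool.Agent.Lib.UR Pool.Agent.Lib.NAK

section
variable {F ι τ τ' : Type} [Field F] [Algebra ℂ F]

/-- `W` is the divisor of the differential form dual to a non-zero derivation. -/
def Canon (W : Div ℂ F) : Prop := ∃ D : Derivation ℂ F F, D ≠ 0 ∧
  ∀ (v : Place ℂ F) (π : F), ord v.O π = 1 → W v = -ord v.O (D π)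

/-- The degree of the class `P - q Y` on a curve. -/
def dgr (q : ℕ) (Y : ι → F) (P : τ → F) : ℤ := ht ℂ P - q * ht ℂ Y

/-- Let `Y`, `P`, `K` have classes `H`, `D + q H`, `K + q' H` on a curve `C`. Then `D · C ≠ 0`
and `H · C ≤ N (r (2 g - 2) + (D - r K) · C)`. -/
def LogIneq (q q' r N : ℕ) (Y : ι → F) (P : τ → F) (K : τ' → F) : Prop :=
  dgr q Y P ≠ 0 ∧ ∀ W : Div ℂ F, Canon W →
    ht ℂ Y ≤ N * (r * degD W + (dgr q Y P - r * dgr q' Y K))

end

/-- The inequalities hold for every curve of the model that lies on none of the hypersurfaces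
`g m = 0`. -/
def LogHyp {L ι τ τ' : Type} [Field L] [Algebra ℂ L] (q : ℕ) (y : ι → L) (p : τ → L) (q' : ℕ)
    (G : τ' → L) (r N : ℕ) (g : ℕ → MvPolynomial ι ℂ) : Prop :=
  ∀ C : Crv₃ y p G, Gen ℂ C.Y → (∀ m, MvPolynomial.aeval C.Y (g m) ≠ 0) →
    LogIneq q q' r N C.Y C.P C.K

end Pool.Agent.Lib.A35
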