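import Pool.Agent.Lib.A35.Germ

/-! The pointed germ attached to a point. -/

open scoped TensorProduct
open IsLocalRing

set_option linter.unusedSectionVars false
set_option linter.unusedVariables false

noncomputable section

namespace Pool.Agent.Lib.A35.G

/-- Two maps of a field to a local ring, congruent modulo the maximal ideal and equal on a subfield
over which the field is algebraic, are equal. -/
theorem hom_eq_of_alg {K Q : Type} [Field K] [CharZero K] [CommRing Q] [IsLocalRing Q]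
    (f g : K →+* Q) (h : ∀ c, ¬ IsUnit (f c - g c)) (E : Subfield K) (hE : ∀ c ∈ E, f c = g c)
    (c : K) (hc : IsAlgebraic E c) : f c = g c := by
  have hi : IsIntegral E c := hc.isIntegral
  have hfg : f.comp (algebraMap E K) = g.comp (algebraMap E K) := RingHom.ext fun x => hE x x.2
  have hs : (minpoly E c).Separable := (minpoly.irreducible hi).separable
  refine IsLocalRing.eq_of_eval_eq_zero_of_not_isUnit_sub
    (f := (minpoly E c).map (f.comp (algebraMap E K))) ?_ ?_ (h c) ?_
  · rw [Polynomial.eval_map, ← Polynomial.hom_eval₂, ← Polynomial.aeval_def, minpoly.aeval,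
      map_zero]
  · rw [hfg, Polynomial.eval_map, ← Polynomial.hom_eval₂, ← Polynomial.aeval_def, minpoly.aeval,
      map_zero]
  · rw [Polynomial.derivative_map, Polynomial.eval_map, ← Polynomial.hom_eval₂,
      ← Polynomial.aeval_def]
    exact (IsUnit.mk0 _ (hs.aeval_derivative_ne_zero (minpoly.aeval E c))).map f

section PG
variable {k k0 L K : Type} [Field k] [Field k0] [Field L] [Field K] [Algebra k k0] [Algebra k L]
  [Algebra k K] [Algebra k0 K] [IsScalarTower k k0 K]

variable (k0) in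
/-- The map from the old tensor product to the new germ. -/
def pgM (σ : L →ₐ[k] K) : k0 ⊗[k] L →+* Germ K σ :=
  (mkG K σ).toRingHom.comp (bc L (IsScalarTower.toAlgHom k k0 K)).toRingHom

variable (k0) in
/-- The ideal of the old variety in the new germ. -/
def pgI (σ : L →ₐ[k] K) : Ideal (Germ K σ) := (cen k0 σ).map (pgM k0 σ)

variable {σ : L →ₐ[k] K}

theorem pgM_tmul (c : k0) (x : L) :
    pgM k0 σ (c ⊗ₜ x) = algebraMap K _ (algebraMap k0 K c) * iota K σ x := mkG_tmul _ _

theorem rho_pgM (a : k0 ⊗[k] L) : rho K σ (pgM k0 σ a) = ev k0 σ a := by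
  induction a with
  | zero => simp
  | add a b ha hb => simp only [map_add, ha, hb]
  | tmul c x => rw [pgM_tmul, map_mul, AlgHom.commutes, rho_iota, ev_tmul]; rfl

theorem pgI_le : pgI k0 σ ≤ maximalIdeal (Germ K σ) :=
  Ideal.map_le_iff_le_comap.2 fun a ha => mem_max.2 ((rho_pgM a).trans ha)

theorem rho_alg (c : K) : rho K σ (algebraMap K _ c) = c := (rho K σ).commutes c

theorem sub_rho (r : Germ K σ) : r - algebraMap K _ (rho K σ r) ∈ maximalIdeal (Germ K σ) :=
  mem_max.2 (by rw [map_sub, rho_alg, sub_self])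

/-- The map from the old germ. -/
theorem exists_pgPhi : ∃ φ : Germ k0 σ →+* Germ K σ,
    (∀ c, φ (algebraMap k0 _ c) = algebraMap K _ (algebraMap k0 K c)) ∧
    (∀ x, φ (iota k0 σ x) = iota K σ x) ∧ (∀ a, φ (mkG k0 σ a) = pgM k0 σ a) ∧
    (∀ r, rho K σ (φ r) = rho k0 σ r) ∧ (maximalIdeal (Germ k0 σ)).map φ = pgI k0 σ := by
  obtain ⟨φ, h1, h2, h3, h4⟩ := exists_phi' (σ := σ) (σ' := σ) (IsScalarTower.toAlgHom k k0 K)
    (rho k0 σ).toRingHom (fun c => (rho k0 σ).commutes c) rho_iota
  refine ⟨φ, h1, h2, h3, h4, ?_⟩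
  have : pgM k0 σ = φ.comp (mkG k0 σ).toRingHom := RingHom.ext fun a => (h3 a).symm
  rw [max_eq_map, pgI, this, ← Ideal.map_map]
  rfl

/-- The left copy of `K`. -/
theorem exists_lam (hg : IntermediateField.adjoin k0 (Set.range σ) = ⊤) :
    ∃ lam : K →+* Germ K σ ⧸ pgI k0 σ,
      (∀ x, lam (σ x) = Ideal.Quotient.mk _ (iota K σ x)) ∧
      (∀ c : k0, lam (algebraMap k0 K c) =
        Ideal.Quotient.mk _ (algebraMap K _ (algebraMap k0 K c))) ∧
      ∀ c, ∃ r, rho K σ r = c ∧ lam c = Ideal.Quotient.mk _ r := by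
  obtain ⟨φ, h1, h2, -, h4, h5⟩ := exists_pgPhi (k0 := k0) (σ := σ)
  have hs : Function.Surjective (rho k0 σ).toRingHom := rho_surj hg
  let lam : K →+* Germ K σ ⧸ pgI k0 σ := (rho k0 σ).toRingHom.liftOfSurjective hs
    ⟨(Ideal.Quotient.mk _).comp φ, fun r hr => Ideal.Quotient.eq_zero_iff_mem.2
      (h5 ▸ Ideal.mem_map_of_mem φ (mem_max.2 hr))⟩
  have hl : ∀ r, lam (rho k0 σ r) = Ideal.Quotient.mk _ (φ r) := fun r =>
    RingHom.liftOfSurjective_comp_apply _ hs _ r
  refine ⟨lam, fun x => ?_, fun c => ?_, fun c => ?_⟩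
  · rw [← h2, ← hl, rho_iota]
  · rw [← h1, ← hl, AlgHom.commutes]
  · obtain ⟨r, rfl⟩ := hs c
    exact ⟨φ r, h4 r, hl r⟩

/-- A derivation killing `k0` and `L` preserves the ideal. -/
theorem der_pgI {k1 : Type} [CommRing k1] [Algebra k1 (Germ K σ)]
    (D : Derivation k1 (Germ K σ) (Germ K σ))
    (h1 : ∀ c : k0, D (algebraMap K _ (algebraMap k0 K c)) = 0) (h2 : ∀ x, D (iota K σ x) = 0) :
    ∀ r ∈ pgI k0 σ, D r ∈ pgI k0 σ := by
  have h3 : ∀ a, D (pgM k0 σ a) = 0 := fun a => by
    induction a with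
    | zero => simp
    | add a b ha hb => simp only [map_add, ha, hb, add_zero]
    | tmul c x => rw [pgM_tmul, D.leibniz, h1, h2, smul_zero, smul_zero, add_zero]
  intro r hr
  induction hr using Submodule.span_induction with
  | mem x hx => obtain ⟨a, -, rfl⟩ := hx; rw [h3]; exact zero_mem _
  | zero => simp
  | add x y _ _ hx hy => rw [map_add]; exact add_mem hx hy
  | smul c x hx0 hx =>
    rw [smul_eq_mul, D.leibniz, smul_eq_mul, smul_eq_mul]
    exact add_mem (Ideal.mul_mem_left _ _ hx) (Ideal.mul_mem_right _ _ hx0)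

/-- The local coordinates. -/
def zeta (σ : L →ₐ[k] K) {J : Type} (z : J → L) (j : J) : Germ K σ :=
  algebraMap K _ (σ (z j)) - iota K σ (z j)

theorem zeta_mem {J : Type} (z : J → L) (j : J) : zeta σ z j ∈ maximalIdeal (Germ K σ) :=
  mem_max.2 (by rw [zeta, map_sub, rho_alg, rho_iota, sub_self])

/-- `m = (ζ) + p`. -/
theorem max_eq_zeta [CharZero K] (hg : IntermediateField.adjoin k0 (Set.range σ) = ⊤) {J : Type}
    (z : J → L)
    (hz : Algebra.IsAlgebraic (IntermediateField.adjoin k0 (Set.range fun j => σ (z j))) K) :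
    maximalIdeal (Germ K σ) = Ideal.span (Set.range (zeta σ z)) ⊔ pgI k0 σ := by
  obtain ⟨I, hI⟩ : ∃ I, I = Ideal.span (Set.range (zeta σ z)) ⊔ pgI k0 σ := ⟨_, rfl⟩
  have hle : I ≤ maximalIdeal (Germ K σ) := hI ▸ sup_le
    (Ideal.span_le.2 (Set.range_subset_iff.2 (zeta_mem z))) pgI_le
  have hp : pgI k0 σ ≤ I := hI ▸ le_sup_right
  have hz' : ∀ j, zeta σ z j ∈ I := fun j =>
    hI ▸ Ideal.mem_sup_left (Ideal.subset_span ⟨j, rfl⟩)
  rw [← hI]
  refine le_antisymm ?_ hle
  obtain ⟨lam, l1, l2, l3⟩ := exists_lam (σ := σ) hg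
  have hnt : Nontrivial (Germ K σ ⧸ I) := Ideal.Quotient.nontrivial_iff.2 fun e =>
    (maximalIdeal.isMaximal (Germ K σ)).ne_top (top_le_iff.1 (e ▸ hle))
  have hloc : IsLocalRing (Germ K σ ⧸ I) :=
    IsLocalRing.of_surjective' (Ideal.Quotient.mk I) Ideal.Quotient.mk_surjective
  let f : K →+* Germ K σ ⧸ I := (Ideal.Quotient.mk I).comp (algebraMap K _)
  let g : K →+* Germ K σ ⧸ I := (Ideal.Quotient.factor hp).comp lam
  have hgx : ∀ x, g (σ x) = Ideal.Quotient.mk I (iota K σ x) := fun x => by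
    simp only [g, RingHom.comp_apply, l1, Ideal.Quotient.factor_mk]
  have hfg : ∀ c, f c = g c := fun c => by
    refine hom_eq_of_alg (Q := Germ K σ ⧸ I) f g (fun c hc => ?_)
      (IntermediateField.adjoin k0 (Set.range fun j => σ (z j))).toSubfield (fun c hc => ?_) c
      (hz.1 c)
    · obtain ⟨r, h1, h2⟩ := l3 c
      have h3 : f c - g c = Ideal.Quotient.mk I (algebraMap K _ c - r) := by
        simp only [f, g, RingHom.comp_apply, h2, Ideal.Quotient.factor_mk, map_sub]
      obtain ⟨v, hv⟩ := hc.exists_right_inv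
      obtain ⟨v, rfl⟩ := Ideal.Quotient.mk_surjective v
      rw [h3, ← map_mul, ← map_one (Ideal.Quotient.mk I), Ideal.Quotient.eq] at hv
      have h4 := mem_max.1 (hle hv)
      rw [map_sub, map_mul, map_sub, rho_alg, h1, sub_self, zero_mul, map_one, zero_sub] at h4
      exact one_ne_zero (neg_eq_zero.1 h4)
    · refine RingHom.eqOn_field_closure (f := f) (g := g) ?_ hc
      rintro _ (⟨c, rfl⟩ | ⟨j, rfl⟩)
      · simp only [f, g, RingHom.comp_apply, l2, Ideal.Quotient.factor_mk]
      · rw [hgx]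
        exact Ideal.Quotient.eq.2 (hz' j)
  have key : ∀ a, Ideal.Quotient.mk I (mkG K σ a) = g (ev K σ a) := fun a => by
    induction a with
    | zero => simp
    | add a b ha hb => simp only [map_add, ha, hb]
    | tmul c x => rw [mkG_tmul, ev_tmul, map_mul, map_mul, hgx]; exact congrArg (· * _) (hfg c)
  rw [max_eq_map, Ideal.map_le_iff_le_comap]
  intro a ha
  change mkG K σ a ∈ I
  rw [← Ideal.Quotient.eq_zero_iff_mem, key, mem_cen.1 ha, map_zero]

/-- The dual derivations. -/
theorem exists_pgDer {J : Type} [DecidableEq J] (z : J → L) (d : J → Derivation k0 K K)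
    (hd : ∀ i j, d i (σ (z j)) = if i = j then 1 else 0) :
    ∃ D : J → Derivation k (Germ K σ) (Germ K σ),
      (∀ i c, D i (algebraMap K _ c) = algebraMap K _ (d i c)) ∧ (∀ i x, D i (iota K σ x) = 0) ∧
      (∀ i, ∀ r ∈ pgI k0 σ, D i r ∈ pgI k0 σ) ∧
      ∀ i j, D i (zeta σ z j) = if i = j then 1 else 0 := by
  choose D h1 h2 using fun i => exists_derL (σ := σ) ((d i).restrictScalars k)
  refine ⟨D, h1, h2, fun i => der_pgI (D i) (fun c => ?_) (h2 i), fun i j => ?_⟩
  · rw [h1, Derivation.restrictScalars_apply, Derivation.map_algebraMap, map_zero]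
  · rw [zeta, map_sub, h1, h2, Derivation.restrictScalars_apply, hd, sub_zero]
    split_ifs <;> simp

section K1
variable {K1 : Type} [Field K1] [Algebra K K1] (ψ : Germ K σ →ₐ[K] K1)

/-- The left copy in a field through which the germ modulo `p` maps. -/
theorem exists_lam1 (hg : IntermediateField.adjoin k0 (Set.range σ) = ⊤)
    (hψ : ∀ r ∈ pgI k0 σ, ψ r = 0) : ∃ l : K →+* K1, (∀ x, l (σ x) = ψ (iota K σ x)) ∧
      ∀ c : k0, l (algebraMap k0 K c) = algebraMap K K1 (algebraMap k0 K c) := by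
  obtain ⟨lam, l1, l2, -⟩ := exists_lam (σ := σ) hg
  refine ⟨(Ideal.Quotient.lift _ ψ.toRingHom hψ).comp lam, fun x => ?_, fun c => ?_⟩
  · rw [RingHom.comp_apply, l1]; rfl
  · rw [RingHom.comp_apply, l2]; exact ψ.commutes _

/-- The new function field is algebraic over the field of the local coordinates. -/
theorem alg_zeta (hg : IntermediateField.adjoin k0 (Set.range σ) = ⊤)
    (hψ : ∀ r ∈ pgI k0 σ, ψ r = 0) {J : Type} (z : J → L)
    (hz : Algebra.IsAlgebraic (IntermediateField.adjoin k0 (Set.range fun j => σ (z j))) K)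
    (x : L) : IsAlgebraic (IntermediateField.adjoin K (Set.range fun j => ψ (zeta σ z j)))
      (ψ (iota K σ x)) := by
  obtain ⟨l, l1, l2⟩ := exists_lam1 ψ hg hψ
  set E := IntermediateField.adjoin k0 (Set.range fun j => σ (z j))
  set E1 := IntermediateField.adjoin K (Set.range fun j => ψ (zeta σ z j))
  have hE : ∀ c ∈ E, l c ∈ E1 := fun c hc => by
    have : E.toSubfield ≤ E1.toSubfield.comap l := Subfield.closure_le.2 (by
      rintro _ (⟨c, rfl⟩ | ⟨j, rfl⟩)
      · change l _ ∈ E1
        rw [l2]; exact E1.algebraMap_mem _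
      · change l (σ _) ∈ E1
        have h1 : l (σ (z j)) = algebraMap K K1 (σ (z j)) - ψ (zeta σ z j) := by
          rw [l1, zeta, map_sub, ψ.commutes, sub_sub_cancel]
        rw [h1]
        exact sub_mem (E1.algebraMap_mem _) (IntermediateField.subset_adjoin _ _ ⟨j, rfl⟩))
    exact this hc
  let f : E →+* E1 := (l.comp (algebraMap E K)).codRestrict E1 fun c => hE c c.2
  rw [← l1]
  exact (hz.1 (σ x)).ringHom_of_comp_eq f l f.injective (RingHom.ext fun _ => rfl)

/-- The Hilbert function does not increase. -/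
theorem finrank_pg_le (hg : IntermediateField.adjoin k0 (Set.range σ) = ⊤)
    (hψ : ∀ r ∈ pgI k0 σ, ψ r = 0) (W : Set L)
    [FiniteDimensional k0 (Submodule.span k0 (σ '' W))] :
    Module.finrank K (Submodule.span K ((fun x => ψ (iota K σ x)) '' W)) ≤
      Module.finrank k0 (Submodule.span k0 (σ '' W)) := by
  obtain ⟨l, l1, l2⟩ := exists_lam1 ψ hg hψ
  let b := Module.finBasis k0 (Submodule.span k0 (σ '' W))
  have h1 : Submodule.span K ((fun x => ψ (iota K σ x)) '' W) ≤
      Submodule.span K (Set.range fun i => l (b i)) := by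
    rw [Submodule.span_le]
    rintro _ ⟨x, hx, rfl⟩
    have h2 := congrArg (fun y : Submodule.span k0 (σ '' W) => l y)
      (b.sum_repr ⟨σ x, Submodule.subset_span ⟨x, hx, rfl⟩⟩)
    simp only [AddSubmonoidClass.coe_finset_sum, map_sum, l1] at h2
    change ψ _ ∈ _
    rw [← h2]
    refine sum_mem fun i _ => ?_
    rw [SetLike.val_smul, Algebra.smul_def, map_mul, l2, ← Algebra.smul_def]
    exact Submodule.smul_mem _ _ (Submodule.subset_span ⟨i, rfl⟩)
  have := FiniteDimensional.span_of_finite K (Set.finite_range fun i => l (b i))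
  refine (Submodule.finrank_mono h1).trans ?_
  simpa [Set.finrank] using finrank_range_le_card (R := K) fun i => l (b i)

end K1

end PG

end Pool.Agent.Lib.A35.G
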