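import Pool.Agent.Lib.A35.Fact
import Pool.Agent.Lib.A35.Tay
import Pool.Agent.Lib.A35.GenR

/-! The standard frame at the places centred at the point and at almost all places; the sum of the
orders of the determinants. -/

open Module Set

set_option linter.unusedSectionVars false

noncomputable section

namespace Pool.Agent.Lib.A35.PosP

open Pool.Agent.Lib.MP_7fcda1_ag Pool.Agent.Lib.UR Pool.Agent.Lib.A35.T

section frame
variable {R F ι : Type} [CommRing R] [CommRing F] [Fintype ι] [DecidableEq ι]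

theorem det_one {Φ : Type} [FunLike Φ R F] [RingHomClass Φ R F] (ρ : Φ) (l : ι) (γ : ι → F) :
    (((1 : Matrix ι ι R).map ρ).updateRow l γ).det = γ l := by
  rw [Matrix.map_one _ (map_zero ρ) (map_one ρ), ← Matrix.cramer_transpose_apply,
    Matrix.transpose_one, Matrix.cramer_one]
  rfl

theorem comb_one (D : ι → Derivation ℤ R R) :
    (fun a => ∑ b, (1 : Matrix ι ι R) a b • D b) = D := by
  funext a
  simp [Matrix.one_apply, ite_smul]

end frame

variable {k F : Type} [Field k] [Field F] [Algebra k F] [IsFF k F]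

/-- At a place where a function `ζ` vanishes, some coordinate of the tangent vector has small
order. -/
theorem exists_small [CharZero k] [IsAlgClosed k] {ι : Type} [Fintype ι] {E : Derivation k F F}
    (hE : E ≠ 0) (x : Place k F) {π : F} (hπ : ord x.O π = 1) {ζ : F} {e : ℤ}
    (h0 : ord x.O ζ ≠ 0) (he : ord x.O ζ ≤ e) {γ m : ι → F} (hm : ∀ a, Ge x.O 0 (m a))
    (h : E ζ = ∑ a, m a * γ a) : ∃ l, γ l ≠ 0 ∧ ord x.O (γ l) ≤ ord x.O (E π) + e - 1 := by
  by_contra hc
  push Not at hc
  obtain ⟨h1, h2⟩ := Fc.ord_der hE x hπ h0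
  have h3 : Ge x.O (ord x.O (E π) + e) (E ζ) := by
    rw [h]
    refine Ge.sum fun a _ => ?_
    have h4 : Ge x.O (ord x.O (E π) + e) (γ a) := by
      by_cases h5 : γ a = 0
      · exact Or.inl h5
      · exact Or.inr (by have := hc a h5; omega)
    simpa using (hm a).mul h4
  have := (ge_iff h1).1 h3
  omega

/-- The same for the coordinates `σ y - s y` of the point. -/
theorem exists_small' [CharZero k] [IsAlgClosed k] {L ι τ : Type} [Field L] [Fintype ι]
    {E : Derivation k F F} (hE : E ≠ 0) (x : Place k F) {π : F} (hπ : ord x.O π = 1)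
    {σ : L →+* F} {c : τ → k} {y : τ → L} {e : ℤ} (he : 0 < e)
    (h1 : ∀ j, Ge x.O e (σ (y j) - algebraMap k F (c j)))
    (h2 : ∃ j, σ (y j) - algebraMap k F (c j) ≠ 0 ∧ ord x.O (σ (y j) - algebraMap k F (c j)) ≤ e)
    (h3 : ∀ a, Ge x.O 0 (σ a)) {d : ι → L → L} {γ : ι → F}
    (h : ∀ g, E (σ g) = ∑ a, σ (d a g) * γ a) :
    ∃ l, γ l ≠ 0 ∧ ord x.O (γ l) ≤ ord x.O (E π) + e - 1 := by
  obtain ⟨j, h4, h5⟩ := h2
  have h6 := (ge_iff h4).1 (h1 j)
  refine exists_small hE x hπ (by omega) h5 (fun a => h3 (d a (y j))) ?_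
  rw [map_sub, E.map_algebraMap, sub_zero, h]

section words
variable {k₀ L R J : Type} [Field k₀] [Field L] [Algebra k₀ L] [CommRing R] [Algebra k R]

theorem wd_iota (ι : L → R) (d : J → L → L) (D : J → Derivation ℤ R R)
    (h : ∀ a g, D a (ι g) = ι (d a g)) (l : List J) (g : L) :
    wd D l (ι g) = ι (l.foldr (fun a g => d a g) g) := by
  induction l with
  | nil => rfl
  | cons a l ih => rw [wd_cons, ih, h, List.foldr_cons]

omit [IsFF k F] in
theorem wd_ksmul (D : J → Derivation ℤ R R) (h : ∀ a c, D a (algebraMap k R c) = 0) (l : List J)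
    (c : k) (f : R) : wd D l (c • f) = c • wd D l f := by
  induction l with
  | nil => rfl
  | cons a l ih =>
    rw [wd_cons, wd_cons, ih, Algebra.smul_def, Algebra.smul_def, Derivation.leibniz, h,
      smul_zero, add_zero, smul_eq_mul]

/-- A bound for the words applied to generators holds on the span. -/
theorem ge_span (ρ : R →ₐ[k] F) (D : J → Derivation ℤ R R)
    (h : ∀ a c, D a (algebraMap k R c) = 0) (x : Place k F) {n : ℤ} (l : List J) {S : Set R}
    (hS : ∀ f ∈ S, Ge x.O n (ρ (wd D l f))) {f : R} (hf : f ∈ Submodule.span k S) :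
    Ge x.O n (ρ (wd D l f)) := by
  induction hf using Submodule.span_induction with
  | mem f hf => exact hS f hf
  | zero => exact Or.inl (by rw [← zero_smul k (0 : R), wd_ksmul D h, zero_smul, map_zero])
  | add f g _ _ hf hg =>
    rw [wd_add, map_add]
    exact hf.add hg
  | smul c f _ hf =>
    rw [wd_ksmul D h, map_smul]
    exact x.ge_smul hf c

/-- Outside a finite set of places all words applied to all sections are regular. -/
theorem finite_bad [CharZero k₀] {τ τ' : Type} [Finite τ] [Finite τ'] [Finite J] {w : τ → L}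
    {n : ℕ} (hw : Gen k₀ w) (hd : Dim k₀ L n) (u : τ' → L) (d : J → Derivation k₀ L L)
    (σ : L →+* F) (hσ : ∀ c : k₀, σ (algebraMap k₀ L c) ∈ (algebraMap k F).range)
    (ι : L → R) (ρ : R →ₐ[k] F) (hρ : ∀ g, ρ (ι g) = σ g) (D : J → Derivation ℤ R R)
    (h1 : ∀ a g, D a (ι g) = ι (d a g)) (h2 : ∀ a c, D a (algebraMap k R c) = 0) :
    ∃ T : Set (Place k F), T.Finite ∧ ∀ x ∉ T, ∀ (j : ℕ),
      ∀ f ∈ Submodule.span k (ι '' cl (sys k₀ u ^ j)), ∀ l : List J,
        Ge x.O 0 (ρ (wd D l f)) := by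
  obtain ⟨T, hT, h⟩ := GenR.finite_bad hw hd u d σ hσ
  refine ⟨T, hT, fun x hx j f hf l => ge_span ρ D h2 x l ?_ hf⟩
  rintro _ ⟨g, hg, rfl⟩
  rw [wd_iota ι (fun a g => d a g) D h1, hρ]
  exact (mem_iff_ge (Or.inl x.disc)).1 (h x hx j g hg l)

end words

/-- The sum of the orders of local determinants `δ x`, equal to a fixed `g` almost everywhere. -/
theorem deg_sum {δ : Place k F → F} {g : F} {T : Set (Place k F)} (hT : T.Finite)
    (h : ∀ x ∉ T, δ x = g) :
    ∃ A : Div k F, (∀ x, A x = ord x.O (δ x) - ord x.O g) ∧ (∀ x ∉ T, A x = 0) ∧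
      ∀ B : Div k F, (∀ x, ord x.O (δ x) ≤ B x) → degD A ≤ degD B := by
  have h1 : (Function.support fun x : Place k F => ord x.O (δ x) - ord x.O g).Finite :=
    hT.subset fun x hx => by
      by_contra h2
      exact hx (by simp [h x h2])
  refine ⟨mkDiv _, CT1_mkDiv_apply h1, fun x hx => by rw [CT1_mkDiv_apply h1, h x hx, sub_self],
    fun B hB => ?_⟩
  have h2 : (mkDiv fun x : Place k F => ord x.O (δ x) - ord x.O g) ≤ B - div k g := fun x => by
    rw [CT1_mkDiv_apply h1, Finsupp.sub_apply, div_apply]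
    have := hB x
    omega
  have h3 := degD_mono h2
  rwa [map_sub, degD_div, sub_zero] at h3

/-- Local frames for all places: a good frame on a finite set `T`, a fixed one elsewhere. -/
theorem glue {Φ : Type} (P : Place k F → Φ → Prop) (dt : Φ → F) (B : Div k F) (φ₀ : Φ)
    (h : ∀ x, ∃ φ, P x φ ∧ ord x.O (dt φ) ≤ B x) {T : Set (Place k F)} (hT : T.Finite)
    (h0 : ∀ x ∉ T, P x φ₀) :
    ∃ (φ : Place k F → Φ) (T' : Set (Place k F)), T'.Finite ∧ (∀ x, P x (φ x)) ∧
      (∀ x ∉ T', φ x = φ₀) ∧ ∀ x, ord x.O (dt (φ x)) ≤ B x := by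
  classical
  choose φ h1 h2 using h
  let T' : Set (Place k F) := T ∪ {x | ord x.O (dt φ₀) ≠ 0} ∪ B.support
  refine ⟨fun x => if x ∈ T' then φ x else φ₀, T',
    (hT.union (finite_ord _)).union B.support.finite_toSet, fun x => ?_, fun x hx => if_neg hx,
    fun x => ?_⟩
  · by_cases hx : x ∈ T'
    · simpa only [if_pos hx] using h1 x
    · simpa only [if_neg hx] using h0 x fun h3 => hx (Or.inl (Or.inl h3))
  · by_cases hx : x ∈ T'
    · simpa only [if_pos hx] using h2 x
    · have h3 : ord x.O (dt φ₀) = 0 := by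
        by_contra h3
        exact hx (Or.inl (Or.inr h3))
      have h4 : B x = 0 := by
        by_contra h4
        exact hx (Or.inr (Finsupp.mem_support_iff.2 h4))
      simp only [if_neg hx, h3, h4, le_refl]

end Pool.Agent.Lib.A35.PosP
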