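import Pool.Agent.Lib.A35.Kit

/-! A finite projection adapted to the class `m D + H`. -/

open Module Submodule Set

noncomputable section

namespace Pool.Agent.Lib.A35

open Pool.Agent.Lib.UR

variable {L : Type} [Field L] [Algebra ℂ L] {n : ℕ}

/-- Affine coordinates `z`, a primitive element `θ`, test functions `Wb` and normalisations. -/
structure SSD {X : Mod L n} {u m : ℕ} (U : Sys X (u * m) u) where
  z : Fin n → L
  θ : L
  g₀ : L
  γ : L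
  c : L
  Wb : Submodule ℂ L
  g : ℕ → L
  D : ℕ
  r₀ : ℕ
  e₀ : ℕ
  ind : AlgebraicIndependent ℂ z
  fin : FiniteDimensional (IntermediateField.adjoin ℂ (range z)) L
  prim : IntermediateField.adjoin (IntermediateField.adjoin ℂ (range z)) {θ} = ⊤
  int : θ ∈ cl (sys ℂ z ^ e₀)
  fd : FiniteDimensional ℂ Wb
  g₀_ne : g₀ ≠ 0
  γ_ne : γ ≠ 0
  c_ne : c ≠ 0
  r₀_pos : 0 < r₀
  pw : ∀ i < finrank (IntermediateField.adjoin ℂ (range z)) L, g₀ * θ ^ i ∈ Wb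
  h0 : ∀ j, ∀ x ∈ U.U j, ∀ b ∈ Wb,
    x * (γ ^ j * b ^ (u * j)) ∈ cl (sys ℂ z ^ (u * j * (D + n + 1)))
  h2 : ∀ r, r₀ ≤ r → g r ≠ 0 ∧ ∀ b ∈ Wb, g r * b ^ r ∈ cl (sys ℂ z ^ (r * (D + n + 1) - (n + 1)))
  dual : ∀ x : L, (∀ b ∈ Wb, algebraMap (IntermediateField.adjoin ℂ (range z)) L
    (Algebra.trace (IntermediateField.adjoin ℂ (range z)) L (x * b)) ∈ cl (sys ℂ z ^ D)) →
      x * c ∈ X.SecK m

def St_SSG : Prop := ∀ (L : Type) [Field L] [Algebra ℂ L] (n : ℕ) (X : Mod L (n + 1)) (u m : ℕ)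
  (U : Sys X (u * m) u), 0 < u → 0 < m → Nonempty (SSD U)

end Pool.Agent.Lib.A35
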