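import Pool.Agent.Lib.A35.EHPoly

/-! Reduced products, points over finite fields, and the reduction of a germ. -/

set_option autoImplicit false
set_option linter.unusedVariables false
set_option linter.unusedSectionVars false

open Filter Polynomial
open scoped TensorProduct

noncomputable section

namespace Pool.Agent.Lib.A35

open Pool.Agent.Lib.UR

/-! ### Reduced products -/
section up
variable {I : Type} (U : Filter I) (B : I → Type) [∀ i, CommRing (B i)]

/-- The families which vanish eventually. -/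
def evI : Ideal (∀ i, B i) where
  carrier := {x | ∀ᶠ i in U, x i = 0}
  zero_mem' := Eventually.of_forall fun _ => rfl
  add_mem' := fun {a b} ha hb => by
    filter_upwards [ha, hb] with i h1 h2
    rw [Pi.add_apply, h1, h2, add_zero]
  smul_mem' := fun c a ha => by
    filter_upwards [ha] with i h1
    rw [smul_eq_mul, Pi.mul_apply, h1, mul_zero]

/-- The reduced product. -/
abbrev UP : Type := (∀ i, B i) ⧸ evI U B

variable {U B} {A : Type} [CommRing A] {f f' : ∀ i, A → B i}

theorem up_eq {x y : ∀ i, B i} : Ideal.Quotient.mk (evI U B) x = Ideal.Quotient.mk (evI U B) y ↔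
    ∀ᶠ i in U, x i = y i := by
  rw [Ideal.Quotient.eq]
  exact eventually_congr (Eventually.of_forall fun i => sub_eq_zero)

theorem up_unit {x : ∀ i, B i} (h : ∀ᶠ i in U, IsUnit (x i)) :
    IsUnit (Ideal.Quotient.mk (evI U B) x) := by
  refine IsUnit.of_mul_eq_one (Ideal.Quotient.mk _ fun i => Ring.inverse (x i)) ?_
  rw [← map_mul, ← map_one (Ideal.Quotient.mk (evI U B)), up_eq]
  exact h.mono fun i hi => Ring.mul_inverse_cancel _ hi

/-- The ring map attached to an eventual homomorphism. -/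
def upHom (h : EH U f) : A →+* UP U B where
  toFun a := Ideal.Quotient.mk _ fun i => f i a
  map_one' := by rw [← map_one (Ideal.Quotient.mk (evI U B)), up_eq]; exact h.one
  map_zero' := by rw [← map_zero (Ideal.Quotient.mk (evI U B)), up_eq]; exact eh_zero h
  map_add' a b := by rw [← map_add, up_eq]; exact h.add a b
  map_mul' a b := by rw [← map_mul, up_eq]; exact h.mul a b

theorem upHom_apply (h : EH U f) (a : A) : upHom h a = Ideal.Quotient.mk _ fun i => f i a := rfl

theorem upHom_eq {A' : Type} [CommRing A'] {g : ∀ i, A' → B i} (h : EH U f) (h' : EH U g) {a : A}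
    {a' : A'} : upHom h a = upHom h' a' ↔ ∀ᶠ i in U, f i a = g i a' := up_eq

theorem exists_eh (g : A →+* UP U B) : ∃ (f : ∀ i, A → B i) (h : EH U f), upHom h = g := by
  choose s hs using fun a => Ideal.Quotient.mk_surjective (I := evI U B) (g a)
  refine ⟨fun i a => s a i, ⟨?_, fun a b => ?_, fun a b => ?_⟩, RingHom.ext hs⟩
  · exact up_eq.1 (by rw [hs, map_one]; rfl)
  · exact (up_eq (x := s (a + b)) (y := s a + s b)).1 (by rw [map_add, hs, hs, hs, map_add])
  · exact (up_eq (x := s (a * b)) (y := s a * s b)).1 (by rw [map_mul, hs, hs, hs, map_mul])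

variable {C κ L R : Type} [CommRing C] [CommRing κ] [CommRing L] [Algebra C κ] [Algebra C L]

/-- Eventual homomorphisms on a tensor product. -/
theorem eh_tensor {g1 : ∀ i, κ → B i} {g2 : ∀ i, L → B i} (h1 : EH U g1) (h2 : EH U g2)
    (h : ∀ c : C, ∀ᶠ i in U, g1 i (algebraMap C κ c) = g2 i (algebraMap C L c)) :
    ∃ g : ∀ i, κ ⊗[C] L → B i, EH U g ∧ ∀ a x, ∀ᶠ i in U, g i (a ⊗ₜ x) = g1 i a * g2 i x := by
  let _ : Algebra C (UP U B) := ((upHom h1).comp (algebraMap C κ)).toAlgebra
  let φ1 : κ →ₐ[C] UP U B := { upHom h1 with commutes' := fun _ => rfl }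
  let φ2 : L →ₐ[C] UP U B :=
    { upHom h2 with commutes' := fun c => ((upHom_eq h1 h2).2 (h c)).symm }
  obtain ⟨g, hg, e⟩ := exists_eh (Algebra.TensorProduct.productMap φ1 φ2).toRingHom
  refine ⟨g, hg, fun a x => (up_eq (x := fun i => g i (a ⊗ₜ x))
    (y := (fun i => g1 i a) * fun i => g2 i x)).1 ?_⟩
  rw [← upHom_apply hg, e, map_mul]
  exact Algebra.TensorProduct.productMap_apply_tmul φ1 φ2 a x

theorem eh_tensor_ext {g g' : ∀ i, κ ⊗[C] L → B i} (h : EH U g) (h' : EH U g')
    (h1 : ∀ a, ∀ᶠ i in U, g i (a ⊗ₜ 1) = g' i (a ⊗ₜ 1))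
    (h2 : ∀ x, ∀ᶠ i in U, g i (1 ⊗ₜ x) = g' i (1 ⊗ₜ x)) (a : κ ⊗[C] L) :
    ∀ᶠ i in U, g i a = g' i a := by
  induction a with
  | zero =>
    filter_upwards [eh_zero h, eh_zero h'] with i k1 k2
    rw [k1, k2]
  | add a b ha hb =>
    filter_upwards [ha, hb, h.add a b, h'.add a b] with i k1 k2 k3 k4
    rw [k3, k4, k1, k2]
  | tmul a x =>
    filter_upwards [h1 a, h2 x, h.mul (a ⊗ₜ 1) (1 ⊗ₜ x), h'.mul (a ⊗ₜ 1) (1 ⊗ₜ x)]
      with i k1 k2 k3 k4
    rw [Algebra.TensorProduct.tmul_mul_tmul, mul_one, one_mul] at k3 k4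
    rw [k3, k4, k1, k2]

/-- Eventual homomorphisms extend to localisations. -/
theorem eh_loc [CommRing R] [Algebra A R] (M : Submonoid A) [IsLocalization M R] (h : EH U f)
    (hu : ∀ s ∈ M, ∀ᶠ i in U, IsUnit (f i s)) :
    ∃ g : ∀ i, R → B i, EH U g ∧ ∀ a, ∀ᶠ i in U, g i (algebraMap A R a) = f i a := by
  obtain ⟨g, hg, e⟩ := exists_eh (IsLocalization.lift (M := M) (S := R) (g := upHom h)
    fun s => up_unit (hu s s.2))
  exact ⟨g, hg, fun a => (upHom_eq hg h).1 (by rw [e]; exact IsLocalization.lift_eq _ a)⟩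

theorem eh_loc_ext [CommRing R] [Algebra A R] (M : Submonoid A) [IsLocalization M R]
    {g g' : ∀ i, R → B i} (h : EH U g) (h' : EH U g')
    (e : ∀ a, ∀ᶠ i in U, g i (algebraMap A R a) = g' i (algebraMap A R a)) (r : R) :
    ∀ᶠ i in U, g i r = g' i r :=
  (upHom_eq h h').1 (RingHom.congr_fun (IsLocalization.ringHom_ext M
    (RingHom.ext fun a => (upHom_eq h h').2 (e a))) r)

/-- A family of maps which are eventually ring maps, applied after an eventual homomorphism. -/
theorem eh_comp_ev (h : EH U f) {D : I → Type} [∀ i, CommRing (D i)] {g : ∀ i, B i → D i}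
    (hg : ∀ᶠ i in U, ∃ φ : B i →+* D i, ∀ x, g i x = φ x) : EH U fun i a => g i (f i a) where
  one := by
    filter_upwards [hg, h.one] with i ⟨φ, k1⟩ k2
    rw [k1, k2, map_one]
  add a b := by
    filter_upwards [hg, h.add a b] with i ⟨φ, k1⟩ k2
    rw [k1, k1, k1, k2, map_add]
  mul a b := by
    filter_upwards [hg, h.mul a b] with i ⟨φ, k1⟩ k2
    rw [k1, k1, k1, k2, map_mul]

end up

/-! ### Points over finite fields -/

/-- A rational point on a finite cover of affine space over a finite field. -/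
structure FP (σ : Type) where
  k : Type
  [fk : Field k]
  [fin : Finite k]
  c : σ → k
  τ : k
  F : (MvPolynomial σ k)[X]
  monic : F.Monic
  root : F.eval₂ (MvPolynomial.eval c) τ = 0

attribute [instance] FP.fk FP.fin

namespace FP
variable {σ : Type} (X : FP σ)

/-- The polynomials which do not vanish at the point. -/
def M : Submonoid (MvPolynomial σ X.k) := (nonZeroDivisors X.k).comap (MvPolynomial.eval X.c)

theorem mem_M {g : MvPolynomial σ X.k} : g ∈ X.M ↔ MvPolynomial.eval X.c g ≠ 0 :=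
  mem_nonZeroDivisors_iff_ne_zero

theorem M_le : X.M ≤ nonZeroDivisors _ := fun g hg =>
  mem_nonZeroDivisors_of_ne_zero fun h => X.mem_M.1 hg (by rw [h, map_zero])

/-- The local ring of affine space. -/
abbrev B : Type := Localization X.M

theorem inj : Function.Injective (algebraMap (MvPolynomial σ X.k) X.B) :=
  IsLocalization.injective _ X.M_le

/-- The equation over the local ring. -/
def Fb : X.B[X] := X.F.map (algebraMap _ _)

theorem monic_Fb : X.Fb.Monic := X.monic.map _

/-- The semilocal ring of the cover. -/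
abbrev O : Type := AdjoinRoot X.Fb

/-- The generator. -/
abbrev θ : X.O := AdjoinRoot.root X.Fb

/-- The map from the polynomial ring. -/
def io : MvPolynomial σ X.k →+* X.O := (algebraMap X.B X.O).comp (algebraMap _ X.B)

theorem io_C (a : X.k) : X.io (MvPolynomial.C a) = algebraMap X.k X.O a := rfl

theorem eval₂_io : X.F.eval₂ X.io X.θ = 0 := by
  rw [io, ← eval₂_map]
  exact AdjoinRoot.eval₂_root _

theorem isUnit_io {g : MvPolynomial σ X.k} (h : MvPolynomial.eval X.c g ≠ 0) : IsUnit (X.io g) :=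
  (IsLocalization.map_units X.B (⟨g, X.mem_M.2 h⟩ : X.M)).map (algebraMap X.B X.O)

section lift
variable {Q : Type} [CommRing Q]

theorem exists_liftO (g : MvPolynomial σ X.k →+* Q) (t : Q) (h : X.F.eval₂ g t = 0)
    (hu : ∀ s, MvPolynomial.eval X.c s ≠ 0 → IsUnit (g s)) :
    ∃ j : X.O →+* Q, (∀ s, j (X.io s) = g s) ∧ j X.θ = t := by
  let gB : X.B →+* Q := IsLocalization.lift (M := X.M) (g := g) fun s => hu s (X.mem_M.1 s.2)
  have h1 : gB.comp (algebraMap _ _) = g := IsLocalization.lift_comp _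
  refine ⟨AdjoinRoot.lift gB t (by rw [Fb, eval₂_map, h1, h]), fun s => ?_, AdjoinRoot.lift_root _⟩
  exact (AdjoinRoot.lift_of _).trans (RingHom.congr_fun h1 s)

theorem extO {j j' : X.O →+* Q} (h : ∀ s, j (X.io s) = j' (X.io s)) (h' : j X.θ = j' X.θ) :
    j = j' :=
  AdjoinRoot.ringHom_ext (IsLocalization.ringHom_ext X.M (RingHom.ext h)) h'

end lift

theorem exists_e : ∃ e : X.O →+* X.k, (∀ s, e (X.io s) = MvPolynomial.eval X.c s) ∧ e X.θ = X.τ :=
  X.exists_liftO _ _ X.root fun s hs => IsUnit.mk0 _ hs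

/-- Evaluation at the point. -/
def e : X.O →+* X.k := X.exists_e.choose

theorem e_io (s : MvPolynomial σ X.k) : X.e (X.io s) = MvPolynomial.eval X.c s :=
  X.exists_e.choose_spec.1 s

theorem e_θ : X.e X.θ = X.τ := X.exists_e.choose_spec.2

/-- The elements which do not vanish at the point. -/
def N : Submonoid X.O := (nonZeroDivisors X.k).comap X.e

theorem mem_N {g : X.O} : g ∈ X.N ↔ X.e g ≠ 0 := mem_nonZeroDivisors_iff_ne_zero

/-- The local ring at the point. -/
abbrev R : Type := Localization X.N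

/-- The residue map. -/
def eb : X.R →+* X.k :=
  IsLocalization.lift (M := X.N) (g := X.e) fun s => IsUnit.mk0 _ (X.mem_N.1 s.2)

theorem eb_alg (x : X.O) : X.eb (algebraMap X.O X.R x) = X.e x := IsLocalization.lift_eq _ _

theorem e_k (a : X.k) : X.e (algebraMap X.k X.O a) = a := by
  rw [← io_C, e_io, MvPolynomial.eval_C]

theorem alg_k (a : X.k) : algebraMap X.O X.R (algebraMap X.k X.O a) = algebraMap X.k X.R a :=
  (IsScalarTower.algebraMap_apply _ _ _ _).symm

theorem eb_k (a : X.k) : X.eb (algebraMap X.k X.R a) = a := by rw [← alg_k, eb_alg, e_k]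

theorem isUnit_alg {x : X.O} (h : X.e x ≠ 0) : IsUnit (algebraMap X.O X.R x) :=
  IsLocalization.map_units X.R (⟨x, X.mem_N.2 h⟩ : X.N)

theorem isUnit_of_eb {r : X.R} (h : X.eb r ≠ 0) : IsUnit r := by
  obtain ⟨⟨a, s⟩, hs⟩ := IsLocalization.surj X.N r
  have h1 : X.e a ≠ 0 := by
    rw [← eb_alg, ← hs, map_mul, eb_alg]
    exact mul_ne_zero h (X.mem_N.1 s.2)
  exact isUnit_of_mul_isUnit_left (hs ▸ X.isUnit_alg h1)

/-- The universal property of the local ring. -/
theorem exists_lift {Q : Type} [CommRing Q] (g : MvPolynomial σ X.k →+* Q) (t : Q)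
    (h : X.F.eval₂ g t = 0) (ε : Q →+* X.k) (hu : ∀ q, ε q ≠ 0 → IsUnit q)
    (h1 : ∀ s, ε (g s) = MvPolynomial.eval X.c s) (h2 : ε t = X.τ) :
    ∃ j : X.R →+* Q, (∀ s, j (algebraMap X.O X.R (X.io s)) = g s) ∧
      j (algebraMap X.O X.R X.θ) = t := by
  obtain ⟨j, k1, k2⟩ := X.exists_liftO g t h fun s hs => hu _ (by rwa [h1])
  have k3 : ε.comp j = X.e := X.extO (fun s => by rw [RingHom.comp_apply, k1, h1, e_io])
    (by rw [RingHom.comp_apply, k2, h2, e_θ])
  refine ⟨IsLocalization.lift (M := X.N) (g := j) fun s => hu _ ?_, fun s => ?_, ?_⟩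
  · rw [← RingHom.comp_apply, k3]
    exact X.mem_N.1 s.2
  · rw [IsLocalization.lift_eq, k1]
  · rw [IsLocalization.lift_eq, k2]

/-- An ideal which contains the coordinates of the point contains the maximal ideal. -/
theorem sub_mem (m : Ideal X.R)
    (h1 : ∀ j, algebraMap X.O X.R (X.io (MvPolynomial.X j)) - algebraMap X.k X.R (X.c j) ∈ m)
    (h2 : algebraMap X.O X.R X.θ - algebraMap X.k X.R X.τ ∈ m) (r : X.R) :
    r - algebraMap X.k X.R (X.eb r) ∈ m := by
  have : Ideal.Quotient.mk m = ((Ideal.Quotient.mk m).comp (algebraMap X.k X.R)).comp X.eb := by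
    refine IsLocalization.ringHom_ext X.N (X.extO (fun s => ?_) ?_)
    · simp only [RingHom.comp_apply, eb_alg, e_io]
      induction s using MvPolynomial.induction_on with
      | C a => rw [io_C, alg_k, MvPolynomial.eval_C]
      | add p q hp hq => simp only [map_add, hp, hq]
      | mul_X p j hp =>
        simp only [map_mul, hp, MvPolynomial.eval_X, Ideal.Quotient.eq.2 (h1 j)]
    · simp only [RingHom.comp_apply, eb_alg, e_θ]
      exact Ideal.Quotient.eq.2 h2
  exact Ideal.Quotient.eq.1 (RingHom.congr_fun this r)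

end FP

end Pool.Agent.Lib.A35
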