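import Pool.Agent.Lib.A35.Spr1
import Pool.Agent.Lib.A35.Germ

/-! Reduction of a function field and of a germ to finite fields. -/

set_option autoImplicit false
set_option linter.unusedVariables false
set_option linter.unusedSectionVars false

open Filter Polynomial
open scoped TensorProduct

noncomputable section

namespace Pool.Agent.Lib.A35

open Pool.Agent.Lib.UR G

variable {C L κ σ : Type} [Field C] [Field L] [Field κ] [Algebra C L] [Algebra C κ]

/-- Evaluation of polynomials in `Z` and `T`. -/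
def evp (z : σ → L) (θ : L) : (MvPolynomial σ C)[X] →+* L :=
  eval₂RingHom (MvPolynomial.aeval z : MvPolynomial σ C →ₐ[C] L).toRingHom θ

theorem evp_C (z : σ → L) (θ : L) (s : MvPolynomial σ C) :
    evp z θ (Polynomial.C s) = MvPolynomial.aeval z s := eval₂_C _ _

theorem evp_X (z : σ → L) (θ : L) : evp (C := C) z θ X = θ := eval₂_X _ _

/-- The field `L` is generated by `z` and by a root `θ` of the monic irreducible equation `F`. -/
structure Pres (z : σ → L) (θ : L) (F : (MvPolynomial σ C)[X]) : Prop where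
  monic : F.Monic
  ind : AlgebraicIndependent C z
  root : evp z θ F = 0
  surj : ∀ x : L, ∃ s : MvPolynomial σ C, s ≠ 0 ∧ ∃ G : (MvPolynomial σ C)[X],
    x * MvPolynomial.aeval z s = evp z θ G
  dvd : ∀ G, evp z θ G = 0 → F ∣ G

variable {z : σ → L} {θ : L} {F : (MvPolynomial σ C)[X]}

section ext
variable {I : Type} {U : Filter I} {B : I → Type} [∀ i, CommRing (B i)]

theorem eh_pol_ext {g g' : ∀ i, (MvPolynomial σ C)[X] → B i} (h : EH U g) (h' : EH U g')
    (h1 : ∀ c, ∀ᶠ i in U, g i (Polynomial.C (.C c)) = g' i (Polynomial.C (.C c)))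
    (h2 : ∀ j, ∀ᶠ i in U, g i (Polynomial.C (.X j)) = g' i (Polynomial.C (.X j)))
    (h3 : ∀ᶠ i in U, g i X = g' i X) (G : (MvPolynomial σ C)[X]) : ∀ᶠ i in U, g i G = g' i G :=
  eh_poly_ext h h' (eh_mv_ext (eh_comp_right h Polynomial.C) (eh_comp_right h' Polynomial.C) h1 h2)
    h3 G

theorem Pres.ne (P : Pres z θ F) {s : MvPolynomial σ C} (hs : s ≠ 0) :
    MvPolynomial.aeval z s ≠ 0 := fun h => hs (P.ind (by rw [h, map_zero]))

theorem Pres.eh_ext (P : Pres z θ F) {g g' : ∀ i, L → B i} (h : EH U g) (h' : EH U g')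
    (h1 : ∀ c, ∀ᶠ i in U, g i (algebraMap C L c) = g' i (algebraMap C L c))
    (h2 : ∀ j, ∀ᶠ i in U, g i (z j) = g' i (z j)) (h3 : ∀ᶠ i in U, g i θ = g' i θ) (x : L) :
    ∀ᶠ i in U, g i x = g' i x := by
  have key := eh_pol_ext (eh_comp_right h (evp (C := C) z θ)) (eh_comp_right h' (evp z θ))
    (fun c => by simpa only [evp_C, MvPolynomial.aeval_C] using h1 c)
    (fun j => by simpa only [evp_C, MvPolynomial.aeval_X] using h2 j)
    (by simpa only [evp_X] using h3)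
  obtain ⟨s, hs, G, e⟩ := P.surj x
  exact eh_ext_frac h h' e (IsUnit.mk0 _ (P.ne hs))
    (by simpa only [evp_C] using key (Polynomial.C s)) (key G)

theorem eh_germ_ext {s : L →ₐ[C] κ} {g g' : ∀ i, Germ κ s → B i} (h : EH U g) (h' : EH U g')
    (h1 : ∀ a, ∀ᶠ i in U, g i (algebraMap κ _ a) = g' i (algebraMap κ _ a))
    (h2 : ∀ x, ∀ᶠ i in U, g i (iota κ s x) = g' i (iota κ s x)) (r : Germ κ s) :
    ∀ᶠ i in U, g i r = g' i r :=
  (upHom_eq h h').1 (RingHom.congr_fun (germ_ext (fun a => (upHom_eq h h').2 (h1 a))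
    fun x => (upHom_eq h h').2 (h2 x)) r)

end ext

/-- A family of reductions of the field `L`, of the point `s` and of its germ. -/
structure Spr (z : σ → L) (θ : L) (F : (MvPolynomial σ C)[X]) (s : L →ₐ[C] κ) where
  I : Type
  U : Filter I
  ne : U.NeBot
  X : I → FP σ
  π : ∀ i, κ → (X i).k
  rL : ∀ i, L → (X i).O
  rR : ∀ i, Germ κ s → (X i).R
  hπ : EH U π
  hL : EH U rL
  hR : EH U rR
  zero : ∀ i, π i 0 = 0
  F_eq : ∀ i, (X i).F = pp (pm fun c => π i (algebraMap C κ c)) F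
  deg : ∀ i, (X i).F.natDegree = F.natDegree
  c_eq : ∀ i j, (X i).c j = π i (s (z j))
  τ_eq : ∀ i, (X i).τ = π i (s θ)
  rL_evp : ∀ G, ∀ᶠ i in U, rL i (evp z θ G) =
    (pp (pm fun c => π i (algebraMap C κ c)) G).eval₂ (X i).io (X i).θ
  rR_k : ∀ a, ∀ᶠ i in U, rR i (algebraMap κ _ a) = algebraMap _ _ (π i a)
  rR_L : ∀ x, ∀ᶠ i in U, rR i (iota κ s x) = algebraMap _ _ (rL i x)
  eb_rR : ∀ r, ∀ᶠ i in U, (X i).eb (rR i r) = π i (rho κ s r)

section aux
variable {I : Type} {U : Filter I} {k : I → Type} [∀ i, CommRing (k i)] {π : ∀ i, C → k i}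
  {Q : I → Type} [∀ i, CommRing (Q i)]

/-- Evaluation of reduced polynomials. -/
theorem eh_eval (h : EH U π) (g : ∀ i, MvPolynomial σ (k i) →+* Q i) (t : ∀ i, Q i)
    {f : ∀ i, L → Q i} (hf : EH U f)
    (h1 : ∀ c, ∀ᶠ i in U, g i (.C (π i c)) = f i (algebraMap C L c))
    (h2 : ∀ j, ∀ᶠ i in U, g i (.X j) = f i (z j)) (h3 : ∀ᶠ i in U, t i = f i θ)
    (G : (MvPolynomial σ C)[X]) :
    ∀ᶠ i in U, (pp (pm (π i)) G).eval₂ (g i) (t i) = f i (evp z θ G) := by
  refine eh_pol_ext (eh_comp_left (eh_pp (eh_pm h)) fun i => eval₂RingHom (g i) (t i))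
    (eh_comp_right hf (evp z θ)) (fun c => ?_) (fun j => ?_) ?_ G
  · filter_upwards [eh_pp_C (eh_pm (σ := σ) h) (.C c), eh_pm_C (σ := σ) h c, h1 c] with i k1 k2 k3
    rw [k1, k2, coe_eval₂RingHom, eval₂_C, k3, evp_C, MvPolynomial.aeval_C]
  · filter_upwards [eh_pp_C (eh_pm (σ := σ) h) (.X j), eh_pm_X h j, h2 j] with i k1 k2 k3
    rw [k1, k2, coe_eval₂RingHom, eval₂_C, k3, evp_C, MvPolynomial.aeval_X]
  · filter_upwards [eh_pp_X (eh_pm (σ := σ) h), h3] with i k1 k2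
    rw [k1, coe_eval₂RingHom, eval₂_X, k2, evp_X]

end aux

theorem Pres.exists_spr (P : Pres z θ F) (s : L →ₐ[C] κ) : Nonempty (Spr z θ F s) := by
  obtain ⟨I₀, U₀, _, k, _, _, π₀, h₀⟩ := exists_red κ
  have hC₀ := eh_comp_right h₀ (algebraMap C κ)
  have ev₀ := eh_eval (z := z) (θ := θ) hC₀ (fun i => MvPolynomial.eval fun j => π₀ i (s (z j)))
    (fun i => π₀ i (s θ)) (eh_comp_right h₀ s.toRingHom)
    (fun c => Eventually.of_forall fun i => by simp)
    (fun j => Eventually.of_forall fun i => by simp) (Eventually.of_forall fun i => rfl)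
  let gd : I₀ → Prop := fun i => π₀ i 0 = 0 ∧
    pm (σ := σ) (fun c => π₀ i (algebraMap C κ c)) 1 = 1 ∧
      (pp (pm fun c => π₀ i (algebraMap C κ c)) F).eval₂
        (MvPolynomial.eval fun j => π₀ i (s (z j))) (π₀ i (s θ)) = 0
  have hg : ∀ᶠ i in U₀, gd i := by
    filter_upwards [eh_zero h₀, (eh_pm (σ := σ) hC₀).one, ev₀ F] with i k1 k2 k3
    refine ⟨k1, k2, ?_⟩
    rw [k3, P.root, map_zero, k1]
  have hne := neBot_sub hg
  set U := U₀.comap (Subtype.val : {i // gd i} → I₀) with hU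
  have hm := fun i : {i // gd i} => monic_pp (f := pm fun c => π₀ i.1 (algebraMap C κ c))
    (by simp [pm]) i.2.2.1 P.monic
  let X : {i // gd i} → FP σ := fun i => ⟨k i.1, fun j => π₀ i.1 (s (z j)), π₀ i.1 (s θ),
    pp (pm fun c => π₀ i.1 (algebraMap C κ c)) F, (hm i).1, i.2.2.2⟩
  have hπ : EH U fun i a => (π₀ i.1 a : (X i).k) := eh_comap h₀ _
  have hC := eh_comp_right hπ (algebraMap C κ)
  have ev₁ : ∀ G, ∀ᶠ i in U, (pp (pm fun c => π₀ i.1 (algebraMap C κ c)) G).eval₂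
      (MvPolynomial.eval (X i).c) (X i).τ = π₀ i.1 (s (evp z θ G)) := fun G =>
    (tendsto_comap (f := Subtype.val)).eventually (ev₀ G)
  have hf := eh_comp_left (eh_pp (eh_pm (σ := σ) hC)) fun i => eval₂RingHom (X i).io (X i).θ
  obtain ⟨rL, hL, eL⟩ := eh_extend hf (evp z θ) (fun x => by
    obtain ⟨t, ht, G, e⟩ := P.surj x
    refine ⟨Polynomial.C t, G, by rwa [evp_C], ?_⟩
    filter_upwards [eh_pp_C (eh_pm (σ := σ) hC) t, ev₁ (Polynomial.C t),
      eh_unit hπ (IsUnit.mk0 _ ((map_ne_zero s).2 (P.ne ht)))] with i k1 k2 k3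
    rw [k1, coe_eval₂RingHom, eval₂_C]
    rw [k1, eval₂_C, evp_C] at k2
    exact (X i).isUnit_io (k2 ▸ k3.ne_zero)) (fun G hG => by
    obtain ⟨H, rfl⟩ := P.dvd G hG
    filter_upwards [hf.mul F H] with i k1
    rw [k1, coe_eval₂RingHom, (X i).eval₂_io, zero_mul])
  have eL' : ∀ G, ∀ᶠ i in U, (X i).e (rL i (evp z θ G)) = π₀ i.1 (s (evp z θ G)) := fun G => by
    filter_upwards [eL G, ev₁ G] with i k1 k2
    rw [k1, ← k2, coe_eval₂RingHom, hom_eval₂, FP.e_θ]
    congr 1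
    exact RingHom.ext (X i).e_io
  have e1 : ∀ x, ∀ᶠ i in U, (X i).e (rL i x) = π₀ i.1 (s x) :=
    P.eh_ext (eh_comp_left hL fun i => (X i).e) (eh_comp_right hπ s.toRingHom)
      (fun c => by simpa only [evp_C, MvPolynomial.aeval_C] using eL' (Polynomial.C (.C c)))
      (fun j => by simpa only [evp_C, MvPolynomial.aeval_X] using eL' (Polynomial.C (.X j)))
      (by simpa only [evp_X] using eL' Polynomial.X)
  obtain ⟨rT, hT, eT⟩ := eh_tensor (C := C)
    (eh_comp_left hπ fun i => algebraMap (X i).k (X i).R)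
    (eh_comp_left hL fun i => algebraMap (X i).O (X i).R) fun c => by
      filter_upwards [eL (Polynomial.C (.C c)), eh_pp_C (eh_pm (σ := σ) hC) (.C c),
        eh_pm_C (σ := σ) hC c] with i k1 k2 k3
      rw [evp_C, MvPolynomial.aeval_C, k2, k3, coe_eval₂RingHom, eval₂_C] at k1
      rw [k1, FP.io_C, FP.alg_k]
  have e2 : ∀ a, ∀ᶠ i in U, (X i).eb (rT i a) = π₀ i.1 (ev κ s a) :=
    eh_tensor_ext (eh_comp_left hT fun i => (X i).eb) (eh_comp_right hπ (ev κ s).toRingHom)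
      (fun a => by
        filter_upwards [eT a 1, hL.one] with i k1 k2
        rw [k1, k2, map_one, mul_one, FP.eb_k]
        simp [ev_tmul])
      fun x => by
        filter_upwards [eT 1 x, hπ.one, e1 x] with i k1 k2 k3
        rw [k1, k2, map_one, one_mul, FP.eb_alg, k3]
        simp [ev_tmul]
  obtain ⟨rR, hR, eR⟩ := eh_loc (R := Germ κ s) (cen κ s).primeCompl hT fun a ha => by
    filter_upwards [e2 a, eh_unit hπ (IsUnit.mk0 (ev κ s a) ha)] with i k1 k2
    exact (X i).isUnit_of_eb (k1 ▸ k2.ne_zero)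
  have e3 : ∀ a, ∀ᶠ i in U, rR i (algebraMap κ _ a) = algebraMap _ _ (π₀ i.1 a : (X i).k) :=
    fun a => by
      filter_upwards [eR (a ⊗ₜ 1), eT a 1, hL.one] with i k1 k2 k3
      rw [k2, k3, map_one, mul_one] at k1
      exact k1
  have e4 : ∀ x, ∀ᶠ i in U, rR i (iota κ s x) = algebraMap _ _ (rL i x) := fun x => by
    filter_upwards [eR (1 ⊗ₜ x), eT 1 x, hπ.one] with i k1 k2 k3
    rw [k2, k3, map_one, one_mul] at k1
    exact k1
  refine ⟨⟨_, U, hne, X, fun i a => π₀ i.1 a, rL, rR, hπ, hL, hR,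
    fun i => i.2.1, fun i => rfl, fun i => (hm i).2, fun i j => rfl,
    fun i => rfl, eL, e3, e4, ?_⟩⟩
  refine eh_germ_ext (eh_comp_left hR fun i => (X i).eb) (eh_comp_right hπ (rho κ s).toRingHom)
    (fun a => ?_) fun x => ?_
  · filter_upwards [e3 a] with i k1
    rw [k1, FP.eb_k]
    simp
  · filter_upwards [e4 x, e1 x] with i k1 k2
    rw [k1, FP.eb_alg, k2]
    simp [rho_iota]

namespace Spr
variable {s : L →ₐ[C] κ} (S : Spr z θ F s)

/-- The reduction of the constants. -/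
abbrev πC (i : S.I) (c : C) : (S.X i).k := S.π i (algebraMap C κ c)

theorem hC : EH S.U S.πC := eh_comp_right S.hπ (algebraMap C κ)

theorem rL_pol (t : MvPolynomial σ C) :
    ∀ᶠ i in S.U, S.rL i (MvPolynomial.aeval z t) = (S.X i).io (pm (S.πC i) t) := by
  filter_upwards [S.rL_evp (Polynomial.C t), eh_pp_C (eh_pm (σ := σ) S.hC) t] with i k1 k2
  rw [evp_C] at k1
  rw [k1, k2, eval₂_C]

theorem rL_θ : ∀ᶠ i in S.U, S.rL i θ = (S.X i).θ := by
  filter_upwards [S.rL_evp Polynomial.X, eh_pp_X (eh_pm (σ := σ) S.hC)] with i k1 k2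
  rw [evp_X] at k1
  rw [k1, k2, eval₂_X]

theorem rL_z (j : σ) : ∀ᶠ i in S.U, S.rL i (z j) = (S.X i).io (.X j) := by
  filter_upwards [S.rL_pol (.X j), eh_pm_X S.hC j] with i k1 k2
  rwa [MvPolynomial.aeval_X, k2] at k1

theorem rL_C (c : C) :
    ∀ᶠ i in S.U, S.rL i (algebraMap C L c) = algebraMap _ _ (S.πC i c) := by
  filter_upwards [S.rL_pol (.C c), eh_pm_C (σ := σ) S.hC c] with i k1 k2
  rwa [MvPolynomial.aeval_C, k2] at k1

/-- A root of a polynomial over the coordinate ring reduces to a root. -/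
theorem root (G : (MvPolynomial σ C)[X]) {x : L} (hx : evp z x G = 0) :
    ∀ᶠ i in S.U, (pp (pm (S.πC i)) G).eval₂ (S.X i).io (S.rL i x) = 0 := by
  filter_upwards [eh_eval (z := z) (θ := x) S.hC (fun i => (S.X i).io) (fun i => S.rL i x) S.hL
    (fun c => (S.rL_C c).mono fun i h => h.symm) (fun j => (S.rL_z j).mono fun i h => h.symm)
    (Eventually.of_forall fun i => rfl) G, eh_zero S.hL] with i k1 k2
  rw [k1, hx, k2]

/-- The maximal ideal reduces onto the maximal ideal. -/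
theorem sub_mem [Finite σ] {m : Ideal (Germ κ s)} (hm : ∀ r, rho κ s r = 0 → r ∈ m)
    {m' : ∀ i, Ideal (S.X i).R} (h : IR S.U S.rR m m') :
    ∀ᶠ i in S.U, ∀ r : (S.X i).R, ∃ a : (S.X i).k, r - algebraMap _ _ a ∈ m' i := by
  have key : ∀ x : L, ∀ᶠ i in S.U,
      algebraMap _ (S.X i).R (S.rL i x) - algebraMap _ _ (S.π i (s x)) ∈ m' i := fun x => by
    filter_upwards [h (iota κ s x - algebraMap κ _ (s x)) (hm _ (by simp [rho_iota])),
      eh_sub S.hR (iota κ s x) (algebraMap κ _ (s x)), S.rR_L x, S.rR_k (s x)] with i k1 k2 k3 k4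
    rwa [k2, k3, k4] at k1
  filter_upwards [eventually_all.2 fun j => key (z j), eventually_all.2 S.rL_z, key θ, S.rL_θ]
    with i k1 k2 k3 k4 r
  refine ⟨_, (S.X i).sub_mem _ (fun j => ?_) ?_ r⟩
  · rw [S.c_eq, ← k2]
    exact k1 j
  · rw [S.τ_eq, ← k4]
    exact k3

/-- The universal property of the reductions. -/
theorem lift [Finite σ] (P : Pres z θ F) {Q : S.I → Type} [∀ i, CommRing (Q i)]
    [∀ i, Algebra (S.X i).k (Q i)] (ε : ∀ i, Q i →+* (S.X i).k)
    (hε : ∀ i q, ε i q ≠ 0 → IsUnit q) (hε' : ∀ i a, ε i (algebraMap _ _ a) = a)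
    {g : ∀ i, Germ κ s → Q i} (hg : EH S.U g)
    (h1 : ∀ a, ∀ᶠ i in S.U, g i (algebraMap κ _ a) = algebraMap _ _ (S.π i a))
    (h2 : ∀ r, ∀ᶠ i in S.U, ε i (g i r) = S.π i (rho κ s r)) :
    ∃ jb : ∀ i, (S.X i).R → Q i, (∀ᶠ i in S.U, ∃ J : (S.X i).R →+* Q i, (∀ x, jb i x = J x) ∧
      ∀ a, J (algebraMap _ _ a) = algebraMap (S.X i).k _ a) ∧
      ∀ r, ∀ᶠ i in S.U, jb i (S.rR i r) = g i r := by
  classical
  let g₁ : ∀ i, MvPolynomial σ (S.X i).k →+* Q i := fun i =>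
    MvPolynomial.eval₂Hom (algebraMap _ _) fun j => g i (iota κ s (z j))
  have hι := eh_comp_right hg (iota κ s).toRingHom
  have k0 : ∀ c : C, iota κ s (algebraMap C L c) = algebraMap κ _ (algebraMap C κ c) := fun c => by
    rw [AlgHom.commutes, ← IsScalarTower.algebraMap_apply]
  have h3 : ∀ᶠ i in S.U, ∃ J : (S.X i).R →+* Q i,
      (∀ t, J (algebraMap _ _ ((S.X i).io t)) = g₁ i t) ∧
        J (algebraMap _ _ (S.X i).θ) = g i (iota κ s θ) := by
    filter_upwards [eh_eval (z := z) (θ := θ) S.hC g₁ (fun i => g i (iota κ s θ)) hι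
      (fun c => (h1 (algebraMap C κ c)).mono fun i h => by
        rw [MvPolynomial.eval₂Hom_C, ← h, ← k0]; rfl)
      (fun j => Eventually.of_forall fun i => MvPolynomial.eval₂Hom_X' _ _ _)
      (Eventually.of_forall fun i => rfl) F, eh_zero hg,
      eventually_all.2 fun j => h2 (iota κ s (z j)), h2 (iota κ s θ)] with i k1 k2 k3 k4
    refine (S.X i).exists_lift _ _ ?_ (ε i) (hε i) (fun t => ?_) ?_
    · rw [S.F_eq, k1, P.root, map_zero, k2]
    · refine RingHom.congr_fun (f := (ε i).comp (g₁ i)) (MvPolynomial.ringHom_ext (fun a => ?_)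
        fun j => ?_) t
      · rw [RingHom.comp_apply, MvPolynomial.eval₂Hom_C, hε', MvPolynomial.eval_C]
      · rw [RingHom.comp_apply, MvPolynomial.eval₂Hom_X', k3, rho_iota, MvPolynomial.eval_X, S.c_eq]
    · rw [k4, rho_iota, S.τ_eq]
  choose! J hJ using fun i (h : ∃ J : (S.X i).R →+* Q i,
      (∀ t, J (algebraMap _ _ ((S.X i).io t)) = g₁ i t) ∧
        J (algebraMap _ _ (S.X i).θ) = g i (iota κ s θ)) => (⟨h.choose, _, fun _ => rfl,
          h.choose_spec⟩ : ∃ j : (S.X i).R → Q i, ∃ J : (S.X i).R →+* Q i, (∀ x, j x = J x) ∧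
      (∀ t, J (algebraMap _ _ ((S.X i).io t)) = g₁ i t) ∧
        J (algebraMap _ _ (S.X i).θ) = g i (iota κ s θ))
  have h4 := h3.mono hJ
  have h5 : ∀ᶠ i in S.U, ∃ J' : (S.X i).R →+* Q i, (∀ x, J i x = J' x) ∧
      ∀ a, J' (algebraMap _ _ a) = algebraMap (S.X i).k _ a :=
    h4.mono fun i ⟨J', l1, l2, _⟩ => ⟨J', l1, fun a => by
      rw [← FP.alg_k, ← FP.io_C, l2, MvPolynomial.eval₂Hom_C]⟩
  have h6 := eh_comp_ev S.hR (h4.mono fun i ⟨J', l1, _⟩ => ⟨J', l1⟩)
  have h7 : ∀ a, ∀ᶠ i in S.U, J i (S.rR i (algebraMap κ _ a)) = g i (algebraMap κ _ a) :=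
    fun a => by
      filter_upwards [h5, S.rR_k a, h1 a] with i ⟨J', l1, l2⟩ l3 l4
      rw [l3, l1, l2, l4]
  refine ⟨J, h5, eh_germ_ext h6 hg h7
    (P.eh_ext (eh_comp_right h6 (iota κ s).toRingHom) hι (fun c => ?_) (fun j => ?_) ?_)⟩
  · exact (h7 (algebraMap C κ c)).mono fun i h => by rw [← k0] at h; exact h
  · filter_upwards [h4, S.rR_L (z j), S.rL_z j] with i ⟨J', l1, l2, _⟩ l3 l4
    rw [l3, l4, l1, l2]
    exact MvPolynomial.eval₂Hom_X' _ _ _
  · filter_upwards [h4, S.rR_L θ, S.rL_θ] with i ⟨J', l1, _, l2⟩ l3 l4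
    rw [l3, l4, l1, l2]

end Spr

end Pool.Agent.Lib.A35
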