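import Pool.Agent.Lib.A35.Spr2
import Pool.Agent.Lib.A35.Core
import Pool.Agent.Lib.A35.Lin

/-! Jets, presentations and linear algebra for the passage to characteristic zero. -/

set_option autoImplicit false
set_option linter.unusedVariables false
set_option linter.unusedSectionVars false

open Filter Polynomial Module Set

noncomputable section

namespace Pool.Agent.Lib.A35

open Pool.Agent.Lib.UR G Car

/-! ### Truncated polynomials -/
section jet
variable (τ k : Type) [Field k] (t : ℕ)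

/-- Polynomials modulo terms of degree larger than `t`. -/
abbrev Jt : Type :=
  MvPolynomial τ k ⧸ Ideal.span (range (MvPolynomial.X : τ → MvPolynomial τ k)) ^ (t + 1)

variable {τ k t}

theorem mem_jt {P : MvPolynomial τ k} {t : ℕ} :
    P ∈ Ideal.span (range (MvPolynomial.X : τ → MvPolynomial τ k)) ^ t ↔
      ∀ α, Finsupp.degree α < t → P.coeff α = 0 := MvPolynomial.mem_pow_idealOfVars_iff' t P

/-- A coefficient of a truncated polynomial. -/
def co (α : τ →₀ ℕ) (h : Finsupp.degree α ≤ t) : Jt τ k t →ₗ[k] k :=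
  Submodule.liftQ _ (MvPolynomial.lcoeff k α)
      (fun P hP => mem_jt.1 hP α (Nat.lt_succ_of_le h)) ∘ₗ
    (Submodule.Quotient.restrictScalarsEquiv k _).symm.toLinearMap

theorem co_mk (α : τ →₀ ℕ) (h : Finsupp.degree α ≤ t) (P : MvPolynomial τ k) :
    co α h (Ideal.Quotient.mk _ P) = P.coeff α := rfl

theorem eq_zero_of_co {q : Jt τ k t} (h : ∀ α h, co α h q = 0) : q = 0 := by
  obtain ⟨P, rfl⟩ := Ideal.Quotient.mk_surjective q
  exact Ideal.Quotient.eq_zero_iff_mem.2 (mem_jt.2 fun α hα => h α (Nat.le_of_lt_succ hα))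

/-- The constant term. -/
def eps : Jt τ k t →+* k :=
  Ideal.Quotient.lift _ MvPolynomial.constantCoeff fun P hP => mem_jt.1 hP 0 (by simp)

theorem eps_mk (P : MvPolynomial τ k) :
    eps (t := t) (Ideal.Quotient.mk _ P) = P.coeff 0 := rfl

theorem eps_alg (a : k) : eps (algebraMap k (Jt τ k t) a) = a := by
  change eps (Ideal.Quotient.mk _ (MvPolynomial.C a)) = a
  rw [eps_mk, MvPolynomial.coeff_zero_C]

theorem isUnit_of_eps (q : Jt τ k t) (h : eps q ≠ 0) : IsUnit q := by
  obtain ⟨P, rfl⟩ := Ideal.Quotient.mk_surjective q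
  have h1 : P - MvPolynomial.C (P.coeff 0) ∈
      Ideal.span (range (MvPolynomial.X : τ → MvPolynomial τ k)) ^ 1 := mem_jt.2 fun α hα => by
    rw [(Finsupp.degree_eq_zero_iff α).1 (Nat.lt_one_iff.1 hα)]
    simp
  rw [pow_one] at h1
  have h2 : IsNilpotent (Ideal.Quotient.mk _ (P - MvPolynomial.C (P.coeff 0)) : Jt τ k t) :=
    ⟨t + 1, by rw [← map_pow]; exact Ideal.Quotient.eq_zero_iff_mem.2 (Ideal.pow_mem_pow h1 _)⟩
  have h3 : IsUnit (Ideal.Quotient.mk _ (MvPolynomial.C (P.coeff 0)) : Jt τ k t) :=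
    (IsUnit.mk0 _ h).map (algebraMap k (Jt τ k t))
  have h4 := h2.isUnit_add_left_of_commute h3 (Commute.all _ _)
  rwa [← map_add, add_sub_cancel] at h4

theorem exists_redJ {I : Type} {U : Filter I} {k' : I → Type} [∀ i, Field (k' i)]
    {π : ∀ i, k → k' i} (h : EH U π) : ∃ f : ∀ i, Jt τ k t → Jt τ (k' i) t, EH U f ∧
      (∀ P, ∀ᶠ i in U, f i (Ideal.Quotient.mk _ P) = Ideal.Quotient.mk _ (pm (π i) P)) ∧
      (∀ α h q, ∀ᶠ i in U, co α h (f i q) = π i (co α h q)) ∧
      ∀ q, ∀ᶠ i in U, eps (f i q) = π i (eps q) := by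
  have hf := eh_comp_left (eh_pm (σ := τ) h) fun i => Ideal.Quotient.mk
    (Ideal.span (range (MvPolynomial.X : τ → MvPolynomial τ (k' i))) ^ (t + 1))
  obtain ⟨f, h1, h2⟩ := eh_extend hf (Ideal.Quotient.mk
    (Ideal.span (range (MvPolynomial.X : τ → MvPolynomial τ k)) ^ (t + 1))) (fun q => by
      obtain ⟨P, rfl⟩ := Ideal.Quotient.mk_surjective q
      exact ⟨1, P, by simp, eh_unit hf isUnit_one⟩) fun P hP => by
    filter_upwards [eh_zero h] with i h0
    refine Ideal.Quotient.eq_zero_iff_mem.2 (mem_jt.2 fun α hα => ?_)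
    rw [coeff_pm h0, mem_jt.1 (Ideal.Quotient.eq_zero_iff_mem.1 hP) α hα, h0]
  refine ⟨f, h1, h2, fun α hα q => ?_, fun q => ?_⟩
  · obtain ⟨P, rfl⟩ := Ideal.Quotient.mk_surjective q
    filter_upwards [h2 P, eh_zero h] with i k1 k2
    rw [k1, co_mk, co_mk, coeff_pm k2]
  · obtain ⟨P, rfl⟩ := Ideal.Quotient.mk_surjective q
    filter_upwards [h2 P, eh_zero h] with i k1 k2
    rw [k1, eps_mk, eps_mk, coeff_pm k2]

end jet

/-! ### The presentation of a finite extension of a field of rational functions -/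
section pres
variable {C L : Type} [Field C] [Field L] [Algebra C L] {n : ℕ} {z : Fin n → L} {θ : L}

/-- The coordinates in the field which they generate. -/
def phK (z : Fin n → L) : MvPolynomial (Fin n) C →ₐ[C] IntermediateField.adjoin C (range z) :=
  MvPolynomial.aeval fun j => ⟨z j, IntermediateField.subset_adjoin _ _ ⟨j, rfl⟩⟩

theorem alg_phK (s : MvPolynomial (Fin n) C) :
    algebraMap _ L (phK z s) = MvPolynomial.aeval z s :=
  AlgHom.congr_fun (MvPolynomial.comp_aeval _
    (IsScalarTower.toAlgHom C (IntermediateField.adjoin C (range z)) L)) s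

theorem aeval_phK (x : L) (G : (MvPolynomial (Fin n) C)[X]) :
    aeval x (G.map (phK z).toRingHom) = evp z x G := by
  rw [aeval_def, eval₂_map]
  exact congrArg (fun f => G.eval₂ f x) (RingHom.ext alg_phK)

theorem exists_pres (hz : AlgebraicIndependent C z)
    [FiniteDimensional (IntermediateField.adjoin C (range z)) L]
    (hθ : IntermediateField.adjoin (IntermediateField.adjoin C (range z)) {θ} = ⊤) {e : ℕ}
    (h : θ ∈ cl (sys C z ^ e)) : ∃ F : (MvPolynomial (Fin n) C)[X], Pres z θ F ∧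
      F.map (phK z).toRingHom = minpoly (IntermediateField.adjoin C (range z)) θ ∧
      F.natDegree = finrank (IntermediateField.adjoin C (range z)) L := by
  obtain ⟨F, h1, -, h2, h3⟩ := exists_eqn hz e h
  set K := IntermediateField.adjoin C (range z)
  have hi : Function.Injective (phK (C := C) z).toRingHom := fun a b e =>
    hz (by rw [← alg_phK, ← alg_phK]; exact congrArg _ e)
  have h4 : F.map (phK z).toRingHom = minpoly K θ := by
    apply Polynomial.map_injective _ (algebraMap K L).injective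
    rw [Polynomial.map_map, ← h2]
    exact congrArg F.map (RingHom.ext alg_phK)
  refine ⟨F, ⟨h1, hz, h3, fun x => ?_, fun G hG => ?_⟩, h4, ?_⟩
  · have h5 : x ∈ Algebra.adjoin K {θ} := by
      rw [← IntermediateField.adjoin_simple_toSubalgebra_of_isAlgebraic
        (Algebra.IsAlgebraic.isAlgebraic θ), hθ]
      trivial
    rw [Algebra.adjoin_singleton_eq_range_aeval] at h5
    obtain ⟨G, rfl⟩ := h5
    change ∃ s : MvPolynomial (Fin n) C, s ≠ 0 ∧ ∃ G', aeval θ G * _ = _
    induction G using Polynomial.induction_on' with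
    | add G G' h5 h6 =>
      obtain ⟨s, hs, H, e⟩ := h5
      obtain ⟨s', hs', H', e'⟩ := h6
      refine ⟨s * s', mul_ne_zero hs hs', H * Polynomial.C s' + H' * Polynomial.C s, ?_⟩
      rw [map_add, map_add, map_mul, map_mul, map_mul, evp_C, evp_C, ← e, ← e']
      ring
    | monomial m a =>
      obtain ⟨r, s, e⟩ := (IntermediateField.mem_adjoin_range_iff C z a).1 a.2
      rw [aeval_monomial]
      change ∃ s : MvPolynomial (Fin n) C, s ≠ 0 ∧ ∃ G', (a : L) * _ * _ = _
      by_cases hs : s = 0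
      · exact ⟨1, one_ne_zero, 0, by simp [e, hs]⟩
      · refine ⟨s, hs, Polynomial.C r * X ^ m, ?_⟩
        have h7 : MvPolynomial.aeval z s ≠ 0 := fun h => hs (hz (by rw [h, map_zero]))
        rw [map_mul, map_pow, evp_C, evp_X, e]
        field_simp
  · rw [← Polynomial.map_dvd_map _ hi h1, h4]
    exact minpoly.dvd _ _ (by rwa [aeval_phK])
  · rw [← h1.natDegree_map (phK z).toRingHom, h4,
      ← IntermediateField.adjoin.finrank (Algebra.IsIntegral.isIntegral θ), hθ,
      IntermediateField.finrank_top']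

theorem tr_dual {K : Type} [Field K] [Algebra K L] [FiniteDimensional K L]
    [Algebra.IsSeparable K L] (hθ : IntermediateField.adjoin K {θ} = ⊤) {N : ℕ}
    (hN : N = finrank K L) (a : Fin N → K) (x : L)
    (h : x * aeval θ (minpoly K θ).derivative = ∑ l, a l • aeval θ (cq (minpoly K θ) l))
    (l : Fin N) : Algebra.trace K L (x * θ ^ (l : ℕ)) = a l := by
  have h0 : aeval θ (minpoly K θ).derivative ≠ 0 :=
    (Algebra.IsSeparable.isSeparable K θ).aeval_derivative_ne_zero (minpoly.aeval K θ)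
  have h1 := euler_field θ hθ (minpoly K θ) (minpoly.aeval K θ) (N := N)
    (hN ▸ minpoly.natDegree_le θ)
  let T : L →ₗ[K] (Fin N → K) :=
    LinearMap.pi fun l => Algebra.trace K L ∘ₗ LinearMap.mulRight K (θ ^ (l : ℕ))
  have hT : ∀ y l, T y l = Algebra.trace K L (y * θ ^ (l : ℕ)) := fun _ _ => rfl
  have h2 : Function.Injective T := fun y y' e => mul_right_cancel₀ h0 (by
    rw [h1, h1]
    exact Finset.sum_congr rfl fun l _ => by rw [← hT, ← hT, e])
  obtain ⟨y, rfl⟩ := (LinearMap.injective_iff_surjective_of_finrank_eq_finrank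
    (by simp [hN])).1 h2 a
  rw [mul_right_cancel₀ h0 (h.trans (h1 y).symm), hT]

theorem Pres.expand {F : (MvPolynomial (Fin n) C)[X]} (P : Pres z θ F) (x : L) :
    ∃ s : MvPolynomial (Fin n) C, s ≠ 0 ∧ ∃ r : Fin F.natDegree → MvPolynomial (Fin n) C,
      MvPolynomial.aeval z s * x = ∑ l, MvPolynomial.aeval z (r l) * θ ^ (l : ℕ) := by
  obtain ⟨s, hs, G, e⟩ := P.surj x
  refine ⟨s, hs, fun l => (G %ₘ F).coeff l, ?_⟩
  have h1 : evp z θ G = evp z θ (G %ₘ F) := by
    conv_lhs => rw [← modByMonic_add_div G F, map_add, map_mul, P.root, zero_mul, add_zero]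
  rw [mul_comm, e, h1, Fin.sum_univ_eq_sum_range
    (fun l => MvPolynomial.aeval z ((G %ₘ F).coeff l) * θ ^ l)]
  by_cases h0 : G %ₘ F = 0
  · simp [h0]
  · exact eval₂_eq_sum_range' _ (natDegree_lt_natDegree h0 (degree_modByMonic_lt G P.monic)) _

end pres

/-! ### Coordinates on tuples of polynomials of bounded degree -/
section lin
variable {σ β k : Type} [Finite σ] [CommRing k]

variable (σ) in
/-- The exponents of degree at most `D`. -/
abbrev Ex (D : ℕ) : Type := ↥(NV.fin_deg (σ := σ) D).toFinset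

theorem Ex.le {D : ℕ} (α : Ex σ D) : Finsupp.degree α.1 ≤ D :=
  (NV.fin_deg (σ := σ) D).mem_toFinset.1 α.2

/-- The polynomial with given coefficients. -/
def pol {D : ℕ} (c : β × Ex σ D → k) (i : β) : MvPolynomial σ k :=
  ∑ α : Ex σ D, c (i, α) • MvPolynomial.monomial α.1 1

theorem deg_pol {D : ℕ} (c : β × Ex σ D → k) (i : β) : (pol c i).totalDegree ≤ D :=
  MvPolynomial.totalDegree_finsetSum_le fun α _ => (MvPolynomial.totalDegree_smul_le _ _).trans
    ((MvPolynomial.totalDegree_monomial_le _ _).trans α.le)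

theorem pol_coeff {D : ℕ} (P : β → MvPolynomial σ k) (h : ∀ i, (P i).totalDegree ≤ D) (i : β) :
    pol (D := D) (fun I => (P I.1).coeff I.2.1) i = P i := by
  rw [pol, Finset.sum_coe_sort _ fun α => (P i).coeff α • MvPolynomial.monomial α (1 : k)]
  exact (NV.eq_sum (h i)).symm

theorem sum_pol [Fintype β] {D : ℕ} {M : Type} [AddCommGroup M] [Module k M]
    (f : β → MvPolynomial σ k →ₗ[k] M) (c : β × Ex σ D → k) :
    ∑ I, c I • f I.1 (MvPolynomial.monomial I.2.1 1) = ∑ i, f i (pol c i) := by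
  simp only [Fintype.sum_prod_type, pol, map_sum, map_smul]

theorem coeff_rel [Fintype β] {D : ℕ} (ρ : β → MvPolynomial σ k) (μ : σ →₀ ℕ)
    (c : β × Ex σ D → k) :
    ∑ I : β × Ex σ D, (ρ I.1 * MvPolynomial.monomial I.2.1 1).coeff μ * c I =
      (∑ i, ρ i * pol c i).coeff μ := by
  have := sum_pol (fun i => MvPolynomial.lcoeff k μ ∘ₗ LinearMap.mulLeft k (ρ i)) c
  simp only [LinearMap.comp_apply, LinearMap.mulLeft_apply, MvPolynomial.lcoeff_apply,
    smul_eq_mul] at this
  rw [MvPolynomial.coeff_sum, ← this]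
  exact Finset.sum_congr rfl fun I _ => mul_comm _ _

theorem sum_rec {N : ℕ} {γ O : Type} [Fintype γ] [CommRing O] [Algebra k O] {D : ℕ}
    (g : MvPolynomial σ k →ₐ[k] O) (v : Fin N → O) (w : O) (y : (Fin N ⊕ γ) × Ex σ D → O)
    (h : ∀ I, y I * w = g (MvPolynomial.monomial I.2.1 1) * Sum.elim v 0 I.1)
    (c : (Fin N ⊕ γ) × Ex σ D → k) :
    (∑ I, c I • y I) * w = ∑ l, g (pol c (.inl l)) * v l := by
  have := sum_pol (fun i => LinearMap.mulRight k (Sum.elim v (0 : γ → O) i) ∘ₗ g.toLinearMap) c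
  simp only [LinearMap.comp_apply, LinearMap.mulRight_apply, AlgHom.toLinearMap_apply,
    Fintype.sum_sum_type, Sum.elim_inl, Sum.elim_inr, Pi.zero_apply, mul_zero,
    Finset.sum_const_zero, add_zero] at this
  rw [← this, Finset.sum_mul]
  exact Finset.sum_congr rfl fun I _ => by rw [smul_mul_assoc, h]

end lin

end Pool.Agent.Lib.A35
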